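import Pool.Agent.Lib.MP_d32f96_gt.Frame

/-! Logarithms on compact plane sets, the lemma of Janiszewski, the crossing lemma. -/

namespace Pool.Agent.Lib.MP_d32f96_gt

open Set Filter Topology Metric Complex Bornology
open Pool.Agent.Lib.MP_1e9af3_an Pool.Agent.Lib.MP_069d55_gt

noncomputable section

namespace T1

lemma log_congr {g h : ℂ → ℂ} {s : Set ℂ} (hg : HasLog g s) (e : ∀ z ∈ s, g z = h z) :
    HasLog h s := by
  obtain ⟨L, hL, he⟩ := hg
  exact ⟨L, hL, fun z hz => (he z hz).trans (e z hz)⟩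

lemma log_mul {g h : ℂ → ℂ} {s : Set ℂ} (hg : HasLog g s) (hh : HasLog h s) :
    HasLog (fun z => g z * h z) s := by
  obtain ⟨L, hL, he⟩ := hg
  obtain ⟨M, hM, he'⟩ := hh
  exact ⟨fun z => L z + M z, hL.add hM, fun z hz => by rw [ee_add, he z hz, he' z hz]⟩

lemma log_inv {g : ℂ → ℂ} {s : Set ℂ} (hg : HasLog g s) : HasLog (fun z => (g z)⁻¹) s := by
  obtain ⟨L, hL, he⟩ := hg
  exact ⟨fun z => - L z, hL.neg, fun z hz => by rw [ee_neg, he z hz]⟩

lemma log_mono {g : ℂ → ℂ} {s t : Set ℂ} (hg : HasLog g s) (h : t ⊆ s) : HasLog g t := by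
  obtain ⟨L, hL, he⟩ := hg
  exact ⟨L, hL.mono h, fun z hz => he z (h hz)⟩

lemma log_ne {g : ℂ → ℂ} {s : Set ℂ} (hg : HasLog g s) {z : ℂ} (hz : z ∈ s) : g z ≠ 0 := by
  obtain ⟨L, -, he⟩ := hg
  exact he z hz ▸ ee_ne _

lemma log_const {c : ℂ} (hc : c ≠ 0) (s : Set ℂ) : HasLog (fun _ => c) s :=
  ⟨fun _ => log c / tpi, continuousOn_const, fun _ _ => ee_log hc⟩

lemma log_slit {g : ℂ → ℂ} {s : Set ℂ} (hg : ContinuousOn g s) (h : ∀ z ∈ s, g z ∈ slitPlane) :
    HasLog g s :=
  ⟨fun z => log (g z) / tpi, (hg.clog h).div_const _,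
    fun z hz => ee_log (slitPlane_ne_zero (h z hz))⟩

/-- logarithms on two closed sets with connected intersection can be glued -/
lemma log_union {g : ℂ → ℂ} {A B : Set ℂ} (hA : IsClosed A) (hB : IsClosed B)
    (hc : IsPreconnected (A ∩ B)) (h1 : HasLog g A) (h2 : HasLog g B) : HasLog g (A ∪ B) := by
  classical
  obtain ⟨L, hL, he⟩ := h1
  obtain ⟨M, hM, he'⟩ := h2
  have hi : ∀ z ∈ A ∩ B, ∃ n : ℤ, L z - M z = n := fun z hz => by
    obtain ⟨n, hn⟩ := ee_eq_iff.1 ((he z hz.1).trans (he' z hz.2).symm)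
    exact ⟨n, by rw [hn]; ring⟩
  obtain ⟨n, hn⟩ : ∃ n : ℤ, ∀ z ∈ A ∩ B, L z = M z + n := by
    rcases (A ∩ B).eq_empty_or_nonempty with h | ⟨x, hx⟩
    · exact ⟨0, fun z hz => by rw [h] at hz; exact hz.elim⟩
    · obtain ⟨n, hn⟩ := hi x hx
      refine ⟨n, fun z hz => ?_⟩
      have := int_const hc (g := fun z => L z - M z)
        ((hL.mono inter_subset_left).sub (hM.mono inter_subset_right)) hi hz hx
      linear_combination this + hn
  have e1 : ∀ z ∈ A, A.piecewise L (fun z => M z + n) z = L z := fun z hz =>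
    piecewise_eq_of_mem _ _ _ hz
  have e2 : ∀ z ∈ B, A.piecewise L (fun z => M z + n) z = M z + n := fun z hz => by
    by_cases h : z ∈ A
    · rw [e1 z h, hn z ⟨h, hz⟩]
    · exact piecewise_eq_of_notMem _ _ _ h
  refine ⟨A.piecewise L fun z => M z + n, ContinuousOn.union_of_isClosed (hL.congr e1)
    ((hM.add continuousOn_const).congr e2) hA hB, ?_⟩
  rintro z (hz | hz)
  · rw [e1 z hz, he z hz]
  · rw [e2 z hz, ee_add_int, he' z hz]

lemma log_of_cc {K : Set ℂ} (hK : IsClosed K) {a b : ℂ} (hb : b ∈ connectedComponentIn Kᶜ a) :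
    HasLog (fun z => (z - a) / (z - b)) K := by
  have ha : a ∈ Kᶜ := connectedComponentIn_nonempty_iff.1 ⟨b, hb⟩
  have hne : ∀ x ∈ connectedComponentIn Kᶜ a, ∀ z ∈ K, z - x ≠ 0 := fun x hx z hz h =>
    connectedComponentIn_subset _ _ hx (sub_eq_zero.1 h ▸ hz)
  refine (isPreconnected_connectedComponentIn (x := a) (F := Kᶜ)).induction₂'
    (fun x y => HasLog (fun z => (z - x) / (z - y)) K) (fun x hx => ?_)
    (fun x y w _ hy _ h1 h2 => ?_) (mem_connectedComponentIn ha) hb
  · obtain ⟨δ, hδ, hb⟩ := Metric.isOpen_iff.1 hK.isOpen_compl x (connectedComponentIn_subset _ _ hx)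
    filter_upwards [nhdsWithin_le_nhds (ball_mem_nhds x hδ)] with y hy
    have h1 : HasLog (fun z => (z - y) / (z - x)) K := by
      refine log_slit (ContinuousOn.div (by fun_prop) (by fun_prop) (hne x hx)) fun z hz =>
        mem_slit_of_close ?_
      have h2 : ¬ dist z x < δ := fun h => hb h hz
      rw [dist_eq_norm] at h2
      rw [mem_ball, dist_comm, dist_eq_norm] at hy
      rw [show z - y - (z - x) = x - y by ring]
      linarith
    exact ⟨log_congr (log_inv h1) fun z _ => inv_div _ _, h1⟩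
  · refine log_congr (log_mul h1 h2) fun z hz => ?_
    have := hne y hy z hz
    field_simp

lemma log_far {K : Set ℂ} {b : ℂ} (h : ∀ z ∈ K, ‖z‖ < ‖b‖) : HasLog (fun z => z - b) K := by
  rcases K.eq_empty_or_nonempty with rfl | ⟨x, hx⟩
  · exact ⟨0, continuousOn_empty _, fun _ h => h.elim⟩
  have hb : -b ≠ 0 := neg_ne_zero.2 (norm_pos_iff.1 ((norm_nonneg x).trans_lt (h x hx)))
  have h1 : HasLog (fun z => (z - b) / (-b)) K :=
    log_slit (by fun_prop) fun z hz => mem_slit_of_close (by simpa using h z hz)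
  exact log_congr (log_mul (log_const hb K) h1) fun z _ => mul_div_cancel₀ _ hb

/-- the frontier of a complementary component of a closed set lies in the set -/
lemma frontier_cc {K : Set ℂ} (hK : IsClosed K) (a : ℂ) :
    frontier (connectedComponentIn Kᶜ a) ⊆ K := by
  intro z hz
  by_contra h
  rw [(hK.isOpen_compl.connectedComponentIn (x := a)).frontier_eq] at hz
  obtain ⟨w, hw1, hw2⟩ := mem_closure_iff.1 hz.1 _ (hK.isOpen_compl.connectedComponentIn (x := z))
    (mem_connectedComponentIn h)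
  refine hz.2 ?_
  rw [connectedComponentIn_eq hw2, ← connectedComponentIn_eq hw1]
  exact mem_connectedComponentIn h

lemma tietze {K : Set ℂ} (hK : IsClosed K) {L : ℂ → ℂ} (hL : ContinuousOn L K) :
    ∃ G : ℂ → ℂ, Continuous G ∧ ∀ z ∈ K, G z = L z := by
  obtain ⟨G, hG⟩ := ContinuousMap.exists_restrict_eq hK ⟨K.domRestrict L, hL.domRestrict⟩
  exact ⟨G, G.continuous, fun z hz => congrArg (fun f : C(K, ℂ) => f ⟨z, hz⟩) hG⟩

lemma hard {K : Set ℂ} (hK : IsClosed K) {a : ℂ} (ha : a ∉ K)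
    (hU : IsBounded (connectedComponentIn Kᶜ a)) {h L : ℂ → ℂ} (hh : Continuous h)
    (h0 : ∀ z ∈ connectedComponentIn Kᶜ a, h z ≠ 0) (hL : ContinuousOn L K)
    (he : ∀ z ∈ K, ee (L z) * h z = z - a) : False := by
  classical
  obtain ⟨G, hG, hGL⟩ := tietze hK hL
  set U := connectedComponentIn Kᶜ a with hUd
  have hc : Continuous (U.piecewise (fun z => ee (G z) * h z) fun z => z - a) :=
    Continuous.piecewise (fun z hz => by
      have := frontier_cc hK a hz
      simp only [hGL z this, he z this]) (by fun_prop) (by fun_prop)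
  obtain ⟨l, hl, hle⟩ := exists_lift (U := (univ : Set ℂ)) convex_univ isOpen_univ univ_nonempty
    hc.continuousOn (fun z _ => by
      by_cases hz : z ∈ U
      · rw [piecewise_eq_of_mem _ _ _ hz]
        exact mul_ne_zero (ee_ne _) (h0 z hz)
      · rw [piecewise_eq_of_notMem _ _ _ hz]
        exact fun h => hz (sub_eq_zero.1 h ▸ mem_connectedComponentIn ha))
  have hl' : Continuous l := continuousOn_univ.1 hl
  obtain ⟨R, hR0, hR⟩ := hU.subset_ball_lt 0 a
  have h1 : HasWind (fun θ : ℝ => (R : ℂ) * ee θ) 0 := by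
    refine ⟨fun θ => l (a + R * ee θ), by fun_prop, fun θ => ?_, fun θ => ?_⟩
    · have : a + R * ee θ ∉ U := fun h => by
        have := hR h
        rw [mem_ball, dist_eq_norm, add_sub_cancel_left, norm_mul, norm_ee_real, mul_one, norm_real,
          Real.norm_eq_abs, abs_of_pos hR0] at this
        exact lt_irrefl _ this
      rw [hle _ trivial, piecewise_eq_of_notMem _ _ _ this, add_sub_cancel_left]
    · simp only [ofReal_add, ofReal_one, ee_add_one, Int.cast_zero, add_zero]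
  exact one_ne_zero ((hasWind_circle (ofReal_ne_zero.2 hR0.ne')).unique h1)

/-- an unbounded complementary component contains the outside of a ball -/
lemma out_subset {K : Set ℂ} {a : ℂ} {R : ℝ} (hR : ∀ z ∈ K, ‖z‖ < R) (ha : Out K a) :
    {z : ℂ | R ≤ ‖z‖} ⊆ connectedComponentIn Kᶜ a := by
  obtain ⟨w, hw, hw'⟩ : ∃ w ∈ connectedComponentIn Kᶜ a, R ≤ ‖w‖ := by
    by_contra h
    push Not at h
    exact ha (isBounded_iff_forall_norm_le.2 ⟨R, fun w hw => (h w hw).le⟩)
  rw [connectedComponentIn_eq hw]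
  exact (preconn_out R).subset_connectedComponentIn hw' fun z hz h => (hR z h).not_ge hz

lemma exists_lt {K : Set ℂ} (hK : IsBounded K) : ∃ R : ℝ, 0 < R ∧ ∀ z ∈ K, ‖z‖ < R := by
  obtain ⟨R, h0, hR⟩ := hK.subset_ball_lt 0 0
  exact ⟨R, h0, fun z hz => mem_ball_zero_iff.1 (hR hz)⟩

/-- there is only one unbounded complementary component -/
lemma out_eq {K : Set ℂ} (hK : IsBounded K) {a b : ℂ} (ha : Out K a) (hb : Out K b) :
    connectedComponentIn Kᶜ a = connectedComponentIn Kᶜ b := by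
  obtain ⟨R, h0, hR⟩ := exists_lt hK
  have : (R : ℂ) ∈ {z : ℂ | R ≤ ‖z‖} := by simp [le_abs_self]
  rw [connectedComponentIn_eq (out_subset hR ha this),
    connectedComponentIn_eq (out_subset hR hb this)]

lemma Out.notMem {K : Set ℂ} {a : ℂ} (ha : Out K a) : a ∉ K := fun h =>
  ha (by rw [connectedComponentIn_eq_empty (fun h' : a ∈ Kᶜ => h' h)]; exact isBounded_empty)

lemma half {X : Type*} [TopologicalSpace X] {S : Set X} (hS : IsPreconnected S) {l : X → ℂ}
    (hl : ContinuousOn l S) (c : ℝ) (h : ∀ x ∈ S, 0 ≤ (ee (l x - c)).re) :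
    ∃ n : ℤ, ∀ x ∈ S, |(l x).re - c - n| ≤ 1 / 4 := by
  rcases S.eq_empty_or_nonempty with rfl | ⟨x₀, hx₀⟩
  · exact ⟨0, fun _ h => h.elim⟩
  have hs : ∀ x ∈ S, ee (l x - c) ∈ slitPlane := fun x hx => by
    rcases (h x hx).lt_or_eq with h1 | h1
    · exact Or.inl h1
    · exact Or.inr fun h2 => ee_ne _ (Complex.ext h1.symm h2)
  have hi : ∀ x ∈ S, ∃ n : ℤ, l x - c - log (ee (l x - c)) / tpi = n := fun x _ => by
    obtain ⟨n, hn⟩ := ee_eq_iff.1 (ee_log (ee_ne (l x - c))).symm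
    exact ⟨n, by linear_combination hn⟩
  obtain ⟨n, hn⟩ := hi x₀ hx₀
  refine ⟨n, fun x hx => ?_⟩
  have h1 := int_const hS (g := fun x => l x - c - log (ee (l x - c)) / tpi)
    ((hl.sub continuousOn_const).sub (((continuous_ee.comp_continuousOn
      (hl.sub continuousOn_const)).clog hs).div_const _)) hi hx hx₀
  have h2 : log (ee (l x - c)) = tpi * (l x - c - n) := by
    have h3 : l x - c - n = log (ee (l x - c)) / tpi := by linear_combination h1 + hn
    rw [h3, mul_div_cancel₀ _ tpi_ne]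
  have h3 := congrArg im h2
  have h4 := abs_arg_le_pi_div_two_iff.2 (h x hx)
  rw [log_im] at h3
  have h5 : (tpi * (l x - c - n)).im = 2 * Real.pi * ((l x).re - c - n) := by simp [tpi]
  rw [h3, h5, abs_mul, abs_of_pos Real.two_pi_pos] at h4
  have := Real.pi_pos
  nlinarith

lemma ee_quarter : ee ((1 / 4 : ℝ) : ℂ) = I := by
  rw [← exp_pi_div_two_mul_I, ee, tpi]; congr 1; push_cast; ring

lemma ee_half : ee ((1 / 2 : ℝ) : ℂ) = -1 := by
  rw [show ((1 / 2 : ℝ) : ℂ) = ((1 / 4 : ℝ) : ℂ) + ((1 / 4 : ℝ) : ℂ) by push_cast; ring, ee_add,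
    ee_quarter, I_mul_I]

lemma ee_three : ee ((3 / 4 : ℝ) : ℂ) = -I := by
  rw [show ((3 / 4 : ℝ) : ℂ) = ((1 / 2 : ℝ) : ℂ) + ((1 / 4 : ℝ) : ℂ) by push_cast; ring, ee_add,
    ee_quarter, ee_half, neg_one_mul]

end T1

open T1

theorem sLogOut_of : S_logOut := by
  intro K a hK
  constructor
  · intro h hb
    have ha : a ∉ K := fun ha => log_ne h ha (sub_self a)
    obtain ⟨L, hL, he⟩ := h
    exact hard hK.isClosed ha hb (h := fun _ => 1) continuous_const (fun _ _ => one_ne_zero) hL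
      fun z hz => by rw [mul_one, he z hz]
  · intro h
    obtain ⟨R, h0, hR⟩ := exists_lt hK.isBounded
    have h1 : (R : ℂ) ∈ {z : ℂ | R ≤ ‖z‖} := by simp [le_abs_self]
    have h2 : HasLog (fun z => z - R) K := log_far fun z hz => (hR z hz).trans_le h1
    exact log_congr (log_mul (log_of_cc hK.isClosed (out_subset hR h h1)) h2) fun z hz =>
      div_mul_cancel₀ _ (log_ne h2 hz)

theorem sLogPair_of : S_logPair := by
  intro K a b hK ha hb
  refine ⟨fun h => ?_, log_of_cc hK.isClosed⟩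
  have key : ∀ a b : ℂ, a ∉ K → b ∉ K → HasLog (fun z => (z - a) / (z - b)) K →
      IsBounded (connectedComponentIn Kᶜ a) → b ∈ connectedComponentIn Kᶜ a := by
    rintro a b ha hb ⟨L, hL, he⟩ hU
    by_contra hn
    exact hard hK.isClosed ha hU (h := fun z => z - b) (by fun_prop)
      (fun z hz h => hn (sub_eq_zero.1 h ▸ hz)) hL fun z hz => by
        rw [he z hz]
        exact div_mul_cancel₀ _ fun h => hb (sub_eq_zero.1 h ▸ hz)
  by_cases h1 : IsBounded (connectedComponentIn Kᶜ a)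
  · exact key a b ha hb h h1
  by_cases h2 : IsBounded (connectedComponentIn Kᶜ b)
  · rw [← connectedComponentIn_eq
      (key b a hb ha (log_congr (log_inv h) fun z _ => inv_div _ _) h2)]
    exact mem_connectedComponentIn hb
  · rw [out_eq hK.isBounded h1 h2]
    exact mem_connectedComponentIn hb

theorem sJan_of : S_Jan := by
  intro A B a b hA hB hc h1 h2
  have a1 : a ∈ Aᶜ := connectedComponentIn_nonempty_iff.1 ⟨b, h1⟩
  have a2 : a ∈ Bᶜ := connectedComponentIn_nonempty_iff.1 ⟨b, h2⟩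
  exact (sLogPair_of (A ∪ B) a b (hA.union hB) (fun h => h.elim a1 a2)
    (fun h => h.elim (connectedComponentIn_subset _ _ h1) (connectedComponentIn_subset _ _ h2))).1
    (log_union hA.isClosed hB.isClosed hc (log_of_cc hA.isClosed h1) (log_of_cc hB.isClosed h2))

theorem sX_of : S_X := by
  intro P Q hP hQ h1 h2
  by_contra hn
  push Not at hn
  set c : ℝ → ℝ := fun s => (projIcc (0 : ℝ) 1 zero_le_one s : ℝ) with hc
  have cc : Continuous c := continuous_subtype_val.comp continuous_projIcc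
  have cm : ∀ s, c s ∈ Icc (0 : ℝ) 1 := fun s => (projIcc (0 : ℝ) 1 zero_le_one s).2
  have ce : ∀ s ∈ Icc (0 : ℝ) 1, c s = s := fun s hs => by rw [hc]; simp only [projIcc_of_mem _ hs]
  have hP' : Continuous fun s => P (c s) := hP.comp_continuous cc cm
  have hQ' : Continuous fun s => Q (c s) := hQ.comp_continuous cc cm
  obtain ⟨l, hl, he⟩ := exists_lift (U := (univ : Set (ℝ × ℝ))) convex_univ isOpen_univ
    univ_nonempty (g := fun q => P (c q.1) - Q (c q.2))
    ((hP'.comp continuous_fst).sub (hQ'.comp continuous_snd)).continuousOn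
    (fun q _ => sub_ne_zero.2 (hn _ (cm _) _ (cm _)))
  have hl' : Continuous l := continuousOn_univ.1 hl
  have m0 : (0 : ℝ) ∈ Icc (0 : ℝ) 1 := left_mem_Icc.2 zero_le_one
  have m1 : (1 : ℝ) ∈ Icc (0 : ℝ) 1 := right_mem_Icc.2 zero_le_one
  have he' : ∀ s ∈ Icc (0 : ℝ) 1, ∀ t ∈ Icc (0 : ℝ) 1, ee (l (s, t)) = P s - Q t :=
    fun s hs t ht => by rw [he _ trivial, ce s hs, ce t ht]
  obtain ⟨n0, g0⟩ := half isPreconnected_Icc (l := fun s => l (s, 0)) (by fun_prop) 0
    fun s hs => by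
      rw [ofReal_zero, sub_zero, he' s hs 0 m0, sub_re]
      linarith [(h2 s hs).1]
  obtain ⟨n1, g1⟩ := half isPreconnected_Icc (l := fun t => l (1, t)) (by fun_prop) (1 / 4)
    fun t ht => by
      rw [ee_sub, he' 1 m1 t ht, ee_quarter, div_I, neg_re, mul_I_re, neg_neg, sub_im]
      linarith [(h1 t ht).2]
  obtain ⟨n2, g2⟩ := half isPreconnected_Icc (l := fun s => l (s, 1)) (by fun_prop) (1 / 2)
    fun s hs => by
      rw [ee_sub, he' s hs 1 m1, ee_half, div_neg, div_one, neg_re, sub_re]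
      linarith [(h2 s hs).2]
  obtain ⟨n3, g3⟩ := half isPreconnected_Icc (l := fun t => l (0, t)) (by fun_prop) (3 / 4)
    fun t ht => by
      rw [ee_sub, he' 0 m0 t ht, ee_three, div_neg, div_I, neg_neg, mul_I_re, sub_im]
      linarith [(h1 t ht).1]
  have k : ∀ m n : ℤ, (m : ℝ) < n + 1 → m ≤ n := fun m n h =>
    Int.lt_add_one_iff.1 (by exact_mod_cast h)
  have a0 := abs_le.1 (g0 0 m0)
  have b0 := abs_le.1 (g0 1 m1)
  have a1 := abs_le.1 (g1 0 m0)
  have b1 := abs_le.1 (g1 1 m1)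
  have a2 := abs_le.1 (g2 0 m0)
  have b2 := abs_le.1 (g2 1 m1)
  have a3 := abs_le.1 (g3 0 m0)
  have b3 := abs_le.1 (g3 1 m1)
  have e1 := k n0 n1 (by linarith)
  have e2 := k n1 n2 (by linarith)
  have e3 := k n2 n3 (by linarith)
  have e4 : (n3 : ℝ) < n0 := by linarith
  have e5 : n3 < n0 := by exact_mod_cast e4
  omega

end

end Pool.Agent.Lib.MP_d32f96_gt
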