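import Pool.Agent.Lib.MP_d32f96_gt.Frame

/-! Riemann map for domains with connected complement; discs between sets. -/

namespace Pool.Agent.Lib.MP_d32f96_gt

open Set Filter Topology Metric Complex Bornology
open Pool.Agent.Lib.MP_1e9af3_an Pool.Agent.Lib.MP_069d55_gt

noncomputable section

namespace C1x

def Sq (U : Set ℂ) : Prop := ∀ u : ℂ → ℂ, ContinuousOn u U → (∀ z ∈ U, u z ≠ 0) →
  ∃ s : ℂ → ℂ, ContinuousOn s U ∧ ∀ z ∈ U, s z ^ 2 = u z

lemma improve {U : Set ℂ} (hU : IsOpen U) (hs : Sq U) {z₀ : ℂ} (hz₀ : z₀ ∈ U)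
    {g : ℂ → ℂ} (hg : MP_069d55_gt.Fam U z₀ g) {w : ℂ} (hw : ‖w‖ < 1) (hn : w ∉ g '' U) :
    ∃ G, MP_069d55_gt.Fam U z₀ G ∧ ‖deriv g z₀‖ < ‖deriv G z₀‖ := by
  have hw0 : w ≠ 0 := fun h => hn ⟨z₀, hz₀, by rw [hg.zero, h]⟩
  set u : ℂ → ℂ := fun z => mob w (g z) with hu
  have hud : ∀ z ∈ U, HasDerivAt u
      ((1 - (starRingEnd ℂ) w * w) / (1 - (starRingEnd ℂ) w * g z) ^ 2 * deriv g z) z :=
    fun z hz => (hasDerivAt_mob hw (hg.maps z hz)).comp z
      (hg.diff.differentiableAt (hU.mem_nhds hz)).hasDerivAt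
  have huc : ContinuousOn u U := fun z hz => (hud z hz).continuousAt.continuousWithinAt
  have hu0 : ∀ z ∈ U, u z ≠ 0 := fun z hz h => hn ⟨z, hz, mob_eq_zero hw (hg.maps z hz) h⟩
  obtain ⟨s, hsc, hs2⟩ := hs u huc hu0
  have hs0 : ∀ z ∈ U, s z ≠ 0 := fun z hz h => hu0 z hz (by rw [← hs2 z hz, h]; simp)
  have hs1 : ∀ z ∈ U, ‖s z‖ < 1 := fun z hz => by
    have : ‖s z‖ ^ 2 < 1 := by rw [← norm_pow, hs2 z hz]; exact norm_mob_lt hw (hg.maps z hz)
    nlinarith [norm_nonneg (s z)]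
  have hsd : ∀ z ∈ U, ∀ d, HasDerivAt u d z → HasDerivAt s (d / (2 * s z)) z := by
    intro z hz d hd
    have hc : ContinuousAt s z := hsc.continuousAt (hU.mem_nhds hz)
    rw [hasDerivAt_iff_tendsto_slope] at hd ⊢
    have h2 : Tendsto (fun y => s y + s z) (𝓝[≠] z) (𝓝 (2 * s z)) := by
      rw [two_mul]
      exact (hc.tendsto.add_const _).mono_left nhdsWithin_le_nhds
    have hne : 2 * s z ≠ 0 := mul_ne_zero two_ne_zero (hs0 z hz)
    refine (hd.div h2 hne).congr' ?_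
    filter_upwards [h2.eventually_ne hne, self_mem_nhdsWithin,
      mem_nhdsWithin_of_mem_nhds (hU.mem_nhds hz)] with y hy hyz hyU
    simp only [slope_def_field, Pi.div_apply]
    have hyz' : y - z ≠ 0 := sub_ne_zero.2 hyz
    rw [← hs2 y hyU, ← hs2 z hz, div_div, div_eq_div_iff (mul_ne_zero hyz' hy) hyz']
    ring
  set s₀ := s z₀ with hs₀
  have hs₀1 := hs1 z₀ hz₀
  refine ⟨fun z => mob s₀ (s z), ⟨fun z hz => ?_, fun z hz y hy h => ?_, fun z hz =>
    norm_mob_lt hs₀1 (hs1 z hz), by simp [mob, hs₀]⟩, ?_⟩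
  · exact ((hasDerivAt_mob hs₀1 (hs1 z hz)).comp z
      (hsd z hz _ (hud z hz))).differentiableAt.differentiableWithinAt
  · have h1 := mob_inj hs₀1 (hs1 z hz) (hs1 y hy) h
    have h2 : u z = u y := by rw [← hs2 z hz, ← hs2 y hy, h1]
    exact hg.inj hz hy (mob_inj hw (hg.maps z hz) (hg.maps y hy) h2)
  · have hD := ((hasDerivAt_mob hs₀1 hs₀1).comp z₀ (hsd z₀ hz₀ _ (hud z₀ hz₀))).deriv
    have hD' : deriv (fun z => mob s₀ (s z)) z₀ = _ := hD
    rw [hD', hg.zero, one_sub_conj_mul, one_sub_conj_mul]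
    have hg' : 0 < ‖deriv g z₀‖ :=
      norm_pos_iff.2 (deriv_ne_zero_of_injOn hU hg.diff hg.inj hz₀)
    have hsq : ‖s₀‖ ^ 2 = ‖w‖ := by
      rw [← norm_pow, hs₀, hs2 z₀ hz₀]; simp [hu, mob, hg.zero]
    have ht : 0 < ‖s₀‖ := norm_pos_iff.2 (hs0 z₀ hz₀)
    have h1 : 0 < 1 - ‖s₀‖ ^ 2 := by nlinarith
    have h2 : 0 < 1 - ‖w‖ ^ 2 := by nlinarith [norm_nonneg w]
    simp only [mul_zero, sub_zero, one_pow, div_one, norm_mul, norm_div, norm_pow,
      Complex.norm_real, Real.norm_eq_abs, abs_of_pos h2, Complex.norm_ofNat]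
    rw [← hs₀, ← hsq]
    set t := ‖s₀‖
    have : (1 - t ^ 2) / (1 - t ^ 2) ^ 2 * ((1 - (t ^ 2) ^ 2) * ‖deriv g z₀‖ / (2 * t))
        = (1 + t ^ 2) / (2 * t) * ‖deriv g z₀‖ := by
      field_simp; ring
    rw [abs_of_pos h1, this]
    have h3 : 1 < (1 + t ^ 2) / (2 * t) := by
      rw [one_lt_div (by positivity)]; nlinarith
    nlinarith

theorem riemann' {U : Set ℂ} (hU : IsOpen U) (hs : Sq U) (hc : IsPreconnected U)
    (hb : Bornology.IsBounded U) {z₀ : ℂ} (hz₀ : z₀ ∈ U) :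
    ∃ g : ℂ → ℂ, DifferentiableOn ℂ g U ∧ InjOn g U ∧ g '' U = ball 0 1 ∧ g z₀ = 0 := by
  obtain ⟨R, hR0, hR⟩ : ∃ R, 0 < R ∧ U ⊆ ball z₀ R := by
    obtain ⟨R, hR⟩ := hb.subset_ball z₀
    exact ⟨R, pos_of_mem_ball (hR hz₀), hR⟩
  obtain ⟨r, hr0, hr⟩ := Metric.isOpen_iff.1 hU z₀ hz₀
  have hR' : (R : ℂ) ≠ 0 := by exact_mod_cast hR0.ne'
  have f0 : MP_069d55_gt.Fam U z₀ fun z => (z - z₀) / R :=
    ⟨by fun_prop, fun z _ w _ h => by simpa [div_left_inj' hR'] using h, fun z hz => by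
      have := hR hz
      rw [mem_ball, dist_eq_norm] at this
      rw [norm_div, Complex.norm_real, Real.norm_of_nonneg hR0.le, div_lt_one hR0]; exact this,
      by simp⟩
  set D : Set ℝ := {x | ∃ g, MP_069d55_gt.Fam U z₀ g ∧ ‖deriv g z₀‖ = x} with hD
  have hne : D.Nonempty := ⟨_, _, f0, rfl⟩
  have hbd : BddAbove D := ⟨2 * 1 / r, by
    rintro _ ⟨g, hg, rfl⟩
    exact deriv_le_of_bdd hr0 (hg.diff.mono hr) fun z hz => (hg.maps z (hr hz)).le⟩
  obtain ⟨x, -, hx, hxD⟩ := exists_seq_tendsto_sSup hne hbd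
  choose F hF hFx using hxD
  obtain ⟨g, hgd, hgl, hgt⟩ := montel (hyperfilter ℕ) hU (fun i => (hF i).diff)
    (fun i z hz => ((hF i).maps z hz).le)
  have hder : ‖deriv g z₀‖ = sSup D := by
    have h1 := ((hgl.deriv (Eventually.of_forall fun i => (hF i).diff) hU).tendsto_at hz₀).norm
    have h2 : Tendsto (fun i => ‖deriv (F i) z₀‖) (hyperfilter ℕ) (𝓝 (sSup D)) := by
      simp only [hFx]
      exact hx.mono_left (hyperfilter_le_cofinite.trans Nat.cofinite_eq_atTop.le)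
    exact tendsto_nhds_unique h1 h2
  have hpos : deriv g z₀ ≠ 0 := by
    rw [← norm_pos_iff, hder]
    exact (norm_pos_iff.2 (deriv_ne_zero_of_injOn hU f0.diff f0.inj hz₀)).trans_le
      (le_csSup hbd ⟨_, f0, rfl⟩)
  have hgi : InjOn g U := hurwitz_inj hU hc (fun i => (hF i).diff) (fun i => (hF i).inj) hgl hz₀ hpos
  have hg1 : g '' U ⊆ closedBall 0 1 := by
    rintro _ ⟨z, hz, rfl⟩
    rw [mem_closedBall_zero_iff]
    exact le_of_tendsto' (hgt z hz).norm fun i => ((hF i).maps z hz).le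
  have hg2 : g '' U ⊆ ball 0 1 := by
    rw [← interior_closedBall (0:ℂ) one_ne_zero]
    exact interior_maximal hg1 (isOpen_image_of_injOn hU hgd hgi hU Subset.rfl)
  have hg0 : g z₀ = 0 := by
    have := hgt z₀ hz₀
    simp only [(hF _).zero] at this
    exact tendsto_nhds_unique this tendsto_const_nhds
  have hG : MP_069d55_gt.Fam U z₀ g := ⟨hgd, hgi, fun z hz => mem_ball_zero_iff.1 (hg2 ⟨z, hz, rfl⟩), hg0⟩
  refine ⟨g, hgd, hgi, hg2.antisymm fun w hw => ?_, hg0⟩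
  by_contra hn
  obtain ⟨G, hG1, hG2⟩ := improve hU hs hz₀ hG (mem_ball_zero_iff.1 hw) hn
  rw [hder] at hG2
  exact absurd (le_csSup hbd ⟨G, hG1, rfl⟩) (not_le.2 hG2)

lemma ext_fun {φ : ℂ → ℂ} {R : ℝ} (hd : DifferentiableOn ℂ φ (ball 0 R)) (hi : InjOn φ (ball 0 R))
    {a : H} (ha : Supp a (ball 0 R)) : ∃ f : ℂ → ℂ, Continuous f ∧
      (∀ z ∈ ball (0 : ℂ) R, f (φ z) = φ (a z)) ∧ (∀ w, w ∉ φ '' ball 0 R → f w = w) ∧
      ∃ K, IsCompact K ∧ ∀ w, w ∉ K → f w = w := by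
  classical
  have hm := ha.mem_iff
  obtain ⟨K, hK, hKs, hKa⟩ := ha
  set ψ := Function.invFunOn φ (ball 0 R) with hψ
  have hψφ : ∀ z ∈ ball (0 : ℂ) R, ψ (φ z) = z := fun z hz => hi.leftInvOn_invFunOn hz
  set f : ℂ → ℂ := fun w => if w ∈ φ '' ball 0 R then φ (a (ψ w)) else w with hf
  have h1 : ∀ z ∈ ball (0 : ℂ) R, f (φ z) = φ (a z) := fun z hz => by
    simp only [hf]; rw [if_pos (mem_image_of_mem φ hz), hψφ z hz]
  have h2 : ∀ w, w ∉ φ '' ball 0 R → f w = w := fun w hw => if_neg hw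
  have hK' : IsCompact (φ '' K) := hK.image_of_continuousOn (hd.continuousOn.mono hKs)
  have h3 : ∀ w, w ∉ φ '' K → f w = w := fun w hw => by
    by_cases hw' : w ∈ φ '' ball 0 R
    · obtain ⟨z, hz, rfl⟩ := hw'
      rw [h1 z hz, hKa z fun h => hw (mem_image_of_mem _ h)]
    · exact h2 w hw'
  refine ⟨f, continuous_iff_continuousAt.2 fun w => ?_, h1, h2, _, hK', h3⟩
  by_cases hw : w ∈ φ '' ball 0 R
  · have ho := (isOpen_image_of_injOn isOpen_ball hd hi isOpen_ball Subset.rfl).mem_nhds hw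
    obtain ⟨z, hz, rfl⟩ := hw
    have c1 : ContinuousAt ψ (φ z) := continuousAt_inv_of_injOn isOpen_ball hd hi hψφ hz
    have c2 : ContinuousAt φ (a (ψ (φ z))) := by
      rw [hψφ z hz]
      exact hd.continuousOn.continuousAt (isOpen_ball.mem_nhds ((hm z).2 hz))
    refine (c2.comp (f := fun w => a (ψ w)) (a.continuous.continuousAt.comp c1)).congr ?_
    filter_upwards [ho] with y hy using (if_pos hy).symm
  · refine continuousAt_id.congr ?_
    filter_upwards [hK'.isClosed.isOpen_compl.mem_nhds fun h => hw (image_mono hKs h)] with y hy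
      using (h3 y hy).symm

lemma closed_cc {F : Set ℂ} (hF : IsClosed F) (x : ℂ) : IsClosed (connectedComponentIn F x) := by
  by_cases hx : x ∈ F
  · exact closure_subset_iff_isClosed.1
      (isPreconnected_connectedComponentIn.closure.subset_connectedComponentIn
        (subset_closure (mem_connectedComponentIn hx))
        (closure_minimal (connectedComponentIn_subset _ _) hF))
  · rw [connectedComponentIn_eq_empty hx]; exact isClosed_empty

lemma subset_fill (O : Set ℂ) : O ⊆ fill O := fun x hx => by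
  show IsBounded (connectedComponentIn Oᶜ x)
  rw [connectedComponentIn_eq_empty (by simpa using hx)]; exact isBounded_empty

lemma compl_fill {O : Set ℂ} {M : ℝ} (hM : ∀ z ∈ O, ‖z‖ ≤ M) {p : ℂ} (hp : M < ‖p‖) :
    (fill O)ᶜ = connectedComponentIn Oᶜ p ∧ {z | M < ‖z‖} ⊆ connectedComponentIn Oᶜ p := by
  have h1 : {z | M < ‖z‖} ⊆ connectedComponentIn Oᶜ p :=
    (preconn_out' M).subset_connectedComponentIn hp fun z hz h => (hM z h).not_gt hz
  refine ⟨Subset.antisymm (fun x hx => ?_) fun x hx hb => ?_, h1⟩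
  · obtain ⟨y, hy, hy'⟩ : ∃ y ∈ connectedComponentIn Oᶜ x, M < ‖y‖ := by
      by_contra h
      push Not at h
      exact hx (isBounded_iff_forall_norm_le.2 ⟨M, h⟩)
    rw [connectedComponentIn_eq (h1 hy'), ← connectedComponentIn_eq hy]
    exact mem_connectedComponentIn fun h => hx (subset_fill O h)
  · refine not_bdd_out M (IsBounded.subset ?_ h1)
    rw [connectedComponentIn_eq hx]; exact hb

lemma preconn_fill {O : Set ℂ} (hO : IsOpen O) (hc : IsPreconnected O) (hn : O.Nonempty) :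
    IsPreconnected (fill O) := by
  obtain ⟨a, ha⟩ := hn
  refine isPreconnected_of_forall a fun x hx => ?_
  by_cases hxO : x ∈ O
  · exact ⟨O, subset_fill O, ha, hxO, hc⟩
  have hV := closed_cc hO.isClosed_compl x
  obtain ⟨y, hy⟩ : (frontier (connectedComponentIn Oᶜ x)).Nonempty := by
    rw [nonempty_frontier_iff]
    refine ⟨⟨x, mem_connectedComponentIn hxO⟩, fun h => not_bdd_out 0 ?_⟩
    exact IsBounded.subset (show IsBounded (connectedComponentIn Oᶜ x) from hx)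
      (h ▸ subset_univ _)
  have hyV := hV.frontier_subset hy
  have hyO : y ∈ closure O := by
    by_contra h
    obtain ⟨ε, hε, hb⟩ := Metric.isOpen_iff.1 isClosed_closure.isOpen_compl y h
    refine hy.2 (mem_interior.2 ⟨ball y ε, ?_, isOpen_ball, mem_ball_self hε⟩)
    rw [connectedComponentIn_eq hyV]
    exact (convex_ball y ε).isPreconnected.subset_connectedComponentIn (mem_ball_self hε)
      fun z hz h' => hb hz (subset_closure h')
  refine ⟨insert y O ∪ connectedComponentIn Oᶜ x, ?_, Or.inl (Or.inr ha),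
    Or.inr (mem_connectedComponentIn hxO), IsPreconnected.union y (Or.inl rfl) hyV
      (hc.subset_closure (subset_insert _ _) (insert_subset hyO subset_closure))
      isPreconnected_connectedComponentIn⟩
  have hs : connectedComponentIn Oᶜ x ⊆ fill O := fun z hz => by
    show IsBounded (connectedComponentIn Oᶜ z)
    rw [← connectedComponentIn_eq hz]; exact hx
  exact union_subset (insert_subset (hs hyV) (subset_fill O)) hs

end C1x

open C1x

theorem xRMT_of (h : S_LogC) : S_RMT := fun U a hU hb hc hc' ha => by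
  have hs : Sq U := fun u hu h0 => by
    obtain ⟨M, hM⟩ := hb.exists_norm_le
    obtain ⟨L, hL, he⟩ := h Uᶜ u ⟨hU.isClosed_compl, hc', fun h' => not_bdd_out M
      (h'.subset fun z hz hz' => (hM z hz').not_gt hz)⟩ (by rwa [compl_compl]) (by rwa [compl_compl])
    rw [compl_compl] at hL he
    refine ⟨fun z => ee (L z / 2), continuous_ee.comp_continuousOn (hL.div_const 2), fun z hz => ?_⟩
    rw [sq, ← ee_add, add_halves, he z hz]
  obtain ⟨g, gd, gi, gim, g0⟩ := riemann' hU hs hc hb ha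
  have hl : ∀ z ∈ U, Function.invFunOn g U (g z) = z := fun z hz => gi.leftInvOn_invFunOn hz
  refine ⟨Function.invFunOn g U, fun w hw => ?_, fun w hw w' hw' e => ?_, ?_, ?_⟩
  · obtain ⟨z, hz, rfl⟩ := gim ▸ hw
    exact (inv_analyticAt hU gd gi hl hz).differentiableAt.differentiableWithinAt
  · obtain ⟨z, hz, rfl⟩ := gim ▸ hw
    obtain ⟨z', hz', rfl⟩ := gim ▸ hw'
    rw [hl z hz, hl z' hz'] at e
    rw [e]
  · rw [← gim, image_image]
    exact (image_congr hl).trans (image_id' U)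
  · rw [← g0, hl a ha]

theorem xExtC_of : S_ExtC := fun φ r R hd hi R0 hr => by
  have m0 : (0 : ℂ) ∈ ball (0 : ℂ) R := mem_ball_self R0
  obtain ⟨k, hk, he⟩ := germ_conformal (hd.analyticAt (ball_mem_nhds 0 R0))
    (deriv_ne_zero_of_injOn isOpen_ball hd hi m0)
  obtain ⟨ε, hε, hb⟩ := Metric.eventually_nhds_iff_ball.1 he
  obtain ⟨s, hs, -, hs2⟩ := exists_squeeze (R := r) hε hr R0
  obtain ⟨f, fc, f1, f2, K, hK, f3⟩ := ext_fun hd hi hs.inv
  obtain ⟨g, gc, g1, g2, -⟩ := ext_fun hd hi hs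
  let S : H := ⟨⟨f, g, fun w => by
      by_cases hw : w ∈ φ '' ball 0 R
      · obtain ⟨z, hz, rfl⟩ := hw
        rw [f1 z hz, g1 _ ((hs.inv.mem_iff z).2 hz), happly_inv]
      · rw [f2 w hw, g2 w hw], fun w => by
      by_cases hw : w ∈ φ '' ball 0 R
      · obtain ⟨z, hz, rfl⟩ := hw
        rw [g1 z hz, f1 _ ((hs.mem_iff z).2 hz), hinv_apply]
      · rw [g2 w hw, f2 w hw]⟩, fc, gc⟩
  have hS : Supp S univ := ⟨K, hK, subset_univ _, f3⟩
  refine ⟨S * (k * s), (hS.mul (hk.mul hs.univ)).deg, fun z hz => ?_⟩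
  have hz' : z ∈ ball (0 : ℂ) R := mem_ball_zero_iff.2 (hz.trans_lt hr)
  rw [hmul, hmul, hb _ (mem_ball_zero_iff.2 (hs2 z hz))]
  show f _ = _
  rw [f1 _ ((hs.mem_iff z).2 hz'), hinv_apply]

theorem xJS_of (h1 : S_RMT) (h2 : S_ExtC) : S_JS := fun K O hK hO hb hc hn hKO => by
  obtain ⟨M, hM⟩ := hb.exists_norm_le
  obtain ⟨e1, e2⟩ := compl_fill hM (p := ((|M| + 1 : ℝ) : ℂ)) (by
    rw [norm_real, Real.norm_eq_abs, abs_of_pos (by positivity)]; linarith [le_abs_self M])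
  have hUo : IsOpen (fill O) := by
    rw [← isClosed_compl_iff, e1]; exact closed_cc hO.isClosed_compl _
  have hUb : IsBounded (fill O) := isBounded_iff_forall_norm_le.2 ⟨M, fun z hz => by
    by_contra h
    exact (e1 ▸ e2 (not_le.1 h) : z ∈ (fill O)ᶜ) hz⟩
  obtain ⟨a, ha⟩ := hn
  obtain ⟨φ, φd, φi, φim, -⟩ := h1 (fill O) a hUo hUb (preconn_fill hO hc ⟨a, ha⟩)
    (e1 ▸ isPreconnected_connectedComponentIn) (subset_fill O ha)
  obtain ⟨r, r0, r1, hr⟩ : ∃ r, 0 < r ∧ r < 1 ∧ K ⊆ φ '' ball 0 r := by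
    have : Nonempty (Ioo (0 : ℝ) 1) := ⟨⟨1 / 2, by norm_num, by norm_num⟩⟩
    obtain ⟨⟨r, r0, r1⟩, hr⟩ := hK.elim_directed_cover
      (fun r : Ioo (0 : ℝ) 1 => φ '' ball 0 r)
      (fun r => isOpen_image_of_injOn isOpen_ball φd φi isOpen_ball (ball_subset_ball r.2.2.le))
      (fun x hx => by
        obtain ⟨z, hz, rfl⟩ := φim ▸ subset_fill O (hKO hx)
        have := mem_ball_zero_iff.1 hz
        exact mem_iUnion.2 ⟨⟨(‖z‖ + 1) / 2, by positivity, by linarith⟩, z,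
          mem_ball_zero_iff.2 (by show ‖z‖ < (‖z‖ + 1) / 2; linarith), rfl⟩)
      (Monotone.directed_le fun r s hrs => image_mono (ball_subset_ball hrs))
    exact ⟨r, r0, r1, hr⟩
  obtain ⟨k, hk, hkφ⟩ := h2 φ r 1 φd φi one_pos r1
  have rc : (r : ℂ) ≠ 0 := ofReal_ne_zero.2 r0.ne'
  have nn : ∀ z : ℂ, ‖(r : ℂ) * z‖ = r * ‖z‖ := fun z => by
    rw [norm_mul, norm_real, Real.norm_of_nonneg r0.le]
  refine ⟨k * mulH r rc, deg_mul_one hk (deg_of_mul (mulH_apply r rc)), fun x hx => ?_, ?_⟩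
  · obtain ⟨z, hz, rfl⟩ := hr hx
    have hz' := mem_ball_zero_iff.1 hz
    refine ⟨(r : ℂ)⁻¹ * z, mem_ball_zero_iff.2 ?_, ?_⟩
    · have := nn ((r : ℂ)⁻¹ * z)
      rw [mul_inv_cancel_left₀ rc] at this
      nlinarith
    · rw [hmul, mulH_apply, mul_inv_cancel_left₀ rc, hkφ z hz'.le]
  · rintro _ ⟨z, hz, rfl⟩
    have : ‖(r : ℂ) * z‖ ≤ r := by rw [nn]; nlinarith [mem_closedBall_zero_iff.1 hz]
    rw [hmul, mulH_apply, hkφ _ this, ← φim]
    exact mem_image_of_mem φ (mem_ball_zero_iff.2 (this.trans_lt r1))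

end

end Pool.Agent.Lib.MP_d32f96_gt
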