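import Pool.Agent.Lib.MP_d32f96_gt.Frame
import Pool.Agent.Lib.MP_069d55_gt.RMT

/-! Uniformisation of plane domains by Koebe square roots. -/

namespace Pool.Agent.Lib.MP_d32f96_gt

open Set Filter Topology Metric Complex Bornology
open Pool.Agent.Lib.MP_1e9af3_an Pool.Agent.Lib.MP_069d55_gt

noncomputable section

namespace C2

/-- maps with enough sections are coverings -/
lemma cover_of {q : ℂ → ℂ} (hq : Continuous q) {B : Set ℂ} (hB : IsOpen B) (hc : IsPreconnected B)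
    {y : ℂ} (hy : y ∈ B) (h : ∀ w, q w ∈ B → ∃ s : ℂ → ℂ, ContinuousOn s B ∧
      (∀ x ∈ B, q (s x) = x) ∧ s (q w) = w ∧ IsOpen (s '' B)) :
    IsEvenlyCovered q y (q ⁻¹' {y}) := by
  choose! s s1 s2 s3 s4 using h
  have u : ∀ w w', q w ∈ B → q w' ∈ B → ∀ x ∈ B, s w x = s w' x → ∀ x ∈ B, s w x = s w' x := by
    intro w w' a b x hx e
    have := hc.subset_left_of_subset_union ((s1 w' b).isOpen_inter_preimage hB (s4 w a))
      (((s1 w a).sub (s1 w' b)).isOpen_inter_preimage hB (isOpen_compl_singleton (x := 0)))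
      (disjoint_left.2 fun z ⟨_, z', h1, h2⟩ h3 => h3.2 (by
        obtain rfl : z' = z := by rw [← s2 w a z' h1, h2, s2 w' b z h3.1]
        exact sub_eq_zero.2 h2))
      (fun z hz => (em (s w z = s w' z)).imp (fun e => ⟨hz, z, hz, e⟩)
        fun e => ⟨hz, sub_ne_zero.2 e⟩) ⟨x, hx, hx, x, hx, e⟩
    intro z hz
    obtain ⟨-, z', h1, h2⟩ := this hz
    obtain rfl : z' = z := by rw [← s2 w a z' h1, h2, s2 w' b z hz]
    exact h2
  have m : ∀ i : q ⁻¹' {y}, q i ∈ B := fun i => by rw [show q i = y from i.2]; exact hy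
  have v : ∀ w (a : q w ∈ B), q (s w y) = y := fun w a => s2 w a y hy
  rcases isEmpty_or_nonempty (q ⁻¹' {y}) with e | e
  · exact .of_preimage_eq_empty _ (hB.mem_nhds hy)
      (eq_empty_of_forall_notMem fun w a => e.false ⟨_, v w a⟩)
  let _ : TopologicalSpace (PLift (q ⁻¹' {y})) := ⊥
  have : DiscreteTopology (PLift (q ⁻¹' {y})) := ⟨rfl⟩
  have : Nonempty (PLift (q ⁻¹' {y})) := e.map PLift.up
  refine IsEvenlyCovered.to_isEvenlyCovered_preimage (I := PLift (q ⁻¹' {y})) (.of_trivialization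
    (t := hB.trivializationDiscrete (fun i : PLift (q ⁻¹' {y}) => s i.down '' B) B
      (fun i W hW => ⟨fun a => (a.preimage hq).inter (s4 _ (m _)), fun a => ?_⟩) ?_
      (fun i x hx => ⟨_, ⟨x, hx, rfl⟩, s2 _ (m _) x hx⟩) ?_ ?_) hy)
  · have := (s1 _ (m i.down)).isOpen_inter_preimage hB a
    rwa [show B ∩ s i.down ⁻¹' (q ⁻¹' W ∩ s i.down '' B) = W from Set.ext fun x =>
      ⟨fun b => s2 _ (m _) x b.1 ▸ b.2.1, fun b => ⟨hW b, by
        rw [mem_preimage, mem_inter_iff, mem_preimage, s2 _ (m _) x (hW b)]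
        exact ⟨b, x, hW b, rfl⟩⟩⟩] at this
  · rintro i _ ⟨x, hx, rfl⟩ _ ⟨x', hx', rfl⟩ e
    rw [s2 _ (m _) x hx, s2 _ (m _) x' hx'] at e
    rw [e]
  · intro i j e
    refine disjoint_left.2 ?_
    rintro _ ⟨x, hx, rfl⟩ ⟨x', hx', e'⟩
    obtain rfl : x' = x := by rw [← s2 _ (m j.down) x' hx', e', s2 _ (m _) x hx]
    have := u _ _ (m j.down) (m i.down) _ hx e' y hy
    refine e (PLift.down_injective (Subtype.ext ?_))
    rw [← s3 _ (m i.down), ← s3 _ (m j.down), show q i.down = y from i.down.2,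
      show q j.down = y from j.down.2, this]
  · intro w a
    have b : q (s w y) ∈ B := (v w a).symm ▸ hy
    refine mem_iUnion.2 ⟨⟨⟨_, v w a⟩⟩, q w, a, ?_⟩
    rw [u _ _ b a y hy (by have := s3 _ b; rwa [v w a] at this) _ a, s3 w a]

lemma hurwitz_ne {ι : Type*} {l : Filter ι} [l.NeBot] {U : Set ℂ} (hU : IsOpen U)
    (hc : IsPreconnected U) {F : ι → ℂ → ℂ} {g : ℂ → ℂ} {c : ℂ}
    (hF : ∀ i, DifferentiableOn ℂ (F i) U) (hi : ∀ i, ∀ z ∈ U, F i z ≠ c)
    (hl : TendstoLocallyUniformlyOn F g l U) {a : ℂ} (ha : a ∈ U) (h0 : g a ≠ c) {b : ℂ}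
    (hb : b ∈ U) : g b ≠ c := by
  have hg : DifferentiableOn ℂ g U := hl.differentiableOn (Eventually.of_forall hF) hU
  have hga : AnalyticOnNhd ℂ g U := hg.analyticOnNhd hU
  intro hab
  have h2 := (((hga b hb).sub analyticAt_const
    (g := fun _ => c)).eventually_eq_zero_or_eventually_ne_zero).resolve_left fun h =>
      h0 (sub_eq_zero.1 ((hga.sub
        analyticOnNhd_const).eqOn_zero_of_preconnected_of_eventuallyEq_zero hc hb h ha))
  obtain ⟨r, hr, hrb⟩ := Metric.nhds_basis_closedBall.eventually_iff.1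
    ((show ∀ᶠ z in 𝓝 b, z ∈ U from hU.mem_nhds hb).and (eventually_nhdsWithin_iff.1 h2))
  have hsub : closedBall b r ⊆ U := fun z hz => (hrb hz).1
  obtain ⟨x, hx, hmin⟩ := (isCompact_sphere b r).exists_isMinOn (f := fun z => ‖g z - c‖)
    (NormedSpace.sphere_nonempty.2 hr.le)
    ((hg.continuousOn.mono (sphere_subset_closedBall.trans hsub)).sub continuousOn_const).norm
  have hm0 : 0 < ‖g x - c‖ := norm_pos_iff.2 ((hrb (sphere_subset_closedBall hx)).2
    (ne_of_mem_sphere hx hr.ne'))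
  obtain ⟨i, hi1⟩ := (Metric.tendstoUniformlyOn_iff.1 ((tendstoLocallyUniformlyOn_iff_forall_isCompact
    hU).1 hl _ hsub (isCompact_closedBall b r)) _ (half_pos hm0)).exists
  obtain ⟨z, hz, hz0⟩ := exists_zero_of_min (f := fun z => F i z - c) (c := b)
    (m := ‖g x - c‖ / 2) hr (DifferentiableOn.diffContOnCl (by
      rw [closure_ball b hr.ne']
      exact ((hF i).mono hsub).sub_const _))
    (fun z hz => by
      have a1 := hi1 z (sphere_subset_closedBall hz)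
      have a2 : ‖g x - c‖ ≤ ‖g z - c‖ := hmin hz
      rw [dist_eq_norm] at a1
      linarith [norm_sub_le_norm_sub_add_norm_sub (g z) (F i z) c])
    (by simpa [hab, dist_eq_norm, norm_sub_rev] using hi1 b (mem_closedBall_self hr.le))
  exact hi i z (hsub (ball_subset_closedBall hz)) (sub_eq_zero.1 hz0)

lemma mob_mob {a z : ℂ} (ha : ‖a‖ < 1) (hz : ‖z‖ < 1) : mob (-a) (mob a z) = z := by
  have h1 := mob_den_ne ha hz
  have h3 := mob_den_ne (a := -a) (by rwa [norm_neg]) (norm_mob_lt ha hz)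
  have e : mob a z * _ = _ := div_mul_cancel₀ _ h1
  rw [mob, div_eq_iff h3, map_neg]
  exact mul_right_cancel₀ h1 (by linear_combination (1 - z * (starRingEnd ℂ) a) * e)

lemma mob_mob' {a z : ℂ} (ha : ‖a‖ < 1) (hz : ‖z‖ < 1) : mob a (mob (-a) z) = z := by
  simpa using mob_mob (a := -a) (by rwa [norm_neg]) hz

lemma diff_mob {a : ℂ} (ha : ‖a‖ < 1) {f : ℂ → ℂ} {B : Set ℂ} (hf : DifferentiableOn ℂ f B)
    (h1 : ∀ x ∈ B, ‖f x‖ < 1) : DifferentiableOn ℂ (fun x => mob a (f x)) B := fun x hx =>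
  (hasDerivAt_mob ha (h1 x hx)).differentiableAt.comp_differentiableWithinAt x (hf x hx)

/-- holomorphic square roots on a ball -/
lemma exists_sqrt {u : ℂ → ℂ} {c x₀ t₀ : ℂ} {ρ : ℝ} (hu : DifferentiableOn ℂ u (ball c ρ))
    (h0 : ∀ x ∈ ball c ρ, u x ≠ 0) (hx : x₀ ∈ ball c ρ) (ht : t₀ ^ 2 = u x₀) :
    ∃ t, DifferentiableOn ℂ t (ball c ρ) ∧ (∀ x, t x ^ 2 = u x) ∧ t x₀ = t₀ := by
  have := (convex_ball c ρ).contractibleSpace ⟨_, hx⟩
  obtain ⟨s, hsc, hs2⟩ := exists_continuousOn_pow_eq (SimplyConnectedSpace.ofContractible _)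
    isOpen_ball hu.continuousOn (by rintro ⟨z, hz, h⟩; exact h0 z hz h) two_ne_zero
  have hd : DifferentiableOn ℂ s (ball c ρ) := fun z hz => by
    have hd := (hu.differentiableAt (isOpen_ball.mem_nhds hz)).hasDerivAt
    refine (HasDerivAt.differentiableAt (f' := deriv u z / (2 * s z)) ?_).differentiableWithinAt
    rw [hasDerivAt_iff_tendsto_slope] at hd ⊢
    have h2 : Tendsto (fun y => s y + s z) (𝓝[≠] z) (𝓝 (2 * s z)) := by
      rw [two_mul]
      exact ((hsc.continuousAt (isOpen_ball.mem_nhds hz)).tendsto.add_const _).mono_left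
        nhdsWithin_le_nhds
    have hne : 2 * s z ≠ 0 := mul_ne_zero two_ne_zero fun h => h0 z hz (by rw [← hs2, h]; simp)
    refine (hd.div h2 hne).congr' ?_
    filter_upwards [h2.eventually_ne hne, self_mem_nhdsWithin] with y hy hyz
    simp only [slope_def_field, Pi.div_apply]
    have hyz' : y - z ≠ 0 := sub_ne_zero.2 hyz
    rw [← hs2 y, ← hs2 z, div_div, div_eq_div_iff (mul_ne_zero hyz' hy) hyz']
    ring
  rcases sq_eq_sq_iff_eq_or_eq_neg.1 ((hs2 x₀).trans ht.symm) with e | e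
  · exact ⟨s, hd, hs2, e⟩
  · exact ⟨fun x => -s x, hd.neg, fun x => by rw [neg_sq, hs2], by simp [e]⟩

/-- holomorphic maps from `W` to `V` with sections over all balls -/
structure Cv (V W : Set ℂ) (q : ℂ → ℂ) : Prop where
  op : IsOpen W
  sub : ∀ z ∈ W, ‖z‖ < 1
  mem : 0 ∈ W
  diff : DifferentiableOn ℂ q W
  maps : ∀ z ∈ W, q z ∈ V
  zero : q 0 = 0
  sec : ∀ c ρ, ball c ρ ⊆ V → ∀ w ∈ W, q w ∈ ball c ρ → ∃ s, DifferentiableOn ℂ s (ball c ρ) ∧
    (∀ x ∈ ball c ρ, s x ∈ W ∧ q (s x) = x) ∧ s (q w) = w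

variable {V W : Set ℂ} {q : ℂ → ℂ} {a b r : ℝ}

lemma Cv.low (h : Cv V W q) (a0 : 0 < a) (ha : ball 0 a ⊆ V) : a / 2 ≤ ‖deriv q 0‖ := by
  obtain ⟨s, s1, s2, s3⟩ := h.sec 0 a ha 0 h.mem (by rw [h.zero]; exact mem_ball_self a0)
  rw [h.zero] at s3
  have d := deriv_le_of_bdd (M := 1) a0 s1 fun z hz => (h.sub _ (s2 z hz).1).le
  have e := (by rw [s3]; exact (h.diff.differentiableAt (h.op.mem_nhds h.mem)).hasDerivAt :
    HasDerivAt q (deriv q 0) (s 0)).comp 0 (s1.differentiableAt (ball_mem_nhds 0 a0)).hasDerivAt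
  have := congrArg norm (e.unique ((hasDerivAt_id 0).congr_of_eventuallyEq (by
    filter_upwards [ball_mem_nhds 0 a0] with x hx using (s2 x hx).2)))
  rw [norm_mul, norm_one] at this
  rw [le_div_iff₀ a0] at d
  nlinarith [mul_le_mul_of_nonneg_left d (norm_nonneg (deriv q 0))]

/-- the step of Koebe -/
lemma Cv.step (h : Cv V W q) {w : ℂ} (hw : ‖w‖ < 1) (hn : w ∉ W) :
    ∃ W' q', Cv V W' q' ∧ ‖deriv q' 0‖ ≤ (1 - (1 - ‖w‖) ^ 2 / 8) * ‖deriv q 0‖ := by
  obtain ⟨c, hc⟩ := IsAlgClosed.exists_pow_nat_eq (-w) two_pos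
  have sq : ∀ {z : ℂ}, ‖z‖ < 1 → ‖z ^ 2‖ < 1 := fun h => by
    rw [norm_pow]; exact pow_lt_one₀ (norm_nonneg _) h two_ne_zero
  have sq' : ∀ {z : ℂ}, ‖z ^ 2‖ < 1 → ‖z‖ < 1 := fun h => by
    rw [norm_pow] at h; exact lt_of_pow_lt_pow_left₀ 2 zero_le_one (by rwa [one_pow])
  have w1 : ‖-w‖ < 1 := by rwa [norm_neg]
  have c1 : ‖c‖ < 1 := sq' (hc ▸ w1)
  have c2 : ‖-c‖ < 1 := by rwa [norm_neg]
  have m0 : mob (-c) 0 = c := by simp [mob]
  set S : ℂ → ℂ := fun z => mob (-w) (mob (-c) z ^ 2) with hS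
  have S0 : S 0 = 0 := by simp only [hS, m0, hc]; simp [mob]
  have Sd : DifferentiableOn ℂ S (ball 0 1) := diff_mob w1 ((diff_mob c2 differentiableOn_id
    fun _ => mem_ball_zero_iff.1).pow 2) fun x hx => sq (norm_mob_lt c2 (mem_ball_zero_iff.1 hx))
  refine ⟨ball 0 1 ∩ S ⁻¹' W, q ∘ S, ⟨Sd.continuousOn.isOpen_inter_preimage isOpen_ball h.op,
    fun z hz => mem_ball_zero_iff.1 hz.1, ⟨mem_ball_self one_pos, by rw [mem_preimage, S0]; exact h.mem⟩,
    h.diff.comp (Sd.mono inter_subset_left) fun _ hz => hz.2, fun z hz => h.maps _ hz.2,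
    by rw [Function.comp_apply, S0, h.zero], fun y ρ hB z hz hq => ?_⟩, ?_⟩
  · obtain ⟨s, s1, s2, s3⟩ := h.sec y ρ hB _ hz.2 hq
    have z1 := mem_ball_zero_iff.1 hz.1
    have n : ∀ x ∈ ball y ρ, ‖s x‖ < 1 := fun x hx => h.sub _ (s2 x hx).1
    obtain ⟨t, t1, t2, t3⟩ := exists_sqrt (t₀ := mob (-c) z) (diff_mob hw s1 n)
      (fun x hx e => hn (mob_eq_zero hw (n x hx) e ▸ (s2 x hx).1)) hq
      (by rw [Function.comp_apply, s3, mob_mob' hw (sq (norm_mob_lt c2 z1))])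
    have n' : ∀ x ∈ ball y ρ, ‖t x‖ < 1 := fun x hx => sq' (t2 x ▸ norm_mob_lt hw (n x hx))
    refine ⟨fun x => mob c (t x), diff_mob c1 t1 n', fun x hx => ?_, by
      beta_reduce; rw [show t ((q ∘ S) z) = _ from t3, mob_mob' c1 z1]⟩
    have e : S (mob c (t x)) = s x := by
      simp only [hS]; rw [mob_mob c1 (n' x hx), t2, mob_mob hw (n x hx)]
    exact ⟨⟨mem_ball_zero_iff.2 (norm_mob_lt c1 (n' x hx)), by rw [mem_preimage, e]; exact (s2 x hx).1⟩,
      by rw [Function.comp_apply, e, (s2 x hx).2]⟩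
  · have d1 := (hasDerivAt_mob c2 (z := 0) (by simp)).pow 2
    have d2 := (hasDerivAt_mob w1 (z := (mob (-c) ^ 2) 0) (by
      rw [Pi.pow_apply, m0, hc]; exact w1)).comp 0 d1
    have d3 := (by rw [S0]; exact (h.diff.differentiableAt (h.op.mem_nhds h.mem)).hasDerivAt :
      HasDerivAt q (deriv q 0) (S 0)).comp 0 (show HasDerivAt S _ 0 from d2)
    rw [d3.deriv, norm_mul, mul_comm, Pi.pow_apply, m0, hc, one_sub_conj_mul, one_sub_conj_mul]
    refine mul_le_mul_of_nonneg_right ?_ (norm_nonneg _)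
    have e : ‖w‖ = ‖c‖ ^ 2 := by rw [← norm_pow, hc, norm_neg]
    have t0 := norm_nonneg c
    have h1 : 0 < 1 - ‖c‖ ^ 2 := by nlinarith
    have h2 : 0 < 1 - (‖c‖ ^ 2) ^ 2 := by nlinarith
    simp only [mul_zero, sub_zero, one_pow, div_one, norm_mul, norm_div, norm_pow, norm_neg, e,
      Complex.norm_real, Real.norm_eq_abs, abs_of_pos h1, abs_of_pos h2,
      Nat.cast_ofNat, Nat.add_one_sub_one, pow_one, Complex.norm_ofNat]
    generalize ‖c‖ = t at *
    rw [show (1 - (t ^ 2) ^ 2) / (1 - (t ^ 2) ^ 2) ^ 2 * (2 * t * (1 - t ^ 2)) =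
      2 * t / (1 + t ^ 2) by
        rw [show 1 - (t ^ 2) ^ 2 = (1 - t ^ 2) * (1 + t ^ 2) by ring]; field_simp,
      div_le_iff₀ (by positivity)]
    have : (1 - t ^ 2) ^ 2 * (1 + t ^ 2) ≤ (1 - t) ^ 2 * 8 := by
      rw [show (1 - t ^ 2) ^ 2 * (1 + t ^ 2) = (1 - t) ^ 2 * ((1 + t) ^ 2 * (1 + t ^ 2)) by ring]
      exact mul_le_mul_of_nonneg_left (by nlinarith) (sq_nonneg _)
    linarith

variable (hV : IsOpen V) (a0 : 0 < a) (ha : ball 0 a ⊆ V) (hb : V ⊆ ball 0 b)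
include hV a0 ha hb

lemma exists_big (r1 : r < 1) : ∃ W q, Cv V W q ∧ ball 0 r ⊆ W := by
  have v0 := ha (mem_ball_self a0)
  have b0 : 0 < b := pos_of_mem_ball (hb v0)
  have b1 : (b : ℂ) ≠ 0 := ofReal_ne_zero.2 b0.ne'
  by_contra! H
  have t0 : 0 ≤ 1 - (1 - max r 0) ^ 2 / 8 := by
    nlinarith [le_max_right r 0, max_lt r1 one_pos]
  have t1 : 1 - (1 - max r 0) ^ 2 / 8 < 1 := by nlinarith [max_lt r1 one_pos]
  have key : ∀ n : ℕ, ∃ W q, Cv V W q ∧ ‖deriv q 0‖ ≤ (1 - (1 - max r 0) ^ 2 / 8) ^ n * b := by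
    intro n
    induction n with
    | zero =>
      refine ⟨(fun z => b * z) ⁻¹' V, fun z => b * z, ⟨hV.preimage (by fun_prop), fun z hz => ?_,
        by simpa using v0, by fun_prop, fun _ hz => hz, mul_zero _, fun c ρ hB w _ _ =>
        ⟨fun x => x / b, by fun_prop, fun x hx => ⟨by simpa [mul_div_cancel₀ _ b1] using hB hx,
          mul_div_cancel₀ _ b1⟩, mul_div_cancel_left₀ _ b1⟩⟩, by simp [abs_of_pos b0]⟩
      have := mem_ball_zero_iff.1 (hb hz)
      rw [norm_mul, norm_real, Real.norm_of_nonneg b0.le] at this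
      exact (mul_lt_iff_lt_one_right b0).1 this
    | succ n ih =>
      obtain ⟨W, q, h, e⟩ := ih
      obtain ⟨w, w1, w2⟩ := not_subset.1 (H W q h)
      have w3 := (mem_ball_zero_iff.1 w1).trans_le (le_max_left r 0)
      obtain ⟨W', q', h', e'⟩ := h.step (w3.trans (max_lt r1 one_pos)) w2
      refine ⟨W', q', h', e'.trans ?_⟩
      rw [pow_succ' _ n, mul_assoc]
      exact mul_le_mul (by nlinarith [max_lt r1 one_pos]) e (norm_nonneg _) t0
  obtain ⟨n, hn⟩ := exists_pow_lt_of_lt_one (show 0 < a / 2 / b by positivity) t1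
  obtain ⟨W, q, h, e⟩ := key n
  exact ((h.low a0 ha).trans e).not_gt ((lt_div_iff₀ b0).1 hn)

/-- the holomorphic covering by the disc -/
lemma exists_cv : ∃ q, Cv V (ball 0 1) q := by
  obtain ⟨u, -, u1, u2⟩ := exists_seq_strictMono_tendsto' (zero_lt_one' ℝ)
  choose W q h hW using fun j => exists_big hV a0 ha hb (u1 j).2
  have u3 : Tendsto (fun j => (u j : ℂ)) (hyperfilter ℕ) (𝓝 1) :=
    ((continuous_ofReal.tendsto 1).comp u2).mono_left
      (hyperfilter_le_cofinite.trans Nat.cofinite_eq_atTop.le)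
  have m : ∀ j, ∀ z ∈ ball (0 : ℂ) 1, u j * z ∈ W j := fun j z hz => hW j (by
    rw [mem_ball_zero_iff, norm_mul, norm_real, Real.norm_of_nonneg (u1 j).1.le]
    exact mul_lt_of_lt_one_right (u1 j).1 (mem_ball_zero_iff.1 hz))
  have d : ∀ j, DifferentiableOn ℂ (fun z => q j (u j * z)) (ball 0 1) := fun j =>
    (h j).diff.comp (by fun_prop) (m j)
  obtain ⟨g, g1, g2, g3⟩ := montel (hyperfilter ℕ) isOpen_ball d
    fun j z hz => (mem_ball_zero_iff.1 (hb ((h j).maps _ (m j z hz)))).le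
  have g0 : g 0 = 0 := tendsto_nhds_unique (g3 0 (mem_ball_self one_pos))
    (by simp only [mul_zero, (h _).zero]; exact tendsto_const_nhds)
  refine ⟨g, isOpen_ball, fun _ => mem_ball_zero_iff.1, mem_ball_self one_pos, g1, fun z hz => ?_,
    g0, fun c ρ hB w hw hq => ?_⟩
  · by_contra e
    exact hurwitz_ne (c := g z) isOpen_ball (convex_ball 0 1).isPreconnected d
      (fun j x hx e' => e (e' ▸ (h j).maps _ (m j x hx))) g2 (mem_ball_self one_pos)
      (fun e' => e (e' ▸ g0.symm ▸ ha (mem_ball_self a0))) hz rfl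
  have k : ∀ j, ∃ s : ℂ → ℂ, DifferentiableOn ℂ s (ball c ρ) ∧ (∀ x ∈ ball c ρ, ‖s x‖ ≤ 1) ∧
      (q j (u j * w) ∈ ball c ρ → (∀ x ∈ ball c ρ, q j (s x) = x) ∧ s (q j (u j * w)) = u j * w) :=
    fun j => (em (q j (u j * w) ∈ ball c ρ)).elim (fun e =>
      let ⟨s, s1, s2, s3⟩ := (h j).sec c ρ hB _ (m j w hw) e
      ⟨s, s1, fun x hx => ((h j).sub _ (s2 x hx).1).le, fun _ => ⟨fun x hx => (s2 x hx).2, s3⟩⟩)
      fun e => ⟨0, differentiableOn_const 0, by simp, fun e' => (e e').elim⟩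
  choose s s1 s2 s3 using k
  obtain ⟨σ, t1, t2, t3⟩ := montel (hyperfilter ℕ) isOpen_ball s1 s2
  have ev := (g3 w hw).eventually (isOpen_ball.mem_nhds hq)
  have e : σ (g w) = w := tendsto_nhds_unique (t2.tendsto_comp (t1.continuousOn _ hq) hq
    (by rw [isOpen_ball.nhdsWithin_eq hq]; exact g3 w hw))
    ((by simpa using u3.mul_const w : Tendsto (fun j => u j * w) _ (𝓝 w)).congr'
      (ev.mono fun j hj => (s3 j hj).2.symm))
  have l : ∀ x ∈ ball c ρ, ‖σ x‖ ≤ 1 := fun x hx => le_of_tendsto' (t3 x hx).norm fun j => s2 j x hx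
  refine ⟨σ, t1, fun x hx => ?_, e⟩
  have n : σ x ∈ ball (0 : ℂ) 1 := mem_ball_zero_iff.2 ((l x hx).lt_of_ne fun e' => by
    have := norm_eqOn_of_isPreconnected_of_isMaxOn (convex_ball c ρ).isPreconnected isOpen_ball t1 hx
      (fun y hy => (l y hy).trans e'.ge) hq
    simp only [Function.comp_apply, e, Function.const_apply, e'] at this
    exact (mem_ball_zero_iff.1 hw).ne this)
  refine ⟨n, tendsto_nhds_unique (g2.tendsto_comp (g := fun j => s j x / u j) (g1.continuousOn _ n) n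
    (by rw [isOpen_ball.nhdsWithin_eq n, ← div_one (σ x)]; exact (t3 x hx).div u3 one_ne_zero))
    (tendsto_const_nhds.congr' (ev.mono fun j hj => ?_))⟩
  simp only [mul_div_cancel₀ _ (ofReal_ne_zero.2 (u1 j).1.ne'), (s3 j hj).1 x hx]

omit hV ha hb in
/-- a homeomorphism of the plane with a ball which is the identity on a smaller ball -/
lemma exists_rad (hab : a < b) : ∃ χ χ' : ℂ → ℂ, Continuous χ ∧ ContinuousOn χ' (ball 0 b) ∧
    (∀ z, χ z ∈ ball 0 b) ∧ (∀ z, χ' (χ z) = z) ∧ (∀ w ∈ ball 0 b, χ (χ' w) = w) ∧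
    ∀ z, ‖z‖ ≤ a → χ z = z := by
  have c0 := sub_pos.2 hab
  have n : ∀ (z : ℂ) (t : ℝ), 0 ≤ t → ‖z * t‖ = ‖z‖ * t := fun z t h => by
    rw [norm_mul, norm_real, Real.norm_of_nonneg h]
  have p : ∀ z : ℂ, 0 < ‖z‖ + (b - a) := fun z => by positivity
  have e1 : ∀ t, 0 ≤ t → t ≤ a → min 1 (b / (t + (b - a))) = 1 ∧ max 1 ((b - a) / (b - t)) = 1 :=
    fun t h0 h => ⟨min_eq_left ((one_le_div (by linarith)).2 (by linarith)),
      max_eq_left ((div_le_one (by linarith)).2 (by linarith))⟩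
  refine ⟨fun z => z * (min 1 (b / (‖z‖ + (b - a))) : ℝ), fun w => w * (max 1 ((b - a) / (b - ‖w‖)) : ℝ),
    continuous_id.mul (continuous_ofReal.comp (continuous_const.min (continuous_const.div
      (by fun_prop) fun z => (p z).ne'))), continuousOn_id.mul (continuous_ofReal.comp_continuousOn
      (continuousOn_const.sup (continuousOn_const.div (by fun_prop)
        fun z hz => (sub_pos.2 (mem_ball_zero_iff.1 hz)).ne'))), fun z => ?_, fun z => ?_,
    fun w hw => ?_, fun z hz => by simp [(e1 _ (norm_nonneg z) hz).1]⟩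
  · rw [mem_ball_zero_iff, n _ _ (le_min zero_le_one (div_pos (by linarith) (p z)).le)]
    refine (mul_le_mul_of_nonneg_left (min_le_right _ _) (norm_nonneg z)).trans_lt ?_
    rw [← mul_div_assoc, div_lt_iff₀ (p z)]
    nlinarith
  · rcases le_total ‖z‖ a with h | h
    · simp [e1 _ (norm_nonneg z) h]
    have := p z
    have e : (b - a) / (b - ‖z‖ * (b / (‖z‖ + (b - a)))) = (‖z‖ + (b - a)) / b := by
      have : b ≠ 0 := by linarith
      rw [show b - ‖z‖ * (b / (‖z‖ + (b - a))) = b * (b - a) / (‖z‖ + (b - a)) by field_simp; ring]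
      field_simp
    beta_reduce
    rw [min_eq_right ((div_le_one this).2 (by linarith)), n _ _ (div_pos (by linarith) this).le, e,
      max_eq_right ((one_le_div (by linarith)).2 (by linarith)), mul_assoc, ← ofReal_mul,
      div_mul_div_cancel₀ this.ne', div_self (by linarith), ofReal_one, mul_one]
  · rcases le_total ‖w‖ a with h | h
    · simp [e1 _ (norm_nonneg w) h]
    have := sub_pos.2 (mem_ball_zero_iff.1 hw)
    have e : b / (‖w‖ * ((b - a) / (b - ‖w‖)) + (b - a)) = (b - ‖w‖) / (b - a) := by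
      have : b ≠ 0 := by linarith
      rw [show ‖w‖ * ((b - a) / (b - ‖w‖)) + (b - a) = b * (b - a) / (b - ‖w‖) by field_simp; ring]
      field_simp
    beta_reduce
    rw [max_eq_right ((one_le_div this).2 (by linarith)), n _ _ (div_pos c0 this).le, e,
      min_eq_right ((div_le_one c0).2 (by linarith)), mul_assoc, ← ofReal_mul,
      div_mul_div_cancel₀ this.ne', div_self c0.ne', ofReal_one, mul_one]

end C2

open C2 in
theorem sUnif_of (h : S_ExtC) : S_Unif := fun U r R hU _ R0 hr hR => by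
  obtain ⟨a, a1, a2⟩ := exists_between (max_lt hr R0)
  rw [max_lt_iff] at a1
  obtain ⟨ψ, ψ', p1, p2, p3, p4, p5, p6⟩ := exists_rad a1.2 a2
  have fx : ∀ z, ‖z‖ ≤ a → ψ' z = z := fun z hz => by rw [← p6 z hz, p4, p6 z hz]
  have hV := p2.isOpen_inter_preimage isOpen_ball hU
  have ha : ball 0 a ⊆ ball 0 R ∩ ψ' ⁻¹' U := fun z hz => ⟨ball_subset_ball a2.le hz, by
    rw [mem_preimage, fx z (mem_ball_zero_iff.1 hz).le]; exact hR (ball_subset_ball a2.le hz)⟩
  obtain ⟨g, G⟩ := exists_cv hV a1.2 ha inter_subset_left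
  obtain ⟨s, s1, s2, -⟩ := G.sec 0 a ha 0 G.mem (by rw [G.zero]; exact mem_ball_self a1.2)
  obtain ⟨k, -, hk⟩ := h s r a s1 (fun x hx y hy e => by rw [← (s2 x hx).2, e, (s2 y hy).2]) a1.2 a1.1
  have m : ∀ z : ℂ, ‖z‖ ≤ r → z ∈ ball 0 a := fun z hz => mem_ball_zero_iff.2 (hz.trans_lt a1.1)
  obtain ⟨ρ, ρ1, ρ2⟩ := exists_pos_lt_subset_ball (x := (0 : ℂ)) one_pos
    ((isCompact_closedBall 0 r).image k.continuous).isClosed (by
      rintro _ ⟨z, hz, rfl⟩
      rw [hk z (mem_closedBall_zero_iff.1 hz)]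
      exact (s2 z (m z (mem_closedBall_zero_iff.1 hz))).1)
  obtain ⟨χ, χ', c1, c2, c3, c4, c5, c6⟩ := exists_rad ρ1.1 ρ1.2
  have v := fun z => G.maps _ (c3 (k z))
  have qc : Continuous fun z => ψ' (g (χ (k z))) := p2.comp_continuous
    (G.diff.continuousOn.comp_continuous (c1.comp k.continuous) fun z => c3 _) fun z => (v z).1
  refine ⟨_, qc, fun z => (v z).2, fun y hy => ?_, fun z hz => ?_⟩
  · obtain ⟨ε, ε0, hε⟩ := Metric.isOpen_iff.1 hV (ψ y) ⟨p3 y, by rwa [mem_preimage, p4]⟩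
    have hB : ψ' '' ball (ψ y) ε = ψ ⁻¹' ball (ψ y) ε := Set.ext fun x =>
      ⟨by rintro ⟨z, hz, rfl⟩; rwa [mem_preimage, p5 z (hε hz).1], fun hx => ⟨_, hx, p4 x⟩⟩
    refine cover_of qc (isOpen_ball.preimage p1) (hB ▸ (convex_ball _ _).isPreconnected.image _
      (p2.mono fun z hz => (hε hz).1)) (mem_ball_self ε0) fun w hw => ?_
    rw [mem_preimage, p5 _ (v w).1] at hw
    obtain ⟨σ, t1, t2, t3⟩ := G.sec _ ε hε _ (c3 _) hw
    refine ⟨fun x => k⁻¹ (χ' (σ (ψ x))), (k⁻¹ : H).continuous.comp_continuousOn (c2.comp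
      (t1.continuousOn.comp p1.continuousOn fun _ hx => hx) fun x hx => (t2 _ hx).1),
      fun x hx => by rw [happly_inv, c5 _ (t2 _ hx).1, (t2 _ hx).2, p4],
      by beta_reduce; rw [p5 _ (v w).1, t3, c4, hinv_apply], ?_⟩
    have := (isOpen_image_of_injOn isOpen_ball t1 (fun x hx y hy e => by
      rw [← (t2 x hx).2, e, (t2 y hy).2]) isOpen_ball Subset.rfl).preimage (c1.comp k.continuous)
    rwa [show (χ ∘ k) ⁻¹' (σ '' ball (ψ y) ε) = (fun x => k⁻¹ (χ' (σ (ψ x)))) ''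
      (ψ ⁻¹' ball (ψ y) ε) from Set.ext fun z => ⟨fun ⟨x, hx, e⟩ =>
      ⟨ψ' x, by rwa [mem_preimage, p5 x (hε hx).1], by
        beta_reduce; rw [p5 x (hε hx).1, e, Function.comp_apply, c4, hinv_apply]⟩, by
      rintro ⟨x, hx, rfl⟩
      exact ⟨_, hx, by rw [Function.comp_apply, happly_inv, c5 _ (t2 _ hx).1]⟩⟩] at this
  · rw [c6 _ (mem_ball_zero_iff.1 (ρ2 ⟨z, mem_closedBall_zero_iff.2 hz, rfl⟩)).le, hk z hz,
      (s2 z (m z hz)).2, fx z (hz.trans a1.1.le)]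

end

end Pool.Agent.Lib.MP_d32f96_gt
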