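import Pool.Agent.Lib.MP_d32f96_gt.Ea

/-! The Schoenflies theorem. -/

namespace Pool.Agent.Lib.MP_d32f96_gt

open Set Filter Topology Metric Complex Bornology ComplexConjugate
open Pool.Agent.Lib.MP_1e9af3_an Pool.Agent.Lib.MP_069d55_gt

noncomputable section

namespace E

lemma cont_inv {f : ℂ → ℂ} {K : Set ℂ} (hK : IsCompact K) (hc : ContinuousOn f K)
    (hi : InjOn f K) : ContinuousOn (Function.invFunOn f K) (f '' K) := by
  refine continuousOn_iff_isClosed.2 fun t ht => ⟨f '' (K ∩ t),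
    ((hK.inter_right ht).image_of_continuousOn (hc.mono inter_subset_left)).isClosed, ?_⟩
  ext w
  constructor
  · rintro ⟨h1, z, hz, rfl⟩
    rw [mem_preimage, hi.leftInvOn_invFunOn hz] at h1
    exact ⟨⟨z, ⟨hz, h1⟩, rfl⟩, z, hz, rfl⟩
  · rintro ⟨⟨z, hz, rfl⟩, h2⟩
    exact ⟨by rw [mem_preimage, hi.leftInvOn_invFunOn hz.1]; exact hz.2, h2⟩

lemma arcs {γ : ℂ → ℂ} (hc : ContinuousOn γ (sphere 0 1)) (hi : InjOn γ (sphere 0 1)) {ε : ℝ}
    (hε : 0 < ε) : ∃ δ > 0, δ ≤ ε ∧ ∀ b ∈ γ '' sphere 0 1, ∃ β β' : Set ℂ, IsCompact β ∧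
      IsCompact β' ∧ IsPreconnected β ∧ IsPreconnected β' ∧ β ∪ β' = γ '' sphere 0 1 ∧
      (∀ z ∈ β, ‖z - b‖ < ε) ∧ ∀ z ∈ β', δ < ‖z - b‖ := by
  have ms : ∀ ζ ∈ sphere (0 : ℂ) 1, ∀ t : ℝ, ζ * ee t ∈ sphere (0 : ℂ) 1 := fun ζ hζ t => by
    rw [mem_sphere_zero_iff_norm] at hζ ⊢
    rw [norm_mul, hζ, norm_ee_real, one_mul]
  have ce : Continuous fun t : ℝ => ee t := continuous_ee.comp continuous_ofReal
  obtain ⟨η, hη, hu⟩ := Metric.uniformContinuousOn_iff.1
    ((isCompact_sphere 0 1).uniformContinuousOn_of_continuous hc) ε hε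
  obtain ⟨τ', hτ', hτ⟩ := Metric.continuousAt_iff.1 (ce.continuousAt (x := 0)) η hη
  set τ := min (τ' / 2) (1 / 2) with hτd
  have t0 : 0 < τ := lt_min (half_pos hτ') one_half_pos
  have t1 : τ < τ' := (min_le_left _ _).trans_lt (half_lt_self hτ')
  have cF : ContinuousOn (fun q : ℂ × ℝ => ‖γ (q.1 * ee q.2) - γ q.1‖)
      (sphere 0 1 ×ˢ Icc τ (1 - τ)) :=
    ((hc.comp (continuous_fst.mul (ce.comp continuous_snd)).continuousOn
      fun q hq => ms _ hq.1 _).sub (hc.comp continuous_fst.continuousOn fun q hq => hq.1)).norm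
  obtain ⟨m, hm, hmF⟩ := ((isCompact_sphere 0 1).prod isCompact_Icc).exists_forall_le' cF
    (a := 0) (fun q hq => by
      refine norm_pos_iff.2 (sub_ne_zero.2 fun e => ?_)
      have e1 := hi (ms _ hq.1 _) hq.1 e
      have h0 : q.1 ≠ 0 := fun h0 => by simpa [h0] using hq.1
      have e2 : ee q.2 = ee 0 := by rw [ee_zero]; exact mul_left_cancel₀ h0 (by rw [e1, mul_one])
      obtain ⟨n, hn⟩ := ee_eq_iff.1 e2
      have e3 : q.2 = n := by exact_mod_cast (by simpa using hn : (q.2 : ℂ) = n)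
      have a1 : (0 : ℝ) < n := by linarith [hq.2.1]
      have a2 : (n : ℝ) < 1 := by linarith [hq.2.2]
      have a3 : (0 : ℤ) < n := by exact_mod_cast a1
      have a4 : n < (1 : ℤ) := by exact_mod_cast a2
      omega)
  refine ⟨min (m / 2) ε, lt_min (half_pos hm) hε, min_le_right _ _, ?_⟩
  rintro _ ⟨ζ, hζ, rfl⟩
  have cΓ : Continuous fun t : ℝ => γ (ζ * ee t) :=
    hc.comp_continuous (continuous_const.mul ce) (ms ζ hζ)
  refine ⟨(fun t : ℝ => γ (ζ * ee t)) '' Icc (-τ) τ, (fun t : ℝ => γ (ζ * ee t)) '' Icc τ (1 - τ),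
    isCompact_Icc.image cΓ, isCompact_Icc.image cΓ, isPreconnected_Icc.image _ cΓ.continuousOn,
    isPreconnected_Icc.image _ cΓ.continuousOn, subset_antisymm ?_ ?_, ?_, ?_⟩
  · rintro _ (⟨t, -, rfl⟩ | ⟨t, -, rfl⟩) <;> exact ⟨_, ms ζ hζ t, rfl⟩
  · rintro _ ⟨z, hz, rfl⟩
    rw [mem_sphere_zero_iff_norm] at hζ hz
    have h0 : ζ ≠ 0 := by rintro rfl; simp at hζ
    have h1 : z ≠ 0 := by rintro rfl; simp at hz
    have e := polar (div_ne_zero h1 h0)
    rw [norm_div, hζ, hz] at e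
    set s := targ (z / ζ)
    have e1 : ζ * ee ((Int.fract (s + τ) - τ : ℝ) : ℂ) = z := by
      rw [show ((Int.fract (s + τ) - τ : ℝ) : ℂ) = s + ((-⌊s + τ⌋ : ℤ) : ℂ) by
        rw [Int.fract]; push_cast; ring, ee_add_int]
      have : ee s = z / ζ := by rw [e]; simp
      rw [this]; field_simp
    have f0 := Int.fract_nonneg (s + τ)
    have f1 := Int.fract_lt_one (s + τ)
    rcases le_total (Int.fract (s + τ) - τ) τ with hh | hh
    · exact Or.inl ⟨_, ⟨by linarith, hh⟩, by simp only [e1]⟩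
    · exact Or.inr ⟨_, ⟨hh, by linarith⟩, by simp only [e1]⟩
  · rintro _ ⟨t, ht, rfl⟩
    rw [← dist_eq_norm]
    refine hu _ (ms ζ hζ t) _ hζ ?_
    have := hτ (x := t) (by rw [Real.dist_eq, sub_zero]; exact (abs_le.2 ht).trans_lt t1)
    rw [dist_eq_norm, ofReal_zero, ee_zero] at this
    rwa [dist_eq_norm, show ζ * ee t - ζ = ζ * (ee t - 1) by ring, norm_mul,
      mem_sphere_zero_iff_norm.1 hζ, one_mul]
  · rintro _ ⟨t, ht, rfl⟩
    exact (min_le_left _ _).trans_lt ((half_lt_self hm).trans_le (hmF (ζ, t) ⟨hζ, ht⟩))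

lemma cone {σ : ℂ → ℂ} (hc : ContinuousOn σ (sphere 0 1)) (hi : InjOn σ (sphere 0 1))
    (hm : σ '' sphere 0 1 = sphere 0 1) : ∃ c : ℂ → ℂ, Continuous c ∧ Function.Bijective c ∧
      (∀ z, ‖c z‖ = ‖z‖) ∧ ∀ z, ‖z‖ = 1 → c z = σ z := by
  have ms : ∀ z : ℂ, z ≠ 0 → z / ‖z‖ ∈ sphere (0 : ℂ) 1 := fun z hz => by
    rw [mem_sphere_zero_iff_norm, norm_div, norm_real, norm_norm, div_self (norm_ne_zero_iff.2 hz)]
  have nc : ∀ z : ℂ, ‖(‖z‖ : ℂ) * σ (z / ‖z‖)‖ = ‖z‖ := fun z => by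
    by_cases hz : z = 0
    · simp [hz]
    · rw [norm_mul, norm_real, norm_norm,
        mem_sphere_zero_iff_norm.1 (hm.le (mem_image_of_mem σ (ms z hz))), mul_one]
  refine ⟨fun z => ‖z‖ * σ (z / ‖z‖), continuous_iff_continuousAt.2 fun z => ?_,
    ⟨fun z w e => ?_, fun w => ?_⟩, nc, fun z hz => by simp [hz]⟩
  · by_cases hz : z = 0
    · subst hz
      rw [ContinuousAt, tendsto_iff_norm_sub_tendsto_zero]
      simp only [norm_zero, ofReal_zero, zero_mul, sub_zero, nc]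
      simpa using continuous_norm.tendsto (0 : ℂ)
    · have cn : Continuous fun z : ℂ => (‖z‖ : ℂ) := continuous_ofReal.comp continuous_norm
      refine ContinuousOn.continuousAt (s := {0}ᶜ) (cn.continuousOn.mul (hc.comp
        (continuousOn_id.div cn.continuousOn fun x hx => ?_) fun x hx => ms x hx))
        (isOpen_compl_singleton.mem_nhds hz)
      exact_mod_cast norm_ne_zero_iff.2 hx
  · have en : ‖z‖ = ‖w‖ := by rw [← nc z, ← nc w]; exact congrArg norm e
    by_cases hz : z = 0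
    · rw [hz, norm_zero] at en; rw [hz, norm_eq_zero.1 en.symm]
    · have hw : w ≠ 0 := fun h0 => hz (by rwa [h0, norm_zero, norm_eq_zero] at en)
      have hn : (‖w‖ : ℂ) ≠ 0 := by exact_mod_cast norm_ne_zero_iff.2 hw
      have e1 := hi (ms z hz) (ms w hw) (mul_left_cancel₀ hn (by simpa only [en] using e))
      rw [en] at e1
      exact (div_left_inj' hn).1 e1
  · by_cases hw : w = 0
    · exact ⟨0, by simp [hw]⟩
    · obtain ⟨u, hu, e⟩ : w / ‖w‖ ∈ σ '' sphere 0 1 := hm.symm ▸ ms w hw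
      have hn : (‖w‖ : ℂ) ≠ 0 := by exact_mod_cast norm_ne_zero_iff.2 hw
      have n1 : ‖(‖w‖ : ℂ) * u‖ = ‖w‖ := by
        rw [norm_mul, mem_sphere_zero_iff_norm.1 hu, mul_one, norm_real, norm_norm]
      refine ⟨‖w‖ * u, ?_⟩
      simp only [n1]
      rw [mul_div_cancel_left₀ _ hn, e]; field_simp

lemma inside (h1 : S_RMT) (h2 : S_JCT) (h3 : S_Jan) {γ : ℂ → ℂ}
    (hc : ContinuousOn γ (sphere 0 1)) (hi : InjOn γ (sphere 0 1)) {a : ℂ}
    (ha : a ∉ γ '' sphere 0 1) (hb : IsBounded (connectedComponentIn (γ '' sphere 0 1)ᶜ a)) :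
    ∃ G : ℂ → ℂ, ContinuousOn G (closedBall 0 1) ∧ InjOn G (closedBall 0 1) ∧ G 0 = a ∧
      G '' ball 0 1 = connectedComponentIn (γ '' sphere 0 1)ᶜ a ∧ ∀ z, ‖z‖ = 1 → G z = γ z := by
  have hfr := (h2 γ hc hi).2
  have harc := fun ε hε => arcs hc hi (ε := ε) hε
  set J := γ '' sphere 0 1 with hJ
  set I := connectedComponentIn Jᶜ a with hI
  have Jc : IsCompact J := (isCompact_sphere 0 1).image_of_continuousOn hc
  have Jp : IsPreconnected J := (isPreconnected_sphere rank_two 0 1).image _ hc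
  have Io : IsOpen I := Jc.isClosed.isOpen_compl.connectedComponentIn
  have dj : ∀ w ∈ I, w ∉ J := fun w hw => connectedComponentIn_subset _ _ hw
  have hcl : ∀ y, y ∉ J → closure (connectedComponentIn Jᶜ y) = connectedComponentIn Jᶜ y ∪ J :=
    fun y hy => by rw [closure_eq_self_union_frontier, hfr y hy]
  have p1 : γ 1 ∈ J := ⟨1, by simp, rfl⟩
  have Icp : IsPreconnected Iᶜ := by
    refine isPreconnected_of_forall (γ 1) fun y hy => ?_
    by_cases hyJ : y ∈ J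
    · exact ⟨J, fun w hw hwI => dj w hwI hw, p1, hyJ, Jp⟩
    · refine ⟨closure (connectedComponentIn Jᶜ y), ?_, ?_,
        subset_closure (mem_connectedComponentIn hyJ), isPreconnected_connectedComponentIn.closure⟩
      · rw [hcl y hyJ]
        rintro w (hw | hw) hwI
        · exact hy (by
            rw [hI, connectedComponentIn_eq hwI, ← connectedComponentIn_eq hw]
            exact mem_connectedComponentIn hyJ)
        · exact dj w hwI hw
      · rw [hcl y hyJ]; exact Or.inr p1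
  obtain ⟨φ, φd, φi, φim, φ0⟩ := h1 I a Io hb isPreconnected_connectedComponentIn Icp
    (mem_connectedComponentIn ha)
  set k := Function.invFunOn φ (ball 0 1) with hk
  have kh : ∀ z ∈ ball (0 : ℂ) 1, k (φ z) = z := fun z hz => φi.leftInvOn_invFunOn hz
  have hex : ∀ w ∈ I, ∃ z ∈ ball (0 : ℂ) 1, φ z = w := fun w hw => by rwa [← φim] at hw
  have join : ∀ (B T : Set ℂ), IsCompact B → IsPreconnected (J ∩ B) → IsPreconnected T →
      T ⊆ Bᶜ → ∀ w ∈ I, ∀ w' ∈ I, w ∈ T → w' ∈ T →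
      ∃ S, IsPreconnected S ∧ S ⊆ I ∧ w ∈ S ∧ w' ∈ S ∧ ∀ z ∈ S, z ∉ B := by
    intro B T hB hJB hT hTB w hw w' hw' m m'
    have e : I = connectedComponentIn Jᶜ w := connectedComponentIn_eq hw
    refine ⟨connectedComponentIn (J ∪ B)ᶜ w, isPreconnected_connectedComponentIn, ?_,
      mem_connectedComponentIn (by rintro (h | h); exacts [dj w hw h, hTB m h]),
      h3 J B w w' Jc hB hJB (e ▸ hw') (hT.subset_connectedComponentIn m hTB m'),
      fun z hz hzB => connectedComponentIn_subset _ _ hz (Or.inr hzB)⟩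
    rw [e]
    exact connectedComponentIn_mono _ (compl_subset_compl.2 subset_union_left)
  have H : JD J I φ k := by
    refine ⟨Jc.isClosed, Io, hb, dj, (hcl a ha).le, φd.continuousOn, fun w hw => ?_,
      fun z hz => φim ▸ mem_image_of_mem φ hz, fun w hw => Function.invFunOn_mem (hex w hw), kh,
      fun w hw => Function.invFunOn_eq (hex w hw), fun ε hε => ?_, fun b hbJ ε hε => ?_⟩
    · obtain ⟨z, hz, rfl⟩ := hex w hw
      exact (continuousAt_inv_of_injOn isOpen_ball φd φi kh hz).continuousWithinAt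
    · obtain ⟨δ, hδ, hδε, hδa⟩ := harc ε hε
      refine ⟨δ, hδ, fun b hbJ w hw w' hw' d d' => ?_⟩
      obtain ⟨β, β', c1, -, q1, -, hu, s1, s2⟩ := hδa b hbJ
      have e : J ∩ (closedBall b δ ∪ β) = β := by
        refine subset_antisymm ?_ fun z hz => ⟨hu ▸ Or.inl hz, Or.inr hz⟩
        rintro z ⟨hz, h | h⟩
        · rw [← hu] at hz
          exact hz.resolve_right fun h' => (s2 z h').not_ge (by rwa [← dist_eq_norm])
        · exact h
      obtain ⟨S, a1, a2, a3, a4, a5⟩ := join (closedBall b δ ∪ β) {z | ‖z - b‖ ∈ Ioi ε}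
        ((isCompact_closedBall b δ).union c1) (e.symm ▸ q1)
        (preconn_ann b isPreconnected_Ioi fun r hr => hε.le.trans (le_of_lt hr)) (by
          rintro z hz (h | h)
          · rw [mem_closedBall, dist_eq_norm] at h
            exact absurd (hδε.trans_lt hz) h.not_gt
          · exact lt_asymm hz (s1 z h)) w hw w' hw' d d'
      refine ⟨S, a1, a2, a3, a4, fun z hz => not_le.1 fun h => a5 z hz (Or.inl ?_)⟩
      rwa [mem_closedBall, dist_eq_norm]
    · obtain ⟨δ, hδ, hδε, hδa⟩ := harc ε hε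
      refine ⟨δ, hδ, fun w hw w' hw' d d' => ?_⟩
      obtain ⟨β, β', -, c2, -, q2, hu, s1, s2⟩ := hδa b hbJ
      have e : J ∩ (sphere b ε ∪ β') = β' := by
        refine subset_antisymm ?_ fun z hz => ⟨hu ▸ Or.inr hz, Or.inr hz⟩
        rintro z ⟨hz, h | h⟩
        · rw [← hu] at hz
          exact hz.resolve_left fun h' => (s1 z h').ne (by rwa [← dist_eq_norm])
        · exact h
      obtain ⟨S, a1, a2, a3, a4, a5⟩ := join (sphere b ε ∪ β') (ball b δ)
        ((isCompact_sphere b ε).union c2) (e.symm ▸ q2) (convex_ball b δ).isPreconnected (by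
          rintro z hz (h | h)
          · rw [mem_sphere] at h; rw [mem_ball] at hz; linarith
          · rw [mem_ball, dist_eq_norm] at hz
            exact lt_asymm hz (s2 z h)) w hw w' hw' (by rwa [mem_ball, dist_eq_norm])
          (by rwa [mem_ball, dist_eq_norm])
      refine ⟨S, a1, a2, a3, a4, fun z hz => not_le.1 fun h => ?_⟩
      obtain ⟨v, hv, hv'⟩ := a1.intermediate_value a3 hz (f := fun w => ‖w - b‖) (by fun_prop)
        (show ε ∈ Icc _ _ from ⟨d.le.trans hδε, h⟩)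
      exact a5 v hv (Or.inl (by rwa [mem_sphere, dist_eq_norm]))
  obtain ⟨g, gc, gi, ge, gJ⟩ := H.ext φd
  have gI : g '' ball 0 1 = I := φim ▸ image_congr ge
  have gs : g '' sphere 0 1 = J := by
    refine subset_antisymm (by rintro _ ⟨z, hz, rfl⟩; exact gJ z (mem_sphere_zero_iff_norm.1 hz))
      fun b hbJ => ?_
    obtain ⟨z, hz, rfl⟩ := closure_minimal (gI ▸ image_mono ball_subset_closedBall)
      ((isCompact_closedBall 0 1).image_of_continuousOn gc).isClosed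
      (show b ∈ closure I by rw [hI, hcl a ha]; exact Or.inr hbJ)
    rcases (mem_closedBall_zero_iff.1 hz).lt_or_eq with h | h
    · exact absurd hbJ (dj _ (gI ▸ mem_image_of_mem g (mem_ball_zero_iff.2 h)))
    · exact ⟨z, mem_sphere_zero_iff_norm.2 h, rfl⟩
  have gi' := gi.mono (sphere_subset_closedBall (x := (0 : ℂ)) (ε := 1))
  have hγ : ∀ z ∈ sphere (0 : ℂ) 1, ∃ u ∈ sphere (0 : ℂ) 1, g u = γ z := fun z hz => by
    have : γ z ∈ g '' sphere 0 1 := gs.symm ▸ mem_image_of_mem γ hz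
    exact this
  have gσ : ∀ z ∈ sphere (0 : ℂ) 1, g (Function.invFunOn g (sphere 0 1) (γ z)) = γ z :=
    fun z hz => Function.invFunOn_eq (hγ z hz)
  obtain ⟨c, cc, cb, cn, cs⟩ := cone (σ := fun z => Function.invFunOn g (sphere 0 1) (γ z))
    ((cont_inv (isCompact_sphere 0 1) (gc.mono sphere_subset_closedBall) gi').comp hc
      fun z hz => hγ z hz)
    (fun z hz w hw e => hi hz hw (by rw [← gσ z hz, ← gσ w hw]; exact congrArg g e))
    (subset_antisymm (by rintro _ ⟨z, hz, rfl⟩; exact Function.invFunOn_mem (hγ z hz))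
      fun u hu => by
        obtain ⟨z, hz, e⟩ : g u ∈ J := gs ▸ mem_image_of_mem g hu
        exact ⟨z, hz, by simp only [e]; exact gi'.leftInvOn_invFunOn hu⟩)
  have cm : MapsTo c (closedBall 0 1) (closedBall 0 1) := fun z hz => by simpa [cn] using hz
  refine ⟨fun z => g (c z), gc.comp cc.continuousOn cm,
    fun z hz w hw e => cb.1 (gi (cm hz) (cm hw) e), ?_, ?_, fun z hz => ?_⟩
  · have : c 0 = 0 := norm_eq_zero.1 (by rw [cn, norm_zero])
    simp only [this]
    rw [ge 0 (mem_ball_self one_pos), φ0]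
  · rw [← gI]
    ext w
    constructor
    · rintro ⟨z, hz, rfl⟩
      exact ⟨c z, by simpa [cn] using hz, rfl⟩
    · rintro ⟨u, hu, rfl⟩
      obtain ⟨z, rfl⟩ := cb.2 u
      exact ⟨z, by simpa [cn] using hu, rfl⟩
  · simp only [cs z hz]
    exact gσ z (mem_sphere_zero_iff_norm.2 hz)

end E

theorem sSP_of (h1 : S_RMT) (h2 : S_JCT) (h3 : S_Jan) (h4 : S_logOut) : S_SP := by
  intro γ hc hi
  obtain ⟨a, ha, hb⟩ := (h2 γ hc hi).1
  obtain ⟨G, Gc, Gi, G0, Gb, Gs⟩ := E.inside h1 h2 h3 hc hi ha hb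
  have hne : ∀ z ∈ sphere (0 : ℂ) 1, γ z - a ≠ 0 := fun z hz e => ha ⟨z, hz, sub_eq_zero.1 e⟩
  have hc' : ContinuousOn (fun z => (γ z - a)⁻¹) (sphere 0 1) :=
    (hc.sub continuousOn_const).inv₀ hne
  have hi' : InjOn (fun z => (γ z - a)⁻¹) (sphere 0 1) := fun z hz w hw e =>
    hi hz hw (sub_left_inj.1 (inv_inj.1 e))
  set J := γ '' sphere 0 1 with hJ
  set J' := (fun z => (γ z - a)⁻¹) '' sphere 0 1 with hJ'
  have Jc : IsCompact J := (isCompact_sphere 0 1).image_of_continuousOn hc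
  have Jc' : IsCompact J' := (isCompact_sphere 0 1).image_of_continuousOn hc'
  have mJ : ∀ w, (w - a)⁻¹ ∈ J' ↔ w ∈ J := fun w =>
    ⟨fun ⟨z, hz, e⟩ => ⟨z, hz, sub_left_inj.1 (inv_inj.1 e)⟩, fun ⟨z, hz, e⟩ => ⟨z, hz, by simp [e]⟩⟩
  have ha' : (0 : ℂ) ∉ J' := fun h => ha ((mJ a).1 (by simpa using h))
  have ci : ContinuousOn (fun w : ℂ => (w - a)⁻¹) {a}ᶜ :=
    (continuousOn_id.sub continuousOn_const).inv₀ fun w hw => sub_ne_zero.2 hw
  have hb' : IsBounded (connectedComponentIn J'ᶜ 0) := by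
    by_contra hn
    obtain ⟨L, Lc, Le⟩ := (h4 J' 0 Jc').2 hn
    refine (h4 J a Jc).1 ⟨fun w => -L (w - a)⁻¹,
      (Lc.comp (ci.mono fun w hw e => ha (e ▸ hw)) fun w hw => (mJ w).2 hw).neg, fun w hw => ?_⟩ hb
    rw [ee_neg, Le _ ((mJ w).2 hw)]; simp
  obtain ⟨F, Fc, Fi, F0, Fb, Fs⟩ := E.inside h1 h2 h3 hc' hi' ha' hb'
  set V := connectedComponentIn J'ᶜ 0 with hV
  have m0 : (0 : ℂ) ∈ closedBall (0 : ℂ) 1 := mem_closedBall_self zero_le_one
  have nj : ∀ z : ℂ, ‖(conj z)⁻¹‖ = ‖z‖⁻¹ := fun z => by simp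
  have jm : ∀ z : ℂ, 1 ≤ ‖z‖ → (conj z)⁻¹ ∈ closedBall (0 : ℂ) 1 := fun z hz => by
    rw [mem_closedBall_zero_iff, nj]; exact inv_le_one_of_one_le₀ hz
  have z0 : ∀ z : ℂ, 1 ≤ ‖z‖ → z ≠ 0 := fun z hz e => by rw [e, norm_zero] at hz; linarith
  have Fj : ∀ z : ℂ, 1 ≤ ‖z‖ → F (conj z)⁻¹ ≠ 0 := fun z hz e =>
    z0 z hz (by simpa using Fi (jm z hz) m0 (e.trans F0.symm))
  have FV : ∀ z : ℂ, 1 < ‖z‖ → F (conj z)⁻¹ ∈ V := fun z hz => Fb.le ⟨_, by
    rw [mem_ball_zero_iff, nj]; exact inv_lt_one_of_one_lt₀ hz, rfl⟩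
  have agree : ∀ z : ℂ, ‖z‖ = 1 → G z = a + (F (conj z)⁻¹)⁻¹ := fun z hz => by
    have : (conj z)⁻¹ = z := inv_eq_of_mul_eq_one_left (by
      rw [mul_conj, normSq_eq_norm_sq, hz]; simp)
    rw [this, Gs z hz, Fs z hz]; simp
  set h : ℂ → ℂ := fun z => if ‖z‖ ≤ 1 then G z else a + (F (conj z)⁻¹)⁻¹ with hh
  have hin : ∀ z : ℂ, ‖z‖ ≤ 1 → h z = G z := fun z hz => if_pos hz
  have hout : ∀ z : ℂ, 1 ≤ ‖z‖ → h z = a + (F (conj z)⁻¹)⁻¹ := fun z hz => by
    rcases hz.lt_or_eq with h' | h'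
    · exact if_neg h'.not_ge
    · rw [hin z h'.ge, agree z h'.symm]
  have hcont : Continuous h :=
    continuous_if_le continuous_norm continuous_const (Gc.mono fun z hz => by simpa using hz)
      (continuousOn_const.add ((Fc.comp (continuous_conj.continuousOn.inv₀ fun z hz => by
        simpa using z0 z hz) jm).inv₀ Fj)) agree
  obtain ⟨M, hM⟩ := hb'.exists_norm_le
  have sep : ∀ z w : ℂ, ‖z‖ ≤ 1 → 1 < ‖w‖ → h z ≠ h w := by
    intro z w hz hw e
    rw [hin z hz, hout w hw.le] at e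
    have e1 : (G z - a)⁻¹ ∈ V := by rw [e, add_sub_cancel_left, inv_inv]; exact FV w hw
    rcases hz.lt_or_eq with h' | h'
    swap
    · exact connectedComponentIn_subset _ _ e1
        ((mJ _).2 ⟨z, mem_sphere_zero_iff_norm.2 h', (Gs z h').symm⟩)
    set T : Set ℂ := {u | ‖u - 0‖ ∈ Ioo 0 1} with hT
    have Tb : T ⊆ ball 0 1 := fun u hu => by simpa using hu.2
    have Tc : T ⊆ closedBall 0 1 := Tb.trans ball_subset_closedBall
    have Ta : ∀ u ∈ T, G u ≠ a := fun u hu e' => by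
      have := hu.1
      rw [Gi (Tc hu) m0 (e'.trans G0.symm)] at this
      simp at this
    have hz0 : z ≠ 0 := fun e' => Fj w hw.le (by
      rw [e', G0] at e
      exact inv_eq_zero.1 (left_eq_add.1 e))
    have zT : z ∈ T := ⟨by simpa using hz0, by simpa using h'⟩
    have sub : (fun u => (G u - a)⁻¹) '' T ⊆ V := by
      rw [hV, connectedComponentIn_eq e1]
      refine ((preconn_ann 0 isPreconnected_Ioo fun r hr => hr.1.le).image _
        (ci.comp (Gc.mono Tc) Ta)).subset_connectedComponentIn ⟨z, zT, rfl⟩ ?_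
      rintro _ ⟨u, hu, rfl⟩ hu'
      exact connectedComponentIn_subset _ _ (Gb.le ⟨u, Tb hu, rfl⟩) ((mJ _).1 hu')
    have M0 : 0 < |M| + 1 := by positivity
    obtain ⟨δ, hδ, hδG⟩ := Metric.continuousWithinAt_iff.1 (Gc 0 m0) _ (inv_pos.2 M0)
    set t := min (δ / 2) (1 / 2) with ht
    have t0 : 0 < t := lt_min (half_pos hδ) one_half_pos
    have nt : ‖(t : ℂ) - 0‖ = t := by simp [abs_of_pos t0]
    have tT : (t : ℂ) ∈ T := by
      rw [hT, mem_ofPred_eq, nt]; exact ⟨t0, (min_le_right _ _).trans_lt one_half_lt_one⟩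
    have a1 := hδG (Tc tT) (by
      rw [dist_eq_norm, nt]; exact (min_le_left _ _).trans_lt (half_lt_self hδ))
    have a2 := hM _ (sub ⟨_, tT, rfl⟩)
    rw [dist_eq_norm, G0, lt_inv_comm₀ (norm_pos_iff.2 (sub_ne_zero.2 (Ta _ tT))) M0] at a1
    rw [norm_inv] at a2
    linarith [le_abs_self M]
  have hinj : Function.Injective h := by
    intro z w e
    rcases le_or_gt ‖z‖ 1 with hz | hz <;> rcases le_or_gt ‖w‖ 1 with hw | hw
    · rw [hin z hz, hin w hw] at e
      exact Gi (by simpa using hz) (by simpa using hw) e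
    · exact absurd e (sep z w hz hw)
    · exact absurd e.symm (sep w z hw hz)
    · rw [hout z hz.le, hout w hw.le, add_right_inj, inv_inj] at e
      exact (starRingEnd ℂ).injective (inv_inj.1 (Fi (jm z hz.le) (jm w hw.le) e))
  have hprop : ∀ R : ℝ, ∃ R' : ℝ, ∀ x, R' ≤ ‖x‖ → R ≤ ‖h x‖ := by
    intro R
    have M0 : 0 < |R| + ‖a‖ + 1 := by positivity
    obtain ⟨δ, hδ, hδF⟩ := Metric.continuousWithinAt_iff.1 (Fc 0 m0) _ (inv_pos.2 M0)
    refine ⟨max 1 (δ⁻¹ + 1), fun x hx => ?_⟩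
    have x1 : 1 ≤ ‖x‖ := (le_max_left _ _).trans hx
    have x2 : δ⁻¹ < ‖x‖ := by linarith [(le_max_right _ _).trans hx]
    have a1 := hδF (jm x x1) (by
      rw [dist_zero_right, nj]; exact (inv_lt_comm₀ (by linarith) hδ).2 x2)
    rw [F0, dist_zero_right, lt_inv_comm₀ (norm_pos_iff.2 (Fj x x1)) M0, ← norm_inv] at a1
    have a2 := norm_sub_le (h x) a
    rw [hout x x1, add_sub_cancel_left, ← hout x x1] at a2
    linarith [le_abs_self R]
  have GJ : G '' sphere 0 1 = J := image_congr fun z hz => Gs z (mem_sphere_zero_iff_norm.1 hz)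
  have hsurj : Function.Surjective h := by
    intro c
    by_contra hn
    push Not at hn
    obtain ⟨l, lc, le⟩ := exists_lift convex_univ isOpen_univ univ_nonempty
      (g := fun z => h z - c) (by fun_prop) fun z _ => sub_ne_zero.2 (hn z)
    have hout' : Out J c := by
      refine (h4 J c Jc).1 ⟨fun w => l (Function.invFunOn γ (sphere 0 1) w),
        lc.comp (E.cont_inv (isCompact_sphere 0 1) hc hi) (mapsTo_univ _ _), ?_⟩
      rintro _ ⟨z, hz, rfl⟩
      have nz := mem_sphere_zero_iff_norm.1 hz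
      simp only [hi.leftInvOn_invFunOn hz]
      rw [le z (mem_univ z), hin z nz.le, Gs z nz]
    have cJ : c ∉ J := by
      rintro ⟨z, hz, e⟩
      have nz := mem_sphere_zero_iff_norm.1 hz
      exact hn z (by rw [hin z nz.le, Gs z nz, e])
    have Ea : connectedComponentIn Jᶜ c ⊆ {a}ᶜ := fun w hw e =>
      hout' (by rw [connectedComponentIn_eq hw, e]; exact hb)
    obtain ⟨ρ, hρ, hρV⟩ := Metric.isOpen_iff.1
      (Jc'.isClosed.isOpen_compl.connectedComponentIn (x := 0)) 0 (mem_connectedComponentIn ha')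
    obtain ⟨w, hw, dw⟩ : ∃ w ∈ connectedComponentIn Jᶜ c, ρ⁻¹ < ‖w - a‖ := by
      by_contra hcon
      push Not at hcon
      exact hout' ((isBounded_closedBall (x := a) (r := ρ⁻¹)).subset fun w hw => by
        rw [mem_closedBall, dist_eq_norm]; exact hcon w hw)
    have e1 : (w - a)⁻¹ ∈ V := hρV (by
      rw [mem_ball_zero_iff, norm_inv]
      exact (inv_lt_comm₀ ((inv_pos.2 hρ).trans dw) hρ).2 dw)
    have e2 : (c - a)⁻¹ ∈ V := by
      rw [hV, connectedComponentIn_eq e1]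
      refine (isPreconnected_connectedComponentIn.image _ (ci.mono Ea)).subset_connectedComponentIn
        ⟨w, hw, rfl⟩ ?_ ⟨c, mem_connectedComponentIn cJ, rfl⟩
      rintro _ ⟨u, hu, rfl⟩ hu'
      exact connectedComponentIn_subset _ _ hu ((mJ _).1 hu')
    obtain ⟨u, hu, e3⟩ := Fb.ge e2
    have u0 : u ≠ 0 := fun e => Ea (mem_connectedComponentIn cJ) (by
      rw [e, F0] at e3
      exact sub_eq_zero.1 (inv_eq_zero.1 e3.symm))
    refine hn (conj u)⁻¹ ?_
    rw [hout _ (by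
      rw [nj]; exact (one_le_inv₀ (norm_pos_iff.2 u0)).2 (mem_ball_zero_iff.1 hu).le)]
    simp [e3]
  obtain ⟨Φ, hΦ⟩ := exists_of_proper hcont ⟨hinj, hsurj⟩ hprop
  exact ⟨Φ, fun z hz => by rw [hΦ, hin z hz.le, Gs z hz]⟩

end

end Pool.Agent.Lib.MP_d32f96_gt
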