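import Pool.Agent.Lib.MP_d32f96_gt.Frame

/-! Crosscuts of a convex set and proper lines, from the Schoenflies theorem. -/

namespace Pool.Agent.Lib.MP_d32f96_gt

open Set Filter Topology Metric Complex Bornology
open Pool.Agent.Lib.MP_1e9af3_an Pool.Agent.Lib.MP_069d55_gt

noncomputable section

namespace F1

/-- upper half circle -/
def up (t : ℝ) : ℂ := ⟨2 * t - 1, √(1 - (2 * t - 1) ^ 2)⟩

/-- lower half circle -/
def dn (t : ℝ) : ℂ := ⟨2 * t - 1, -√(1 - (2 * t - 1) ^ 2)⟩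

lemma sq_le {t : ℝ} (ht : t ∈ Icc (0 : ℝ) 1) : 0 ≤ 1 - (2 * t - 1) ^ 2 := by
  nlinarith [ht.1, ht.2]

lemma norm_up {t : ℝ} (ht : t ∈ Icc (0 : ℝ) 1) : ‖up t‖ = 1 := by
  have h : ‖up t‖ ^ 2 = 1 := by
    rw [Complex.sq_norm, normSq_apply]
    simp only [up]
    nlinarith [Real.mul_self_sqrt (sq_le ht)]
  nlinarith [norm_nonneg (up t)]

lemma norm_dn {t : ℝ} (ht : t ∈ Icc (0 : ℝ) 1) : ‖dn t‖ = 1 := by
  have h : ‖dn t‖ ^ 2 = 1 := by
    rw [Complex.sq_norm, normSq_apply]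
    simp only [dn]
    nlinarith [Real.mul_self_sqrt (sq_le ht)]
  nlinarith [norm_nonneg (dn t)]

lemma par_mem {z : ℂ} (hz : ‖z‖ = 1) : (1 + z.re) / 2 ∈ Icc (0 : ℝ) 1 := by
  have := abs_le.1 ((abs_re_le_norm z).trans hz.le)
  constructor <;> linarith [this.1, this.2]

lemma sqrt_par {z : ℂ} (hz : ‖z‖ = 1) :
    √(1 - (2 * ((1 + z.re) / 2) - 1) ^ 2) = |z.im| := by
  have h : z.re * z.re + z.im * z.im = 1 := by
    rw [← normSq_apply, ← Complex.sq_norm, hz]; norm_num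
  rw [← Real.sqrt_sq_eq_abs]; congr 1; nlinarith

lemma eq_up {z : ℂ} (hz : ‖z‖ = 1) (h : 0 ≤ z.im) : z = up ((1 + z.re) / 2) := by
  apply Complex.ext
  · simp only [up]; ring
  · simp only [up]; rw [sqrt_par hz, abs_of_nonneg h]

lemma eq_dn {z : ℂ} (hz : ‖z‖ = 1) (h : z.im ≤ 0) : z = dn ((1 + z.re) / 2) := by
  apply Complex.ext
  · simp only [dn]; ring
  · simp only [dn]; rw [sqrt_par hz, abs_of_nonpos h, neg_neg]

lemma up_or_dn {z : ℂ} (hz : ‖z‖ = 1) : ∃ t ∈ Icc (0 : ℝ) 1, z = up t ∨ z = dn t :=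
  ⟨_, par_mem hz, (le_total 0 z.im).imp (eq_up hz) (eq_dn hz)⟩

lemma end_of_im {z : ℂ} (hz : ‖z‖ = 1) (h : z.im = 0) :
    (1 + z.re) / 2 = 0 ∨ (1 + z.re) / 2 = 1 := by
  have h1 : z.re * z.re + z.im * z.im = 1 := by
    rw [← normSq_apply, ← Complex.sq_norm, hz]; norm_num
  rw [h] at h1
  rcases mul_self_eq_one_iff.1 (show z.re * z.re = 1 by linarith) with h2 | h2
  · right; rw [h2]; norm_num
  · left; rw [h2]; norm_num

/-- two arcs with the same ends bound a disc -/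
lemma two_arcs (hSP : S_SP) {P Q : ℝ → ℂ} (hP : Arc P) (hQ : Arc Q) (h0 : P 0 = Q 0)
    (h1 : P 1 = Q 1)
    (hd : ∀ t ∈ Icc (0 : ℝ) 1, ∀ u ∈ Icc (0 : ℝ) 1, P t = Q u → t = 0 ∨ t = 1) :
    ∃ h : H, ∀ t ∈ Icc (0 : ℝ) 1, h (up t) = P t ∧ h (dn t) = Q t := by
  classical
  set γ : ℂ → ℂ := fun z => if 0 ≤ z.im then P ((1 + z.re) / 2) else Q ((1 + z.re) / 2) with hγ
  have hPQ : ∀ z : ℂ, ‖z‖ = 1 → z.im = 0 → P ((1 + z.re) / 2) = Q ((1 + z.re) / 2) := by
    intro z hz hi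
    rcases end_of_im hz hi with h | h <;> rw [h]
    · exact h0
    · exact h1
  have gu : ∀ z : ℂ, 0 ≤ z.im → γ z = P ((1 + z.re) / 2) := fun z hi => if_pos hi
  have gd : ∀ z : ℂ, ‖z‖ = 1 → z.im ≤ 0 → γ z = Q ((1 + z.re) / 2) := fun z hz hi => by
    by_cases h : 0 ≤ z.im
    · rw [gu z h, hPQ z hz (le_antisymm hi h)]
    · exact if_neg h
  have hc : ContinuousOn γ (sphere 0 1) := by
    have e : sphere (0 : ℂ) 1 = (sphere 0 1 ∩ {z | 0 ≤ z.im}) ∪ (sphere 0 1 ∩ {z | z.im ≤ 0}) := by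
      ext z
      simp only [mem_union, mem_inter_iff, mem_ofPred_eq]
      rcases le_total 0 z.im with h | h <;> tauto
    rw [e]
    refine ContinuousOn.union_of_isClosed ?_ ?_
      (isClosed_sphere.inter (isClosed_le continuous_const continuous_im))
      (isClosed_sphere.inter (isClosed_le continuous_im continuous_const))
    · exact ((hP.1.comp (by fun_prop)).continuousOn).congr fun z hz => gu z hz.2
    · exact ((hQ.1.comp (by fun_prop)).continuousOn).congr fun z hz =>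
        gd z (mem_sphere_zero_iff_norm.1 hz.1) hz.2
  have mixed : ∀ z w : ℂ, ‖z‖ = 1 → ‖w‖ = 1 → 0 ≤ z.im → w.im ≤ 0 → γ z = γ w → z = w := by
    intro z w hz hw hi hj h
    rw [gu z hi, gd w hw hj] at h
    have key : (1 + w.re) / 2 = (1 + z.re) / 2 := by
      rcases hd _ (par_mem hz) _ (par_mem hw) h with e | e
      · rw [e, h0] at h
        rw [e]; exact (hQ.2 (by simp) (par_mem hw) h).symm
      · rw [e, h1] at h
        rw [e]; exact (hQ.2 (by simp) (par_mem hw) h).symm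
    have e1 : up ((1 + z.re) / 2) = dn ((1 + z.re) / 2) := by
      rcases hd _ (par_mem hz) _ (par_mem hw) h with e | e <;> rw [e] <;> norm_num [up, dn]
    rw [eq_up hz hi, e1, ← key, ← eq_dn hw hj]
  have hi : InjOn γ (sphere 0 1) := by
    intro z hz w hw h
    rw [mem_sphere_zero_iff_norm] at hz hw
    rcases le_total 0 z.im with a | a <;> rcases le_total 0 w.im with b | b
    · rw [gu z a, gu w b] at h
      rw [eq_up hz a, eq_up hw b, hP.2 (par_mem hz) (par_mem hw) h]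
    · exact mixed z w hz hw a b h
    · exact (mixed w z hw hz b a h.symm).symm
    · rw [gd z hz a, gd w hw b] at h
      rw [eq_dn hz a, eq_dn hw b, hQ.2 (par_mem hz) (par_mem hw) h]
  obtain ⟨h, hh⟩ := hSP γ hc hi
  refine ⟨h, fun t ht => ⟨?_, ?_⟩⟩
  · rw [hh _ (norm_up ht), gu _ (Real.sqrt_nonneg _)]
    congr 1; simp only [up]; ring
  · rw [hh _ (norm_dn ht), gd _ (norm_dn ht) (neg_nonpos.2 (Real.sqrt_nonneg _))]
    congr 1; simp only [dn]; ring

lemma HasLog.mono' {g : ℂ → ℂ} {A B : Set ℂ} (h : HasLog g B) (hAB : A ⊆ B) : HasLog g A := by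
  obtain ⟨L, hL, e⟩ := h
  exact ⟨L, hL.mono hAB, fun z hz => e z (hAB hz)⟩

lemma glue {g : ℂ → ℂ} {A B : Set ℂ} (hA : IsClosed A) (hB : IsClosed B)
    (hc : IsPreconnected (A ∩ B)) (hn : (A ∩ B).Nonempty) (h1 : HasLog g A) (h2 : HasLog g B) :
    HasLog g (A ∪ B) := by
  classical
  obtain ⟨L, hL, e⟩ := h1
  obtain ⟨M, hM, f⟩ := h2
  obtain ⟨x, hx⟩ := hn
  have hint : ∀ z ∈ A ∩ B, ∃ n : ℤ, L z - M z = n := fun z hz => by
    obtain ⟨n, hn⟩ := ee_eq_iff.1 ((e z hz.1).trans (f z hz.2).symm)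
    exact ⟨n, by rw [hn]; ring⟩
  obtain ⟨n, hn⟩ := hint x hx
  have hk : ∀ z ∈ A ∩ B, L z = M z + n := fun z hz => by
    have := int_const hc ((hL.mono inter_subset_left).sub (hM.mono inter_subset_right)) hint hz hx
    simp only [Pi.sub_apply] at this
    rw [← hn, ← this]; ring
  refine ⟨fun z => if z ∈ A then L z else M z + n, ?_, fun z hz => ?_⟩
  · refine ContinuousOn.union_of_isClosed (hL.congr fun z hz => if_pos hz)
      ((hM.add (continuousOn_const (c := (n : ℂ)))).congr fun z hz => ?_) hA hB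
    by_cases h : z ∈ A
    · simp only [if_pos h]; exact hk z ⟨h, hz⟩
    · simp only [if_neg h]; rfl
  · by_cases h : z ∈ A
    · simp only [if_pos h]; exact e z h
    · simp only [if_neg h]; rw [ee_add_int]; exact f z (hz.resolve_left h)

lemma compl_cb : (closedBall (0 : ℂ) 1)ᶜ = {z | 1 < ‖z‖} := by ext z; simp

lemma out_sphere (h : H) {w : ℂ} (hw : w ∉ h '' closedBall 0 1) : Out (h '' sphere 0 1) w := by
  intro hb
  have hs : h '' (closedBall 0 1)ᶜ ⊆ connectedComponentIn (h '' sphere 0 1)ᶜ w := by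
    refine ((compl_cb ▸ preconn_out' 1).image h h.continuous.continuousOn).subset_connectedComponentIn
      (mem_image_h.2 fun h' => hw (mem_image_h.2 h')) fun z hz hz' => ?_
    exact mem_image_h.1 hz (sphere_subset_closedBall (mem_image_h.1 hz'))
  exact not_bdd_out 1 (compl_cb ▸ (isBounded_image_iff h).1 (hb.subset hs))

lemma ball_subset (h : H) (hs : h '' sphere 0 1 ⊆ closedBall 0 1) :
    h '' ball 0 1 ⊆ ball 0 1 := by
  rw [← interior_closedBall (0 : ℂ) one_ne_zero]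
  conv_lhs => rw [interior_closedBall (0 : ℂ) one_ne_zero]
  refine interior_maximal (fun w hw => ?_) (h.isOpenMap _ isOpen_ball)
  by_contra hn
  have := subset_image_ball h (c := 0) (r := 1) (A := (closedBall 0 1)ᶜ)
    (compl_cb ▸ preconn_out' 1) (fun z hz hz' => hz (hs hz')) ⟨w, hn, hw⟩
  exact not_bdd_out 1 (compl_cb ▸ (isBounded_image h isBounded_ball).subset this)

lemma not_out_ball {w : ℂ} (hw : w ∈ ball (0 : ℂ) 1) : ¬ Out (sphere 0 1) w := fun h => by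
  refine h (isBounded_ball (x := (0 : ℂ)) (r := 1)|>.subset ?_)
  have := subset_image_ball (1 : H) (c := 0) (r := 1)
    (A := connectedComponentIn (sphere (0 : ℂ) 1)ᶜ w) isPreconnected_connectedComponentIn
    (fun z hz hz' => connectedComponentIn_subset _ _ hz (by rwa [image_hone] at hz'))
    ⟨w, mem_connectedComponentIn fun h' => (ne_of_lt (mem_ball.1 hw)) h', by rwa [image_hone]⟩
  rwa [image_hone] at this

/-- two arcs that form the unit circle -/
def Two (A B : ℝ → ℂ) : Prop :=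
  Arc A ∧ Arc B ∧ A 0 = B 0 ∧ A 1 = B 1 ∧ (∀ t, ‖A t‖ = 1 ∧ ‖B t‖ = 1) ∧
    (∀ z : ℂ, ‖z‖ = 1 → ∃ t ∈ Icc (0 : ℝ) 1, z = A t ∨ z = B t) ∧
    ∀ t ∈ Icc (0 : ℝ) 1, ∀ u ∈ Icc (0 : ℝ) 1, A t = B u → t = 0 ∨ t = 1

lemma exists_two {a b : ℂ} (ha : ‖a‖ = 1) (hb : ‖b‖ = 1) (hab : a ≠ b) :
    ∃ A B, Two A B ∧ A 0 = a ∧ A 1 = b := by
  have pol : ∀ z : ℂ, ‖z‖ = 1 → z = ee (targ z) := fun z hz => by
    have := polar (z := z) (by rintro rfl; simp at hz)
    rwa [hz, ofReal_one, one_mul] at this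
  have fr : ∀ s x : ℝ, ee (x : ℂ) = ee ((s + Int.fract (x - s) : ℝ) : ℂ) := fun s x =>
    ee_eq_iff.2 ⟨⌊x - s⌋, by
      have : x = s + Int.fract (x - s) + ⌊x - s⌋ := by rw [Int.fract]; ring
      exact_mod_cast this⟩
  have inj : ∀ x y : ℝ, ee (x : ℂ) = ee (y : ℂ) → ∃ n : ℤ, x = y + n := fun x y h => by
    obtain ⟨n, hn⟩ := ee_eq_iff.1 h
    exact ⟨n, by exact_mod_cast hn⟩
  set s := targ a with hs
  set d := Int.fract (targ b - s) with hd
  have d1 : d < 1 := Int.fract_lt_one _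
  have hb' : b = ee ((s + d : ℝ) : ℂ) := (pol b hb).trans (fr s _)
  have d0 : 0 < d := by
    refine lt_of_le_of_ne (Int.fract_nonneg _) fun h => hab ?_
    rw [hb', ← h, add_zero]; exact pol a ha
  have small : ∀ n : ℤ, -1 < (n : ℝ) → (n : ℝ) < 1 → (n : ℝ) = 0 := fun n h1 h2 => by
    have a1 : -1 < n := by exact_mod_cast h1
    have a2 : n < 1 := by exact_mod_cast h2
    have : n = 0 := by omega
    simp [this]
  refine ⟨fun t => ee ((s + t * d : ℝ) : ℂ), fun t => ee ((s - t * (1 - d) : ℝ) : ℂ),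
    ⟨⟨by fun_prop, fun t ht u hu h => ?_⟩, ⟨by fun_prop, fun t ht u hu h => ?_⟩, by simp, ?_,
      fun t => ⟨norm_ee_real _, norm_ee_real _⟩, fun z hz => ?_, fun t ht u hu h => ?_⟩,
    by simpa using (pol a ha).symm, by simpa using hb'.symm⟩
  · obtain ⟨n, hn⟩ := inj _ _ h
    have := small n (by nlinarith [ht.1, hu.2]) (by nlinarith [ht.2, hu.1])
    exact mul_right_cancel₀ d0.ne' (by linarith)
  · obtain ⟨n, hn⟩ := inj _ _ h
    have := small n (by nlinarith [ht.2, hu.1]) (by nlinarith [ht.1, hu.2])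
    exact mul_right_cancel₀ (sub_pos.2 d1).ne' (by linarith)
  · exact ee_eq_iff.2 ⟨1, by push_cast; ring⟩
  · have hz' := (pol z hz).trans (fr s _)
    set x := Int.fract (targ z - s) with hx
    have x0 : 0 ≤ x := Int.fract_nonneg _
    have x1 : x < 1 := Int.fract_lt_one _
    rcases le_total x d with h | h
    · refine ⟨x / d, ⟨by positivity, (div_le_one d0).2 h⟩, Or.inl ?_⟩
      rw [hz']; simp only []; rw [div_mul_cancel₀ _ d0.ne']
    · refine ⟨(1 - x) / (1 - d), ⟨div_nonneg (by linarith) (by linarith),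
        (div_le_one (by linarith)).2 (by linarith)⟩, Or.inr ?_⟩
      rw [hz']; simp only []; rw [div_mul_cancel₀ _ (sub_pos.2 d1).ne']
      exact ee_eq_iff.2 ⟨1, by push_cast; ring⟩
  · obtain ⟨n, hn⟩ := inj _ _ h
    have e : t * d + u * (1 - d) = n := by linarith
    have n0 : 0 ≤ (n : ℝ) := by nlinarith [ht.1, hu.1]
    have n1 : (n : ℝ) ≤ 1 := by nlinarith [ht.2, hu.2]
    have a0 : 0 ≤ n := by exact_mod_cast n0
    have a1 : n ≤ 1 := by exact_mod_cast n1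
    rcases (show n = 0 ∨ n = 1 by omega) with r | r
    · left; rw [r] at e; push_cast at e; nlinarith [ht.1, hu.1]
    · right; rw [r] at e; push_cast at e; nlinarith [ht.2, hu.2]

/-- a crosscut of the unit disc -/
def Cut (α A : ℝ → ℂ) : Prop :=
  Arc α ∧ α 0 = A 0 ∧ α 1 = A 1 ∧ ∀ t ∈ Ioo (0 : ℝ) 1, ‖α t‖ < 1

/-- the two discs cut out by a crosscut -/
def Th (α A B : ℝ → ℂ) (h g : H) : Prop :=
  (∀ t ∈ Icc (0 : ℝ) 1, h (up t) = α t ∧ g (up t) = α t ∧ h (dn t) = A t ∧ g (dn t) = B t) ∧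
    h '' ball 0 1 ⊆ ball 0 1 ∧ g '' ball 0 1 ⊆ ball 0 1 ∧
    ball 0 1 ⊆ h '' closedBall 0 1 ∪ g '' closedBall 0 1 ∧
    h '' closedBall 0 1 ∩ g '' closedBall 0 1 ⊆ α '' Icc 0 1

lemma end_of_norm {α : ℝ → ℂ} (h : ∀ t ∈ Ioo (0 : ℝ) 1, ‖α t‖ < 1) {t : ℝ}
    (ht : t ∈ Icc (0 : ℝ) 1) (h1 : 1 ≤ ‖α t‖) : t = 0 ∨ t = 1 := by
  by_contra hn
  push Not at hn
  exact (h t ⟨lt_of_le_of_ne ht.1 hn.1.symm, lt_of_le_of_ne ht.2 hn.2⟩).not_ge h1

lemma image_sphere {h : H} {α A : ℝ → ℂ}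
    (e : ∀ t ∈ Icc (0 : ℝ) 1, h (up t) = α t ∧ h (dn t) = A t) :
    h '' sphere 0 1 = α '' Icc 0 1 ∪ A '' Icc 0 1 := by
  apply Subset.antisymm
  · rintro _ ⟨z, hz, rfl⟩
    obtain ⟨t, ht, r | r⟩ := up_or_dn (mem_sphere_zero_iff_norm.1 hz)
    · exact Or.inl ⟨t, ht, by rw [r, (e t ht).1]⟩
    · exact Or.inr ⟨t, ht, by rw [r, (e t ht).2]⟩
  · rintro _ (⟨t, ht, rfl⟩ | ⟨t, ht, rfl⟩)
    · exact ⟨_, mem_sphere_zero_iff_norm.2 (norm_up ht), (e t ht).1⟩
    · exact ⟨_, mem_sphere_zero_iff_norm.2 (norm_dn ht), (e t ht).2⟩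

lemma not_ball_sphere (h : H) {w : ℂ} (h1 : w ∈ h '' ball 0 1) (h2 : w ∈ h '' sphere 0 1) :
    False := (ne_of_lt (mem_ball.1 (mem_image_h.1 h1))) (mem_image_h.1 h2)

lemma theta (hSP : S_SP) (hlog : S_logOut) {α A B : ℝ → ℂ} (hT : Two A B) (hα : Cut α A) :
    ∃ h g : H, Th α A B h g := by
  obtain ⟨hA, hB, e0, e1, hn, hcov, hAB⟩ := hT
  obtain ⟨ha, a0, a1, hin⟩ := hα
  obtain ⟨h, hh⟩ := two_arcs hSP ha hA a0 a1 fun t ht u _ e =>
    end_of_norm hin ht (by rw [e, (hn u).1])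
  obtain ⟨g, hg⟩ := two_arcs hSP ha hB (a0.trans e0) (a1.trans e1) fun t ht u _ e =>
    end_of_norm hin ht (by rw [e, (hn u).2])
  have sh := image_sphere hh
  have sg := image_sphere hg
  have hle : ∀ t ∈ Icc (0 : ℝ) 1, ‖α t‖ ≤ 1 := fun t ht => by
    by_contra hc
    rcases end_of_norm hin ht (not_le.1 hc).le with r | r
    · rw [r, a0, (hn 0).1] at hc; exact hc le_rfl
    · rw [r, a1, (hn 1).1] at hc; exact hc le_rfl
  have bh : h '' ball 0 1 ⊆ ball 0 1 := ball_subset h (by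
    rw [sh]
    rintro _ (⟨t, ht, rfl⟩ | ⟨t, ht, rfl⟩)
    · exact mem_closedBall_zero_iff.2 (hle t ht)
    · exact mem_closedBall_zero_iff.2 (hn t).1.le)
  have bg : g '' ball 0 1 ⊆ ball 0 1 := ball_subset g (by
    rw [sg]
    rintro _ (⟨t, ht, rfl⟩ | ⟨t, ht, rfl⟩)
    · exact mem_closedBall_zero_iff.2 (hle t ht)
    · exact mem_closedBall_zero_iff.2 (hn t).2.le)
  have hJ : h '' sphere 0 1 ∩ g '' sphere 0 1 = α '' Icc 0 1 := by
    rw [sh, sg]
    apply Subset.antisymm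
    · rintro w ⟨h1 | ⟨t, ht, rfl⟩, h2⟩
      · exact h1
      · rcases h2 with h2 | ⟨u, hu, e⟩
        · exact h2
        · rcases hAB t ht u hu e.symm with r | r
          · exact ⟨0, by simp, by rw [r, a0]⟩
          · exact ⟨1, by simp, by rw [r, a1]⟩
    · exact fun w hw => ⟨Or.inl hw, Or.inl hw⟩
  have m1 : ∀ w ∈ h '' ball 0 1, w ∉ g '' sphere 0 1 := fun w hw hw' => by
    rw [sg] at hw'
    rcases hw' with h2 | ⟨u, _, e⟩
    · exact not_ball_sphere h hw (sh ▸ Or.inl h2)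
    · have := mem_ball_zero_iff.1 (bh hw)
      rw [← e, (hn u).2] at this; exact lt_irrefl _ this
  have m2 : ∀ w ∈ g '' ball 0 1, w ∉ h '' sphere 0 1 := fun w hw hw' => by
    rw [sh] at hw'
    rcases hw' with h2 | ⟨u, _, e⟩
    · exact not_ball_sphere g hw (sg ▸ Or.inl h2)
    · have := mem_ball_zero_iff.1 (bg hw)
      rw [← e, (hn u).1] at this; exact lt_irrefl _ this
  have m3 : ∀ w ∈ h '' ball 0 1, w ∉ g '' ball 0 1 := fun w hw hw' => by
    have s1 := subset_image_ball g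
      ((convex_ball (0 : ℂ) 1).isPreconnected.image h h.continuous.continuousOn) m1 ⟨w, hw, hw'⟩
    have s2 : h '' closedBall 0 1 ⊆ g '' closedBall 0 1 := by
      rw [← closure_ball (0 : ℂ) one_ne_zero, h.image_closure, g.image_closure]
      exact closure_mono s1
    have hm : (1 / 2 : ℝ) ∈ Icc (0 : ℝ) 1 := by norm_num
    have s3 : A (1 / 2) ∈ h '' sphere 0 1 := sh ▸ Or.inr ⟨_, hm, rfl⟩
    have s4 := s2 (image_mono sphere_subset_closedBall s3)
    rw [← ball_union_sphere, image_union] at s4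
    rcases s4 with s4 | s4
    · exact m2 _ s4 s3
    · obtain ⟨t, ht, e⟩ := hJ.subset ⟨s3, s4⟩
      rcases end_of_norm hin ht (by rw [e, (hn _).1]) with r | r
      · rw [r, a0] at e
        have := hA.2 (by simp) hm e
        norm_num at this
      · rw [r, a1] at e
        have := hA.2 (by simp) hm e
        norm_num at this
  refine ⟨h, g, fun t ht => ⟨(hh t ht).1, (hg t ht).1, (hh t ht).2, (hg t ht).2⟩, bh, bg,
    fun w hw => ?_, fun w hw => ?_⟩
  · by_contra hc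
    have ch := (isCompact_sphere (0 : ℂ) 1).image h.continuous
    have cg := (isCompact_sphere (0 : ℂ) 1).image g.continuous
    have l1 := (hlog _ w ch).2 (out_sphere h fun h' => hc (Or.inl h'))
    have l2 := (hlog _ w cg).2 (out_sphere g fun h' => hc (Or.inr h'))
    have l3 := glue ch.isClosed cg.isClosed
      (hJ ▸ isPreconnected_Icc.image α ha.1.continuousOn) (hJ ▸ ⟨α 0, 0, by simp, rfl⟩) l1 l2
    refine not_out_ball hw ((hlog _ w (isCompact_sphere 0 1)).1 (HasLog.mono' l3 fun z hz => ?_))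
    obtain ⟨t, ht, r | r⟩ := hcov z (mem_sphere_zero_iff_norm.1 hz)
    · exact Or.inl (sh ▸ Or.inr ⟨t, ht, r.symm⟩)
    · exact Or.inr (sg ▸ Or.inr ⟨t, ht, r.symm⟩)
  · rw [← ball_union_sphere, image_union, image_union] at hw
    rcases hw with ⟨w1 | w1, w2 | w2⟩
    · exact (m3 w w1 w2).elim
    · exact (m1 w w1 w2).elim
    · exact (m2 w w2 w1).elim
    · exact hJ ▸ ⟨w1, w2⟩

/-- the map between two cut discs -/
lemma exists_map {α β A B : ℝ → ℂ} {h g h' g' : H} (hα : Cut α A) (hβ : Cut β A)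
    (T : Th α A B h g) (T' : Th β A B h' g') : ∃ φ : ℂ → ℂ, Continuous φ ∧
      (∀ z ∈ closedBall (0 : ℂ) 1, φ (h' z) = h z ∧ φ (g' z) = g z) ∧
      ∀ w, w ∉ ball (0 : ℂ) 1 → φ w = w := by
  classical
  set φ : ℂ → ℂ := fun w => if w ∈ h' '' closedBall 0 1 then h (h'⁻¹ w) else
    if w ∈ g' '' closedBall 0 1 then g (g'⁻¹ w) else w with hφ
  have p1 : ∀ z ∈ closedBall (0 : ℂ) 1, φ (h' z) = h z := fun z hz => by
    simp only [hφ]; rw [if_pos ⟨z, hz, rfl⟩, hinv_apply]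
  have p2 : ∀ z ∈ closedBall (0 : ℂ) 1, φ (g' z) = g z := fun z hz => by
    by_cases hc : g' z ∈ h' '' closedBall 0 1
    · obtain ⟨t, ht, e⟩ := T'.2.2.2.2 ⟨hc, z, hz, rfl⟩
      have e1 : z = up t := g'.injective (by rw [← e, (T'.1 t ht).2.1])
      rw [← e, ← (T'.1 t ht).1, p1 _ (mem_closedBall_zero_iff.2 (norm_up ht).le), e1,
        (T.1 t ht).1, (T.1 t ht).2.1]
    · simp only [hφ]; rw [if_neg hc, if_pos ⟨z, hz, rfl⟩, hinv_apply]
  have ends : ∀ t ∈ Icc (0 : ℝ) 1, β t ∉ ball (0 : ℂ) 1 → α t = β t := fun t ht hb => by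
    rcases end_of_norm hβ.2.2.2 ht (not_lt.1 fun h => hb (mem_ball_zero_iff.2 h)) with r | r
    · rw [r, hα.2.1, hβ.2.1]
    · rw [r, hα.2.2.1, hβ.2.2.1]
  have p3 : ∀ w, w ∉ ball (0 : ℂ) 1 → φ w = w := fun w hw => by
    by_cases c1 : w ∈ h' '' closedBall 0 1
    · obtain ⟨z, hz, rfl⟩ := c1
      have hz1 : ‖z‖ = 1 := le_antisymm (mem_closedBall_zero_iff.1 hz)
        (not_lt.1 fun h => hw (T'.2.1 ⟨z, mem_ball_zero_iff.2 h, rfl⟩))
      rw [p1 z hz]
      obtain ⟨t, ht, rfl | rfl⟩ := up_or_dn hz1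
      · rw [(T'.1 t ht).1] at hw ⊢; rw [(T.1 t ht).1, ends t ht hw]
      · rw [(T'.1 t ht).2.2.1, (T.1 t ht).2.2.1]
    · by_cases c2 : w ∈ g' '' closedBall 0 1
      · obtain ⟨z, hz, rfl⟩ := c2
        have hz1 : ‖z‖ = 1 := le_antisymm (mem_closedBall_zero_iff.1 hz)
          (not_lt.1 fun h => hw (T'.2.2.1 ⟨z, mem_ball_zero_iff.2 h, rfl⟩))
        rw [p2 z hz]
        obtain ⟨t, ht, rfl | rfl⟩ := up_or_dn hz1
        · rw [(T'.1 t ht).2.1] at hw ⊢; rw [(T.1 t ht).2.1, ends t ht hw]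
        · rw [(T'.1 t ht).2.2.2, (T.1 t ht).2.2.2]
      · simp only [hφ]; rw [if_neg c1, if_neg c2]
  refine ⟨φ, ?_, fun z hz => ⟨p1 z hz, p2 z hz⟩, p3⟩
  have e : (univ : Set ℂ) = (h' '' closedBall 0 1 ∪ g' '' closedBall 0 1) ∪ (ball 0 1)ᶜ := by
    refine (eq_univ_of_forall fun w => ?_).symm
    by_cases hw : w ∈ ball (0 : ℂ) 1
    · exact Or.inl (T'.2.2.2.1 hw)
    · exact Or.inr hw
  have c1 := h'.isClosedMap _ (isClosed_closedBall (x := (0 : ℂ)) (ε := 1))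
  have c2 := g'.isClosedMap _ (isClosed_closedBall (x := (0 : ℂ)) (ε := 1))
  rw [← continuousOn_univ, e]
  refine ContinuousOn.union_of_isClosed (ContinuousOn.union_of_isClosed ?_ ?_ c1 c2)
    (continuousOn_id.congr p3) (c1.union c2) isOpen_ball.isClosed_compl
  · refine (h * h'⁻¹ : H).continuous.continuousOn.congr ?_
    rintro _ ⟨z, hz, rfl⟩
    rw [p1 z hz, hmul, hinv_apply]
  · refine (g * g'⁻¹ : H).continuous.continuousOn.congr ?_
    rintro _ ⟨z, hz, rfl⟩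
    rw [p2 z hz, hmul, hinv_apply]

lemma disc_case (hSP : S_SP) (hlog : S_logOut) {α β A B : ℝ → ℂ} (hT : Two A B) (hα : Cut α A)
    (hβ : Cut β A) : ∃ k : H, (∀ w, w ∉ ball (0 : ℂ) 1 → k w = w) ∧
      ∀ t ∈ Icc (0 : ℝ) 1, k (β t) = α t := by
  obtain ⟨h, g, T⟩ := theta hSP hlog hT hα
  obtain ⟨h', g', T'⟩ := theta hSP hlog hT hβ
  obtain ⟨φ, c, p, q⟩ := exists_map hα hβ T T'
  obtain ⟨ψ, c', p', q'⟩ := exists_map hβ hα T' T
  refine ⟨⟨⟨φ, ψ, fun w => ?_, fun w => ?_⟩, c, c'⟩, q, fun t ht => ?_⟩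
  · by_cases hw : w ∈ ball (0 : ℂ) 1
    · rcases T'.2.2.2.1 hw with ⟨z, hz, rfl⟩ | ⟨z, hz, rfl⟩
      · rw [(p z hz).1, (p' z hz).1]
      · rw [(p z hz).2, (p' z hz).2]
    · rw [q w hw, q' w hw]
  · by_cases hw : w ∈ ball (0 : ℂ) 1
    · rcases T.2.2.2.1 hw with ⟨z, hz, rfl⟩ | ⟨z, hz, rfl⟩
      · rw [(p' z hz).1, (p z hz).1]
      · rw [(p' z hz).2, (p z hz).2]
    · rw [q' w hw, q w hw]
  · show φ (β t) = α t
    rw [← (T'.1 t ht).1, (p _ (mem_closedBall_zero_iff.2 (norm_up ht).le)).1, (T.1 t ht).1]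

lemma line_proper {l : ℝ → ℂ} (h1 : Tendsto (fun t => ‖l t‖) atTop atTop)
    (h2 : Tendsto (fun t => ‖l t‖) atBot atTop) : Tendsto l (cocompact ℝ) (cobounded ℂ) := by
  rw [← tendsto_norm_atTop_iff_cobounded, cocompact_eq_atBot_atTop, tendsto_sup]
  exact ⟨h2, h1⟩

lemma exists_off {l : ℝ → ℂ} (hc : Continuous l) (hi : Function.Injective l)
    (hp : Tendsto l (cocompact ℝ) (cobounded ℂ)) : ∃ p, ∀ t, l t ≠ p := by
  by_contra hn
  push Not at hn
  have hcl : IsClosedMap l := (isProperMap_iff_tendsto_cocompact.2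
    ⟨hc, Metric.cobounded_eq_cocompact (α := ℂ) ▸ hp⟩).isClosedMap
  have hcon := (isConnected_compl_singleton_of_one_lt_rank rank_two (l 0)).isPreconnected
  obtain ⟨w, hw, ⟨s, hs, e1⟩, t, ht, e2⟩ := isPreconnected_closed_iff.1 hcon (l '' Iic 0)
    (l '' Ici 0) (hcl _ isClosed_Iic) (hcl _ isClosed_Ici)
    (fun w _ => by
      obtain ⟨t, rfl⟩ := hn w
      exact (le_total t 0).imp (fun h => ⟨t, h, rfl⟩) fun h => ⟨t, h, rfl⟩)
    ⟨l (-1), fun h => by simpa using hi h, -1, by simp, rfl⟩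
    ⟨l 1, fun h => by simpa using hi h, 1, by simp, rfl⟩
  have e3 : s = t := hi (e1.trans e2.symm)
  have e4 : s = 0 := le_antisymm hs (e3 ▸ ht)
  exact hw (by rw [← e1, e4]; rfl)

end F1

open F1 in
theorem sCS_of (h1 : S_SP) (h2 : S_logOut) : S_CS := by
  intro C α β hC hv ha hb e0 e1 f0 f1 hin
  obtain ⟨F, Fi, -, Ff⟩ := exists_homeomorph_image_interior_closure_frontier_eq_unitBall hv
    ⟨α (1 / 2), (hin _ (by norm_num)).1⟩ hC.isBounded
  have n0 : ‖F (α 0)‖ = 1 := mem_sphere_zero_iff_norm.1 (Ff ▸ ⟨_, f0, rfl⟩)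
  have n1 : ‖F (α 1)‖ = 1 := mem_sphere_zero_iff_norm.1 (Ff ▸ ⟨_, f1, rfl⟩)
  obtain ⟨A, B, hT, a0, a1⟩ := exists_two n0 n1 fun h => by
    have := ha.2 (by simp) (by simp) (F.injective h)
    norm_num at this
  have hα : Cut (fun t => F (α t)) A :=
    ⟨⟨F.continuous.comp ha.1, fun t ht u hu h => ha.2 ht hu (F.injective h)⟩, a0.symm, a1.symm,
      fun t ht => mem_ball_zero_iff.1 (Fi ▸ ⟨_, (hin t ht).1, rfl⟩)⟩
  have hβ : Cut (fun t => F (β t)) A :=
    ⟨⟨F.continuous.comp hb.1, fun t ht u hu h => hb.2 ht hu (F.injective h)⟩,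
      by rw [a0, e0], by rw [a1, e1],
      fun t ht => mem_ball_zero_iff.1 (Fi ▸ ⟨_, (hin t ht).2, rfl⟩)⟩
  obtain ⟨k, k1, k2⟩ := disc_case h1 h2 hT hα hβ
  refine ⟨F⁻¹ * k * F, fun z hz => ?_, fun t ht => ?_⟩
  · rw [hmul, hmul, k1 _ (by rwa [← Fi, apply_mem_image]), hinv_apply]
  · rw [hmul, hmul, k2 t ht, hinv_apply]

open F1 in
theorem sLine_of (h1 : S_SP) : S_Line := by
  classical
  intro l hc hi ht hb
  have hp := line_proper ht hb
  obtain ⟨p, hoff⟩ := exists_off hc hi hp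
  have hne : ∀ t, l t - p ≠ 0 := fun t => sub_ne_zero.2 (hoff t)
  set S : Set ℂ := {w | w = 0 ∨ (w⁻¹).im = -1} with hS
  set g : ℂ → ℂ := fun w => if w = 0 then 0 else (l (w⁻¹).re - p)⁻¹ with hg
  have g0 : g 0 = 0 := if_pos rfl
  have g1 : ∀ w, w ≠ 0 → g w = (l (w⁻¹).re - p)⁻¹ := fun w hw => if_neg hw
  have gc : ContinuousOn g S := fun w _ => by
    by_cases hw : w = 0
    · subst hw
      rw [← continuousWithinAt_sdiff_self, ContinuousWithinAt, g0]
      have t1 : Tendsto (fun w : ℂ => ‖w⁻¹‖) (𝓝[S \ {0}] 0) atTop :=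
        (tendsto_norm_atTop_iff_cobounded.2 tendsto_inv₀_nhdsNE_zero).mono_left
          (nhdsWithin_mono _ fun w hw => hw.2)
      have t2 : Tendsto (fun w : ℂ => (w⁻¹).re) (𝓝[S \ {0}] 0) (cocompact ℝ) := by
        rw [← Metric.cobounded_eq_cocompact, ← tendsto_norm_atTop_iff_cobounded]
        refine tendsto_atTop_mono' _ ?_ (tendsto_atTop_add_const_right _ (-1) t1)
        filter_upwards [self_mem_nhdsWithin] with w hw
        have := norm_le_abs_re_add_abs_im w⁻¹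
        rw [hw.1.resolve_left hw.2] at this
        simp only [abs_neg, abs_one] at this
        rw [Real.norm_eq_abs]; linarith
      have t3 : Tendsto (fun w : ℂ => l (w⁻¹).re - p) (𝓝[S \ {0}] 0) (cobounded ℂ) := by
        rw [← tendsto_norm_atTop_iff_cobounded]
        refine tendsto_atTop_mono (fun w => norm_sub_norm_le _ _) ?_
        exact tendsto_atTop_add_const_right _ (-‖p‖)
          (tendsto_norm_atTop_iff_cobounded.2 (hp.comp t2))
      refine (tendsto_inv₀_cobounded.comp t3).congr' ?_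
      filter_upwards [self_mem_nhdsWithin] with w hw using (g1 w hw.2).symm
    · have : ContinuousAt (fun w : ℂ => (l (w⁻¹).re - p)⁻¹) w :=
        ((hc.continuousAt.comp (continuous_re.continuousAt.comp (continuousAt_inv₀ hw))).sub
          continuousAt_const).inv₀ (hne _)
      refine (this.congr ?_).continuousWithinAt
      filter_upwards [isOpen_ne.mem_nhds hw] with v hv using (g1 v hv).symm
  have gi : InjOn g S := fun v hv w hw h => by
    by_cases a : v = 0 <;> by_cases b : w = 0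
    · rw [a, b]
    · rw [a, g0, g1 w b] at h; exact absurd h.symm (inv_ne_zero (hne _))
    · rw [b, g0, g1 v a] at h; exact absurd h (inv_ne_zero (hne _))
    · rw [g1 v a, g1 w b, inv_inj, sub_left_inj] at h
      exact inv_injective (Complex.ext (hi h)
        ((hv.resolve_left a).trans (hw.resolve_left b).symm))
  have hI : I / 2 ≠ 0 := div_ne_zero I_ne_zero two_ne_zero
  set A : H := mulH (I / 2) hI * Homeomorph.addLeft 1 with hA
  have Aa : ∀ z, A z = I / 2 * (1 + z) := fun z => rfl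
  have AS : MapsTo A (sphere 0 1) S := fun z hz => by
    by_cases h0 : A z = 0
    · exact Or.inl h0
    · right
      have h : z.re * z.re + z.im * z.im = 1 := by
        rw [← normSq_apply, ← Complex.sq_norm, mem_sphere_zero_iff_norm.1 hz]; norm_num
      have hn : normSq (A z) ≠ 0 := fun h => h0 (normSq_eq_zero.1 h)
      rw [inv_im, div_eq_iff hn, normSq_apply, Aa]
      simp
      nlinarith
  obtain ⟨h, hh⟩ := h1 (fun z => g (A z)) (gc.comp A.continuous.continuousOn AS)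
    fun z hz w hw e => A.injective (gi (AS hz) (AS hw) e)
  have F0 : (h * A⁻¹ : H) 0 = 0 := by
    have : A (-1) = 0 := by rw [Aa]; simp
    rw [hmul, hinv_eq this, hh _ (by simp), this, g0]
  obtain ⟨G, hG⟩ := exists_invc F0
  have key : ∀ t : ℝ, G (t - I) = l t - p := fun t => by
    have n1 : (t : ℂ) - I ≠ 0 := fun h => by simpa using congrArg im h
    have n2 : 1 + I * (t : ℂ) ≠ 0 := fun h => by simpa using congrArg re h
    have e1 : A ((1 - I * t) / (1 + I * t)) = ((t : ℂ) - I)⁻¹ := by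
      rw [Aa]; field_simp
      linear_combination (-2 : ℂ) * I_mul_I
    have e2 : ‖(1 - I * t) / (1 + I * (t : ℂ))‖ = 1 := by
      have : 1 - I * (t : ℂ) = (starRingEnd ℂ) (1 + I * t) := by simp [sub_eq_add_neg]
      rw [norm_div, this, norm_conj, div_self (norm_ne_zero_iff.2 n2)]
    rw [hG, hmul, hinv_eq e1, hh _ e2, e1, g1 _ (inv_ne_zero n1), inv_inv, inv_inv]
    simp
  set K : H := Homeomorph.addRight p * G * Homeomorph.addRight (-I) with hK
  have Kt : ∀ t : ℝ, K t = l t := fun t => by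
    show G (t + -I) + p = l t
    rw [← sub_eq_add_neg, key, sub_add_cancel]
  rcases deg_or K with d | d
  · exact ⟨K, d, Kt⟩
  · exact ⟨K * cnj, d, fun t => by rw [hmul, cnj_apply, conj_ofReal, Kt]⟩

end

end Pool.Agent.Lib.MP_d32f96_gt
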