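import Pool.Agent.Lib.MP_d32f96_gt.Frame

/-! Annulus move, lifts of circle maps, polar homeomorphisms. -/

namespace Pool.Agent.Lib.MP_d32f96_gt

open Set Filter Topology Metric Complex Bornology
open Pool.Agent.Lib.MP_1e9af3_an Pool.Agent.Lib.MP_069d55_gt

noncomputable section

namespace F2

lemma exists_margin (F : H) {a s : ℝ} (hs : 0 ≤ s) (h : ∀ z : ℂ, ‖z‖ = s → a < ‖F z‖) :
    ∃ a', a < a' ∧ ∀ z : ℂ, ‖z‖ = s → a' < ‖F z‖ := by
  obtain ⟨z₀, hz₀, hm⟩ := (isCompact_sphere (0 : ℂ) s).exists_isMinOn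
    (NormedSpace.sphere_nonempty.2 hs) (f := fun z => ‖F z‖) F.continuous.norm.continuousOn
  have h0 := h z₀ (mem_sphere_zero_iff_norm.1 hz₀)
  refine ⟨(a + ‖F z₀‖) / 2, by linarith, fun z hz => ?_⟩
  have : ‖F z₀‖ ≤ ‖F z‖ := hm (mem_sphere_zero_iff_norm.2 hz)
  linarith

/-- straightening near the origin without touching the outside -/
lemma inner {F : H} (hF : deg F = 1) (h0 : F 0 = 0) {a s : ℝ} (ha : 0 < a) (has : a < s)
    (h : ∀ z : ℂ, ‖z‖ = s → a < ‖F z‖) :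
    ∃ G : H, (∀ z, ‖z‖ ≤ a → G z = z) ∧ ∀ z, s ≤ ‖z‖ → G z = F z := by
  obtain ⟨a₁, h1, h2⟩ := exists_margin F (ha.trans has).le h
  set c := min a₁ s with hc
  have hac : a < c := lt_min h1 has
  have hc0 : 0 < c := ha.trans hac
  have hsub : ball (0 : ℂ) c ⊆ F '' ball 0 s := by
    refine subset_image_ball F (convex_ball 0 c).isPreconnected ?_
      ⟨0, mem_ball_self hc0, 0, mem_ball_self (ha.trans has), h0⟩
    rintro _ hz ⟨w, hw, rfl⟩
    have := h2 w (mem_sphere_zero_iff_norm.1 hw)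
    rw [mem_ball_zero_iff] at hz
    linarith [min_le_left a₁ s]
  have hout : ∀ z, s ≤ ‖z‖ → F z ∉ ball (0 : ℂ) c := fun z hz hm =>
    (mem_ball_zero_iff.1 (apply_mem_image.1 (hsub hm))).not_ge hz
  obtain ⟨k, hk, hkF⟩ := disc_loc hF h0 hc0
  obtain ⟨ε, hε, hb⟩ := Metric.eventually_nhds_iff_ball.1 hkF
  obtain ⟨σ, hσ, -, hσ2⟩ := exists_squeeze (R := a) hε hac hc0
  refine ⟨σ⁻¹ * (k⁻¹ * F) * σ, fun z hz => ?_, fun z hz => ?_⟩
  · rw [hmul, hmul, hmul, ← hb _ (mem_ball_zero_iff.2 (hσ2 z hz)), hinv_apply, hinv_apply]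
  · have hz' : z ∉ ball (0 : ℂ) c := fun hm =>
      (mem_ball_zero_iff.1 hm).not_ge ((min_le_right _ _).trans hz)
    rw [hmul, hmul, hmul, hσ.fix hz', hk.inv.fix (hout z hz), hσ.inv.fix (hout z hz)]

/-- straightening on both sides of the annulus -/
lemma both {F : H} (hF : deg F = 1) (h0 : F 0 = 0) {a s b : ℝ} (ha : 0 < a) (has : a < s)
    (hsb : s < b) (h : ∀ z : ℂ, ‖z‖ = s → a < ‖F z‖ ∧ ‖F z‖ < b) :
    ∃ k : H, (∀ z, ‖z‖ ≤ a ∨ b ≤ ‖z‖ → k z = z) ∧ ∀ z, ‖z‖ = s → k z = F z := by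
  have hs : 0 < s := ha.trans has
  have hb : 0 < b := hs.trans hsb
  obtain ⟨F', h1, h2⟩ := inner hF h0 ha has fun z hz => (h z hz).1
  have F0 : F' 0 = 0 := h1 0 (by simpa using ha.le)
  obtain ⟨G, hG⟩ := exists_invc F0
  have G0 : G 0 = 0 := by rw [hG, inv_zero, F0, inv_zero]
  have hdG : deg G = 1 := by
    refine deg_of_eventually (p := ((a⁻¹ + 1 : ℝ) : ℂ)) ?_
    have hlt : a⁻¹ < ‖((a⁻¹ + 1 : ℝ) : ℂ)‖ := by
      rw [norm_real, Real.norm_of_nonneg (by positivity)]; linarith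
    filter_upwards [continuousAt_const.eventually_lt continuous_norm.continuousAt hlt] with z hz
    rw [hG, h1, inv_inv]
    rw [norm_inv]
    exact inv_le_of_inv_le₀ ha hz.le
  obtain ⟨G', g1, g2⟩ := inner hdG G0 (a := b⁻¹) (s := s⁻¹) (inv_pos.2 hb)
    (inv_strictAnti₀ hs hsb) fun z hz => by
      have hz' : ‖z⁻¹‖ = s := by rw [norm_inv, hz, inv_inv]
      rw [hG, h2 _ hz'.ge, norm_inv]
      exact inv_strictAnti₀ (ha.trans (h _ hz').1) (h _ hz').2
  have G'0 : G' 0 = 0 := g1 0 (by simpa using hb.le)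
  obtain ⟨k, hk⟩ := exists_invc G'0
  have hkF : ∀ z, ‖z‖ ≤ s → k z = F' z := fun z hz => by
    by_cases hz0 : z = 0
    · rw [hz0, hk, inv_zero, G'0, inv_zero, F0]
    · rw [hk, g2, hG, inv_inv, inv_inv]
      rw [norm_inv]
      exact inv_anti₀ (norm_pos_iff.2 hz0) hz
  refine ⟨k, fun z hz => ?_, fun z hz => by rw [hkF z hz.le, h2 z hz.ge]⟩
  rcases hz with hz | hz
  · rw [hkF z (hz.trans has.le), h1 z hz]
  · rw [hk, g1, inv_inv]
    rw [norm_inv]
    exact inv_anti₀ hb hz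

lemma norm_cnj (z : ℂ) : ‖cnj z‖ = ‖z‖ := by rw [cnj_apply, RCLike.norm_conj]

lemma cnj_cnj (z : ℂ) : cnj (cnj z) = z := by rw [cnj_apply, cnj_apply, conj_conj]

lemma dt_one {h : H} (hd : deg h = 1) {a s b : ℝ} (ha : 0 < a) (has : a < s) (hsb : s < b)
    (h0 : (0 : ℂ) ∈ h '' ball 0 1) (hs : ∀ z : ℂ, ‖z‖ = 1 → a < ‖h z‖ ∧ ‖h z‖ < b) :
    ∃ k : H, (∀ z, ‖z‖ ≤ a ∨ b ≤ ‖z‖ → k z = z) ∧ k '' sphere 0 s = h '' sphere 0 1 := by
  have hs0 : 0 < s := ha.trans has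
  have hsc : ((s⁻¹ : ℝ) : ℂ) ≠ 0 := ofReal_ne_zero.2 (inv_pos.2 hs0).ne'
  obtain ⟨p, hp, hp0⟩ := h0
  obtain ⟨m, hm, hm0⟩ := exists_move isOpen_ball (convex_ball (0 : ℂ) 1).isPreconnected
    (mem_ball_self one_pos) hp
  have hn : ∀ z : ℂ, ‖z‖ = s → ‖((s⁻¹ : ℝ) : ℂ) * z‖ = 1 := fun z hz => by
    rw [norm_mul, norm_real, Real.norm_of_nonneg (inv_pos.2 hs0).le, hz, inv_mul_cancel₀ hs0.ne']
  have he : ∀ z : ℂ, ‖z‖ = s → (h * m * mulH _ hsc) z = h (((s⁻¹ : ℝ) : ℂ) * z) := fun z hz => by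
    rw [hmul, hmul, mulH_apply, hm.fix (by rw [mem_ball_zero_iff, hn z hz]; exact lt_irrefl _)]
  obtain ⟨k, k1, k2⟩ := both (F := h * m * mulH _ hsc)
    (deg_mul_one (deg_mul_one hd hm.deg) (deg_of_mul (mulH_apply _ hsc)))
    (by rw [hmul, hmul, mulH_apply, mul_zero, hm0, hp0]) ha has hsb
    fun z hz => by rw [he z hz]; exact hs _ (hn z hz)
  refine ⟨k, k1, Subset.antisymm ?_ ?_⟩
  · rintro _ ⟨z, hz, rfl⟩
    rw [mem_sphere_zero_iff_norm] at hz
    exact ⟨_, mem_sphere_zero_iff_norm.2 (hn z hz), by rw [k2 z hz, he z hz]⟩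
  · rintro _ ⟨z, hz, rfl⟩
    rw [mem_sphere_zero_iff_norm] at hz
    have hz' : ‖(s : ℂ) * z‖ = s := by
      rw [norm_mul, norm_real, Real.norm_of_nonneg hs0.le, hz, mul_one]
    refine ⟨s * z, mem_sphere_zero_iff_norm.2 hz', ?_⟩
    rw [k2 _ hz', he _ hz', ofReal_inv, inv_mul_cancel_left₀ (ofReal_ne_zero.2 hs0.ne')]

lemma step_int {φ : ℝ → ℝ} (h : ∀ t, φ (t + 1) = φ t + 1) (t : ℝ) (n : ℤ) :
    φ (t + n) = φ t + n := by
  have := per_int (Γ := fun t => φ t - t) (fun t => by simp only [h]; ring) n t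
  linarith

lemma step_surj {φ : ℝ → ℝ} (hc : Continuous φ) (h : ∀ t, φ (t + 1) = φ t + 1) :
    Function.Surjective φ := fun s => by
  obtain ⟨n, hn⟩ := exists_nat_ge |s - φ 0|
  refine intermediate_value_univ (0 + ((-n : ℤ) : ℝ)) (0 + ((n : ℤ) : ℝ)) hc ?_
  rw [step_int h, step_int h]; push_cast
  constructor <;> linarith [abs_le.1 hn]

lemma targ_polar {r : ℝ} (hr : 0 < r) (t : ℝ) : ∃ n : ℤ, targ (r * ee t) = t + n := by
  obtain ⟨w, hw, hwt⟩ := ee_real_mul hr t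
  obtain ⟨n, hn⟩ := targ_ee w
  exact ⟨n, by rw [← hw, hn, hwt]⟩

lemma norm_polar {r : ℝ} (hr : 0 ≤ r) (t : ℝ) : ‖(r : ℂ) * ee t‖ = r := by
  rw [norm_mul, norm_ee_real, mul_one, norm_real, Real.norm_of_nonneg hr]

/-- continuity away from the origin with a parameter -/
lemma continuousAt_par {T Y : Type*} [TopologicalSpace T] [TopologicalSpace Y] {G : T × ℂ → Y}
    {q : T × ℂ} (hq : q.2 ≠ 0) (h : Continuous fun x : T × ℂ => G (x.1, ee x.2)) :
    ContinuousAt G q := by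
  have ho : IsOpenMap ee := isOpenMap_exp.comp (Homeomorph.mulLeft₀ tpi tpi_ne).isOpenMap
  have ho' : IsOpenMap (Prod.map (id : T → T) ee) := IsOpenMap.id.prodMap ho
  have hc : Continuous (Prod.map (id : T → T) ee) := continuous_id.prodMap continuous_ee
  have e : q = Prod.map (id : T → T) ee (q.1, log q.2 / tpi) := by
    rw [Prod.map_apply, ee_log hq]; rfl
  rw [e, ContinuousAt, ← ho'.map_nhds_eq hc.continuousAt]
  exact h.continuousAt

end F2

open F2

theorem sDT_of : S_DT := fun h a s b ha has hsb h0 hs => by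
  rcases deg_or h with hd | hd
  · obtain ⟨k, k1, k2⟩ := dt_one hd ha has hsb h0 hs
    exact ⟨k, k1, image_closedBall_of_sphere k2⟩
  · obtain ⟨p, hp, hp0⟩ := h0
    obtain ⟨k, k1, k2⟩ := dt_one hd ha has hsb
      ⟨cnj p, by rwa [mem_ball_zero_iff, norm_cnj, ← mem_ball_zero_iff],
        by rw [hmul, cnj_cnj, hp0]⟩
      fun z hz => hs (cnj z) (by rw [norm_cnj, hz])
    refine ⟨k, k1, image_closedBall_of_sphere (k2.trans (Subset.antisymm ?_ ?_))⟩
    · rintro _ ⟨z, hz, rfl⟩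
      exact ⟨cnj z, by rwa [mem_sphere_zero_iff_norm, norm_cnj, ← mem_sphere_zero_iff_norm], rfl⟩
    · rintro _ ⟨z, hz, rfl⟩
      exact ⟨cnj z, by rwa [mem_sphere_zero_iff_norm, norm_cnj, ← mem_sphere_zero_iff_norm],
        by rw [hmul, cnj_cnj]⟩

theorem sCirc_of : S_Circ := fun F hF hb => by
  have hb' : F '' closedBall 0 1 = (1 : H) '' closedBall 0 1 := by rw [hb, image_hone]
  have gs : ∀ z, ‖z‖ = 1 → ‖F z‖ = 1 := fun z hz => by
    have := image_sphere_of_closedBall one_ne_zero one_ne_zero hb'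
    rw [image_hone] at this
    exact mem_sphere_zero_iff_norm.1 (this ▸ mem_image_of_mem F (mem_sphere_zero_iff_norm.2 hz))
  have g0 : ‖F 0‖ < 1 := by
    have := image_ball_of_closedBall one_ne_zero one_ne_zero hb'
    rw [image_hone] at this
    exact mem_ball_zero_iff.1 (this ▸ mem_image_of_mem F (mem_ball_self one_pos))
  have hL : Loop fun θ : ℝ => F (ee θ) := by
    refine ⟨by fun_prop, fun θ h => ?_, fun θ => by simp [ee_add_one]⟩
    have := gs _ (norm_ee_real θ)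
    rw [h] at this; simp at this
  obtain ⟨d, hd⟩ := hL.exists_wind
  have hd1 : d = 1 := by
    have h1 : HasWind (MP_069d55_gt.lp F 0 1) d :=
      hd.close ((locInj_homeo F 0 one_pos).loop one_pos le_rfl).cont (lp_per F 0 1) fun θ => by
        simpa [MP_069d55_gt.lp, gs _ (norm_ee_real θ)] using g0
    rw [← h1.wind_eq]; exact hF
  obtain ⟨l, hl, hle, hlp⟩ := hd
  set Θ : ℝ → ℝ := fun t => (l t).re with hΘ
  have Θc : Continuous Θ := by rw [hΘ]; fun_prop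
  have Θe : ∀ t : ℝ, ee (Θ t) = F (ee t) := fun t => by
    have := ee_polar (l t)
    rw [hle, gs _ (norm_ee_real t)] at this
    simpa using this.symm
  have Θ1 : ∀ t, Θ (t + 1) = Θ t + 1 := fun t => by simp [hΘ, hlp, hd1]
  have Θi : Function.Injective Θ := fun s t hst => by
    have h1 : F (ee s) = F (ee t) := by rw [← Θe, ← Θe, hst]
    obtain ⟨n, hn⟩ := ee_eq_iff.1 (F.injective h1)
    have hn' : s = t + n := by exact_mod_cast hn
    rw [hn', step_int Θ1] at hst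
    have : (n : ℝ) = 0 := by linarith
    rw [hn', this, add_zero]
  refine ⟨Θ, ⟨Θc, ?_, Θ1⟩, fun t => (Θe t).symm⟩
  rcases Θc.strictMono_of_inj Θi with h | h
  · exact h
  · have := h (show (0 : ℝ) < 0 + 1 by simp)
    rw [Θ1] at this; linarith

theorem sPolar_of : S_Polar := fun A hA hm => by
  set G : ℝ × ℂ → ℂ := fun q => ‖q.2‖ * ee (A q.1 ‖q.2‖ (targ q.2)) with hG
  have Gp : ∀ s r t : ℝ, 0 ≤ r → G (s, r * ee t) = r * ee (A s r t) := fun s r t hr => by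
    rcases hr.eq_or_lt with h0 | h0
    · simp [hG, ← h0]
    · obtain ⟨n, hn⟩ := targ_polar h0 t
      simp only [hG, norm_polar hr, hn, step_int (hm s r h0).2]
      push_cast; rw [ee_add_int]
  have Gn : ∀ q, ‖G q‖ = ‖q.2‖ := fun q => by simp [hG, norm_ee_real]
  have Ac : ∀ s r, 0 < r → Continuous (A s r) := fun s r hr =>
    hA.comp_continuous (f := fun t : ℝ => (s, r, t)) (by fun_prop) fun _ => hr
  have Gc : Continuous G := by
    refine continuous_iff_continuousAt.2 fun q => ?_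
    by_cases hq : q.2 = 0
    · have h0 : G q = 0 := norm_eq_zero.1 (by rw [Gn, hq, norm_zero])
      rw [ContinuousAt, h0, tendsto_zero_iff_norm_tendsto_zero]
      simp only [Gn]
      have : Tendsto (fun x : ℝ × ℂ => ‖x.2‖) (𝓝 q) (𝓝 ‖q.2‖) := (continuous_snd.norm).tendsto q
      rwa [hq, norm_zero] at this
    · refine continuousAt_par hq ?_
      have e : ∀ x : ℝ × ℂ, G (x.1, ee x.2) = ‖ee x.2‖ * ee (A x.1 ‖ee x.2‖ x.2.re) := fun x => by
        conv_lhs => rw [ee_polar x.2]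
        exact Gp _ _ _ (norm_nonneg _)
      simp only [e]
      have hc : Continuous fun x : ℝ × ℂ => A x.1 ‖ee x.2‖ x.2.re :=
        hA.comp_continuous (f := fun x : ℝ × ℂ => (x.1, ‖ee x.2‖, x.2.re)) (by fun_prop)
          fun x => norm_pos_iff.2 (ee_ne x.2)
      exact (continuous_ofReal.comp (continuous_ee.comp continuous_snd).norm).mul
        (continuous_ee.comp (continuous_ofReal.comp hc))
  have hex : ∀ s : ℝ, ∃ F : H, ∀ z, F z = G (s, z) := fun s => by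
    refine exists_of_proper (Gc.comp (continuous_const.prodMk continuous_id))
      ⟨fun z z' e => ?_, fun y => ?_⟩ fun R => ⟨R, fun x hx => by rwa [Gn]⟩
    · have hn : ‖z‖ = ‖z'‖ := by
        have := congrArg norm e
        rwa [Gn, Gn] at this
      by_cases hz' : z' = 0
      · rw [hz', norm_zero, norm_eq_zero] at hn
        rw [hn, hz']
      · have hp : 0 < ‖z'‖ := norm_pos_iff.2 hz'
        have hz : z ≠ 0 := norm_pos_iff.1 (hn ▸ hp)
        simp only [hG, hn] at e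
        obtain ⟨n, hn'⟩ := ee_eq_iff.1 (mul_left_cancel₀ (ofReal_ne_zero.2 hp.ne') e)
        have h3 : A s ‖z'‖ (targ z) = A s ‖z'‖ (targ z' + n) := by
          rw [step_int (hm s _ hp).2]; exact_mod_cast hn'
        have h4 := (hm s _ hp).1.injective h3
        calc z = ‖z‖ * ee (targ z) := polar hz
          _ = ‖z'‖ * ee (targ z') := by rw [h4, hn]; push_cast; rw [ee_add_int]
          _ = z' := (polar hz').symm
    · by_cases hy : y = 0
      · exact ⟨0, (norm_eq_zero.1 ((Gn (s, 0)).trans norm_zero)).trans hy.symm⟩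
      · have hp : 0 < ‖y‖ := norm_pos_iff.2 hy
        obtain ⟨t, ht⟩ := step_surj (Ac s _ hp) (hm s _ hp).2 (targ y)
        exact ⟨‖y‖ * ee t, by
          show G (s, _) = y
          rw [Gp _ _ _ hp.le, ht, ← polar hy]⟩
  choose F hF using hex
  refine ⟨F, cont_iff.2 ?_, fun s => ⟨?_, fun r t hr => by rw [hF, Gp _ _ _ hr]⟩⟩
  · simp only [hF]; exact Gc
  · have F0 : F s 0 = 0 := norm_eq_zero.1 (by rw [hF, Gn, norm_zero])
    refine HasWind.wind_eq ⟨fun θ => A s 1 θ, continuous_ofReal.comp (Ac s 1 one_pos),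
      fun θ => ?_, fun θ => ?_⟩
    · rw [MP_069d55_gt.lp, F0, zero_add, hF, Gp _ _ _ zero_le_one]; simp
    · simp only [(hm s 1 one_pos).2]; push_cast; ring

end

end Pool.Agent.Lib.MP_d32f96_gt
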