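import Pool.Agent.Lib.MP_d32f96_gt.Frame

/-! The Euler number of a commuting pair. -/

namespace Pool.Agent.Lib.MP_d32f96_gt

open Set Filter Topology Metric Complex Bornology
open Pool.Agent.Lib.MP_1e9af3_an Pool.Agent.Lib.MP_069d55_gt

noncomputable section

namespace G

lemma int_of_ee {x y : ℂ} (h : ee x = ee y) : ∃ n : ℤ, x - y = n := by
  obtain ⟨n, hn⟩ := ee_eq_iff.1 h
  exact ⟨n, by rw [hn]; ring⟩

/-- two continuous logarithms of the same function on a connected space -/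
lemma log_const {X : Type*} [TopologicalSpace X] [PreconnectedSpace X] {a b : X → ℂ}
    (ha : Continuous a) (hb : Continuous b) (h : ∀ x, ee (a x) = ee (b x)) (x y : X) :
    a x - b x = a y - b y :=
  int_const (S := univ) isPreconnected_univ (g := fun x => a x - b x) (ha.sub hb).continuousOn
    (fun x _ => int_of_ee (h x)) (mem_univ x) (mem_univ y)

lemma lift_univ {E : Type*} [NormedAddCommGroup E] [NormedSpace ℝ E] {g : E → ℂ}
    (hg : Continuous g) (h0 : ∀ x, g x ≠ 0) : ∃ l : E → ℂ, Continuous l ∧ ∀ x, ee (l x) = g x := by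
  obtain ⟨l, hl, he⟩ := exists_lift (U := (univ : Set E)) convex_univ isOpen_univ univ_nonempty
    hg.continuousOn (fun x _ => h0 x)
  exact ⟨l, continuousOn_univ.1 hl, fun x => he x trivial⟩

/-- `l` is a logarithm of the action of `f` on pairs of points -/
def IsL (f : ℂ → ℂ) (l : ℂ × ℂ → ℂ) : Prop :=
  Continuous l ∧ (∀ x w, ee (l (x, w)) = f (x + ee w) - f x) ∧
    ∀ x w, ∀ n : ℤ, l (x, w + n) = l (x, w) + n

lemma sub_ne {f : ℂ → ℂ} (hf : Function.Injective f) (x w : ℂ) : f (x + ee w) - f x ≠ 0 :=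
  fun h => ee_ne w (by simpa using hf (sub_eq_zero.1 h))

lemma per_int' {l : ℂ × ℂ → ℂ} (h : ∀ x w, l (x, w + 1) = l (x, w) + 1) (x w : ℂ) (n : ℤ) :
    l (x, w + n) = l (x, w) + n := by
  have := lift_int (U := univ) (fun _ _ _ => trivial) (L := fun w => l (x, w)) (d := 1)
    (fun w _ => h x w) n w trivial
  simpa using this

lemma exists_isL {f : H} (hf : deg f = 1) : ∃ l, IsL f l := by
  obtain ⟨l, hl, he⟩ := lift_univ (g := fun q : ℂ × ℂ => f (q.1 + ee q.2) - f q.1)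
    (by fun_prop) (fun q => sub_ne f.injective _ _)
  have hc : ∀ q : ℂ × ℂ, l (q.1, q.2 + 1) - l q = l (0, 0 + 1) - l (0, 0) := fun q =>
    log_const (a := fun q : ℂ × ℂ => l (q.1, q.2 + 1)) (b := l) (by fun_prop) hl
      (fun q => by rw [he, he, ee_add_one]) q (0, 0)
  obtain ⟨n, hn⟩ := int_of_ee (show ee (l (0, 0 + 1)) = ee (l (0, 0)) by rw [he, he, ee_add_one])
  have hw : HasWind (MP_069d55_gt.lp f 0 1) n := by
    refine ⟨fun θ => l (0, θ), by fun_prop, fun θ => ?_, fun θ => ?_⟩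
    · rw [he]; simp [MP_069d55_gt.lp]
    · have := hc (0, θ)
      push_cast
      linear_combination this + hn
  have h1 : n = 1 := hw.wind_eq.symm.trans hf
  refine ⟨l, hl, fun x w => he (x, w), per_int' fun x w => ?_⟩
  have := hc (x, w)
  rw [hn, h1] at this
  push_cast at this
  linear_combination this

lemma IsL.shift {f : ℂ → ℂ} {l : ℂ × ℂ → ℂ} (h : IsL f l) (n : ℤ) : IsL f fun q => l q + n :=
  ⟨h.1.add continuous_const, fun x w => by rw [ee_add_int, h.2.1],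
    fun x w m => by simp only [h.2.2]; ring⟩

lemma IsL.unique {f : ℂ → ℂ} {l l' : ℂ × ℂ → ℂ} (h : IsL f l) (h' : IsL f l') :
    ∃ n : ℤ, ∀ q, l' q = l q + n := by
  obtain ⟨n, hn⟩ := int_of_ee ((h'.2.1 0 0).trans (h.2.1 0 0).symm)
  refine ⟨n, fun q => ?_⟩
  have := log_const h'.1 h.1 (fun q => (h'.2.1 q.1 q.2).trans (h.2.1 q.1 q.2).symm) q (0, 0)
  linear_combination this + hn

/-- the defect of commutation of the logarithms -/
def val (f g : ℂ → ℂ) (l m : ℂ × ℂ → ℂ) (q : ℂ × ℂ) : ℂ :=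
  l (g q.1, m q) - m (f q.1, l q)

lemma IsL.comp {f g : ℂ → ℂ} {l m : ℂ × ℂ → ℂ} (hl : IsL f l) (hm : IsL g m) (q : ℂ × ℂ) :
    ee (l (g q.1, m q)) = f (g (q.1 + ee q.2)) - f (g q.1) := by
  rw [hl.2.1, hm.2.1 q.1 q.2, add_sub_cancel]

lemma comm_apply {f g : H} (h : f * g = g * f) (z : ℂ) : f (g z) = g (f z) :=
  congrArg (fun F : H => F z) h

lemma val_ee {f g : H} (h : f * g = g * f) {l m : ℂ × ℂ → ℂ} (hl : IsL f l) (hm : IsL g m)
    (q : ℂ × ℂ) : ee (l (g q.1, m q)) = ee (m (f q.1, l q)) := by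
  rw [hl.comp hm, hm.comp hl, comm_apply h, comm_apply h]

lemma val_const {f g : H} (h : f * g = g * f) {l m : ℂ × ℂ → ℂ} (hl : IsL f l) (hm : IsL g m)
    (q q' : ℂ × ℂ) : val f g l m q = val f g l m q' := by
  have h1 := hl.1
  have h2 := hm.1
  exact log_const (a := fun q : ℂ × ℂ => l (g q.1, m q)) (b := fun q : ℂ × ℂ => m (f q.1, l q))
    (by fun_prop) (by fun_prop) (val_ee h hl hm) q q'

lemma val_indep {f g : ℂ → ℂ} {l m l' m' : ℂ × ℂ → ℂ} (hl : IsL f l) (hm : IsL g m)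
    (hl' : IsL f l') (hm' : IsL g m') (q : ℂ × ℂ) : val f g l' m' q = val f g l m q := by
  obtain ⟨a, ha⟩ := hl.unique hl'
  obtain ⟨b, hb⟩ := hm.unique hm'
  simp only [val, ha, hb, hl.2.2, hm.2.2]
  ring

def IsE (p : H × H) (n : ℤ) : Prop :=
  ∀ l m, IsL p.1 l → IsL p.2 m → ∀ q, val p.1 p.2 l m q = n

lemma exists_isE {p : H × H} (hp : p ∈ Hom) : ∃ n, IsE p n := by
  obtain ⟨l, hl⟩ := exists_isL hp.1
  obtain ⟨m, hm⟩ := exists_isL hp.2.1
  obtain ⟨n, hn⟩ := int_of_ee (val_ee hp.2.2 hl hm (0, 0))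
  exact ⟨n, fun l' m' hl' hm' q =>
    (val_indep hl hm hl' hm' q).trans ((val_const hp.2.2 hl hm q (0, 0)).trans hn)⟩

open Classical in
/-- the Euler number -/
def eul (p : H × H) : ℤ := if h : ∃ n, IsE p n then h.choose else 0

lemma eul_spec {p : H × H} (hp : p ∈ Hom) : IsE p (eul p) := by
  have h := exists_isE hp
  unfold eul
  rw [dif_pos h]
  exact h.choose_spec

lemma eul_eq {p : H × H} (hp : p ∈ Hom) {l m : ℂ × ℂ → ℂ} (hl : IsL p.1 l) (hm : IsL p.2 m)
    {q : ℂ × ℂ} {k : ℤ} (h : val p.1 p.2 l m q = k) : eul p = k := by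
  have := (eul_spec hp l m hl hm q).symm.trans h
  exact_mod_cast this

/-! ### local constancy -/

def rat (f₀ : H) (s : H × ℂ × ℂ) : ℂ :=
  (s.1 (s.2.1 + ee s.2.2) - s.1 s.2.1) / (f₀ (s.2.1 + ee s.2.2) - f₀ s.2.1)

lemma continuous_rat (f₀ : H) : Continuous (rat f₀) := by
  unfold rat
  refine Continuous.div ?_ (by fun_prop) fun s => sub_ne f₀.injective _ _
  exact (Continuous.hev continuous_fst (by fun_prop)).sub
    (Continuous.hev continuous_fst (by fun_prop))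

lemma rat_self (f₀ : H) (q : ℂ × ℂ) : rat f₀ (f₀, q) = 1 := div_self (sub_ne f₀.injective _ _)

def nl (f₀ : H) (l₀ : ℂ × ℂ → ℂ) (s : H × ℂ × ℂ) : ℂ := l₀ s.2 + log (rat f₀ s) / tpi

lemma nl_self (f₀ : H) (l₀ : ℂ × ℂ → ℂ) (q : ℂ × ℂ) : nl f₀ l₀ (f₀, q) = l₀ q := by
  simp [nl, rat_self]

lemma continuousAt_nl {f₀ : H} {l₀ : ℂ × ℂ → ℂ} (h : Continuous l₀) {s : H × ℂ × ℂ}
    (hs : rat f₀ s ∈ slitPlane) : ContinuousAt (nl f₀ l₀) s :=
  (h.comp continuous_snd).continuousAt.add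
    (((continuous_rat f₀).continuousAt.clog hs).div_const _)

lemma near {f₀ : H} {l₀ : ℂ × ℂ → ℂ} (h : IsL f₀ l₀) (R : ℝ) :
    ∀ᶠ f in 𝓝 f₀, deg f = 1 → ∃ l, IsL f l ∧ ∀ q ∈ closedBall (0 : ℂ × ℂ) R,
      l q = nl f₀ l₀ (f, q) := by
  have h1 : ∀ᶠ f in 𝓝 f₀, ∀ q ∈ closedBall (0 : ℂ × ℂ) R, rat f₀ (f, q) ∈ slitPlane := by
    refine (isCompact_closedBall _ _).eventually_forall_of_forall_eventually fun q _ => ?_
    exact (continuous_rat f₀).continuousAt.eventually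
      (isOpen_slitPlane.mem_nhds (by rw [rat_self]; exact one_mem_slitPlane))
  filter_upwards [h1] with f hf hd
  obtain ⟨l, hl⟩ := exists_isL hd
  rcases (closedBall (0 : ℂ × ℂ) R).eq_empty_or_nonempty with he | ⟨q₀, hq₀⟩
  · exact ⟨l, hl, by simp [he]⟩
  have hi : ∀ q ∈ closedBall (0 : ℂ × ℂ) R, ∃ n : ℤ, nl f₀ l₀ (f, q) - l q = n := fun q hq => by
    refine int_of_ee ?_
    rw [nl, ee_add, ee_log (slitPlane_ne_zero (hf q hq)), hl.2.1 q.1 q.2, h.2.1 q.1 q.2, rat,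
      mul_div_cancel₀ _ (sub_ne f₀.injective _ _)]
  obtain ⟨n, hn⟩ := hi q₀ hq₀
  refine ⟨fun q => l q + n, hl.shift n, fun q hq => ?_⟩
  have := int_const (convex_closedBall (0 : ℂ × ℂ) R).isPreconnected
    (g := fun q => nl f₀ l₀ (f, q) - l q)
    (fun q hq => (((continuousAt_nl h.1 (hf q hq)).comp (f := fun q => (f, q))
      (by fun_prop)).sub hl.1.continuousAt).continuousWithinAt) hi hq hq₀
  linear_combination -this - hn

lemma eul_eventually {p₀ : H × H} (hp₀ : p₀ ∈ Hom) :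
    ∀ᶠ p in 𝓝 p₀, p ∈ Hom → eul p = eul p₀ := by
  obtain ⟨l₀, hl₀⟩ := exists_isL hp₀.1
  obtain ⟨m₀, hm₀⟩ := exists_isL hp₀.2.1
  have sl : ∀ (f₀ : H) (q : ℂ × ℂ), rat f₀ (f₀, q) ∈ slitPlane := fun f₀ q => by
    rw [rat_self]; exact one_mem_slitPlane
  set a : H × H → ℂ × ℂ := fun p => (p.2 0, nl p₀.2 m₀ (p.2, (0, 0))) with ha
  set b : H × H → ℂ × ℂ := fun p => (p.1 0, nl p₀.1 l₀ (p.1, (0, 0))) with hb
  have ca : ContinuousAt a p₀ :=
    (Continuous.hev continuous_snd continuous_const).continuousAt.prodMk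
      ((continuousAt_nl hm₀.1 (sl _ _)).comp (f := fun p : H × H => (p.2, ((0 : ℂ), (0 : ℂ))))
        (by fun_prop))
  have cb : ContinuousAt b p₀ :=
    (Continuous.hev continuous_fst continuous_const).continuousAt.prodMk
      ((continuousAt_nl hl₀.1 (sl _ _)).comp (f := fun p : H × H => (p.1, ((0 : ℂ), (0 : ℂ))))
        (by fun_prop))
  have cΦ : ContinuousAt (fun p => nl p₀.1 l₀ (p.1, a p) - nl p₀.2 m₀ (p.2, b p)) p₀ :=
    ((continuousAt_nl hl₀.1 (sl _ _)).comp (f := fun p : H × H => (p.1, a p))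
      (continuousAt_fst.prodMk ca)).sub
    ((continuousAt_nl hm₀.1 (sl _ _)).comp (f := fun p : H × H => (p.2, b p))
      (continuousAt_snd.prodMk cb))
  set R := ‖a p₀‖ + ‖b p₀‖ + 1 with hR
  have hR0 : (0 : ℂ × ℂ) ∈ closedBall (0 : ℂ × ℂ) R := mem_closedBall_self (by positivity)
  have e0 : nl p₀.1 l₀ (p₀.1, a p₀) - nl p₀.2 m₀ (p₀.2, b p₀) = eul p₀ := by
    rw [← eul_spec hp₀ l₀ m₀ hl₀ hm₀ (0, 0)]
    simp only [nl_self, ha, hb, val]
  filter_upwards [continuousAt_fst.eventually (near hl₀ R), continuousAt_snd.eventually (near hm₀ R),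
    ca.norm.eventually_lt_const (show ‖a p₀‖ < R by linarith [norm_nonneg (b p₀)]),
    cb.norm.eventually_lt_const (show ‖b p₀‖ < R by linarith [norm_nonneg (a p₀)]),
    cΦ.eventually (ball_mem_nhds _ one_pos)] with p h1 h2 h3 h4 h5 hp
  obtain ⟨l, hl, el⟩ := h1 hp.1
  obtain ⟨m, hm, em⟩ := h2 hp.2.1
  have e1 : nl p₀.1 l₀ (p.1, a p) - nl p₀.2 m₀ (p.2, b p) = eul p := by
    rw [← eul_spec hp l m hl hm (0, 0), ← el _ (mem_closedBall_zero_iff.2 h3.le),
      ← em _ (mem_closedBall_zero_iff.2 h4.le)]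
    have i1 : m (0, 0) = nl p₀.2 m₀ (p.2, (0, 0)) := em _ hR0
    have i2 : l (0, 0) = nl p₀.1 l₀ (p.1, (0, 0)) := el _ hR0
    simp only [val, ha, hb, i1, i2]
  rw [e0, e1, dist_eq_norm, ← Int.cast_sub, Complex.norm_intCast] at h5
  have : |eul p - eul p₀| < 1 := by exact_mod_cast h5
  exact sub_eq_zero.1 (Int.abs_lt_one_iff.1 this)

lemma eul_conn {p q : H × H} (h : Conn p q) : eul p = eul q := by
  have : ContinuousOn eul (connectedComponentIn Hom p) := fun x hx => by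
    refine (tendsto_pure.2 ?_).mono_right (pure_le_nhds _)
    filter_upwards [self_mem_nhdsWithin, nhdsWithin_le_nhds
      (eul_eventually (connectedComponentIn_subset _ _ hx))] with y hy hy'
    exact hy' (connectedComponentIn_subset _ _ hy)
  exact isPreconnected_connectedComponentIn.constant this (mem_connectedComponentIn h.1) h.2

/-! ### the models -/

lemma twist_cent (c : ℝ) (j : ℤ) (hc : c = j) : twist c ∈ Cent := fun z => by
  by_cases hz : z = 0
  · simp [hz, twist_apply, tw]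
  rw [twist_apply, twist_apply, tw, tw, norm_mul, Real.logb_mul (by simp) (norm_ne_zero_iff.2 hz)]
  have : Real.logb 2 ‖(2 : ℂ)‖ = 1 := by simp
  rw [this, hc, mul_add, mul_one, add_comm]
  push_cast
  rw [ee_add_int, mul_assoc]

lemma eul_model (j : ℤ) : eul (dbl, twist j) = -j := by
  have hp : (dbl, twist j) ∈ Hom := ⟨deg_dbl, deg_twist j, cent_iff.1 (twist_cent _ j rfl)⟩
  set c : ℂ := log 2 / tpi with hc
  have ec : ee c = 2 := ee_log two_ne_zero
  have hl : IsL dbl fun q => q.2 + c :=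
    ⟨by fun_prop, fun x w => by rw [ee_add, ec, dbl_apply, dbl_apply]; ring,
      fun x w n => by ring⟩
  obtain ⟨m, hm⟩ := exists_isL (deg_twist j)
  refine eul_eq hp hl hm (q := (0, 0)) ?_
  have h1 := hm.1
  have hlog : Continuous fun w : ℂ => Real.logb 2 ‖ee w‖ :=
    continuous_iff_continuousAt.2 fun w =>
      ContinuousAt.comp (f := fun w : ℂ => ‖ee w‖)
        (Real.continuousAt_logb (norm_ne_zero_iff.2 (ee_ne w))) (by fun_prop)
  have := log_const (a := fun w : ℂ => m (0, w))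
    (b := fun w : ℂ => w + (((j : ℝ) * Real.logb 2 ‖ee w‖ : ℝ) : ℂ)) (by fun_prop) (by fun_prop)
    (fun w => by
      rw [hm.2.1, ee_add, twist_apply, twist_apply]
      simp [tw]) c 0
  have e2 : Real.logb 2 ‖(2 : ℂ)‖ = 1 := by simp
  simp only [ec, e2, ee_zero, norm_one, Real.logb_one] at this
  simp only [val, dbl_apply, mul_zero, zero_add]
  push_cast at this ⊢
  linear_combination -this

/-! ### isotopies -/

/-- normalised logarithm along an isotopy -/
def IsF (A : ℝ → ℂ → ℂ) (L : ℝ × ℂ × ℂ → ℂ) : Prop :=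
  Continuous L ∧ (∀ t x w, ee (L (t, x, w)) = A t (x + ee w) - A t x) ∧ ∀ x w, L (0, x, w) = w

lemma exists_isF {A : ℝ → ℂ → ℂ} (hA : Continuous fun q : ℝ × ℂ => A q.1 q.2)
    (hi : ∀ t, Function.Injective (A t)) (h0 : ∀ x, A 0 x = x) : ∃ L, IsF A L := by
  obtain ⟨l, hl, he⟩ := lift_univ
    (g := fun s : ℝ × ℂ × ℂ => A s.1 (s.2.1 + ee s.2.2) - A s.1 s.2.1)
    ((hA.comp (f := fun s : ℝ × ℂ × ℂ => (s.1, s.2.1 + ee s.2.2)) (by fun_prop)).sub
      (hA.comp (f := fun s : ℝ × ℂ × ℂ => (s.1, s.2.1)) (by fun_prop)))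
    (fun s => sub_ne (hi _) _ _)
  have e0 : ∀ q : ℂ × ℂ, ee (l (0, q)) = ee q.2 := fun q => by rw [he]; simp [h0]
  obtain ⟨n, hn⟩ := int_of_ee (e0 (0, 0))
  refine ⟨fun s => l s + ((-n : ℤ) : ℂ), hl.add continuous_const,
    fun t x w => by rw [ee_add_int, he], fun x w => ?_⟩
  have := log_const (a := fun q : ℂ × ℂ => l (0, q)) (b := fun q : ℂ × ℂ => q.2) (by fun_prop)
    (by fun_prop) e0 (x, w) (0, 0)
  push_cast
  linear_combination this + hn

lemma IsF.isL {A : ℝ → ℂ → ℂ} {L : ℝ × ℂ × ℂ → ℂ} (h : IsF A L) (t : ℝ) :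
    IsL (A t) fun q => L (t, q) := by
  have h1 := h.1
  refine ⟨by fun_prop, h.2.1 t, per_int' (l := fun q => L (t, q)) fun x w => ?_⟩
  have := log_const (a := fun t : ℝ => L (t, x, w + 1)) (b := fun t : ℝ => L (t, x, w))
    (by fun_prop) (by fun_prop) (fun t => by rw [h.2.1, h.2.1, ee_add_one]) t 0
  simp only [h.2.2] at this
  linear_combination this

lemma IsF.inv {A B : ℝ → ℂ → ℂ} {L M : ℝ × ℂ × ℂ → ℂ} (h : IsF A L) (h' : IsF B M)
    (hB : Continuous fun q : ℝ × ℂ => B q.1 q.2) (hAB : ∀ t x, A t (B t x) = x) (t : ℝ)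
    (x w : ℂ) : L (t, B t x, M (t, x, w)) = w := by
  have h1 := h.1
  have h2 := h'.1
  have h3 : Continuous fun t => B t x := hB.comp (f := fun t => (t, x)) (by fun_prop)
  have := log_const (a := fun t : ℝ => L (t, B t x, M (t, x, w))) (b := fun _ : ℝ => w)
    (by fun_prop) (by fun_prop)
    (fun t => by rw [h.2.1, h'.2.1, add_sub_cancel, hAB, hAB, add_sub_cancel_left]) t 0
  simp only [h.2.2, h'.2.2] at this
  linear_combination this

def cl (t : ℝ) : ℝ := projIcc (0 : ℝ) 1 zero_le_one t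

lemma cl_mem (t : ℝ) : cl t ∈ Icc (0 : ℝ) 1 := (projIcc (0 : ℝ) 1 zero_le_one t).2

lemma cl_of_mem {t : ℝ} (h : t ∈ Icc (0 : ℝ) 1) : cl t = t := by simp [cl, projIcc_of_mem _ h]

lemma cl_zero : cl 0 = 0 := cl_of_mem (by simp)

lemma cl_one : cl 1 = 1 := cl_of_mem (by simp)

lemma continuous_cl : Continuous cl := continuous_subtype_val.comp continuous_projIcc

lemma continuous_clF (F : C(ℝ × ℂ, ℂ)) : Continuous fun q : ℝ × ℂ => F (cl q.1, q.2) :=
  F.continuous.comp ((continuous_cl.comp continuous_fst).prodMk continuous_snd)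

lemma eul_froz {p : H × H} (hp : p ∈ Hom) {k : ℤ} (h : (toC p.1, toC p.2) ∈ Froz k) :
    eul p = k := by
  obtain ⟨-, F, Fi, G, Gi, hinv, hend, θ, hθ, hang⟩ := h
  have a1 := fun t x => (hinv (cl t) (cl_mem t) x).1
  have a2 := fun t x => (hinv (cl t) (cl_mem t) x).2.1
  have a3 := fun t x => (hinv (cl t) (cl_mem t) x).2.2.1
  have a4 := fun t x => (hinv (cl t) (cl_mem t) x).2.2.2
  have f0 : ∀ x, F (cl 0, x) = x := fun x => by rw [cl_zero]; exact (hend x).1
  have g0 : ∀ x, G (cl 0, x) = x := fun x => by rw [cl_zero]; exact (hend x).2.1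
  have f1 : ∀ x, F (cl 1, x) = p.1 x := fun x => by rw [cl_one]; exact (hend x).2.2.1
  have g1 : ∀ x, G (cl 1, x) = p.2 x := fun x => by rw [cl_one]; exact (hend x).2.2.2
  have fi0 : ∀ x, Fi (cl 0, x) = x := fun x => (f0 _).symm.trans (a1 0 x)
  have gi0 : ∀ x, Gi (cl 0, x) = x := fun x => (g0 _).symm.trans (a3 0 x)
  have cF := continuous_clF F
  have cFi := continuous_clF Fi
  have cG := continuous_clF G
  have cGi := continuous_clF Gi
  obtain ⟨LF, hF⟩ := exists_isF (A := fun t x => F (cl t, x)) cF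
    (fun t => Function.LeftInverse.injective (g := fun x => Fi (cl t, x)) (a2 t)) f0
  obtain ⟨LFi, hFi⟩ := exists_isF (A := fun t x => Fi (cl t, x)) cFi
    (fun t => Function.LeftInverse.injective (g := fun x => F (cl t, x)) (a1 t)) fi0
  obtain ⟨LG, hG⟩ := exists_isF (A := fun t x => G (cl t, x)) cG
    (fun t => Function.LeftInverse.injective (g := fun x => Gi (cl t, x)) (a4 t)) g0
  obtain ⟨LGi, hGi⟩ := exists_isF (A := fun t x => Gi (cl t, x)) cGi
    (fun t => Function.LeftInverse.injective (g := fun x => G (cl t, x)) (a3 t)) gi0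
  set x₁ : ℝ → ℂ := fun t => Gi (cl t, 0) with hx₁
  set w₁ : ℝ → ℂ := fun t => LGi (t, 0, 0) with hw₁
  set x₂ : ℝ → ℂ := fun t => Fi (cl t, x₁ t) with hx₂
  set w₂ : ℝ → ℂ := fun t => LFi (t, x₁ t, w₁ t) with hw₂
  set x₃ : ℝ → ℂ := fun t => G (cl t, x₂ t) with hx₃
  set w₃ : ℝ → ℂ := fun t => LG (t, x₂ t, w₂ t) with hw₃
  set w₄ : ℝ → ℂ := fun t => LF (t, x₃ t, w₃ t) with hw₄
  have c1 : Continuous x₁ := cGi.comp (f := fun t => (t, (0 : ℂ))) (by fun_prop)
  have d1 : Continuous w₁ := hGi.1.comp (by fun_prop)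
  have c2 : Continuous x₂ := cFi.comp (f := fun t => (t, x₁ t)) (by fun_prop)
  have d2 : Continuous w₂ := hFi.1.comp (by fun_prop)
  have c3 : Continuous x₃ := cG.comp (f := fun t => (t, x₂ t)) (by fun_prop)
  have d3 : Continuous w₃ := hG.1.comp (by fun_prop)
  have d4 : Continuous w₄ := hF.1.comp (by fun_prop)
  have e4 : ∀ t, ee (w₄ t) = F (cl t, G (cl t, Fi (cl t, Gi (cl t, 1)))) -
      F (cl t, G (cl t, Fi (cl t, Gi (cl t, 0)))) := fun t => by
    simp only [hw₄, hw₃, hw₂, hw₁, hx₃, hx₂, hx₁, hF.2.1, hG.2.1, hFi.2.1, hGi.2.1,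
      add_sub_cancel, ee_zero, zero_add]
  have z4 : w₄ 0 = 0 := by simp only [hw₄, hw₃, hw₂, hw₁, hF.2.2, hG.2.2, hFi.2.2, hGi.2.2]
  have hv : val p.1 p.2 (fun q => LF (1, q)) (fun q => LG (1, q)) (x₂ 1, w₂ 1) = w₄ 1 := by
    have i1 : LF (1, x₂ 1, w₂ 1) = w₁ 1 := hF.inv hFi cFi a1 1 _ _
    have i2 : p.1 (x₂ 1) = x₁ 1 := by rw [← f1]; exact a1 1 _
    have i3 : LG (1, x₁ 1, w₁ 1) = 0 := hG.inv hGi cGi a3 1 _ _
    simp only [val, i1, i2, i3, sub_zero, hw₄, hw₃, hx₃, g1]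
  have hL : IsL p.1 fun q => LF (1, q) := by
    have := hF.isL 1
    simpa only [f1] using this
  have hM : IsL p.2 fun q => LG (1, q) := by
    have := hG.isL 1
    simpa only [g1] using this
  obtain ⟨n, hn⟩ : ∃ n : ℤ, w₄ 1 = n := ⟨_, hv.symm.trans (eul_spec hp _ _ hL hM _)⟩
  refine eul_eq hp hL hM (hv.trans ?_)
  have hre : ∀ t, ee ((w₄ t).re : ℂ) = ee (θ (cl t) : ℝ) := fun t => by
    have h1 := hang (cl t) (cl_mem t)
    rw [← e4] at h1
    have h2 : ee (w₄ t) = (‖ee (w₄ t)‖ : ℝ) * ee ((w₄ t).re : ℂ) := by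
      conv_lhs => rw [← re_add_im (w₄ t), ee_add, mul_comm]
      congr 1
      rw [norm_ee, ee, ofReal_exp]
      congr 1
      simp only [tpi]
      push_cast
      linear_combination (2 * (Real.pi : ℂ) * (w₄ t).im) * I_mul_I
    have h3 : ((‖ee (w₄ t)‖ : ℝ) : ℂ) ≠ 0 := by exact_mod_cast norm_ne_zero_iff.2 (ee_ne _)
    exact mul_left_cancel₀ h3 (h2.symm.trans h1)
  have cθ : Continuous fun t => θ (cl t) := θ.continuous.comp continuous_cl
  have := log_const (a := fun t => ((w₄ t).re : ℂ)) (b := fun t => ((θ (cl t) : ℝ) : ℂ))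
    (by fun_prop) (continuous_ofReal.comp cθ) hre 1 0
  simp only [z4, hn, cl_one, cl_zero, zero_re, intCast_re] at this
  have hθ' : ((θ 1 : ℝ) : ℂ) - (θ 0 : ℝ) = k := by exact_mod_cast hθ
  rw [hn]
  push_cast at this
  linear_combination this + hθ'

/-- the path of homeomorphisms given by an isotopy and its inverse -/
lemma exists_path {F Fi : C(ℝ × ℂ, ℂ)}
    (h : ∀ t ∈ Icc (0 : ℝ) 1, ∀ x, F (t, Fi (t, x)) = x ∧ Fi (t, F (t, x)) = x)
    (h0 : ∀ x, F (0, x) = x) : ∃ f : H, deg f = 1 ∧ ∀ x, f x = F (1, x) := by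
  let A : ℝ → H := fun t =>
    { toFun := fun x => F (cl t, x)
      invFun := fun x => Fi (cl t, x)
      left_inv := fun x => (h _ (cl_mem t) x).2
      right_inv := fun x => (h _ (cl_mem t) x).1
      continuous_toFun := F.continuous.comp (continuous_const.prodMk continuous_id)
      continuous_invFun := Fi.continuous.comp (continuous_const.prodMk continuous_id) }
  have hA : Continuous A := cont_iff.2 (continuous_clF F)
  have e0 : A 0 = 1 := Homeomorph.ext fun x => by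
    show F (cl 0, x) = x
    rw [cl_zero, h0]
  refine ⟨A 1, by rw [deg_path hA 1 0, e0, deg_one], fun x => ?_⟩
  show F (cl 1, x) = _
  rw [cl_one]

end G

theorem sG1_of : S_G1 :=
  ⟨G.eul, fun _ _ h => G.eul_conn h, G.eul_model, fun _ hp _ h => G.eul_froz hp h⟩

theorem sG2_of : S_G2 := by
  refine ⟨fun k P hP => ?_, fun p hp => ?_⟩
  · obtain ⟨hc, F, Fi, K, Ki, hinv, hend, -⟩ := hP
    obtain ⟨f, hf, ef⟩ := G.exists_path (F := F) (Fi := Fi)
      (fun t ht x => ⟨(hinv t ht x).1, (hinv t ht x).2.1⟩) fun x => (hend x).1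
    obtain ⟨g, hg, eg⟩ := G.exists_path (F := K) (Fi := Ki)
      (fun t ht x => (hinv t ht x).2.2) fun x => (hend x).2.1
    have e1 : ∀ x, f x = P.1 x := fun x => (ef x).trans (hend x).2.2.1
    have e2 : ∀ x, g x = P.2 x := fun x => (eg x).trans (hend x).2.2.2
    refine ⟨(f, g), ⟨hf, hg, Homeomorph.ext fun x => ?_⟩,
      Prod.ext (ContinuousMap.ext fun x => (e1 x).symm) (ContinuousMap.ext fun x => (e2 x).symm)⟩
    show f (g x) = g (f x)
    rw [e1, e2, e2, e1, hc]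
  · obtain ⟨A, hA, a0, a1, -⟩ := sIso_of p.1 hp.1
    obtain ⟨B, hB, b0, b1, -⟩ := sIso_of p.2 hp.2.1
    set c : ℝ → H := fun t => A t * B t * (A t)⁻¹ * (B t)⁻¹ with hc
    have cc : Continuous c := by fun_prop
    obtain ⟨l, hl, he⟩ := G.lift_univ (g := fun t => c t 1 - c t 0)
      ((Continuous.hev cc continuous_const).sub (Continuous.hev cc continuous_const))
      (fun t h => one_ne_zero ((c t).injective (sub_eq_zero.1 h)))
    have c0 : c 0 = 1 := by simp [hc, a0, b0]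
    have c1 : c 1 = 1 := by
      simp only [hc, a1, b1]
      rw [hp.2.2]; group
    obtain ⟨k, hk⟩ := G.int_of_ee (show ee (l 1) = ee (l 0) by rw [he, he, c0, c1])
    refine ⟨k, fun x => G.comm_apply hp.2.2 x, ⟨_, cont_iff.1 hA⟩, ⟨_, cont_iff.1 hA.inv⟩,
      ⟨_, cont_iff.1 hB⟩, ⟨_, cont_iff.1 hB.inv⟩, fun t _ x => ⟨happly_inv _ _, hinv_apply _ _,
        happly_inv _ _, hinv_apply _ _⟩, fun x => ?_, ⟨fun t => (l t).re, by fun_prop⟩, ?_,
      fun t _ => ?_⟩
    · simp only [ContinuousMap.coe_mk, a0, a1, b0, b1]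
      exact ⟨rfl, rfl, rfl, rfl⟩
    · simpa using congrArg re hk
    · show c t 1 - c t 0 = (‖c t 1 - c t 0‖ : ℝ) * ee ((l t).re : ℝ)
      rw [← he]
      conv_lhs => rw [← re_add_im (l t), ee_add, mul_comm]
      congr 1
      rw [norm_ee, ee, ofReal_exp]
      congr 1
      simp only [tpi]
      push_cast
      linear_combination (2 * (Real.pi : ℂ) * (l t).im) * I_mul_I

end

end Pool.Agent.Lib.MP_d32f96_gt
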