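import Pool.Agent.Lib.MP_d32f96_gt.Frame

/-! Cone extension and dilation limit. -/

namespace Pool.Agent.Lib.MP_d32f96_gt

open Set Filter Topology Metric Complex Bornology
open Pool.Agent.Lib.MP_1e9af3_an Pool.Agent.Lib.MP_069d55_gt

noncomputable section

namespace H1

lemma norm_iota (z : ℂ) : ‖iota z‖ = ‖z‖ / (1 + ‖z‖) := by
  rw [iota, norm_div, norm_real, Real.norm_eq_abs, abs_of_pos (by positivity)]

lemma norm_iota_lt (z : ℂ) : ‖iota z‖ < 1 := by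
  rw [norm_iota, div_lt_one (by positivity)]; linarith

lemma exists_iota {w : ℂ} (hw : ‖w‖ < 1) : ∃ z, iota z = w := by
  have h : 0 < 1 - ‖w‖ := by linarith
  refine ⟨w / ((1 - ‖w‖ : ℝ) : ℂ), ?_⟩
  rw [iota, norm_div, norm_real, Real.norm_eq_abs, abs_of_pos h, div_div, ← ofReal_mul,
    show (1 - ‖w‖) * (1 + ‖w‖ / (1 - ‖w‖)) = 1 by field_simp; ring]
  simp

lemma sub_closure : closedBall (0 : ℂ) 1 ⊆ closure (range iota) := by
  rw [← closure_ball _ one_ne_zero]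
  exact closure_mono fun w hw => exists_iota (mem_ball_zero_iff.1 hw)

lemma range_sub : range iota ⊆ closedBall (0 : ℂ) 1 := by
  rintro _ ⟨z, rfl⟩; exact mem_closedBall_zero_iff.2 (norm_iota_lt z).le

lemma dens {u v : ℂ → ℂ} (hu : ContinuousOn u (closedBall 0 1))
    (hv : ContinuousOn v (closedBall 0 1)) (h : ∀ z, u (iota z) = v (iota z)) :
    EqOn u v (closedBall 0 1) :=
  EqOn.of_subset_closure (s := range iota) (by rintro _ ⟨z, rfl⟩; exact h z) hu hv range_sub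
    sub_closure

lemma maps {F : H} {G : ℂ → ℂ} (hc : ContinuousOn G (closedBall 0 1))
    (h : ∀ z, G (iota z) = iota (F z)) : MapsTo G (closedBall 0 1) (closedBall 0 1) := by
  intro w hw
  have h1 : G w ∈ closure (G '' range iota) :=
    ((hc w hw).mono range_sub).mem_closure_image (sub_closure hw)
  refine closure_minimal ?_ isClosed_closedBall h1
  rintro _ ⟨_, ⟨z, rfl⟩, rfl⟩
  rw [h]; exact range_sub ⟨_, rfl⟩

def cone (G : ℂ → ℂ) (z : ℂ) : ℂ := ((max 1 ‖z‖ : ℝ) : ℂ) * G (z / ((max 1 ‖z‖ : ℝ) : ℂ))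

lemma max_pos (z : ℂ) : 0 < max 1 ‖z‖ := lt_max_of_lt_left one_pos

lemma norm_div_max (z : ℂ) : ‖z / ((max 1 ‖z‖ : ℝ) : ℂ)‖ = ‖z‖ / max 1 ‖z‖ := by
  rw [norm_div, norm_real, Real.norm_eq_abs, abs_of_pos (max_pos z)]

lemma div_mem (z : ℂ) : z / ((max 1 ‖z‖ : ℝ) : ℂ) ∈ closedBall (0 : ℂ) 1 := by
  rw [mem_closedBall_zero_iff, norm_div_max, div_le_one (max_pos z)]; exact le_max_right _ _

lemma continuous_cone {G : ℂ → ℂ} (hc : ContinuousOn G (closedBall 0 1)) :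
    Continuous (cone G) := by
  have h1 : Continuous fun z : ℂ => ((max 1 ‖z‖ : ℝ) : ℂ) := by fun_prop
  exact h1.mul (hc.comp_continuous
    (continuous_id.div h1 fun z => ofReal_ne_zero.2 (max_pos z).ne') div_mem)

lemma cone_le (G : ℂ → ℂ) {z : ℂ} (hz : ‖z‖ ≤ 1) : cone G z = G z := by
  simp [cone, max_eq_left hz]

lemma cone_cone {G G' : ℂ → ℂ} (h1 : MapsTo G (closedBall 0 1) (closedBall 0 1))
    (h2 : ∀ w, ‖w‖ = 1 → ‖G w‖ = 1) (h3 : ∀ w ∈ closedBall (0 : ℂ) 1, G' (G w) = w) (z : ℂ) :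
    cone G' (cone G z) = z := by
  have hm : max 1 ‖cone G z‖ = max 1 ‖z‖ := by
    rcases le_total ‖z‖ 1 with h | h
    · rw [cone_le G h, max_eq_left h, max_eq_left]
      exact mem_closedBall_zero_iff.1 (h1 (mem_closedBall_zero_iff.2 h))
    · rw [cone, norm_mul, h2 _ (by rw [norm_div_max, max_eq_right h, div_self (by linarith)]),
        mul_one, norm_real, Real.norm_eq_abs, abs_of_pos (max_pos z), max_eq_right h,
        max_eq_right h]
  have h0 : ((max 1 ‖z‖ : ℝ) : ℂ) ≠ 0 := ofReal_ne_zero.2 (max_pos z).ne'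
  rw [cone, hm, cone, mul_div_cancel_left₀ _ h0, h3 _ (div_mem z), mul_div_cancel₀ _ h0]

lemma inv_ext {F : H} {G G' : ℂ → ℂ} (hc : ContinuousOn G (closedBall 0 1))
    (h : ∀ z, G (iota z) = iota (F z)) (hc' : ContinuousOn G' (closedBall 0 1))
    (h' : ∀ z, G' (iota z) = iota (F⁻¹ z)) :
    (∀ w ∈ closedBall (0 : ℂ) 1, G' (G w) = w) ∧ ∀ w, ‖w‖ = 1 → ‖G w‖ = 1 := by
  have k : ∀ w ∈ closedBall (0 : ℂ) 1, G' (G w) = w := fun w hw =>
    dens (u := fun w => G' (G w)) (v := id) (hc'.comp hc (maps hc h)) continuousOn_id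
      (fun z => by simp only [h, h', hinv_apply, id]) hw
  refine ⟨k, fun w hw => le_antisymm
    (mem_closedBall_zero_iff.1 (maps hc h (mem_closedBall_zero_iff.2 hw.le))) (not_lt.1 fun hl => ?_)⟩
  obtain ⟨y, hy⟩ := exists_iota hl
  have := k w (mem_closedBall_zero_iff.2 hw.le)
  rw [← hy, h'] at this
  exact (norm_iota_lt _).ne (this ▸ hw)

/-- `F` extends the conjugate of `f` by `iota` and is a cone outside the unit disc -/
def Hat (f F : H) : Prop := (∀ z, F (iota z) = iota (f z)) ∧ (∀ w, ‖w‖ = 1 → ‖F w‖ = 1) ∧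
  (∀ (r : ℝ) (w : ℂ), 1 ≤ r → ‖w‖ = 1 → F (r * w) = r * F w) ∧
  F '' closedBall 0 1 = closedBall 0 1

lemma exists_hat {f : H} (h1 : Ext f) (h2 : Ext f⁻¹) : ∃ F, Hat f F := by
  obtain ⟨G, hc, h⟩ := h1
  obtain ⟨G', hc', h'⟩ := h2
  obtain ⟨a1, a2⟩ := inv_ext hc h hc' h'
  obtain ⟨b1, b2⟩ := inv_ext hc' h' hc (by simpa using h)
  refine ⟨⟨⟨cone G, cone G', cone_cone (maps hc h) a2 a1, cone_cone (maps hc' h') b2 b1⟩,
    continuous_cone hc, continuous_cone hc'⟩, fun z => ?_, fun w hw => ?_, fun r w hr hw => ?_, ?_⟩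
  · exact (cone_le G (norm_iota_lt z).le).trans (h z)
  · exact (congrArg norm (cone_le G hw.le)).trans (a2 w hw)
  · show cone G (r * w) = r * cone G w
    have hr0 : (r : ℂ) ≠ 0 := ofReal_ne_zero.2 (by linarith)
    rw [cone_le G hw.le, cone, norm_mul, hw, mul_one, norm_real, Real.norm_eq_abs,
      abs_of_pos (by linarith), max_eq_right hr, mul_div_cancel_left₀ _ hr0]
  · refine Subset.antisymm ?_ fun w hw => ⟨G' w, maps hc' h' hw, ?_⟩
    · rintro _ ⟨w, hw, rfl⟩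
      show cone G w ∈ _
      rw [cone_le G (mem_closedBall_zero_iff.1 hw)]; exact maps hc h hw
    · exact (cone_le G (mem_closedBall_zero_iff.1 (maps hc' h' hw))).trans (b1 w hw)

lemma polar' (z : ℂ) : ∃ t : ℝ, z = (‖z‖ : ℝ) * ee t := by
  by_cases hz : z = 0
  · exact ⟨0, by simp [hz]⟩
  · exact ⟨_, polar hz⟩

lemma hat_comm {f g F G : H} (hF : Hat f F) (hG : Hat g G) (h : f * g = g * f) :
    F * G = G * F := by
  have k : EqOn (F * G : H) (G * F : H) (closedBall 0 1) :=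
    dens (F * G).continuous.continuousOn (G * F).continuous.continuousOn fun z => by
      rw [hmul, hmul, hG.1, hF.1, hF.1, hG.1, ← hmul, h, hmul]
  refine Homeomorph.ext fun z => ?_
  rcases le_total ‖z‖ 1 with hz | hz
  · exact k (mem_closedBall_zero_iff.2 hz)
  · obtain ⟨t, ht⟩ := polar' z
    have e := norm_ee_real t
    have := k (mem_closedBall_zero_iff.2 e.le)
    rw [hmul, hmul] at this
    rw [ht, hmul, hmul, hG.2.2.1 _ _ hz e, hF.2.2.1 _ _ hz e, hF.2.2.1 _ _ hz (hG.2.1 _ e),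
      hG.2.2.1 _ _ hz (hF.2.1 _ e), this]

lemma exists_rad {R : ℝ} (hR : 0 ≤ R) : ∃ a : H, deg a = 1 ∧ ∀ z, ‖z‖ ≤ R → a z = iota z := by
  have p1 : ∀ z : ℂ, 0 < 1 + min ‖z‖ R := fun z => by positivity
  have hρ : R / (1 + R) < 1 := by rw [div_lt_one (by positivity)]; linarith
  have p2 : ∀ w : ℂ, 0 < 1 - min ‖w‖ (R / (1 + R)) := fun w => by
    linarith [min_le_right ‖w‖ (R / (1 + R))]
  have c1 : Continuous fun z : ℂ => z / ((1 + min ‖z‖ R : ℝ) : ℂ) :=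
    continuous_id.div (by fun_prop) fun z => ofReal_ne_zero.2 (p1 z).ne'
  have c2 : Continuous fun w : ℂ => w / ((1 - min ‖w‖ (R / (1 + R)) : ℝ) : ℂ) :=
    continuous_id.div (by fun_prop) fun z => ofReal_ne_zero.2 (p2 z).ne'
  have hc : ((1 + R : ℝ) : ℂ)⁻¹ ≠ 0 := inv_ne_zero (ofReal_ne_zero.2 (by positivity))
  refine ⟨⟨⟨fun z => z / ((1 + min ‖z‖ R : ℝ) : ℂ),
    fun w => w / ((1 - min ‖w‖ (R / (1 + R)) : ℝ) : ℂ), fun z => ?_, fun w => ?_⟩, c1, c2⟩, ?_,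
    fun z hz => ?_⟩
  · have e : min (‖z‖ / (1 + min ‖z‖ R)) (R / (1 + R)) = min ‖z‖ R / (1 + min ‖z‖ R) := by
      have := norm_nonneg z
      rcases le_total ‖z‖ R with h | h
      · rw [min_eq_left h, min_eq_left]
        rw [div_le_div_iff₀ (by positivity) (by positivity)]; nlinarith
      · rw [min_eq_right h, min_eq_right]; gcongr
    have := p1 z
    show z / ((1 + min ‖z‖ R : ℝ) : ℂ) /
      ((1 - min ‖z / ((1 + min ‖z‖ R : ℝ) : ℂ)‖ (R / (1 + R)) : ℝ) : ℂ) = z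
    rw [norm_div, norm_real, Real.norm_eq_abs, abs_of_pos (p1 z), e, div_div, ← ofReal_mul,
      show (1 + min ‖z‖ R) * (1 - min ‖z‖ R / (1 + min ‖z‖ R)) = 1 by field_simp; ring]
    simp
  · have := p2 w
    have e : min (‖w‖ / (1 - min ‖w‖ (R / (1 + R)))) R =
        min ‖w‖ (R / (1 + R)) / (1 - min ‖w‖ (R / (1 + R))) := by
      have e' : R / (1 + R) / (1 - R / (1 + R)) = R := by field_simp; ring
      rcases le_total ‖w‖ (R / (1 + R)) with h | h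
      · rw [min_eq_left h] at this ⊢
        rw [min_eq_left]
        rw [le_div_iff₀ (by positivity)] at h
        rw [div_le_iff₀ this]; nlinarith
      · rw [min_eq_right h] at this ⊢
        rw [e', min_eq_right]
        exact e'.ge.trans (by gcongr)
    show w / ((1 - min ‖w‖ (R / (1 + R)) : ℝ) : ℂ) /
      ((1 + min ‖w / ((1 - min ‖w‖ (R / (1 + R)) : ℝ) : ℂ)‖ R : ℝ) : ℂ) = w
    rw [norm_div, norm_real, Real.norm_eq_abs, abs_of_pos (p2 w), e, div_div, ← ofReal_mul,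
      show (1 - min ‖w‖ (R / (1 + R))) * (1 + min ‖w‖ (R / (1 + R)) /
        (1 - min ‖w‖ (R / (1 + R)))) = 1 by field_simp; ring]
    simp
  · refine (deg_congr (p := ((R + 1 : ℝ) : ℂ)) ?_).trans (deg_of_mul (mulH_apply _ hc))
    filter_upwards [continuousAt_const.eventually_lt continuous_norm.continuousAt
      (show R < ‖((R + 1 : ℝ) : ℂ)‖ by
        rw [norm_real, Real.norm_eq_abs, abs_of_pos (by positivity)]; linarith)] with z hz
    show z / ((1 + min ‖z‖ R : ℝ) : ℂ) = _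
    rw [mulH_apply, min_eq_right hz.le, div_eq_inv_mul]
  · show z / ((1 + min ‖z‖ R : ℝ) : ℂ) = _
    rw [min_eq_left hz, iota]

lemma conj_eq {f F a : H} (hF : Hat f F) {R : ℝ} (ha : ∀ z, ‖z‖ ≤ R → a z = iota z) {z : ℂ}
    (h1 : ‖z‖ ≤ R) (h2 : ‖f z‖ ≤ R) : (a⁻¹ * F * a) z = f z := by
  rw [hmul, hmul, ha z h1, hF.1, ← ha _ h2, hinv_apply]

lemma hat_deg {f F : H} (hF : Hat f F) : deg F = deg f := by
  obtain ⟨R, hR⟩ := bdd_on f 1
  obtain ⟨a, -, ha⟩ := exists_rad (R := max 1 R) (le_max_of_le_left zero_le_one)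
  rw [← deg_conj F a]
  refine deg_congr (p := 0) ?_
  filter_upwards [closedBall_mem_nhds (0 : ℂ) one_pos] with z hz
  rw [mem_closedBall_zero_iff] at hz
  exact conj_eq hF ha (le_max_of_le_left hz) (le_max_of_le_right (hR z hz).le)

lemma exists_cone (h1 : S_Circ) (h2 : S_Polar) {f F : H} (hF : Hat f F) (hd : deg F = 1) :
    ∃ (F₀ : H) (φ : ℝ → ℝ), CL φ ∧ deg F₀ = 1 ∧ (∀ t : ℝ, F (ee t) = ee (φ t)) ∧
      (∀ r t : ℝ, 0 ≤ r → F₀ (r * ee t) = r * ee (φ t)) ∧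
      ∀ (c : ℝ) (hc : (c : ℂ) ≠ 0), 0 < c → ∀ z,
        ‖((mulH c hc)⁻¹ * F * mulH c hc) z - F₀ z‖ ≤ 2 / c := by
  obtain ⟨φ, hφ, e⟩ := h1 F hd hF.2.2.2
  obtain ⟨A, -, hA⟩ := h2 (fun _ _ t => φ t)
    (hφ.1.comp (continuous_snd.comp continuous_snd)).continuousOn fun _ _ _ => hφ.2
  refine ⟨A 0, φ, hφ, (hA 0).1, e, (hA 0).2, fun c hc c0 z => ?_⟩
  obtain ⟨t, ht⟩ := polar' z
  have e0 : A 0 z = (‖z‖ : ℝ) * ee (φ t) := by
    conv_lhs => rw [ht]
    exact (hA 0).2 _ _ (norm_nonneg z)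
  have e1 : (c : ℂ) * z = ((c * ‖z‖ : ℝ) : ℂ) * ee t := by
    conv_lhs => rw [ht]
    push_cast; ring
  rw [hmul, hmul, mulH_apply, mulH_inv_apply, e0]
  rcases le_total 1 (c * ‖z‖) with h | h
  · rw [e1, hF.2.2.1 _ _ h (norm_ee_real t), e,
      show (c : ℂ)⁻¹ * (((c * ‖z‖ : ℝ) : ℂ) * ee (φ t)) = (‖z‖ : ℝ) * ee (φ t) by
        push_cast; field_simp, sub_self, norm_zero]
    positivity
  · have n1 : ‖F (c * z)‖ ≤ 1 := by
      refine mem_closedBall_zero_iff.1 (hF.2.2.2 ▸ ⟨_, mem_closedBall_zero_iff.2 ?_, rfl⟩)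
      rwa [norm_mul, norm_real, Real.norm_eq_abs, abs_of_pos c0]
    refine (norm_sub_le _ _).trans ?_
    rw [norm_mul, norm_mul, norm_ee_real, mul_one, norm_inv, norm_real, norm_real,
      Real.norm_eq_abs, abs_of_pos c0, norm_norm]
    have n2 : ‖z‖ ≤ 1 / c := by rw [le_div_iff₀ c0]; linarith
    have n3 : c⁻¹ * ‖F (c * z)‖ ≤ 1 / c := by
      rw [one_div]; exact mul_le_of_le_one_right (by positivity) n1
    have : 2 / c = 1 / c + 1 / c := by ring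
    linarith

end H1

open H1 in
theorem sH_of (h1 : S_Circ) (h2 : S_Polar) (h3 : S_H2) : S_H := by
  intro f g hfg hT
  obtain ⟨F, hF⟩ := exists_hat hT.1 hT.2.1
  obtain ⟨G, hG⟩ := exists_hat hT.2.2.1 hT.2.2.2
  have hFG : (F, G) ∈ Hom :=
    ⟨(hat_deg hF).trans hfg.1, (hat_deg hG).trans hfg.2.1, hat_comm hF hG hfg.2.2⟩
  have k1 : Conn (F, G) (f, g) := by
    refine conn_lim hfg fun R ε hε => ?_
    obtain ⟨R1, hR1⟩ := bdd_on f R
    obtain ⟨R2, hR2⟩ := bdd_on g R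
    obtain ⟨a, da, ha⟩ := exists_rad (R := max (max 0 R) (max R1 R2)) (by simp)
    refine ⟨_, _, conn_conj hFG da, fun z hz => ?_⟩
    rw [conj_eq hF ha (by simp [hz]) (by simp [(hR1 z hz).le]),
      conj_eq hG ha (by simp [hz]) (by simp [(hR2 z hz).le])]
    simpa using hε
  obtain ⟨F₀, φ, hφ, d1, e1, p1, q1⟩ := exists_cone h1 h2 hF hFG.1
  obtain ⟨G₀, χ, hχ, d2, e2, p2, q2⟩ := exists_cone h1 h2 hG hFG.2.1
  have hc : F₀ * G₀ = G₀ * F₀ := by
    refine Homeomorph.ext fun z => ?_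
    obtain ⟨t, ht⟩ := polar' z
    have := congrArg (fun K : H => K (ee t)) hFG.2.2
    simp only [hmul, e1, e2] at this
    rw [ht, hmul, hmul, p1 _ _ (norm_nonneg z), p2 _ _ (norm_nonneg z), p1 _ _ (norm_nonneg z),
      p2 _ _ (norm_nonneg z), this]
  have k2 : Conn (F, G) (F₀, G₀) := by
    refine conn_lim ⟨d1, d2, hc⟩ fun R ε hε => ?_
    have c0 : 0 < 4 / ε := by positivity
    have hc : ((4 / ε : ℝ) : ℂ) ≠ 0 := ofReal_ne_zero.2 c0.ne'
    have : 2 / (4 / ε) < ε := by rw [div_lt_iff₀ c0, mul_div_cancel₀ _ hε.ne']; norm_num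
    exact ⟨_, _, conn_conj hFG (deg_of_mul (mulH_apply _ hc)), fun z _ =>
      ⟨(q1 _ hc c0 z).trans_lt this, (q2 _ hc c0 z).trans_lt this⟩⟩
  exact k1.symm.trans (k2.trans (h3 F₀ G₀ φ χ hφ hχ hc p1 p2))

end

end Pool.Agent.Lib.MP_d32f96_gt
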