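import Pool.Agent.Lib.MP_d32f96_gt.Frame

/-! Commuting cones over circle homeomorphisms are connected to the identity pair. -/

namespace Pool.Agent.Lib.MP_d32f96_gt

open Set Filter Topology Metric Complex Bornology
open Pool.Agent.Lib.MP_1e9af3_an Pool.Agent.Lib.MP_069d55_gt

noncomputable section

namespace H2

open CircleDeg1Lift Finset

/-- the bundled lift -/
def lf {φ : ℝ → ℝ} (h : CL φ) : CircleDeg1Lift := ⟨⟨φ, h.2.1.monotone⟩, h.2.2⟩

lemma lf_apply {φ : ℝ → ℝ} (h : CL φ) (x : ℝ) : lf h x = φ x := rfl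

lemma polar' (z : ℂ) : ∃ r t : ℝ, 0 ≤ r ∧ r = ‖z‖ ∧ z = r * ee t := by
  by_cases hz : z = 0
  · exact ⟨0, 0, le_rfl, by simp [hz], by simp [hz]⟩
  · exact ⟨‖z‖, targ z, norm_nonneg z, rfl, polar hz⟩

lemma cone (h : S_Polar) {φ : ℝ → ℝ} (hφ : CL φ) :
    ∃ K : H, deg K = 1 ∧ ∀ r t : ℝ, 0 ≤ r → K (r * ee t) = r * ee (φ t) := by
  obtain ⟨F, -, hF⟩ := h (fun _ _ t => φ t)
    (hφ.1.comp (continuous_snd.comp continuous_snd)).continuousOn
    fun _ _ _ => ⟨hφ.2.1, hφ.2.2⟩
  exact ⟨F 0, hF 0⟩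

lemma deg_cone (h : S_Polar) {φ : ℝ → ℝ} (hφ : CL φ) {F : H}
    (hF : ∀ r t : ℝ, 0 ≤ r → F (r * ee t) = r * ee (φ t)) : deg F = 1 := by
  obtain ⟨K, hK, hK'⟩ := cone h hφ
  have : F = K := Homeomorph.ext fun z => by
    obtain ⟨r, t, hr, -, rfl⟩ := polar' z
    rw [hF r t hr, hK' r t hr]
  rw [this, hK]

lemma commute_of {a b : CircleDeg1Lift} (ha : Continuous a) (hb : Continuous b)
    (h : ∀ t : ℝ, ee (a (b t) : ℝ) = ee (b (a t) : ℝ)) : Commute a b := by
  have hi : ∀ t ∈ (univ : Set ℝ), ∃ n : ℤ, ((a (b t) : ℝ) : ℂ) - (b (a t) : ℝ) = n := fun t _ => by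
    obtain ⟨n, hn⟩ := ee_eq_iff.1 (h t)
    exact ⟨n, by rw [hn]; ring⟩
  obtain ⟨n, hn⟩ := hi 0 trivial
  have hc : ∀ t, a (b t) = n + b (a t) := fun t => by
    have := int_const isPreconnected_univ (g := fun t : ℝ => ((a (b t) : ℝ) : ℂ) - (b (a t) : ℝ))
      (by fun_prop) hi (mem_univ t) (mem_univ 0)
    rw [hn] at this
    have h2 := congrArg Complex.re this
    simp only [sub_re, ofReal_re, intCast_re] at h2
    linarith
  have e : a * b = (translate (Multiplicative.ofAdd (n : ℝ)) : CircleDeg1Liftˣ) * (b * a) :=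
    CircleDeg1Lift.ext fun t => by rw [mul_apply, mul_apply, mul_apply, translate_apply, hc]
  have h1 : translationNumber (b * a) = translationNumber (a * b) :=
    translationNumber_eq_of_semiconjBy (f := a) (mul_assoc a b a).symm
  rw [e, translationNumber_mul_of_commute (g := b * a) (commute_iff_commute.2 fun t => by
    rw [translate_apply, translate_apply, map_int_add]), translationNumber_translate] at h1
  have h0 : (n : ℝ) = 0 := by linarith
  exact CircleDeg1Lift.ext fun t => by rw [mul_apply, mul_apply, hc, h0, zero_add]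

lemma abs_le (a : CircleDeg1Lift) (x : ℝ) : |a x - x - translationNumber a| ≤ 1 := by
  have h1 := a.map_lt_add_translationNumber_add_one x
  have h2 := a.lt_map_of_int_lt_translationNumber (n := ⌈translationNumber a⌉ - 1)
    (by push_cast; linarith [Int.ceil_lt_add_one (translationNumber a)]) x
  push_cast at h2
  rw [_root_.abs_le]
  constructor <;> linarith [Int.le_ceil (translationNumber a)]

/-- the double average -/
def av (a b : CircleDeg1Lift) (N : ℕ) (x : ℝ) : ℝ :=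
  (∑ i ∈ range N, ∑ j ∈ range N, (a ^ i) ((b ^ j) x)) / (N : ℝ) ^ 2

lemma av_comm {a b : CircleDeg1Lift} (h : Commute a b) (N : ℕ) (x : ℝ) :
    av a b N x = av b a N x := by
  unfold av
  rw [sum_comm]
  congr 1
  refine sum_congr rfl fun i _ => sum_congr rfl fun j _ => ?_
  rw [← mul_apply, (h.pow_pow j i).eq, mul_apply]

lemma strictMono_pow {a : CircleDeg1Lift} (ha : StrictMono a) (n : ℕ) : StrictMono (a ^ n :) := by
  rw [coe_pow]; exact ha.iterate n

lemma cl_av {a b : CircleDeg1Lift} (ha : CL a) (hb : CL b) {N : ℕ} (hN : 0 < N) :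
    CL (av a b N) := by
  have h0 : (0 : ℝ) < (N : ℝ) ^ 2 := by positivity
  refine ⟨?_, fun x y hxy => ?_, fun x => ?_⟩
  · exact (continuous_finsetSum _ fun i _ => continuous_finsetSum _ fun j _ =>
      (a.continuous_pow ha.1 i).comp (b.continuous_pow hb.1 j)).div_const _
  · refine div_lt_div_of_pos_right ?_ h0
    refine sum_lt_sum_of_nonempty (nonempty_range_iff.2 hN.ne') fun i _ =>
      sum_lt_sum_of_nonempty (nonempty_range_iff.2 hN.ne') fun j _ => ?_
    exact strictMono_pow ha.2.1 i (strictMono_pow hb.2.1 j hxy)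
  · unfold av
    simp only [map_add_one, sum_add_distrib, sum_const, card_range, nsmul_eq_mul]
    field_simp

lemma av_step {a b : CircleDeg1Lift} (h : Commute a b) {N : ℕ} (hN : 0 < N) (x : ℝ) :
    |av a b N (a x) - av a b N x - translationNumber a| ≤ 1 / N := by
  have h0 : (0 : ℝ) < N := by positivity
  have e1 : ∀ i j, (a ^ i) ((b ^ j) (a x)) = (a ^ (i + 1)) ((b ^ j) x) := fun i j => by
    rw [← mul_apply (b ^ j), ← (h.pow_right j).eq, mul_apply, ← mul_apply (a ^ i), ← pow_succ]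
  have e2 : av a b N (a x) - av a b N x - translationNumber a =
      (∑ j ∈ range N, ((a ^ N) ((b ^ j) x) - (b ^ j) x - translationNumber (a ^ N))) /
        (N : ℝ) ^ 2 := by
    have e3 : ∀ j, (a ^ N) ((b ^ j) x) - (b ^ j) x =
        ∑ i ∈ range N, ((a ^ (i + 1)) ((b ^ j) x) - (a ^ i) ((b ^ j) x)) := fun j => by
      rw [sum_range_sub (fun i => (a ^ i) ((b ^ j) x))]; simp
    unfold av
    simp only [e1, e3, translationNumber_pow, sum_sub_distrib, sum_const, card_range,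
      nsmul_eq_mul]
    rw [sum_comm (f := fun i j => (a ^ (i + 1)) ((b ^ j) x)),
      sum_comm (f := fun i j => (a ^ i) ((b ^ j) x))]
    field_simp
  rw [e2, abs_div, abs_of_pos (by positivity : (0 : ℝ) < (N : ℝ) ^ 2), div_le_div_iff₀
    (by positivity) h0]
  have := (abs_sum_le_sum_abs _ _).trans (sum_le_sum (s := range N) fun j _ =>
    abs_le (a ^ N) ((b ^ j) x))
  simp only [sum_const, card_range, nsmul_eq_mul, mul_one] at this
  nlinarith

/-- rotation -/
def rot (ρ : ℝ) : H := mulH (ee ρ) (ee_ne _)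

lemma rot_apply (ρ : ℝ) (z : ℂ) : rot ρ z = ee ρ * z := rfl

lemma rot_hom (ρ σ : ℝ) : (rot ρ, rot σ) ∈ Hom :=
  ⟨deg_of_mul (rot_apply ρ), deg_of_mul (rot_apply σ), Homeomorph.ext fun z => by
    simp only [hmul, rot_apply]; ring⟩

lemma conn_rot (ρ σ : ℝ) : Conn (rot ρ, rot σ) (1, 1) := by
  have hc : ∀ ρ : ℝ, Continuous fun t : ℝ => rot (t * ρ) := fun ρ => cont_iff.2 (by
    simp only [rot_apply]
    exact (continuous_ee.comp (by fun_prop)).mul continuous_snd)
  have h0 : rot 0 = 1 := Homeomorph.ext fun z => by simp [rot_apply, ee_zero]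
  have := conn_path (hc ρ) (hc σ) fun t _ => rot_hom _ _
  simp only [zero_mul, one_mul, h0] at this
  exact this.symm

lemma close {R ε : ℝ} (hε : 0 < ε) : ∃ δ > 0, ∀ (F K : H) (φ u : ℝ → ℝ) (ρ : ℝ),
    (∀ r t : ℝ, 0 ≤ r → F (r * ee t) = r * ee (φ t)) →
    (∀ r t : ℝ, 0 ≤ r → K (r * ee t) = r * ee (u t)) → (∀ x, |u (φ x) - u x - ρ| < δ) →
    ∀ z, ‖z‖ ≤ R → ‖(K⁻¹⁻¹ * F * K⁻¹) z - rot ρ z‖ < ε := by
  have hc : Continuous fun d : ℝ => |R| * ‖ee d - 1‖ := by
    have := continuous_ee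
    fun_prop
  obtain ⟨δ, hδ, hb⟩ := Metric.eventually_nhds_iff.1 (hc.continuousAt.eventually_lt
    (x₀ := 0) (continuousAt_const (y := ε)) (by simpa [ee_zero] using hε))
  refine ⟨δ, hδ, fun F K φ u ρ hF hK hu z hz => ?_⟩
  obtain ⟨r, t, hr, -, e⟩ := polar' (K⁻¹ z)
  have ez : z = r * ee (u t) := by rw [← hK r t hr, ← e, happly_inv]
  have hrR : r ≤ |R| := by
    rw [ez, norm_mul, norm_ee_real, mul_one, norm_real, Real.norm_of_nonneg hr] at hz
    exact hz.trans (le_abs_self R)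
  rw [inv_inv, hmul, hmul, e, hF r t hr, hK r _ hr, rot_apply, ez]
  have e2 : (r : ℂ) * ee (u (φ t) : ℝ) - ee ρ * (r * ee (u t : ℝ)) =
      r * ee (ρ + u t : ℝ) * (ee (u (φ t) - u t - ρ : ℝ) - 1) := by
    rw [mul_sub, mul_assoc, ← ee_add, mul_one]
    congr 1
    · congr 2; push_cast; ring
    · push_cast; rw [ee_add]; ring
  rw [e2, norm_mul, norm_mul, norm_ee_real, mul_one, norm_real, Real.norm_of_nonneg hr]
  refine lt_of_le_of_lt (mul_le_mul_of_nonneg_right hrR (norm_nonneg _)) (hb ?_)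
  rw [dist_zero_right]
  exact hu t

end H2

open H2 in
theorem sH2_of (h : S_Polar) : S_H2 := by
  intro F G φ χ hφ hχ hFG hF hG
  have hp : (F, G) ∈ Hom := ⟨deg_cone h hφ hF, deg_cone h hχ hG, hFG⟩
  have hc : Commute (lf hφ) (lf hχ) := commute_of hφ.1 hχ.1 fun t => by
    have h1 := congrArg (fun K : H => K ((1 : ℝ) * ee t)) hFG
    simp only [hmul] at h1
    rw [hG 1 t zero_le_one, hF 1 _ zero_le_one, hF 1 t zero_le_one, hG 1 _ zero_le_one] at h1
    simpa [lf_apply] using h1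
  refine Conn.trans ?_ (conn_rot (lf hφ).translationNumber (lf hχ).translationNumber)
  refine conn_lim (rot_hom _ _) fun R ε hε => ?_
  obtain ⟨δ, hδ, hb⟩ := close (R := R) hε
  obtain ⟨n, hn⟩ := exists_nat_one_div_lt hδ
  obtain ⟨K, hK, hK'⟩ := cone h (cl_av (a := lf hφ) (b := lf hχ) hφ hχ n.succ_pos)
  refine ⟨_, _, conn_conj hp (deg_inv hK), fun z hz => ⟨hb F K φ _ _ hF hK' (fun x => ?_) z hz,
    hb G K χ _ _ hG hK' (fun x => ?_) z hz⟩⟩
  · exact (av_step hc n.succ_pos x).trans_lt (by exact_mod_cast hn)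
  · rw [av_comm hc, av_comm hc]
    exact (av_step hc.symm n.succ_pos x).trans_lt (by exact_mod_cast hn)

end

end Pool.Agent.Lib.MP_d32f96_gt
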