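import Pool.Agent.Lib.MP_d32f96_gt.Frame

/-! Job I: the non cocompact case, by lifting to the universal cover of an invariant domain. -/

namespace Pool.Agent.Lib.MP_d32f96_gt

open Set Filter Topology Metric Complex Bornology
open Pool.Agent.Lib.MP_1e9af3_an Pool.Agent.Lib.MP_069d55_gt

noncomputable section

namespace JI

/-- the data given by uniformisation -/
structure Cov (q : ℂ → ℂ) (U : Set ℂ) : Prop where
  cont : Continuous q
  mem : ∀ z, q z ∈ U
  cov : IsCoveringMapOn q U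
  zero : q 0 = 0

variable {q : ℂ → ℂ} {U : Set ℂ}

lemma Cov.lift (h : Cov q U) {A : Type} [TopologicalSpace A] [SimplyConnectedSpace A]
    [LocallyPathConnectedSpace A] {φ : A → ℂ} (hφ : Continuous φ) (hU : ∀ a, φ a ∈ U) {a₀ : A}
    {e₀ : ℂ} (he : q e₀ = φ a₀) : ∃ F : A → ℂ, Continuous F ∧ F a₀ = e₀ ∧ ∀ a, q (F a) = φ a := by
  obtain ⟨F, ⟨h1, h2⟩, -⟩ := h.cov.existsUnique_continuousMap_lifts ⟨φ, hφ⟩ (a₀ := a₀) (e₀ := e₀) he hU
  exact ⟨F, F.continuous, h1, fun a => congrFun h2 a⟩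

lemma Cov.uniq (h : Cov q U) {s : Set ℂ} (hs : IsPreconnected s) {F G : ℂ → ℂ}
    (hF : Continuous F) (hG : Continuous G) (he : ∀ z ∈ s, q (F z) = q (G z)) {a : ℂ} (ha : a ∈ s)
    (h0 : F a = G a) : ∀ z ∈ s, F z = G z := by
  have h1 : IsLocalHomeomorph q := by
    rw [isLocalHomeomorph_iff_isLocalHomeomorphOn_univ]
    have := h.cov.isLocalHomeomorphOn
    rwa [show q ⁻¹' U = univ from eq_univ_of_forall h.mem] at this
  exact (T2Space.isSeparatedMap q).eqOn_of_comp_eqOn h1.isLocallyInjective hs hF.continuousOn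
    hG.continuousOn he ha h0

/-- lifting a homeomorphism preserving `U` -/
lemma Cov.lift_homeo (h : Cov q U) (s : H) (h1 : ∀ z ∈ U, s z ∈ U) (h2 : ∀ z ∈ U, s⁻¹ z ∈ U)
    (h0 : q (s 0) = s 0) : ∃ F : H, F 0 = s 0 ∧ ∀ z, q (F z) = s (q z) := by
  obtain ⟨F, hF, F0, hq⟩ := h.lift (φ := fun z => s (q z)) (s.continuous.comp h.cont)
    (fun z => h1 _ (h.mem z)) (a₀ := 0) (e₀ := s 0) (by rw [h0, h.zero])
  obtain ⟨G, hG, G0, gq⟩ := h.lift (φ := fun z => s⁻¹ (q z)) ((s⁻¹ : H).continuous.comp h.cont)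
    (fun z => h2 _ (h.mem z)) (a₀ := s 0) (e₀ := 0) (by rw [h0, h.zero, hinv_apply])
  have l1 : ∀ z, G (F z) = z := fun z =>
    h.uniq isPreconnected_univ (F := fun z => G (F z)) (G := id) (hG.comp hF) continuous_id
      (fun z _ => by rw [gq, hq, hinv_apply]; rfl) (mem_univ 0) (by simp [F0, G0]) z (mem_univ z)
  have l2 : ∀ z, F (G z) = z := fun z =>
    h.uniq isPreconnected_univ (F := fun z => F (G z)) (G := id) (hF.comp hG) continuous_id
      (fun z _ => by rw [hq, gq, happly_inv]; rfl) (mem_univ (s 0)) (by simp [F0, G0]) z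
      (mem_univ z)
  exact ⟨⟨⟨F, G, l1, l2⟩, hF, hG⟩, F0, hq⟩

lemma semi_zpow {F s : H} (h : ∀ z, q (F z) = s (q z)) (n : ℤ) (z : ℂ) :
    q ((F ^ n) z) = (s ^ n) (q z) := by
  have hi : ∀ z, q (F⁻¹ z) = s⁻¹ (q z) := fun z =>
    (hinv_eq (by rw [← h, happly_inv])).symm
  induction n using Int.induction_on generalizing z with
  | zero => simp
  | succ n ih => rw [zpow_add_one, zpow_add_one, hmul, hmul, ih, h]
  | pred n ih => rw [zpow_sub_one, zpow_sub_one, hmul, hmul, ih, hi]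

lemma semi_wd {F G f g : H} (hf : ∀ z, q (F z) = f (q z)) (hg : ∀ z, q (G z) = g (q z))
    (p : ℤ × ℤ) (z : ℂ) : q (wd F G p z) = wd f g p (q z) := by
  simp only [wd, hmul, semi_zpow hf, semi_zpow hg]

def ray (u : ℂ) : Set ℂ := {z | ∃ t : ℝ, 0 ≤ t ∧ z = t * u}

/-- the lift of a ray from the origin is unbounded -/
lemma Cov.ray_unbdd (h : Cov q U) (hU : IsOpen U) {u : ℂ} (hu : ‖u‖ = 1) :
    ¬ IsBounded (connectedComponentIn (q ⁻¹' ray u) 0) := by
  intro hb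
  obtain ⟨M, hM⟩ := hb.subset_closedBall 0
  have hK : IsCompact (q '' closedBall 0 M) := (isCompact_closedBall 0 M).image h.cont
  have hKU : q '' closedBall 0 M ⊆ U := by rintro _ ⟨z, -, rfl⟩; exact h.mem z
  have key : ∀ T : ℝ, 0 ≤ T → (∀ s ∈ Icc 0 T, (s : ℂ) * u ∈ U) →
      (T : ℂ) * u ∈ q '' closedBall 0 M := by
    intro T hT hS
    have hm : ∀ s : ℝ, max 0 (min s T) ∈ Icc 0 T := fun s =>
      ⟨le_max_left _ _, max_le hT (min_le_right _ _)⟩
    obtain ⟨d, hd, d0, hq⟩ := h.lift (A := ℝ) (φ := fun s => ((max 0 (min s T) : ℝ) : ℂ) * u)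
      (by fun_prop) (fun s => hS _ (hm s)) (a₀ := 0) (e₀ := 0) (by simp [h.zero, hT])
    have : range d ⊆ connectedComponentIn (q ⁻¹' ray u) 0 :=
      (isPreconnected_range hd).subset_connectedComponentIn ⟨0, d0⟩ (by
        rintro _ ⟨s, rfl⟩
        exact ⟨_, (hm s).1, hq s⟩)
    exact ⟨d T, hM (this ⟨T, rfl⟩), by rw [hq]; simp [hT]⟩
  obtain ⟨B, hB⟩ := hK.isBounded.exists_norm_le
  have hc : Continuous fun s : ℝ => (s : ℂ) * u := by fun_prop
  have h0 : ((0 : ℝ) : ℂ) * u ∈ q '' closedBall 0 M :=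
    key 0 le_rfl fun s hs => by
      rw [le_antisymm hs.2 hs.1]; simpa [h.zero] using h.mem 0
  have hI : Icc 0 (|B| + 1) ⊆ {s : ℝ | (s : ℂ) * u ∈ q '' closedBall 0 M} := by
    refine IsClosed.Icc_subset_of_forall_mem_nhdsGT_of_Icc_subset
      ((hK.isClosed.preimage hc).inter isClosed_Icc) h0 fun t ht hI => ?_
    have hn : {s : ℝ | (s : ℂ) * u ∈ U} ∈ 𝓝 t :=
      (hU.preimage hc).mem_nhds (hKU (hI ⟨ht.1, le_rfl⟩))
    obtain ⟨δ, hδ, hb⟩ := Metric.mem_nhds_iff.1 hn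
    filter_upwards [Ioo_mem_nhdsGT (show t < t + δ by linarith)] with T hT
    refine key T (ht.1.trans hT.1.le) fun s hs => ?_
    rcases le_total s t with h1 | h1
    · exact hKU (hI ⟨hs.1, h1⟩)
    · refine hb ?_
      rw [mem_ball, Real.dist_eq, abs_lt]
      constructor <;> linarith [hs.2, hT.2]
  have := hB _ (hI ⟨by positivity, le_rfl⟩)
  rw [norm_mul, hu, mul_one, norm_real, Real.norm_eq_abs, abs_of_pos (by positivity)] at this
  linarith [le_abs_self B]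

lemma exists_dir {a b : ℂ} (ha : a ≠ 0) (hb : b ≠ 0) :
    ∃ u : ℂ, ‖u‖ = 1 ∧ IsClosed (ray u) ∧ a ∉ ray u ∧ b ∉ ray u := by
  have e1 : ray 1 = {z | 0 ≤ z.re ∧ z.im = 0} := by
    ext z; constructor
    · rintro ⟨t, ht, rfl⟩; simpa using ht
    · rintro ⟨h1, h2⟩; exact ⟨z.re, h1, Complex.ext (by simp) (by simpa using h2)⟩
  have e2 : ray (-1) = {z | z.re ≤ 0 ∧ z.im = 0} := by
    ext z; constructor
    · rintro ⟨t, ht, rfl⟩; simpa using ht
    · rintro ⟨h1, h2⟩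
      exact ⟨-z.re, by linarith, Complex.ext (by simp) (by simpa using h2)⟩
  have e3 : ray I = {z | z.re = 0 ∧ 0 ≤ z.im} := by
    ext z; constructor
    · rintro ⟨t, ht, rfl⟩; simpa using ht
    · rintro ⟨h1, h2⟩; exact ⟨z.im, h2, Complex.ext (by simpa using h1) (by simp)⟩
  have c1 : IsClosed (ray 1) := e1 ▸
    (isClosed_le continuous_const continuous_re).inter (isClosed_eq continuous_im continuous_const)
  have c2 : IsClosed (ray (-1)) := e2 ▸
    (isClosed_le continuous_re continuous_const).inter (isClosed_eq continuous_im continuous_const)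
  have c3 : IsClosed (ray I) := e3 ▸
    (isClosed_eq continuous_re continuous_const).inter (isClosed_le continuous_const continuous_im)
  have ne : ∀ z : ℂ, z ≠ 0 → z.im = 0 → z.re ≠ 0 := fun z hz h1 h2 =>
    hz (Complex.ext h2 h1)
  by_contra hcon
  push Not at hcon
  have k1 := hcon 1 (by simp) c1
  have k2 := hcon (-1) (by simp) c2
  have k3 := hcon I (by simp) c3
  rw [e1] at k1; rw [e2] at k2; rw [e3] at k3
  simp only [mem_ofPred_eq] at k1 k2 k3
  have ha' := ne a ha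
  have hb' := ne b hb
  by_cases p1 : 0 ≤ a.re ∧ a.im = 0
  · have q2 := k2 fun h => ha' h.2 (le_antisymm h.1 p1.1)
    have q3 := k3 fun h => ha' p1.2 h.1
    exact hb' q2.2 q3.1
  · have q1 := k1 p1
    by_cases p2 : a.re ≤ 0 ∧ a.im = 0
    · exact hb' q1.2 (k3 fun h => ha' p2.2 h.1).1
    · exact hb' q1.2 (le_antisymm (k2 p2).1 q1.1)

lemma tendsto_frac (a : ℂ) :
    Tendsto (fun t : ℝ => ((t ^ 2 / (1 + t ^ 2) : ℝ) : ℂ) * a) atTop (𝓝 a) := by
  have h1 : Tendsto (fun t : ℝ => 1 - (1 + t ^ 2)⁻¹) atTop (𝓝 (1 - 0)) :=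
    tendsto_const_nhds.sub (tendsto_inv_atTop_zero.comp
      (tendsto_atTop_add_const_left _ _ (tendsto_pow_atTop two_ne_zero)))
  have h2 : Tendsto (fun t : ℝ => t ^ 2 / (1 + t ^ 2)) atTop (𝓝 1) := by
    rw [sub_zero] at h1
    refine h1.congr fun t => ?_
    field_simp; ring
  simpa using ((continuous_ofReal.tendsto 1).comp h2).mul_const a

/-- the lifted pair has a chain -/
lemma Cov.chain (h : Cov q U) (hU : IsOpen U) {F G f g : H} (hf : ∀ z, q (F z) = f (q z))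
    (hg : ∀ z, q (G z) = g (q z)) {a : ℂ} (hb : ball 0 ‖a‖ ⊆ U) (ha : ∀ p, wd f g p a ∉ U) :
    Chain F G := by
  have h0U : (0 : ℂ) ∈ U := h.zero ▸ h.mem 0
  have haU : a ∉ U := by simpa [wd_zero, hone] using ha 0
  have ha0 : a ≠ 0 := fun e => haU (e ▸ h0U)
  obtain ⟨c, hc, -, hq⟩ := h.lift (A := ℝ) (φ := fun t => ((t ^ 2 / (1 + t ^ 2) : ℝ) : ℂ) * a)
    ((continuous_ofReal.comp (Continuous.div (by fun_prop) (by fun_prop)
      fun t => by positivity)).mul continuous_const)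
    (fun t => hb (by
      rw [mem_ball_zero_iff, norm_mul, norm_real, Real.norm_eq_abs, abs_of_nonneg (by positivity)]
      refine mul_lt_of_lt_one_left (norm_pos_iff.2 ha0) ?_
      rw [div_lt_one (by positivity)]; linarith)) (a₀ := 0) (e₀ := 0) (by simp [h.zero])
  have near : ∀ V ∈ 𝓝 a, ∀ᶠ n : ℕ in atTop, ∀ t : ℝ, (n : ℝ) ≤ t → q (c t) ∈ V := fun V hV => by
    obtain ⟨T, hT⟩ := eventually_atTop.1 ((tendsto_frac a).eventually hV)
    filter_upwards [tendsto_natCast_atTop_atTop.eventually_ge_atTop T] with n hn t ht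
    rw [hq]; exact hT t (hn.trans ht)
  refine ⟨fun n => c '' Icc (n : ℝ) (n + 1), ⟨fun n => isCompact_Icc.image hc,
    fun n => isPreconnected_Icc.image _ hc.continuousOn,
    fun n => ⟨c (n + 1), ⟨n + 1, ⟨by linarith, le_rfl⟩, rfl⟩,
      ⟨n + 1, ⟨by push_cast; exact le_rfl, by push_cast; linarith⟩, rfl⟩⟩, fun R => ?_⟩, fun p => ?_⟩
  · have hK : IsCompact (q '' closedBall 0 R) := (isCompact_closedBall 0 R).image h.cont
    have : (q '' closedBall 0 R)ᶜ ∈ 𝓝 a := hK.isClosed.isOpen_compl.mem_nhds (by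
      rintro ⟨z, -, e⟩; exact haU (e ▸ h.mem z))
    filter_upwards [near _ this] with n hn
    rintro _ ⟨t, ht, rfl⟩
    by_contra hlt
    exact hn t ht.1 ⟨c t, mem_closedBall_zero_iff.2 (not_le.1 hlt).le, rfl⟩
  · obtain ⟨u, hu, hcl, h1, h2⟩ := exists_dir ha0 (b := wd f g p a) fun e => ha p (e ▸ h0U)
    have hV : (ray u)ᶜ ∩ wd f g p ⁻¹' (ray u)ᶜ ∈ 𝓝 a :=
      (hcl.isOpen_compl.inter (hcl.isOpen_compl.preimage (wd f g p).continuous)).mem_nhds ⟨h1, h2⟩
    obtain ⟨n, hn⟩ := (near _ hV).exists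
    refine ⟨n, fun K _ hKA hbd => h.ray_unbdd hU hu (hbd.subset ?_)⟩
    have tail : ∀ y ∈ tl (fun n : ℕ => c '' Icc (n : ℝ) (n + 1)) n,
        q y ∈ (ray u)ᶜ ∩ wd f g p ⁻¹' (ray u)ᶜ := by
      intro y hy
      simp only [tl, mem_iUnion] at hy
      obtain ⟨j, hj, t, ht, rfl⟩ := hy
      exact hn t (le_trans (by exact_mod_cast hj) ht.1)
    refine connectedComponentIn_mono 0 fun z hz hzK => ?_
    rcases hKA hzK with hy | ⟨y, hy, rfl⟩
    · exact (tail z hy).1 hz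
    · exact (tail y hy).2 (by rw [← semi_wd hf hg]; exact hz)

end JI

open JI in
theorem sI_of (h1 : S_Unif) (h2 : S_CT) : S_I := by
  intro f g hfg hnc
  have hcm : f * g = g * f := hfg.2.2
  refine (conn_lim hfg fun ρ ε hε => ?_).symm
  set ρ' := max (max ρ 1) (max ‖f 0‖ ‖g 0‖) with hρ'
  have hρ1 : 1 ≤ ρ' := (le_max_right _ _).trans (le_max_left _ _)
  obtain ⟨r1, hr1⟩ := bdd_on f ρ'
  obtain ⟨r2, hr2⟩ := bdd_on g ρ'
  set r := max ρ' (max r1 r2) with hr
  have hrf : ∀ z, ‖z‖ ≤ ρ' → ‖f z‖ ≤ r := fun z hz =>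
    (hr1 z hz).le.trans ((le_max_left _ _).trans (le_max_right _ _))
  have hrg : ∀ z, ‖z‖ ≤ ρ' → ‖g z‖ ≤ r := fun z hz =>
    (hr2 z hz).le.trans ((le_max_right _ _).trans (le_max_right _ _))
  have hρr : ρ' ≤ r := le_max_left _ _
  obtain ⟨x, hx⟩ : ∃ x, ∀ p, r + 1 ≤ ‖wd f g p x‖ := by
    have := hnc (r + 1)
    simp only [Coc, not_forall, not_exists, not_lt] at this
    exact this
  set X := closure (range fun p => wd f g p x) with hX
  have hXn : ∀ y ∈ X, r + 1 ≤ ‖y‖ := fun y hy =>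
    closure_minimal (t := {y | r + 1 ≤ ‖y‖}) (by rintro _ ⟨p, rfl⟩; exact hx p)
      (isClosed_le continuous_const continuous_norm) hy
  have hXi : ∀ p, ∀ y ∈ X, wd f g p y ∈ X := fun p y hy =>
    map_mem_closure (wd f g p).continuous hy (by
      rintro _ ⟨p', rfl⟩
      exact ⟨p + p', by simp only [wd_add hcm, hmul]⟩)
  have hXc : ∀ p y, y ∉ X → wd f g p y ∉ X := fun p y hy h => hy (by
    have := hXi (-p) _ h
    rwa [wd_neg hcm, hinv_apply] at this)
  obtain ⟨a, haX, hamin⟩ : ∃ a ∈ X, ∀ y ∈ X, ‖a‖ ≤ ‖y‖ := by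
    obtain ⟨a, ha, hm⟩ := isClosed_closure.exists_infDist_eq_dist
      (s := X) ⟨_, subset_closure ⟨0, rfl⟩⟩ 0
    refine ⟨a, ha, fun y hy => ?_⟩
    have := infDist_le_dist_of_mem (x := (0 : ℂ)) hy
    rw [hm] at this
    simpa using this
  set U := connectedComponentIn Xᶜ 0 with hU
  have hUo : IsOpen U := isClosed_closure.isOpen_compl.connectedComponentIn
  have hra : r < ‖a‖ := by linarith [hXn a haX]
  have hb : ball 0 ‖a‖ ⊆ U :=
    (convex_ball 0 _).isPreconnected.subset_connectedComponentIn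
      (mem_ball_self (by linarith)) fun y hy hyX => (mem_ball_zero_iff.1 hy).not_ge (hamin y hyX)
  have hUX : U ⊆ Xᶜ := connectedComponentIn_subset _ _
  have h0U : (0 : ℂ) ∈ U := hb (mem_ball_self (by linarith))
  -- invariance of U
  have inv : ∀ p, wd f g p 0 ∈ U → (∀ z ∈ U, wd f g p z ∈ U) ∧ ∀ z ∈ U, (wd f g p)⁻¹ z ∈ U := by
    intro p hp
    have step : ∀ (p : ℤ × ℤ) (y : ℂ), y ∈ U → wd f g p y ∈ U → ∀ z ∈ U, wd f g p z ∈ U := by
      intro p y hy hy' z hz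
      rw [hU, connectedComponentIn_eq hy']
      exact (isPreconnected_connectedComponentIn.image _
        (wd f g p).continuous.continuousOn).subset_connectedComponentIn ⟨y, hy, rfl⟩
        (by rintro _ ⟨w, hw, rfl⟩; exact hXc p w (hUX hw)) ⟨z, hz, rfl⟩
    refine ⟨step p 0 h0U hp, ?_⟩
    rw [← wd_neg hcm]
    exact step (-p) _ hp (by rw [wd_neg hcm, hinv_apply]; exact h0U)
  have ef : wd f g (1, 0) = f := by simp [wd]
  have eg : wd f g (0, 1) = g := by simp [wd]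
  have h0 : ‖(0 : ℂ)‖ ≤ ρ' := by simp; linarith
  have invf := inv (1, 0) (by rw [ef]; exact hb (mem_ball_zero_iff.2 ((hrf 0 h0).trans_lt hra)))
  have invg := inv (0, 1) (by rw [eg]; exact hb (mem_ball_zero_iff.2 ((hrg 0 h0).trans_lt hra)))
  rw [ef] at invf; rw [eg] at invg
  obtain ⟨q, qc, qm, qcov, qid⟩ := h1 U r ‖a‖ hUo isPreconnected_connectedComponentIn
    (by linarith) hra hb
  have hq : Cov q U := ⟨qc, qm, qcov, qid 0 (h0.trans hρr)⟩
  obtain ⟨F, F0, hF⟩ := hq.lift_homeo f invf.1 invf.2 (qid _ (hrf 0 h0))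
  obtain ⟨G, G0, hG⟩ := hq.lift_homeo g invg.1 invg.2 (qid _ (hrg 0 h0))
  have agree : ∀ S s : H, S 0 = s 0 → (∀ z, q (S z) = s (q z)) → (∀ z, ‖z‖ ≤ ρ' → ‖s z‖ ≤ r) →
      ∀ z, ‖z‖ ≤ ρ' → S z = s z := fun S s S0 hS hs z hz =>
    hq.uniq (s := closedBall 0 ρ') (convex_closedBall 0 _).isPreconnected S.continuous s.continuous
      (fun w hw => by
        have hw' := mem_closedBall_zero_iff.1 hw
        rw [hS, qid w (hw'.trans hρr), qid _ (hs w hw')])
      (mem_closedBall_zero_iff.2 h0) S0 z (mem_closedBall_zero_iff.2 hz)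
  have aF := agree F f F0 hF hrf
  have aG := agree G g G0 hG hrg
  have hn : ∀ᶠ z in 𝓝 (0 : ℂ), ‖z‖ ≤ ρ' := by
    filter_upwards [closedBall_mem_nhds (0 : ℂ) (show 0 < ρ' by linarith)] with z hz
    exact mem_closedBall_zero_iff.1 hz
  have hHom : (F, G) ∈ Hom := by
    refine ⟨(deg_congr (hn.mono aF)).trans hfg.1, (deg_congr (hn.mono aG)).trans hfg.2.1, ?_⟩
    have e : ∀ z, f (g z) = g (f z) := fun z => congrArg (fun S : H => S z) hcm
    refine Homeomorph.ext fun z => hq.uniq isPreconnected_univ (F * G : H).continuous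
      (G * F : H).continuous (fun w _ => ?_) (mem_univ 0) ?_ z (mem_univ z)
    · simp only [hmul, hF, hG, e]
    · simp only [hmul, F0, G0]
      rw [aF _ ((le_max_right _ _).trans (le_max_right _ _)),
        aG _ ((le_max_left _ _).trans (le_max_right _ _)), e]
  refine ⟨F, G, (h2 F G hHom (hq.chain hUo hF hG hb fun p hp => hUX hp (hXi p a haX))).symm,
    fun z hz => ?_⟩
  have hz' : ‖z‖ ≤ ρ' := hz.trans ((le_max_left _ _).trans (le_max_left _ _))
  simp [aF z hz', aG z hz', hε]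

end

end Pool.Agent.Lib.MP_d32f96_gt
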