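import Pool.Agent.Lib.MP_d32f96_gt.Frame

/-! Plane geometry of the set of directions, and the first touching argument. -/

namespace Pool.Agent.Lib.MP_d32f96_gt

open Set Filter Topology Metric Bornology

namespace J01

lemma rat_dir {S : Set ℂ} (hS : IsCompact S) (h1 : ∀ ν ∈ S, ‖ν‖ = 1) (u : ℂ)
    (hu : ∀ ν ∈ S, u.re * ν.re + u.im * ν.im < 0) :
    ∃ σ : ℤ × ℤ, IsCoprime σ.1 σ.2 ∧ ∀ ν ∈ S, ip σ ν < 0 := by
  rcases S.eq_empty_or_nonempty with rfl | hne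
  · exact ⟨(1, 0), isCoprime_one_left, by simp⟩
  obtain ⟨μ, hμ, hmax⟩ := hS.exists_isMaxOn hne
    (f := fun ν : ℂ => u.re * ν.re + u.im * ν.im) (by fun_prop)
  have hc := hu μ hμ
  set c := -(u.re * μ.re + u.im * μ.im) with hcd
  have hc0 : 0 < c := by linarith
  set N : ℝ := 3 / c with hN
  have hN0 : 0 < N := by positivity
  have hNc : N * c = 3 := by rw [hN]; field_simp
  have key : ∀ ν ∈ S, ip (⌊N * u.re⌋, ⌊N * u.im⌋) ν < 0 := by
    intro ν hν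
    have e1 : |ν.re| ≤ 1 := (h1 ν hν) ▸ Complex.abs_re_le_norm ν
    have e2 : |ν.im| ≤ 1 := (h1 ν hν) ▸ Complex.abs_im_le_norm ν
    have m1 : u.re * ν.re + u.im * ν.im ≤ -c := by
      have : u.re * ν.re + u.im * ν.im ≤ u.re * μ.re + u.im * μ.im := hmax hν
      linarith
    have a1 := Int.floor_le (N * u.re)
    have a2 := Int.lt_floor_add_one (N * u.re)
    have b1 := Int.floor_le (N * u.im)
    have b2 := Int.lt_floor_add_one (N * u.im)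
    have t1 : ((⌊N * u.re⌋ : ℝ) - N * u.re) * ν.re ≤ 1 := by
      refine (le_abs_self _).trans ?_
      rw [abs_mul]
      exact mul_le_one₀ (abs_le.2 ⟨by linarith, by linarith⟩) (abs_nonneg _) e1
    have t2 : ((⌊N * u.im⌋ : ℝ) - N * u.im) * ν.im ≤ 1 := by
      refine (le_abs_self _).trans ?_
      rw [abs_mul]
      exact mul_le_one₀ (abs_le.2 ⟨by linarith, by linarith⟩) (abs_nonneg _) e2
    have t3 := mul_le_mul_of_nonneg_left m1 hN0.le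
    simp only [ip]
    nlinarith
  have hg : 0 < Int.gcd ⌊N * u.re⌋ ⌊N * u.im⌋ := by
    rw [Nat.pos_iff_ne_zero, Ne, Int.gcd_eq_zero_iff]
    rintro ⟨e1, e2⟩
    have := key μ hμ
    simp [ip, e1, e2] at this
  obtain ⟨m, n, hmn, hm, hn⟩ := Int.exists_gcd_one hg
  refine ⟨(m, n), Int.isCoprime_iff_gcd_eq_one.2 hmn, fun ν hν => ?_⟩
  have h2 := key ν hν
  have h3 : ip (⌊N * u.re⌋, ⌊N * u.im⌋) ν =
      ip (m, n) ν * (Int.gcd ⌊N * u.re⌋ ⌊N * u.im⌋ : ℝ) := by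
    have hm' : ((⌊N * u.re⌋ : ℤ) : ℝ) = m * (Int.gcd ⌊N * u.re⌋ ⌊N * u.im⌋ : ℝ) := by
      exact_mod_cast hm
    have hn' : ((⌊N * u.im⌋ : ℤ) : ℝ) = n * (Int.gcd ⌊N * u.re⌋ ⌊N * u.im⌋ : ℝ) := by
      exact_mod_cast hn
    simp only [ip]
    linear_combination ν.re * hm' + ν.im * hn'
  rw [h3] at h2
  exact neg_of_mul_neg_left h2 (Nat.cast_nonneg _)

lemma sq_one {ν : ℂ} (h : ‖ν‖ = 1) : ν.re ^ 2 + ν.im ^ 2 = 1 := by
  have := Complex.sq_norm ν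
  rw [h, Complex.normSq_apply] at this
  linarith

lemma pair_dir {ν₂ ν₃ : ℂ} (h2 : ‖ν₂‖ = 1) (h3 : ‖ν₃‖ = 1) (hne : ν₂ + ν₃ ≠ 0) :
    ∃ η : ℤ × ℤ, ip η ν₂ < 0 ∧ ip η ν₃ < 0 := by
  have hpos : 0 < (ν₂.re + ν₃.re) ^ 2 + (ν₂.im + ν₃.im) ^ 2 := by
    have := Complex.normSq_pos.2 hne
    rw [Complex.normSq_apply, Complex.add_re, Complex.add_im] at this
    linarith
  have e2 := sq_one h2
  have e3 := sq_one h3
  obtain ⟨η, -, hη⟩ := rat_dir (S := {ν₂, ν₃}) (toFinite _).isCompact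
    (by rintro ν (rfl | rfl) <;> assumption) (-(ν₂ + ν₃)) (by
      rintro ν (rfl | rfl) <;>
      · simp only [Complex.neg_re, Complex.neg_im, Complex.add_re, Complex.add_im]
        nlinarith)
  exact ⟨η, hη _ (Or.inl rfl), hη _ (Or.inr rfl)⟩

lemma polar {μ ν : ℂ} (hμ : ‖μ‖ = 1) (hν : ‖ν‖ = 1) :
    ν.re = μ.re * Real.cos (ν / μ).arg - μ.im * Real.sin (ν / μ).arg ∧
      ν.im = μ.re * Real.sin (ν / μ).arg + μ.im * Real.cos (ν / μ).arg := by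
  have h0 : μ ≠ 0 := norm_ne_zero_iff.1 (by rw [hμ]; norm_num)
  have h1 : ‖ν / μ‖ = 1 := by rw [norm_div, hμ, hν, div_one]
  have h2 : ν / μ ≠ 0 := norm_ne_zero_iff.1 (by rw [h1]; norm_num)
  rw [Complex.cos_arg h2, Complex.sin_arg, h1, div_one, div_one, ← Complex.mul_re,
    ← Complex.mul_im, mul_div_cancel₀ _ h0]
  exact ⟨rfl, rfl⟩

lemma unb {C : Set ℂ} (h : ¬ IsBounded C) (R : ℝ) : ∃ y ∈ C, R ≤ ‖y‖ := by
  by_contra hn
  push Not at hn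
  exact h (isBounded_iff_forall_norm_le.2 ⟨R, fun y hy => (hn y hy).le⟩)

lemma lim_ZZ (hL : S_Lim) {f g : H} {R : ℝ} {ν a : ℂ} {C : ℕ → Set ℂ} {x : ℕ → ℂ}
    (hC : ∀ n, IsPreconnected (C n)) (hx : ∀ n, x n ∈ C n) (ha : Tendsto x atTop (𝓝 a))
    (hu : ∀ n, ¬ IsBounded (C n))
    (hq : ∀ q, ip q ν < 0 → ∀ᶠ n in atTop, ∀ z ∈ C n, R ≤ ‖wd f g q z‖) : a ∈ ZZ f g R ν := by
  have hcl : ∀ q : ℤ × ℤ, IsClosed {z | R ≤ ‖wd f g q z‖} := fun q =>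
    isClosed_le continuous_const (wd f g q).continuous.norm
  refine hL C x _ a ?_ hC hx ha (fun R' => Eventually.of_forall fun n => unb (hu n) R') ?_
  · have : II f g R ν = ⋂ q, ⋂ _ : ip q ν < 0, {z | R ≤ ‖wd f g q z‖} := by
      ext z
      simp [II]
    rw [this]
    exact isClosed_iInter fun q => isClosed_iInter fun _ => hcl q
  · intro y hy q hq0
    refine (hcl q).closure_subset (Metric.mem_closure_iff.2 fun ε hε => ?_)
    obtain ⟨n, ⟨z, hz1, hz2⟩, hn⟩ := ((hy ε hε).and_eventually (hq q hq0)).exists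
    exact ⟨z, hn z hz1, mem_ball'.1 hz2⟩

lemma continuous_ip (q : ℤ × ℤ) : Continuous (ip q) := by
  unfold ip
  fun_prop

lemma subseq {ν x : ℕ → ℂ} {R : ℝ} (h1 : ∀ n, ‖ν n‖ = 1) (h2 : ∀ n, ‖x n‖ ≤ R) :
    ∃ (μ a : ℂ) (φ : ℕ → ℕ), ‖μ‖ = 1 ∧ ‖a‖ ≤ R ∧ StrictMono φ ∧
      Tendsto (ν ∘ φ) atTop (𝓝 μ) ∧ Tendsto (x ∘ φ) atTop (𝓝 a) := by
  obtain ⟨p, hp, φ, hφ, ht⟩ := ((isCompact_sphere (0 : ℂ) 1).prod
    (isCompact_closedBall (0 : ℂ) R)).tendsto_subseq (x := fun n => (ν n, x n))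
    fun n => ⟨mem_sphere_zero_iff_norm.2 (h1 n), mem_closedBall_zero_iff.2 (h2 n)⟩
  exact ⟨p.1, p.2, φ, mem_sphere_zero_iff_norm.1 hp.1, mem_closedBall_zero_iff.1 hp.2, hφ,
    (continuous_fst.tendsto p).comp ht, (continuous_snd.tendsto p).comp ht⟩

/-- the lattice in the plane -/
def em (p : ℤ × ℤ) : ℂ := ⟨p.1, p.2⟩

lemma em_add (p q : ℤ × ℤ) : em (p + q) = em p + em q := by
  apply Complex.ext <;> simp [em]

lemma em_nsmul (m : ℕ) (p : ℤ × ℤ) : em (m • p) = ((m : ℝ) : ℂ) * em p := by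
  apply Complex.ext <;> simp [em]

lemma finite_em (r : ℝ) : {p : ℤ × ℤ | ‖em p‖ ≤ r}.Finite := by
  refine ((finite_Icc (-⌈r⌉) ⌈r⌉).prod (finite_Icc (-⌈r⌉) ⌈r⌉)).subset fun p hp => ?_
  have h1 : |(p.1 : ℝ)| ≤ (⌈r⌉ : ℝ) :=
    ((Complex.abs_re_le_norm (em p)).trans hp).trans (Int.le_ceil r)
  have h2 : |(p.2 : ℝ)| ≤ (⌈r⌉ : ℝ) :=
    ((Complex.abs_im_le_norm (em p)).trans hp).trans (Int.le_ceil r)
  exact ⟨abs_le.1 (by exact_mod_cast h1), abs_le.1 (by exact_mod_cast h2)⟩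

lemma norm_sq_add (q : ℤ × ℤ) (a ρ : ℝ) {ν : ℂ} (hν : ‖ν‖ = 1) :
    ‖(a : ℂ) * em q + ρ * ν‖ ^ 2 = a ^ 2 * ‖em q‖ ^ 2 + 2 * a * ρ * ip q ν + ρ ^ 2 := by
  have h := sq_one hν
  rw [Complex.sq_norm, Complex.sq_norm, Complex.normSq_apply, Complex.normSq_apply]
  simp only [em, ip, Complex.add_re, Complex.add_im, Complex.mul_re, Complex.mul_im,
    Complex.ofReal_re, Complex.ofReal_im]
  linear_combination ρ ^ 2 * h

lemma touch (P : Set (ℤ × ℤ)) (σ : ℤ × ℤ) {n : ℝ} (hn : 0 < n) (h0 : ∀ p ∈ P, n < ‖em p‖)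
    (hs : ∃ s : ℝ, 0 ≤ s ∧ ∃ p ∈ P, ‖em p - s * em σ‖ ≤ n + s / n) :
    ∃ p ∈ P, ∃ (ρ : ℝ) (ν : ℂ), n ≤ ρ ∧ ‖ν‖ = 1 ∧ -(1 / n) ≤ ip σ ν ∧
      ∀ q, ‖em q + ρ * ν‖ < ρ → q + p ∉ P := by
  obtain ⟨s₀, hs₀, p₀, hp₀, hb₀⟩ := hs
  let Q : Set (ℤ × ℤ) := {p | p ∈ P ∧ ‖em p‖ ≤ n + s₀ / n + s₀ * ‖em σ‖}
  have hQ : Q.Finite := (finite_em _).subset fun p hp => hp.2
  have hmem : ∀ p ∈ P, ∀ s : ℝ, 0 ≤ s → s ≤ s₀ → ‖em p - s * em σ‖ ≤ n + s / n → p ∈ Q := by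
    intro p hp s h1 h2 h3
    refine ⟨hp, ?_⟩
    have e1 : ‖em p‖ ≤ ‖em p - s * em σ‖ + ‖(s : ℂ) * em σ‖ := norm_le_norm_sub_add _ _
    rw [norm_mul, Complex.norm_real, Real.norm_of_nonneg h1] at e1
    have e2 := mul_le_mul_of_nonneg_right h2 (norm_nonneg (em σ))
    have e3 := div_le_div_of_nonneg_right h2 hn.le
    linarith
  let T : Set ℝ := ⋃ p ∈ Q, Icc 0 s₀ ∩ {s : ℝ | ‖em p - s * em σ‖ ≤ n + s / n}
  have hT : IsCompact T := hQ.isCompact_biUnion fun p _ =>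
    isCompact_Icc.inter_right (isClosed_le (by fun_prop) (by fun_prop))
  obtain ⟨s, hs, hmin⟩ := hT.exists_isLeast
    ⟨s₀, mem_biUnion (hmem p₀ hp₀ s₀ hs₀ le_rfl hb₀) ⟨⟨hs₀, le_rfl⟩, hb₀⟩⟩
  obtain ⟨p, hpQ, ⟨hs0, hs1⟩, hb⟩ := mem_iUnion₂.1 hs
  replace hb : ‖em p - s * em σ‖ ≤ n + s / n := hb
  have hlt : ∀ p' ∈ P, ∀ t : ℝ, 0 ≤ t → t < s → n + t / n < ‖em p' - t * em σ‖ := by
    intro p' hp' t h1 h2
    by_contra h3
    rw [not_lt] at h3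
    exact absurd (hmin (mem_biUnion (hmem p' hp' t h1 (h2.le.trans hs1) h3)
      ⟨⟨h1, h2.le.trans hs1⟩, h3⟩)) (not_le.2 h2)
  have hspos : 0 < s := by
    refine hs0.lt_of_ne fun e => ?_
    have := h0 p hpQ.1
    rw [← e] at hb
    simp at hb
    linarith
  have hge : ∀ p' ∈ P, n + s / n ≤ ‖em p' - s * em σ‖ := by
    intro p' hp'
    have hc : IsClosed {t : ℝ | n + t / n ≤ ‖em p' - t * em σ‖} :=
      isClosed_le (by fun_prop) (by fun_prop)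
    have h1 : closure (Ico 0 s) ⊆ _ :=
      closure_minimal (fun t ht => (hlt p' hp' t ht.1 ht.2).le) hc
    rw [closure_Ico hspos.ne] at h1
    exact h1 ⟨hs0, le_rfl⟩
  set ρ := n + s / n with hρ
  have hsn : 0 < s / n := div_pos hspos hn
  have hρ0 : 0 < ρ := by linarith
  have hρc : (ρ : ℂ) ≠ 0 := Complex.ofReal_ne_zero.2 hρ0.ne'
  have hw : ‖em p - s * em σ‖ = ρ := le_antisymm hb (hge p hpQ.1)
  set ν : ℂ := (em p - s * em σ) / ρ with hν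
  have hν1 : ‖ν‖ = 1 := by
    rw [hν, norm_div, hw, Complex.norm_real, Real.norm_of_nonneg hρ0.le, div_self hρ0.ne']
  have hρν : (ρ : ℂ) * ν = em p - s * em σ := mul_div_cancel₀ _ hρc
  refine ⟨p, hpQ.1, ρ, ν, by linarith, hν1, ?_, fun q hq hqP => ?_⟩
  · by_contra hc
    rw [not_le] at hc
    set δ := -(1 / n) - ip σ ν with hδ
    have hδ0 : 0 < δ := by linarith
    set A := ‖em σ‖ ^ 2 + 1 with hA
    have hA0 : 0 < A := by positivity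
    set h := min s (ρ * δ / A) with hh
    have hh0 : 0 < h := lt_min hspos (by positivity)
    have hh1 : h ≤ s := min_le_left _ _
    have hh2 : h * A ≤ ρ * δ := (le_div_iff₀ hA0).1 (min_le_right _ _)
    have e1 := hlt p hpQ.1 (s - h) (by linarith) (by linarith)
    have e2 : em p - ((s - h : ℝ) : ℂ) * em σ = (h : ℂ) * em σ + ρ * ν := by
      rw [hρν]
      push_cast
      ring
    have e3 : n + (s - h) / n = ρ - h * (1 / n) := by
      rw [hρ]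
      ring
    have e4 : 0 ≤ ρ - h * (1 / n) := by
      rw [← e3]
      have : 0 ≤ (s - h) / n := div_nonneg (by linarith) hn.le
      linarith
    rw [e2, e3] at e1
    have e5 := pow_lt_pow_left₀ e1 e4 two_ne_zero
    rw [norm_sq_add σ h ρ hν1] at e5
    have e6 : ip σ ν = -(1 / n) - δ := by linarith
    rw [e6] at e5
    have e7 : h * (2 * ρ * δ) < h * (h * ‖em σ‖ ^ 2) := by nlinarith [sq_nonneg (h * (1 / n))]
    have e8 := lt_of_mul_lt_mul_left e7 hh0.le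
    nlinarith [mul_pos hρ0 hδ0]
  · have := hge _ hqP
    rw [em_add, add_sub_assoc, ← hρν] at this
    linarith

lemma exists_R (f g : H) (R r : ℝ) :
    ∃ R', ∀ p, ‖em p‖ ≤ r → ∀ x, R' ≤ ‖x‖ → R ≤ ‖wd f g p x‖ := by
  choose F hF using fun p => proper (wd f g p) R
  obtain ⟨M, hM⟩ := ((finite_em r).image F).bddAbove
  exact ⟨M, fun p hp x hx => hF p x ((hM ⟨p, hp, rfl⟩).trans hx)⟩

lemma cover {f g : H} {R : ℝ} (hR : Coc f g R) (R' : ℝ) :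
    ∃ M : ℝ, ∀ y : ℂ, ‖y‖ ≤ R' → ∃ q, ‖em q‖ ≤ M ∧ ‖wd f g q y‖ < R := by
  obtain ⟨t, ht⟩ := (isCompact_closedBall (0 : ℂ) R').elim_finite_subcover
    (fun q : ℤ × ℤ => {y | ‖wd f g q y‖ < R})
    (fun q => isOpen_lt (wd f g q).continuous.norm continuous_const)
    fun y _ => mem_iUnion.2 (hR y)
  obtain ⟨M, hM⟩ := (t.finite_toSet.image fun q => ‖em q‖).bddAbove
  refine ⟨M, fun y hy => ?_⟩
  obtain ⟨q, hq, h⟩ := mem_iUnion₂.1 (ht (mem_closedBall_zero_iff.2 hy))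
  exact ⟨q, hM ⟨q, hq, rfl⟩, h⟩

lemma step {f g : H} {R : ℝ} {σ : ℤ × ℤ} (hc : f * g = g * f) (hR : Coc f g R)
    (hA : ¬ Attr (wd f g σ)) {n : ℝ} (hn : 0 < n) :
    ∃ (C : Set ℂ) (x ν : ℂ) (ρ : ℝ), IsPreconnected C ∧ x ∈ C ∧ ‖x‖ ≤ R ∧ ¬ IsBounded C ∧ n ≤ ρ ∧
      ‖ν‖ = 1 ∧ -(1 / n) ≤ ip σ ν ∧
      ∀ q, ‖em q + ρ * ν‖ < ρ → ∀ z ∈ C, R ≤ ‖wd f g q z‖ := by
  obtain ⟨R₀, hR₀⟩ := exists_R f g R n
  let P : Set (ℤ × ℤ) := {p | ∃ x, R₀ ≤ ‖x‖ ∧ ‖wd f g p x‖ < R}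
  have h0 : ∀ p ∈ P, n < ‖em p‖ := by
    rintro p ⟨x, hx, h⟩
    by_contra hp
    exact absurd (hR₀ p (not_lt.1 hp) x hx) (not_le.2 h)
  have hs : ∃ s : ℝ, 0 ≤ s ∧ ∃ p ∈ P, ‖em p - s * em σ‖ ≤ n + s / n := by
    by_contra hn'
    push Not at hn'
    refine hA ⟨R₀, fun R' => ?_⟩
    obtain ⟨M, hM⟩ := cover hR R'
    filter_upwards [(tendsto_natCast_atTop_atTop (R := ℝ)).eventually_ge_atTop (M * n)]
      with m hm x hx
    by_contra hlt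
    obtain ⟨q, hq, h⟩ := hM _ (not_le.1 hlt).le
    have h1 := hn' m (Nat.cast_nonneg m) (q + m • σ) ⟨x, hx, by
      rw [wd_add hc, wd_nsmul hc]
      exact h⟩
    rw [em_add, em_nsmul, add_sub_cancel_right] at h1
    have h2 : M ≤ m / n := (le_div_iff₀ hn).2 hm
    linarith
  obtain ⟨p, ⟨x, hx, hpx⟩, ρ, ν, h1, h2, h3, h4⟩ := touch P σ hn h0 hs
  refine ⟨wd f g p '' {z | R₀ ≤ ‖z‖}, wd f g p x, ν, ρ,
    (preconn_out R₀).image _ (wd f g p).continuous.continuousOn, ⟨x, hx, rfl⟩, hpx.le, ?_, h1, h2,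
    h3, ?_⟩
  · rw [isBounded_image_iff]
    exact fun h => not_bdd_out R₀ (h.subset fun z hz => (le_of_lt hz : R₀ ≤ ‖z‖))
  · rintro q hq _ ⟨z, hz, rfl⟩
    by_contra hlt
    refine h4 q hq ⟨z, hz, ?_⟩
    rw [wd_add hc]
    exact not_le.1 hlt

end J01

open J01

theorem sJ0_of : S_J0 := by
  intro S hS h1
  have hK : IsCompact S := (isCompact_sphere (0 : ℂ) 1).of_isClosed_subset hS
    fun ν hν => mem_sphere_zero_iff_norm.2 (h1 ν hν)
  rcases S.eq_empty_or_nonempty with rfl | ⟨μ, hμ⟩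
  · exact Or.inl ⟨(1, 0), isCoprime_one_left, by simp⟩
  by_cases hanti : ∃ ν ∈ S, -ν ∈ S
  · obtain ⟨ν, hν, hν'⟩ := hanti
    have h0 : ν ≠ 0 := norm_ne_zero_iff.1 (by rw [h1 ν hν]; norm_num)
    obtain ⟨η, e1, e2⟩ := pair_dir (h1 ν hν) (h1 ν hν) (by
      rw [← two_mul]
      exact mul_ne_zero two_ne_zero h0)
    exact Or.inr ⟨-ν, hν', ν, hν, ν, hν, η, e1, e2, 1, 0, zero_le_one, le_rfl, by simp⟩
  push Not at hanti
  have hμ1 := h1 μ hμ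
  have hμ0 : μ ≠ 0 := norm_ne_zero_iff.1 (by rw [hμ1]; norm_num)
  have hμs := sq_one hμ1
  have hslit : ∀ ν ∈ S, ν / μ ∈ Complex.slitPlane := by
    intro ν hν
    have h2 : ‖ν / μ‖ = 1 := by rw [norm_div, hμ1, h1 ν hν, div_one]
    rw [Complex.mem_slitPlane_iff_arg]
    refine ⟨fun e => hanti μ hμ ?_, norm_ne_zero_iff.1 (by rw [h2]; norm_num)⟩
    obtain ⟨e1, e2⟩ := polar hμ1 (h1 ν hν)
    rw [e, Real.cos_pi, Real.sin_pi] at e1 e2
    have : -μ = ν := Complex.ext (by simp [e1]) (by simp [e2])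
    rwa [this]
  have hcont : ContinuousOn (fun ν : ℂ => (ν / μ).arg) S := fun ν hν =>
    (ContinuousAt.comp (f := fun ν : ℂ => ν / μ) (Complex.continuousAt_arg (hslit ν hν))
      (by fun_prop)).continuousWithinAt
  obtain ⟨ν₂, hν₂, hmax⟩ := hK.exists_isMaxOn ⟨μ, hμ⟩ hcont
  obtain ⟨ν₃, hν₃, hmin⟩ := hK.exists_isMinOn ⟨μ, hμ⟩ hcont
  set α := (ν₂ / μ).arg with hα
  set β := (ν₃ / μ).arg with hβ
  have h00 : (μ / μ).arg = 0 := by rw [div_self hμ0, Complex.arg_one]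
  have hα0 : 0 ≤ α := h00.ge.trans (hmax hμ)
  have hβ0 : β ≤ 0 := le_trans (hmin hμ) h00.le
  have hαp : α ≤ Real.pi := Complex.arg_le_pi _
  have hβp : -Real.pi < β := Complex.neg_pi_lt_arg _
  obtain ⟨a1, a2⟩ := polar hμ1 (h1 ν₂ hν₂)
  obtain ⟨b1, b2⟩ := polar hμ1 (h1 ν₃ hν₃)
  rw [← hα] at a1 a2
  rw [← hβ] at b1 b2
  rcases lt_trichotomy (α - β) Real.pi with hlt | heq | hgt
  · refine Or.inl (rat_dir hK h1 (-(μ * ⟨Real.cos ((α + β) / 2), Real.sin ((α + β) / 2)⟩))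
      fun ν hν => ?_)
    obtain ⟨c1, c2⟩ := polar hμ1 (h1 ν hν)
    have d1 : (ν / μ).arg ≤ α := hmax hν
    have d2 : β ≤ (ν / μ).arg := hmin hν
    have d3 := Real.cos_pos_of_mem_Ioo (x := (ν / μ).arg - (α + β) / 2) ⟨by linarith, by linarith⟩
    rw [Real.cos_sub] at d3
    simp only [Complex.neg_re, Complex.neg_im, Complex.mul_re, Complex.mul_im]
    rw [c1, c2]
    nlinarith
  · refine absurd ?_ (hanti ν₃ hν₃)
    have e : α = β + Real.pi := by linarith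
    rw [e, Real.cos_add_pi, Real.sin_add_pi] at a1 a2
    have : -ν₃ = ν₂ := Complex.ext (by simp only [Complex.neg_re]; linarith)
      (by simp only [Complex.neg_im]; linarith)
    rwa [this]
  · have hD : 0 < Real.sin (α - β - Real.pi) :=
      Real.sin_pos_of_pos_of_lt_pi (by linarith) (by linarith)
    rw [Real.sin_sub_pi, Real.sin_sub] at hD
    set D := -(Real.sin α * Real.cos β - Real.cos α * Real.sin β) with hDd
    have s1 : 0 ≤ Real.sin α := Real.sin_nonneg_of_nonneg_of_le_pi hα0 hαp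
    have s2 : Real.sin β ≤ 0 := Real.sin_nonpos_of_nonpos_of_neg_pi_le hβ0 hβp.le
    obtain ⟨η, e1, e2⟩ := pair_dir (h1 ν₂ hν₂) (h1 ν₃ hν₃) fun e => hanti ν₂ hν₂ (by
      rwa [← eq_neg_of_add_eq_zero_right e])
    refine Or.inr ⟨μ, hμ, ν₂, hν₂, ν₃, hν₃, η, e1, e2, -Real.sin β / D, Real.sin α / D,
      div_nonneg (by linarith) hD.le, div_nonneg s1 hD.le, Complex.ext ?_ ?_⟩
    · simp only [Complex.neg_re, Complex.add_re, Complex.re_ofReal_mul]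
      rw [a1, b1]
      field_simp
      rw [hDd]
      ring
    · simp only [Complex.neg_im, Complex.add_im, Complex.im_ofReal_mul]
      rw [a2, b2]
      field_simp
      rw [hDd]
      ring

theorem sJC_of (h : S_Lim) : S_JC := by
  intro f g R
  refine isClosed_of_closure_subset fun ν hν => ?_
  obtain ⟨v, hv, hvt⟩ := mem_closure_iff_seq_limit.1 hν
  choose x hx using fun n => (hv n).2
  obtain ⟨μ, a, φ, h1, h2, h3, h4, h5⟩ := subseq (fun n => (hv n).1)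
    fun n => mem_closedBall_zero_iff.1 (hx n).2
  obtain rfl : μ = ν := tendsto_nhds_unique h4 (hvt.comp h3.tendsto_atTop)
  refine ⟨h1, a, lim_ZZ h (C := fun n => connectedComponentIn (II f g R (v (φ n))) (x (φ n)))
    (fun n => isPreconnected_connectedComponentIn) (fun n => mem_connectedComponentIn ?_) h5
    (fun n => (hx (φ n)).1) fun q hq => ?_, mem_closedBall_zero_iff.2 h2⟩
  · by_contra hn
    refine (hx (φ n)).1 ?_
    rw [connectedComponentIn_eq_empty hn]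
    exact isBounded_empty
  · filter_upwards [(((continuous_ip q).tendsto μ).comp h4).eventually (gt_mem_nhds hq)]
      with n hn z hz
    exact connectedComponentIn_subset _ _ hz q hn

theorem sJ1_of (h : S_Lim) : S_J1 := by
  intro f g R σ hc hR hσ
  by_contra hA
  choose C x ν ρ h1 h2 h3 h4 h5 h6 h7 h8 using fun n : ℕ =>
    step hc hR hA (n := (n : ℝ) + 1) (by positivity)
  obtain ⟨μ, a, φ, e1, e2, e3, e4, e5⟩ := subseq h6 h3
  have hZ : a ∈ ZZ f g R μ := by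
    refine lim_ZZ h (C := fun n => C (φ n)) (fun n => h1 _) (fun n => h2 _) e5 (fun n => h4 _)
      fun q hq => ?_
    have hh : ip q μ < ip q μ / 2 := by linarith
    filter_upwards [(((continuous_ip q).tendsto μ).comp e4).eventually (gt_mem_nhds hh),
      ((tendsto_natCast_atTop_atTop (R := ℝ)).comp e3.tendsto_atTop).eventually_ge_atTop
        (‖em q‖ ^ 2 / -ip q μ)] with n hn1 hn2
    refine h8 (φ n) q ?_
    have a1 : ip q (ν (φ n)) < ip q μ / 2 := hn1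
    have a2 : ‖em q‖ ^ 2 ≤ (φ n : ℝ) * -ip q μ := (div_le_iff₀ (by linarith)).1 hn2
    have a3 := h5 (φ n)
    have a4 : (0 : ℝ) ≤ φ n := Nat.cast_nonneg _
    have a5 := norm_sq_add q 1 (ρ (φ n)) (h6 (φ n))
    rw [Complex.ofReal_one, one_mul] at a5
    refine lt_of_pow_lt_pow_left₀ 2 (by linarith) ?_
    rw [a5]
    nlinarith
  have h9 : 0 ≤ ip σ μ := by
    have t1 : Tendsto (fun n => -(1 / ((φ n : ℝ) + 1))) atTop (𝓝 (-0)) :=
      (tendsto_one_div_add_atTop_nhds_zero_nat.comp e3.tendsto_atTop).neg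
    rw [neg_zero] at t1
    exact le_of_tendsto_of_tendsto' t1 (((continuous_ip σ).tendsto μ).comp e4) fun n => h7 (φ n)
  exact absurd (hσ μ ⟨e1, a, hZ, mem_closedBall_zero_iff.2 e2⟩) (not_lt.2 h9)

end Pool.Agent.Lib.MP_d32f96_gt
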