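import Pool.Agent.Lib.MP_d32f96_gt.Frame

/-! The cocompact case with three directions gives a chain. -/

namespace Pool.Agent.Lib.MP_d32f96_gt

open Set Filter Topology Metric Complex Bornology
open Pool.Agent.Lib.MP_1e9af3_an Pool.Agent.Lib.MP_069d55_gt

noncomputable section

namespace J2

variable {f g : H} {R : ℝ} {ν : ℂ}

lemma closed_cc {F : Set ℂ} (hF : IsClosed F) (x : ℂ) : IsClosed (connectedComponentIn F x) := by
  by_cases hx : x ∈ F
  · exact closure_subset_iff_isClosed.1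
      (isPreconnected_connectedComponentIn.closure.subset_connectedComponentIn
        (subset_closure (mem_connectedComponentIn hx))
        (closure_minimal (connectedComponentIn_subset _ _) hF))
  · rw [connectedComponentIn_eq_empty hx]; exact isClosed_empty

lemma mem_of_unbdd {F : Set ℂ} {x : ℂ} (h : ¬ IsBounded (connectedComponentIn F x)) : x ∈ F := by
  by_contra hx
  exact h (by rw [connectedComponentIn_eq_empty hx]; exact isBounded_empty)

lemma closed_II : IsClosed (II f g R ν) := by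
  simp only [II, ofPred_forall]
  exact isClosed_iInter fun p => isClosed_iInter fun _ =>
    isClosed_le continuous_const (wd f g p).continuous.norm

lemma ZZ_sub : ZZ f g R ν ⊆ II f g R ν := fun _ h => mem_of_unbdd h

lemma cc_sub {x : ℂ} (hx : x ∈ ZZ f g R ν) : connectedComponentIn (II f g R ν) x ⊆ ZZ f g R ν :=
  fun y hy => by
    show ¬ IsBounded _
    rw [← connectedComponentIn_eq hy]; exact hx

lemma ccu_cc {x : ℂ} (hx : x ∈ ZZ f g R ν) : CCU (connectedComponentIn (II f g R ν) x) :=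
  ⟨closed_cc closed_II x, isPreconnected_connectedComponentIn, hx⟩

lemma closed_ZZ (hL : S_Lim) : IsClosed (ZZ f g R ν) := by
  refine IsSeqClosed.isClosed fun x a hx ha => ?_
  refine hL (fun n => connectedComponentIn (II f g R ν) (x n)) x _ a closed_II
    (fun n => isPreconnected_connectedComponentIn)
    (fun n => mem_connectedComponentIn (ZZ_sub (hx n))) ha
    (fun r => Eventually.of_forall fun n => ?_) fun y hy => ?_
  · by_contra h
    push Not at h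
    exact hx n (isBounded_iff_forall_norm_le.2 ⟨r, fun y hy => (h y hy).le⟩)
  · refine closed_II.closure_subset (Metric.mem_closure_iff.2 fun ε hε => ?_)
    obtain ⟨n, z, hz, hz'⟩ := (hy ε hε).exists
    exact ⟨z, connectedComponentIn_subset _ _ hz, by rwa [dist_comm]⟩

lemma map_II (hc : f * g = g * f) {q : ℤ × ℤ} (hq : ip q ν ≤ 0) {x : ℂ} (hx : x ∈ II f g R ν) :
    wd f g q x ∈ II f g R ν := fun p hp => by
  rw [← hmul, ← wd_add hc]
  exact hx _ (by rw [ip_add]; linarith)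

lemma map_ZZ (hc : f * g = g * f) {q : ℤ × ℤ} (hq : ip q ν ≤ 0) {x : ℂ} (hx : x ∈ ZZ f g R ν) :
    wd f g q x ∈ ZZ f g R ν := fun hb => by
  have h := (ccu_cc hx).image (wd f g q)
  refine h.2.2 (hb.subset (h.2.1.subset_connectedComponentIn
    ⟨x, mem_connectedComponentIn (ZZ_sub hx), rfl⟩ ?_))
  rintro _ ⟨y, hy, rfl⟩
  exact map_II hc hq (connectedComponentIn_subset _ _ hy)

lemma ev_ip {e : ℤ × ℤ} (he : ip e ν < 0) (q : ℤ × ℤ) :
    ∀ᶠ m : ℕ in atTop, ip (q + m • e) ν < 0 := by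
  simp only [ip_add, ip_nsmul]
  have := (tendsto_natCast_atTop_atTop (R := ℝ)).atTop_mul_const_of_neg he
  filter_upwards [this.eventually_lt_atBot (-ip q ν)] with m hm
  linarith

lemma deep (hc : f * g = g * f) (hC : Coc f g R) {e : ℤ × ℤ} (he : ip e ν < 0) (r : ℝ) :
    ∀ᶠ m : ℕ in atTop, ∀ x ∈ II f g R ν, r < ‖wd f g (m • e) x‖ := by
  obtain ⟨t, ht⟩ := (isCompact_closedBall (0 : ℂ) r).elim_finite_subcover
    (fun q : ℤ × ℤ => {x | ‖wd f g q x‖ < R})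
    (fun q => isOpen_lt (wd f g q).continuous.norm continuous_const)
    (fun x _ => mem_iUnion.2 (hC x))
  filter_upwards [(eventually_all_finset t).2 fun q _ => ev_ip he q] with m hm x hx
  by_contra h
  obtain ⟨q, hq, hq'⟩ := mem_iUnion₂.1 (ht (mem_closedBall_zero_iff.2 (not_lt.1 h)))
  have := hx _ (hm q hq)
  rw [wd_add hc, hmul] at this
  exact this.not_gt hq'

def Acc (Z : Set ℂ) : Prop := ∃ C, CCU C ∧ Disjoint C Z

lemma Acc.of_image {Z : Set ℂ} {F : H} (h : Acc (F '' Z)) : Acc Z := by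
  obtain ⟨C, hC, hd⟩ := h
  refine ⟨(F⁻¹ : H) '' C, hC.image _, Set.disjoint_left.2 ?_⟩
  rintro _ ⟨y, hy, rfl⟩ hz
  exact Set.disjoint_left.1 hd hy (mem_image_h.2 hz)

lemma ns_of {Y A : Set ℂ} (hY : IsPreconnected Y) (h0 : (0 : ℂ) ∈ Y) (hb : ¬ IsBounded Y)
    (hd : ∀ y ∈ Y, y ∉ A) : NS A := fun _ _ hK h =>
  hb (h.subset (hY.subset_connectedComponentIn h0 fun y hy hy' => hd y hy (hK hy')))

lemma mem_tl {J : ℕ → Set ℂ} {n : ℕ} {x : ℂ} : x ∈ tl J n ↔ ∃ j, n ≤ j ∧ x ∈ J j := by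
  simp [tl]

lemma norm_le_of_segment {a y : ℂ} (h : y ∈ segment ℝ 0 a) : ‖y‖ ≤ ‖a‖ :=
  mem_closedBall_zero_iff.1 ((convex_closedBall 0 ‖a‖).segment_subset
    (mem_closedBall_self (norm_nonneg a)) (mem_closedBall_zero_iff.2 le_rfl) h)

lemma chain_of_acc (hL : S_Lim) (hR : S_Ray) (hc : f * g = g * f) {e : ℤ × ℤ} (he : ip e ν < 0)
    (hn : (ZZ f g R ν).Nonempty) (hA : Acc (ZZ f g R ν)) : Chain f g := by
  obtain ⟨C, hC, hd⟩ := hA
  obtain ⟨γ, ⟨γc, -, γt⟩, hγ⟩ := hR C _ hC (closed_ZZ hL).isOpen_compl hd.subset_compl_right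
  have far : ∀ r : ℝ, ∀ᶠ n : ℕ in atTop, ∀ t : ℝ, n ≤ t → r ≤ ‖γ t‖ := fun r => by
    obtain ⟨T, hT⟩ := eventually_atTop.1 (γt.eventually_ge_atTop r)
    filter_upwards [tendsto_natCast_atTop_atTop.eventually_ge_atTop T] with n hn t ht
    exact hT t (hn.trans ht)
  refine ⟨fun n => γ '' Icc n (n + 1), ⟨fun n => isCompact_Icc.image γc,
    fun n => isPreconnected_Icc.image _ γc.continuousOn,
    fun n => ⟨γ (n + 1), ⟨_, by simp, rfl⟩, ⟨_, by simp, rfl⟩⟩, fun r => ?_⟩, fun p => ?_⟩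
  · filter_upwards [far r] with n hn
    rintro _ ⟨t, ht, rfl⟩
    exact hn t ht.1
  obtain ⟨x, hx⟩ := hn
  obtain ⟨m, h1, h2⟩ := ((ev_ip he 0).and (ev_ip he (-p))).exists
  rw [zero_add] at h1
  have hC' := (ccu_cc hx).image (wd f g (m • e))
  obtain ⟨x', hx'⟩ : ∃ x', x' = wd f g (m • e) x := ⟨_, rfl⟩
  have hm : x' ∈ wd f g (m • e) '' connectedComponentIn (II f g R ν) x :=
    ⟨x, mem_connectedComponentIn (ZZ_sub hx), hx'.symm⟩
  obtain ⟨r, hr⟩ := proper (wd f g p) (‖x'‖ + 1)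
  obtain ⟨n, n1, n2⟩ := ((far (‖x'‖ + 1)).and (far r)).exists
  refine ⟨n, ns_of (IsPreconnected.union x' hm
    (right_mem_segment ℝ 0 x') hC'.2.1 (convex_segment 0 x').isPreconnected)
    (Or.inr (left_mem_segment ℝ 0 x')) (fun h => hC'.2.2 (h.subset subset_union_left)) ?_⟩
  have ht : ∀ y ∈ tl (fun n : ℕ => γ '' Icc (n : ℝ) (n + 1)) n, ∃ t : ℝ, n ≤ t ∧ γ t = y := by
    intro y hy
    obtain ⟨j, hj, t, ht, rfl⟩ := mem_tl.1 hy
    exact ⟨t, (Nat.cast_le.2 hj).trans ht.1, rfl⟩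
  rintro y (⟨z, hz, rfl⟩ | hy) (hy' | ⟨y', hy', e'⟩)
  · obtain ⟨t, h3, h4⟩ := ht _ hy'
    have := map_ZZ hc h1.le (cc_sub hx hz)
    rw [← h4] at this
    exact hγ t ((Nat.cast_nonneg n).trans h3) this
  · obtain ⟨t, h3, rfl⟩ := ht _ hy'
    have := map_ZZ hc h2.le (cc_sub hx hz)
    rw [wd_add hc, hmul, ← e', wd_neg hc, hinv_apply] at this
    exact hγ t ((Nat.cast_nonneg n).trans h3) this
  · obtain ⟨t, h3, rfl⟩ := ht _ hy'
    linarith [n1 t h3, norm_le_of_segment hy]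
  · obtain ⟨t, h3, rfl⟩ := ht _ hy'
    have := norm_le_of_segment hy
    rw [← e'] at this
    linarith [hr _ (n2 t h3)]

lemma ns_deep (hc : f * g = g * f) (hC : Coc f g R) {ν₁ ν₂ ν₃ : ℂ} {η : ℤ × ℤ}
    (h₁ : ip (-η) ν₁ < 0) (h₂ : ip η ν₂ < 0) (h₃ : ip η ν₃ < 0) {x : ℂ} (hx : x ∈ II f g R ν₁) :
    ∃ M : ℕ, NS (wd f g (M • η) '' (II f g R ν₂ ∪ II f g R ν₃)) := by
  have far : ∀ r : ℝ, ∀ᶠ m : ℕ in atTop, ∀ y ∈ II f g R ν₂ ∪ II f g R ν₃,
      r < ‖wd f g (m • η) y‖ := fun r => by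
    filter_upwards [deep hc hC h₂ r, deep hc hC h₃ r] with m a b y hy using hy.elim (a y) (b y)
  obtain ⟨M, hM⟩ := eventually_atTop.1 (far ‖wd f g η 0‖)
  refine ⟨M, fun K _ hK hb => ?_⟩
  have hKm : ∀ (r : ℝ) (m : ℕ), (∀ y ∈ II f g R ν₂ ∪ II f g R ν₃, r < ‖wd f g ((m + M) • η) y‖) →
      ∀ y, ‖y‖ ≤ r → y ∈ (wd f g (m • η) '' K)ᶜ := by
    rintro r m hm _ hy ⟨z, hz, rfl⟩
    obtain ⟨u, hu, rfl⟩ := hK hz
    have := hm u hu
    rw [add_nsmul, wd_add hc, hmul] at this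
    exact this.not_ge hy
  have hP : ∀ m : ℕ, wd f g (m • η) 0 ∈ connectedComponentIn (wd f g (m • η) '' K)ᶜ 0 := by
    intro m
    induction m with
    | zero =>
      have := hKm _ 0 (hM _ (by omega)) 0 (by simp)
      simpa [wd_zero, hone] using mem_connectedComponentIn this
    | succ m ih =>
      have e : wd f g ((m + 1) • η) = wd f g η * wd f g (m • η) := by
        rw [← wd_add hc, succ_nsmul']
      have h0 := mem_connectedComponentIn (hKm _ m (hM _ (by omega)) 0 (by simp))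
      refine (IsPreconnected.union (wd f g η 0) (mem_image_of_mem _ h0) (right_mem_segment ℝ 0 _)
        (isPreconnected_connectedComponentIn.image (wd f g η) (wd f g η).continuous.continuousOn)
        (convex_segment 0 _).isPreconnected).subset_connectedComponentIn (Or.inr (left_mem_segment ℝ 0 _)) ?_
        (Or.inl ⟨_, ih, by rw [e, hmul]⟩)
      rintro y (⟨z, hz, rfl⟩ | hy)
      · rw [e, image_hmul, mem_compl_iff, apply_mem_image]
        exact connectedComponentIn_subset _ _ hz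
      · exact hKm _ (m + 1) (hM _ (by omega)) y (norm_le_of_segment hy)
  obtain ⟨B, hB⟩ := hb.exists_norm_le
  obtain ⟨m, m1, m2⟩ := (((tendsto_add_atTop_nat M).eventually (far ‖x‖)).and
    (deep hc hC h₁ B)).exists
  have hxm : x ∈ connectedComponentIn (wd f g (m • η) '' K)ᶜ 0 :=
    (convex_closedBall 0 ‖x‖).isPreconnected.subset_connectedComponentIn
      (mem_closedBall_self (norm_nonneg x))
      (fun y hy => hKm _ m m1 y (mem_closedBall_zero_iff.1 hy)) (mem_closedBall_zero_iff.2 le_rfl)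
  have := ((isPreconnected_connectedComponentIn (x := 0) (F := (wd f g (m • η) '' K)ᶜ)).image
    ((wd f g (m • η))⁻¹ : H) ((wd f g (m • η))⁻¹ : H).continuous.continuousOn
    ).subset_connectedComponentIn (F := Kᶜ) (x := 0) ⟨_, hP m, hinv_apply _ _⟩ (by
      rintro _ ⟨z, hz, rfl⟩ h
      exact connectedComponentIn_subset _ _ hz (mem_image_h.2 h)) ⟨x, hxm, rfl⟩
  have h5 := m2 x hx
  rw [smul_neg, wd_neg hc] at h5
  exact h5.not_ge (hB _ this)

end J2

open J2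

theorem sJ2_of (h1 : S_Lim) (h2 : S_Ray) (h3 : S_NA) : S_J2 := by
  intro f g R ν₁ ν₂ ν₃ η a b hc hC n₁ n₂ n₃ e₂ e₃ ha hb hν₁ hν
  have hip : ∀ q, ip q ν₁ = -(a * ip q ν₂ + b * ip q ν₃) := fun q => by
    simp only [ip, hν]; simp; ring
  have hneg : ∀ q, 0 < ip q ν₂ → 0 < ip q ν₃ → ip q ν₁ < 0 := fun q q₂ q₃ => by
    rw [hip]
    rcases ha.eq_or_lt with rfl | ha'
    · rcases hb.eq_or_lt with rfl | hb'
      · exact absurd (by simpa using hν) hν₁
      · nlinarith [mul_pos hb' q₃]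
    · nlinarith [mul_pos ha' q₂, mul_nonneg hb q₃.le]
  have e₁ : ip (-η) ν₁ < 0 := hneg _ (by rw [ip_neg]; linarith) (by rw [ip_neg]; linarith)
  by_cases A₁ : Acc (ZZ f g R ν₁)
  · exact chain_of_acc h1 h2 hc e₁ n₁ A₁
  by_cases A₂ : Acc (ZZ f g R ν₂)
  · exact chain_of_acc h1 h2 hc e₂ n₂ A₂
  by_cases A₃ : Acc (ZZ f g R ν₃)
  · exact chain_of_acc h1 h2 hc e₃ n₃ A₃
  set μ : ℕ → ℂ := fun m => if Even m then ν₂ else ν₃ with hμ
  have μc : ∀ m, (μ m = ν₂ ∧ μ (m + 1) = ν₃) ∨ (μ m = ν₃ ∧ μ (m + 1) = ν₂) := fun m => by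
    by_cases h : Even m <;> simp [hμ, h, Nat.even_add_one]
  have μe : ∀ m, ip η (μ m) < 0 := fun m => by
    rcases μc m with h | h <;> rw [h.1] <;> assumption
  set Y : ℕ → Set ℂ := fun m => wd f g (m • η) '' ZZ f g R (μ m) with hY
  have Ysub : ∀ m, Y m ⊆ II f g R (μ m) := by
    rintro m _ ⟨y, hy, rfl⟩
    refine map_II hc ?_ (ZZ_sub hy)
    rw [ip_nsmul]
    exact mul_nonpos_of_nonneg_of_nonpos (Nat.cast_nonneg m) (μe m).le
  have Ycl : ∀ m, IsClosed (Y m) := fun m => (wd f g (m • η)).isClosedMap _ (closed_ZZ h1)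
  have step : ∀ m, ∀ x ∈ Y m, ∃ P, IsCompact P ∧ IsPreconnected P ∧ x ∈ P ∧ P ⊆ Y m ∧
      ∃ y ∈ P, y ∈ Y (m + 1) := by
    rintro m _ ⟨x, hx, rfl⟩
    by_contra hn
    have hA : Acc (Y (m + 1)) := by
      refine h3 (Y m) (Y (m + 1)) (wd f g (m • η) x) (Ycl m) (Ycl _) (fun hb' => ?_)
        (fun y hy => ?_) fun P p1 p2 p3 p4 => Set.disjoint_left.2 fun y y1 y2 =>
          hn ⟨P, p1, p2, p3, p4, y, y1, y2⟩
      · have h := (ccu_cc hx).image (wd f g (m • η))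
        exact h.2.2 (hb'.subset (h.2.1.subset_connectedComponentIn
          ⟨x, mem_connectedComponentIn (ZZ_sub hx), rfl⟩ (image_mono (cc_sub hx))))
      · by_contra hu
        refine A₁ ⟨_, CCU.image ⟨closed_cc ((Ycl m).inter (Ycl _)) y,
          isPreconnected_connectedComponentIn, hu⟩ (wd f g η), Set.disjoint_left.2 ?_⟩
        rintro _ ⟨z, hz, rfl⟩ hz₁
        have hz' := connectedComponentIn_subset _ _ hz
        have hz₂ : z ∈ II f g R ν₂ ∧ z ∈ II f g R ν₃ := by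
          have u := Ysub _ hz'.1
          have v := Ysub _ hz'.2
          rcases μc m with h | h <;> rw [h.1] at u <;> rw [h.2] at v
          exacts [⟨u, v⟩, ⟨v, u⟩]
        obtain ⟨q, hq⟩ := hC (wd f g η z)
        have key : ∀ ν, ip η ν < 0 → z ∈ II f g R ν → 0 < ip q ν := fun ν hν hz => by
          by_contra hle
          have := hz (q + η) (by rw [ip_add]; linarith)
          rw [wd_add hc, hmul] at this
          exact this.not_gt hq
        exact (ZZ_sub hz₁ q (hneg q (key _ e₂ hz₂.1) (key _ e₃ hz₂.2))).not_gt hq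
    have := Acc.of_image hA
    rcases μc m with h | h <;> rw [h.2] at this
    exacts [A₃ this, A₂ this]
  choose P p1 p2 p3 p4 nx p5 p6 using step
  obtain ⟨x₀, hx₀⟩ := n₂
  let x : (m : ℕ) → Y m := fun m => Nat.rec (motive := fun m => Y m)
    ⟨wd f g ((0 : ℕ) • η) x₀, x₀, by simpa [hμ] using hx₀, rfl⟩
    (fun m y => ⟨nx m y.1 y.2, p6 m y.1 y.2⟩) m
  have Pf : ∀ m, ∀ y ∈ P m (x m).1 (x m).2, ∃ z ∈ II f g R (μ m), wd f g (m • η) z = y :=
    fun m y hy => by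
      obtain ⟨z, hz, e⟩ := p4 m _ _ hy
      exact ⟨z, ZZ_sub hz, e⟩
  refine ⟨fun m => P m (x m).1 (x m).2, ⟨fun m => p1 _ _ _, fun m => p2 _ _ _,
    fun m => ⟨(x (m + 1)).1, p5 m _ _, p3 _ _ _⟩, fun r => ?_⟩, fun p => ?_⟩
  · filter_upwards [deep hc hC e₂ r, deep hc hC e₃ r] with m a₂ a₃ y hy
    obtain ⟨z, hz, rfl⟩ := Pf m y hy
    rcases μc m with h | h <;> rw [h.1] at hz
    exacts [(a₂ z hz).le, (a₃ z hz).le]
  obtain ⟨x₁, hx₁⟩ := n₁
  obtain ⟨M, hM⟩ := ns_deep hc hC e₁ e₂ e₃ (ZZ_sub hx₁)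
  have key : ∀ q : ℤ × ℤ, ∀ᶠ m : ℕ in atTop, ∀ y ∈ P m (x m).1 (x m).2,
      wd f g q y ∈ wd f g (M • η) '' (II f g R ν₂ ∪ II f g R ν₃) := fun q => by
    filter_upwards [ev_ip e₂ (-(M • η) + q), ev_ip e₃ (-(M • η) + q)] with m a₂ a₃ y hy
    obtain ⟨z, hz, rfl⟩ := Pf m y hy
    rw [mem_image_h, ← wd_neg hc, ← hmul, ← hmul, ← wd_add hc, ← wd_add hc]
    rcases μc m with h | h <;> rw [h.1] at hz
    exacts [Or.inl (map_II hc a₂.le hz), Or.inr (map_II hc a₃.le hz)]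
  obtain ⟨n, hn⟩ := eventually_atTop.1 ((key 0).and (key p))
  refine ⟨n, fun K hK hK' => hM K hK (hK'.trans ?_)⟩
  rintro y (hy | ⟨z, hz, rfl⟩)
  · obtain ⟨j, hj, hy⟩ := mem_tl.1 hy
    simpa only [wd_zero, hone] using (hn j hj).1 y hy
  · obtain ⟨j, hj, hz⟩ := mem_tl.1 hz
    exact (hn j hj).2 z hz

end

end Pool.Agent.Lib.MP_d32f96_gt
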