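import Pool.Agent.Lib.MP_d32f96_gt.Frame

/-! Logarithms on tails of chains, and an angle function whose integer level set is a given
closed connected unbounded set. -/

namespace Pool.Agent.Lib.MP_d32f96_gt

open Set Filter Topology Metric Complex Bornology
open Pool.Agent.Lib.MP_1e9af3_an Pool.Agent.Lib.MP_069d55_gt

noncomputable section

namespace K01

/-! ### logarithms on increasing unions -/

lemma log_of_exh {X : Set ℂ} {K : ℕ → Set ℂ} (hm : Monotone K) (hc : ∀ m, IsPreconnected (K m))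
    (hne : (K 0).Nonempty) (hlog : ∀ m, HasLog id (K m))
    (hloc : ∀ R : ℝ, ∃ m, X ∩ ball 0 R ⊆ K m) : HasLog id X := by
  classical
  obtain ⟨b, hb⟩ := hne
  choose L hL hLe using hlog
  have hbm : ∀ m, b ∈ K m := fun m => hm (Nat.zero_le m) hb
  set L' : ℕ → ℂ → ℂ := fun m z => L m z - L m b + L 0 b with hL'
  have hL'c : ∀ m, ContinuousOn (L' m) (K m) := fun m =>
    ((hL m).sub continuousOn_const).add continuousOn_const
  have hL'e : ∀ m, ∀ z ∈ K m, ee (L' m z) = z := fun m z hz => by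
    have h1 := hLe m b (hbm m)
    have h2 := hLe 0 b hb
    have h3 := hLe m z hz
    have h4 : b ≠ 0 := by
      have := ee_ne (L 0 b)
      rwa [h2] at this
    simp only [id] at h1 h2 h3
    simp only [hL', ee_add, ee_sub, h1, h2, h3]
    field_simp
  have hagree : ∀ m m', m ≤ m' → ∀ z ∈ K m, L' m z = L' m' z := fun m m' h z hz => by
    have := int_const (hc m) (g := fun z => L' m z - L' m' z)
      ((hL'c m).sub ((hL'c m').mono (hm h))) (fun x hx => by
        obtain ⟨n, hn⟩ := ee_eq_iff.1 ((hL'e m x hx).trans (hL'e m' x (hm h hx)).symm)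
        exact ⟨n, by rw [hn]; ring⟩) hz (hbm m)
    simp only [hL'] at this ⊢
    linear_combination this
  have hagree' : ∀ m m', ∀ z ∈ K m, z ∈ K m' → L' m z = L' m' z := fun m m' z hz hz' => by
    rcases le_total m m' with h | h
    · exact hagree m m' h z hz
    · exact (hagree m' m h z hz').symm
  choose M hM using hloc
  have hzM : ∀ z ∈ X, z ∈ K (M (‖z‖ + 1)) := fun z hz =>
    hM _ ⟨hz, mem_ball_zero_iff.2 (lt_add_one _)⟩
  refine ⟨fun z => L' (M (‖z‖ + 1)) z, fun z hz => ?_, fun z hz => hL'e _ z (hzM z hz)⟩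
  have hn : ball (0 : ℂ) (‖z‖ + 1) ∈ 𝓝 z :=
    isOpen_ball.mem_nhds (mem_ball_zero_iff.2 (lt_add_one _))
  rw [← continuousWithinAt_inter hn]
  refine (((hL'c (M (‖z‖ + 1))) z (hzM z hz)).mono (hM _)).congr (fun y hy => ?_) rfl
  exact hagree' _ _ y (hzM y hy.1) (hM _ hy)

lemma closed_of_exh {X : Set ℂ} {K : ℕ → Set ℂ} (hc : ∀ m, IsClosed (K m)) (hs : ∀ m, K m ⊆ X)
    (hloc : ∀ R : ℝ, ∃ m, X ∩ ball 0 R ⊆ K m) : IsClosed X := by
  refine isClosed_of_closure_subset fun z hz => ?_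
  obtain ⟨m, hm⟩ := hloc (‖z‖ + 1)
  have h1 : z ∈ closure (X ∩ ball 0 (‖z‖ + 1)) := by
    rw [inter_comm]
    exact isOpen_ball.inter_closure ⟨mem_ball_zero_iff.2 (lt_add_one _), hz⟩
  exact hs m ((hc m).closure_subset_iff.2 hm h1)

lemma HasLog.union_disj {A B : Set ℂ} {g : ℂ → ℂ} (hA : IsClosed A) (hB : IsClosed B)
    (hd : Disjoint A B) (h1 : HasLog g A) (h2 : HasLog g B) : HasLog g (A ∪ B) := by
  classical
  obtain ⟨L1, hL1, he1⟩ := h1
  obtain ⟨L2, hL2, he2⟩ := h2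
  have hB' : ∀ z ∈ B, z ∉ A := fun z hz hz' => hd.le_bot ⟨hz', hz⟩
  refine ⟨A.piecewise L1 L2, ContinuousOn.union_of_isClosed
    (hL1.congr fun z hz => piecewise_eq_of_mem _ _ _ hz)
    (hL2.congr fun z hz => piecewise_eq_of_notMem _ _ _ (hB' z hz)) hA hB, ?_⟩
  rintro z (hz | hz)
  · rw [piecewise_eq_of_mem _ _ _ hz, he1 z hz]
  · rw [piecewise_eq_of_notMem _ _ _ (hB' z hz), he2 z hz]

/-- the finite parts of a tail -/
def pt (J : ℕ → Set ℂ) (n : ℕ) : ℕ → Set ℂ
  | 0 => J n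
  | m + 1 => pt J n m ∪ J (n + m + 1)

lemma pt_mono (J : ℕ → Set ℂ) (n : ℕ) : Monotone (pt J n) :=
  monotone_nat_of_le_succ fun _ => subset_union_left

lemma subset_pt (J : ℕ → Set ℂ) (n m : ℕ) : J (n + m) ⊆ pt J n m := by
  cases m with
  | zero => exact subset_rfl
  | succ m => exact subset_union_right

lemma pt_subset (J : ℕ → Set ℂ) (n m : ℕ) : pt J n m ⊆ tl J n := by
  induction m with
  | zero => exact fun z hz => mem_iUnion₂.2 ⟨n, le_rfl, hz⟩
  | succ m ih => exact union_subset ih fun z hz => mem_iUnion₂.2 ⟨n + m + 1, by omega, hz⟩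

lemma pt_compact {J : ℕ → Set ℂ} (h : Chn J) (n m : ℕ) : IsCompact (pt J n m) := by
  induction m with
  | zero => exact h.1 n
  | succ m ih => exact ih.union (h.1 _)

lemma pt_conn {J : ℕ → Set ℂ} (h : Chn J) (n m : ℕ) : IsPreconnected (pt J n m) := by
  induction m with
  | zero => exact h.2.1 n
  | succ m ih =>
    obtain ⟨x, hx1, hx2⟩ := h.2.2.1 (n + m)
    exact ih.union x (subset_pt J n m hx1) hx2 (h.2.1 _)

lemma pt_loc {J : ℕ → Set ℂ} (h : Chn J) (n : ℕ) (R : ℝ) : ∃ m, tl J n ∩ ball 0 R ⊆ pt J n m := by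
  obtain ⟨N, hN⟩ := eventually_atTop.1 (h.2.2.2 R)
  refine ⟨N, fun z hz => ?_⟩
  obtain ⟨j, hj, hzj⟩ := mem_iUnion₂.1 hz.1
  have hjN : j < N := by
    by_contra hc
    exact (mem_ball_zero_iff.1 hz.2).not_ge (hN j (not_lt.1 hc) z hzj)
  obtain ⟨i, rfl⟩ := Nat.exists_eq_add_of_le hj
  exact pt_mono J n (by omega : i ≤ N) (subset_pt J n i hzj)

lemma pt_loc' {J : ℕ → Set ℂ} (h : Chn J) (s : H) (n : ℕ) (R : ℝ) :
    ∃ m, s '' tl J n ∩ ball 0 R ⊆ s '' pt J n m := by
  obtain ⟨R', hR'⟩ := proper s R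
  obtain ⟨m, hm⟩ := pt_loc h n R'
  refine ⟨m, ?_⟩
  rintro _ ⟨⟨x, hx, rfl⟩, hz⟩
  refine mem_image_of_mem _ (hm ⟨hx, mem_ball_zero_iff.2 ?_⟩)
  by_contra hc
  exact (mem_ball_zero_iff.1 hz).not_ge (hR' x (not_lt.1 hc))

/-! ### the equivariant angle function -/

lemma exists_U {Lo A : Set ℂ} (hLo : IsOpen Lo) (hLc : IsClosed (Lo ∪ A)) (hd : ∀ w ∈ A, w ∉ Lo)
    (hs : ∀ w ∈ Lo ∪ A, w - 1 ∈ Lo) (hup : ∀ w : ℂ, ∃ k : ℤ, w - k ∈ Lo)
    (hdown : ∀ w : ℂ, ∃ k : ℤ, w - k ∉ Lo) :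
    ∃ U : ℂ → ℝ, Continuous U ∧ (∀ (w : ℂ) (n : ℤ), U (w + n) = U w + n) ∧
      ∀ w, (∃ n : ℤ, U w = n) ↔ ∃ k : ℤ, w - k ∈ A := by
  have hmono : ∀ (w : ℂ) (k j : ℤ), k ≤ j → w - k ∈ Lo → w - j ∈ Lo := fun w k j hkj hk => by
    induction j, hkj using Int.leInduction with
    | base => exact hk
    | succ j _ ih =>
      have := hs _ (Or.inl ih)
      rwa [sub_sub, ← Int.cast_one (R := ℂ), ← Int.cast_add] at this
  have hn : ∀ w : ℂ, ∃ k : ℤ, w - k ∉ Lo ∧ ∀ j : ℤ, w - j ∉ Lo → j ≤ k := fun w => by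
    obtain ⟨k, hk⟩ := hup w
    refine Int.exists_greatest_of_bdd ⟨k, fun j hj => ?_⟩ (hdown w)
    by_contra hc
    exact hj (hmono w k j (not_le.1 hc).le hk)
  choose n hn1 hn2 using hn
  have hn3 : ∀ w : ℂ, w - n w - 1 ∈ Lo := fun w => by
    by_contra hc
    have := hn2 w (n w + 1) (by rwa [Int.cast_add, Int.cast_one, ← sub_sub])
    omega
  have hchar : ∀ (w : ℂ) (k : ℤ), w - k ∉ Lo → w - k - 1 ∈ Lo → n w = k := fun w k h1 h2 => by
    refine le_antisymm ?_ (hn2 w k h1)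
    by_contra hc
    refine hn1 w (hmono w (k + 1) _ (by omega) ?_)
    rwa [Int.cast_add, Int.cast_one, ← sub_sub]
  set C : Set ℂ := Lo ∪ A with hC
  set D : Set ℂ := {w | w - 1 ∉ Lo} with hD
  have hDc : IsClosed D := hLo.isClosed_compl.preimage (continuous_id.sub continuous_const)
  have hCne : C.Nonempty := by
    obtain ⟨k, hk⟩ := hup 0
    exact ⟨_, Or.inl hk⟩
  have hDne : D.Nonempty := by
    obtain ⟨k, hk⟩ := hdown 0
    exact ⟨0 - k + 1, by simpa [hD] using hk⟩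
  have hpos : ∀ w, 0 < infDist w C + infDist w D := fun w => by
    by_cases h : w ∈ C
    · have : 0 < infDist w D := (hDc.notMem_iff_infDist_pos hDne).1 (fun h' => h' (hs w h))
      linarith [infDist_nonneg (x := w) (s := C)]
    · have : 0 < infDist w C := (hLc.notMem_iff_infDist_pos hCne).1 h
      linarith [infDist_nonneg (x := w) (s := D)]
  set f : ℂ → ℝ := fun w => infDist w C / (infDist w C + infDist w D) with hf
  have hfc : Continuous f := (continuous_infDist_pt C).div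
    ((continuous_infDist_pt C).add (continuous_infDist_pt D)) fun w => (hpos w).ne'
  have hf0 : ∀ w ∈ C, f w = 0 := fun w hw => by simp [hf, infDist_zero_of_mem hw]
  have hf1 : ∀ w ∈ D, f w = 1 := fun w hw => by
    have := hpos w
    rw [infDist_zero_of_mem hw, add_zero] at this
    simp [hf, infDist_zero_of_mem hw, this.ne']
  have hfp : ∀ w, w ∉ C → 0 < f w := fun w hw =>
    div_pos ((hLc.notMem_iff_infDist_pos hCne).1 hw) (hpos w)
  have hfl : ∀ w, w ∉ D → f w < 1 := fun w hw => by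
    have : 0 < infDist w D := (hDc.notMem_iff_infDist_pos hDne).1 hw
    rw [hf, div_lt_one (hpos w)]
    linarith
  refine ⟨fun w => n w + f (w - n w), continuous_iff_continuousAt.2 fun w₀ => ?_, fun w m => ?_,
    fun w => ⟨?_, ?_⟩⟩
  · have h1 : ∀ᶠ w : ℂ in 𝓝 w₀, w - n w₀ - 1 ∈ Lo :=
      (by fun_prop : Continuous fun w : ℂ => w - n w₀ - 1).continuousAt.eventually
        (hLo.mem_nhds (hn3 w₀))
    have h2 : ∀ᶠ w : ℂ in 𝓝 w₀, w - n w₀ + 1 ∈ Cᶜ :=
      (by fun_prop : Continuous fun w : ℂ => w - n w₀ + 1).continuousAt.eventually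
        (hLc.isOpen_compl.mem_nhds fun h => hn1 w₀ (by simpa using hs _ h))
    have h3 : ContinuousAt (fun w : ℂ => (n w₀ : ℝ) - 1 + f (w - n w₀ + 1) + f (w - n w₀)) w₀ := by
      fun_prop
    refine h3.congr ?_
    filter_upwards [h1, h2] with w hw1 hw2
    by_cases h : w - n w₀ ∈ Lo
    · have h4 : n w = n w₀ - 1 := hchar w _
        (by rw [Int.cast_sub, Int.cast_one, ← sub_add]; exact fun h' => hw2 (Or.inl h'))
        (by rw [Int.cast_sub, Int.cast_one, ← sub_add, add_sub_cancel_right]; exact h)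
      rw [hf0 _ (Or.inl h), h4, Int.cast_sub, Int.cast_one, Int.cast_sub, Int.cast_one, ← sub_add,
        add_zero]
    · rw [hchar w _ h hw1, hf1 (w - n w₀ + 1) (by simpa [hD] using h), sub_add_cancel]
  · have h4 : n (w + m) = n w + m := hchar _ _
      (by rw [Int.cast_add, add_sub_add_right_eq_sub]; exact hn1 w)
      (by rw [Int.cast_add, add_sub_add_right_eq_sub]; exact hn3 w)
    simp only [h4, Int.cast_add, add_sub_add_right_eq_sub]
    ring
  · rintro ⟨m, hm⟩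
    refine ⟨n w, ?_⟩
    by_contra hc
    have h1 := hfp (w - n w) (fun h => h.elim (hn1 w) hc)
    have h2 := hfl (w - n w) (fun h => h (hn3 w))
    have h3 : (n w : ℝ) < m := by simp only at hm; linarith
    have h4 : (m : ℝ) < n w + 1 := by simp only at hm; linarith
    have h5 : n w < m := by exact_mod_cast h3
    have h6 : m < n w + 1 := by exact_mod_cast h4
    omega
  · rintro ⟨k, hk⟩
    refine ⟨k, ?_⟩
    simp only [hchar w k (hd _ hk) (hs _ (Or.inr hk)), hf0 _ (Or.inr hk), add_zero]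

/-! ### separation -/

lemma path_of_joined {S : Set ℂ} {a b : ℂ} (h : JoinedIn S a b) :
    ∃ γ : ℝ → ℂ, Continuous γ ∧ γ 0 = a ∧ γ 1 = b ∧ (∀ t, γ t ∈ S) ∧ IsCompact (range γ) := by
  refine ⟨h.somePath.extend, h.somePath.continuous_extend, by simp, by simp, fun t => ?_, ?_⟩
  · exact h.somePath_mem _
  · rw [Path.extend_range]
    exact isCompact_range h.somePath.continuous

lemma joined_of_cc {O : Set ℂ} (hO : IsOpen O) {a b : ℂ} (h : b ∈ connectedComponentIn O a) :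
    JoinedIn O a b := by
  have ha : a ∈ O := connectedComponentIn_nonempty_iff.1 ⟨b, h⟩
  have := (hO.connectedComponentIn (x := a)).isConnected_iff_isPathConnected.1
    (isConnected_connectedComponentIn_iff.2 ha)
  exact (this.joinedIn a (mem_connectedComponentIn ha) b h).mono (connectedComponentIn_subset _ _)

lemma joined_of_convex {S : Set ℂ} (h : Convex ℝ S) {a b : ℂ} (ha : a ∈ S) (hb : b ∈ S) :
    JoinedIn S a b := (h.isPathConnected ⟨a, ha⟩).joinedIn a ha b hb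

lemma convex_im (y : ℝ) : Convex ℝ {w : ℂ | w.im = y} := convex_hyperplane imLm.isLinear y

lemma convex_re (x : ℝ) : Convex ℝ {w : ℂ | w.re = x} := convex_hyperplane reLm.isLinear x

lemma sep (hX : S_X) {A : Set ℂ} (hc : IsPreconnected A) (hA : IsClosed A) {x y : ℝ}
    (hup : ∀ M, ∃ w ∈ A, M ≤ w.im) (hdown : ∀ M, ∃ w ∈ A, w.im ≤ M)
    (hl : ∀ w ∈ A, w.im = y → w.re = x) :
    (⟨x + 1, y⟩ : ℂ) ∉ connectedComponentIn Aᶜ (⟨x - 1, y⟩ : ℂ) := fun hb => by
  obtain ⟨γ, hγ, h0, h1, hγA, hγc⟩ := path_of_joined (joined_of_cc hA.isOpen_compl hb)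
  set S1 : Set ℂ := {w | w.im = y} ∩ {w | w.re ≤ x - 1} with hS1
  set S2 : Set ℂ := {w | w.im = y} ∩ {w | x + 1 ≤ w.re} with hS2
  set S : Set ℂ := range γ ∪ (S1 ∪ S2) with hS
  have hSc : IsClosed S := hγc.isClosed.union
    (((isClosed_eq continuous_im continuous_const).inter
      (isClosed_le continuous_re continuous_const)).union
    ((isClosed_eq continuous_im continuous_const).inter
      (isClosed_le continuous_const continuous_re)))
  have hAS : A ⊆ Sᶜ := by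
    rintro w hw (⟨t, rfl⟩ | h | h)
    · exact hγA t hw
    · have h2 : w.re ≤ x - 1 := h.2
      linarith [hl w hw h.1]
    · have h2 : x + 1 ≤ w.re := h.2
      linarith [hl w hw h.1]
  obtain ⟨M, hM⟩ := hγc.isBounded.exists_norm_le
  have hM' : ∀ w ∈ S, |w.im| ≤ max M |y| := by
    rintro w (h | h | h)
    · exact ((abs_im_le_norm w).trans (hM w h)).trans (le_max_left _ _)
    · rw [show w.im = y from h.1]; exact le_max_right _ _
    · rw [show w.im = y from h.1]; exact le_max_right _ _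
  obtain ⟨p, hp, hp'⟩ := hdown (-max M |y|)
  obtain ⟨q, hq, hq'⟩ := hup (max M |y|)
  obtain ⟨P, hP, hP0, hP1, hPS, hPc⟩ := path_of_joined
    (joined_of_cc hSc.isOpen_compl (hc.subset_connectedComponentIn hp hAS hq))
  obtain ⟨N, hN⟩ := hPc.isBounded.exists_norm_le
  have hj1 : JoinedIn S ⟨min (-N) (x - 1), y⟩ ⟨x - 1, y⟩ :=
    (joined_of_convex (S := S1) ((convex_im y).inter (convex_halfSpace_re_le _))
      ⟨rfl, min_le_right (-N) (x - 1)⟩ ⟨rfl, le_refl (x - 1)⟩).mono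
      (subset_union_left.trans subset_union_right)
  have hj3 : JoinedIn S ⟨x + 1, y⟩ ⟨max N (x + 1), y⟩ :=
    (joined_of_convex (S := S2) ((convex_im y).inter (convex_halfSpace_re_ge _))
      ⟨rfl, le_refl (x + 1)⟩ ⟨rfl, le_max_right N (x + 1)⟩).mono
      (subset_union_right.trans subset_union_right)
  have hj2 : JoinedIn S ⟨x - 1, y⟩ ⟨x + 1, y⟩ :=
    JoinedIn.ofLine hγ.continuousOn h0 h1 (by rintro _ ⟨t, -, rfl⟩; exact Or.inl ⟨t, rfl⟩)
  obtain ⟨Q, hQ, hQ0, hQ1, hQS, -⟩ := path_of_joined (hj1.trans (hj2.trans hj3))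
  obtain ⟨s, -, t, -, hst⟩ := hX P Q hP.continuousOn hQ.continuousOn
    (fun t _ => by
      have := abs_le.1 (hM' _ (hQS t))
      rw [hP0, hP1]
      exact ⟨hp'.trans this.1, this.2.trans hq'⟩)
    (fun s _ => by
      have := abs_le.1 ((abs_re_le_norm _).trans (hN _ ⟨s, rfl⟩))
      rw [hQ0, hQ1]
      exact ⟨(min_le_left _ _).trans this.1, this.2.trans (le_max_left _ _)⟩)
  exact hPS s (hst ▸ hQS t)

/-- the left side of a closed connected set that is a vertical half line high up -/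
lemma exists_left (hX : S_X) {A : Set ℂ} (hc : IsPreconnected A) (hA : IsClosed A) {x y : ℝ}
    (hv : ∀ w : ℂ, y < w.im → (w ∈ A ↔ w.re = x)) (hdown : ∀ M, ∃ w ∈ A, w.im ≤ M)
    (hdis : ∀ w ∈ A, w + 1 ∉ A) (hbd : ∀ M, ∃ B, ∀ w ∈ A, M ≤ w.im → |w.re| ≤ B) :
    ∃ U : ℂ → ℝ, Continuous U ∧ (∀ (w : ℂ) (n : ℤ), U (w + n) = U w + n) ∧
      ∀ w, (∃ n : ℤ, U w = n) ↔ ∃ k : ℤ, w - k ∈ A := by
  set a : ℂ := ⟨x - 1, y + 1⟩ with ha
  set b : ℂ := ⟨x + 1, y + 1⟩ with hb
  set Lo := connectedComponentIn Aᶜ a with hLo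
  have hy : y < y + 1 := lt_add_one y
  have hbn : b ∉ Lo := sep hX hc hA
    (fun M => ⟨⟨x, max M (y + 1)⟩, (hv _ (hy.trans_le (le_max_right _ _))).2 rfl, le_max_left _ _⟩)
    hdown (fun w hw h => (hv w (h ▸ hy)).1 hw)
  have key : ∀ C : Set ℂ, IsPreconnected C → C ⊆ Aᶜ → ∀ w ∈ C, w ∈ Lo → C ⊆ Lo :=
    fun C hC hCA w hw hw' => by
      rw [hLo, connectedComponentIn_eq hw']
      exact hC.subset_connectedComponentIn hw hCA
  have haA : a ∈ Aᶜ := fun h => by
    have : x - 1 = x := (hv a hy).1 h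
    linarith
  have haL : a ∈ Lo := mem_connectedComponentIn haA
  have hLA : Lo ⊆ Aᶜ := connectedComponentIn_subset _ _
  have hQl : ∀ w : ℂ, y < w.im → w.re < x → w ∈ Lo := fun w h1 h2 =>
    key ({w : ℂ | y < w.im} ∩ {w | w.re < x})
      ((convex_halfSpace_im_gt y).inter (convex_halfSpace_re_lt x)).isPreconnected
      (fun v hv' h => (show v.re < x from hv'.2).ne ((hv v hv'.1).1 h)) a
      ⟨hy, show x - 1 < x by linarith⟩ haL ⟨h1, h2⟩
  have hQr : ∀ w : ℂ, y < w.im → x < w.re → w ∉ Lo := fun w h1 h2 h =>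
    hbn (key ({w : ℂ | y < w.im} ∩ {w | x < w.re})
      ((convex_halfSpace_im_gt y).inter (convex_halfSpace_re_gt x)).isPreconnected
      (fun v hv' h => (show x < v.re from hv'.2).ne' ((hv v hv'.1).1 h)) w ⟨h1, h2⟩ h
      ⟨hy, show x < x + 1 by linarith⟩)
  have hm : (⟨x, y + 1⟩ : ℂ) ∈ A := (hv _ hy).2 rfl
  have hA1 : ∀ w ∈ A, w - 1 ∈ Lo := fun w hw =>
    key ((fun v => v - 1) '' A) (hc.image _ (by fun_prop))
      (by rintro _ ⟨v, hv', rfl⟩ h; exact hdis _ h (by simpa using hv'))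
      _ (mem_image_of_mem _ hm) (hQl _ (by simp) (by simp)) (mem_image_of_mem _ hw)
  have hA2 : ∀ w ∈ A, w + 1 ∉ Lo := fun w hw h =>
    hQr _ (by simp) (by simp) (key ((fun v => v + 1) '' A) (hc.image _ (by fun_prop))
      (by rintro _ ⟨v, hv', rfl⟩ h; exact hdis _ hv' h)
      _ (mem_image_of_mem _ hw) h (mem_image_of_mem _ hm))
  have hL1 : ∀ w ∈ Lo, w - 1 ∈ Lo := fun w hw =>
    key ((fun v => v - 1) '' Lo) (isPreconnected_connectedComponentIn.image _ (by fun_prop))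
      (by rintro _ ⟨v, hv', rfl⟩ h; exact hA2 _ h (by simpa using hv'))
      _ (mem_image_of_mem _ haL) (hQl _ (by simp [ha]) (by simp [ha]; linarith))
      (mem_image_of_mem _ hw)
  have hray : ∀ (w : ℂ) (B : ℝ), (∀ v ∈ A, w.im ≤ v.im → |v.re| ≤ B) → ∀ u : ℂ, u.im = w.im →
      B < |u.re| → (u ∈ Lo ↔ (⟨u.re, max w.im (y + 1)⟩ : ℂ) ∈ Lo) := fun w B hB u h1 h2 => by
    have k := key ({v : ℂ | v.re = u.re} ∩ {v | w.im ≤ v.im})
      ((convex_re _).inter (convex_halfSpace_im_ge _)).isPreconnected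
      (fun v hv' h => h2.not_ge ((show v.re = u.re from hv'.1) ▸ hB v h hv'.2))
    have m1 : u ∈ {v : ℂ | v.re = u.re} ∩ {v | w.im ≤ v.im} := ⟨rfl, h1.ge⟩
    have m2 : (⟨u.re, max w.im (y + 1)⟩ : ℂ) ∈ {v : ℂ | v.re = u.re} ∩ {v | w.im ≤ v.im} :=
      ⟨rfl, le_max_left w.im (y + 1)⟩
    exact ⟨fun h => k _ m1 h m2, fun h => k _ m2 h m1⟩
  refine exists_U (Lo := Lo) hA.isOpen_compl.connectedComponentIn ?_ (fun w hw h => hLA h hw)
    (fun w hw => hw.elim (hL1 w) (hA1 w)) (fun w => ?_) (fun w => ?_)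
  · rw [← isOpen_compl_iff, Metric.isOpen_iff]
    intro w hw
    obtain ⟨ε, hε, hs⟩ := Metric.isOpen_iff.1 hA.isOpen_compl w (fun h => hw (Or.inr h))
    refine ⟨ε, hε, fun v hv' h => h.elim (fun h => hw (Or.inl ?_)) (hs hv')⟩
    exact key _ (convex_ball w ε).isPreconnected hs v hv' h (mem_ball_self hε)
  · obtain ⟨B, hB⟩ := hbd w.im
    obtain ⟨k, hk⟩ := exists_int_gt (w.re + |B| + |x|)
    refine ⟨k, (hray w B hB _ (by simp) ?_).2 (hQl _ (hy.trans_le (le_max_right _ _)) ?_)⟩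
    · refine lt_of_lt_of_le ?_ (neg_le_abs _)
      simp only [sub_re, intCast_re]
      linarith [le_abs_self B, abs_nonneg x]
    · simp only [sub_re, intCast_re]
      linarith [neg_le_abs x, abs_nonneg B]
  · obtain ⟨B, hB⟩ := hbd w.im
    obtain ⟨k, hk⟩ := exists_int_lt (w.re - |B| - |x|)
    refine ⟨k, fun h => hQr _ (hy.trans_le (le_max_right _ _)) ?_
      ((hray w B hB _ (by simp) ?_).1 h)⟩
    · simp only [sub_re, intCast_re]
      linarith [le_abs_self x, abs_nonneg B]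
    · refine lt_of_lt_of_le ?_ (le_abs_self _)
      simp only [sub_re, intCast_re]
      linarith [le_abs_self B, abs_nonneg x]

lemma norm_ee_le {v w : ℂ} : ‖ee v‖ ≤ ‖ee w‖ ↔ w.im ≤ v.im := by
  rw [norm_ee, norm_ee, Real.exp_le_exp, neg_le_neg_iff]
  exact mul_le_mul_iff_right₀ (by positivity)

lemma exists_angle (hX : S_X) {T : Set ℂ} (hT : CCU T) (hl : HasLog id T) :
    ∃ U : ℂ → ℝ, Continuous U ∧ (∀ (w : ℂ) (n : ℤ), U (w + n) = U w + n) ∧
      ∃ R : ℝ, ∀ w, R ≤ ‖ee w‖ → ((∃ n : ℤ, U w = n) ↔ ee w ∈ T) := by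
  obtain ⟨L, hL, hLe⟩ := hl
  simp only [id] at hLe
  have hne : T.Nonempty := by
    rw [nonempty_iff_ne_empty]
    rintro rfl
    exact hT.2.2 isBounded_empty
  obtain ⟨t₀, ht₀, hmin⟩ := hT.1.exists_infDist_eq_dist hne 0
  have hmin' : ∀ z ∈ T, ‖t₀‖ ≤ ‖z‖ := fun z hz => by
    have := infDist_le_dist_of_mem (x := (0 : ℂ)) hz
    rwa [hmin, dist_zero_left, dist_zero_left] at this
  set w₀ := L t₀ with hw₀
  set B : Set ℂ := ee ⁻¹' T ∩ (fun w => L (ee w) - w) ⁻¹' {0} with hB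
  have hBm : ∀ w, w ∈ B ↔ ee w ∈ T ∧ L (ee w) = w := fun w => by
    simp [hB, sub_eq_zero]
  have hLB : ∀ z ∈ T, L z ∈ B := fun z hz => (hBm _).2 (by rw [hLe z hz]; exact ⟨hz, rfl⟩)
  have hBL : B = L '' T := subset_antisymm
    (fun w hw => ⟨ee w, ((hBm w).1 hw).1, ((hBm w).1 hw).2⟩)
    (by rintro _ ⟨z, hz, rfl⟩; exact hLB z hz)
  have hBc : IsClosed B := ContinuousOn.preimage_isClosed_of_isClosed
    ((hL.comp continuous_ee.continuousOn fun w hw => hw).sub continuousOn_id)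
    (hT.1.preimage continuous_ee) isClosed_singleton
  set V : Set ℂ := {w : ℂ | w.re = w₀.re} ∩ {w | w₀.im ≤ w.im} with hV
  have hBi : ∀ w ∈ B, w.im ≤ w₀.im := fun w hw => by
    rw [← norm_ee_le, hw₀, hLe t₀ ht₀]
    exact hmin' _ ((hBm w).1 hw).1
  have hlow : ∀ w ∈ B ∪ V, w.im ≤ w₀.im → w ∈ B := by
    rintro w (h | h) h'
    · exact h
    · rw [show w = w₀ from Complex.ext h.1 (le_antisymm h' h.2)]
      exact hLB _ ht₀
  have hv : ∀ w : ℂ, w₀.im < w.im → (w ∈ B ∪ V ↔ w.re = w₀.re) := fun w hw =>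
    ⟨fun h => h.elim (fun h => absurd (hBi w h) hw.not_ge) fun h => h.1,
      fun h => Or.inr ⟨h, hw.le⟩⟩
  obtain ⟨U, hU, hUn, hUA⟩ := exists_left hX (A := B ∪ V) (x := w₀.re) (y := w₀.im)
    (IsPreconnected.union w₀ (hLB _ ht₀) ⟨rfl, le_refl w₀.im⟩ (hBL ▸ hT.2.1.image _ hL)
      ((convex_re _).inter (convex_halfSpace_im_ge _)).isPreconnected)
    (hBc.union ((isClosed_eq continuous_re continuous_const).inter
      (isClosed_le continuous_const continuous_im))) hv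
    (fun M => by
      have h := hT.2.2
      rw [isBounded_iff_forall_norm_le] at h
      push Not at h
      obtain ⟨z, hz, hz'⟩ := h ‖ee ⟨0, M⟩‖
      refine ⟨L z, Or.inl (hLB z hz), ?_⟩
      have := hz'.le
      rwa [← hLe z hz, norm_ee_le] at this)
    (fun w hw hw' => by
      by_cases h : w.im ≤ w₀.im
      · have h1 := ((hBm _).1 (hlow w hw h)).2
        have h2 := ((hBm _).1 (hlow _ hw' (by simpa using h))).2
        rw [ee_add_one, h1] at h2
        simp at h2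
      · have h1 := (hv w (not_le.1 h)).1 hw
        have h2 := (hv (w + 1) (by simpa using h)).1 hw'
        simp only [add_re, one_re] at h2
        linarith)
    (fun M => by
      have hK := (isCompact_closedBall (0 : ℂ) ‖ee ⟨0, M⟩‖).inter_left hT.1
      obtain ⟨C, hC⟩ := hK.exists_bound_of_continuousOn (hL.mono inter_subset_left)
      refine ⟨max C |w₀.re|, ?_⟩
      rintro w (hw | hw) hM
      · have h1 := (hBm w).1 hw
        have h2 := hC (ee w) ⟨h1.1, mem_closedBall_zero_iff.2 (norm_ee_le.2 hM)⟩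
        rw [h1.2] at h2
        exact ((abs_re_le_norm w).trans h2).trans (le_max_left _ _)
      · rw [show w.re = w₀.re from hw.1]
        exact le_max_right _ _)
  refine ⟨U, hU, hUn, ‖t₀‖, fun w hw => (hUA w).trans ⟨?_, fun h => ?_⟩⟩
  · rintro ⟨k, hk⟩
    rw [← hLe t₀ ht₀, norm_ee_le] at hw
    have := ((hBm _).1 (hlow _ hk (by simpa using hw))).1
    rwa [ee_sub, ee_int, div_one] at this
  · obtain ⟨k, hk⟩ := ee_eq_iff.1 (hLe _ h).symm
    refine ⟨k, Or.inl ?_⟩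
    rw [show w - k = L (ee w) by linear_combination hk]
    exact hLB _ h

end K01

open K01 in
theorem sK0_of (h : S_logOut) : S_K0 := by
  intro J s n hJ hNS
  have hlog : ∀ K, IsCompact K → K ⊆ tl J n ∪ s '' tl J n → HasLog id K := fun K hK hs => by
    have := (h K 0 hK).2 (hNS K hK hs)
    simp only [sub_zero] at this
    exact this
  have hne : (pt J n 0).Nonempty := (hJ.2.2.1 n).mono inter_subset_left
  have hc' : ∀ m, IsCompact (s '' pt J n m) := fun m => (pt_compact hJ n m).image s.continuous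
  have hp' : ∀ m, IsPreconnected (s '' pt J n m) := fun m =>
    (pt_conn hJ n m).image _ s.continuous.continuousOn
  by_cases hd : Disjoint (tl J n) (s '' tl J n)
  · refine HasLog.union_disj
      (closed_of_exh (fun m => (pt_compact hJ n m).isClosed) (pt_subset J n) (pt_loc hJ n))
      (closed_of_exh (fun m => (hc' m).isClosed) (fun m => image_mono (pt_subset J n m))
        (pt_loc' hJ s n)) hd ?_ ?_
    · exact log_of_exh (pt_mono J n) (pt_conn hJ n) hne (fun m => hlog _ (pt_compact hJ n m)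
        ((pt_subset J n m).trans subset_union_left)) (pt_loc hJ n)
    · exact log_of_exh (K := fun m => s '' pt J n m) (fun a b hab => image_mono (pt_mono J n hab))
        hp' (hne.image _) (fun m => hlog _ (hc' m)
        ((image_mono (pt_subset J n m)).trans subset_union_right)) (pt_loc' hJ s n)
  · obtain ⟨x, hx1, hx2⟩ := not_disjoint_iff.1 hd
    obtain ⟨m1, hm1⟩ := pt_loc hJ n (‖x‖ + 1)
    obtain ⟨m2, hm2⟩ := pt_loc' hJ s n (‖x‖ + 1)
    have hxb : x ∈ ball (0 : ℂ) (‖x‖ + 1) := mem_ball_zero_iff.2 (lt_add_one _)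
    have h1 : ∀ m, x ∈ pt J n (m + (m1 + m2)) := fun m =>
      pt_mono J n (by omega) (hm1 ⟨hx1, hxb⟩)
    have h2 : ∀ m, x ∈ s '' pt J n (m + (m1 + m2)) := fun m =>
      image_mono (pt_mono J n (by omega)) (hm2 ⟨hx2, hxb⟩)
    refine log_of_exh (K := fun m => pt J n (m + (m1 + m2)) ∪ s '' pt J n (m + (m1 + m2)))
      (fun a b hab => union_subset_union (pt_mono J n (by omega))
        (image_mono (pt_mono J n (by omega))))
      (fun m => (pt_conn hJ n _).union x (h1 m) (h2 m) (hp' _)) ⟨x, Or.inl (h1 0)⟩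
      (fun m => hlog _ ((pt_compact hJ n _).union (hc' _))
        (union_subset_union (pt_subset J n _) (image_mono (pt_subset J n _)))) (fun R => ?_)
    obtain ⟨a, ha⟩ := pt_loc hJ n R
    obtain ⟨b, hb⟩ := pt_loc' hJ s n R
    refine ⟨a + b, ?_⟩
    rintro z ⟨hz | hz, hzb⟩
    · exact Or.inl (pt_mono J n (by omega) (ha ⟨hz, hzb⟩))
    · exact Or.inr (image_mono (pt_mono J n (by omega)) (hb ⟨hz, hzb⟩))

open K01 in
theorem sK1_of (h : S_X) : S_K1 := by
  intro T hT hl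
  obtain ⟨U, hU, hUn, R, hR⟩ := exists_angle h hT hl
  set W : ℂ → ℝ := fun z => U (log z / tpi) - (log z / tpi).re with hW
  have hWe : ∀ w, W (ee w) = U w - w.re := fun w => by
    obtain ⟨n, hn⟩ := ee_eq_iff.1 (ee_log (ee_ne w))
    simp only [hW, hn, hUn, add_re, intCast_re]
    ring
  have hWc : ∀ z : ℂ, z ≠ 0 → ContinuousAt W z := fun z hz =>
    continuousAt_of_ee hz (by simp only [hWe]; fun_prop)
  refine ⟨fun z => (1 - cut 1 1 ‖z‖) * W z, continuous_iff_continuousAt.2 fun z => ?_,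
    max 2 R, fun x hx => ?_⟩
  · by_cases hz : z = 0
    · refine (continuousAt_const (y := (0 : ℝ))).congr ?_
      filter_upwards [closedBall_mem_nhds z one_pos] with y hy
      rw [hz, mem_closedBall_zero_iff] at hy
      rw [cut_le one_pos hy, sub_self, zero_mul]
    · exact (by fun_prop : ContinuousAt (fun z : ℂ => 1 - cut 1 1 ‖z‖) z).mul (hWc z hz)
  · have h2 : (2 : ℝ) ≤ ‖x‖ := (le_max_left _ _).trans hx
    have hx0 : x ≠ 0 := norm_pos_iff.1 (by linarith)
    obtain ⟨w, rfl⟩ : ∃ w, ee w = x := ⟨_, ee_log hx0⟩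
    rw [← hR w ((le_max_right _ _).trans hx)]
    have hn : (‖ee w‖ : ℂ) ≠ 0 := ofReal_ne_zero.2 (norm_ne_zero_iff.2 hx0)
    have h3 : ee w / (‖ee w‖ : ℂ) = ee w.re := by
      rw [div_eq_iff hn, mul_comm]; exact ee_polar w
    have h4 : ang (fun z => (1 - cut 1 1 ‖z‖) * W z) (ee w) = ee (U w) := by
      rw [ang, h3, cut_ge one_pos (by linarith), sub_zero, one_mul, hWe, ← ee_add]
      congr 1; push_cast; ring
    rw [h4, ← ee_zero, ee_eq_iff]
    refine exists_congr fun n => ?_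
    rw [zero_add]
    exact_mod_cast Iff.rfl

end

end Pool.Agent.Lib.MP_d32f96_gt
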