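import Pool.Agent.Lib.MP_d32f96_gt.K3a

/-! Averaging: bounded oscillation for all words gives asymptotic rotations. -/

namespace Pool.Agent.Lib.MP_d32f96_gt

open Set Filter Topology Metric Complex Bornology
open Pool.Agent.Lib.MP_1e9af3_an Pool.Agent.Lib.MP_069d55_gt

noncomputable section

namespace K3

lemma ee_re (z : ℂ) : ee (z.re : ℝ) = ee z / (‖ee z‖ : ℝ) := by
  have h : ee z = ee (z.re : ℝ) * (Real.exp (-(2 * Real.pi * z.im)) : ℝ) := by
    conv_lhs => rw [← re_add_im z, ee_add]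
    congr 1
    rw [ee, ofReal_exp]
    congr 1
    simp only [tpi]
    push_cast
    linear_combination (2 * Real.pi * z.im) * I_mul_I
  rw [norm_ee, eq_div_iff (ofReal_ne_zero.2 (Real.exp_pos _).ne'), ← h]

lemma ang_ne (W : ℂ → ℝ) {x : ℂ} (hx : x ≠ 0) : ang W x ≠ 0 :=
  mul_ne_zero (div_ne_zero hx (ofReal_ne_zero.2 (norm_ne_zero_iff.2 hx))) (ee_ne _)

lemma ev_ne : ∀ᶠ x in cocompact ℂ, x ≠ (0 : ℂ) :=
  ev_iff.2 ⟨1, fun x hx h => by rw [h, norm_zero] at hx; linarith⟩

/-- a logarithm of the displacement quotient off the origin -/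
lemma exists_log0 {s : H} (hs : deg s = 1) : ∃ E : ℂ → ℂ, (∀ x, x ≠ 0 → ContinuousAt E x) ∧
    ∀ x, x ≠ 0 → ee (E x) = (s x - s 0) / x := by
  obtain ⟨L, hL, he⟩ := exists_lift (U := (univ : Set ℂ)) convex_univ isOpen_univ univ_nonempty
    (g := fun w => s (ee w) - s 0) (Continuous.continuousOn (by fun_prop))
    (fun w _ h => ee_ne w (s.injective (sub_eq_zero.1 h)))
  have hL' : Continuous L := continuousOn_univ.1 hL
  have he' : ∀ w, ee (L w) = s (ee w) - s 0 := fun w => he w trivial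
  have hi : ∀ w, ∃ n : ℤ, L (w + 1) - L w = n := fun w => by
    obtain ⟨n, hn⟩ := ee_eq_iff.1 (show ee (L (w + 1)) = ee (L w) by rw [he', he', ee_add_one])
    exact ⟨n, by rw [hn]; ring⟩
  obtain ⟨n, hn⟩ := hi 0
  have hc : ∀ w, L (w + 1) = L w + n := fun w => by
    have := int_const (S := univ) isPreconnected_univ (g := fun w => L (w + 1) - L w)
      (by fun_prop) (fun w _ => hi w) (mem_univ w) (mem_univ 0)
    linear_combination this + hn
  have hw : HasWind (MP_069d55_gt.lp s 0 1) n :=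
    ⟨fun θ => L θ, by fun_prop, fun θ => by simp [he', MP_069d55_gt.lp],
      fun θ => by push_cast; exact hc _⟩
  have hn1 : n = 1 := hw.wind_eq.symm.trans hs
  have hp : ∀ (w : ℂ) (k : ℤ), L (w + k) = L w + k * n := fun w k =>
    lift_int (U := univ) (fun _ _ _ => trivial) (fun w _ => hc w) k w trivial
  have hE : ∀ w, L (log (ee w) / tpi) - log (ee w) / tpi = L w - w := fun w => by
    obtain ⟨k, hk⟩ := ee_eq_iff.1 (ee_log (ee_ne w))
    rw [hk, hp, hn1]; push_cast; ring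
  have ho : IsOpenMap ee := isOpenMap_exp.comp (Homeomorph.mulLeft₀ tpi tpi_ne).isOpenMap
  refine ⟨fun x => L (log x / tpi) - log x / tpi, fun x hx => ?_, fun x hx => ?_⟩
  · obtain ⟨w, rfl⟩ : ∃ w, ee w = x := ⟨_, ee_log hx⟩
    refine Tendsto.mono_left ?_ (ho.nhds_le w)
    rw [tendsto_map'_iff]
    simp only [Function.comp_def, hE]
    exact (hL'.sub continuous_id).tendsto w
  · rw [ee_sub, he', ee_log hx]

/-- `D` is a logarithm near infinity of the angular displacement of `s` -/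
def IsD (W : ℂ → ℝ) (s : H) (D : ℂ → ℝ) : Prop :=
  Continuous D ∧ ∀ᶠ x in cocompact ℂ, ee (D x) = ang W (s x) / ang W x

lemma exists_isD {W : ℂ → ℝ} (hW : Continuous W) {s : H} (hs : deg s = 1) : ∃ D, IsD W s D := by
  obtain ⟨E, hE, he⟩ := exists_log0 hs
  obtain ⟨R, hR⟩ := ev_iff.1 (ev_ne.and (ev_iff.2 (proper s (2 * ‖s 0‖ + 1))))
  have h1 : ∀ x, R ≤ ‖x‖ → ‖s x - (s x - s 0)‖ < ‖s x - s 0‖ := fun x hx => by
    rw [sub_sub_cancel]
    linarith [(hR x hx).2, norm_sub_norm_le (s x) (s 0)]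
  have h2 : ∀ x, R ≤ ‖x‖ → s x - s 0 ≠ 0 := fun x hx =>
    norm_pos_iff.1 ((norm_nonneg _).trans_lt (h1 x hx))
  have h3 : ∀ x, R ≤ ‖x‖ → s x ≠ 0 := fun x hx =>
    norm_pos_iff.1 (by linarith [(hR x hx).2, norm_nonneg (s 0)])
  set F : ℂ → ℂ := fun x => E x + log (s x / (s x - s 0)) / tpi with hF
  have Fe : ∀ x, R ≤ ‖x‖ → ee (F x) = s x / x := fun x hx => by
    rw [hF, ee_add, he x (hR x hx).1, ee_log (div_ne_zero (h3 x hx) (h2 x hx))]
    have := h2 x hx
    field_simp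
  have Fc : ∀ x, R ≤ ‖x‖ → ContinuousAt F x := fun x hx =>
    (hE x (hR x hx).1).add ((ContinuousAt.clog (s.continuous.continuousAt.div
      (s.continuous.continuousAt.sub continuousAt_const) (h2 x hx))
      (mem_slit_of_close (h1 x hx))).div_const _)
  refine ⟨fun x => cl (‖x‖ - R - 1) * (F x).re + W (s x) - W x, Continuous.sub (Continuous.add
    (continuous_iff_continuousAt.2 fun x => ?_) (by fun_prop)) hW,
    ev_iff.2 ⟨R + 2, fun x hx => ?_⟩⟩
  · rcases le_or_gt R ‖x‖ with hx | hx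
    · exact ContinuousAt.mul (by fun_prop) (continuous_re.continuousAt.comp (Fc x hx))
    · refine (continuousAt_const (y := (0 : ℝ))).congr ?_
      filter_upwards [continuous_norm.continuousAt.eventually_lt continuousAt_const hx] with y hy
      rw [cl_zero (by linarith), zero_mul]
  · have hx' : R ≤ ‖x‖ := by linarith
    have h0 := (hR x hx').1
    have h4 : ((‖x‖ : ℝ) : ℂ) ≠ 0 := ofReal_ne_zero.2 (norm_ne_zero_iff.2 h0)
    have h5 : ((‖s x‖ : ℝ) : ℂ) ≠ 0 := ofReal_ne_zero.2 (norm_ne_zero_iff.2 (h3 x hx'))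
    have h6 := ee_ne (W x)
    beta_reduce
    rw [cl_one (t := ‖x‖ - R - 1) (by linarith), one_mul, ofReal_sub, ofReal_add, ee_sub, ee_add,
      ee_re, Fe x hx', norm_div, ang, ang, ofReal_div]
    field_simp

variable {W : ℂ → ℝ} {C : ℝ}

lemma IsD.mul {s t : H} {D E : ℂ → ℝ} (h : IsD W s D) (h' : IsD W t E) :
    IsD W (s * t) fun x => D (t x) + E x := by
  refine ⟨(h.1.comp t.continuous).add h'.1, ?_⟩
  filter_upwards [(tendsto_cocompact t).eventually (h.2.and ev_ne), h'.2] with x h1 h2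
  have := ang_ne W h1.2
  rw [ofReal_add, ee_add, h1.1, h2, hmul]
  field_simp

lemma IsD.int {s : H} {D E : ℂ → ℝ} (h : IsD W s D) (h' : IsD W s E) :
    ∃ n : ℤ, ∀ᶠ x in cocompact ℂ, D x - E x = n := by
  obtain ⟨R, hR⟩ := ev_iff.1 (h.2.and h'.2)
  have hi : ∀ x ∈ {z : ℂ | R ≤ ‖z‖}, ∃ n : ℤ, ((D x - E x : ℝ) : ℂ) = n := fun x hx => by
    obtain ⟨n, hn⟩ := ee_eq_iff.1 ((hR x hx).1.trans (hR x hx).2.symm)
    exact ⟨n, by push_cast; rw [hn]; ring⟩
  obtain ⟨y, hy⟩ := (ev_iff.2 ⟨R, fun x hx => hx⟩ : ∀ᶠ x in cocompact ℂ, R ≤ ‖x‖).exists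
  obtain ⟨n, hn⟩ := hi y hy
  refine ⟨n, ev_iff.2 ⟨R, fun x hx => ?_⟩⟩
  have := int_const (preconn_out R) (g := fun x => ((D x - E x : ℝ) : ℂ))
    (continuous_ofReal.comp (h.1.sub h'.1)).continuousOn hi hx hy
  exact_mod_cast this.trans hn

lemma IsD.osc {s : H} {D : ℂ → ℝ} (h : IsD W s D) (hb : BO W C s) :
    ∃ c : ℝ, ∀ᶠ x in cocompact ℂ, |D x - c| ≤ C := by
  obtain ⟨R, hR⟩ := ev_iff.1 h.2
  obtain ⟨R', hR'⟩ := hb R D h.1.continuousOn hR
  obtain ⟨y, hy⟩ := (ev_iff.2 ⟨R', fun x hx => hx⟩ : ∀ᶠ x in cocompact ℂ, R' ≤ ‖x‖).exists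
  exact ⟨D y, ev_iff.2 ⟨R', fun x hx => hR' x y hx hy⟩⟩

/-- Birkhoff sum -/
def bs (s : H) (D : ℂ → ℝ) (n : ℕ) (x : ℂ) : ℝ := ∑ a ∈ Finset.range n, D ((s ^ a) x)

lemma bs_succ (s : H) (D : ℂ → ℝ) (n : ℕ) (x : ℂ) : bs s D (n + 1) x = bs s D n (s x) + D x := by
  rw [bs, Finset.sum_range_succ']
  simp only [bs, pow_succ, hmul, pow_zero, Homeomorph.one_apply]

lemma IsD.pow {s : H} {D : ℂ → ℝ} (h : IsD W s D) (n : ℕ) : IsD W (s ^ n) (bs s D n) := by
  induction n with
  | zero =>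
    refine ⟨continuous_const, ev_ne.mono fun x hx => ?_⟩
    simp [bs, ee_zero, div_self (ang_ne W hx)]
  | succ n ih =>
    have := ih.mul h
    rw [← pow_succ] at this
    exact (funext (bs_succ s D n) : bs s D (n + 1) = _) ▸ this

lemma ev_sum {s : H} {u v : ℂ → ℝ} {c : ℝ} (h : ∀ᶠ x in cocompact ℂ, u x + v (s x) - v x = c)
    (n : ℕ) : ∀ᶠ x in cocompact ℂ, bs s u n x + v ((s ^ n) x) - v x = n * c := by
  induction n with
  | zero => simp [bs]
  | succ n ih =>
    filter_upwards [h, (tendsto_cocompact s).eventually ih] with x h1 h2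
    rw [bs_succ, pow_succ, hmul]
    push_cast
    linarith

lemma abs_avg {N : ℕ} (hN : 0 < N) {u : ℕ → ℝ} {c e : ℝ}
    (h : ∀ i ∈ Finset.range N, |u i - c| ≤ e) :
    |(∑ i ∈ Finset.range N, u i) / N - c| ≤ e := by
  have hN' : (0 : ℝ) < N := Nat.cast_pos.2 hN
  have e1 : (∑ i ∈ Finset.range N, u i) / N - c = (∑ i ∈ Finset.range N, (u i - c)) / N := by
    rw [Finset.sum_sub_distrib]; simp; field_simp
  rw [e1, abs_div, abs_of_pos hN', div_le_iff₀ hN']
  refine (Finset.abs_sum_le_sum_abs _ _).trans ((Finset.sum_le_sum h).trans ?_)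
  simp [mul_comm]

section main

variable {f g : H} {A B : ℂ → ℝ}

lemma osc_wd (hb : ∀ p, BO W C (wd f g p)) (hA : IsD W f A) (hB : IsD W g B) (i j : ℕ) :
    ∃ c : ℝ, ∀ᶠ x in cocompact ℂ, |bs f A i ((g ^ j) x) + bs g B j x - c| ≤ C := by
  refine ((hA.pow i).mul (hB.pow j)).osc ?_
  simpa [wd] using hb (i, j)

lemma kappa (hc : f * g = g * f) (hb : ∀ p, BO W C (wd f g p)) (hA : IsD W f A)
    (hB : IsD W g B) : ∀ᶠ x in cocompact ℂ, (B x - B (f x)) + A (g x) - A x = 0 := by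
  obtain ⟨n, hn⟩ := (hA.mul hB).int (hc ▸ hB.mul hA)
  have h1 : ∀ᶠ x in cocompact ℂ, (B x - B (f x)) + A (g x) - A x = n :=
    hn.mono fun x hx => by linarith
  obtain ⟨a, ha⟩ := osc_wd hb hA hB 1 0
  have key : ∀ N : ℕ, N * |(n : ℝ)| ≤ 4 * C := fun N => by
    obtain ⟨b, hb'⟩ := osc_wd hb hA hB 0 N
    obtain ⟨x, h2, h3, h4, h5, h6⟩ := ((ev_sum h1 N).and (ha.and
      (((tendsto_cocompact (g ^ N)).eventually ha).and
      (hb'.and ((tendsto_cocompact f).eventually hb'))))).exists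
    have e : bs g (fun x => B x - B (f x)) N x = bs g B N x - bs g B N (f x) := by
      simp only [bs, Finset.sum_sub_distrib]
      congr 1
      refine Finset.sum_congr rfl fun k _ => ?_
      rw [← hmul, ← hmul, (Commute.pow_right hc k).eq]
    simp only [bs, Finset.range_one, Finset.sum_singleton, pow_zero, Homeomorph.one_apply,
      Finset.range_zero, Finset.sum_empty, add_zero, zero_add] at h3 h4 h5 h6
    rw [← Nat.abs_cast N, ← abs_mul, ← h2, e, bs, bs]
    rw [abs_le] at *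
    constructor <;> linarith [h3.1, h3.2, h4.1, h4.2, h5.1, h5.2, h6.1, h6.2]
  have hn0 : n = 0 := by
    by_contra h
    obtain ⟨N, hN⟩ := exists_nat_gt (4 * C)
    have : (1 : ℝ) ≤ |(n : ℝ)| := by exact_mod_cast Int.one_le_abs h
    nlinarith [key N, (N.cast_nonneg : (0 : ℝ) ≤ N)]
  simpa [hn0] using h1

lemma avg (hc : f * g = g * f) (hb : ∀ p, BO W C (wd f g p)) (hA : IsD W f A)
    (hB : IsD W g B) {N : ℕ} (hN : 0 < N) : ∃ (V : ℂ → ℝ) (a b : ℝ), Continuous V ∧
      ∀ᶠ x in cocompact ℂ, |V x| ≤ C ∧ |A x + V (f x) - V x - a| ≤ 3 * C / N ∧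
        |B x + V (g x) - V x - b| ≤ 3 * C / N := by
  have hN' : (0 : ℝ) < N := Nat.cast_pos.2 hN
  choose c hcc using osc_wd hb hA hB
  have hC : 0 ≤ C := by
    obtain ⟨x, hx⟩ := (hcc 0 0).exists
    exact (abs_nonneg _).trans hx
  set D : ℕ → ℕ → ℂ → ℝ := fun i j x => bs f A i ((g ^ j) x) + bs g B j x with hD
  have Dc : ∀ i j, Continuous (D i j) := fun i j => ((hA.pow i).mul (hB.pow j)).1
  have cm : ∀ j x, (g ^ j) (f x) = f ((g ^ j) x) := fun j x => by
    rw [← hmul, ← hmul, (Commute.pow_right hc j).eq]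
  have Df : ∀ j, ∀ᶠ x in cocompact ℂ, ∀ i, D i j (f x) = D (i + 1) j x - A x := fun j => by
    filter_upwards [ev_sum (kappa hc hb hA hB) j] with x hx i
    have e : bs g (fun x => B x - B (f x)) j x = bs g B j x - bs g B j (f x) := by
      simp only [bs, Finset.sum_sub_distrib, cm]
    simp only [hD, bs_succ, cm]
    linarith
  have Dg : ∀ i j x, D i j (g x) = D i (j + 1) x - B x := fun i j x => by
    simp only [hD, bs_succ, pow_succ, hmul]
    ring
  refine ⟨fun x => (∑ j ∈ Finset.range N, (∑ i ∈ Finset.range N, (D i j x - c i j)) / N) / N,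
    c N 0 / N, c 0 N / N, by fun_prop, ?_⟩
  have a1 : ∀ᶠ x in cocompact ℂ, ∀ j ∈ Finset.range (N + 1), ∀ i ∈ Finset.range (N + 1),
      |D i j x - c i j| ≤ C :=
    (eventually_all_finset _).2 fun j _ => (eventually_all_finset _).2 fun i _ => hcc i j
  have a2 : ∀ᶠ x in cocompact ℂ, ∀ j ∈ Finset.range (N + 1), ∀ i ∈ Finset.range (N + 1),
      |bs f A i ((g ^ j) x) - c i 0| ≤ C :=
    (eventually_all_finset _).2 fun j _ => (eventually_all_finset _).2 fun i _ => by
      filter_upwards [(tendsto_cocompact (g ^ j)).eventually (hcc i 0)] with x hx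
      simpa [bs] using hx
  have sub : ∀ i ∈ Finset.range N, i ∈ Finset.range (N + 1) := fun i hi =>
    Finset.range_mono N.le_succ hi
  have top : N ∈ Finset.range (N + 1) := Finset.self_mem_range_succ N
  have bot : 0 ∈ Finset.range (N + 1) := Finset.mem_range.2 N.succ_pos
  filter_upwards [a1, a2, (eventually_all_finset (Finset.range N)).2 fun j _ => Df j]
    with x h1 h2 h3
  refine ⟨?_, ?_, ?_⟩
  · simpa using abs_avg hN (c := 0) fun j hj => abs_avg hN (c := 0)
      (u := fun i => D i j x - c i j) fun i hi => by simpa using h1 j (sub j hj) i (sub i hi)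
  · have e : ∀ j ∈ Finset.range N, (∑ i ∈ Finset.range N, (D i j (f x) - c i j)) / N =
        (∑ i ∈ Finset.range N, (D i j x - c i j)) / N + bs f A N ((g ^ j) x) / N - A x :=
      fun j hj => by
        have t := Finset.sum_range_sub (fun i => D i j x) N
        have t0 : D N j x - D 0 j x = bs f A N ((g ^ j) x) := by simp [hD, bs]
        simp only [h3 j hj, Finset.sum_sub_distrib, Finset.sum_const, Finset.card_range,
          nsmul_eq_mul] at t ⊢
        field_simp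
        linarith
    have := abs_avg hN (c := c N 0 / N) (e := 3 * C / N) (u := fun j => bs f A N ((g ^ j) x) / N)
      fun j hj => by
        rw [← sub_div, abs_div, abs_of_pos hN']
        exact div_le_div_of_nonneg_right ((h2 j (sub j hj) N top).trans (by linarith)) hN'.le
    refine le_of_eq_of_le (congrArg abs ?_) this
    rw [Finset.sum_congr rfl e]
    simp only [Finset.sum_sub_distrib, Finset.sum_add_distrib, Finset.sum_const,
      Finset.card_range, nsmul_eq_mul]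
    field_simp
    ring
  · have e : ∀ y, (∑ j ∈ Finset.range N, (∑ i ∈ Finset.range N, (D i j y - c i j)) / N) / N =
        (∑ i ∈ Finset.range N, (∑ j ∈ Finset.range N, (D i j y - c i j)) / N) / N := fun y => by
      rw [← Finset.sum_div, ← Finset.sum_div, Finset.sum_comm]
    have e' : ∀ i ∈ Finset.range N, (∑ j ∈ Finset.range N, (D i j (g x) - c i j)) / N =
        (∑ j ∈ Finset.range N, (D i j x - c i j)) / N + (D i N x - D i 0 x) / N - B x :=
      fun i _ => by
        have t := Finset.sum_range_sub (fun j => D i j x) N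
        simp only [Dg, Finset.sum_sub_distrib, Finset.sum_const, Finset.card_range,
          nsmul_eq_mul] at t ⊢
        field_simp
        linarith
    have := abs_avg hN (c := c 0 N / N) (e := 3 * C / N) (u := fun i => (D i N x - D i 0 x) / N)
      fun i hi => by
        rw [← sub_div, abs_div, abs_of_pos hN']
        refine div_le_div_of_nonneg_right ?_ hN'.le
        have t1 := abs_le.1 (h2 N top i (sub i hi))
        have t2 := abs_le.1 (h2 0 bot i (sub i hi))
        have t3 := abs_le.1 (h1 N top 0 bot)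
        have t4 : D 0 N x = bs g B N x := by simp [hD, bs]
        have t5 : D i 0 x = bs f A i ((g ^ 0) x) := by simp [hD, bs]
        have t6 : D i N x = bs f A i ((g ^ N) x) + bs g B N x := rfl
        rw [abs_le]
        constructor <;> linarith [t1.1, t1.2, t2.1, t2.2, t3.1, t3.2]
    refine le_of_eq_of_le (congrArg abs ?_) this
    simp only [e]
    rw [Finset.sum_congr rfl e']
    simp only [Finset.sum_sub_distrib, Finset.sum_add_distrib, Finset.sum_const,
      Finset.card_range, nsmul_eq_mul]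
    field_simp
    ring

end main

lemma IsD.lim {s : H} {D U : ℂ → ℝ} {ρ : ℝ} (h : IsD W s D)
    (hU : Tendsto (fun x => D x - ρ + U (s x) - U x) (cocompact ℂ) (𝓝 0)) :
    Lim (fun x => W x + U x) s := by
  have h1 : Tendsto (fun x => ee ((D x - ρ + U (s x) - U x + ρ : ℝ) : ℂ)) (cocompact ℂ)
      (𝓝 (ee ((0 + ρ : ℝ) : ℂ))) :=
    ((continuous_ee.comp continuous_ofReal).tendsto _).comp (hU.add_const ρ)
  refine ⟨_, h1.congr' ?_⟩
  filter_upwards [h.2] with x hx
  have e : ∀ y, ang (fun x => W x + U x) y = ang W y * ee (U y) := fun y => by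
    simp only [ang, ofReal_add, ee_add, mul_assoc]
  rw [e, e, mul_div_mul_comm, ← hx, ← ee_sub, ← ee_add]
  congr 1
  push_cast
  ring

lemma bdd_const {s : H} {D V : ℂ → ℝ} {M a e : ℝ} (hM : ∀ᶠ x in cocompact ℂ, |D x| ≤ M)
    (hV : ∀ᶠ x in cocompact ℂ, |V x| ≤ C)
    (h : ∀ᶠ x in cocompact ℂ, |D x + V (s x) - V x - a| ≤ e) : |a| ≤ M + 2 * C + e := by
  obtain ⟨x, h1, h2, h3, h4⟩ := (hM.and (hV.and (((tendsto_cocompact s).eventually hV).and h))).exists
  rw [abs_le] at *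
  constructor <;> linarith [h1.1, h1.2, h2.1, h2.2, h3.1, h3.2, h4.1, h4.2]

end K3

open K3 in
theorem sK3_of : S_K3 := fun f g W C hfg hW hb => by
  obtain ⟨A, hA⟩ := exists_isD hW (s := f) hfg.1
  obtain ⟨B, hB⟩ := exists_isD hW (s := g) hfg.2.1
  choose V a b Vc hV using fun n : ℕ => avg hfg.2.2 hb hA hB n.succ_pos
  obtain ⟨a₀, ha₀⟩ := hA.osc (C := C) (by simpa [wd] using hb (1, 0))
  obtain ⟨b₀, hb₀⟩ := hB.osc (C := C) (by simpa [wd] using hb (0, 1))
  have hC : 0 ≤ C := by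
    obtain ⟨x, hx⟩ := ha₀.exists
    exact (abs_nonneg _).trans hx
  have t : ∀ {u v : ℝ}, |u - v| ≤ C → |u| ≤ |v| + C := fun h => by
    linarith [abs_sub_abs_le_abs_sub _ _ |>.trans h]
  have hq : ∀ n : ℕ, 3 * C / (n.succ : ℕ) ≤ 3 * C := fun n =>
    div_le_self (by linarith) (by exact_mod_cast n.succ_pos)
  have hbd : ∀ n, (a n, b n) ∈ closedBall (0 : ℝ × ℝ) (|a₀| + |b₀| + 6 * C) := fun n => by
    have h1 := bdd_const (ha₀.mono fun x hx => t hx) ((hV n).mono fun x hx => hx.1)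
      ((hV n).mono fun x hx => hx.2.1)
    have h2 := bdd_const (hb₀.mono fun x hx => t hx) ((hV n).mono fun x hx => hx.1)
      ((hV n).mono fun x hx => hx.2.2)
    rw [mem_closedBall_zero_iff, Prod.norm_mk, Real.norm_eq_abs, Real.norm_eq_abs, max_le_iff]
    constructor <;> linarith [hq n, abs_nonneg a₀, abs_nonneg b₀]
  obtain ⟨ρ, -, φ, hφ, hρ⟩ := (isCompact_closedBall _ _).tendsto_subseq hbd
  have e1 : Tendsto (fun k => |a (φ k) - ρ.1|) atTop (𝓝 0) := by
    simpa using ((continuous_fst.tendsto ρ |>.comp hρ).sub_const ρ.1).abs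
  have e2 : Tendsto (fun k => |b (φ k) - ρ.2|) atTop (𝓝 0) := by
    simpa using ((continuous_snd.tendsto ρ |>.comp hρ).sub_const ρ.2).abs
  have e3 : Tendsto (fun k => 3 * C / ((φ k).succ : ℕ)) atTop (𝓝 0) :=
    (tendsto_const_div_atTop_nhds_zero_nat (3 * C)).comp
      ((tendsto_add_atTop_nat 1).comp hφ.tendsto_atTop)
  obtain ⟨U, Uc, h1, h2⟩ := glue f g (V := fun k => V (φ k)) (fun k => Vc _) (C := C)
    (A := fun x => A x - ρ.1) (B := fun x => B x - ρ.2)
    (ε := fun k => |a (φ k) - ρ.1| + |b (φ k) - ρ.2| + 3 * C / ((φ k).succ : ℕ))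
    (by simpa using (e1.add e2).add e3) fun k => by
      filter_upwards [hV (φ k)] with x ⟨x1, x2, x3⟩
      have y1 := abs_nonneg (a (φ k) - ρ.1)
      have y2 := abs_nonneg (b (φ k) - ρ.2)
      have y3 := abs_le.1 (le_refl |a (φ k) - ρ.1|)
      have y4 := abs_le.1 (le_refl |b (φ k) - ρ.2|)
      rw [abs_le] at x2 x3
      exact ⟨x1, abs_le.2 ⟨by linarith [x2.1, y3.1], by linarith [x2.2, y3.2]⟩,
        abs_le.2 ⟨by linarith [x3.1, y4.1], by linarith [x3.2, y4.2]⟩⟩
  exact ⟨fun x => W x + U x, hW.add Uc, hA.lim h1, hB.lim h2⟩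

end

end Pool.Agent.Lib.MP_d32f96_gt
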