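import Pool.Agent.Lib.MP_d32f96_gt.Frame

/-! Rays along which the twisted direction converges: modules `L1` and `L3`. -/

namespace Pool.Agent.Lib.MP_d32f96_gt

open Set Filter Topology Metric Complex Bornology
open Pool.Agent.Lib.MP_1e9af3_an Pool.Agent.Lib.MP_069d55_gt

noncomputable section

namespace L13

lemma ee_real_eq {x y : ℝ} (h : ee x = ee y) : ∃ n : ℤ, x = y + n := by
  obtain ⟨n, hn⟩ := ee_eq_iff.1 h
  exact ⟨n, by exact_mod_cast hn⟩

lemma eq_of_ee {x y : ℝ} (h : ee x = ee y) (hd : |x - y| < 1) : x = y := by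
  obtain ⟨n, hn⟩ := ee_real_eq h
  have h1 : |(n : ℝ)| < 1 := by rwa [hn, add_sub_cancel_left] at hd
  have h2 : |n| < 1 := by exact_mod_cast h1
  have h3 : n = 0 := by rwa [Int.abs_lt_one_iff] at h2
  rw [hn, h3]; simp

lemma ee_re {l : ℂ} (h : ‖ee l‖ = 1) : ee (l.re : ℝ) = ee l := by
  rw [norm_ee, Real.exp_eq_one_iff] at h
  have h0 : l.im = 0 := by
    have := Real.pi_pos
    have h2 : 2 * Real.pi * l.im = 0 := by linarith
    rcases mul_eq_zero.1 h2 with h3 | h3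
    · linarith
    · exact h3
  congr 1
  exact Complex.ext (by simp) (by simp [h0])

lemma ee_half : ee ((1 / 2 : ℝ) : ℂ) = -1 := by
  rw [ee, ← exp_pi_mul_I]; congr 1; unfold tpi; push_cast; ring

/-- a continuous lift of a convergent function converges -/
lemma lift_tendsto {ψ : ℝ → ℝ} {x₀ : ℝ} {v : ℂ} (hc : ContinuousOn ψ (Ici x₀))
    (h : Tendsto (fun x => ee (ψ x)) atTop (𝓝 v)) :
    ∃ b : ℝ, ee b = v ∧ Tendsto ψ atTop (𝓝 b) := by
  have hv : v ≠ 0 := by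
    have h1 := h.norm
    simp only [norm_ee_real] at h1
    have := tendsto_nhds_unique h1 tendsto_const_nhds
    intro h0; rw [h0, norm_zero] at this; exact zero_ne_one this
  have hq : Tendsto (fun x => ee (ψ x) / v) atTop (𝓝 1) := by
    simpa [div_self hv] using h.div_const v
  obtain ⟨x₁, hx₁⟩ := eventually_atTop.1 ((hq.eventually (isOpen_slitPlane.mem_nhds one_mem_slitPlane)).and
    (eventually_ge_atTop x₀))
  have hψ : ContinuousOn (fun x => ((ψ x : ℝ) : ℂ)) (Ici x₁) :=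
    continuous_ofReal.comp_continuousOn (hc.mono fun x hx => (hx₁ x hx).2)
  have hg : ContinuousOn (fun x => (ψ x : ℂ) - log (ee (ψ x) / v) / tpi) (Ici x₁) :=
    hψ.sub ((((continuous_ee.comp_continuousOn hψ).div_const v).clog
      fun x hx => (hx₁ x hx).1).div_const _)
  have hk : ∀ x ∈ Ici x₁, (ψ x : ℂ) - log (ee (ψ x) / v) / tpi - log v / tpi =
      (ψ x₁ : ℂ) - log (ee (ψ x₁) / v) / tpi - log v / tpi := fun x hx => by
    refine int_const isPreconnected_Ici (g := fun x => (ψ x : ℂ) - log (ee (ψ x) / v) / tpi - log v / tpi)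
      (hg.sub continuousOn_const) (fun y _ => ?_) hx self_mem_Ici
    have : ee ((ψ y : ℂ) - log (ee (ψ y) / v) / tpi - log v / tpi) = ee 0 := by
      have := ee_ne (ψ y)
      rw [ee_sub, ee_sub, ee_log hv, ee_log (div_ne_zero (ee_ne _) hv), ee_zero]; field_simp
    simpa using ee_eq_iff.1 this
  have hl : Tendsto (fun x => log (ee (ψ x) / v) / tpi) atTop (𝓝 0) := by
    simpa using (hq.clog one_mem_slitPlane).div_const tpi
  set c := (ψ x₁ : ℂ) - log (ee (ψ x₁) / v) / tpi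
  have h2 : Tendsto (fun x => (ψ x : ℂ)) atTop (𝓝 c) := by
    have h3 : Tendsto (fun x => c + log (ee (ψ x) / v) / tpi) atTop (𝓝 c) := by
      simpa using hl.const_add c
    refine h3.congr' ?_
    filter_upwards [eventually_ge_atTop x₁] with x hx
    linear_combination -hk x hx
  have h4 : Tendsto ψ atTop (𝓝 c.re) := (continuous_re.tendsto c).comp h2
  exact ⟨c.re, tendsto_nhds_unique
    (((continuous_ee.comp continuous_ofReal).tendsto c.re).comp h4) h, h4⟩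

lemma exists_mid {p q : ℝ} (hpq : p < q) {B : Set ℂ} (hB : B.Finite) :
    ∃ b : ℝ, p < b ∧ b < q ∧ ee b ∉ B := by
  by_contra! hn
  refine Set.Ioo_infinite (lt_min hpq (lt_add_one p)) (Finite.of_injOn (f := fun b : ℝ => ee b)
    (fun b hb => hn b hb.1 (hb.2.trans_le (min_le_left _ _))) (fun x hx y hy e => ?_) hB)
  have h1 := hx.2.trans_le (min_le_right _ _)
  have h2 := hy.2.trans_le (min_le_right _ _)
  exact eq_of_ee e (abs_lt.2 ⟨by linarith [hx.1, hy.1], by linarith [hx.1, hy.1]⟩)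

/-- the real part tends to infinity along a ray inside a half strip -/
lemma re_tendsto {ρ : ℝ → ℂ} {x₀ : ℝ} (hρ : Ray ρ)
    (h : ∀ t, 0 ≤ t → x₀ < (ρ t).re ∧ 0 < (ρ t).im ∧ (ρ t).im < 1) :
    Tendsto (fun t => (ρ t).re) atTop atTop := by
  refine tendsto_atTop_mono' _ ?_ (tendsto_atTop_add_const_right _ (-(1 + 2 * |x₀|)) hρ.2.2)
  filter_upwards [eventually_ge_atTop 0] with t ht
  obtain ⟨h1, h2, h3⟩ := h t ht
  have h4 := norm_le_abs_re_add_abs_im (ρ t)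
  rw [abs_of_pos h2] at h4
  have h5 := neg_abs_le x₀
  rcases abs_cases (ρ t).re with h6 | h6 <;> linarith [h6.1, abs_nonneg x₀]

/-- ray lemma with limits on the two sides -/
lemma rl_lim (h : S_RL) {ψ : ℂ → ℝ} {x₀ b₁ b b₂ : ℝ}
    (hc : ContinuousOn ψ {z | x₀ ≤ z.re ∧ 0 ≤ z.im ∧ z.im ≤ 1})
    (h1 : Tendsto (fun x : ℝ => ψ x) atTop (𝓝 b₁))
    (h2 : Tendsto (fun x : ℝ => ψ (x + I)) atTop (𝓝 b₂)) (l1 : b₁ < b) (l2 : b < b₂) :
    ∃ γ, Ray γ ∧ (∀ t, 0 ≤ t → x₀ < (γ t).re ∧ 0 < (γ t).im ∧ (γ t).im < 1) ∧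
      Tendsto (fun t => ψ (γ t)) atTop (𝓝 b) := by
  obtain ⟨x₁, hx₁⟩ := eventually_atTop.1 (((h1.eventually_lt_const l1).and
    (h2.eventually_const_lt l2)).and (eventually_ge_atTop x₀))
  have h0 := (hx₁ x₁ le_rfl).2
  obtain ⟨γ, hγ, hs, ht⟩ := h ψ x₁ b (hc.mono fun z hz => ⟨h0.trans hz.1, hz.2⟩)
    fun x hx => (hx₁ x hx).1
  exact ⟨γ, hγ, fun t h => ⟨h0.trans_lt (hs t h).1, (hs t h).2⟩, ht⟩

/-- polar chart -/
def ch (y : ℂ → ℝ) (z : ℂ) : ℂ := (Real.exp z.re : ℝ) * ee (y z)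

lemma norm_ch (y : ℂ → ℝ) (z : ℂ) : ‖ch y z‖ = Real.exp z.re := by
  rw [ch, norm_mul, norm_ee_real, mul_one, norm_real, Real.norm_eq_abs, abs_of_pos (Real.exp_pos _)]

lemma continuous_ch {y : ℂ → ℝ} (hy : Continuous y) : Continuous (ch y) := by
  unfold ch; fun_prop

lemma ch_eq {y : ℂ → ℝ} {z w : ℂ} (h : ch y z = ch y w) : z.re = w.re ∧ ee (y z) = ee (y w) := by
  have h1 : z.re = w.re := by
    have := congrArg norm h
    rwa [norm_ch, norm_ch, Real.exp_eq_exp] at this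
  refine ⟨h1, ?_⟩
  rw [ch, ch, h1] at h
  exact mul_left_cancel₀ (ofReal_ne_zero.2 (Real.exp_pos _).ne') h

lemma norm_ang (W : ℂ → ℝ) {x : ℂ} (hx : x ≠ 0) : ‖ang W x‖ = 1 := by
  rw [ang, norm_mul, norm_ee_real, mul_one, norm_div, norm_real, norm_norm,
    div_self (norm_ne_zero_iff.2 hx)]

lemma continuousAt_ang {W : ℂ → ℝ} (hW : Continuous W) {x : ℂ} (hx : x ≠ 0) :
    ContinuousAt (ang W) x := by
  have : ((‖x‖ : ℝ) : ℂ) ≠ 0 := ofReal_ne_zero.2 (norm_ne_zero_iff.2 hx)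
  unfold ang
  fun_prop (disch := assumption)

lemma ang_ch (W y : ℂ → ℝ) (z : ℂ) : ang W (ch y z) = ee ((y z + W (ch y z) : ℝ) : ℂ) := by
  have : ((Real.exp z.re : ℝ) : ℂ) ≠ 0 := ofReal_ne_zero.2 (Real.exp_pos _).ne'
  rw [ang, norm_ch, ofReal_add, ee_add]
  congr 1
  rw [ch, mul_div_cancel_left₀ _ this]

lemma tendsto_hom (Φ : H) {f : ℝ → ℂ} {l : Filter ℝ} (h : Tendsto (fun t => ‖f t‖) l atTop) :
    Tendsto (fun t => ‖Φ (f t)‖) l atTop :=
  tendsto_atTop.2 fun R => by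
    obtain ⟨R', hR⟩ := proper Φ R
    exact (h.eventually_ge_atTop R').mono fun t ht => hR _ ht

lemma ray_closed {γ : ℝ → ℂ} (h : Ray γ) : IsClosed (γ '' Ici 0) := by
  refine isClosed_of_closure_subset fun z hz => ?_
  obtain ⟨T, hT⟩ := eventually_atTop.1 (h.2.2.eventually_ge_atTop (‖z‖ + 1))
  have h1 : γ '' Ici 0 ⊆ γ '' Icc 0 T ∪ {w | ‖z‖ + 1 ≤ ‖w‖} := by
    rintro _ ⟨t, ht, rfl⟩
    rcases le_total t T with h2 | h2
    · exact Or.inl ⟨t, ⟨ht, h2⟩, rfl⟩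
    · exact Or.inr (hT t h2)
  rcases closure_minimal h1 ((isCompact_Icc.image h.1).isClosed.union
    (isClosed_le continuous_const continuous_norm)) hz with h2 | h2
  · exact image_mono Icc_subset_Ici_self h2
  · exact absurd h2 (by simp)

lemma glue {f g : ℝ → ℂ} {s : ℝ} {A : Set ℝ} (hf : Continuous f) (hg : Continuous g)
    (e : f s = g s) (jf : InjOn f (A ∩ Iic s)) (jg : InjOn g (A ∩ Ici s))
    (hd : ∀ x ∈ A, x < s → ∀ y ∈ A, s < y → f x ≠ g y) :
    ∃ l : ℝ → ℂ, Continuous l ∧ InjOn l A ∧ (∀ t, t ≤ s → l t = f t) ∧ ∀ t, s ≤ t → l t = g t := by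
  have a1 : ∀ t, t ≤ s → (if t ≤ s then f t else g t) = f t := fun t ht => if_pos ht
  have a2 : ∀ t, s ≤ t → (if t ≤ s then f t else g t) = g t := fun t ht => by
    split_ifs with h
    · rw [le_antisymm h ht, e]
    · rfl
  refine ⟨fun t => if t ≤ s then f t else g t,
    Continuous.if_le hf hg continuous_id continuous_const fun t ht => by rw [ht, e], ?_, a1, a2⟩
  have key : ∀ x ∈ A, ∀ y ∈ A, x ≤ y →
      (if x ≤ s then f x else g x) = (if y ≤ s then f y else g y) → x = y := by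
    intro x hx y hy hxy h
    rcases le_or_gt y s with h1 | h1
    · rw [a1 x (hxy.trans h1), a1 y h1] at h
      exact jf ⟨hx, hxy.trans h1⟩ ⟨hy, h1⟩ h
    · rcases le_or_gt s x with h2 | h2
      · rw [a2 x h2, a2 y h1.le] at h
        exact jg ⟨hx, h2⟩ ⟨hy, h1.le⟩ h
      · rw [a1 x h2.le, a2 y h1.le] at h
        exact absurd h (hd x hx h2 y hy h1)
  intro x hx y hy h
  rcases le_total x y with h1 | h1
  · exact key x hx y hy h1 h
  · exact (key y hy x hx h1 h.symm).symm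

/-- a ray can be made to start at any point off it -/
lemma ray_from (h2 : S_Arc) {γ : ℝ → ℂ} (hγ : Ray γ) {p : ℂ} (hp : p ∉ γ '' Ici 0) :
    ∃ δ, Ray δ ∧ δ 0 = p ∧ ∃ s c : ℝ, ∀ t, s ≤ t → 0 ≤ t + c ∧ δ t = γ (t + c) := by
  obtain ⟨α, hα, a0, a1, -⟩ := h2 univ p (γ 0) isOpen_univ isPreconnected_univ trivial trivial
    fun e => hp ⟨0, self_mem_Ici, e.symm⟩
  obtain ⟨s, ⟨hs, t₀, ht₀, e⟩, hm⟩ := (isCompact_Icc.inter_right
    ((ray_closed hγ).preimage hα.1)).exists_isLeast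
    ⟨1, right_mem_Icc.2 zero_le_one, 0, self_mem_Ici, a1.symm⟩
  have ht₀' : (0 : ℝ) ≤ t₀ := ht₀
  obtain ⟨δ, hc, hi, d1, d2⟩ := glue (f := α) (g := fun t => γ (t + (t₀ - s))) (s := s)
    (A := Ici 0) hα.1 (hγ.1.comp (by fun_prop)) (by simpa using e.symm)
    (fun x hx y hy h => hα.2 ⟨hx.1, hx.2.trans hs.2⟩ ⟨hy.1, hy.2.trans hs.2⟩ h)
    (fun x hx y hy h => by
      have hx' : s ≤ x := hx.2
      have hy' : s ≤ y := hy.2
      have := hγ.2.1 (show 0 ≤ x + (t₀ - s) by linarith) (show 0 ≤ y + (t₀ - s) by linarith) h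
      linarith)
    (fun x hx hxs y _ hy h => (hm (a := x) ⟨⟨hx, hxs.le.trans hs.2⟩, y + (t₀ - s),
      show 0 ≤ y + (t₀ - s) by linarith, h.symm⟩).not_gt hxs)
  refine ⟨δ, ⟨hc, hi, ?_⟩, by rw [d1 0 hs.1, a0], s, t₀ - s, fun t ht => ⟨by linarith, d2 t ht⟩⟩
  refine (hγ.2.2.comp (tendsto_atTop_add_const_right _ (t₀ - s) tendsto_id)).congr' ?_
  filter_upwards [eventually_ge_atTop s] with t ht
  rw [d2 t ht]; rfl

/-- two disjoint rays are the ends of a line -/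
lemma line_of (h2 : S_Arc) {γ₀ γ₁ : ℝ → ℂ} (h0 : Ray γ₀) (h1 : Ray γ₁)
    (hd : ∀ s, 0 ≤ s → ∀ t, 0 ≤ t → γ₀ s ≠ γ₁ t) :
    ∃ l : ℝ → ℂ, Continuous l ∧ Function.Injective l ∧ ∃ c d : ℝ,
      (∀ᶠ t in atTop, l t = γ₀ (t + c)) ∧ ∀ᶠ t in atTop, l (-t) = γ₁ (t + d) := by
  obtain ⟨δ, hδ, d0, s, c, hs⟩ := ray_from h2 h0 (p := γ₁ 0)
    (by rintro ⟨t, ht, e⟩; exact hd t ht 0 le_rfl e)
  obtain ⟨u, ⟨hu, t₁, ht₁, e⟩, hm⟩ := ((isCompact_Icc (a := 0) (b := max s 0)).inter_right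
    ((ray_closed h1).preimage hδ.1)).exists_isGreatest
    ⟨0, left_mem_Icc.2 (le_max_right _ _), 0, self_mem_Ici, d0.symm⟩
  have ht₁' : (0 : ℝ) ≤ t₁ := ht₁
  obtain ⟨l, hc, hi, l1, l2⟩ := glue (f := fun t => γ₁ (-t + (t₁ + u))) (g := δ) (s := u)
    (A := univ) (h1.1.comp (by fun_prop)) hδ.1 (by simpa using e)
    (fun x hx y hy h => by
      have hx' : x ≤ u := hx.2
      have hy' : y ≤ u := hy.2
      have := h1.2.1 (show 0 ≤ -x + (t₁ + u) by linarith) (show 0 ≤ -y + (t₁ + u) by linarith) h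
      linarith)
    (hδ.2.1.mono fun x hx => hu.1.trans hx.2)
    (fun x _ hx y _ hy h => by
      have hx' : 0 ≤ -x + (t₁ + u) := by linarith
      rcases le_total y (max s 0) with h3 | h3
      · exact (hm ⟨⟨hu.1.trans hy.le, h3⟩, _, hx', h⟩).not_gt hy
      · obtain ⟨h4, h5⟩ := hs y ((le_max_left _ _).trans h3)
        exact hd _ h4 _ hx' (h5.symm.trans h.symm))
  refine ⟨l, hc, injOn_univ.1 hi, c, t₁ + u, ?_, ?_⟩
  · filter_upwards [eventually_ge_atTop s, eventually_ge_atTop u] with t h3 h4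
    rw [l2 t h4, (hs t h3).2]
  · filter_upwards [eventually_ge_atTop (-u)] with t h3
    rw [l1 (-t) (by linarith), neg_neg]

/-- continuous majorant on circles -/
lemma exists_maj {W : ℂ → ℝ} (hW : Continuous W) :
    ∃ a : ℝ → ℝ, Continuous a ∧ ∀ (y : ℂ → ℝ) (z : ℂ), |W (ch y z)| + 2 ≤ a z.re := by
  have hc : Continuous fun q : ℝ × ℂ => |W ((Real.exp q.1 : ℝ) * q.2)| := by fun_prop
  refine ⟨fun x => sSup ((fun w => |W ((Real.exp x : ℝ) * w)|) '' closedBall 0 1) + 2,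
    ((isCompact_closedBall (0 : ℂ) 1).continuous_sSup
      (f := fun (x : ℝ) (w : ℂ) => |W ((Real.exp x : ℝ) * w)|) hc).add continuous_const,
    fun y z => ?_⟩
  have := le_csSup ((isCompact_closedBall (0 : ℂ) 1).bddAbove_image
    (f := fun w => |W ((Real.exp z.re : ℝ) * w)|) (Continuous.continuousOn (by fun_prop)))
    (mem_image_of_mem _ (show ee (y z) ∈ closedBall (0 : ℂ) 1 by simp [norm_ee_real]))
  simp only [ch]
  linarith

end L13

open L13

theorem sL1_of (h : S_RL) : S_L1 := by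
  intro W Φ α β v₁ v₂ B hW hαβ hβ h1 h2 hv hB
  set y : ℂ → ℝ := fun z => α + (β - α) * z.im with hy
  have yc : Continuous y := by fun_prop
  obtain ⟨R, hR⟩ := proper Φ 1
  have hne : ∀ z : ℂ, R < z.re → Φ (ch y z) ≠ 0 := fun z hz h0 => by
    have := hR (ch y z) (by rw [norm_ch]; linarith [Real.add_one_le_exp z.re])
    rw [h0, norm_zero] at this; exact this.not_gt one_pos
  obtain ⟨l, lc, le⟩ := exists_lift (U := {z : ℂ | R < z.re}) (convex_halfSpace_re_gt R)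
    (isOpen_lt continuous_const continuous_re) ⟨(R + 1 : ℝ), by simp⟩
    (g := fun z => ang W (Φ (ch y z)))
    (fun z hz => ((continuousAt_ang hW (hne z hz)).comp (f := fun z => Φ (ch y z))
      (Φ.continuous.comp (continuous_ch yc)).continuousAt).continuousWithinAt)
    (fun z hz h0 => by simpa [h0] using norm_ang W (hne z hz))
  have he : ∀ z : ℂ, R < z.re → ee ((l z).re : ℝ) = ang W (Φ (ch y z)) := fun z hz => by
    rw [ee_re (by rw [le z hz, norm_ang W (hne z hz)]), le z hz]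
  have hc : ContinuousOn (fun z => (l z).re) {z : ℂ | R < z.re} :=
    continuous_re.comp_continuousOn lc
  have hc' : ContinuousOn (fun z => (l z).re) {z : ℂ | R + 1 ≤ z.re ∧ 0 ≤ z.im ∧ z.im ≤ 1} :=
    hc.mono fun z hz => (lt_add_one R).trans_le hz.1
  obtain ⟨b₁, e1, t1⟩ := lift_tendsto (ψ := fun x : ℝ => (l x).re) (x₀ := R + 1) (v := v₁)
    (hc.comp continuous_ofReal.continuousOn fun x hx => (lt_add_one R).trans_le hx) (by
      refine (Tendsto.comp h1 Real.tendsto_exp_atTop).congr' ?_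
      filter_upwards [eventually_gt_atTop R] with x hx
      rw [he x hx]; simp [ch, hy])
  obtain ⟨b₂, e2, t2⟩ := lift_tendsto (ψ := fun x : ℝ => (l (x + I)).re) (x₀ := R + 1) (v := v₂)
    (hc.comp (f := fun x : ℝ => (x : ℂ) + I) (Continuous.continuousOn (by fun_prop))
      fun x hx => by simpa using (lt_add_one R).trans_le hx) (by
      refine (Tendsto.comp h2 Real.tendsto_exp_atTop).congr' ?_
      filter_upwards [eventually_gt_atTop R] with x hx
      rw [he _ (by simpa using hx)]; simp [ch, hy])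
  obtain ⟨b, hb, ρ, hρ, hs, ht⟩ : ∃ b : ℝ, ee b ∉ B ∧ ∃ ρ, Ray ρ ∧
      (∀ t, 0 ≤ t → R + 1 < (ρ t).re ∧ 0 < (ρ t).im ∧ (ρ t).im < 1) ∧
      Tendsto (fun t => (l (ρ t)).re) atTop (𝓝 b) := by
    rcases lt_trichotomy b₁ b₂ with hl | hl | hl
    · obtain ⟨b, l1, l2, hb⟩ := exists_mid hl hB
      exact ⟨b, hb, rl_lim h hc' t1 t2 l1 l2⟩
    · exact absurd (e1.symm.trans (hl ▸ e2)) hv
    · obtain ⟨b, l1, l2, hb⟩ := exists_mid hl hB
      obtain ⟨ρ, hρ, hs, ht⟩ := rl_lim h (ψ := fun z => -(l z).re) hc'.neg t1.neg t2.neg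
        (neg_lt_neg l2) (neg_lt_neg l1)
      exact ⟨b, hb, ρ, hρ, hs, by simpa using ht.neg⟩
  have hys : ∀ t, 0 ≤ t → α < y (ρ t) ∧ y (ρ t) < β := fun t h0 => by
    obtain ⟨-, h3, h4⟩ := hs t h0
    constructor <;> simp only [hy] <;> nlinarith
  refine ⟨fun t => Φ (ch y (ρ t)), ⟨Φ.continuous.comp ((continuous_ch yc).comp hρ.1),
    fun s s0 t t0 e => hρ.2.1 s0 t0 ?_, tendsto_hom Φ ?_⟩,
    fun t h0 => ⟨_, ⟨_, Real.exp_pos _, _, (hys t h0).1, (hys t h0).2, rfl⟩, rfl⟩, ee b, hb, ?_⟩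
  · obtain ⟨e1, e2⟩ := ch_eq (Φ.injective e)
    have e3 := eq_of_ee e2 (abs_lt.2 ⟨by linarith [hys s s0, hys t t0], by
      linarith [hys s s0, hys t t0]⟩)
    exact Complex.ext e1 (mul_left_cancel₀ (sub_pos.2 hαβ).ne' (add_left_cancel e3))
  · simp only [norm_ch]
    exact Real.tendsto_exp_atTop.comp (re_tendsto hρ hs)
  · refine (((continuous_ee.comp continuous_ofReal).tendsto b).comp ht).congr' ?_
    filter_upwards [eventually_ge_atTop 0] with t h0
    exact he _ ((lt_add_one R).trans (hs t h0).1)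

theorem sL3_of (h1 : S_RL) (h2 : S_Arc) (h3 : S_Line) : S_L3 := by
  intro W hW
  obtain ⟨a, ac, ha⟩ := exists_maj hW
  set y : ℂ → ℝ := fun z => (2 * z.im - 1) * a z.re with hy
  have yc : Continuous y := by fun_prop
  set ψ : ℂ → ℝ := fun z => y z + W (ch y z) with hψ
  have ψc : Continuous ψ := yc.add (hW.comp (continuous_ch yc))
  have inj : ∀ z w, ch y z = ch y w → |ψ z - ψ w| < 1 → z = w := fun z w e hl => by
    obtain ⟨e1, e2⟩ := ch_eq e
    have e3 := eq_of_ee e2 (by simpa only [hψ, e, add_sub_add_right_eq_sub] using hl)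
    have h0 : a w.re ≠ 0 := by linarith [ha y w, abs_nonneg (W (ch y w))] |> fun h : 0 < a w.re => h.ne'
    simp only [hy, e1] at e3
    exact Complex.ext e1 (by linarith [mul_right_cancel₀ h0 e3])
  have key : ∀ b : ℝ, |b| < 1 → ∃ ρ : ℝ → ℂ, Ray (fun t => ch y (ρ t)) ∧
      (∀ t, 0 ≤ t → |ψ (ρ t) - b| < 1 / 8) ∧
      Tendsto (fun t => ang W (ch y (ρ t))) atTop (𝓝 (ee b)) := fun b hb => by
    obtain ⟨ρ, hρ, hs, ht⟩ := h1 ψ 0 b ψc.continuousOn fun x _ => by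
      have a1 := ha y x
      have a2 := ha y (x + I)
      have b1 := abs_lt.1 hb
      simp only [hψ, hy] at a1 a2 ⊢
      simp only [ofReal_re, ofReal_im, add_re, add_im, I_re, I_im, add_zero, zero_add] at a1 a2 ⊢
      constructor
      · linarith [le_abs_self (W (ch y x))]
      · linarith [neg_abs_le (W (ch y (x + I)))]
    obtain ⟨T, hT⟩ := eventually_atTop.1 ((Metric.tendsto_nhds.1 ht (1 / 8) (by norm_num)).and
      (eventually_ge_atTop 0))
    have hT' : ∀ t, 0 ≤ t → |ψ (ρ (t + T)) - b| < 1 / 8 ∧ 0 ≤ t + T := fun t h0 =>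
      hT _ (by linarith)
    have tt := tendsto_atTop_add_const_right atTop T tendsto_id
    refine ⟨fun t => ρ (t + T), ⟨(continuous_ch yc).comp (hρ.1.comp (by fun_prop)),
      fun s s0 t t0 e => ?_, ?_⟩, fun t h0 => (hT' t h0).1, ?_⟩
    · have c1 := abs_lt.1 (hT' s s0).1
      have c2 := abs_lt.1 (hT' t t0).1
      exact add_right_cancel (hρ.2.1 (hT' s s0).2 (hT' t t0).2
        (inj _ _ e (abs_lt.2 ⟨by linarith, by linarith⟩)))
    · simp only [norm_ch]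
      exact Real.tendsto_exp_atTop.comp ((re_tendsto hρ hs).comp tt)
    · simp only [ang_ch]
      exact ((continuous_ee.comp continuous_ofReal).tendsto b).comp (ht.comp tt)
  obtain ⟨ρ₀, r0, s0, t0⟩ := key 0 (by norm_num)
  obtain ⟨ρ₁, r1, s1, t1⟩ := key (1 / 2) (by rw [abs_of_pos] <;> norm_num)
  rw [ofReal_zero, ee_zero] at t0
  rw [ee_half] at t1
  obtain ⟨l, lc, li, c, d, l0, l1⟩ := line_of h2 r0 r1 fun s hs t ht e => by
    have c1 := abs_lt.1 (s0 s hs)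
    have c2 := abs_lt.1 (s1 t ht)
    have := inj _ _ e (abs_lt.2 ⟨by linarith, by linarith⟩)
    rw [this] at c1
    linarith
  have tc := tendsto_atTop_add_const_right atTop c tendsto_id
  have td := tendsto_atTop_add_const_right atTop d tendsto_id
  obtain ⟨k, hk, hl⟩ := h3 l lc li
    ((r0.2.2.comp tc).congr' (l0.mono fun t ht => congrArg norm ht.symm)) (by
      have : Tendsto (fun t => ‖l (-t)‖) atTop atTop :=
        (r1.2.2.comp td).congr' (l1.mono fun t ht => congrArg norm ht.symm)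
      exact (this.comp tendsto_neg_atBot_atTop).congr fun t => by simp)
  refine ⟨k, hk, (t0.comp tc).congr' (l0.mono fun t ht => ?_),
    (t1.comp td).congr' (l1.mono fun t ht => ?_)⟩
  · simp only [ofReal_zero, ee_zero, mul_one, hl, ht]; rfl
  · simp only [ee_half, mul_neg_one, ← ofReal_neg, hl, ht]; rfl

end

end Pool.Agent.Lib.MP_d32f96_gt
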