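import Pool.Agent.Lib.MP_d32f96_gt.Frame

/-! Inserting a ray in a sector. -/

namespace Pool.Agent.Lib.MP_d32f96_gt

open Set Filter Topology Metric Complex Bornology
open Pool.Agent.Lib.MP_1e9af3_an Pool.Agent.Lib.MP_069d55_gt

noncomputable section

namespace L2

lemma im_ee (t : ℝ) : (ee t).im = Real.sin (2 * Real.pi * t) := by
  have : tpi * (t : ℂ) = ((2 * Real.pi * t : ℝ) : ℂ) * I := by unfold tpi; push_cast; ring
  rw [ee, this, exp_ofReal_mul_I_im]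

lemma im_polar (a r t : ℝ) :
    (ee a * ((r : ℂ) * ee t)⁻¹).im = r⁻¹ * Real.sin (2 * Real.pi * (a - t)) := by
  have : ee a * ((r : ℂ) * ee t)⁻¹ = ((r⁻¹ : ℝ) : ℂ) * ee ((a - t : ℝ) : ℂ) := by
    rw [ofReal_sub, ee_sub, mul_inv, ofReal_inv, div_eq_mul_inv]; ring
  rw [this, im_ofReal_mul, im_ee]

lemma exists_polar {z : ℂ} (hz : z ≠ 0) (a : ℝ) :
    ∃ t : ℝ, a < t ∧ t ≤ a + 1 ∧ z = (‖z‖ : ℝ) * ee t := by
  refine ⟨targ z + (⌊a - targ z⌋ + 1 : ℤ), ?_, ?_, ?_⟩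
  · push_cast; linarith [Int.lt_floor_add_one (a - targ z)]
  · push_cast; linarith [Int.floor_le (a - targ z)]
  · rw [ofReal_add, ofReal_intCast, ee_add_int]; exact polar hz

lemma mem_sec {α β : ℝ} (h : β ≤ α + 1 / 2) {z : ℂ} :
    z ∈ Sec α β ↔ (ee α * z⁻¹).im < 0 ∧ 0 < (ee β * z⁻¹).im ∧ α < β := by
  have hp := Real.pi_pos
  constructor
  · rintro ⟨r, hr, t, h1, h2, rfl⟩
    rw [im_polar, im_polar]
    refine ⟨mul_neg_of_pos_of_neg (inv_pos.2 hr) (Real.sin_neg_of_neg_of_neg_pi_lt ?_ ?_),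
      mul_pos (inv_pos.2 hr) (Real.sin_pos_of_pos_of_lt_pi ?_ ?_), h1.trans h2⟩ <;> nlinarith
  · rintro ⟨h1, h2, h3⟩
    have hz : z ≠ 0 := by rintro rfl; simp at h1
    have hr : 0 < ‖z‖ := norm_pos_iff.2 hz
    obtain ⟨t, t1, t2, e⟩ := exists_polar hz (α - 1 / 2)
    rw [e, im_polar] at h1 h2
    have h1' : Real.sin (2 * Real.pi * (α - t)) < 0 := by
      by_contra hn
      exact absurd h1 (not_lt.2 (mul_nonneg (inv_pos.2 hr).le (not_lt.1 hn)))
    have h2' : 0 < Real.sin (2 * Real.pi * (β - t)) := (mul_pos_iff_of_pos_left (inv_pos.2 hr)).1 h2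
    refine ⟨‖z‖, hr, t, ?_, ?_, e⟩
    · by_contra hn
      refine absurd h1' (not_lt.2 (Real.sin_nonneg_of_nonneg_of_le_pi ?_ ?_)) <;> nlinarith
    · by_contra hn
      refine absurd h2' (not_lt.2 (Real.sin_nonpos_of_nonpos_of_neg_pi_le ?_ ?_)) <;> nlinarith

/-- follow `p` up to its first meeting with `δ`, then follow `δ` -/
lemma splice {p δ : ℝ → ℂ} (hp : Arc p) (hδ : Arc δ) (h0 : p 0 ∉ δ '' Icc 0 1)
    (h1 : p 1 ∈ δ '' Icc 0 1) (h2 : ∀ s ∈ Icc (0 : ℝ) 1, p s ≠ δ 1) :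
    ∃ A : ℝ → ℂ, Arc A ∧ A 0 = p 0 ∧ A 1 = δ 1 ∧
      (∀ t ∈ Ioo (0 : ℝ) 1, A t ∈ p '' Ioc 0 1 ∪ δ '' Ico 0 1) ∧
      ∃ c : ℝ, 0 < c ∧ ∀ t, 1 / 2 < t → A t = δ (1 - c * (1 - t)) := by
  have hK : IsCompact (Icc (0 : ℝ) 1 ∩ p ⁻¹' (δ '' Icc 0 1)) :=
    isCompact_Icc.inter_right ((isCompact_Icc.image hδ.1).isClosed.preimage hp.1)
  obtain ⟨s, ⟨hs, t₁, ht₁, e⟩, hmin⟩ := hK.exists_isLeast ⟨1, by simp, h1⟩
  have hs0 : 0 < s := lt_of_le_of_ne hs.1 fun h => h0 ⟨t₁, ht₁, by rw [e, ← h]⟩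
  have ht1 : t₁ < 1 := lt_of_le_of_ne ht₁.2 fun h => h2 s hs (by rw [← e, h])
  have m1 : ∀ t, 0 ≤ t → t ≤ 1 / 2 → 2 * t * s ∈ Icc (0 : ℝ) 1 := fun t a b =>
    ⟨by positivity, by nlinarith [hs.2]⟩
  have m2 : ∀ t, 1 / 2 ≤ t → t ≤ 1 → 1 - 2 * (1 - t₁) * (1 - t) ∈ Icc (0 : ℝ) 1 := fun t a b =>
    ⟨by nlinarith [ht₁.1], by nlinarith⟩
  have mixed : ∀ t t', 0 ≤ t → t ≤ 1 / 2 → 1 / 2 < t' → t' ≤ 1 →
      p (2 * t * s) ≠ δ (1 - 2 * (1 - t₁) * (1 - t')) := fun t t' a b c d h => by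
    have := hmin ⟨m1 t a b, _, m2 t' c.le d, h.symm⟩
    have ht : 2 * t * s = s := le_antisymm (by nlinarith) this
    rw [ht, ← e] at h
    have := hδ.2 ht₁ (m2 t' c.le d) h
    nlinarith
  refine ⟨fun t => if t ≤ 1 / 2 then p (2 * t * s) else δ (1 - 2 * (1 - t₁) * (1 - t)),
    ⟨?_, ?_⟩, by norm_num, by norm_num, ?_, 2 * (1 - t₁), by linarith, ?_⟩
  · refine Continuous.if_le (hp.1.comp (by fun_prop)) (hδ.1.comp (by fun_prop)) continuous_id
      continuous_const ?_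
    rintro t rfl
    rw [show 2 * (1 / 2 : ℝ) * s = s by ring, show 1 - 2 * (1 - t₁) * (1 - 1 / 2) = t₁ by ring, e]
  · intro t ht t' ht' h
    by_cases a : t ≤ 1 / 2 <;> by_cases b : t' ≤ 1 / 2 <;> simp only [a, b, if_true, if_false] at h
    · have := hp.2 (m1 t ht.1 a) (m1 t' ht'.1 b) h
      nlinarith
    · exact absurd h (mixed t t' ht.1 a (not_le.1 b) ht'.2)
    · exact absurd h.symm (mixed t' t ht'.1 b (not_le.1 a) ht.2)
    · have := hδ.2 (m2 t (not_le.1 a).le ht.2) (m2 t' (not_le.1 b).le ht'.2) h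
      nlinarith
  · intro t ht
    by_cases a : t ≤ 1 / 2
    · simp only [a, if_true]
      exact Or.inl ⟨_, ⟨by have := ht.1; positivity, (m1 t ht.1.le a).2⟩, rfl⟩
    · simp only [a, if_false]
      exact Or.inr ⟨_, ⟨(m2 t (not_le.1 a).le ht.2.le).1, by nlinarith [ht.2]⟩, rfl⟩
  · intro t ht
    simp only [not_le.2 ht, if_false]

/-- the inverted tail of a ray, as an arc ending at the origin -/
lemma exists_tail {γ : ℝ → ℂ} (hγ : Ray γ) {t₀ : ℝ} (h0 : 0 ≤ t₀) (hne : ∀ t, t₀ ≤ t → γ t ≠ 0) :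
    ∃ δ : ℝ → ℂ, Arc δ ∧ δ 1 = 0 ∧ ∀ s, s < 1 → δ s = (γ (t₀ + (1 - s)⁻¹))⁻¹ := by
  have hpos : ∀ s : ℝ, s < 1 → t₀ ≤ t₀ + (1 - s)⁻¹ := fun s hs => by
    have : 0 < (1 - s)⁻¹ := inv_pos.2 (by linarith)
    linarith
  refine ⟨fun s => if s < 1 then (γ (t₀ + (1 - s)⁻¹))⁻¹ else 0, ⟨?_, ?_⟩, by simp,
    fun s hs => by simp [hs]⟩
  · refine continuous_iff_continuousAt.2 fun s => ?_
    rcases lt_trichotomy s 1 with h | h | h
    · have h1 : ContinuousAt (fun s : ℝ => (γ (t₀ + (1 - s)⁻¹))⁻¹) s := by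
        refine (hγ.1.continuousAt.comp ?_).inv₀ (hne _ (hpos s h))
        have : 1 - s ≠ 0 := by linarith
        fun_prop (disch := assumption)
      refine h1.congr ?_
      filter_upwards [Iio_mem_nhds h] with x hx
      simp [show x < 1 from hx]
    · subst h
      rw [continuousAt_iff_continuous_left'_right']
      constructor
      · rw [ContinuousWithinAt, if_neg (lt_irrefl _)]
        have h1 : Tendsto (fun s : ℝ => 1 - s) (𝓝[<] 1) (𝓝[>] 0) := by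
          refine tendsto_nhdsWithin_iff.2 ⟨?_, ?_⟩
          · have : Continuous fun s : ℝ => 1 - s := by fun_prop
            simpa using (this.tendsto 1).mono_left nhdsWithin_le_nhds
          · filter_upwards [self_mem_nhdsWithin] with x hx
            exact sub_pos.2 (show x < 1 from hx)
        have h2 : Tendsto (fun s : ℝ => t₀ + (1 - s)⁻¹) (𝓝[<] 1) atTop :=
          tendsto_atTop_add_const_left _ _ (tendsto_inv_nhdsGT_zero.comp h1)
        have h3 : Tendsto γ atTop (cobounded ℂ) := tendsto_norm_atTop_iff_cobounded.1 hγ.2.2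
        refine (tendsto_inv₀_cobounded.comp (h3.comp h2)).congr' ?_
        filter_upwards [self_mem_nhdsWithin] with x hx
        simp [show x < 1 from hx]
      · refine continuousWithinAt_const.congr (fun x hx => ?_) (if_neg (lt_irrefl _))
        exact if_neg (not_lt.2 (le_of_lt hx))
    · refine (continuousAt_const (y := (0 : ℂ))).congr ?_
      filter_upwards [Ioi_mem_nhds h] with x hx
      exact (if_neg (not_lt.2 (le_of_lt hx))).symm
  · intro s _ s' _ h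
    by_cases a : s < 1 <;> by_cases b : s' < 1 <;> simp only [a, b, if_true, if_false] at h
    · have := hγ.2.1 (h0.trans (hpos s a)) (h0.trans (hpos s' b)) (inv_injective h)
      have := inv_injective (add_left_cancel this)
      linarith
    · exact absurd (inv_eq_zero.1 h) (hne _ (hpos s a))
    · exact absurd (inv_eq_zero.1 h.symm) (hne _ (hpos s' b))
    · rename_i hs hs'
      linarith [hs.2, hs'.2]

lemma arc_segment {a b : ℂ} (h : a ≠ b) : Arc fun s : ℝ => ((1 - s : ℝ) : ℂ) * a + (s : ℂ) * b := by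
  refine ⟨by fun_prop, fun s _ t _ e => ?_⟩
  have : ((s : ℂ) - t) * (b - a) = 0 := by
    simp only [ofReal_sub, ofReal_one] at e
    linear_combination e
  rcases mul_eq_zero.1 this with h1 | h1
  · exact_mod_cast sub_eq_zero.1 h1
  · exact absurd (sub_eq_zero.1 h1).symm h

end L2

open L2 in
theorem sL2_of (h : S_CS) (_h2 : S_Arc) : S_L2 := by
  intro α θ β R γ hαθ hθβ hβ hγ hS
  have hαβ := hαθ.trans hθβ
  obtain ⟨R₁, hR₁, hRR⟩ : ∃ R₁ : ℝ, 0 < R₁ ∧ R < R₁ :=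
    ⟨max R 0 + 1, by positivity, by linarith [le_max_left R 0]⟩
  set O : Set ℂ := {w | (ee α * w).im < 0} ∩ ({w | 0 < (ee β * w).im} ∩ ball 0 R₁⁻¹) with hO
  have hOo : IsOpen O := (isOpen_lt (by fun_prop) continuous_const).inter
    ((isOpen_lt continuous_const (by fun_prop)).inter isOpen_ball)
  have hlin : ∀ a : ℂ, IsLinearMap ℝ fun w : ℂ => (a * w).im := fun a =>
    ⟨fun x y => by simp [mul_add], fun c x => by simp; ring⟩
  have hOc : Convex ℝ O := (convex_halfSpace_lt (hlin _) 0).inter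
    ((convex_halfSpace_gt (hlin _) 0).inter (convex_ball _ _))
  have hOb : IsBounded O := isBounded_ball.subset fun w hw => hw.2.2
  have memO : ∀ z : ℂ, z⁻¹ ∈ O ↔ z ∈ Sec α β ∧ R₁ < ‖z‖ := fun z => by
    rw [mem_sec hβ]
    constructor
    · rintro ⟨h1, h2, h3⟩
      have hz : z ≠ 0 := by rintro rfl; simp at h1
      rw [mem_ball_zero_iff, norm_inv, inv_lt_inv₀ (norm_pos_iff.2 hz) hR₁] at h3
      exact ⟨⟨h1, h2, hαβ⟩, h3⟩
    · rintro ⟨⟨h1, h2, -⟩, h3⟩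
      refine ⟨h1, h2, ?_⟩
      rwa [mem_ball_zero_iff, norm_inv, inv_lt_inv₀ (hR₁.trans h3) hR₁]
  have h0O : (0 : ℂ) ∉ O := fun h => by simpa using h.1
  set c : ℂ := ((R₁ : ℂ) * ee θ)⁻¹ with hc
  have hnorm : ∀ t : ℝ, 0 < t → ‖(t : ℂ) * ee θ‖ = t := fun t ht => by
    rw [norm_mul, norm_ee_real, mul_one, norm_real, Real.norm_of_nonneg ht.le]
  have hcO : c ∉ O := fun h => by
    have := ((memO _).1 h).2
    rw [hnorm _ hR₁] at this
    exact lt_irrefl _ this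
  have hc0 : c ≠ 0 := inv_ne_zero (mul_ne_zero (ofReal_ne_zero.2 hR₁.ne') (ee_ne _))
  set b : ℝ → ℂ := fun s => ((1 - s : ℝ) : ℂ) * c + (s : ℂ) * 0 with hb
  have hbA : Arc b := arc_segment hc0
  have hbe : ∀ t : ℝ, 0 < t → b (1 - R₁ / t) = ((t : ℂ) * ee θ)⁻¹ := fun t ht => by
    have h1 : (t : ℂ) ≠ 0 := ofReal_ne_zero.2 ht.ne'
    have h2 : (R₁ : ℂ) ≠ 0 := ofReal_ne_zero.2 hR₁.ne'
    have h3 := ee_ne (θ : ℂ)
    simp only [hb, hc]
    push_cast
    field_simp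
    ring
  have hbO : ∀ s ∈ Ioo (0 : ℝ) 1, b s ∈ O := fun s hs => by
    have h1 : 0 < 1 - s := sub_pos.2 hs.2
    have ht : 0 < R₁ / (1 - s) := by positivity
    have e := hbe _ ht
    rw [show 1 - R₁ / (R₁ / (1 - s)) = s by field_simp; ring] at e
    rw [e, memO, hnorm _ ht]
    refine ⟨⟨_, ht, θ, hαθ, hθβ, rfl⟩, ?_⟩
    rw [lt_div_iff₀ h1]; nlinarith [hs.1]
  have hbC : ∀ s ∈ Icc (0 : ℝ) 1, b s ∈ closure O := fun s hs => by
    rw [← closure_Ioo zero_ne_one] at hs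
    exact map_mem_closure hbA.1 hs hbO
  have hb0 : b 0 = c := by simp [hb]
  have hb1 : b 1 = 0 := by simp [hb]
  have hint : interior (closure O) = O := by
    rw [hOc.interior_closure_eq_interior_of_nonempty_interior, hOo.interior_eq]
    rw [hOo.interior_eq]
    exact ⟨_, hbO (1 / 2) (by norm_num)⟩
  have hfr : ∀ z ∈ closure O, z ∉ O → z ∈ frontier (closure O) := fun z h1 h2 =>
    ⟨subset_closure h1, by rwa [hint]⟩
  obtain ⟨t₀, ht₀⟩ := eventually_atTop.1 ((hγ.2.2.eventually_gt_atTop R₁).and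
    (eventually_ge_atTop 0))
  have ht0 : 0 ≤ t₀ := (ht₀ t₀ le_rfl).2
  obtain ⟨δ, hδ, hδ1, hδe⟩ := exists_tail hγ ht0 fun t ht =>
    norm_pos_iff.1 (hR₁.trans (ht₀ t ht).1)
  have hδO : ∀ s, s < 1 → δ s ∈ O := fun s hs => by
    have : 0 < (1 - s)⁻¹ := inv_pos.2 (by linarith)
    rw [hδe s hs, memO]
    exact ⟨hS _ (by linarith), (ht₀ _ (by linarith)).1⟩
  have hcδ : c ≠ δ 0 := fun e => hcO (e ▸ hδO 0 one_pos)
  set p : ℝ → ℂ := fun s => ((1 - s : ℝ) : ℂ) * c + (s : ℂ) * δ 0 with hp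
  have hp0 : p 0 = c := by simp [hp]
  have hpO : ∀ s ∈ Ioc (0 : ℝ) 1, p s ∈ O := fun s hs => by
    have := hOc.combo_closure_interior_mem_interior (x := c) (y := δ 0) (hb0 ▸ hbC 0 (by simp))
      (by rw [hOo.interior_eq]; exact hδO 0 one_pos) (a := 1 - s) (b := s) (sub_nonneg.2 hs.2) hs.1
      (by ring)
    rw [hOo.interior_eq] at this
    simpa [hp] using this
  obtain ⟨A, hA, hA0, hA1, hAO, κ, hκ, hAe⟩ := splice (p := p) (arc_segment hcδ) hδ
    (by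
      rintro ⟨s, hs, e⟩
      rw [hp0] at e
      rcases hs.2.lt_or_eq with h1 | h1
      · exact hcO (e ▸ hδO s h1)
      · exact hc0 (by rw [← e, h1, hδ1]))
    ⟨0, by simp, by simp [hp]⟩
    (fun s hs e => by
      rw [hδ1] at e
      rcases hs.1.lt_or_eq with h1 | h1
      · exact h0O (e ▸ hpO s ⟨h1, hs.2⟩)
      · exact hc0 (by rw [← hp0, h1, e]))
  obtain ⟨k, hk, hkb⟩ := h (closure O) A b hOb.isCompact_closure hOc.closure hA hbA
    (by rw [hA0, hp0, hb0]) (by rw [hA1, hδ1, hb1])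
    (by rw [hA0, hp0]; exact hfr _ (hb0 ▸ hbC 0 (by simp)) hcO)
    (by rw [hA1, hδ1]; exact hfr _ (hb1 ▸ hbC 1 (by simp)) h0O)
    (fun t ht => by
      rw [hint]
      refine ⟨?_, hbO t ht⟩
      rcases hAO t ht with ⟨s, hs, e⟩ | ⟨s, hs, e⟩
      · exact e ▸ hpO s hs
      · exact e ▸ hδO s hs.2)
  rw [hint] at hk
  obtain ⟨G, hG⟩ := exists_invc (hk 0 h0O)
  refine ⟨G, fun z hz => ?_, fun t => t₀ + (κ * R₁)⁻¹ * t, ?_, ?_⟩
  · rw [hG, hk, inv_inv]
    rw [memO]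
    rintro ⟨h1, h2⟩
    rcases hz with hz | hz
    · exact hz h1
    · linarith
  · exact tendsto_atTop_add_const_left _ _
      (tendsto_id.const_mul_atTop (inv_pos.2 (mul_pos hκ hR₁)))
  · filter_upwards [eventually_gt_atTop (2 * R₁)] with t ht
    have ht' : 0 < t := by linarith
    have h1 : 0 < R₁ / t := by positivity
    have h2 : R₁ / t < 1 / 2 := by rw [div_lt_iff₀ ht']; linarith
    rw [hG, ← hbe t ht', hkb _ ⟨by linarith, by linarith⟩, hAe _ (by linarith),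
      hδe _ (by nlinarith [mul_pos hκ h1]), inv_inv]
    congr 2
    field_simp
    ring

end

end Pool.Agent.Lib.MP_d32f96_gt
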