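import Pool.Agent.Lib.MP_d32f96_gt.Frame

/-! Inductive construction of a dense family of rays. -/

namespace Pool.Agent.Lib.MP_d32f96_gt

open Set Filter Topology Metric Complex Bornology
open Pool.Agent.Lib.MP_1e9af3_an Pool.Agent.Lib.MP_069d55_gt

noncomputable section

namespace L4

lemma norm_ray {t : ℝ} (ht : 0 ≤ t) (θ : ℝ) : ‖(t : ℂ) * ee θ‖ = t := by
  rw [norm_mul, norm_ee_real, mul_one, Complex.norm_real, Real.norm_of_nonneg ht]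

lemma ang_eq {r r' t t' : ℝ} (hr : 0 < r) (hr' : 0 ≤ r') (h : (r : ℂ) * ee t = r' * ee t')
    (h1 : t < t' + 1) (h2 : t' < t + 1) : t = t' := by
  have e : r = r' := by have := congrArg norm h; rwa [norm_ray hr.le, norm_ray hr'] at this
  subst e
  obtain ⟨n, hn⟩ := ee_eq_iff.1 (mul_left_cancel₀ (ofReal_ne_zero.2 hr.ne') h)
  have hn' : t = t' + n := by exact_mod_cast hn
  have a : (n : ℝ) < 1 := by linarith
  have b : (-1 : ℝ) < n := by linarith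
  have a' : n < 1 := by exact_mod_cast a
  have b' : -1 < n := by exact_mod_cast b
  have : n = 0 := by omega
  simp [hn', this]

lemma exists_polar {z : ℂ} (hz : z ≠ 0) (a : ℝ) :
    ∃ r : ℝ, 0 < r ∧ ∃ t : ℝ, a ≤ t ∧ t < a + 1 ∧ z = r * ee t := by
  refine ⟨‖z‖, norm_pos_iff.2 hz, a + Int.fract (targ z - a),
    by linarith [Int.fract_nonneg (targ z - a)], by linarith [Int.fract_lt_one (targ z - a)], ?_⟩
  have : ((targ z : ℝ) : ℂ) = ((a + Int.fract (targ z - a) : ℝ) : ℂ) + (⌊targ z - a⌋ : ℤ) := by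
    have := Int.floor_add_fract (targ z - a)
    exact_mod_cast (by linarith : targ z = a + Int.fract (targ z - a) + (⌊targ z - a⌋ : ℤ))
  conv_lhs => rw [polar hz, this, ee_add_int]

lemma isOpen_Sec (α β : ℝ) : IsOpen (Sec α β) := by
  have hp := Real.pi_pos
  have : Sec α β = exp '' {w | 2 * Real.pi * α < w.im ∧ w.im < 2 * Real.pi * β} := by
    ext z
    constructor
    · rintro ⟨r, hr, t, h1, h2, rfl⟩
      refine ⟨(Real.log r : ℝ) + tpi * t, ?_, ?_⟩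
      · have : ((Real.log r : ℝ) + tpi * t : ℂ).im = 2 * Real.pi * t := by simp [tpi]
        rw [mem_ofPred_eq, this]
        constructor <;> nlinarith
      · rw [exp_add, ← ofReal_exp, Real.exp_log hr]; rfl
    · rintro ⟨w, ⟨h1, h2⟩, rfl⟩
      refine ⟨Real.exp w.re, Real.exp_pos _, w.im / (2 * Real.pi), ?_, ?_, ?_⟩
      · rw [lt_div_iff₀ (by positivity)]; linarith
      · rw [div_lt_iff₀ (by positivity)]; linarith
      · rw [ee, ofReal_exp, ← exp_add]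
        congr 1
        have : (Real.pi : ℂ) ≠ 0 := ofReal_ne_zero.2 hp.ne'
        rw [tpi]; push_cast; field_simp
        exact (re_add_im w).symm.trans (by ring)
  rw [this]
  exact isOpenMap_exp _ ((isOpen_lt continuous_const continuous_im).inter
    (isOpen_lt continuous_im continuous_const))

lemma norm_ang (W : ℂ → ℝ) {x : ℂ} (hx : x ≠ 0) : ‖ang W x‖ = 1 := by
  rw [ang, norm_mul, norm_ee_real, mul_one, norm_div, Complex.norm_real, norm_norm,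
    div_self (norm_ne_zero_iff.2 hx)]

lemma tendsto_ray (h : H) (θ : ℝ) :
    Tendsto (fun t : ℝ => h (t * ee θ)) atTop (cocompact ℂ) := by
  refine (tendsto_cocompact h).comp ?_
  rw [← Metric.cobounded_eq_cocompact, ← tendsto_norm_atTop_iff_cobounded]
  exact tendsto_id.congr' ((eventually_ge_atTop 0).mono fun t ht => (norm_ray ht θ).symm)

lemma ev_ne : ∀ᶠ x : ℂ in cocompact ℂ, x ≠ 0 :=
  isCompact_singleton.compl_mem_cocompact

lemma val_norm {W : ℂ → ℝ} {h : H} {θ : ℝ} {v : ℂ} (hv : Val (fun x => ang W (h x)) θ v) :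
    ‖v‖ = 1 :=
  tendsto_nhds_unique hv.norm (tendsto_const_nhds.congr'
    (((tendsto_ray h θ).eventually ev_ne).mono fun _ ht => (norm_ang W ht).symm))

lemma lim_ne {W : ℂ → ℝ} {s : H} {ω : ℂ}
    (hω : Tendsto (fun x => ang W (s x) / ang W x) (cocompact ℂ) (𝓝 ω)) : ω ≠ 0 := by
  have : ‖ω‖ = 1 := tendsto_nhds_unique hω.norm (tendsto_const_nhds.congr' (by
    filter_upwards [ev_ne, (tendsto_cocompact s).eventually ev_ne] with x h1 h2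
    rw [norm_div, norm_ang W h1, norm_ang W h2, div_one]))
  rintro rfl
  simp at this

lemma val_mul {W : ℂ → ℝ} {s h : H} {ω v : ℂ} {θ : ℝ}
    (hω : Tendsto (fun x => ang W (s x) / ang W x) (cocompact ℂ) (𝓝 ω))
    (hv : Val (fun x => ang W (h x)) θ v) : Val (fun x => ang W ((s * h) x)) θ (ω * v) := by
  refine ((hω.comp (tendsto_ray h θ)).mul hv).congr' ?_
  filter_upwards [(tendsto_ray h θ).eventually ev_ne] with t ht
  exact div_mul_cancel₀ _ (norm_ne_zero_iff.1 (by rw [norm_ang W ht]; exact one_ne_zero))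

/-- a stage of the construction -/
structure St where
  h : H
  Θ : Set ℝ
  v : ℝ → ℂ

structure Good (W : ℂ → ℝ) (x : St) : Prop where
  dg : deg x.h = 1
  fin : x.Θ.Finite
  sub : x.Θ ⊆ Ico 0 1
  zero : (0 : ℝ) ∈ x.Θ
  half : (1 / 2 : ℝ) ∈ x.Θ
  inj : InjOn x.v x.Θ
  val : ∀ θ ∈ x.Θ, Val (fun z => ang W (x.h z)) θ (x.v θ)

structure Le (R : ℝ) (x y : St) : Prop where
  sub : x.Θ ⊆ y.Θ
  v : ∀ θ ∈ x.Θ, y.v θ = x.v θ
  ball : ∀ z, ‖z‖ ≤ R → y.h z = x.h z ∧ y.h⁻¹ z = x.h⁻¹ z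
  ray : ∀ θ ∈ x.Θ, ∀ t : ℝ, 0 ≤ t → y.h (t * ee θ) = x.h (t * ee θ)
  sec : ∀ a ∈ x.Θ, ∀ b ∈ x.Θ, ∀ z, y.h⁻¹ z ∈ Sec a b ↔ x.h⁻¹ z ∈ Sec a b

lemma Le.refl (R : ℝ) (x : St) : Le R x x :=
  ⟨Subset.rfl, fun _ _ => rfl, fun _ _ => ⟨rfl, rfl⟩, fun _ _ _ _ => rfl, fun _ _ _ _ _ => Iff.rfl⟩

lemma Le.trans {R : ℝ} {x y z : St} (a : Le R x y) (b : Le R y z) : Le R x z :=
  ⟨a.sub.trans b.sub, fun θ h => (b.v θ (a.sub h)).trans (a.v θ h),
    fun w h => ⟨(b.ball w h).1.trans (a.ball w h).1, (b.ball w h).2.trans (a.ball w h).2⟩,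
    fun θ h t ht => (b.ray θ (a.sub h) t ht).trans (a.ray θ h t ht),
    fun p hp q hq w => (b.sec p (a.sub hp) q (a.sub hq) w).trans (a.sec p hp q hq w)⟩

lemma Le.mono {R R' : ℝ} {x y : St} (a : Le R x y) (h : R' ≤ R) : Le R' x y :=
  ⟨a.sub, a.v, fun w hw => a.ball w (hw.trans h), a.ray, a.sec⟩

/-- two consecutive angles -/
structure Gap (Θ : Set ℝ) (a b : ℝ) : Prop where
  l : a ∈ Θ
  r : b ∈ Θ ∨ b = 1
  lt : a < b
  no : ∀ θ ∈ Θ, θ ≤ a ∨ b ≤ θ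

lemma exists_gap {W : ℂ → ℝ} {x : St} (g : Good W x) {t : ℝ} (h0 : 0 ≤ t) (h1 : t < 1)
    (ht : t ∉ x.Θ) : ∃ a b, Gap x.Θ a b ∧ a < t ∧ t < b := by
  obtain ⟨a, ⟨a1, a2⟩, ha⟩ := Set.exists_max_image {θ ∈ x.Θ | θ < t} id
    (g.fin.subset (sep_subset _ _)) ⟨0, g.zero, h0.lt_of_ne fun e => ht (e ▸ g.zero)⟩
  obtain ⟨b, ⟨b1, b2⟩, hb⟩ := Set.exists_min_image {θ ∈ insert 1 x.Θ | t < θ} id
    ((g.fin.insert 1).subset (sep_subset _ _)) ⟨1, mem_insert _ _, h1⟩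
  refine ⟨a, b, ⟨a1, b1.symm, a2.trans b2, fun θ hθ => ?_⟩, a2, b2⟩
  rcases lt_trichotomy θ t with h | h | h
  · exact Or.inl (ha θ ⟨hθ, h⟩)
  · exact absurd (h ▸ hθ) ht
  · exact Or.inr (hb θ ⟨mem_insert_of_mem _ hθ, h⟩)

lemma Gap.le_one {W : ℂ → ℝ} {x : St} (g : Good W x) {a b : ℝ} (p : Gap x.Θ a b) : b ≤ 1 :=
  p.r.elim (fun h => (g.sub h).2.le) Eq.le

lemma Gap.width {W : ℂ → ℝ} {x : St} (g : Good W x) {a b : ℝ} (p : Gap x.Θ a b) :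
    b ≤ a + 1 / 2 := by
  have := p.le_one g
  have := (g.sub p.l).1
  rcases p.no _ g.half with h | h <;> linarith

lemma Gap.ray_not {W : ℂ → ℝ} {x : St} (g : Good W x) {a b : ℝ} (p : Gap x.Θ a b) {θ : ℝ}
    (hθ : θ ∈ x.Θ) {t : ℝ} (ht : 0 ≤ t) : (t : ℂ) * ee θ ∉ Sec a b := by
  rintro ⟨r, hr, s, h1, h2, e⟩
  have := p.le_one g
  have := (g.sub p.l).1
  have := (g.sub hθ).1
  have := (g.sub hθ).2
  have e' := ang_eq hr ht e.symm (by linarith) (by linarith)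
  rcases p.no _ hθ with h | h <;> linarith

lemma Gap.sec_or {W : ℂ → ℝ} {x : St} (g : Good W x) {a b : ℝ} (p : Gap x.Θ a b) {c d : ℝ}
    (hc : c ∈ x.Θ) (hd : d ∈ x.Θ) {z w : ℂ} (hz : z ∈ Sec a b) (hw : w ∈ Sec a b)
    (h : z ∈ Sec c d) : w ∈ Sec c d := by
  obtain ⟨r, hr, s, h1, h2, rfl⟩ := hz
  obtain ⟨r', hr', s', h1', h2', e⟩ := h
  obtain ⟨q, hq, u, u1, u2, rfl⟩ := hw
  have := p.le_one g
  have := (g.sub p.l).1
  have := (g.sub hc).1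
  have := (g.sub hd).2
  have e' := ang_eq hr hr'.le e (by linarith) (by linarith)
  refine ⟨q, hq, u, ?_, ?_, rfl⟩
  · rcases p.no _ hc with h | h <;> linarith
  · rcases p.no _ hd with h | h <;> linarith

/-- insertion of a ray in a gap -/
lemma ins (h2 : S_L2) {W : ℂ → ℝ} {x : St} (g : Good W x) {a b θ : ℝ} (p : Gap x.Θ a b)
    (h1 : a < θ) (h1' : θ < b) {γ : ℝ → ℂ} (hγ : Ray γ) (hs : ∀ t, 0 ≤ t → x.h⁻¹ (γ t) ∈ Sec a b)
    {c : ℂ} (hc : c ∉ x.v '' x.Θ) (hl : Tendsto (fun t => ang W (γ t)) atTop (𝓝 c)) (R : ℝ) :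
    ∃ y, Good W y ∧ Le R x y ∧ θ ∈ y.Θ ∧ ∃ u : ℝ → ℝ, Tendsto u atTop atTop ∧
      ∀ᶠ t : ℝ in atTop, y.h (t * ee θ) = γ (u t) := by
  classical
  have hγ' : Ray fun t => x.h⁻¹ (γ t) := by
    refine ⟨(x.h⁻¹ : H).continuous.comp hγ.1,
      fun s hs t ht e => hγ.2.1 hs ht ((x.h⁻¹ : H).injective e), tendsto_atTop.2 fun M => ?_⟩
    obtain ⟨M', hM⟩ := proper x.h⁻¹ M
    exact (hγ.2.2.eventually_ge_atTop M').mono fun t ht => hM _ ht
  obtain ⟨R', hR'⟩ := bdd_on x.h⁻¹ R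
  obtain ⟨k, hk, u, hu, hku⟩ := h2 a θ b (max (max R R') 1) _ h1 h1' (p.width g) hγ' hs
  have hθ : θ ∉ x.Θ := fun h => by rcases p.no _ h with h | h <;> linarith
  have hne : ∀ φ ∈ x.Θ, φ ≠ θ := fun φ hφ e => hθ (e ▸ hφ)
  have hray : ∀ φ ∈ x.Θ, ∀ t : ℝ, 0 ≤ t → (x.h * k) (t * ee φ) = x.h (t * ee φ) :=
    fun φ hφ t ht => congrArg x.h (hk _ (Or.inl (p.ray_not g hφ ht)))
  have hnew : ∀ᶠ t : ℝ in atTop, (x.h * k) (t * ee θ) = γ (u t) := hku.mono fun t ht => by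
    show x.h (k _) = _
    rw [ht, happly_inv]
  have hinv : ∀ z, (x.h * k)⁻¹ z = k⁻¹ (x.h⁻¹ z) := fun z => by rw [mul_inv_rev]; rfl
  refine ⟨⟨x.h * k, insert θ x.Θ, Function.update x.v θ c⟩, ⟨?_, g.fin.insert θ, ?_,
    mem_insert_of_mem _ g.zero, mem_insert_of_mem _ g.half, ?_, ?_⟩, ⟨subset_insert _ _,
    fun φ hφ => Function.update_of_ne (hne φ hφ) _ _, fun z hz => ⟨?_, ?_⟩, hray, ?_⟩,
    mem_insert _ _, u, hu, hnew⟩
  · refine deg_mul_one g.dg (deg_of_eventually (p := 0) ?_)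
    filter_upwards [closedBall_mem_nhds (0 : ℂ) one_pos] with z hz
    exact hk z (Or.inr ((mem_closedBall_zero_iff.1 hz).trans (le_max_right _ _)))
  · exact insert_subset ⟨(g.sub p.l).1.trans h1.le, h1'.trans_le (p.le_one g)⟩ g.sub
  · refine (injOn_insert hθ).2 ⟨fun s hs t ht e => g.inj hs ht ?_, ?_⟩
    · dsimp only at e
      rwa [Function.update_of_ne (hne s hs), Function.update_of_ne (hne t ht)] at e
    · rintro ⟨s, hs, e⟩
      dsimp only at e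
      rw [Function.update_of_ne (hne s hs), Function.update_self] at e
      exact hc ⟨s, hs, e⟩
  · rintro φ (rfl | hφ)
    · dsimp only
      rw [Function.update_self]
      exact (hl.comp hu).congr' (hnew.mono fun t ht => congrArg (ang W) ht.symm)
    · dsimp only
      rw [Function.update_of_ne (hne φ hφ)]
      exact (g.val φ hφ).congr' ((eventually_ge_atTop 0).mono fun t ht =>
        congrArg (ang W) (hray φ hφ t ht).symm)
  · exact congrArg x.h (hk z (Or.inr (hz.trans ((le_max_left _ _).trans (le_max_left _ _)))))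
  · exact (hinv z).trans (hinv_eq (hk _ (Or.inr
      ((hR' z hz).le.trans ((le_max_right _ _).trans (le_max_left _ _))))))
  · intro c hc d hd z
    show (x.h * k)⁻¹ z ∈ _ ↔ _
    rw [hinv]
    by_cases hz : x.h⁻¹ z ∈ Sec a b
    · have hz' : k⁻¹ (x.h⁻¹ z) ∈ Sec a b := by
        by_contra hn
        have := hk _ (Or.inl hn)
        rw [happly_inv] at this
        exact hn (this ▸ hz)
      exact ⟨p.sec_or g hc hd hz' hz, p.sec_or g hc hd hz hz'⟩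
    · rw [hinv_eq (hk _ (Or.inl hz))]

/-- the tail of a ray with a new limit value lies in a gap -/
lemma find_gap {W : ℂ → ℝ} {x : St} (g : Good W x) {γ : ℝ → ℂ} (hγ : Ray γ) {c : ℂ}
    (hc : c ∉ x.v '' x.Θ) (hl : Tendsto (fun t => ang W (γ t)) atTop (𝓝 c)) :
    ∃ a b, Gap x.Θ a b ∧ ∃ t₀, 0 ≤ t₀ ∧ ∀ t, t₀ ≤ t → x.h⁻¹ (γ t) ∈ Sec a b := by
  have h1 : ∀ θ ∈ x.Θ, ∀ᶠ t in atTop, ∀ r : ℝ, 0 ≤ r → x.h⁻¹ (γ t) ≠ r * ee θ := by
    intro θ hθ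
    obtain ⟨U, V, hU, hV, cU, cV, hd⟩ := t2_separation (fun e : c = x.v θ => hc ⟨θ, hθ, e.symm⟩)
    obtain ⟨r₀, hr₀⟩ := eventually_atTop.1 ((g.val θ hθ).eventually (hV.mem_nhds cV))
    obtain ⟨R', hR'⟩ := bdd_on x.h r₀
    filter_upwards [hl.eventually (hU.mem_nhds cU), hγ.2.2.eventually_ge_atTop R'] with t a1 a2
    intro r hr e
    have e' : γ t = x.h (r * ee θ) := by rw [← e, happly_inv]
    rcases le_total r r₀ with h | h
    · have := hR' (r * ee θ) (by rwa [norm_ray hr])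
      rw [← e'] at this
      linarith
    · have : ang W (x.h (r * ee θ)) ∈ V := hr₀ r h
      rw [← e'] at this
      exact disjoint_left.1 hd a1 this
  obtain ⟨t₁, ht₁⟩ := eventually_atTop.1 ((eventually_all_finite g.fin).2 h1)
  have hne : ∀ t, t₁ ≤ t → x.h⁻¹ (γ t) ≠ 0 := fun t ht e =>
    ht₁ t ht 0 g.zero 0 le_rfl (by rw [e]; simp)
  have hm := le_max_left t₁ 0
  obtain ⟨r, hr, s, s1, s2, e⟩ := exists_polar (hne _ hm) 0
  rw [zero_add] at s2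
  obtain ⟨a, b, p, a1, a2⟩ := exists_gap g s1 s2 fun h => ht₁ _ hm s h r hr.le e
  refine ⟨a, b, p, max t₁ 0, le_max_right _ _, fun t ht => ?_⟩
  have hpre : IsPreconnected ((fun t => x.h⁻¹ (γ t)) '' Ici (max t₁ 0)) :=
    isPreconnected_Ici.image _ ((x.h⁻¹ : H).continuous.comp hγ.1).continuousOn
  have hsub := IsPreconnected.subset_left_of_subset_union (isOpen_Sec a b) (isOpen_Sec b (a + 1))
    ?_ ?_ ⟨_, mem_image_of_mem (fun t => x.h⁻¹ (γ t)) (self_mem_Ici (a := max t₁ 0)),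
      r, hr, s, a1, a2, e⟩ hpre
  · exact hsub ⟨t, ht, rfl⟩
  · rw [disjoint_left]
    rintro z ⟨q, hq, u, u1, u2, rfl⟩ ⟨q', hq', u', u1', u2', e'⟩
    have := ang_eq hq hq'.le e' (by linarith) (by linarith)
    linarith
  · rintro _ ⟨t, ht, rfl⟩
    have ht' : t₁ ≤ t := hm.trans ht
    obtain ⟨q, hq, u, u1, u2, e'⟩ := exists_polar (hne t ht') a
    have ua : a < u := u1.lt_of_ne fun h => ht₁ t ht' a p.l q hq.le (h ▸ e')
    rcases lt_trichotomy u b with h | h | h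
    · exact Or.inl ⟨q, hq, u, ua, h, e'⟩
    · exfalso
      rcases p.r with h' | h'
      · exact ht₁ t ht' b h' q hq.le (h ▸ e')
      · refine ht₁ t ht' 0 g.zero q hq.le ?_
        rw [e', h, h']; simp [ee_one, ee_zero]
    · exact Or.inr ⟨q, hq, u, h, u2, e'⟩

/-- the density task -/
lemma dens (h1 : S_L1) (h2 : S_L2) {W : ℂ → ℝ} (hW : Continuous W) {x : St} (g : Good W x)
    (φ R : ℝ) : ∃ y, Good W y ∧ Le R x y ∧ (φ ∈ Ico (0 : ℝ) 1 → φ ∈ y.Θ) := by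
  by_cases hφ : φ ∈ Ico (0 : ℝ) 1 → φ ∈ x.Θ
  · exact ⟨x, g, Le.refl R x, hφ⟩
  obtain ⟨⟨f0, f1⟩, hn⟩ := Classical.not_imp.1 hφ
  obtain ⟨a, b, p, a1, a2⟩ := exists_gap g f0 f1 hn
  have hw := p.width g
  have : ∃ v₂, Val (fun z => ang W (x.h z)) b v₂ ∧ x.v a ≠ v₂ := by
    rcases p.r with h | h
    · exact ⟨_, g.val b h, fun e => p.lt.ne (g.inj p.l h e)⟩
    · refine ⟨x.v 0, ?_, fun e => ?_⟩
      · have := g.val 0 g.zero
        simpa [Val, h, ee_one, ee_zero] using this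
      · have := g.inj p.l g.zero e
        linarith
  obtain ⟨v₂, hv, hne⟩ := this
  obtain ⟨γ, hγ, hs, c, hc, hl⟩ := h1 W x.h a b _ _ (x.v '' x.Θ) hW p.lt (by linarith)
    (g.val a p.l) hv hne (g.fin.image _)
  obtain ⟨y, gy, l, hy, -⟩ := ins h2 g p a1 a2 hγ (fun t ht => mem_image_h.1 (hs t ht)) hc hl R
  exact ⟨y, gy, l, fun _ => hy⟩

def Hit (x : St) (s : H) (a b θ : ℝ) : Prop :=
  θ ∈ x.Θ ∧ ∀ᶠ t : ℝ in atTop, x.h⁻¹ (s⁻¹ (x.h (t * ee θ))) ∈ Sec a b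

lemma Hit.mono {R : ℝ} {x y : St} (l : Le R x y) {s : H} {a b θ : ℝ} (ha : a ∈ x.Θ)
    (hb : b ∈ x.Θ) (h : Hit x s a b θ) : Hit y s a b θ :=
  ⟨l.sub h.1, by
    filter_upwards [h.2, eventually_ge_atTop 0] with t a1 a2
    rwa [l.sec a ha b hb, l.ray θ h.1 t a2]⟩

lemma sep1 (h1 : S_L1) (h2 : S_L2) {W : ℂ → ℝ} (hW : Continuous W) {x : St} (g : Good W x)
    {s : H} (hs : Lim W s) {a b : ℝ} (ha : a ∈ x.Θ) (hb : b ∈ x.Θ) (hab : a < b) (R : ℝ) :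
    ∃ y, Good W y ∧ Le R x y ∧ ∃ θ, θ ∉ x.Θ ∧ Hit y s a b θ := by
  obtain ⟨ω, hω⟩ := hs
  obtain ⟨γ, hγ, hs, c, hc, hl⟩ := h1 W (s * x.h) a b _ _ (x.v '' x.Θ) hW hab
    (by linarith [(g.sub ha).1, (g.sub hb).2]) (val_mul hω (g.val a ha)) (val_mul hω (g.val b hb))
    (fun e => hab.ne (g.inj ha hb (mul_left_cancel₀ (lim_ne hω) e))) (g.fin.image _)
  obtain ⟨a', b', p, t₀, h0, ht₀⟩ := find_gap g hγ hc hl
  have hγ' : Ray fun t => γ (t + t₀) :=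
    ⟨hγ.1.comp (continuous_add_const t₀), fun u hu w hw e => add_right_cancel
      (hγ.2.1 (add_nonneg hu h0) (add_nonneg hw h0) e),
      hγ.2.2.comp (tendsto_atTop_add_const_right _ t₀ tendsto_id)⟩
  have := p.lt
  obtain ⟨y, gy, l, hy, u, hu, hyu⟩ := ins h2 g p (θ := (a' + b') / 2) (by linarith) (by linarith)
    hγ' (fun t ht => ht₀ _ (by linarith)) hc
    (hl.comp (tendsto_atTop_add_const_right _ t₀ tendsto_id)) R
  refine ⟨y, gy, l, _, fun h => ?_, hy, ?_⟩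
  · rcases p.no _ h with h | h <;> linarith
  · filter_upwards [hyu, hu.eventually_ge_atTop 0] with t a1 a2
    have := mem_image_h.1 (hs (u t + t₀) (add_nonneg a2 h0))
    rw [mul_inv_rev] at this
    rwa [l.sec a ha b hb, a1]

def SepT (x : St) (s : H) (a b : ℝ) : Prop := ∃ θ₁ θ₂, θ₁ ≠ θ₂ ∧ Hit x s a b θ₁ ∧ Hit x s a b θ₂

lemma SepT.mono {R : ℝ} {x y : St} (l : Le R x y) {s : H} {a b : ℝ} (ha : a ∈ x.Θ)
    (hb : b ∈ x.Θ) (h : SepT x s a b) : SepT y s a b := by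
  obtain ⟨θ₁, θ₂, e, a1, a2⟩ := h
  exact ⟨θ₁, θ₂, e, a1.mono l ha hb, a2.mono l ha hb⟩

lemma sep2 (h1 : S_L1) (h2 : S_L2) {W : ℂ → ℝ} (hW : Continuous W) {x : St} (g : Good W x)
    {s : H} (hs : Lim W s) {a b : ℝ} (ha : a ∈ x.Θ) (hb : b ∈ x.Θ) (hab : a < b) (R : ℝ) :
    ∃ y, Good W y ∧ Le R x y ∧ SepT y s a b := by
  obtain ⟨y, gy, l, θ₁, -, a1⟩ := sep1 h1 h2 hW g hs ha hb hab R
  obtain ⟨z, gz, l', θ₂, n2, a2⟩ := sep1 h1 h2 hW gy hs (l.sub ha) (l.sub hb) hab R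
  exact ⟨z, gz, l.trans l', θ₁, θ₂, fun e => n2 (e ▸ a1.1), a1.mono l' (l.sub ha) (l.sub hb), a2⟩

lemma sepAll (h1 : S_L1) (h2 : S_L2) {W : ℂ → ℝ} (hW : Continuous W) {x : St} (g : Good W x)
    (R : ℝ) {T : Set (H × ℝ × ℝ)} (hT : T.Finite)
    (h : ∀ q ∈ T, Lim W q.1 ∧ q.2.1 ∈ x.Θ ∧ q.2.2 ∈ x.Θ ∧ q.2.1 < q.2.2) :
    ∃ y, Good W y ∧ Le R x y ∧ ∀ q ∈ T, SepT y q.1 q.2.1 q.2.2 := by
  induction T, hT using Set.Finite.induction_on with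
  | empty => exact ⟨x, g, Le.refl R x, fun _ h => h.elim⟩
  | @insert q T _ _ ih =>
    obtain ⟨y, gy, l, hy⟩ := ih fun q hq => h q (mem_insert_of_mem _ hq)
    obtain ⟨a1, a2, a3, a4⟩ := h q (mem_insert _ _)
    obtain ⟨z, gz, l', hz⟩ := sep2 h1 h2 hW gy a1 (l.sub a2) (l.sub a3) a4 R
    refine ⟨z, gz, l.trans l', ?_⟩
    rintro q' (rfl | hq)
    · exact hz
    · obtain ⟨-, b2, b3, -⟩ := h q' (mem_insert_of_mem _ hq)
      exact (hy q' hq).mono l' (l.sub b2) (l.sub b3)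

lemma stage (h1 : S_L1) (h2 : S_L2) {W : ℂ → ℝ} (hW : Continuous W) {S : Set H} (hS : S.Finite)
    (hl : ∀ s ∈ S, Lim W s) (φ R : ℝ) (x : {x // Good W x}) :
    ∃ y : {x // Good W x}, Le R x.1 y.1 ∧ (φ ∈ Ico (0 : ℝ) 1 → φ ∈ y.1.Θ) ∧
      ∀ s ∈ S, ∀ a ∈ x.1.Θ, ∀ b ∈ x.1.Θ, a < b → SepT y.1 s a b := by
  obtain ⟨y, gy, l, hy⟩ := sepAll h1 h2 hW x.2 R
    (T := {q ∈ S ×ˢ (x.1.Θ ×ˢ x.1.Θ) | q.2.1 < q.2.2})
    ((hS.prod (x.2.fin.prod x.2.fin)).subset (sep_subset _ _))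
    fun q hq => ⟨hl _ hq.1.1, hq.1.2.1, hq.1.2.2, hq.2⟩
  obtain ⟨z, gz, l', hz⟩ := dens h1 h2 hW gy φ R
  exact ⟨⟨z, gz⟩, l.trans l', hz, fun s hs a ha b hb hab =>
    (hy (s, a, b) ⟨⟨hs, ha, hb⟩, hab⟩).mono l' (l.sub ha) (l.sub hb)⟩

lemma start (h3 : S_L3) {W : ℂ → ℝ} (hW : Continuous W) : ∃ x, Good W x := by
  obtain ⟨h, hd, a1, a2⟩ := h3 W hW
  refine ⟨⟨h, {0, 1 / 2}, fun t => 1 - 4 * t⟩, hd, toFinite _, ?_, Or.inl rfl, Or.inr rfl, ?_, ?_⟩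
  · rintro t (rfl | rfl) <;> constructor <;> norm_num
  · intro s _ t _ e
    have : (s : ℂ) = t := by
      dsimp only at e
      linear_combination (-1 / 4 : ℂ) * e
    exact_mod_cast this
  · rintro t (rfl | rfl)
    · simpa using a1
    · have : (1 : ℂ) - 4 * ((1 / 2 : ℝ) : ℂ) = -1 := by push_cast; ring
      dsimp only
      rwa [this]

end L4

open L4 in
theorem sL4_of (h1 : S_L1) (h2 : S_L2) (h3 : S_L3) : S_L4 := by
  classical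
  intro W S hW hS hl
  obtain ⟨x₀, g₀⟩ := start h3 hW
  obtain ⟨e, he⟩ := exists_surjective_nat ℚ
  choose F F1 F2 F3 using fun (n : ℕ) => stage h1 h2 hW hS hl (e n) n
  let X : ℕ → {x // Good W x} := fun n => Nat.rec ⟨x₀, g₀⟩ F n
  have X1 : ∀ n : ℕ, Le n (X n).1 (X (n + 1)).1 := fun n => F1 n (X n)
  have X2 : ∀ n m, n ≤ m → Le 0 (X n).1 (X m).1 := fun n m h => by
    induction m, h using Nat.le_induction with
    | base => exact Le.refl _ _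
    | succ m _ ih => exact ih.trans ((X1 m).mono (Nat.cast_nonneg m))
  obtain ⟨g, hg⟩ := exists_ec (h := fun n => (X n).1.h) fun R =>
    (tendsto_natCast_atTop_atTop.eventually_ge_atTop R).mono fun n hn z hz =>
      (X1 n).ball z (hz.trans hn)
  have hg' : ∀ (n : ℕ) (z : ℂ), ∃ m, n ≤ m ∧ g z = (X m).1.h z ∧ g⁻¹ z = (X m).1.h⁻¹ z :=
    fun n z => by
      obtain ⟨m, a1, a2⟩ := ((eventually_ge_atTop n).and (hg ‖z‖)).exists
      exact ⟨m, a1, a2 z le_rfl⟩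
  let v : ℝ → ℂ := fun θ => if h : ∃ n, θ ∈ (X n).1.Θ then (X h.choose).1.v θ else 0
  have hv : ∀ n, ∀ θ ∈ (X n).1.Θ, v θ = (X n).1.v θ := fun n θ hθ => by
    have h : ∃ n, θ ∈ (X n).1.Θ := ⟨n, hθ⟩
    show (if h : ∃ n, θ ∈ (X n).1.Θ then (X h.choose).1.v θ else 0) = _
    rw [dif_pos h, ← (X2 _ _ (le_max_left h.choose n)).v θ h.choose_spec,
      (X2 _ _ (le_max_right h.choose n)).v θ hθ]
  let Y : St := ⟨g, ⋃ n, (X n).1.Θ, v⟩
  have hY : ∀ n, Le 0 (X n).1 Y := fun n => by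
    refine ⟨subset_iUnion (fun n => (X n).1.Θ) n, hv n, fun z hz => ?_, fun θ hθ t ht => ?_,
      fun a ha b hb z => ?_⟩
    · obtain ⟨m, a1, a2, a3⟩ := hg' n z
      exact ⟨a2.trans ((X2 n m a1).ball z hz).1, a3.trans ((X2 n m a1).ball z hz).2⟩
    · obtain ⟨m, a1, a2, -⟩ := hg' n (t * ee θ)
      exact a2.trans ((X2 n m a1).ray θ hθ t ht)
    · obtain ⟨m, a1, -, a3⟩ := hg' n z
      show g⁻¹ z ∈ _ ↔ _
      rw [a3]
      exact (X2 n m a1).sec a ha b hb z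
  have two : ∀ a ∈ Y.Θ, ∀ b ∈ Y.Θ, ∃ n, a ∈ (X n).1.Θ ∧ b ∈ (X n).1.Θ := fun a ha b hb => by
    obtain ⟨n, hn⟩ := mem_iUnion.1 ha
    obtain ⟨m, hm⟩ := mem_iUnion.1 hb
    exact ⟨max n m, (X2 _ _ (le_max_left n m)).sub hn, (X2 _ _ (le_max_right n m)).sub hm⟩
  refine ⟨g, Y.Θ, v, ?_, ⟨iUnion_subset fun n => (X n).2.sub, fun a b a0 ab b1 => ?_,
    fun a ha b hb e' => ?_, fun θ hθ => ?_⟩, fun s hs a ha b hb hab => ?_⟩
  · obtain ⟨n, hn⟩ := (hg 1).exists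
    rw [← (X n).2.dg]
    refine deg_congr (p := 0) ?_
    filter_upwards [closedBall_mem_nhds (0 : ℂ) one_pos] with z hz
    exact (hn z (mem_closedBall_zero_iff.1 hz)).1
  · obtain ⟨q, q1, q2⟩ := exists_rat_btwn ab
    obtain ⟨n, rfl⟩ := he q
    exact ⟨_, (hY (n + 1)).sub (F2 n (X n) ⟨a0.trans q1.le, q2.trans_le b1⟩), q1, q2⟩
  · obtain ⟨n, a1, a2⟩ := two a ha b hb
    exact (X n).2.inj a1 a2 (by rw [← hv n a a1, ← hv n b a2, e'])
  · obtain ⟨n, hn⟩ := mem_iUnion.1 hθ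
    have : Val (fun x => ang W (g x)) θ (v θ) := by
      rw [hv n θ hn]
      exact ((X n).2.val θ hn).congr' ((eventually_ge_atTop 0).mono fun t ht =>
        congrArg (ang W) ((hY n).ray θ hn t ht).symm)
    refine ⟨fun h0 => ?_, this⟩
    have := val_norm this
    rw [h0] at this
    simp at this
  · obtain ⟨n, a1, a2⟩ := two a ha b hb
    obtain ⟨θ₁, θ₂, hne, b1, b2⟩ := (F3 n (X n) s hs a a1 b a2 hab).mono (hY (n + 1))
      ((X1 n).sub a1) ((X1 n).sub a2)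
    refine ⟨θ₁, b1.1, θ₂, b2.1, hne, ?_⟩
    filter_upwards [b1.2, b2.2] with t c1 c2
    have : ∀ z, (g⁻¹ * s * g)⁻¹ z = g⁻¹ (s⁻¹ (g z)) := fun z => by
      rw [mul_inv_rev, mul_inv_rev, inv_inv]; rfl
    exact ⟨mem_image_h.2 (by rwa [this]), mem_image_h.2 (by rwa [this])⟩

end

end Pool.Agent.Lib.MP_d32f96_gt
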