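import Pool.Agent.Lib.MP_d32f96_gt.Frame

/-! Continuous extension to the circle at infinity. -/

namespace Pool.Agent.Lib.MP_d32f96_gt

open Set Filter Topology Metric Complex Bornology
open Pool.Agent.Lib.MP_1e9af3_an Pool.Agent.Lib.MP_069d55_gt

noncomputable section

namespace L5

def ray (θ : ℝ) : Set ℂ := {z | ∃ s : ℝ, 0 ≤ s ∧ z = s * ee θ}

lemma ee_shift (t : ℝ) (n : ℤ) : ee ((t + n : ℝ) : ℂ) = ee t := by
  push_cast; exact ee_add_int _ n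

lemma mem_sec {α β r t : ℝ} (hr : 0 < r) :
    (r : ℂ) * ee t ∈ Sec α β ↔ ∃ n : ℤ, α < t + n ∧ t + n < β := by
  constructor
  · rintro ⟨r', hr', t', h1, h2, h⟩
    have hn := congrArg norm h
    rw [norm_mul, norm_mul, norm_ee_real, norm_ee_real, norm_real, norm_real,
      Real.norm_of_nonneg hr.le, Real.norm_of_nonneg hr'.le, mul_one, mul_one] at hn
    subst hn
    obtain ⟨n, hn⟩ := ee_eq_iff.1 (mul_left_cancel₀ (ofReal_ne_zero.2 hr.ne') h).symm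
    have : t' = t + n := by exact_mod_cast hn
    exact ⟨n, this ▸ h1, this ▸ h2⟩
  · rintro ⟨n, h1, h2⟩
    exact ⟨r, hr, t + n, h1, h2, by rw [ee_shift]⟩

lemma ee_mem_sec {α β t : ℝ} (h1 : α < t) (h2 : t < β) : ee t ∈ Sec α β :=
  ⟨1, one_pos, t, h1, h2, by simp⟩

lemma sec_eq (α β : ℝ) : Sec α β = ee '' {w | α < w.re ∧ w.re < β} := by
  ext z
  constructor
  · rintro ⟨r, hr, t, h1, h2, rfl⟩
    obtain ⟨w, hw, hw'⟩ := ee_real_mul hr t
    exact ⟨w, ⟨hw' ▸ h1, hw' ▸ h2⟩, hw⟩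
  · rintro ⟨w, ⟨h1, h2⟩, rfl⟩
    exact ⟨‖ee w‖, norm_pos_iff.2 (ee_ne w), w.re, h1, h2, ee_polar w⟩

lemma isOpen_sec (α β : ℝ) : IsOpen (Sec α β) := by
  have ho : IsOpenMap ee := isOpenMap_exp.comp (Homeomorph.mulLeft₀ tpi tpi_ne).isOpenMap
  rw [sec_eq]
  exact ho _ ((isOpen_lt continuous_const continuous_re).inter
    (isOpen_lt continuous_re continuous_const))

lemma sec_disj {α β : ℝ} {z : ℂ} (h : z ∈ Sec α β) (h' : z ∈ Sec β (α + 1)) : False := by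
  obtain ⟨r, hr, t, h1, h2, rfl⟩ := h
  obtain ⟨n, h3, h4⟩ := (mem_sec hr).1 h'
  have a1 : (0 : ℝ) < n := by linarith
  have a2 : (n : ℝ) < 1 := by linarith
  have b1 : 0 < n := by exact_mod_cast a1
  have b2 : n < 1 := by exact_mod_cast a2
  omega

lemma sec_mono {α β α' β' : ℝ} (h1 : α' ≤ α) (h2 : β ≤ β') : Sec α β ⊆ Sec α' β' := by
  rintro z ⟨r, hr, t, h3, h4, rfl⟩
  exact ⟨r, hr, t, by linarith, by linarith, rfl⟩

lemma sec_cover {α β : ℝ} {z : ℂ} (h : z ∉ ray α) (h' : z ∉ ray β) :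
    z ∈ Sec α β ∨ z ∈ Sec β (α + 1) := by
  have hz : z ≠ 0 := fun h0 => h ⟨0, le_rfl, by simp [h0]⟩
  have hr := norm_pos_iff.2 hz
  set n : ℤ := -⌊targ z - α⌋ with hn
  have e : z = ‖z‖ * ee ((targ z + n : ℝ) : ℂ) := by rw [ee_shift]; exact polar hz
  have h1 : α ≤ targ z + n := by
    have := Int.floor_le (targ z - α); rw [hn]; push_cast; linarith
  have h2 : targ z + n < α + 1 := by
    have := Int.lt_floor_add_one (targ z - α); rw [hn]; push_cast; linarith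
  have h3 : α < targ z + n := lt_of_le_of_ne h1 fun h0 => h ⟨‖z‖, hr.le, by rw [h0]; exact e⟩
  rcases lt_trichotomy (targ z + n) β with h4 | h4 | h4
  · exact Or.inl ⟨_, hr, _, h3, h4, e⟩
  · exact absurd ⟨‖z‖, hr.le, by rw [← h4]; exact e⟩ h'
  · exact Or.inr ⟨_, hr, _, h4, h2, e⟩

lemma sec_or {α β : ℝ} {A : Set ℂ} (hA : IsPreconnected A) (h : ∀ z ∈ A, z ∉ ray α)
    (h' : ∀ z ∈ A, z ∉ ray β) : A ⊆ Sec α β ∨ A ⊆ Sec β (α + 1) :=
  hA.subset_or_subset (isOpen_sec _ _) (isOpen_sec _ _)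
    (Set.disjoint_left.2 fun _ h1 h2 => sec_disj h1 h2) fun z hz => sec_cover (h z hz) (h' z hz)

lemma sec_smul {α β c : ℝ} {z : ℂ} (hc : 0 < c) (h : z ∈ Sec α β) : (c : ℂ) * z ∈ Sec α β := by
  obtain ⟨r, hr, t, h1, h2, rfl⟩ := h
  exact ⟨c * r, mul_pos hc hr, t, h1, h2, by push_cast; ring⟩

lemma iota_eq (z : ℂ) : iota z = (((1 + ‖z‖)⁻¹ : ℝ) : ℂ) * z := by
  rw [iota, ofReal_inv, div_eq_inv_mul]

lemma iota_sec {α β : ℝ} {z : ℂ} : iota z ∈ Sec α β ↔ z ∈ Sec α β := by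
  have h0 : 0 < 1 + ‖z‖ := by positivity
  refine ⟨fun h => ?_, fun h => by rw [iota_eq]; exact sec_smul (inv_pos.2 h0) h⟩
  have := sec_smul h0 h
  rwa [iota, mul_div_cancel₀ _ (ofReal_ne_zero.2 h0.ne')] at this

lemma norm_iota (z : ℂ) : ‖iota z‖ = 1 - (1 + ‖z‖)⁻¹ := by
  have h0 : 0 < 1 + ‖z‖ := by positivity
  rw [iota, norm_div, norm_real, Real.norm_of_nonneg h0.le]
  field_simp; ring

lemma norm_iota_lt (z : ℂ) : ‖iota z‖ < 1 := by
  have h0 : 0 < 1 + ‖z‖ := by positivity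
  rw [norm_iota]; linarith [inv_pos.2 h0]

lemma continuous_iota : Continuous iota := by
  unfold iota
  refine continuous_id.div (by fun_prop) fun z => ofReal_ne_zero.2 (by positivity)

def jota (w : ℂ) : ℂ := w / ((1 - ‖w‖ : ℝ) : ℂ)

lemma jota_iota (z : ℂ) : jota (iota z) = z := by
  have h0 : 0 < 1 + ‖z‖ := by positivity
  have h1 : ((1 + ‖z‖ : ℝ) : ℂ) ≠ 0 := ofReal_ne_zero.2 h0.ne'
  rw [jota, norm_iota, sub_sub_cancel, iota, ofReal_inv]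
  field_simp

lemma norm_jota {w : ℂ} (hw : ‖w‖ < 1) : ‖jota w‖ = (1 - ‖w‖)⁻¹ - 1 := by
  have h0 : 0 < 1 - ‖w‖ := by linarith
  rw [jota, norm_div, norm_real, Real.norm_of_nonneg h0.le]
  field_simp; ring

lemma iota_jota {w : ℂ} (hw : ‖w‖ < 1) : iota (jota w) = w := by
  have h0 : 0 < 1 - ‖w‖ := by linarith
  have h1 : ((1 - ‖w‖ : ℝ) : ℂ) ≠ 0 := ofReal_ne_zero.2 h0.ne'
  rw [iota, norm_jota hw, add_sub_cancel, jota, ofReal_inv]
  field_simp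

lemma continuousOn_jota : ContinuousOn jota (ball 0 1) := by
  unfold jota
  refine continuousOn_id.div (by fun_prop) fun z hz => ofReal_ne_zero.2 ?_
  have := mem_ball_zero_iff.1 hz
  linarith

lemma tendsto_jota {ζ : ℂ} (hζ : ‖ζ‖ = 1) :
    Tendsto (fun w => ‖jota w‖) (𝓝[ball 0 1] ζ) atTop := by
  have h1 : Tendsto (fun w : ℂ => 1 - ‖w‖) (𝓝[ball 0 1] ζ) (𝓝[>] 0) := by
    refine tendsto_nhdsWithin_iff.2 ⟨?_, ?_⟩
    · have : Continuous fun w : ℂ => 1 - ‖w‖ := by fun_prop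
      have := (this.tendsto ζ).mono_left (nhdsWithin_le_nhds (s := ball 0 1))
      simpa [hζ] using this
    · filter_upwards [self_mem_nhdsWithin] with w hw
      exact sub_pos.2 (mem_ball_zero_iff.1 hw)
  refine (tendsto_atTop_add_const_right _ (-1) (tendsto_inv_nhdsGT_zero.comp h1)).congr' ?_
  filter_upwards [self_mem_nhdsWithin] with w hw
  rw [norm_jota (mem_ball_zero_iff.1 hw)]; rfl

lemma tendsto_normH (F : H) {X : Type*} {l : Filter X} {φ : X → ℂ}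
    (h : Tendsto (fun x => ‖φ x‖) l atTop) : Tendsto (fun x => ‖F (φ x)‖) l atTop :=
  tendsto_atTop.2 fun R => by
    obtain ⟨R', hR'⟩ := proper F R
    exact (h.eventually_ge_atTop R').mono fun x hx => hR' _ hx

lemma unit_eq {p : ℂ} (hp : ‖p‖ = 1) : p = ee (targ p) := by
  have := polar (z := p) (fun h => by simp [h] at hp)
  rwa [hp, ofReal_one, one_mul] at this

/-- convergence of the direction -/
lemma conv {X : Type*} {l : Filter X} [l.NeBot] {φ : X → ℂ}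
    (h : Tendsto (fun x => ‖φ x‖) l atTop)
    (hs : ∀ a b : ℝ, a < b → b < a + 1 → ∃ θ₁ θ₂ : ℝ, a < θ₁ ∧ θ₁ < b ∧ b < θ₂ ∧ θ₂ < a + 1 ∧
      ((∀ᶠ x in l, φ x ∈ Sec θ₁ θ₂) ∨ ∀ᶠ x in l, φ x ∈ Sec θ₂ (θ₁ + 1))) :
    ∃ y, Tendsto (fun x => iota (φ x)) l (𝓝 y) := by
  have hm : ∀ᶠ x in l, iota (φ x) ∈ closedBall (0 : ℂ) 1 :=
    Eventually.of_forall fun x => mem_closedBall_zero_iff.2 (norm_iota_lt _).le
  have hn : Tendsto (fun x => ‖iota (φ x)‖) l (𝓝 1) := by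
    simp only [norm_iota]
    have := (tendsto_inv_atTop_zero.comp (tendsto_atTop_add_const_left l 1 h)).const_sub 1
    simpa using this
  have h1 : ∀ p, MapClusterPt p l (fun x => iota (φ x)) → ‖p‖ = 1 := fun p hp => by
    have := hp.continuousAt_comp continuous_norm.continuousAt
    exact eq_of_nhds_neBot (this.clusterPt.mono hn)
  have h2 : ∀ p, MapClusterPt p l (fun x => iota (φ x)) → ∀ α β, p ∈ Sec α β →
      ∃ᶠ x in l, φ x ∈ Sec α β := fun p hp α β h0 =>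
    (mapClusterPt_iff_frequently.1 hp _ ((isOpen_sec α β).mem_nhds h0)).mono fun x hx =>
      iota_sec.1 hx
  obtain ⟨y, -, hy⟩ := (isCompact_closedBall (0 : ℂ) 1).exists_mapClusterPt_of_frequently
    hm.frequently
  refine ⟨y, (isCompact_closedBall (0 : ℂ) 1).tendsto_nhds_of_unique_mapClusterPt hm
    fun p _ hp => ?_⟩
  by_contra hne
  set a := targ y
  set n : ℤ := -⌊targ p - a⌋ with hn'
  set b := targ p + n with hb
  have ey : y = ee a := unit_eq (h1 y hy)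
  have ep : p = ee b := by rw [hb, ee_shift]; exact unit_eq (h1 p hp)
  have b1 : a ≤ b := by
    have := Int.floor_le (targ p - a); rw [hb, hn']; push_cast; linarith
  have b2 : b < a + 1 := by
    have := Int.lt_floor_add_one (targ p - a); rw [hb, hn']; push_cast; linarith
  have b3 : a < b := lt_of_le_of_ne b1 fun h0 => hne (by rw [ey, ep, h0])
  obtain ⟨θ₁, θ₂, c1, c2, c3, c4, hc | hc⟩ := hs a b b3 b2
  · have : y ∈ Sec θ₂ (θ₁ + 1) := by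
      rw [ey, ← ee_shift a 1]
      exact ee_mem_sec (by push_cast; linarith) (by push_cast; linarith)
    obtain ⟨x, hx1, hx2⟩ := ((h2 y hy _ _ this).and_eventually hc).exists
    exact sec_disj hx2 hx1
  · obtain ⟨x, hx1, hx2⟩ := ((h2 p hp _ _ (ep ▸ ee_mem_sec c2 c3)).and_eventually hc).exists
    exact sec_disj hx1 hx2

lemma norm_rad {t θ : ℝ} (ht : 0 ≤ t) : ‖(t : ℂ) * ee θ‖ = t := by
  rw [norm_mul, norm_ee_real, norm_real, Real.norm_of_nonneg ht, mul_one]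

lemma tendsto_rad (θ : ℝ) : Tendsto (fun t : ℝ => ‖(t : ℂ) * ee θ‖) atTop atTop :=
  tendsto_id.congr' ((eventually_ge_atTop 0).mono fun _ ht => (norm_rad ht).symm)

lemma ray_shift (θ : ℝ) (n : ℤ) : ray (θ + n) = ray θ := by
  simp only [ray, ee_shift]

/-- a subinterval inside the unit interval after an integer shift -/
lemma exists_sub {a b : ℝ} (h : a < b) :
    ∃ (n : ℤ) (c d : ℝ), 0 ≤ c ∧ c < d ∧ d ≤ 1 ∧ a ≤ c + n ∧ d + n ≤ b := by
  refine ⟨⌊a⌋, a - ⌊a⌋, min (b - ⌊a⌋) 1, by linarith [Int.floor_le a], lt_min (by linarith)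
    (by linarith [Int.lt_floor_add_one a]), min_le_right _ _, by linarith, ?_⟩
  linarith [min_le_left (b - ⌊a⌋) 1]

section Main

variable {G : H} {u : ℂ → ℂ} {Θ : Set ℝ} {v : ℝ → ℂ} {ω : ℂ}

lemma miss (hF : Fam u Θ v) (hω : Tendsto (fun x => u (G x) / u x) (cocompact ℂ) (𝓝 ω))
    {θ θ' : ℝ} (hθ : θ ∈ Θ) (hθ' : θ' ∈ Θ) (hne : v θ' ≠ ω * v θ) :
    ∀ᶠ t : ℝ in atTop, G (t * ee θ) ∉ ray θ' := by
  obtain ⟨-, -, -, hv⟩ := hF
  have h1 : Tendsto (fun t : ℝ => (t : ℂ) * ee θ) atTop (cocompact ℂ) := by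
    rw [← Metric.cobounded_eq_cocompact, ← tendsto_norm_atTop_iff_cobounded]
    exact tendsto_rad θ
  have h2 : Tendsto (fun t : ℝ => u (G (t * ee θ))) atTop (𝓝 (ω * v θ)) := by
    refine ((hω.comp h1).mul (hv θ hθ).2).congr' ?_
    filter_upwards [(hv θ hθ).2.eventually_ne (hv θ hθ).1] with t ht
    exact div_mul_cancel₀ _ ht
  have h3 := (hv θ' hθ').2.comp (tendsto_normH G (tendsto_rad θ))
  have h4 := (h3.sub h2).eventually_ne (sub_ne_zero.2 hne)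
  filter_upwards [h4] with t ht
  rintro ⟨s, hs, he⟩
  refine ht (sub_eq_zero.2 ?_)
  simp only [Function.comp]
  rw [he, norm_rad hs]

lemma dense_avoid (hF : Fam u Θ v) (c : ℂ) {a b : ℝ} (h : a < b) :
    ∃ θ ∈ Θ, ∃ n : ℤ, v θ ≠ c ∧ a < θ + n ∧ θ + n < b := by
  obtain ⟨n, c', d, h0, h1, h2, h3, h4⟩ := exists_sub h
  obtain ⟨θ, hθ, a1, a2⟩ := hF.2.1 c' d h0 h1 h2
  obtain ⟨θ', hθ', b1, b2⟩ := hF.2.1 θ d (by linarith) a2 h2
  by_cases hc : v θ = c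
  · refine ⟨θ', hθ', n, fun h' => ?_, by linarith, by linarith⟩
    exact b1.ne (hF.2.2.1 hθ hθ' (hc.trans h'.symm))
  · exact ⟨θ, hθ, n, hc, by linarith, by linarith⟩

lemma land (hF : Fam u Θ v) (hω : Tendsto (fun x => u (G x) / u x) (cocompact ℂ) (𝓝 ω))
    {θ : ℝ} (hθ : θ ∈ Θ) : ∃ y, Tendsto (fun t : ℝ => iota (G (t * ee θ))) atTop (𝓝 y) := by
  refine conv (tendsto_normH G (tendsto_rad θ)) fun a b hab hba => ?_
  obtain ⟨θ₁, h1, n₁, a1, a2, a3⟩ := dense_avoid hF (ω * v θ) hab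
  obtain ⟨θ₂, h2, n₂, b1, b2, b3⟩ := dense_avoid hF (ω * v θ) hba
  refine ⟨_, _, a2, a3, b2, b3, ?_⟩
  obtain ⟨T, hT⟩ := eventually_atTop.1 ((miss hF hω hθ h1 a1).and (miss hF hω hθ h2 b1))
  have hc : Continuous fun t : ℝ => G (t * ee θ) := by fun_prop
  rcases sec_or (α := θ₁ + n₁) (β := θ₂ + n₂) (isPreconnected_Ici.image _ hc.continuousOn)
    (by rintro _ ⟨t, ht, rfl⟩; rw [ray_shift]; exact (hT t ht).1)
    (by rintro _ ⟨t, ht, rfl⟩; rw [ray_shift]; exact (hT t ht).2) with h | h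
  · exact Or.inl ((eventually_ge_atTop T).mono fun t ht => h ⟨t, ht, rfl⟩)
  · exact Or.inr ((eventually_ge_atTop T).mono fun t ht => h ⟨t, ht, rfl⟩)

lemma preconn_sec (α β R : ℝ) : IsPreconnected (Sec α β ∩ {z | max R 0 < ‖z‖}) := by
  have e : Sec α β ∩ {z | max R 0 < ‖z‖} =
      (fun q : ℝ × ℝ => (q.1 : ℂ) * ee q.2) '' (Ioi (max R 0) ×ˢ Ioo α β) := by
    ext z
    constructor
    · rintro ⟨⟨r, hr, t, h1, h2, rfl⟩, h⟩
      exact ⟨(r, t), ⟨by simpa only [mem_ofPred_eq, norm_rad hr.le, mem_Ioi] using h, h1, h2⟩, rfl⟩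
    · rintro ⟨⟨r, t⟩, ⟨h, h1, h2⟩, rfl⟩
      have hr : 0 < r := (le_max_right R 0).trans_lt h
      exact ⟨⟨r, hr, t, h1, h2, rfl⟩, by simpa only [mem_ofPred_eq, norm_rad hr.le, mem_Ioi] using h⟩
  rw [e]
  have hc : Continuous fun q : ℝ × ℝ => (q.1 : ℂ) * ee q.2 :=
    (continuous_ofReal.comp continuous_fst).mul
      (continuous_ee.comp (continuous_ofReal.comp continuous_snd))
  exact (isPreconnected_Ioi.prod isPreconnected_Ioo).image _ hc.continuousOn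

lemma ee_inj {a b : ℝ} (ha : a ∈ Ico (0 : ℝ) 1) (hb : b ∈ Ico (0 : ℝ) 1) (h : ee a = ee b) :
    a = b := by
  obtain ⟨n, hn⟩ := ee_eq_iff.1 h
  have e : a = b + n := by exact_mod_cast hn
  have a1 : (-1 : ℝ) < n := by linarith [ha.1, hb.2]
  have a2 : (n : ℝ) < 1 := by linarith [ha.2, hb.1]
  have b1 : -1 < n := by exact_mod_cast a1
  have b2 : n < 1 := by exact_mod_cast a2
  have : n = 0 := by omega
  simpa [this] using e

lemma sep_one (hF : Fam u Θ v) (hS : Sep G Θ) (τ : ℝ) {α β : ℝ} (hα : α ∈ Θ) (hβ : β ∈ Θ)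
    (h : α < β) : ∃ η : ℝ, τ < η ∧ η < τ + 1 ∧
      ∀ᶠ t : ℝ in atTop, G⁻¹ (t * ee η) ∈ Sec α β := by
  obtain ⟨θ₁, h1, θ₂, h2, hne, ht⟩ := hS α hα β hβ h
  have key : ∀ θ : ℝ, ee θ ≠ ee τ → (∀ᶠ t : ℝ in atTop, (t : ℂ) * ee θ ∈ G '' Sec α β) →
      ∃ η : ℝ, τ < η ∧ η < τ + 1 ∧ ∀ᶠ t : ℝ in atTop, G⁻¹ (t * ee η) ∈ Sec α β := by
    intro θ h3 h4
    set n : ℤ := -⌊θ - τ⌋ with hn
    have b1 : τ ≤ θ + n := by
      have := Int.floor_le (θ - τ); rw [hn]; push_cast; linarith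
    have b2 : θ + n < τ + 1 := by
      have := Int.lt_floor_add_one (θ - τ); rw [hn]; push_cast; linarith
    refine ⟨θ + n, lt_of_le_of_ne b1 fun h0 => h3 (by rw [h0, ee_shift]), b2, ?_⟩
    rw [ee_shift]
    exact h4.mono fun t ht => mem_image_h.1 ht
  by_cases h3 : ee θ₁ = ee τ
  · exact key θ₂ (fun h4 => hne (ee_inj (hF.1 h1) (hF.1 h2) (h3.trans h4.symm)))
      (ht.mono fun t h => h.2)
  · exact key θ₁ h3 (ht.mono fun t h => h.1)

lemma far {α τ c d : ℝ} (h1 : τ < c) (h2 : d < τ + 1)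
    (h : Tendsto (fun t : ℝ => iota (G (t * ee α))) atTop (𝓝 (ee τ))) :
    ∃ R : ℝ, ∀ z ∈ Sec c d, R < ‖z‖ → G⁻¹ z ∉ ray α := by
  have h0 : ee τ ∈ Sec d (c + 1) := by
    rw [← ee_shift τ 1]
    exact ee_mem_sec (by push_cast; linarith) (by push_cast; linarith)
  obtain ⟨T, hT⟩ := eventually_atTop.1 (h.eventually ((isOpen_sec _ _).mem_nhds h0))
  obtain ⟨R, hR⟩ := bdd_on G T
  refine ⟨R, fun z hz hzR => ?_⟩
  rintro ⟨s, hs, he⟩
  have e : z = G (s * ee α) := by rw [← he, happly_inv]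
  rcases le_total s T with h3 | h3
  · have := hR (s * ee α) (by rw [norm_rad hs]; exact h3)
    rw [← e] at this; linarith
  · exact sec_disj hz (e ▸ iota_sec.1 (hT s h3))

lemma no_arc (hF : Fam u Θ v) (hS : Sep G Θ) {τ a b : ℝ} (hab : a < b)
    (h : ∀ θ ∈ Θ, ∀ n : ℤ, a < θ + n → θ + n < b →
      Tendsto (fun t : ℝ => iota (G (t * ee θ))) atTop (𝓝 (ee τ))) : False := by
  obtain ⟨n, c, d, h0, h1, h2, h3, h4⟩ := exists_sub hab
  obtain ⟨α, hα, a1, a2⟩ := hF.2.1 c d h0 h1 h2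
  obtain ⟨β, hβ, b1, b2⟩ := hF.2.1 α d (by linarith) a2 h2
  obtain ⟨γ, hγ, c1, c2⟩ := hF.2.1 β d (by linarith) b2 h2
  obtain ⟨η₁, d1, d2, d3⟩ := sep_one hF hS τ hα hβ b1
  obtain ⟨η₂, e1, e2, e3⟩ := sep_one hF hS τ hβ hγ c1
  obtain ⟨p, p1, p2⟩ := exists_between (lt_min d1 e1)
  obtain ⟨q, q1, q2⟩ := exists_between (max_lt d2 e2)
  obtain ⟨R₁, hR₁⟩ := far p1 q2 (h α hα n (by linarith) (by linarith))
  obtain ⟨R₂, hR₂⟩ := far p1 q2 (h β hβ n (by linarith) (by linarith))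
  have hin : ∀ η : ℝ, p < η → η < q → ∀ᶠ t : ℝ in atTop, G⁻¹ (t * ee η) ∈
      (G⁻¹ : H) '' (Sec p q ∩ {z | max (max R₁ R₂) 0 < ‖z‖}) := fun η k1 k2 => by
    filter_upwards [eventually_gt_atTop (max (max R₁ R₂) 0)] with t ht
    have ht0 : 0 < t := (le_max_right _ _).trans_lt ht
    exact ⟨_, ⟨⟨t, ht0, η, k1, k2, rfl⟩, by simpa only [mem_ofPred_eq, norm_rad ht0.le] using ht⟩,
      rfl⟩
  rcases sec_or (α := α) (β := β) ((preconn_sec p q (max R₁ R₂)).image _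
    (G⁻¹ : H).continuous.continuousOn)
    (by rintro _ ⟨z, hz, rfl⟩
        exact hR₁ z hz.1 (((le_max_left _ _).trans (le_max_left _ _)).trans_lt hz.2))
    (by rintro _ ⟨z, hz, rfl⟩
        exact hR₂ z hz.1 (((le_max_right _ _).trans (le_max_left _ _)).trans_lt hz.2)) with k | k
  · obtain ⟨t, t1, t2⟩ := ((hin η₂ (p2.trans_le (min_le_right _ _))
      ((le_max_right _ _).trans_lt q1)).and e3).exists
    exact sec_disj (k t1) (sec_mono le_rfl (by linarith) t2)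
  · obtain ⟨t, t1, t2⟩ := ((hin η₁ (p2.trans_le (min_le_left _ _))
      ((le_max_left _ _).trans_lt q1)).and d3).exists
    exact sec_disj t2 (k t1)

lemma land_eq {ζ y : ℂ} (hζ : ‖ζ‖ = 1) {θ : ℝ}
    (hy : Tendsto (fun t : ℝ => iota (G (t * ee θ))) atTop (𝓝 y))
    (h : ∃ᶠ w in 𝓝[ball 0 1] ζ, G⁻¹ (jota w) ∈ ray θ) : y = ζ := by
  have h1 := hy.comp (tendsto_normH G⁻¹ (tendsto_jota hζ))
  have h2 : Tendsto id (𝓝[ball (0 : ℂ) 1] ζ) (𝓝 ζ) := tendsto_id.mono_left nhdsWithin_le_nhds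
  refine tendsto_nhds_unique_of_frequently_eq h1 h2 ?_
  refine (h.and_eventually self_mem_nhdsWithin).mono fun w ⟨⟨s, hs, he⟩, hw⟩ => ?_
  simp only [Function.comp, id]
  rw [he, norm_rad hs, ← he, happly_inv, iota_jota (mem_ball_zero_iff.1 hw)]

lemma lim_bd (hF : Fam u Θ v) (hω : Tendsto (fun x => u (G x) / u x) (cocompact ℂ) (𝓝 ω))
    (hS : Sep G Θ) {ζ : ℂ} (hζ : ‖ζ‖ = 1) :
    ∃ y, Tendsto (fun w => iota (G⁻¹ (jota w))) (𝓝[ball 0 1] ζ) (𝓝 y) := by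
  have := neBot_ball (mem_closedBall_zero_iff.2 hζ.le)
  have key : ∀ a b : ℝ, a < b → ∃ θ : ℝ, a < θ ∧ θ < b ∧
      ∀ᶠ w in 𝓝[ball 0 1] ζ, G⁻¹ (jota w) ∉ ray θ := fun a b hab => by
    by_contra hc
    refine no_arc hF hS (τ := targ ζ) hab fun θ hθ n h1 h2 => ?_
    obtain ⟨y, hy⟩ := land hF hω hθ
    rw [← unit_eq hζ, ← land_eq hζ hy ?_]
    · exact hy
    · by_contra hn
      rw [not_frequently] at hn
      exact hc ⟨θ + n, h1, h2, by rw [ray_shift]; exact hn⟩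
  refine conv (tendsto_normH G⁻¹ (tendsto_jota hζ)) fun a b hab hba => ?_
  obtain ⟨θ₁, a1, a2, a3⟩ := key a b hab
  obtain ⟨θ₂, b1, b2, b3⟩ := key b (a + 1) hba
  refine ⟨θ₁, θ₂, a1, a2, b1, b2, ?_⟩
  obtain ⟨δ, hδ, hb⟩ := Metric.mem_nhdsWithin_iff.1 (a3.and b3)
  have hP : IsPreconnected ((fun w => G⁻¹ (jota w)) '' (ball ζ δ ∩ ball 0 1)) :=
    ((convex_ball ζ δ).inter (convex_ball 0 1)).isPreconnected.image _
      ((G⁻¹ : H).continuous.comp_continuousOn (continuousOn_jota.mono inter_subset_right))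
  have hm : ball ζ δ ∩ ball 0 1 ∈ 𝓝[ball (0 : ℂ) 1] ζ :=
    inter_mem (mem_nhdsWithin_of_mem_nhds (ball_mem_nhds ζ hδ)) self_mem_nhdsWithin
  rcases sec_or hP (by rintro _ ⟨w, hw, rfl⟩; exact (hb hw).1)
    (by rintro _ ⟨w, hw, rfl⟩; exact (hb hw).2) with k | k
  · exact Or.inl (mem_of_superset hm fun w hw => k ⟨w, hw, rfl⟩)
  · exact Or.inr (mem_of_superset hm fun w hw => k ⟨w, hw, rfl⟩)

end Main

end L5

theorem sL5_of : S_L5 := fun G u Θ v ω hF hω hS => by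
  have hc : ContinuousOn (fun w => iota (G⁻¹ (L5.jota w))) (ball 0 1) :=
    (L5.continuous_iota.comp (G⁻¹ : H).continuous).comp_continuousOn L5.continuousOn_jota
  refine ⟨extendFrom (ball 0 1) fun w => iota (G⁻¹ (L5.jota w)),
    continuousOn_extendFrom (by rw [closure_ball 0 one_ne_zero]) fun ζ hζ => ?_, fun z => ?_⟩
  · rcases (mem_closedBall_zero_iff.1 hζ).lt_or_eq with h | h
    · exact ⟨_, hc ζ (mem_ball_zero_iff.2 h)⟩
    · exact L5.lim_bd hF hω hS h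
  · rw [extendFrom_extends hc _ (mem_ball_zero_iff.2 (L5.norm_iota_lt z)), L5.jota_iota]

end

end Pool.Agent.Lib.MP_d32f96_gt
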