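import Pool.Agent.Lib.MP_d32f96_gt.Frame

/-! An attractor at infinity is conjugate to `z ↦ 2 z` outside the unit disc. -/

namespace Pool.Agent.Lib.MP_d32f96_gt

open Set Filter Topology Metric Complex Bornology
open Pool.Agent.Lib.MP_1e9af3_an Pool.Agent.Lib.MP_069d55_gt

noncomputable section

namespace M1

def At (R : ℝ) (σ : H) : Prop :=
  ∀ R' : ℝ, ∀ᶠ m : ℕ in atTop, ∀ x, R ≤ ‖x‖ → R' ≤ ‖(σ ^ m) x‖

lemma At.conj {R : ℝ} {σ h : H} (hA : At R σ) (hh : ∀ x, 1 ≤ ‖x‖ → R ≤ ‖h x‖) :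
    At 1 (h⁻¹ * σ * h) := by
  intro R'
  obtain ⟨R'', hR⟩ := proper h⁻¹ R'
  filter_upwards [hA R''] with m hm x hx
  have e : (h⁻¹ * σ * h) ^ m = h⁻¹ * σ ^ m * h := by
    simpa using conj_pow (a := h⁻¹) (b := σ) (i := m)
  rw [e, hmul, hmul]
  exact hR _ (hm _ (hh x hx))

lemma fill_subset (F : H) {O : Set ℂ} (hO : O ⊆ F '' ball 0 1) : fill O ⊆ F '' ball 0 1 := by
  intro x hx
  by_contra hn
  have h1 : F '' {z | 1 ≤ ‖z‖} ⊆ connectedComponentIn Oᶜ x := by
    refine ((preconn_out 1).image F F.continuous.continuousOn).subset_connectedComponentIn ?_ ?_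
    · rw [mem_image_h] at hn ⊢
      simpa using hn
    · rintro _ ⟨z, hz, rfl⟩ h
      have := apply_mem_image.1 (hO h)
      exact (mem_ball_zero_iff.1 this).not_ge hz
  exact not_bdd_out 1 (((isBounded_image_iff F).1 (IsBounded.subset hx h1)).subset
    fun z (hz : 1 < ‖z‖) => hz.le)

/-- a disc mapped over itself -/
lemma stepA (h1 : S_JS) {σ : H} (hA : Attr σ) : ∃ h : H, deg h = 1 ∧
    closedBall 0 1 ⊆ (h⁻¹ * σ * h : H) '' ball 0 1 ∧ At 1 (h⁻¹ * σ * h) := by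
  obtain ⟨R₀, hR₀⟩ := hA
  set R := max R₀ (‖σ 0‖ + 1) with hR
  have hσ : ‖σ 0‖ < R := (lt_add_one _).trans_le (le_max_right _ _)
  have hR0 : 0 < R := (norm_nonneg _).trans_lt hσ
  have hAt : At R σ := fun R' => (hR₀ R').mono fun m hm x hx => hm x ((le_max_left _ _).trans hx)
  obtain ⟨M, hM, hM1⟩ := ((hAt (R + 2)).and (eventually_ge_atTop 1)).exists
  have hM0 : (0 : ℝ) < M := by exact_mod_cast hM1
  set O : Set ℂ := ⋃ i ∈ Iio M, ((σ ^ i)⁻¹ : H) '' ball 0 (R + i / M) with hO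
  set K : Set ℂ := ⋃ i ∈ Iio M, ((σ ^ i)⁻¹ : H) '' closedBall 0 (R + i / M) with hK
  have mO : ∀ x, x ∈ O ↔ ∃ i < M, ‖(σ ^ i) x‖ < R + i / M := fun x => by
    simp [hO, mem_image_h, -mem_image]
  have mK : ∀ x, x ∈ K ↔ ∃ i < M, ‖(σ ^ i) x‖ ≤ R + i / M := fun x => by
    simp [hK, mem_image_h, -mem_image]
  have OK : O ⊆ K := fun x hx => by
    obtain ⟨i, hi, h⟩ := (mO x).1 hx
    exact (mK x).2 ⟨i, hi, h.le⟩
  have cK : IsCompact K := (finite_Iio M).isCompact_biUnion fun i _ =>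
    (isCompact_closedBall _ _).image (Homeomorph.continuous _)
  have oO : IsOpen O := isOpen_biUnion fun i _ => Homeomorph.isOpenMap _ _ isOpen_ball
  have pO : IsPreconnected O := by
    refine IsPreconnected.biUnion_of_chain ordConnected_Iio (fun i _ =>
      (convex_ball _ _).isPreconnected.image _ (Homeomorph.continuous _).continuousOn)
      fun i _ _ => ⟨(σ ^ i)⁻¹ 0, ?_, ?_⟩
    · exact apply_mem_image.2 (mem_ball_self (by positivity))
    · rw [mem_image_h, inv_inv, Nat.succ_eq_succ, Nat.succ_eq_add_one, pow_succ', hmul, happly_inv,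
        mem_ball_zero_iff]
      exact hσ.trans_le (le_add_of_nonneg_right (by positivity))
  have bO : ball 0 R ⊆ O := fun x hx => (mO x).2 ⟨0, hM1, by simpa using hx⟩
  have KO : K ⊆ σ '' O := fun x hx => by
    obtain ⟨i, hi, h⟩ := (mK x).1 hx
    have e : (σ ^ (i + 1)) (σ⁻¹ x) = (σ ^ i) x := by rw [pow_succ, hmul, happly_inv]
    rw [mem_image_h]
    rcases (Nat.succ_le_of_lt hi).lt_or_eq with h2 | h2
    · refine (mO _).2 ⟨i + 1, h2, ?_⟩
      rw [e]
      refine h.trans_lt ?_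
      push_cast
      gcongr
      exact lt_add_one _
    · refine bO (mem_ball_zero_iff.2 (lt_of_not_ge fun h3 => ?_))
      have h4 := hM _ h3
      have h5 : (i : ℝ) / M ≤ 1 := (div_le_one hM0).2 (by exact_mod_cast hi.le)
      rw [← h2, Nat.succ_eq_add_one, e] at h4
      linarith
  obtain ⟨h, hd, hKh, hf⟩ := h1 K (σ '' O) cK (σ.isOpenMap _ oO)
    (isBounded_image σ (cK.isBounded.subset OK)) (pO.image _ σ.continuous.continuousOn)
    ⟨σ 0, apply_mem_image.2 (bO (mem_ball_self hR0))⟩ KO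
  refine ⟨h, hd, fun z hz => ?_, hAt.conj fun x hx => ?_⟩
  · have := fill_subset (σ * h) (O := σ '' O)
      (by rw [image_hmul]; exact image_mono (OK.trans hKh)) (hf (apply_mem_image.2 hz))
    rw [mul_assoc, image_hmul, mem_image_h, inv_inv]
    exact this
  · by_contra h3
    have := apply_mem_image.1 (hKh (OK (bO (mem_ball_zero_iff.2 (not_le.1 h3)))))
    exact (mem_ball_zero_iff.1 this).not_ge hx

lemma out_of_fix {k : H} (hk : ∀ z, ‖z‖ ≤ 1 → k z = z) (x : ℂ) (hx : 1 ≤ ‖x‖) : 1 ≤ ‖k x‖ := by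
  by_contra h
  have := k.injective (hk _ (not_le.1 h).le)
  rw [this] at h
  exact h hx

lemma deg_of_fix {k : H} (hk : ∀ z, ‖z‖ ≤ 1 → k z = z) : deg k = 1 :=
  deg_of_eventually (p := 0) (by
    filter_upwards [ball_mem_nhds (0 : ℂ) one_pos] with z hz
    exact hk z (mem_ball_zero_iff.1 hz).le)

/-- the image disc is made round -/
lemma stepB (h2 : S_DT) {s : H} (hs : closedBall 0 1 ⊆ s '' ball 0 1) :
    ∃ k : H, (∀ z, ‖z‖ ≤ 1 → k z = z) ∧
      (k⁻¹ * s * k : H) '' closedBall 0 1 = closedBall 0 2 := by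
  obtain ⟨b, hb⟩ := bdd_on s 1
  obtain ⟨k, hk, hi⟩ := h2 s 1 2 (max b 3) one_pos one_lt_two
    (lt_of_lt_of_le (by norm_num) (le_max_right _ _)) (hs (mem_closedBall_self zero_le_one))
    fun z hz => ⟨lt_of_not_ge fun h => by
      have := apply_mem_image.1 (hs (mem_closedBall_zero_iff.2 h))
      exact (mem_ball_zero_iff.1 this).ne hz, (hb z hz.le).trans_le (le_max_left _ _)⟩
  refine ⟨k, fun z hz => hk z (Or.inl hz), ?_⟩
  have e : k '' closedBall 0 1 = closedBall 0 1 := by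
    rw [image_congr (g := id) fun z hz => hk z (Or.inl (mem_closedBall_zero_iff.1 hz)), image_id]
  rw [image_hmul, image_hmul, e]
  exact image_hinv hi

/-- the boundary values are made linear -/
lemma stepC (h3 : S_Circ) (h4 : S_Polar) {s : H} (hd : deg s = 1)
    (hs : s '' closedBall 0 1 = closedBall 0 2) :
    ∃ m : H, (∀ z, ‖z‖ ≤ 1 → m z = z) ∧ ∀ z, ‖z‖ = 1 → (m⁻¹ * s * m) z = 2 * z := by
  have e2 : dbl '' closedBall 0 1 = closedBall 0 2 := by
    ext z
    rw [mem_image_h, mem_closedBall_zero_iff, mem_closedBall_zero_iff]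
    have : z = 2 * dbl⁻¹ z := (happly_inv dbl z).symm
    conv_rhs => rw [this, norm_mul, Complex.norm_two]
    constructor <;> intro h <;> linarith
  obtain ⟨φ, ⟨φc, φm, φp⟩, hφ⟩ := h3 (dbl⁻¹ * s) (deg_mul_one (deg_inv deg_dbl) hd)
    (by rw [image_hmul, hs]; exact image_hinv e2)
  set c : ℝ → ℝ := fun r => max 0 (min 1 (r - 1)) with hc
  have c0 : ∀ r, 0 ≤ c r := fun r => le_max_left _ _
  have c1 : ∀ r, c r ≤ 1 := fun r => max_le zero_le_one (min_le_left _ _)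
  obtain ⟨F, -, hF⟩ := h4 (fun _ r t => t + c r * (φ t - t))
    (Continuous.continuousOn (by fun_prop)) fun _ r _ => ⟨fun t t' ht => by
      have h1 := φm ht
      have := c0 r
      have := c1 r
      show t + c r * (φ t - t) < t' + c r * (φ t' - t')
      rcases (c0 r).lt_or_eq with h | h
      · nlinarith [mul_pos h (sub_pos.2 h1), mul_nonneg (sub_nonneg.2 (c1 r)) (sub_pos.2 ht).le]
      · rw [← h]; linarith, fun t => by simp only [φp]; ring⟩
  have hm := (hF 0).2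
  have fix : ∀ z, ‖z‖ ≤ 1 → F 0 z = z := fun z hz => by
    by_cases h0 : z = 0
    · simpa [h0] using hm 0 0 le_rfl
    · have : c ‖z‖ = 0 := max_eq_left (min_le_of_right_le (by linarith))
      conv_lhs => rw [polar h0, hm _ _ (norm_nonneg z), this]
      simpa using (polar h0).symm
  refine ⟨F 0, fix, fun z hz => ?_⟩
  have h0 : z ≠ 0 := by rintro rfl; simp at hz
  have hz' : z = ee (targ z) := by simpa [hz] using polar h0
  rw [hmul, hmul, fix z hz.le]
  refine hinv_eq ?_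
  have h5 := hm 2 (targ z) zero_le_two
  have c2 : c 2 = 1 := by norm_num [hc]
  have h6 := congrArg dbl (hφ (targ z))
  rw [hmul, happly_inv, dbl_apply, ← hz'] at h6
  rw [h6]
  simpa [c2, ← hz'] using h5

lemma le_iff_of_fix {G : H} {r : ℝ} (h : ∀ z, ‖z‖ = r → G z = z) (z : ℂ) :
    ‖G z‖ ≤ r ↔ ‖z‖ ≤ r := by
  have e : G '' closedBall 0 r = (1 : H) '' closedBall 0 r :=
    image_closedBall_of_sphere (image_congr fun z hz => h z (mem_sphere_zero_iff_norm.1 hz))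
  rw [image_hone] at e
  rw [← mem_closedBall_zero_iff, ← mem_closedBall_zero_iff, ← apply_mem_image (F := G) (z := z), e]

lemma glue {G : H} {r : ℝ} (h : ∀ z, ‖z‖ = r → G z = z) :
    ∃ c : H, (∀ z, ‖z‖ ≤ r → c z = z) ∧ ∀ z, r ≤ ‖z‖ → c z = G z := by
  have h' : ∀ z, ‖z‖ = r → G⁻¹ z = z := fun z hz => hinv_eq (h z hz)
  have hc : ∀ G : H, (∀ z, ‖z‖ = r → G z = z) →
      Continuous fun z : ℂ => if ‖z‖ ≤ r then z else G z := fun G h =>
    Continuous.if_le continuous_id G.continuous continuous_norm continuous_const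
      fun z hz => (h z hz).symm
  have hi : ∀ G : H, (∀ z, ‖z‖ = r → G z = z) → Function.LeftInverse
      (fun z : ℂ => if ‖z‖ ≤ r then z else G⁻¹ z) fun z : ℂ => if ‖z‖ ≤ r then z else G z := by
    intro G h z
    by_cases hz : ‖z‖ ≤ r
    · simp [hz]
    · simp only [hz, if_false, le_iff_of_fix h, hinv_apply]
  refine ⟨⟨⟨fun z => if ‖z‖ ≤ r then z else G z, fun z => if ‖z‖ ≤ r then z else G⁻¹ z,
    hi G h, hi G⁻¹ h'⟩, hc G h, hc G⁻¹ h'⟩, fun z hz => if_pos hz, fun z hz => ?_⟩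
  show (if ‖z‖ ≤ r then z else G z) = G z
  split_ifs with h1
  · exact (h z (le_antisymm h1 hz)).symm
  · rfl

lemma dbl_pow (n : ℕ) (z : ℂ) : (dbl ^ n) z = 2 ^ n * z := by
  induction n with
  | zero => simp
  | succ n ih => rw [pow_succ', hmul, ih, dbl_apply]; ring

lemma dbl_pow_inv (n : ℕ) (z : ℂ) : (dbl ^ n)⁻¹ z = z / 2 ^ n :=
  hinv_eq (by rw [dbl_pow]; field_simp)

def seq (c : H) : ℕ → H
  | 0 => 1
  | n + 1 => seq c n * (dbl ^ n * c * (dbl ^ n)⁻¹)

/-- the fundamental domain argument -/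
lemma stepD {s : H} (hs : ∀ z, ‖z‖ = 1 → s z = 2 * z) (hA : At 1 s) :
    ∃ g : H, (∀ z, ‖z‖ ≤ 1 → g z = z) ∧ ∀ z, 1 ≤ ‖z‖ → (g⁻¹ * s * g) z = 2 * z := by
  have hG : ∀ z, (s * dbl⁻¹) z = s (z / 2) := fun z => by
    simpa using congrArg s (dbl_pow_inv 1 z)
  have hf : ∀ z, ‖z‖ = 2 → (s * dbl⁻¹) z = z := fun z hz => by
    rw [hG, hs _ (by simp [hz])]; ring
  obtain ⟨c, c1, c2⟩ := glue hf
  have p2 : ∀ n : ℕ, (0 : ℝ) < 2 ^ n := fun n => by positivity
  have so : ∀ w, 1 ≤ ‖w‖ → 1 ≤ ‖s w‖ := fun w hw => by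
    rcases hw.lt_or_eq with h | h
    · have := (le_iff_of_fix hf (2 * w)).not.2 (by simp; linarith)
      rw [hG, mul_div_cancel_left₀ _ two_ne_zero] at this
      linarith
    · rw [hs w h.symm]; simp; linarith
  have cn : ∀ (n : ℕ) (z : ℂ), ‖z‖ ≤ 2 ^ (n + 1) → (dbl ^ n * c * (dbl ^ n)⁻¹) z = z := by
    intro n z hz
    rw [hmul, hmul, c1, happly_inv]
    rw [dbl_pow_inv, norm_div, norm_pow, Complex.norm_two, div_le_iff₀ (p2 n)]
    linarith [pow_succ (2 : ℝ) n]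
  have f1 : ∀ (n : ℕ) (z : ℂ), 2 ^ n ≤ ‖z‖ → seq c n z = (s ^ n) (z / 2 ^ n) := by
    intro n
    induction n with
    | zero => intro z _; simp [seq]
    | succ n ih =>
      intro z hz
      have h1 : 2 ≤ ‖z / 2 ^ n‖ := by
        rw [norm_div, norm_pow, Complex.norm_two, le_div_iff₀ (p2 n)]
        linarith [pow_succ (2 : ℝ) n]
      have h2 := so (z / 2 ^ n / 2) (by rw [norm_div, Complex.norm_two]; linarith)
      rw [seq, hmul, hmul, hmul, dbl_pow_inv, c2 _ h1, hG, dbl_pow, ih, pow_succ s, hmul,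
        mul_div_cancel_left₀ _ (pow_ne_zero n two_ne_zero), div_div, pow_succ]
      rw [norm_mul, norm_pow, Complex.norm_two]
      exact le_mul_of_one_le_right (p2 n).le h2
  have f2 : ∀ (n : ℕ) (z : ℂ), ‖z‖ ≤ 2 ^ (n + 1) → ∀ m, n ≤ m → seq c m z = seq c n z := by
    intro n z hz m hm
    induction m, hm using Nat.le_induction with
    | base => rfl
    | succ m hm ih =>
      rw [seq, hmul, cn m z (hz.trans (pow_le_pow_right₀ one_le_two (by omega))), ih]
  obtain ⟨g, hg⟩ := exists_ec (h := seq c) fun R => by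
    filter_upwards [hA (R + 1), (tendsto_pow_atTop_atTop_of_one_lt one_lt_two).eventually_ge_atTop R]
      with n h1 h2 z hz
    have h3 : (2 : ℝ) ^ n ≤ 2 ^ (n + 1) := pow_le_pow_right₀ one_le_two (by omega)
    refine ⟨f2 n z (by linarith) _ n.le_succ, hinv_eq ?_⟩
    rw [f2 n _ ?_ _ n.le_succ, happly_inv]
    refine le_trans (le_of_not_ge fun h4 => ?_) h3
    have h5 := h1 ((seq c n)⁻¹ z / 2 ^ n) (by
      rwa [norm_div, norm_pow, Complex.norm_two, le_div_iff₀ (p2 n), one_mul])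
    rw [← f1 n _ h4, happly_inv] at h5
    linarith
  have f3 : ∀ (n : ℕ) (z : ℂ), ‖z‖ ≤ 2 ^ (n + 1) → g z = seq c n z := fun n z hz => by
    obtain ⟨m, h1, h2⟩ := ((hg ‖z‖).and (eventually_ge_atTop n)).exists
    rw [(h1 z le_rfl).1, f2 n z hz m h2]
  refine ⟨g, fun z hz => f3 0 z (hz.trans (by norm_num)), fun z hz => ?_⟩
  obtain ⟨n, h1, h2⟩ := exists_nat_pow_near hz one_lt_two
  rw [hmul, hmul]
  refine hinv_eq ?_
  have n2 : ‖2 * z‖ = 2 * ‖z‖ := by simp
  rw [f3 (n + 1) _ (by rw [n2, pow_succ]; linarith), f1 _ _ (by rw [n2, pow_succ]; linarith),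
    f3 n z h2.le, f1 n z h1, pow_succ' s, hmul]
  congr 2
  rw [pow_succ]; field_simp

end M1

open M1 in
theorem sM1_of (h1 : S_JS) (h2 : S_DT) (h3 : S_Circ) (h4 : S_Polar) : S_M1 := by
  intro σ hd hA
  obtain ⟨a, ad, as, aA⟩ := stepA h1 hA
  obtain ⟨k, k1, ks⟩ := stepB h2 as
  obtain ⟨m, m1, ms⟩ := stepC h3 h4 (by rw [deg_conj, deg_conj, hd]) ks
  obtain ⟨g, g1, gs⟩ := stepD ms ((aA.conj (out_of_fix k1)).conj (out_of_fix m1))
  refine ⟨a * k * m * g, deg_mul_one (deg_mul_one (deg_mul_one ad (deg_of_fix k1)) (deg_of_fix m1))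
    (deg_of_fix g1), fun z hz => ?_⟩
  rw [← gs z hz]
  refine congrArg (fun F : H => F z) ?_
  group

end

end Pool.Agent.Lib.MP_d32f96_gt
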