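import Pool.Agent.Lib.MP_d32f96_gt.Frame

/-! Discs under the centraliser of the doubling map. -/

namespace Pool.Agent.Lib.MP_d32f96_gt

open Set Filter Topology Metric Complex Bornology
open Pool.Agent.Lib.MP_069d55_gt

noncomputable section

namespace N1

lemma fill_sub {O : Set ℂ} {g : H} (h : O ⊆ g '' ball 0 1) : fill O ⊆ g '' ball 0 1 := fun x hx => by
  by_contra e
  have a : IsPreconnected (g '' {z | 1 ≤ ‖z‖}) :=
    (preconn_out 1).image g g.continuous.continuousOn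
  have b : ∀ y, y ∈ g '' {z | 1 ≤ ‖z‖} ↔ y ∉ g '' ball 0 1 := fun y => by
    simp only [mem_image_h, mem_ofPred_eq, mem_ball_zero_iff, not_lt]
  exact not_bdd_out 1 (((isBounded_image_iff g).1 (IsBounded.subset hx (a.subset_connectedComponentIn
    ((b x).2 e) fun y hy c => (b y).1 hy (h c)))).subset fun z hz => show 1 ≤ ‖z‖ from le_of_lt hz)

lemma cent_zpow {e : H} (he : e ∈ Cent) (n : ℤ) (z : ℂ) : e (2 ^ n * z) = 2 ^ n * e z := by
  induction n generalizing z with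
  | zero => simp
  | succ n ih => rw [zpow_add_one₀ two_ne_zero, mul_assoc, ih, he, mul_assoc]
  | pred n ih =>
    refine mul_left_cancel₀ (two_ne_zero (α := ℂ)) ?_
    rw [← he, ← mul_assoc, ← mul_assoc, zpow_sub_one₀ two_ne_zero, mul_comm 2,
      inv_mul_cancel_right₀ two_ne_zero, ih]

lemma norm_sc (n : ℤ) (z : ℂ) : ‖(2 : ℂ) ^ n * z‖ = 2 ^ n * ‖z‖ := by simp

lemma ex_n {z : ℂ} (hz : z ≠ 0) : ∃ n : ℤ, 2 ^ n ≤ ‖z‖ ∧ ‖z‖ < 2 ^ (n + 1) :=
  exists_mem_Ico_zpow (norm_pos_iff.2 hz) one_lt_two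

lemma sc_le {n : ℤ} {x c : ℝ} : 2 ^ (-n) * x ≤ c ↔ x ≤ 2 ^ n * c := by
  rw [zpow_neg, inv_mul_le_iff₀ (by positivity)]

lemma le_sc {n : ℤ} {x c : ℝ} : c ≤ 2 ^ (-n) * x ↔ 2 ^ n * c ≤ x := by
  rw [zpow_neg, le_inv_mul_iff₀ (by positivity)]

lemma sc_sc (n : ℤ) (z : ℂ) : (2 : ℂ) ^ n * (2 ^ (-n) * z) = z := by
  rw [zpow_neg, mul_inv_cancel_left₀ (zpow_ne_zero _ two_ne_zero)]

lemma cent_bd {e : H} (he : e ∈ Cent) : ∃ C > 0, ∀ z, ‖e z‖ ≤ C * ‖z‖ := by
  obtain ⟨C, hC⟩ := bdd_on e 2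
  have C0 : 0 < C := (norm_nonneg _).trans_lt (hC 0 (by simp))
  refine ⟨C, C0, fun z => ?_⟩
  by_cases hz : z = 0
  · simp [hz, cent_zero he]
  obtain ⟨n, h1, h2⟩ := ex_n hz
  rw [← sc_sc n z, cent_zpow he, sc_sc, norm_sc, mul_comm]
  refine mul_le_mul (hC _ ?_).le h1 (by positivity) C0.le
  rw [norm_sc, sc_le, ← zpow_add_one₀ two_ne_zero]
  exact h2.le

/-- supported in the annulus -/
def An (k : H) : Prop := ∀ z, ‖z‖ ≤ 1 ∨ 2 ≤ ‖z‖ → k z = z

def kn (k : H) (n : ℤ) (z : ℂ) : ℂ := 2 ^ n * k (2 ^ (-n) * z)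

def pf (k : H) (z : ℂ) : ℂ := kn k (Int.log 2 ‖z‖) z

variable {k : H} {n : ℤ} {z : ℂ}

lemma An.inv (h : An k) : An k⁻¹ := fun z hz => hinv_eq (h z hz)

lemma An.norm (h : An k) (h1 : 1 ≤ ‖z‖) (h2 : ‖z‖ ≤ 2) : 1 ≤ ‖k z‖ ∧ ‖k z‖ ≤ 2 :=
  ⟨not_lt.1 fun e => by rw [k.injective (h _ (.inl e.le))] at e; linarith,
    not_lt.1 fun e => by rw [k.injective (h _ (.inr e.le))] at e; linarith⟩

lemma An.kn_id (h : An k) (hz : ‖z‖ ≤ 2 ^ n ∨ 2 ^ (n + 1) ≤ ‖z‖) : kn k n z = z := by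
  rw [kn, h, sc_sc]
  rw [norm_sc, sc_le, le_sc, mul_one, ← zpow_add_one₀ two_ne_zero]
  exact hz

lemma An.pf_eq (h : An k) (h1 : 2 ^ n ≤ ‖z‖) (h2 : ‖z‖ ≤ 2 ^ (n + 1)) : pf k z = kn k n z := by
  have z0 : 0 < ‖z‖ := lt_of_lt_of_le (by positivity) h1
  have a := (Int.zpow_le_iff_le_log (b := 2) one_lt_two z0).1 (by exact_mod_cast h1)
  have b : (2 : ℝ) ^ Int.log 2 ‖z‖ ≤ ‖z‖ := by
    exact_mod_cast Int.zpow_log_le_self (b := 2) one_lt_two z0
  rcases a.eq_or_lt with e | e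
  · rw [pf, ← e]
  · have c : (2 : ℝ) ^ (n + 1) ≤ 2 ^ Int.log 2 ‖z‖ := zpow_le_zpow_right₀ one_le_two e
    rw [pf, h.kn_id (.inl (h2.trans c)), h.kn_id (.inr (c.trans b))]

lemma An.pf_zero (h : An k) : pf k 0 = 0 := h.kn_id (.inl (by rw [norm_zero]; positivity))

lemma An.kn_norm (h : An k) (h1 : 2 ^ n ≤ ‖z‖) (h2 : ‖z‖ ≤ 2 ^ (n + 1)) :
    2 ^ n ≤ ‖kn k n z‖ ∧ ‖kn k n z‖ ≤ 2 ^ (n + 1) := by
  obtain ⟨a, b⟩ := h.norm (z := 2 ^ (-n) * z) (by rwa [norm_sc, le_sc, mul_one])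
    (by rwa [norm_sc, sc_le, ← zpow_add_one₀ two_ne_zero])
  rw [kn, norm_sc, zpow_add_one₀ two_ne_zero]
  exact ⟨le_mul_of_one_le_right (by positivity) a, by gcongr⟩

lemma An.pf_inv (h : An k) (z : ℂ) : pf k⁻¹ (pf k z) = z := by
  by_cases hz : z = 0
  · rw [hz, h.pf_zero, h.inv.pf_zero]
  obtain ⟨n, h1, h2⟩ := ex_n hz
  obtain ⟨a, b⟩ := h.kn_norm h1 h2.le
  rw [h.pf_eq h1 h2.le, h.inv.pf_eq a b, kn, kn, ← mul_assoc (2 ^ (-n)), zpow_neg,
    inv_mul_cancel₀ (zpow_ne_zero _ two_ne_zero), one_mul, hinv_apply,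
    mul_inv_cancel_left₀ (zpow_ne_zero _ two_ne_zero)]

lemma An.pf_cont (h : An k) : Continuous (pf k) := by
  have c : ∀ n, Continuous (kn k n) := fun n => by unfold kn; fun_prop
  refine continuous_iff_continuousAt.2 fun z => ?_
  by_cases hz : z = 0
  · rw [hz, ContinuousAt, h.pf_zero]
    refine squeeze_zero_norm (a := fun w => 2 * ‖w‖) (fun w => ?_)
      ((by fun_prop : Continuous fun w : ℂ => 2 * ‖w‖).tendsto' 0 0 (by simp))
    by_cases hw : w = 0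
    · simp [hw, h.pf_zero]
    obtain ⟨n, h1, h2⟩ := ex_n hw
    rw [h.pf_eq h1 h2.le]
    refine (h.kn_norm h1 h2.le).2.trans ?_
    rw [zpow_add_one₀ two_ne_zero]
    linarith
  obtain ⟨n, h1, h2⟩ := ex_n hz
  refine (((c (n - 1)).add (c n)).sub continuous_id).continuousAt.congr ?_
  filter_upwards [continuous_norm.continuousAt.eventually_lt continuousAt_const h2,
    continuousAt_const.eventually_lt continuous_norm.continuousAt
      ((zpow_lt_zpow_right₀ one_lt_two (sub_one_lt n)).trans_le h1)] with w a b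
  rcases le_total ‖w‖ (2 ^ n) with e | e
  · simp [h.pf_eq b.le (by rwa [sub_add_cancel]), h.kn_id (n := n) (.inl e)]
  · simp [h.pf_eq e a.le, h.kn_id (n := n - 1) (z := w) (.inr (by rwa [sub_add_cancel]))]

lemma An.ext (h : An k) : ∃ P ∈ Cent, ∀ z, 1 ≤ ‖z‖ → ‖z‖ ≤ 2 → P z = k z := by
  refine ⟨⟨⟨pf k, pf k⁻¹, h.pf_inv, fun z => by simpa using h.inv.pf_inv z⟩, h.pf_cont, h.inv.pf_cont⟩,
    fun z => show pf k _ = 2 * pf k z from ?_, fun z h1 h2 => show pf k z = _ from ?_⟩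
  · by_cases hz : z = 0
    · simp [hz, h.pf_zero]
    obtain ⟨n, h1, h2⟩ := ex_n hz
    rw [h.pf_eq h1 h2.le, h.pf_eq (n := n + 1), kn, kn, neg_add, zpow_add_one₀ two_ne_zero,
      zpow_add₀ two_ne_zero, zpow_neg_one, mul_assoc _ 2⁻¹, inv_mul_cancel_left₀ two_ne_zero]
    · ring
    all_goals rw [norm_mul, Complex.norm_ofNat, zpow_add_one₀ two_ne_zero]; linarith
  · rw [h.pf_eq (n := 0) (by simpa) (by simpa), kn]; simp

lemma iso_mul {r : ℝ} (r0 : 0 < r) : ∃ m : H, IsoIn Cent m ∧ ∀ z, m z = r * z := by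
  have a : ∀ t : ℝ, ((Real.exp (t * Real.log r) : ℝ) : ℂ) ≠ 0 := fun t =>
    ofReal_ne_zero.2 (Real.exp_pos _).ne'
  refine ⟨mulH _ (a 1), ⟨fun t => mulH _ (a t), cont_iff.2 ?_, Homeomorph.ext fun z => ?_, rfl,
    fun t z => ?_⟩, fun z => ?_⟩
  · simp only [mulH_apply]; fun_prop
  · simp [mulH_apply]
  · simp only [mulH_apply]; ring
  · rw [mulH_apply, one_mul, Real.exp_log r0]

lemma img_mul {m : H} {r : ℝ} (r0 : 0 < r) (hm : ∀ z, m z = r * z) :
    m '' closedBall 0 1 = closedBall 0 r ∧ m '' ball 0 1 = ball 0 r := by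
  have a : ∀ z, ‖m⁻¹ z‖ = ‖z‖ / r := fun z => by
    rw [eq_div_iff r0.ne', mul_comm, ← abs_of_pos r0, ← Real.norm_eq_abs, ← norm_real, ← norm_mul,
      ← hm, happly_inv]
  constructor <;> ext z <;>
    simp only [mem_image_h, mem_closedBall_zero_iff, mem_ball_zero_iff, a, div_le_one r0,
      div_lt_one r0]

def Q (h : H) : Prop := ∃ K : H, IsoIn Cent K ∧ K '' closedBall 0 1 = h '' closedBall 0 1

lemma step (hD : S_DT) {h h' : H} (q : Q h) (h1 : h '' closedBall 0 1 ⊆ h' '' ball 0 1)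
    (h2 : h' '' closedBall 0 1 ⊆ (dbl * h : H) '' ball 0 1) : Q h' := by
  obtain ⟨K, k1, k2⟩ := q
  have k3 := image_ball_of_closedBall one_ne_zero one_ne_zero k2
  rw [← k2] at h1
  rw [image_hmul, ← k3, ← image_hmul, cent_iff.1 k1.mem] at h2
  obtain ⟨k, a1, a2⟩ := hD (K⁻¹ * h') 1 (3 / 2) 2 one_pos (by norm_num) (by norm_num) (by
      rw [image_hmul, mem_image_h, inv_inv]
      exact h1 (mem_image_of_mem _ (by simp))) fun z hz => by
    constructor
    · by_contra! e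
      have := h1 (mem_image_h.2 (mem_closedBall_zero_iff.2 e))
      exact (mem_ball_zero_iff.1 (apply_mem_image.1 this)).ne hz
    · obtain ⟨w, w1, w2⟩ := h2 (mem_image_of_mem _ (mem_closedBall_zero_iff.2 hz.le))
      rw [hmul, ← w2, hmul, hinv_apply, dbl_apply, norm_mul, Complex.norm_ofNat]
      linarith [mem_ball_zero_iff.1 w1]
  obtain ⟨P, p1, p2⟩ := An.ext a1
  obtain ⟨m, m1, m2⟩ := iso_mul (r := 3 / 2) (by norm_num)
  have b1 : P '' closedBall 0 1 = (1 : H) '' closedBall 0 1 := image_closedBall_of_sphere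
    (image_congr fun z hz => by
      have := mem_sphere_zero_iff_norm.1 hz
      rw [p2 z this.ge (by linarith), a1 z (.inl this.le)]; rfl)
  have b2 : P '' closedBall 0 (3 / 2) = k '' closedBall 0 (3 / 2) := image_closedBall_of_sphere
    (image_congr fun z hz => by
      have := mem_sphere_zero_iff_norm.1 hz
      exact p2 z (by linarith) (by linarith))
  have b3 : (P⁻¹ : H) '' closedBall 0 1 = closedBall 0 1 := by
    have := congrArg (image (P⁻¹ : H)) b1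
    rw [← image_hmul, ← image_hmul, inv_mul_cancel, mul_one] at this
    rw [← this]; simp
  refine ⟨K * (P * m * P⁻¹), k1.mul cent_mul (m1.conj cent_mul cent_inv p1), ?_⟩
  rw [image_hmul, image_hmul, image_hmul, b3, (img_mul (by norm_num) m2).1, b2, a2, ← image_hmul,
    mul_inv_cancel_left]

/-- the disc of `h` lies between two standard sets -/
def T (e h : H) (s u : ℝ) : Prop := closedBall 0 s ∪ e '' closedBall 0 u ⊆ h '' ball 0 1 ∧
  ∀ g : H, ball 0 (5 / 4 * s) ∪ e '' ball 0 (5 / 4 * u) ⊆ g '' ball 0 1 →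
    h '' closedBall 0 1 ⊆ g '' ball 0 1

lemma ex_T (hJ : S_JS) {e : H} (he : e ∈ Cent) {s u : ℝ} (s0 : 0 < s) (u0 : 0 < u) :
    ∃ h, T e h s u := by
  have z1 : (0 : ℂ) ∈ ball (0 : ℂ) (5 / 4 * s) := mem_ball_self (by positivity)
  obtain ⟨h, -, h1, h2⟩ := hJ (closedBall 0 s ∪ e '' closedBall 0 u)
    (ball 0 (5 / 4 * s) ∪ e '' ball 0 (5 / 4 * u))
    ((isCompact_closedBall _ _).union ((isCompact_closedBall _ _).image e.continuous))
    (isOpen_ball.union (e.isOpenMap _ isOpen_ball))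
    (isBounded_ball.union (isBounded_image e isBounded_ball))
    (IsPreconnected.union 0 z1 ⟨0, mem_ball_self (by positivity), cent_zero he⟩
      (convex_ball _ _).isPreconnected
      ((convex_ball _ _).isPreconnected.image e e.continuous.continuousOn)) ⟨0, .inl z1⟩
    (union_subset_union (closedBall_subset_ball (by linarith))
      (image_mono (closedBall_subset_ball (by linarith))))
  exact ⟨h, h1, fun g hg => h2.trans (fill_sub hg)⟩

lemma T.step (hD : S_DT) {e h h' : H} (he : e ∈ Cent) {s u : ℝ} (s0 : 0 < s) (u0 : 0 < u)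
    (t : T e h s u) (t' : T e h' (5 / 4 * s) (3 / 2 * u)) (q : Q h) : Q h' := by
  refine N1.step hD q (t.2 _ (Subset.trans (union_subset_union ball_subset_closedBall (image_mono
    (ball_subset_closedBall.trans (closedBall_subset_closedBall (by linarith))))) t'.1))
    (t'.2 _ fun z hz => ?_)
  rw [image_hmul]
  refine ⟨2⁻¹ * z, t.1 (hz.imp (fun a => ?_) fun ⟨w, a, b⟩ => ⟨2⁻¹ * w, ?_, ?_⟩),
    mul_inv_cancel_left₀ two_ne_zero z⟩
  · rw [mem_closedBall_zero_iff, norm_mul, norm_inv, Complex.norm_ofNat]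
    linarith [mem_ball_zero_iff.1 a]
  · rw [mem_closedBall_zero_iff, norm_mul, norm_inv, Complex.norm_ofNat]
    linarith [mem_ball_zero_iff.1 a]
  · rw [← b, ← mul_inv_cancel_left₀ two_ne_zero w, he, inv_mul_cancel_left₀ two_ne_zero,
      inv_mul_cancel_left₀ two_ne_zero]

end N1

open N1

theorem sN1_of (h1 : S_JS) (h2 : S_DT) : S_N1 := by
  intro e he
  obtain ⟨C, C0, hC⟩ := cent_bd he
  obtain ⟨D, D0, hD⟩ := cent_bd (cent_inv e he)
  have key : ∀ n : ℕ, ∃ h, T e h ((5 / 4) ^ n) ((3 / 2) ^ n * C⁻¹) ∧ Q h := fun n => by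
    induction n with
    | zero =>
      obtain ⟨m, m1, m2⟩ := iso_mul (r := 9 / 8) (by norm_num)
      obtain ⟨a, b⟩ := img_mul (by norm_num) m2
      refine ⟨m, ⟨b ▸ union_subset (closedBall_subset_ball (by norm_num)) ?_, fun g hg =>
        a ▸ (closedBall_subset_ball (by norm_num)).trans (subset_union_left.trans hg)⟩, m, m1, rfl⟩
      rintro _ ⟨w, hw, rfl⟩
      rw [mem_closedBall_zero_iff, pow_zero, one_mul, inv_eq_one_div, le_div_iff₀' C0] at hw
      exact mem_ball_zero_iff.2 (by linarith [hC w])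
    | succ n ih =>
      obtain ⟨h, t, q⟩ := ih
      rw [pow_succ', pow_succ', mul_assoc]
      exact (ex_T h1 he (by positivity) (by positivity)).imp fun h' t' =>
        ⟨t', t.step h2 he (by positivity) (by positivity) t' q⟩
  obtain ⟨n, hn⟩ := pow_unbounded_of_one_lt (D * C) (show (1 : ℝ) < 6 / 5 by norm_num)
  obtain ⟨h, t, q⟩ := key n
  obtain ⟨u, hu⟩ : ∃ u : ℝ, u = (3 / 2) ^ n * C⁻¹ := ⟨_, rfl⟩
  have u0 : 0 < u := by rw [hu]; positivity
  have hs : D * (5 / 4) ^ n < u := by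
    rw [hu, show (3 / 2 : ℝ) = 6 / 5 * (5 / 4) by norm_num, mul_pow, ← div_eq_mul_inv,
      lt_div_iff₀ C0, mul_right_comm]
    gcongr
  rw [← hu] at t
  obtain ⟨m, m1, m2⟩ := iso_mul (r := 7 / 4 * u) (by positivity)
  obtain ⟨a, b⟩ := img_mul (by positivity) m2
  obtain ⟨K, k1, k2⟩ := t.step h2 he (h' := e * m) (by positivity) u0 ⟨by
      rw [image_hmul, b]
      refine union_subset (fun z hz => mem_image_h.2 (mem_ball_zero_iff.2 ?_))
        (image_mono (closedBall_subset_ball (by linarith)))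
      nlinarith [hD z, mul_le_mul_of_nonneg_left (mem_closedBall_zero_iff.1 hz) D0.le],
    fun g hg => by
      rw [image_hmul, a]
      exact (image_mono (closedBall_subset_ball (by linarith))).trans
        (subset_union_right.trans hg)⟩ q
  refine ⟨e * m⁻¹ * e⁻¹ * K, ((m1.inv cent_inv).conj cent_mul cent_inv he).mul cent_mul k1, ?_⟩
  rw [image_hmul, k2, ← image_hmul]
  congr 2
  group

end

end Pool.Agent.Lib.MP_d32f96_gt
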