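import Pool.Agent.Lib.MP_d32f96_gt.N2a

/-! Doubly periodic homeomorphisms fixing the imaginary axis: a chain of arcs. -/

namespace Pool.Agent.Lib.MP_d32f96_gt

open Set Filter Topology Metric Complex Bornology
open Pool.Agent.Lib.MP_1e9af3_an Pool.Agent.Lib.MP_069d55_gt

noncomputable section

namespace N2

/-- an arc across the vertical strip at height `h` -/
def Cross (α : ℝ → ℂ) (h : ℝ) : Prop :=
  Arc α ∧ α 0 = h * I ∧ α 1 = 1 + h * I ∧ ∀ t ∈ Ioo (0 : ℝ) 1, 0 < (α t).re ∧ (α t).re < 1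

/-- the arc is the image of the unit segment under a map isotopic to the identity -/
def Q (α : ℝ → ℂ) (h : ℝ) : Prop :=
  ∃ K : H, IsoIn Tor K ∧ (∀ y : ℝ, K (y * I) = ((y + h : ℝ) : ℂ) * I) ∧
    ∀ t ∈ Icc (0 : ℝ) 1, K t = α t

lemma step (hCS : S_CS) {α β : ℝ → ℂ} {h s : ℝ} (hQ : Q α h) (hβ : Cross β (h + s)) (s0 : 0 < s)
    (s1 : s < 1) (hd : ∀ t ∈ Icc (0 : ℝ) 1, ∀ x ∈ Icc (0 : ℝ) 1, β t ≠ α x ∧ β t ≠ α x + I) :
    Q β (h + s) := by
  obtain ⟨K, hK, hy, hα⟩ := hQ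
  obtain ⟨⟨bc, bi⟩, b0, b1, bs⟩ := hβ
  have hKi : ∀ y : ℝ, K⁻¹ (y * I) = ((y + -h : ℝ) : ℂ) * I := fun y =>
    hinv_eq (by rw [hy]; congr 2; ring)
  have hT := tor_inv _ hK.mem
  set γ : ℝ → ℂ := fun t => K⁻¹ (β t) with hγ
  have gc : Continuous γ := by fun_prop
  have g0 : γ 0 = s * I := by
    simp only [hγ, b0, hKi]; congr 2; ring
  have g1 : γ 1 = 1 + s * I := by
    simp only [hγ, b1]
    rw [add_comm, (hT _).1, hKi, add_comm]; congr 3; ring
  have gs : ∀ t ∈ Ioo (0 : ℝ) 1, 0 < (γ t).re ∧ (γ t).re < 1 := fun t ht =>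
    strip hT hKi (bs t ht).1 (bs t ht).2
  have gr : ∀ t ∈ Icc (0 : ℝ) 1, (γ t).re ∈ Icc (0 : ℝ) 1 := fun t ht => by
    rcases ht.1.eq_or_lt with rfl | h0
    · simp [g0]
    rcases ht.2.eq_or_lt with rfl | h1
    · simp [g1]
    exact ⟨(gs t ⟨h0, h1⟩).1.le, (gs t ⟨h0, h1⟩).2.le⟩
  have gK : ∀ t, K (γ t) = β t := fun t => happly_inv _ _
  have n0 : ∀ t ∈ Icc (0 : ℝ) 1, (γ t).im ≠ 0 := fun t ht e => by
    refine (hd t ht _ (gr t ht)).1 ?_
    rw [← hα _ (gr t ht), ← gK]; congr 1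
    apply Complex.ext <;> simp [e]
  have n1 : ∀ t ∈ Icc (0 : ℝ) 1, (γ t).im ≠ 1 := fun t ht e => by
    refine (hd t ht _ (gr t ht)).2 ?_
    rw [← hα _ (gr t ht), ← gK, ← (hK.mem _).2]; congr 1
    apply Complex.ext <;> simp [e]
  have gi : ∀ t ∈ Icc (0 : ℝ) 1, 0 < (γ t).im ∧ (γ t).im < 1 := fun t ht => by
    have hc : ContinuousOn (fun t => (γ t).im) (Icc 0 1) := by fun_prop
    have z0 : (0 : ℝ) ∈ Icc (0 : ℝ) 1 := by simp
    have e0 : (γ 0).im = s := by simp [g0]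
    constructor <;> by_contra hn <;> rw [not_lt] at hn
    · obtain ⟨u, hu, e⟩ := isPreconnected_Icc.intermediate_value ht z0 hc
        (show (0 : ℝ) ∈ _ from ⟨hn, by rw [e0]; exact s0.le⟩)
      exact n0 u hu e
    · obtain ⟨u, hu, e⟩ := isPreconnected_Icc.intermediate_value z0 ht hc
        (show (1 : ℝ) ∈ _ from ⟨by rw [e0]; exact s1.le, hn⟩)
      exact n1 u hu e
  have hint : interior (Icc (0 : ℝ) 1 ×ℂ Icc (0 : ℝ) 1) = Sq := by
    rw [interior_reProdIm, interior_Icc]; rfl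
  have hfr : ∀ z : ℂ, z.re = 0 ∨ z.re = 1 → z.im = s →
      z ∈ frontier (Icc (0 : ℝ) 1 ×ℂ Icc (0 : ℝ) 1) := fun z h1 h2 => by
    rw [isCompact_Cl.isClosed.frontier_eq, hint]
    refine ⟨⟨?_, by rw [mem_preimage, h2]; exact ⟨s0.le, s1.le⟩⟩, fun hz => ?_⟩
    · rcases h1 with h1 | h1 <;> simp [h1]
    · rcases h1 with h1 | h1
      · exact (mem_Sq.1 hz).1.1.ne' h1
      · exact (mem_Sq.1 hz).1.2.ne h1
  have hcv : Convex ℝ (Icc (0 : ℝ) 1 ×ℂ Icc (0 : ℝ) 1) :=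
    ((convex_Icc (0 : ℝ) 1).linear_preimage reLm).inter
      ((convex_Icc (0 : ℝ) 1).linear_preimage imLm)
  have hs : ∀ t ∈ Ioo (0 : ℝ) 1, (t : ℂ) + s * I ∈ Sq := fun t ht => by
    simp [mem_Sq, ht.1, ht.2, s0, s1]
  obtain ⟨k, hk, hkγ⟩ := hCS _ γ (fun t => t + s * I) isCompact_Cl hcv
    ⟨gc, fun a ha b hb e => bi ha hb ((K⁻¹ : H).injective e)⟩
    ⟨by fun_prop, fun a _ b _ e => by simpa using e⟩ (by simp [g0]) (by simp [g1])
    (hfr _ (Or.inl (by simp [g0])) (by simp [g0])) (hfr _ (Or.inr (by simp [g1])) (by simp [g1]))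
    (fun t ht => by
      rw [hint]
      exact ⟨mem_Sq.2 ⟨gs t ht, gi t (Ioo_subset_Icc_self ht)⟩, hs t ht⟩)
  rw [hint] at hk
  have hk' : Fx k := hk
  refine ⟨K * per k hk' * tr (s * I), (hK.mul tor_mul (iso_per hk')).mul tor_mul (iso_tr _),
    fun y => ?_, fun t ht => ?_⟩
  · rw [hmul, hmul, tr_apply, per_of_re hk' (by simp), ← add_mul, ← ofReal_add, hy]
    congr 2; ring
  · rw [hmul, hmul, tr_apply, ← gK]
    congr 1
    rcases ht.1.eq_or_lt with rfl | h0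
    · rw [per_of_re hk' (by simp), g0]; simp
    rcases ht.2.eq_or_lt with rfl | h1
    · rw [ofReal_one, add_comm, (per_tor hk' _).1, per_of_re hk' (by simp), g1, add_comm]
    rw [per_of_mem hk' (hs t ⟨h0, h1⟩), hkγ t ht]

/-- an arc inside a thin band of the height function `im + d` -/
lemma band (hB : S_Box) {d : ℂ → ℝ} {D : ℝ} (dc : Continuous d) (dD : ∀ z, |d z| ≤ D)
    (d0 : ∀ z : ℂ, z.re = 0 ∨ z.re = 1 → d z = 0) (h : ℝ) :
    ∃ α, Cross α h ∧ ∀ t ∈ Icc (0 : ℝ) 1, |(α t).im + d (α t) - h| < 1 / 8 := by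
  have hD : 0 ≤ D := (abs_nonneg _).trans (dD 0)
  obtain ⟨α, a1, a2, a3, a4, a5⟩ := hB 0 1 (h - D - 1) (h + D + 1) h
    {z | z.im + d z ≤ h - 1 / 8} {z | h + 1 / 8 ≤ z.im + d z} one_pos (by linarith) (by linarith)
    (isClosed_le (by fun_prop) continuous_const) (isClosed_le continuous_const (by fun_prop))
    (Set.disjoint_left.2 fun z h1 h2 => by
      have h1' : z.im + d z ≤ h - 1 / 8 := h1
      have h2' : h + 1 / 8 ≤ z.im + d z := h2
      linarith)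
    (fun z _ _ _ _ hz => by
      show (_ → ¬ z.im + d z ≤ h - 1 / 8) ∧ (_ → ¬ h + 1 / 8 ≤ z.im + d z)
      have := abs_le.1 (dD z)
      rcases hz with hz | hz | hz | hz
      · rw [d0 z (Or.inl hz)]; constructor <;> intro _ _ <;> linarith
      · rw [d0 z (Or.inr hz)]; constructor <;> intro _ _ <;> linarith
      · constructor <;> intro _ _ <;> linarith [this.1, this.2]
      · constructor <;> intro _ _ <;> linarith [this.1, this.2])
  refine ⟨α, ⟨a1, by simpa using a2, by simpa using a3, fun t ht => ⟨(a4 t ht).1, (a4 t ht).2.1⟩⟩,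
    fun t ht => ?_⟩
  have h1 : ¬ (α t).im + d (α t) ≤ h - 1 / 8 := (a5 t ht).1
  have h2 : ¬ h + 1 / 8 ≤ (α t).im + d (α t) := (a5 t ht).2
  rw [abs_lt]; constructor <;> linarith [not_le.1 h1, not_le.1 h2]

end N2

open N2

theorem sN2_of (h1 : S_Box) (h2 : S_CS) : S_N2 := by
  intro τ hτ hy
  have hT := tor_inv _ hτ
  have hyi : ∀ y : ℝ, τ⁻¹ (y * I) = y * I := fun y => hinv_eq (hy y)
  obtain ⟨D, hD0, hD⟩ := tor_bdd hT
  set d : ℂ → ℝ := fun z => (τ⁻¹ z - z).im with hd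
  have dc : Continuous d := by fun_prop
  have dD : ∀ z, |d z| ≤ D := fun z => (abs_im_le_norm _).trans (hD z)
  have d0 : ∀ z : ℂ, z.re = 0 ∨ z.re = 1 → d z = 0 := fun z hz => by
    rcases hz with hz | hz
    · rw [show z = (z.im : ℂ) * I by apply Complex.ext <;> simp [hz]]
      simp only [hd, hyi, sub_self, zero_im]
    · rw [show z = (z.im : ℂ) * I + 1 by apply Complex.ext <;> simp [hz]]
      simp only [hd, (hT _).1, hyi, sub_self, zero_im]
  have dI : ∀ z, d (z + I) = d z := fun z => by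
    simp only [hd, (hT _).2]; congr 1; ring
  have key : ∀ {α β : ℝ → ℂ} {l l' h : ℝ}, Q α h → Cross β (h + 1 / 2) → |l - l'| * D ≤ 1 / 4 →
      (∀ t ∈ Icc (0 : ℝ) 1, |(α t).im + l * d (α t) - h| < 1 / 8) →
      (∀ t ∈ Icc (0 : ℝ) 1, |(β t).im + l' * d (β t) - (h + 1 / 2)| < 1 / 8) →
      Q β (h + 1 / 2) := by
    intro α β l l' h hQ hβ hl ha hb
    refine step h2 hQ hβ (by norm_num) (by norm_num) fun t ht x hx => ?_
    have a := abs_lt.1 (ha x hx)
    have b := abs_lt.1 (hb t ht)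
    have c : |(l - l') * d (β t)| ≤ 1 / 4 := by
      rw [abs_mul]; exact (mul_le_mul_of_nonneg_left (dD _) (abs_nonneg _)).trans hl
    rw [sub_mul, abs_le] at c
    constructor <;> intro e <;> rw [e] at b c
    · linarith [a.1, a.2, b.1, b.2, c.1, c.2]
    · rw [dI] at b c
      rw [add_im, I_im] at b
      linarith [a.1, a.2, b.1, b.2, c.1, c.2]
  obtain ⟨N, hN⟩ := exists_nat_gt (4 * D)
  have N0 : (0 : ℝ) < N := by linarith
  have ind : ∀ n : ℕ, ∃ α, Q α (n / 2) ∧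
      ∀ t ∈ Icc (0 : ℝ) 1, |(α t).im + (n / N : ℝ) * d (α t) - n / 2| < 1 / 8 := fun n => by
    induction n with
    | zero =>
      refine ⟨fun t => t, ⟨1, ⟨fun _ => 1, continuous_const, rfl, rfl, fun _ _ => ⟨rfl, rfl⟩⟩,
        fun y => by simp, fun t _ => rfl⟩, fun t _ => by simp⟩
    | succ n ih =>
      obtain ⟨α, hQ, ha⟩ := ih
      obtain ⟨β, hβ, hb⟩ := band h1 (d := fun z => (((n : ℝ) + 1) / N) * d z)
        (D := |((n : ℝ) + 1) / N| * D) (by fun_prop)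
        (fun z => by rw [abs_mul]; exact mul_le_mul_of_nonneg_left (dD _) (abs_nonneg _))
        (fun z hz => by rw [d0 z hz, mul_zero]) ((n : ℝ) / 2 + 1 / 2)
      have e : (((n + 1 : ℕ) : ℝ)) / 2 = (n : ℝ) / 2 + 1 / 2 := by push_cast; ring
      refine ⟨β, ?_, ?_⟩
      · rw [e]
        refine key hQ hβ ?_ ha hb
        rw [show (n : ℝ) / N - (n + 1) / N = -(1 / N) by ring, abs_neg, abs_of_pos (by positivity),
          div_mul_eq_mul_div, div_le_iff₀ N0]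
        linarith
      · rw [e]; push_cast; exact hb
  obtain ⟨α, hQ, ha⟩ := ind N
  set h : ℝ := (N : ℝ) / 2 + 1 / 2 with hh
  obtain ⟨K, hK, hKy, hKt⟩ := key (β := fun t : ℝ => τ (t + h * I)) (l' := 1) hQ
    ⟨⟨by fun_prop, fun a _ b _ e => by simpa using τ.injective e⟩,
      by show τ (((0 : ℝ) : ℂ) + h * I) = h * I; rw [ofReal_zero, zero_add, hy],
      by show τ (((1 : ℝ) : ℂ) + h * I) = 1 + h * I
         rw [ofReal_one, add_comm, (hτ _).1, hy],
      fun t ht => strip hτ (c := 0) (by simpa using hy) (by simpa using ht.1) (by simpa using ht.2)⟩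
    (by rw [div_self N0.ne']; simp) ha (fun t _ => by simp [hd, hh])
  have hKT := tor_inv _ hK.mem
  have hρT : K⁻¹ * τ * tr (h * I) ∈ Tor := tor_mul _ (tor_mul _ hKT _ hτ) _ (iso_tr _).mem
  have hρ : Gr (K⁻¹ * τ * tr (h * I)) := by
    refine ⟨hρT, fun y => ?_, fun x => ?_⟩
    · rw [hmul, hmul, tr_apply, ← add_mul, ← ofReal_add, hy]
      exact hinv_eq (hKy y)
    · have e : (K⁻¹ * τ * tr (h * I)) ((Int.fract x : ℝ) : ℂ) = (Int.fract x : ℝ) := by
        rw [hmul, hmul, tr_apply]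
        exact hinv_eq (hKt _ ⟨Int.fract_nonneg _, (Int.fract_lt_one _).le⟩)
      have e2 := tor_disp hρT x
      rw [show fr x = ((Int.fract x : ℝ) : ℂ) by apply Complex.ext <;> simp [fr], e] at e2
      linear_combination e2
  have := (hK.mul tor_mul hρ.iso).mul tor_mul ((iso_tr (h * I)).inv tor_inv)
  simpa [← mul_assoc] using this

end

end Pool.Agent.Lib.MP_d32f96_gt
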