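import Pool.Agent.Lib.MP_d32f96_gt.Frame

/-! The centraliser of the doubling map: reduction to the twists. -/

namespace Pool.Agent.Lib.MP_d32f96_gt

open Set Filter Topology Metric Complex Bornology
open Pool.Agent.Lib.MP_1e9af3_an Pool.Agent.Lib.MP_069d55_gt

noncomputable section

namespace N3

def cc : ℝ := Real.log 2 / (2 * Real.pi)

lemma cc_pos : 0 < cc := div_pos (Real.log_pos one_lt_two) (by positivity)

def kap (z : ℂ) : ℂ := z.im - (cc * z.re : ℝ) * I

def kin (w : ℂ) : ℂ := (-w.im / cc : ℝ) + w.re * I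

lemma kap_kin (w : ℂ) : kap (kin w) = w := by
  have := cc_pos.ne'
  apply Complex.ext <;> simp [kap, kin]
  field_simp

lemma kin_kap (z : ℂ) : kin (kap z) = z := by
  have := cc_pos.ne'
  apply Complex.ext <;> simp [kap, kin]
  field_simp

@[fun_prop] lemma continuous_kap : Continuous kap := by unfold kap; fun_prop

@[fun_prop] lemma continuous_kin : Continuous kin := by unfold kin; fun_prop

lemma kin_add_int (w : ℂ) (n : ℤ) : kin (w + n) = kin w + n * I := by
  apply Complex.ext <;> simp [kin]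

def Lam (z : ℂ) : ℂ := ee (kap z)

@[fun_prop] lemma continuous_Lam : Continuous Lam := by unfold Lam; fun_prop

lemma Lam_ne (z : ℂ) : Lam z ≠ 0 := ee_ne _

lemma Lam_kin (w : ℂ) : Lam (kin w) = ee w := by rw [Lam, kap_kin]

lemma Lam_surj {w : ℂ} (hw : w ≠ 0) : Lam (kin (log w / tpi)) = w := by rw [Lam_kin, ee_log hw]

lemma Lam_eq {a b : ℂ} (h : Lam a = Lam b) : ∃ n : ℤ, a = b + n * I := by
  obtain ⟨n, hn⟩ := ee_eq_iff.1 h
  exact ⟨n, by rw [← kin_kap a, hn, kin_add_int, kin_kap]⟩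

lemma Lam_add_mul (z : ℂ) (y : ℝ) : Lam (z + y * I) = Lam z * ee y := by
  rw [Lam, Lam, ← ee_add]; congr 1
  apply Complex.ext <;> simp [kap]

lemma Lam_add_int (z : ℂ) (n : ℤ) : Lam (z + n * I) = Lam z := by
  have := Lam_add_mul z n
  rwa [ofReal_intCast, ee_int, mul_one] at this

lemma Lam_add_I (z : ℂ) : Lam (z + I) = Lam z := by simpa using Lam_add_int z 1

lemma norm_Lam (z : ℂ) : ‖Lam z‖ = 2 ^ z.re := by
  rw [Lam, norm_ee, Real.rpow_def_of_pos two_pos]; congr 1
  have := Real.pi_ne_zero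
  have h : (kap z).im = -(cc * z.re) := by simp [kap]
  rw [h, cc]
  field_simp

lemma Lam_add_one (z : ℂ) : Lam (z + 1) = 2 * Lam z := by
  have h1 : kap (z + 1) = kap z + (Real.log 2 : ℝ) / tpi := by
    have h2 : (Real.pi : ℂ) ≠ 0 := ofReal_ne_zero.2 Real.pi_ne_zero
    have h3 : ((Real.log 2 : ℝ) : ℂ) / tpi = -(cc * I) := by
      rw [div_eq_iff tpi_ne, cc, tpi]
      push_cast; field_simp; rw [I_sq]; ring
    rw [h3]
    apply Complex.ext <;> simp [kap]
    ring
  rw [Lam, h1, ee_add, ← exp_eq_ee, ← ofReal_exp, Real.exp_log two_pos, mul_comm]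
  rfl

lemma Lam_im (y : ℝ) : Lam (y * I) = ee y := by
  rw [Lam]; congr 1
  apply Complex.ext <;> simp [kap]

lemma lift_eq {u v : ℂ → ℂ} (hu : Continuous u) (hv : Continuous v)
    (h : ∀ z, Lam (u z) = Lam (v z)) : ∃ n : ℤ, ∀ z, u z = v z + n * I := by
  obtain ⟨n, hn⟩ := Lam_eq (h 0)
  refine ⟨n, fun z => ?_⟩
  have := int_const (S := univ) isPreconnected_univ (g := fun z => (u z - v z) * (-I))
    (by fun_prop) (fun x _ => by
      obtain ⟨m, hm⟩ := Lam_eq (h x)
      exact ⟨m, by rw [hm]; linear_combination (-m : ℂ) * I_mul_I⟩) (mem_univ z) (mem_univ 0)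
  simp only [hn] at this
  have h1 := mul_right_cancel₀ (neg_ne_zero.2 I_ne_zero) this
  linear_combination h1

lemma lift_uniq {u v : ℂ → ℂ} (hu : Continuous u) (hv : Continuous v)
    (h : ∀ z, Lam (u z) = Lam (v z)) (h0 : u 0 = v 0) (z : ℂ) : u z = v z := by
  obtain ⟨n, hn⟩ := lift_eq hu hv h
  have := hn 0
  rw [hn z]
  linear_combination h0 - this

lemma exists_lift1 {e : H} (h0 : e 0 = 0) (h1 : ∀ t : ℝ, e (ee t) = ee t) :
    ∃ u : ℂ → ℂ, Continuous u ∧ (∀ z, Lam (u z) = e (Lam z)) ∧ ∀ y : ℝ, u (y * I) = y * I := by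
  obtain ⟨l, hl, he⟩ := exists_lift (U := (univ : Set ℂ)) convex_univ isOpen_univ univ_nonempty
    (g := fun z => e (Lam z)) (by fun_prop)
    (fun z _ h => Lam_ne z (e.injective (h.trans h0.symm)))
  have hl' : Continuous l := continuousOn_univ.1 hl
  have h2 : ∀ y : ℝ, ∃ n : ℤ, l (y * I) - y = n := fun y => by
    obtain ⟨n, hn⟩ := ee_eq_iff.1 ((he (y * I) trivial).trans (by rw [Lam_im, h1]))
    exact ⟨n, by rw [hn]; ring⟩
  obtain ⟨n, hn⟩ := h2 0
  refine ⟨fun z => kin (l z - n), by fun_prop, fun z => ?_, fun y => ?_⟩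
  · rw [Lam_kin, ee_sub, ee_int, div_one, he z trivial]
  · have := int_const (S := univ) isPreconnected_univ (g := fun y : ℝ => l (y * I) - y)
      (by fun_prop) (fun x _ => h2 x) (mem_univ y) (mem_univ 0)
    simp only [hn] at this
    have h3 : l (y * I) - n = y := by linear_combination this
    simp only [h3]
    apply Complex.ext <;> simp [kin]

lemma exists_liftH {e : H} (h0 : e 0 = 0) (h1 : ∀ t : ℝ, e (ee t) = ee t) :
    ∃ E : H, (∀ z, Lam (E z) = e (Lam z)) ∧ ∀ y : ℝ, E (y * I) = y * I := by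
  obtain ⟨u, hu, hu1, hu2⟩ := exists_lift1 h0 h1
  obtain ⟨v, hv, hv1, hv2⟩ := exists_lift1 (e := e⁻¹) (hinv_eq h0) fun t => hinv_eq (h1 t)
  have u0 : u 0 = 0 := by simpa using hu2 0
  have v0 : v 0 = 0 := by simpa using hv2 0
  exact ⟨⟨⟨u, v, fun z => lift_uniq (hv.comp hu) continuous_id
    (fun z => by simp only [Function.comp, hv1, hu1, hinv_apply, id]) (by simp [u0, v0]) z,
    fun z => lift_uniq (hu.comp hv) continuous_id
    (fun z => by simp only [Function.comp, hv1, hu1, happly_inv, id]) (by simp [u0, v0]) z⟩,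
    hu, hv⟩, hu1, hu2⟩

/-- vertical shear -/
def sh (c : ℝ) : H where
  toFun z := z + (c * z.re : ℝ) * I
  invFun z := z - (c * z.re : ℝ) * I
  left_inv z := by apply Complex.ext <;> simp
  right_inv z := by apply Complex.ext <;> simp
  continuous_toFun := by fun_prop
  continuous_invFun := by fun_prop

lemma sh_apply (c : ℝ) (z : ℂ) : sh c z = z + (c * z.re : ℝ) * I := rfl

lemma sh_inv_apply (c : ℝ) (z : ℂ) : (sh c)⁻¹ z = z - (c * z.re : ℝ) * I := rfl

lemma Lam_sh (c : ℝ) (z : ℂ) : Lam (sh c z) = tw c (Lam z) := by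
  rw [sh_apply, Lam_add_mul, tw, norm_Lam, Real.logb_rpow two_pos (by norm_num)]

lemma twist_cent (j : ℤ) : twist j ∈ Cent := fun z => by
  by_cases hz : z = 0
  · simp [hz, twist_apply, tw]
  · rw [twist_apply, twist_apply, tw, tw, norm_mul, Real.logb_mul (by simp) (by simpa using hz),
      mul_assoc, ← ee_add_int ((j * Real.logb 2 ‖z‖ : ℝ) : ℂ) j]
    congr 3
    rw [show ‖(2 : ℂ)‖ = 2 by simp, Real.logb_self_eq_one one_lt_two]
    push_cast; ring

lemma tor_int {a : H} (ha : a ∈ Tor) (z : ℂ) (m n : ℤ) :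
    a (z + m + n * I) = a z + m + n * I := by
  have h1 : ∀ z : ℂ, a (z + m) = a z + m := fun z => by
    have := (show Function.Periodic (fun z => a z - z) 1 from
      fun z => by simp only [(ha z).1]; ring).int_mul m z
    simp only [mul_one] at this
    linear_combination this
  have := (show Function.Periodic (fun z => a z - z) I from
    fun z => by simp only [(ha z).2]; ring).int_mul n (z + m)
  simp only [h1] at this
  linear_combination this

open Classical in
/-- the map of the punctured plane induced by a periodic homeomorphism -/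
def D (a : H) (w : ℂ) : ℂ := if w = 0 then 0 else Lam (a (kin (log w / tpi)))

lemma D_zero (a : H) : D a 0 = 0 := if_pos rfl

lemma D_Lam {a : H} (ha : a ∈ Tor) (z : ℂ) : D a (Lam z) = Lam (a z) := by
  obtain ⟨n, hn⟩ := Lam_eq (Lam_surj (Lam_ne z))
  have := tor_int ha z 0 n
  simp only [Int.cast_zero, add_zero] at this
  rw [D, if_neg (Lam_ne z), hn, this, Lam_add_int]

lemma ind {P : ℂ → Prop} (h0 : P 0) (h : ∀ z, P (Lam z)) (w : ℂ) : P w := by
  by_cases hw : w = 0
  · exact hw ▸ h0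
  · exact Lam_surj hw ▸ h _

lemma cont_D {A : ℝ → H} (hA : Continuous A) (hT : ∀ t, A t ∈ Tor) :
    Continuous fun q : ℝ × ℂ => D (A q.1) q.2 := by
  refine continuous_iff_continuousAt.2 fun q => ?_
  obtain ⟨t, w⟩ := q
  by_cases hw : w = 0
  · subst hw
    obtain ⟨M, hM⟩ := ((isCompact_closedBall t 1).prod
      (isCompact_closedBall (0 : ℂ) 2)).exists_bound_of_continuousOn
      (f := fun q : ℝ × ℂ => A q.1 q.2 - q.2) (by fun_prop)
    have h1 : ∀ s ∈ closedBall t 1, ∀ z, ‖A s z - z‖ ≤ M := fun s hs z => by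
      set y := z - ⌊z.re⌋ - ⌊z.im⌋ * I with hy
      have h2 : z = y + ⌊z.re⌋ + ⌊z.im⌋ * I := by rw [hy]; ring
      have h3 : A s z - z = A s y - y := by
        conv_lhs => rw [h2, tor_int (hT s)]
        ring
      rw [h3]
      refine hM (s, y) ⟨hs, mem_closedBall_zero_iff.2 ((norm_le_abs_re_add_abs_im y).trans ?_)⟩
      have e1 : y.re = Int.fract z.re := by simp [hy]
      have e2 : y.im = Int.fract z.im := by simp [hy]
      rw [e1, e2, abs_of_nonneg (Int.fract_nonneg _), abs_of_nonneg (Int.fract_nonneg _)]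
      linarith [Int.fract_lt_one z.re, Int.fract_lt_one z.im]
    have h2 : ∀ s ∈ closedBall t 1, ∀ w, ‖D (A s) w‖ ≤ 2 ^ M * ‖w‖ := fun s hs =>
      ind (by simp [D_zero]) fun z => by
        rw [D_Lam (hT s), norm_Lam, norm_Lam, ← Real.rpow_add two_pos]
        refine Real.rpow_le_rpow_of_exponent_le one_le_two ?_
        have := (re_le_norm _).trans (h1 s hs z)
        rw [sub_re] at this
        linarith
    rw [ContinuousAt, D_zero]
    refine squeeze_zero_norm' (a := fun q : ℝ × ℂ => 2 ^ M * ‖q.2‖) ?_ ?_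
    · filter_upwards [continuousAt_fst.preimage_mem_nhds (closedBall_mem_nhds t one_pos)]
        with q hq using h2 _ hq _
    · have : Continuous fun q : ℝ × ℂ => (2 : ℝ) ^ M * ‖q.2‖ := by fun_prop
      simpa using this.tendsto (t, 0)
  · have ho : IsOpenMap ee := isOpenMap_exp.comp (Homeomorph.mulLeft₀ tpi tpi_ne).isOpenMap
    have ho' : IsOpenMap (Prod.map (id : ℝ → ℝ) ee) := IsOpenMap.id.prodMap ho
    have hc : Continuous (Prod.map (id : ℝ → ℝ) ee) := continuous_id.prodMap continuous_ee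
    have e : (t, w) = Prod.map (id : ℝ → ℝ) ee (t, log w / tpi) := by simp [ee_log hw]
    rw [e, ContinuousAt, ← ho'.map_nhds_eq hc.continuousAt]
    have h1 : Continuous fun q : ℝ × ℂ => Lam (A q.1 (kin q.2)) := by fun_prop
    have h2 : (fun q : ℝ × ℂ => D (A q.1) q.2) ∘ Prod.map (id : ℝ → ℝ) ee =
        fun q : ℝ × ℂ => Lam (A q.1 (kin q.2)) := by
      funext q
      simp only [Function.comp, Prod.map, id]
      rw [← Lam_kin, D_Lam (hT _)]
    exact (h2 ▸ h1).continuousAt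

/-- the induced homeomorphism -/
def DH (a : H) (ha : a ∈ Tor) : H where
  toFun := D a
  invFun := D a⁻¹
  left_inv := ind (by simp [D_zero]) fun z => by
    rw [D_Lam ha, D_Lam (tor_inv a ha), hinv_apply]
  right_inv := ind (by simp [D_zero]) fun z => by
    rw [D_Lam (tor_inv a ha), D_Lam ha, happly_inv]
  continuous_toFun := (cont_D (A := fun _ => a) continuous_const fun _ => ha).comp
    ((continuous_const (y := (0 : ℝ))).prodMk continuous_id)
  continuous_invFun := (cont_D (A := fun _ => a⁻¹) continuous_const fun _ => tor_inv a ha).comp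
    ((continuous_const (y := (0 : ℝ))).prodMk continuous_id)

lemma DH_apply (a : H) (ha : a ∈ Tor) (w : ℂ) : DH a ha w = D a w := rfl

lemma descend {τ : H} (h : IsoIn Tor τ) :
    ∃ E : H, IsoIn Cent E ∧ E 0 = 0 ∧ ∀ z, E (Lam z) = Lam (τ z) := by
  obtain ⟨A, hA, h0, h1, hT⟩ := h
  refine ⟨DH (A 1) (hT 1), ⟨fun t => DH (A t) (hT t), cont_iff.2 (cont_D hA hT), ?_, rfl,
    fun t => ?_⟩, D_zero _, fun z => by rw [DH_apply, D_Lam (hT 1), h1]⟩
  · refine Homeomorph.ext (ind (D_zero _) fun z => ?_)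
    rw [DH_apply, D_Lam (hT 0), h0, hone, hone]
  · refine ind (by simp [DH_apply, D_zero]) fun z => ?_
    simp only [DH_apply]
    rw [← Lam_add_one, D_Lam (hT t), D_Lam (hT t), (hT t z).1, Lam_add_one]

lemma conn_mul {a b c : H} (ha : IsoIn Cent a) (hc : IsoIn Cent c) (hb : b ∈ Cent)
    (hd : deg b = 1) : Conn (dbl, b) (dbl, a * b * c) := by
  obtain ⟨A, hA, a0, a1, aT⟩ := ha
  obtain ⟨C, hC, c0, c1, cT⟩ := hc
  have := conn_path (A := fun _ => dbl) (B := fun t => A t * b * C t) continuous_const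
    (by fun_prop) fun t _ => ⟨deg_dbl, deg_mul_one (deg_mul_one
      (by rw [deg_path hA t 0, a0, deg_one]) hd) (by rw [deg_path hC t 0, c0, deg_one]),
      cent_iff.1 (cent_mul _ (cent_mul _ (aT t) _ hb) _ (cT t))⟩
  simpa [a0, a1, c0, c1] using this

lemma cone (h4 : S_Polar) {φ : ℝ → ℝ} (hφ : CL φ) :
    ∃ M : H, IsoIn Cent M ∧ ∀ t : ℝ, M (ee t) = ee (φ t) := by
  have hc := hφ.1
  obtain ⟨F, hF, hF'⟩ := h4 (fun s _ t => t + max 0 (min 1 s) * (φ t - t)) (by fun_prop)
    fun s r _ => ⟨fun x y hxy => by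
      have h1 := hφ.2.1 hxy
      have h2 : 0 ≤ max 0 (min 1 s) := le_max_left _ _
      have h3 : max 0 (min 1 s) ≤ 1 := max_le zero_le_one (min_le_left _ _)
      simp only
      rcases h2.eq_or_lt with h | h
      · rw [← h]; linarith
      · nlinarith [mul_pos h (sub_pos.2 h1), mul_nonneg (sub_nonneg.2 h3) (sub_pos.2 hxy).le],
      fun t => by rw [hφ.2.2]; ring⟩
  have hp : ∀ z : ℂ, z = (‖z‖ : ℝ) * ee (targ z) := fun z => by
    by_cases hz : z = 0
    · simp [hz]
    · exact polar hz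
  refine ⟨F 1, ⟨F, hF, Homeomorph.ext fun z => ?_, rfl, fun s z => ?_⟩, fun t => ?_⟩
  · rw [hone]
    conv_lhs => rw [hp z, (hF' 0).2 _ _ (norm_nonneg z)]
    simpa using (hp z).symm
  · have h1 : 2 * z = ((2 * ‖z‖ : ℝ) : ℂ) * ee (targ z) := by
      conv_lhs => rw [hp z]
      push_cast; ring
    rw [h1, (hF' s).2 _ _ (by positivity)]
    conv_rhs => rw [hp z, (hF' s).2 _ _ (norm_nonneg z)]
    push_cast; ring
  · simpa using (hF' 1).2 1 t zero_le_one

end N3

open N3

theorem sN_of (h1 : S_N1) (h2 : S_N2) (h3 : S_Circ) (h4 : S_Polar) : S_N := by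
  intro e he heC
  obtain ⟨K, hK, hKe⟩ := h1 e heC
  obtain ⟨φ, hφ, hφe⟩ := h3 (K⁻¹ * e) (deg_mul_one (deg_inv hK.deg) he)
    (by rw [image_hmul, image_hinv hKe])
  obtain ⟨M, hM, hMe⟩ := cone h4 hφ
  set e2 : H := M⁻¹ * (K⁻¹ * e) with he2
  have h2C : e2 ∈ Cent :=
    cent_mul _ (cent_inv _ hM.mem) _ (cent_mul _ (cent_inv _ hK.mem) _ heC)
  obtain ⟨E, hE, hEy⟩ := exists_liftH (cent_zero h2C)
    (fun t => by rw [he2, hmul, hφe, ← hMe, hinv_apply])
  have hI : ∀ z, E (z + I) = E z + I := lift_uniq (by fun_prop) (by fun_prop)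
    (fun z => by rw [hE, Lam_add_I, Lam_add_I, hE])
    (by have a0 := hEy 0; have a1 := hEy 1; simp at a0 a1; simp [a0, a1])
  obtain ⟨j, hj⟩ := lift_eq (u := fun z => E (z + 1)) (v := fun z => E z + 1) (by fun_prop)
    (by fun_prop) (fun z => by rw [hE, Lam_add_one, Lam_add_one, h2C, hE])
  obtain ⟨E1, hE1, hE0, hE1'⟩ := descend (h2 ((sh j)⁻¹ * E)
    (fun z => ⟨by
      simp only [hmul, sh_inv_apply, hj]
      apply Complex.ext <;> simp
      ring, by
      simp only [hmul, sh_inv_apply, hI]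
      apply Complex.ext <;> simp
      ring⟩)
    (fun y => by rw [hmul, hEy, sh_inv_apply]; simp))
  have key : e2 = twist j * E1 := by
    refine Homeomorph.ext (ind ?_ fun z => ?_)
    · rw [cent_zero h2C, hmul (twist j), hE0, cent_zero (twist_cent j)]
    · rw [hmul (twist j), hE1', twist_apply, ← Lam_sh, hmul (sh j)⁻¹, happly_inv, hE]
  have key2 : e = K * M * twist j * E1 := by
    rw [mul_assoc, ← key, he2]; group
  refine ⟨j, Conn.symm ?_⟩
  rw [key2]
  exact conn_mul (hK.mul cent_mul hM) hE1 (twist_cent j) (deg_twist j)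

end

end Pool.Agent.Lib.MP_d32f96_gt
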