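import Pool.Agent.Lib.MP_d32f96_gt.Frame

/-! Logarithms on compact sets with connected complement, logarithms off connected unbounded
closed sets, and the Jordan curve theorem. -/

namespace Pool.Agent.Lib.MP_d32f96_gt

open Set Filter Topology Metric Complex Bornology
open Pool.Agent.Lib.MP_1e9af3_an Pool.Agent.Lib.MP_069d55_gt

noncomputable section

namespace T2

lemma tietze {s : Set ℂ} (hs : IsClosed s) {f : ℂ → ℂ} (hf : ContinuousOn f s) :
    ∃ G : ℂ → ℂ, Continuous G ∧ ∀ z ∈ s, G z = f z := by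
  obtain ⟨G, hG⟩ := ContinuousMap.exists_restrict_eq hs
    (⟨s.domRestrict f, hf.domRestrict⟩ : C(s, ℂ))
  exact ⟨G, G.continuous, fun z hz => congrArg (fun F : C(s, ℂ) => F ⟨z, hz⟩) hG⟩

/-- continuity descends along a continuous map on a compact set -/
lemma continuousOn_image {X Y : Type*} [TopologicalSpace X] [TopologicalSpace Y] {S : Set X}
    (hS : IsCompact S) {f : X → ℂ} (hf : ContinuousOn f S) {L : ℂ → Y} {l : X → Y}
    [T2Space X] (hl : ContinuousOn l S) (h : ∀ x ∈ S, L (f x) = l x) :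
    ContinuousOn L (f '' S) := by
  rw [continuousOn_iff_isClosed]
  intro C hC
  refine ⟨f '' (S ∩ l ⁻¹' C), ?_, ?_⟩
  · have h1 : IsClosed (S ∩ l ⁻¹' C) := hl.preimage_isClosed_of_isClosed hS.isClosed hC
    exact ((hS.of_isClosed_subset h1 inter_subset_left).image_of_continuousOn
      (hf.mono inter_subset_left)).isClosed
  · ext y
    constructor
    · rintro ⟨hy, x, hx, rfl⟩
      exact ⟨⟨x, ⟨hx, by rwa [mem_preimage, ← h x hx]⟩, rfl⟩, x, hx, rfl⟩
    · rintro ⟨⟨x, ⟨hx, hx'⟩, rfl⟩, -⟩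
      exact ⟨by rwa [mem_preimage, h x hx], x, hx, rfl⟩

lemma exists_ee {w : ℂ} (hw : ‖w‖ = 1) (s : ℝ) : ∃ t ∈ Ico s (s + 1), ee (t : ℝ) = w := by
  have hw0 : w ≠ 0 := by rintro rfl; simp at hw
  have h1 : ee ((arg w / (2 * Real.pi) : ℝ) : ℂ) = w := by
    have := norm_mul_exp_arg_mul_I w
    rw [hw, ofReal_one, one_mul] at this
    rw [← this, ee, tpi, this]
    conv_rhs => rw [← this]
    congr 1
    have : (Real.pi : ℂ) ≠ 0 := ofReal_ne_zero.2 Real.pi_ne_zero
    push_cast; field_simp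
  set u := arg w / (2 * Real.pi)
  refine ⟨s + Int.fract (u - s), ⟨by linarith [Int.fract_nonneg (u - s)],
    by linarith [Int.fract_lt_one (u - s)]⟩, ?_⟩
  rw [← h1, ← ee_add_int _ ⌊u - s⌋]
  congr 1
  have := Int.fract_add_floor (u - s)
  have h2 : s + Int.fract (u - s) + (⌊u - s⌋ : ℝ) = u := by linarith
  exact_mod_cast h2

lemma ee_inj {s t : ℝ} (h : ee s = ee t) (hst : |s - t| < 1) : s = t := by
  obtain ⟨n, hn⟩ := ee_eq_iff.1 h
  have h1 : s = t + n := by exact_mod_cast hn
  have h2 : |(n : ℝ)| < 1 := by rwa [h1, add_sub_cancel_left] at hst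
  have h3 : n = 0 := Int.abs_lt_one_iff.1 (by exact_mod_cast h2)
  simpa [h3] using h1

/-- a map on a circle of winding number zero extends to the plane without zeros -/
lemma exists_ext {Q : ℂ → ℂ} {a : ℂ} {r : ℝ} (hr : 0 < r)
    (hw : HasWind (fun θ : ℝ => Q (a + r * ee θ)) 0) :
    ∃ L : ℂ → ℂ, Continuous L ∧ ∀ z, ‖z - a‖ = r → ee (L z) = Q z := by
  obtain ⟨l, hl, he, hp⟩ := hw
  simp only [Int.cast_zero, add_zero] at hp
  have hr' : (r : ℂ) ≠ 0 := ofReal_ne_zero.2 hr.ne'
  set c : ℝ → ℂ := fun θ => a + r * ee θ with hc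
  have hcc : Continuous c := by rw [hc]; fun_prop
  have key : ∀ s t, c s = c t → l s = l t := by
    intro s t h
    have h1 : ee s = ee t := mul_left_cancel₀ hr' (add_left_cancel h)
    obtain ⟨n, hn⟩ := ee_eq_iff.1 h1
    have h2 : s = t + n := by exact_mod_cast hn
    rw [h2, per_int hp]
  have h1 : ContinuousOn (fun z => l (Function.invFun c z)) (c '' Icc 0 1) :=
    continuousOn_image isCompact_Icc hcc.continuousOn hl.continuousOn fun x _ =>
      key _ _ (Function.invFun_eq ⟨x, rfl⟩)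
  obtain ⟨L, hL, hL'⟩ := tietze (isCompact_Icc.image hcc).isClosed h1
  refine ⟨L, hL, fun z hz => ?_⟩
  obtain ⟨t, ht, ht'⟩ := exists_ee (w := (z - a) / r)
    (by rw [norm_div, hz, norm_real, Real.norm_of_nonneg hr.le, div_self hr.ne']) 0
  have h2 : c t = z := by rw [hc]; simp only [ht']; field_simp; ring
  have h3 : z ∈ c '' Icc 0 1 := ⟨t, ⟨ht.1, by simpa using ht.2.le⟩, h2⟩
  rw [hL' z h3, he]
  exact congrArg Q (Function.invFun_eq (f := c) ⟨t, h2⟩)

lemma hasWind_zpow {c : ℂ} (hc : c ≠ 0) (n : ℤ) :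
    HasWind (fun θ : ℝ => (c * ee θ) ^ n) n := by
  refine ⟨fun θ => n * (log c / tpi + θ), by fun_prop, fun θ => ?_, fun θ => ?_⟩
  · rw [ee_zsmul, ee_add, ee_log hc]
  · push_cast; ring

/-- removing finitely many zeros -/
lemma hasLog_of_finite {K U : Set ℂ} (hUc : Convex ℝ U) (hUo : IsOpen U) (hUn : U.Nonempty)
    (hKU : K ⊆ U) (hK : IsClosed K) (hlog : ∀ a, a ∉ K → HasLog (fun z => z - a) K)
    (Z : Finset ℂ) : (∀ a ∈ Z, a ∈ U ∧ a ∉ K) → ∀ P : ℂ → ℂ, Continuous P →
      (∀ z ∈ U, P z = 0 → z ∈ Z) → HasLog P K := by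
  classical
  induction Z using Finset.induction_on with
  | empty =>
    intro _ P hP h0
    obtain ⟨l, hl, he⟩ := exists_lift hUc hUo hUn hP.continuousOn
      (fun z hz h => by simpa using h0 z hz h)
    exact ⟨l, hl.mono hKU, fun z hz => he z (hKU hz)⟩
  | insert a Z ha ih =>
    intro hZ P hP h0
    obtain ⟨haU, haK⟩ := hZ a (Finset.mem_insert_self _ _)
    have ho : IsOpen (U ∩ Kᶜ ∩ (Z : Set ℂ)ᶜ) :=
      (hUo.inter hK.isOpen_compl).inter Z.finite_toSet.isClosed.isOpen_compl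
    obtain ⟨r, hr, hb⟩ := nhds_basis_closedBall.mem_iff.1 (ho.mem_nhds ⟨⟨haU, haK⟩, ha⟩)
    have hr' : (r : ℂ) ≠ 0 := ofReal_ne_zero.2 hr.ne'
    have hn : ∀ θ : ℝ, ‖a + r * ee θ - a‖ = r := fun θ => by
      rw [add_sub_cancel_left, norm_mul, norm_ee_real, norm_real, Real.norm_of_nonneg hr.le,
        mul_one]
    have hsub : ∀ z, r ≤ ‖z - a‖ → z - a ≠ 0 := fun z hz h => by
      rw [h, norm_zero] at hz; linarith
    have hL : Loop fun θ : ℝ => P (a + r * ee θ) := by
      refine ⟨by fun_prop, fun θ h => ?_, fun θ => by push_cast; rw [ee_add_one]⟩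
      have h1 := hb (show a + r * ee θ ∈ closedBall a r by
        rw [mem_closedBall, dist_eq_norm, hn])
      rcases Finset.mem_insert.1 (h0 _ h1.1.1 h) with h2 | h2
      · exact hsub _ (hn θ).ge (sub_eq_zero.2 h2)
      · exact h1.2 h2
    obtain ⟨n, hw⟩ := hL.exists_wind
    have hw0 : HasWind (fun θ : ℝ => (fun z => P z / (z - a) ^ n) (a + r * ee θ)) 0 := by
      have := hw.mul (hasWind_zpow hr' n).inv
      rw [add_neg_cancel] at this
      exact this.congr fun θ => by simp only [add_sub_cancel_left, div_eq_mul_inv]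
    obtain ⟨L, hLc, hLe⟩ := exists_ext (Q := fun z => P z / (z - a) ^ n) (a := a) hr hw0
    set P' : ℂ → ℂ := fun z => if ‖z - a‖ ≤ r then ee (L z) else P z / (z - a) ^ n with hP'
    have hP'c : Continuous P' := by
      refine continuous_if_le (by fun_prop) continuous_const (by fun_prop) ?_ hLe
      refine hP.continuousOn.div (ContinuousOn.zpow₀ (by fun_prop) n
        fun z hz => Or.inl (hsub z hz)) fun z hz => zpow_ne_zero _ (hsub z hz)
    obtain ⟨l, hl, he⟩ := ih (fun b hb => hZ b (Finset.mem_insert_of_mem hb)) P' hP'c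
      (fun z hz h => by
        by_cases h1 : ‖z - a‖ ≤ r
        · simp only [hP', if_pos h1] at h
          exact absurd h (ee_ne _)
        · simp only [hP', if_neg h1] at h
          have h2 := hsub z (not_le.1 h1).le
          rcases Finset.mem_insert.1 (h0 z hz
            ((div_eq_zero_iff.1 h).resolve_right (zpow_ne_zero _ h2))) with h3 | h3
          · exact absurd (sub_eq_zero.2 h3) h2
          · exact h3)
    obtain ⟨m, hm, hme⟩ := hlog a haK
    refine ⟨fun z => l z + n * m z, hl.add (continuousOn_const.mul hm), fun z hz => ?_⟩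
    have h1 : ¬ ‖z - a‖ ≤ r := fun h =>
      (hb (show z ∈ closedBall a r by rwa [mem_closedBall, dist_eq_norm])).1.2 hz
    have h2 := zpow_ne_zero n (hsub z (not_le.1 h1).le)
    rw [ee_add, ee_zsmul, he z hz, hme z hz]
    simp only [hP', if_neg h1]
    exact div_mul_cancel₀ _ h2

/-- approximation on a compact set by a map with isolated zeros -/
lemma exists_approx {K : Set ℂ} (hK : IsCompact K) {G : ℂ → ℂ} (hG : Continuous G) {ε : ℝ}
    (hε : 0 < ε) : ∃ P : ℂ → ℂ, Continuous P ∧ (∀ z ∈ K, ‖P z - G z‖ < ε) ∧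
      ∀ B, IsCompact B → (B ∩ P ⁻¹' {0}).Finite := by
  have hu : UniformContinuousOn G (cthickening 1 K) :=
    hK.cthickening.uniformContinuousOn_of_continuous hG.continuousOn
  obtain ⟨δ, hδ, hδ'⟩ := Metric.uniformContinuousOn_iff.1 hu (ε / 2) (half_pos hε)
  obtain ⟨Q, hQ, hQ'⟩ := hG.exists_contDiff_dist_le_of_forall_mem_ball_dist_le
    (lt_min one_pos hδ)
  have hd : Differentiable ℝ Q := hQ.differentiable (by simp)
  have hS := MeasureTheory.addHaar_image_eq_zero_of_det_fderivWithin_eq_zero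
    (MeasureTheory.volume : MeasureTheory.Measure ℂ) (f := Q) (f' := fderiv ℝ Q)
    (s := {x | (fderiv ℝ Q x).det = 0}) (fun x _ => (hd x).hasFDerivAt.hasFDerivWithinAt)
    (fun x hx => hx)
  obtain ⟨c, hc, hc'⟩ : ∃ c ∈ ball (0 : ℂ) (ε / 2), c ∉ Q '' {x | (fderiv ℝ Q x).det = 0} := by
    by_contra hn
    push Not at hn
    exact (measure_ball_pos MeasureTheory.volume (0 : ℂ) (half_pos hε)).ne'
      (MeasureTheory.measure_mono_null hn hS)
  have hc1 : Continuous fun z => Q z - c := hQ.continuous.sub continuous_const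
  refine ⟨fun z => Q z - c, hc1, fun z hz => ?_, fun B hB => ?_⟩
  · have h1 : dist (Q z) (G z) ≤ ε / 2 := hQ' z _ fun y hy => by
      rw [mem_ball, lt_min_iff] at hy
      exact (hδ' _ (mem_cthickening_of_dist_le _ z _ _ hz hy.1.le) _
        (self_subset_cthickening _ hz) hy.2).le
    rw [dist_eq_norm] at h1
    rw [mem_ball_zero_iff] at hc
    calc ‖Q z - c - G z‖ = ‖(Q z - G z) - c‖ := by ring_nf
      _ ≤ ‖Q z - G z‖ + ‖c‖ := norm_sub_le _ _
      _ < ε := by linarith
  · refine (hB.inter_right (isClosed_singleton.preimage hc1)).finite ?_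
    rw [isDiscrete_iff_nhdsNE]
    intro x hx
    have hx0 : Q x = c := sub_eq_zero.1 hx.2
    have hdet : (fderiv ℝ Q x).det ≠ 0 := fun h => hc' ⟨x, h, hx0⟩
    have h1 := (hd x).hasFDerivAt.eventually_ne (c := c)
      ⟨_, ((fderiv ℝ Q x).toContinuousLinearEquivOfDetNeZero hdet).antilipschitz⟩
    rw [inf_principal_eq_bot]
    filter_upwards [h1] with y hy hy'
    exact hy (sub_eq_zero.1 hy'.2)

lemma not_bdd_compl {K : Set ℂ} (hK : IsBounded K) : ¬ IsBounded Kᶜ := fun h => by
  obtain ⟨R, hR⟩ := hK.exists_norm_le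
  exact not_bdd_out R (h.subset fun z hz hz' => (hR z hz').not_gt hz)

/-- the unbounded component of the complement of a bounded set -/
lemma exists_far {K : Set ℂ} (hK : IsBounded K) : ∃ (b : ℂ) (R : ℝ),
    {z : ℂ | R < ‖z‖} ⊆ connectedComponentIn Kᶜ b ∧
    ∀ x, ¬ IsBounded (connectedComponentIn Kᶜ x) ↔ x ∈ connectedComponentIn Kᶜ b := by
  obtain ⟨R, hR⟩ := hK.exists_norm_le
  obtain ⟨b, hb⟩ : {z : ℂ | R < ‖z‖}.Nonempty :=
    nonempty_iff_ne_empty.2 fun h => not_bdd_out R (h ▸ isBounded_empty)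
  have h1 : {z : ℂ | R < ‖z‖} ⊆ connectedComponentIn Kᶜ b :=
    (preconn_out' R).subset_connectedComponentIn hb fun z hz hz' => (hR z hz').not_gt hz
  refine ⟨b, R, h1, fun x => ⟨fun h => ?_, fun h h' => ?_⟩⟩
  · obtain ⟨y, hy, hy'⟩ : ∃ y ∈ connectedComponentIn Kᶜ x, R < ‖y‖ := by
      by_contra hn
      push Not at hn
      exact h (isBounded_iff_forall_norm_le.2 ⟨R, hn⟩)
    have hx : x ∈ Kᶜ := by
      by_contra hx
      rw [connectedComponentIn_eq_empty hx] at hy
      exact hy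
    rw [connectedComponentIn_eq (h1 hy'), ← connectedComponentIn_eq hy]
    exact mem_connectedComponentIn hx
  · rw [← connectedComponentIn_eq h] at h'
    exact not_bdd_out R (h'.subset h1)

end T2

open T2

theorem sHD_of (h : S_logOut) : S_HD := by
  intro K g hK hc hg h0
  obtain ⟨G, hG, hGe⟩ := tietze hK.isClosed hg
  rcases K.eq_empty_or_nonempty with rfl | hne
  · exact ⟨fun _ => 0, continuousOn_const, fun z hz => hz.elim⟩
  obtain ⟨x, hx, hmin⟩ := hK.exists_isMinOn hne hg.norm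
  obtain ⟨P, hP, hPG, hfin⟩ := exists_approx hK hG (norm_pos_iff.2 (h0 x hx))
  obtain ⟨R, hR⟩ := hK.isBounded.subset_ball 0
  have hclose : ∀ z ∈ K, ‖P z - g z‖ < ‖g z‖ := fun z hz => by
    rw [← hGe z hz]
    exact (hPG z hz).trans_le ((hmin hz).trans_eq (by rw [hGe z hz]))
  have hfin' : (ball (0 : ℂ) R ∩ P ⁻¹' {0}).Finite :=
    (hfin _ (isCompact_closedBall 0 R)).subset (inter_subset_inter_left _ ball_subset_closedBall)
  obtain ⟨l, hl, he⟩ := hasLog_of_finite (convex_ball 0 R) isOpen_ball (hne.mono hR) hR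
    hK.isClosed (fun a ha => (h K a hK).2 (by
      rw [Out, hc.connectedComponentIn ha]
      exact not_bdd_compl hK.isBounded)) hfin'.toFinset
    (fun a ha => by
      rw [Finite.mem_toFinset] at ha
      refine ⟨ha.1, fun haK => ?_⟩
      have := hclose a haK
      rw [show P a = 0 from ha.2, zero_sub, norm_neg] at this
      exact lt_irrefl _ this) P hP
    (fun z hz hz' => hfin'.mem_toFinset.2 ⟨hz, hz'⟩)
  have hs : ∀ z ∈ K, P z / g z ∈ slitPlane := fun z hz => mem_slit_of_close (hclose z hz)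
  refine ⟨fun z => l z - log (P z / g z) / tpi,
    hl.sub (((hP.continuousOn.div hg h0).clog hs).div_const _), fun z hz => ?_⟩
  have h1 := slitPlane_ne_zero (hs z hz)
  have h2 := h0 z hz
  have h3 : P z ≠ 0 := fun h => h1 (by rw [h, zero_div])
  rw [ee_sub, he z hz, ee_log h1]
  field_simp

namespace T2

/-- logarithms on all compact subsets give a logarithm on an open set -/
lemma hasLog_open {O : Set ℂ} (hO : IsOpen O) {g : ℂ → ℂ} (h0 : ∀ z ∈ O, g z ≠ 0)
    (hlog : ∀ K, IsCompact K → K ⊆ O → HasLog g K) : HasLog g O := by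
  have hn : ∀ K, IsCompact K → K ⊆ O → ∀ p ∈ K, ∃ l : ℂ → ℂ, ContinuousOn l K ∧
      (∀ z ∈ K, ee (l z) = g z) ∧ l p = log (g p) / tpi := by
    intro K hK hKO p hp
    obtain ⟨l, hl, he⟩ := hlog K hK hKO
    refine ⟨fun z => l z - l p + log (g p) / tpi, (hl.sub continuousOn_const).add
      continuousOn_const, fun z hz => ?_, by simp⟩
    rw [ee_add, ee_sub, he z hz, he p hp, ee_log (h0 p (hKO hp))]
    exact div_mul_cancel₀ _ (h0 p (hKO hp))
  let p : ℂ → ℂ := fun z => Classical.epsilon fun y => y ∈ connectedComponentIn O z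
  have hp : ∀ z ∈ O, p z ∈ connectedComponentIn O z := fun z hz =>
    Classical.epsilon_spec (p := fun y => y ∈ connectedComponentIn O z)
      ⟨z, mem_connectedComponentIn hz⟩
  have hp' : ∀ z y, y ∈ connectedComponentIn O z → p y = p z := fun z y hy => by
    simp only [p, ← connectedComponentIn_eq hy]
  have hK : ∀ z ∈ O, ∃ K, IsCompact K ∧ IsPreconnected K ∧ K ⊆ O ∧ p z ∈ K ∧ z ∈ K := by
    intro z hz
    have h1 : IsPathConnected (connectedComponentIn O z) :=
      hO.connectedComponentIn.isConnected_iff_isPathConnected.1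
        (isConnected_connectedComponentIn_iff.2 hz)
    obtain ⟨γ, hγ⟩ := h1.joinedIn _ (hp z hz) _ (mem_connectedComponentIn hz)
    refine ⟨range γ, isCompact_range γ.continuous, isPreconnected_range γ.continuous, ?_,
      γ.source_mem_range, γ.target_mem_range⟩
    rintro _ ⟨t, rfl⟩
    exact connectedComponentIn_subset _ _ (hγ t)
  choose! K hK1 hK2 hK3 hK4 hK5 using hK
  have hl := fun z hz => hn (K z) (hK1 z hz) (hK3 z hz) (p z) (hK4 z hz)
  choose! l hl1 hl2 hl3 using hl
  have key : ∀ (C : Set ℂ) (m m' : ℂ → ℂ), IsPreconnected C → ContinuousOn m C →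
      ContinuousOn m' C → (∀ z ∈ C, ee (m z) = g z) → (∀ z ∈ C, ee (m' z) = g z) →
      ∀ x ∈ C, ∀ y ∈ C, m x = m' x → m y = m' y := by
    intro C m m' hC hm hm' he he' x hx y hy hxy
    have := int_const hC (hm.sub hm') (fun z hz => by
      obtain ⟨n, hn⟩ := ee_eq_iff.1 ((he z hz).trans (he' z hz).symm)
      exact ⟨n, by simp [hn]⟩) hx hy
    simp only [Pi.sub_apply, hxy, sub_self] at this
    exact sub_eq_zero.1 this.symm
  refine ⟨fun z => l z z, fun z hz => ContinuousAt.continuousWithinAt ?_,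
    fun z hz => hl2 z hz z (hK5 z hz)⟩
  obtain ⟨r, hr, hb⟩ := nhds_basis_closedBall.mem_iff.1 (hO.mem_nhds hz)
  have hcb : IsPreconnected (closedBall z r) := (convex_closedBall z r).isPreconnected
  have hzb : z ∈ closedBall z r := mem_closedBall_self hr.le
  obtain ⟨m, hm1, hm2, hm3⟩ := hn (K z ∪ closedBall z r)
    ((hK1 z hz).union (isCompact_closedBall z r)) (union_subset (hK3 z hz) hb) (p z)
    (Or.inl (hK4 z hz))
  have hm : ContinuousAt m z :=
    (hm1.mono subset_union_right).continuousAt (closedBall_mem_nhds z hr)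
  refine hm.congr ?_
  filter_upwards [closedBall_mem_nhds z hr] with y hy
  have hyO := hb hy
  have hpy : p y = p z := hp' z y (hcb.subset_connectedComponentIn hzb hb hy)
  obtain ⟨k, hk1, hk2, hk3⟩ := hn (K z ∪ closedBall z r ∪ K y)
    (((hK1 z hz).union (isCompact_closedBall z r)).union (hK1 y hyO))
    (union_subset (union_subset (hK3 z hz) hb) (hK3 y hyO)) (p z) (Or.inl (Or.inl (hK4 z hz)))
  have e1 : m y = k y := key (K z ∪ closedBall z r) m k
    ((hK2 z hz).union z (hK5 z hz) hzb hcb) hm1 (hk1.mono subset_union_left) hm2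
    (fun w hw => hk2 w (Or.inl hw)) (p z) (Or.inl (hK4 z hz)) y (Or.inr hy) (hm3.trans hk3.symm)
  have e2 : l y y = k y := key (K y) (l y) k (hK2 y hyO) (hl1 y hyO)
    (hk1.mono subset_union_right) (hl2 y hyO) (fun w hw => hk2 w (Or.inr hw)) (p y) (hK4 y hyO)
    y (hK5 y hyO) (by rw [hl3 y hyO, hpy, hk3])
  exact e1.trans e2.symm

end T2

theorem sLogC_of (h : S_HD) : S_LogC := by
  intro Y g hY hg h0
  refine hasLog_open hY.1.isOpen_compl h0 fun K hK hKY => ?_
  obtain ⟨b, R, hR, hb⟩ := exists_far hK.isBounded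
  have h1 : (connectedComponentIn Kᶜ b)ᶜ ⊆ Yᶜ := fun y hy hy' => hy ((hb y).1 fun h' =>
    hY.2.2 (h'.subset (hY.2.1.subset_connectedComponentIn hy' (subset_compl_comm.1 hKY))))
  have h2 : IsCompact (connectedComponentIn Kᶜ b)ᶜ := by
    refine Metric.isCompact_of_isClosed_isBounded
      hK.isClosed.isOpen_compl.connectedComponentIn.isClosed_compl
      (isBounded_iff_forall_norm_le.2 ⟨R, fun z hz => not_lt.1 fun h' => hz (hR h')⟩)
  obtain ⟨l, hl, he⟩ := h _ g h2 (by rw [compl_compl]; exact isPreconnected_connectedComponentIn)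
    (hg.mono h1) fun z hz => h0 z (h1 hz)
  have h3 : K ⊆ (connectedComponentIn Kᶜ b)ᶜ :=
    subset_compl_comm.1 (connectedComponentIn_subset _ _)
  exact ⟨l, hl.mono h3, fun z hz => he z (h3 hz)⟩

theorem sJCT_of (h1 : S_logPair) (h2 : S_HD) : S_JCT := by
  intro γ hγ hinj
  set J := γ '' sphere 0 1 with hJ
  have hJc : IsCompact J := (isCompact_sphere 0 1).image_of_continuousOn hγ
  have hee : ∀ t : ℝ, ee t ∈ sphere (0 : ℂ) 1 := fun t => mem_sphere_zero_iff_norm.2 (norm_ee_real t)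
  set c : ℝ → ℂ := fun t => γ (ee t) with hc
  have hcc : Continuous c := hγ.comp_continuous (by fun_prop) hee
  have hcJ : ∀ t, c t ∈ J := fun t => ⟨_, hee t, rfl⟩
  obtain ⟨b₀, R, hR, hb₀⟩ := exists_far hJc.isBounded
  have part1 : ∃ a, a ∉ J ∧ IsBounded (connectedComponentIn Jᶜ a) := by
    by_contra hn
    push Not at hn
    have h3 : Jᶜ = connectedComponentIn Jᶜ b₀ :=
      Subset.antisymm (fun a ha => (hb₀ a).1 (hn a ha)) (connectedComponentIn_subset _ _)
    have h4 : ∀ x ∈ sphere (0 : ℂ) 1, Function.invFunOn γ (sphere 0 1) (γ x) = x :=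
      fun x hx => hinj.leftInvOn_invFunOn hx
    obtain ⟨l, hl, he⟩ := h2 J (Function.invFunOn γ (sphere 0 1)) hJc
      (h3 ▸ isPreconnected_connectedComponentIn)
      (continuousOn_image (l := id) (isCompact_sphere 0 1) hγ continuousOn_id h4) (by
        rintro _ ⟨x, hx, rfl⟩ h0
        rw [h4 x hx] at h0
        simp [h0] at hx)
    have h5 : HasWind (fun θ : ℝ => ee (θ + 0)) 0 :=
      ⟨fun t => l (c t), hl.comp_continuous hcc hcJ,
        fun t => by
          rw [he _ (hcJ t)]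
          simp only [add_zero]
          exact h4 _ (hee t),
        fun t => by simp [hc, ee_add_one]⟩
    exact zero_ne_one (h5.unique (hasWind_ee 0))
  refine ⟨part1, fun a ha => ?_⟩
  set W := connectedComponentIn Jᶜ a with hW
  have hWo : IsOpen W := hJc.isClosed.isOpen_compl.connectedComponentIn
  have haW : a ∈ W := mem_connectedComponentIn ha
  have hfr : frontier W ⊆ J := by
    intro x hx
    by_contra hxJ
    rw [hWo.frontier_eq] at hx
    obtain ⟨y, hy1, hy2⟩ := mem_closure_iff.1 hx.1 _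
      hJc.isClosed.isOpen_compl.connectedComponentIn (mem_connectedComponentIn hxJ)
    refine hx.2 ?_
    rw [hW, connectedComponentIn_eq hy2, ← connectedComponentIn_eq hy1]
    exact mem_connectedComponentIn hxJ
  refine Subset.antisymm hfr ?_
  rintro _ ⟨w, hw, rfl⟩
  by_contra hp
  obtain ⟨θ, -, rfl⟩ := exists_ee (mem_sphere_zero_iff_norm.1 hw) 0
  obtain ⟨ε, hε, hε'⟩ := nhds_basis_closedBall.mem_iff.1
    (hcc.continuousAt.preimage_mem_nhds (isClosed_frontier.isOpen_compl.mem_nhds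
      (show c θ ∈ (frontier W)ᶜ from hp)))
  set T : Set ℝ := Icc (θ + ε) (θ + 1 - ε / 2) with hT
  have hA : frontier W ⊆ c '' T := by
    intro x hx
    obtain ⟨w, hw, rfl⟩ := hfr hx
    obtain ⟨t, ht, rfl⟩ := exists_ee (mem_sphere_zero_iff_norm.1 hw) (θ - ε / 2)
    refine ⟨t, ⟨not_lt.1 fun h => hε' (show t ∈ closedBall θ ε from ?_) hx,
      by linarith [ht.2]⟩, rfl⟩
    rw [mem_closedBall, Real.dist_eq, abs_le]
    constructor <;> linarith [ht.1]
  have hAJ : c '' T ⊆ J := by rintro _ ⟨t, -, rfl⟩; exact hcJ t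
  have hcinj : InjOn c T := fun s hs t ht hst => ee_inj (hinj (hee s) (hee t) hst) (by
    rw [abs_lt]; constructor <;> linarith [hs.1, hs.2, ht.1, ht.2])
  obtain ⟨b, hbJ, hbW⟩ : ∃ b, b ∉ J ∧ b ∉ W := by
    by_cases hWb : IsBounded W
    · obtain ⟨b, hb⟩ : (J ∪ W)ᶜ.Nonempty := nonempty_iff_ne_empty.2 fun h =>
        not_bdd_compl (hJc.isBounded.union hWb) (h ▸ isBounded_empty)
      exact ⟨b, fun h => hb (Or.inl h), fun h => hb (Or.inr h)⟩
    · obtain ⟨b, hb, hb'⟩ := part1
      exact ⟨b, hb, fun h => hWb (by rwa [hW, connectedComponentIn_eq h])⟩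
  have hna : ∀ t, c t - a ≠ 0 := fun t h => ha (sub_eq_zero.1 h ▸ hcJ t)
  have hnb : ∀ t, c t - b ≠ 0 := fun t h => hbJ (sub_eq_zero.1 h ▸ hcJ t)
  obtain ⟨l, hl, he⟩ := exists_lift (U := (univ : Set ℝ)) convex_univ isOpen_univ univ_nonempty
    (g := fun t => (c t - a) / (c t - b))
    (((hcc.sub continuous_const).div (hcc.sub continuous_const) hnb).continuousOn)
    (fun t _ => div_ne_zero (hna t) (hnb t))
  have h4 : ∀ t ∈ T, l (Function.invFunOn c T (c t)) = l t := fun t ht => by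
    rw [hcinj.leftInvOn_invFunOn ht]
  have h5 : b ∈ connectedComponentIn (c '' T)ᶜ a :=
    (h1 (c '' T) a b (isCompact_Icc.image hcc) (fun h => ha (hAJ h)) (fun h => hbJ (hAJ h))).1
      ⟨fun z => l (Function.invFunOn c T z),
        continuousOn_image isCompact_Icc hcc.continuousOn (hl.mono (subset_univ _)) h4, by
          rintro _ ⟨t, ht, rfl⟩
          exact (congrArg ee (h4 t ht)).trans (he t trivial)⟩
  have haA : a ∈ (c '' T)ᶜ := fun h => ha (hAJ h)
  refine hbW (isPreconnected_connectedComponentIn.subset_of_closure_inter_subset hWo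
    ⟨a, mem_connectedComponentIn haA, haW⟩ (fun x hx => ?_) h5)
  by_contra hxW
  exact connectedComponentIn_subset _ _ hx.2 (hA (by rw [hWo.frontier_eq]; exact ⟨hx.1, hxW⟩))

end

end Pool.Agent.Lib.MP_d32f96_gt
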