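import Pool.Agent.Lib.MP_d32f96_gt.Defs

/-! Continuum theory in the plane. -/

namespace Pool.Agent.Lib.MP_d32f96_gt

open Set Filter Topology Metric Bornology

namespace T3

lemma closed_cc {F : Set ℂ} (hF : IsClosed F) (x : ℂ) : IsClosed (connectedComponentIn F x) := by
  by_cases h : x ∈ F
  · exact closure_subset_iff_isClosed.1 (isPreconnected_connectedComponentIn.closure.subset_connectedComponentIn
      (subset_closure (mem_connectedComponentIn h))
      (closure_minimal (connectedComponentIn_subset _ _) hF))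
  · rw [connectedComponentIn_eq_empty h]; exact isClosed_empty

lemma sub_of_front {C U : Set ℂ} (hC : IsPreconnected C) (hU : IsOpen U) (h : (C ∩ U).Nonempty)
    (hd : Disjoint (frontier U) C) : C ⊆ U :=
  hC.subset_of_closure_inter_subset hU h fun _ hy => by_contra fun e =>
    disjoint_left.1 hd ⟨hy.1, by rwa [hU.interior_eq]⟩ hy.2

lemma unb {C : Set ℂ} : ¬ IsBounded C ↔ ∀ R : ℝ, ∃ y ∈ C, R ≤ ‖y‖ := by
  rw [isBounded_iff_forall_norm_le]
  push Not
  exact ⟨fun h R => (h R).imp fun _ e => ⟨e.1, e.2.le⟩, fun h R =>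
    (h (R + 1)).imp fun _ e => ⟨e.1, by linarith [e.2]⟩⟩

end T3

open T3

theorem sSB_of : S_SB := by
  intro F O x hF hx hb hO hs
  obtain ⟨N, n1, n2, n3⟩ := exists_compact_between
    (isCompact_of_isClosed_isBounded (closed_cc hF x) hb) hO hs
  have hM : IsCompact (F ∩ N) := n1.inter_left hF
  have : CompactSpace ↥(F ∩ N) := isCompact_iff_compactSpace.1 hM
  have xM : x ∈ F ∩ N := ⟨hx, interior_subset (n2 (mem_connectedComponentIn hx))⟩
  have e1 : connectedComponentIn (F ∩ N) x = connectedComponentIn F x :=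
    (connectedComponentIn_mono _ inter_subset_left).antisymm
      (isPreconnected_connectedComponentIn.subset_connectedComponentIn (mem_connectedComponentIn hx)
        (subset_inter (connectedComponentIn_subset _ _) (n2.trans interior_subset)))
  rw [connectedComponentIn_eq_image xM] at e1
  have hD : IsCompact (((↑) : ↥(F ∩ N) → ℂ) ⁻¹' (interior N)ᶜ) :=
    (isOpen_interior.isClosed_compl.preimage continuous_subtype_val).isCompact
  obtain ⟨t, ht⟩ := hD.elim_finite_subfamily_closed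
    (fun s : {s : Set ↥(F ∩ N) // IsClopen s ∧ ⟨x, xM⟩ ∈ s} => (s : Set ↥(F ∩ N)))
    (fun s => s.2.1.isClosed) (by
      rw [← connectedComponent_eq_iInter_isClopen]
      exact eq_empty_of_forall_notMem fun y h => h.1 (n2 (e1 ▸ mem_image_of_mem _ h.2)))
  obtain ⟨A, hA⟩ : ∃ A : Set ↥(F ∩ N), A = ⋂ s ∈ t, (s : Set ↥(F ∩ N)) := ⟨_, rfl⟩
  rw [← hA] at ht
  have a1 : IsClopen A := hA ▸ isClopen_biInter_finset fun s _ => s.2.1
  have a2 : ⟨x, xM⟩ ∈ A := hA ▸ mem_iInter₂.2 fun s _ => s.2.2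
  have k : ∀ {B : Set ↥(F ∩ N)}, IsClosed B → IsClosed (((↑) : ↥(F ∩ N) → ℂ) '' B) := fun e =>
    (e.isCompact.image continuous_subtype_val).isClosed
  obtain ⟨U, u1, u2, u3⟩ := normal_exists_closure_subset (k a1.isClosed)
    (isOpen_interior.inter (k a1.compl.isClosed).isOpen_compl) (t := interior N ∩ _) (by
      rintro _ ⟨y, hy, rfl⟩
      exact ⟨by_contra fun e => ht.subset ⟨e, hy⟩, fun ⟨z, h1, h2⟩ =>
        h1 (Subtype.ext h2 ▸ hy)⟩)
  have u4 : closure U ⊆ N := u3.trans (inter_subset_left.trans interior_subset)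
  refine ⟨U, u1, n1.isBounded.subset (subset_closure.trans u4), e1 ▸ (image_mono
    (a1.connectedComponent_subset a2)).trans u2, subset_closure.trans (u4.trans n3),
    disjoint_left.2 fun y hy hF => ?_⟩
  rw [u1.frontier_eq] at hy
  exact hy.2 (u2 ⟨⟨y, hF, u4 hy.1⟩, by_contra fun e => (u3 hy.1).2 ⟨_, e, rfl⟩, rfl⟩)

theorem sExh_of : S_Exh := by
  intro F K hF hb hK
  have h : ∀ x, ∃ U, IsOpen U ∧ IsBounded U ∧ x ∈ U ∧ Disjoint (frontier U) F := fun x => by
    by_cases hx : x ∈ F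
    · obtain ⟨U, u1, u2, u3, -, u4⟩ := sSB_of F univ x hF hx (hb x hx) isOpen_univ (subset_univ _)
      exact ⟨U, u1, u2, u3 (mem_connectedComponentIn hx), u4⟩
    · obtain ⟨r, r0, hr⟩ := nhds_basis_closedBall.mem_iff.1 (hF.isOpen_compl.mem_nhds hx)
      exact ⟨ball x r, isOpen_ball, isBounded_ball, mem_ball_self r0, disjoint_left.2 fun y hy =>
        hr (closure_ball_subset_closedBall (frontier_subset_closure hy))⟩
  refine hK.induction_on ⟨∅, isOpen_empty, isBounded_empty, Subset.rfl, by simp⟩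
    (fun s t e ⟨U, u1, u2, u3, u4⟩ => ⟨U, u1, u2, e.trans u3, u4⟩)
    (fun s t ⟨U, u1, u2, u3, u4⟩ ⟨V, v1, v2, v3, v4⟩ => ⟨U ∪ V, u1.union v1, u2.union v2,
      union_subset_union u3 v3, disjoint_left.2 fun y hy => ?_⟩) fun x _ => ?_
  · exact (frontier_union_subset U V hy).elim (fun e => disjoint_left.1 u4 e.1)
      fun e => disjoint_left.1 v4 e.2
  · obtain ⟨U, u1, u2, u3, u4⟩ := h x
    exact ⟨U, mem_nhdsWithin_of_mem_nhds (u1.mem_nhds u3), U, u1, u2, Subset.rfl, u4⟩

namespace T3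

/-- boundary bumping -/
lemma bump {C K : Set ℂ} {x : ℂ} (c1 : IsClosed C) (c2 : IsPreconnected C) (hK : IsClosed K)
    (hx : x ∈ C ∩ K) (hb : IsBounded (connectedComponentIn (C ∩ K) x)) (h : ¬ C ⊆ K) :
    (connectedComponentIn (C ∩ K) x ∩ frontier K).Nonempty := by
  by_contra! e
  obtain ⟨U, u1, -, u2, u3, u4⟩ := sSB_of _ (interior K) x (c1.inter hK) hx hb isOpen_interior
    fun y hy => by_contra fun a => e.subset ⟨hy, by
      rw [hK.frontier_eq]; exact ⟨(connectedComponentIn_subset _ _ hy).2, a⟩⟩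
  have u5 := u3.trans interior_subset
  exact h ((sub_of_front c2 u1 ⟨x, hx.1, u2 (mem_connectedComponentIn hx)⟩ (disjoint_left.2
    fun y a b => disjoint_left.1 u4 a ⟨b, closure_minimal u5 hK a.1⟩)).trans u5)

end T3

theorem sTail_of : S_Tail := by
  rintro C R ⟨c1, c2, c3⟩
  have hK : IsClosed {x : ℂ | R ≤ ‖x‖} := isClosed_le continuous_const continuous_norm
  by_contra! h
  have hb : ∀ x ∈ C ∩ {x : ℂ | R ≤ ‖x‖}, IsBounded (connectedComponentIn (C ∩ {x | R ≤ ‖x‖}) x) :=
    fun x _ => by_contra fun e => by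
      obtain ⟨y, h1, h2⟩ := h _ ⟨closed_cc (c1.inter hK) x, isPreconnected_connectedComponentIn, e⟩
        ((connectedComponentIn_subset _ _).trans inter_subset_left)
      exact h2.not_ge (connectedComponentIn_subset _ _ h1).2
  obtain ⟨x, hx, -⟩ := unb.1 c3 0
  obtain ⟨U, u1, u2, u3, u4⟩ := sExh_of _ _ (c1.inter hK) hb
    ((isCompact_closedBall 0 R).insert x)
  refine c3 (u2.subset (sub_of_front c2 u1 ⟨x, hx, u3 (mem_insert _ _)⟩ (disjoint_left.2
    fun y a b => disjoint_left.1 u4 a ⟨b, show R ≤ ‖y‖ from le_of_not_ge fun e => ?_⟩)))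
  rw [u1.frontier_eq] at a
  exact a.2 (u3 (.inr (mem_closedBall_zero_iff.2 e)))

theorem sLim_of : S_Lim := by
  intro C x F a hF c1 c2 hx c3 c4 hb
  have ha : a ∈ F := c4 a fun ε ε0 =>
    ((hx.eventually (ball_mem_nhds a ε0)).mono fun n e => ⟨x n, c2 n, e⟩).frequently
  obtain ⟨U, u1, u2, u3, -, u4⟩ := sSB_of F univ a hF ha hb isOpen_univ (subset_univ _)
  obtain ⟨R, hR⟩ := isBounded_iff_forall_norm_le.1 u2
  have h : ∀ᶠ n in atTop, ∃ y, y ∈ frontier U ∧ y ∈ C n := by
    filter_upwards [c3 (R + 1), hx.eventually (u1.mem_nhds (u3 (mem_connectedComponentIn ha)))]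
      with n ⟨y, h1, h2⟩ e
    by_contra! b
    linarith [hR y (sub_of_front (c1 n) u1 ⟨_, c2 n, e⟩ (disjoint_left.2 b) h1)]
  obtain ⟨y, hy⟩ := h.choice
  obtain ⟨z, z1, z2⟩ := (isCompact_of_isClosed_isBounded isClosed_frontier
    (u2.closure.subset frontier_subset_closure)).exists_mapClusterPt_of_frequently
      (hy.mono fun n e => e.1).frequently
  exact disjoint_left.1 u4 z1 (c4 z fun ε ε0 =>
    ((z2.frequently (ball_mem_nhds z ε0)).and_eventually hy).mono fun n e => ⟨_, e.2.2, e.1⟩)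

theorem sNA_of : S_NA := by
  intro Y Z x hY hZ hx hb hP
  have xY : x ∈ Y := connectedComponentIn_nonempty_iff.1
    (nonempty_iff_ne_empty.2 fun e => hx (e ▸ isBounded_empty))
  choose U u1 u2 u3 u4 using fun n : ℕ =>
    sExh_of _ _ (hY.inter hZ) hb (isCompact_closedBall 0 (‖x‖ + n))
  obtain ⟨O, hO⟩ : ∃ O : ℕ → Set ℂ, ∀ n, O n = Zᶜ ∩ (closedBall 0 (‖x‖ + n))ᶜ := ⟨_, fun _ => rfl⟩
  have o1 : ∀ n, IsOpen (O n) := fun n => hO n ▸ hZ.isOpen_compl.inter isClosed_closedBall.isOpen_compl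
  have xb : ∀ n : ℕ, x ∈ closedBall (0 : ℂ) (‖x‖ + n) := fun n => by simp
  have p : ∀ N : ℕ, ∃ y : ℂ, N ≤ ‖y‖ ∧ ∀ n, y ∉ U n →
      ∃ g ∈ frontier (U n) ∩ Y, g ∈ connectedComponentIn (O n) y := fun N => by
    have c1 := closed_cc hY x
    have c2 := (c1.inter isClosed_closedBall : IsClosed (_ ∩ closedBall (0 : ℂ) (‖x‖ + N)))
    have m : x ∈ connectedComponentIn Y x ∩ closedBall 0 (‖x‖ + N) :=
      ⟨mem_connectedComponentIn xY, xb N⟩
    have c3 := connectedComponentIn_subset (connectedComponentIn Y x ∩ closedBall 0 (‖x‖ + N)) x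
    have c4 := isBounded_closedBall.subset (c3.trans inter_subset_right)
    obtain ⟨y, y1, y2⟩ := bump c1 isPreconnected_connectedComponentIn isClosed_closedBall m c4
      fun e => hx (isBounded_closedBall.subset e)
    have c5 := c3.trans (inter_subset_left.trans (connectedComponentIn_subset _ _))
    have c6 := hP _ (isCompact_of_isClosed_isBounded (closed_cc c2 x) c4)
      isPreconnected_connectedComponentIn (mem_connectedComponentIn m) c5
    have c7 := mem_connectedComponentIn m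
    have c8 := closed_cc c2 x
    have c9 : IsPreconnected (connectedComponentIn (connectedComponentIn Y x ∩
      closedBall 0 (‖x‖ + N)) x) := isPreconnected_connectedComponentIn
    generalize connectedComponentIn (connectedComponentIn Y x ∩ closedBall 0 (‖x‖ + N)) x = P at *
    refine ⟨y, ?_, fun n hn => ?_⟩
    · linarith [mem_sphere_zero_iff_norm.1 (frontier_closedBall_subset_sphere y2), norm_nonneg x]
    · have d := connectedComponentIn_subset (P ∩ (U n)ᶜ) y
      obtain ⟨g, g1, g2⟩ := bump c8 c9 (u1 n).isClosed_compl ⟨y1, hn⟩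
        (c4.subset (d.trans inter_subset_left)) fun e => e c7 (u3 n (xb n))
      refine ⟨g, ⟨frontier_compl (U n) ▸ g2, c5 (d g1).1⟩, connectedComponentIn_mono _ ?_ g1⟩
      exact fun z hz => hO n ▸ ⟨disjoint_left.1 c6 hz.1, fun e => hz.2 (u3 n e)⟩
  choose y y1 y2 using p
  have q : ∀ n, ∃ g ∈ O n, ∀ᶠ N in hyperfilter ℕ, y N ∈ connectedComponentIn (O n) g := fun n => by
    obtain ⟨R, hR⟩ := isBounded_iff_forall_norm_le.1 (u2 n)
    have h : ∀ᶠ N in hyperfilter ℕ, ∃ g, g ∈ frontier (U n) ∩ Y ∧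
        g ∈ connectedComponentIn (O n) (y N) :=
      ((tendsto_natCast_atTop_atTop.eventually_gt_atTop R).filter_mono Nat.hyperfilter_le_atTop).mono
        fun N e => y2 N n fun a => by linarith [hR _ a, y1 N]
    obtain ⟨g, hg⟩ := h.choice
    obtain ⟨z, z1, z2⟩ := ((isCompact_of_isClosed_isBounded isClosed_frontier
      ((u2 n).closure.subset frontier_subset_closure)).inter_right hY).ultrafilter_le_nhds'
        ((hyperfilter ℕ).map g) (hg.mono fun N e => e.1)
    have z3 : z ∈ O n := hO n ▸ ⟨fun e => disjoint_left.1 (u4 n) z1.1 ⟨z1.2, e⟩, fun e =>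
      ((u1 n).frontier_eq ▸ z1.1).2 (u3 n e)⟩
    refine ⟨z, z3, ?_⟩
    filter_upwards [hg, z2 (connectedComponentIn_mem_nhds ((o1 n).mem_nhds z3))] with N a b
    rw [connectedComponentIn_eq b, ← connectedComponentIn_eq a.2]
    exact mem_connectedComponentIn (connectedComponentIn_nonempty_iff.1 ⟨_, a.2⟩)
  choose g g1 g2 using q
  have r : ∀ n, ∃ J, IsCompact J ∧ IsPreconnected J ∧ g n ∈ J ∧ g (n + 1) ∈ J ∧ J ⊆ O n := fun n => by
    obtain ⟨N, a, b⟩ := ((g2 n).and (g2 (n + 1))).exists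
    have s : O (n + 1) ⊆ O n := by
      rw [hO, hO]
      exact inter_subset_inter_right _ (compl_subset_compl.2 (closedBall_subset_closedBall (by simp)))
    have c : g (n + 1) ∈ connectedComponentIn (O n) (g n) := by
      rw [connectedComponentIn_eq a]
      exact connectedComponentIn_mono _ s
        (connectedComponentIn_eq b ▸ mem_connectedComponentIn (g1 _))
    obtain ⟨γ, hγ⟩ := ((o1 n).connectedComponentIn.isConnected_iff_isPathConnected.1
      (isConnected_connectedComponentIn_iff.2 (g1 n))).joinedIn _ (mem_connectedComponentIn (g1 n)) _ c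
    exact ⟨range γ, isCompact_range γ.continuous, isPreconnected_range γ.continuous, γ.source_mem_range,
      γ.target_mem_range, range_subset_iff.2 fun t => connectedComponentIn_subset _ _ (hγ t)⟩
  choose J j1 j2 j3 j4 j5 using r
  have j6 : ∀ n : ℕ, ∀ z ∈ J n, (n : ℝ) ≤ ‖z‖ := fun n z hz => by
    have := (hO n ▸ j5 n hz).2
    rw [mem_compl_iff, mem_closedBall_zero_iff, not_le] at this
    linarith [norm_nonneg x]
  refine ⟨⋃ n, J n, ⟨LocallyFinite.isClosed_iUnion (fun z => ⟨ball 0 (‖z‖ + 1), isOpen_ball.mem_nhds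
    (by simp), (finite_le_nat ⌈‖z‖ + 1⌉₊).subset ?_⟩) fun n => (j1 n).isClosed,
    IsPreconnected.iUnion_of_chain j2 fun n => ⟨_, j4 n, j3 _⟩,
    unb.2 fun R => ⟨_, mem_iUnion.2 ⟨_, j3 ⌈R⌉₊⟩, (Nat.le_ceil R).trans (j6 _ _ (j3 _))⟩⟩,
    disjoint_iUnion_left.2 fun n => disjoint_left.2 fun z hz => (hO n ▸ j5 n hz).1⟩
  rintro n ⟨w, w1, w2⟩
  exact_mod_cast (j6 n w w1).trans ((mem_ball_zero_iff.1 w2).le.trans (Nat.le_ceil _))

end Pool.Agent.Lib.MP_d32f96_gt
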