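import Pool.Agent.Lib.MP_d32f96_gt.Frame

/-! Arcs and proper rays in open sets, crossing a box, rays along a level set. -/

namespace Pool.Agent.Lib.MP_d32f96_gt

open Set Filter Topology Metric Complex Bornology

noncomputable section

namespace T4

/-- restriction of an arc to a subinterval -/
lemma arc_sub {α : ℝ → ℂ} (h : Arc α) {s t : ℝ} (hs : 0 ≤ s) (hst : s < t) (ht : t ≤ 1) :
    ∃ β, Arc β ∧ β 0 = α s ∧ β 1 = α t ∧
      ∀ u ∈ Icc (0 : ℝ) 1, ∃ v ∈ Icc s t, β u = α v ∧ (v = t → u = 1) := by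
  have hm : ∀ u ∈ Icc (0 : ℝ) 1, s + u * (t - s) ∈ Icc s t := fun u hu =>
    ⟨by nlinarith [hu.1], by nlinarith [hu.2]⟩
  refine ⟨fun u => α (s + u * (t - s)), ⟨h.1.comp (by fun_prop), fun u hu v hv huv => ?_⟩,
    by simp, by simp, fun u hu => ⟨_, hm u hu, rfl, fun e => ?_⟩⟩
  · have := h.2 (Icc_subset_Icc hs ht (hm u hu)) (Icc_subset_Icc hs ht (hm v hv)) huv
    have h2 : (u - v) * (t - s) = 0 := by linarith
    rcases mul_eq_zero.1 h2 with h3 | h3 <;> linarith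
  · have h2 : (u - 1) * (t - s) = 0 := by linarith
    rcases mul_eq_zero.1 h2 with h3 | h3 <;> linarith

/-- reversal of an arc -/
lemma arc_rev {α : ℝ → ℂ} (h : Arc α) : Arc fun t => α (1 - t) :=
  ⟨h.1.comp (by fun_prop), fun u hu v hv huv => by
    have := h.2 ⟨by linarith [hu.2], by linarith [hu.1]⟩ ⟨by linarith [hv.2], by linarith [hv.1]⟩
      huv
    linarith⟩

/-- concatenation of two arcs that only share the end point of the first -/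
lemma arc_join {α β : ℝ → ℂ} (ha : Arc α) (hb : Arc β) (e : α 1 = β 0)
    (hd : ∀ s ∈ Icc (0 : ℝ) 1, ∀ t ∈ Icc (0 : ℝ) 1, α s = β t → s = 1) :
    ∃ γ, Arc γ ∧ γ 0 = α 0 ∧ γ 1 = β 1 ∧
      ∀ u ∈ Icc (0 : ℝ) 1, γ u ∈ α '' Icc 0 1 ∪ β '' Icc 0 1 := by
  refine ⟨fun u => if u ≤ 1 / 2 then α (2 * u) else β (2 * u - 1), ⟨?_, ?_⟩, by norm_num,
    by norm_num, fun u hu => ?_⟩
  · refine Continuous.if_le (ha.1.comp (by fun_prop)) (hb.1.comp (by fun_prop)) continuous_id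
      continuous_const fun u hu => ?_
    rw [hu]; norm_num [e]
  · intro u hu v hv huv
    have key : ∀ u ∈ Icc (0 : ℝ) 1, ∀ v ∈ Icc (0 : ℝ) 1, u ≤ 1 / 2 → ¬ v ≤ 1 / 2 →
        α (2 * u) ≠ β (2 * v - 1) := fun u hu v hv h1 h2 h => by
      have m2 : 2 * v - 1 ∈ Icc (0 : ℝ) 1 := ⟨by linarith [not_le.1 h2], by linarith [hv.2]⟩
      have h3 := hd _ ⟨by linarith [hu.1], by linarith⟩ _ m2 h
      rw [h3, e] at h
      have := hb.2 ⟨le_rfl, zero_le_one⟩ m2 h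
      linarith [not_le.1 h2]
    by_cases h1 : u ≤ 1 / 2 <;> by_cases h2 : v ≤ 1 / 2 <;> simp only [h1, h2, if_true, if_false]
      at huv
    · have := ha.2 ⟨by linarith [hu.1], by linarith⟩ ⟨by linarith [hv.1], by linarith⟩ huv
      linarith
    · exact absurd huv (key u hu v hv h1 h2)
    · exact absurd huv.symm (key v hv u hu h2 h1)
    · have := hb.2 ⟨by linarith [not_le.1 h1], by linarith [hu.2]⟩
        ⟨by linarith [not_le.1 h2], by linarith [hv.2]⟩ huv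
      linarith
  · by_cases h1 : u ≤ 1 / 2 <;> simp only [h1, if_true, if_false]
    · exact Or.inl ⟨_, ⟨by linarith [hu.1], by linarith⟩, rfl⟩
    · exact Or.inr ⟨_, ⟨by linarith [not_le.1 h1], by linarith [hu.2]⟩, rfl⟩

/-- first time at which a curve meets a closed set -/
lemma first_hit {α : ℝ → ℂ} (ha : Continuous α) {Z : Set ℂ} (hZ : IsClosed Z) {a b : ℝ}
    (h : ∃ t ∈ Icc a b, α t ∈ Z) :
    ∃ τ ∈ Icc a b, α τ ∈ Z ∧ ∀ s ∈ Icc a b, α s ∈ Z → τ ≤ s := by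
  have hc : IsCompact (Icc a b ∩ α ⁻¹' Z) := isCompact_Icc.inter_right (hZ.preimage ha)
  obtain ⟨τ, hτ, hm⟩ := hc.exists_isLeast h
  exact ⟨τ, hτ.1, hτ.2, fun s hs hz => hm ⟨hs, hz⟩⟩

lemma arc_compact {α : ℝ → ℂ} (h : Arc α) : IsCompact (α '' Icc 0 1) := isCompact_Icc.image h.1

/-- follow the first arc up to its first point on the second one, then the second one -/
lemma splice {α β : ℝ → ℂ} (ha : Arc α) (hb : Arc β)
    (hm : ∃ t ∈ Icc (0 : ℝ) 1, α t ∈ β '' Icc 0 1) (hne : α 0 ≠ β 1) :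
    ∃ γ, Arc γ ∧ γ 0 = α 0 ∧ γ 1 = β 1 ∧
      ∀ u ∈ Icc (0 : ℝ) 1, γ u ∈ α '' Icc 0 1 ∪ β '' Icc 0 1 := by
  obtain ⟨τ, hτ, ⟨σ, hσ, e⟩, hmin⟩ := first_hit ha.1 (arc_compact hb).isClosed hm
  rcases hτ.1.eq_or_lt with h0 | h0
  · have h1 : σ < 1 := lt_of_le_of_ne hσ.2 fun h => hne (by rw [h0, ← e, h])
    obtain ⟨γ, hγ, g0, g1, gm⟩ := arc_sub hb hσ.1 h1 le_rfl
    refine ⟨γ, hγ, by rw [g0, e, h0], g1, fun u hu => ?_⟩
    obtain ⟨v, hv, ev, -⟩ := gm u hu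
    exact Or.inr ⟨v, ⟨hσ.1.trans hv.1, hv.2⟩, ev.symm⟩
  obtain ⟨γ, hγ, g0, g1, gm⟩ := arc_sub ha le_rfl h0 hτ.2
  have gs : ∀ u ∈ Icc (0 : ℝ) 1, γ u ∈ α '' Icc 0 1 := fun u hu => by
    obtain ⟨v, hv, ev, -⟩ := gm u hu
    exact ⟨v, ⟨hv.1, hv.2.trans hτ.2⟩, ev.symm⟩
  rcases hσ.2.eq_or_lt with h1 | h1
  · exact ⟨γ, hγ, g0, by rw [g1, ← e, h1], fun u hu => Or.inl (gs u hu)⟩
  obtain ⟨δ, hδ, d0, d1, dm⟩ := arc_sub hb hσ.1 h1 le_rfl
  have ds : ∀ u ∈ Icc (0 : ℝ) 1, δ u ∈ β '' Icc 0 1 := fun u hu => by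
    obtain ⟨v, hv, ev, -⟩ := dm u hu
    exact ⟨v, ⟨hσ.1.trans hv.1, hv.2⟩, ev.symm⟩
  obtain ⟨ε, hε, e0, e1, em⟩ := arc_join hγ hδ (by rw [g1, d0, e]) fun s hs t ht hst => by
    obtain ⟨v, hv, ev, hv1⟩ := gm s hs
    exact hv1 (le_antisymm hv.2 (hmin v ⟨hv.1, hv.2.trans hτ.2⟩ (by rw [← ev, hst]; exact ds t ht)))
  refine ⟨ε, hε, e0.trans g0, e1.trans d1, fun u hu => ?_⟩
  rcases em u hu with ⟨v, hv, ev⟩ | ⟨v, hv, ev⟩
  · exact Or.inl (ev ▸ gs v hv)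
  · exact Or.inr (ev ▸ ds v hv)

/-- the segment from `a` to `b` -/
def seg (a b : ℂ) (t : ℝ) : ℂ := a + t * (b - a)

lemma seg_zero (a b : ℂ) : seg a b 0 = a := by simp [seg]

lemma seg_one (a b : ℂ) : seg a b 1 = b := by simp [seg]

lemma arc_seg {a b : ℂ} (h : a ≠ b) : Arc (seg a b) :=
  ⟨by unfold seg; fun_prop, fun u _ v _ huv => by
    have := mul_right_cancel₀ (sub_ne_zero.2 h.symm) (add_left_cancel huv)
    exact_mod_cast this⟩

lemma seg_mem {C : Set ℂ} (hC : Convex ℝ C) {a b : ℂ} (ha : a ∈ C) (hb : b ∈ C) {t : ℝ}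
    (ht : t ∈ Icc (0 : ℝ) 1) : seg a b t ∈ C := by
  simpa [seg] using hC.add_smul_sub_mem ha hb ht

lemma isClosed_cc {F : Set ℂ} (hF : IsClosed F) (x : ℂ) : IsClosed (connectedComponentIn F x) := by
  by_cases hx : x ∈ F
  · exact isClosed_of_closure_subset
      (isPreconnected_connectedComponentIn.closure.subset_connectedComponentIn
        (subset_closure (mem_connectedComponentIn hx))
        (closure_minimal (connectedComponentIn_subset _ _) hF))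
  · rw [connectedComponentIn_eq_empty hx]; exact isClosed_empty

/-- a connected set that meets an open set and its complement meets the frontier -/
lemma meets_frontier {P U : Set ℂ} (hP : IsPreconnected P) (hU : IsOpen U) {a b : ℂ} (ha : a ∈ P)
    (haU : a ∈ U) (hb : b ∈ P) (hbU : b ∉ U) : ∃ z ∈ P, z ∈ frontier U := by
  by_contra hn
  push Not at hn
  refine hbU (hP.subset_left_of_subset_union (v := (closure U)ᶜ) hU isClosed_closure.isOpen_compl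
    (disjoint_compl_right.mono_left subset_closure) (fun z hz => ?_) ⟨a, ha, haU⟩ hb)
  by_cases h : z ∈ closure U
  · left
    by_contra h'
    exact hn z hz (by rw [hU.frontier_eq]; exact ⟨h, h'⟩)
  · exact Or.inr h

end T4

open T4

theorem sArc_of : S_Arc := by
  intro O a b hO hc ha hb hab
  have key := hc.induction₂'
    (fun x y => x = y ∨ ∃ α, Arc α ∧ α 0 = x ∧ α 1 = y ∧ ∀ t ∈ Icc (0 : ℝ) 1, α t ∈ O) ?_ ?_ ha hb
  · exact key.resolve_left hab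
  · intro x hx
    obtain ⟨r, hr, hs⟩ := Metric.isOpen_iff.1 hO x hx
    filter_upwards [mem_nhdsWithin_of_mem_nhds (ball_mem_nhds x hr)] with y hy
    by_cases e : x = y
    · exact ⟨Or.inl e, Or.inl e.symm⟩
    · exact ⟨Or.inr ⟨_, arc_seg e, seg_zero _ _, seg_one _ _, fun t ht =>
          hs (seg_mem (convex_ball x r) (mem_ball_self hr) hy ht)⟩,
        Or.inr ⟨_, arc_seg (Ne.symm e), seg_zero _ _, seg_one _ _, fun t ht =>
          hs (seg_mem (convex_ball x r) hy (mem_ball_self hr) ht)⟩⟩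
  · rintro x y z - - - (rfl | ⟨α, hα, a0, a1, am⟩) h2
    · exact h2
    rcases h2 with rfl | ⟨β, hβ, b0, b1, bm⟩
    · exact Or.inr ⟨α, hα, a0, a1, am⟩
    by_cases e : x = z
    · exact Or.inl e
    obtain ⟨γ, hγ, g0, g1, gm⟩ := splice hα hβ
      ⟨1, ⟨zero_le_one, le_rfl⟩, 0, ⟨le_rfl, zero_le_one⟩, by rw [a1, b0]⟩ (by rwa [a0, b1])
    refine Or.inr ⟨γ, hγ, g0.trans a0, g1.trans b1, fun t ht => ?_⟩
    rcases gm t ht with ⟨v, hv, ev⟩ | ⟨v, hv, ev⟩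
    · exact ev ▸ am v hv
    · exact ev ▸ bm v hv

namespace T4

/-- concatenation of a sequence of arcs -/
lemma exists_concat {b : ℕ → ℝ → ℂ} (hb : ∀ n, Arc (b n)) (he : ∀ n, b n 1 = b (n + 1) 0)
    (hd : ∀ n m, n < m → ∀ s ∈ Ico (0 : ℝ) 1, ∀ t ∈ Ico (0 : ℝ) 1, b n s ≠ b m t)
    (hr : ∀ R : ℝ, ∀ᶠ n in atTop, ∀ t ∈ Icc (0 : ℝ) 1, R ≤ ‖b n t‖) :
    ∃ γ, Ray γ ∧ ∀ t, 0 ≤ t → ∃ n, ∃ s ∈ Icc (0 : ℝ) 1, γ t = b n s := by
  have hm : ∀ t : ℝ, 0 ≤ t → t - ⌊t⌋₊ ∈ Ico (0 : ℝ) 1 := fun t ht =>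
    ⟨by linarith [Nat.floor_le ht], by linarith [Nat.lt_floor_add_one t]⟩
  refine ⟨fun t => b ⌊t⌋₊ (t - ⌊t⌋₊), ⟨?_, ?_, ?_⟩,
    fun t ht => ⟨_, _, Ico_subset_Icc_self (hm t ht), rfl⟩⟩
  · have key : ∀ N : ℕ, ContinuousOn (fun t : ℝ => b ⌊t⌋₊ (t - ⌊t⌋₊)) (Iic (N : ℝ)) := by
      intro N
      induction N with
      | zero =>
        refine (hb 0).1.continuousOn.congr fun t ht => ?_
        have : ⌊t⌋₊ = 0 := Nat.floor_of_nonpos (by simpa using ht)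
        simp [this]
      | succ N ih =>
        rw [← Iic_union_Icc_eq_Iic (a := (N : ℝ)) (by push_cast; linarith)]
        refine ih.union_of_isClosed ?_ isClosed_Iic isClosed_Icc
        refine ((hb N).1.comp (continuous_id.sub (continuous_const (y := (N : ℝ))))).continuousOn.congr
          fun t ht => ?_
        rcases ht.2.eq_or_lt with h | h
        · rw [h, Nat.floor_natCast]
          simp [he]
        · have : ⌊t⌋₊ = N := (Nat.floor_eq_iff ((Nat.cast_nonneg N).trans ht.1)).2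
            ⟨ht.1, by exact_mod_cast h⟩
          simp [this]
    refine continuous_iff_continuousAt.2 fun t => ?_
    obtain ⟨N, hN⟩ := exists_nat_gt t
    exact (key N).continuousAt (Iic_mem_nhds hN)
  · intro s hs t ht h
    rcases lt_trichotomy ⌊s⌋₊ ⌊t⌋₊ with h1 | h1 | h1
    · exact absurd h (hd _ _ h1 _ (hm s hs) _ (hm t ht))
    · have m1 := hm s hs
      simp only [h1] at h m1
      have := (hb _).2 (Ico_subset_Icc_self m1) (Ico_subset_Icc_self (hm t ht)) h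
      linarith
    · exact absurd h.symm (hd _ _ h1 _ (hm t ht) _ (hm s hs))
  · refine tendsto_atTop.2 fun R => ?_
    filter_upwards [(tendsto_nat_floor_atTop (α := ℝ)).eventually (hr R), eventually_ge_atTop 0]
      with t h1 h2
    exact h1 _ (Ico_subset_Icc_self (hm t h2))

/-- the state of the construction of a ray -/
structure St (O : Set ℂ) where
  c : ℝ → ℂ
  T : Set ℂ
  r : ℝ
  arc : Arc c
  mem : ∀ t ∈ Icc (0 : ℝ) 1, c t ∈ O
  ccu : CCU T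
  sub : T ⊆ O
  fin : c 1 ∈ T
  far : ∀ x ∈ T, r < ‖x‖
  ini : ‖c 0‖ < r

/-- an arc from a point of `T` to a far tail of `T` -/
lemma exists_far (h1 : S_Arc) (h2 : S_Tail) {T V : Set ℂ} (hT : CCU T) (hV : IsOpen V)
    (hs : T ⊆ V) {x : ℂ} (hx : x ∈ T) {r : ℝ} (hr : ‖x‖ < r) :
    ∃ T' a, CCU T' ∧ T' ⊆ T ∧ (∀ y ∈ T', r < ‖y‖) ∧ Arc a ∧ a 0 = x ∧ a 1 ∈ T' ∧
      ∀ t ∈ Icc (0 : ℝ) 1, a t ∈ V := by
  obtain ⟨T', hT', s', f'⟩ := h2 T (r + 1) hT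
  obtain ⟨y, hy⟩ : T'.Nonempty := nonempty_iff_ne_empty.2 fun h => hT'.2.2 (h ▸ isBounded_empty)
  have hsub := hT.2.1.subset_connectedComponentIn hx hs
  obtain ⟨a, ha, a0, a1, am⟩ := h1 _ x y hV.connectedComponentIn
    isPreconnected_connectedComponentIn (hsub hx) (hsub (s' hy))
    (fun e => by have := f' y hy; rw [← e] at this; linarith)
  exact ⟨T', a, hT', s', fun z hz => by linarith [f' z hz], ha, a0, a1 ▸ hy,
    fun t ht => connectedComponentIn_subset _ _ (am t ht)⟩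

lemma step (h1 : S_Arc) (h2 : S_Tail) {O : Set ℂ} (hO : IsOpen O) (s : St O) :
    ∃ (s' : St O) (b : ℝ → ℂ), Arc b ∧ b 0 = s.c 0 ∧ b 1 = s'.c 0 ∧
      (∀ u ∈ Icc (0 : ℝ) 1, b u ∈ s.c '' Icc 0 1) ∧
      (∀ u ∈ Icc (0 : ℝ) 1, b u ∈ s'.c '' Icc 0 1 → u = 1) ∧
      (∀ t ∈ Icc (0 : ℝ) 1, s.r < ‖s'.c t‖) ∧ (∀ t ∈ Icc (0 : ℝ) 1, ‖s.c t‖ < s'.r) ∧
      s.r + 1 ≤ s'.r := by
  obtain ⟨M, hM⟩ := (arc_compact s.arc).isBounded.exists_norm_le
  have hr : ∀ t ∈ Icc (0 : ℝ) 1, ‖s.c t‖ < max M s.r + 1 := fun t ht => by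
    linarith [hM _ ⟨t, ht, rfl⟩, le_max_left M s.r]
  obtain ⟨T', a, hT', s', f', ha, a0, a1, am⟩ := exists_far h1 h2
    (V := O ∩ {x | s.r < ‖x‖}) s.ccu (hO.inter (isOpen_lt continuous_const continuous_norm))
    (fun x hx => ⟨s.sub hx, s.far x hx⟩) s.fin (hr 1 ⟨zero_le_one, le_rfl⟩)
  obtain ⟨τ, hτ, ⟨σ, hσ, e⟩, hmin⟩ := first_hit s.arc.1 (arc_compact ha).isClosed
    ⟨1, ⟨zero_le_one, le_rfl⟩, 0, ⟨le_rfl, zero_le_one⟩, a0⟩
  have h0 : 0 < τ := lt_of_le_of_ne hτ.1 fun h => by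
    have h3 : s.r < ‖a σ‖ := (am σ hσ).2
    rw [e, ← h] at h3
    linarith [s.ini]
  have h1' : σ < 1 := lt_of_le_of_ne hσ.2 fun h => by
    have h3 := f' _ a1
    rw [← h, e] at h3
    linarith [hr τ hτ]
  obtain ⟨b, hb, b0, b1, bm⟩ := arc_sub s.arc le_rfl h0 hτ.2
  obtain ⟨d, hd, d0, d1, dm⟩ := arc_sub ha hσ.1 h1' le_rfl
  have ds : ∀ u ∈ Icc (0 : ℝ) 1, ∃ v ∈ Icc (0 : ℝ) 1, d u = a v := fun u hu => by
    obtain ⟨v, hv, ev, -⟩ := dm u hu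
    exact ⟨v, ⟨hσ.1.trans hv.1, hv.2⟩, ev⟩
  refine ⟨⟨d, T', max M s.r + 1, hd, fun t ht => ?_, hT', s'.trans s.sub, d1 ▸ a1, f', ?_⟩, b, hb,
    b0, by rw [b1, ← e]; exact d0.symm, fun u hu => ?_, fun u hu hu' => ?_, fun t ht => ?_, hr,
    by simp⟩
  · obtain ⟨v, hv, ev⟩ := ds t ht
    exact ev ▸ (am v hv).1
  · rw [d0, e]; exact hr τ hτ
  · obtain ⟨v, hv, ev, -⟩ := bm u hu
    exact ⟨v, ⟨hv.1, hv.2.trans hτ.2⟩, ev.symm⟩
  · obtain ⟨v, hv, ev, hv1⟩ := bm u hu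
    obtain ⟨t, ht, et⟩ := hu'
    obtain ⟨w, hw, ew⟩ := ds t ht
    exact hv1 (le_antisymm hv.2 (hmin v ⟨hv.1, hv.2.trans hτ.2⟩
      ⟨w, hw, by rw [← ew, ← ev]; exact et⟩))
  · obtain ⟨v, hv, ev⟩ := ds t ht
    show s.r < ‖d t‖
    exact ev ▸ (am v hv).2

end T4

theorem sRay_of (h1 : S_Arc) (h2 : S_Tail) : S_Ray := by
  intro C O hC hO hs
  obtain ⟨x, hx⟩ : C.Nonempty := nonempty_iff_ne_empty.2 fun h => hC.2.2 (h ▸ isBounded_empty)
  obtain ⟨T, a, hT, s', f', ha, a0, a1, am⟩ := exists_far h1 h2 hC hO hs hx (lt_add_one ‖x‖)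
  choose F B hB b0 b1 bs bd hf hn hr using step h1 h2 hO
  let s : ℕ → St O := fun n =>
    F^[n] ⟨a, T, ‖x‖ + 1, ha, am, hT, s'.trans hs, a1, f', by rw [a0]; exact lt_add_one _⟩
  have hs1 : ∀ n, s (n + 1) = F (s n) := fun n => Function.iterate_succ_apply' F n _
  have hadd : ∀ n k : ℕ, (s n).r + k ≤ (s (n + k)).r := fun n k => by
    induction k with
    | zero => simp
    | succ k ih =>
      rw [← add_assoc, hs1]
      push_cast
      linarith [hr (s (n + k))]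
  refine (exists_concat (b := fun n => B (s n)) (fun n => hB _)
    (fun n => by rw [b1, b0, hs1]) (fun n m hnm u hu t ht e => ?_) fun R => ?_).imp
    fun γ hγ => ⟨hγ.1, fun t ht => ?_⟩
  rotate_left 2
  · obtain ⟨n, u, hu, e⟩ := hγ.2 t ht
    obtain ⟨v, hv, ev⟩ := bs (s n) u hu
    rw [e, ← ev]
    exact (s n).mem v hv
  · obtain ⟨k, rfl⟩ := Nat.exists_eq_add_of_lt hnm
    have hu' := Ico_subset_Icc_self hu
    have m1 := bs (s (n + k + 1)) t (Ico_subset_Icc_self ht)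
    rcases k with _ | k
    · rw [← e, add_zero, hs1] at m1
      exact hu.2.ne (bd _ u hu' m1)
    · obtain ⟨v, hv, ev⟩ := bs (s n) u hu'
      obtain ⟨w, hw, ew⟩ := m1
      have i1 := hn (s n) v hv
      have i2 := hf (s (n + (k + 1))) w hw
      rw [← hs1] at i1 i2
      have i3 := hadd (n + 1) k
      rw [show n + 1 + k = n + (k + 1) by ring] at i3
      rw [ew, ← e, ← ev] at i2
      linarith [(Nat.cast_nonneg k : (0 : ℝ) ≤ k)]
  · obtain ⟨N, hN⟩ := exists_nat_ge (R - (s 0).r)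
    filter_upwards [eventually_gt_atTop N] with n hn' t ht
    obtain ⟨k, rfl⟩ := Nat.exists_eq_add_of_lt hn'
    obtain ⟨w, hw, ew⟩ := bs (s (N + k + 1)) t ht
    have i2 := hf (s (N + k)) w hw
    rw [← hs1, ew] at i2
    have i3 := hadd 0 (N + k)
    rw [zero_add] at i3
    push_cast at i3
    linarith [(Nat.cast_nonneg k : (0 : ℝ) ≤ k)]

namespace T4

lemma convex_box {s t : Set ℝ} (hs : Convex ℝ s) (ht : Convex ℝ t) : Convex ℝ (s ×ℂ t) :=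
  (hs.linear_preimage reLm).inter (ht.linear_preimage imLm)

/-- three sides of a rectangle -/
def cup (x₀ x₁ h y : ℝ) : Set ℂ :=
  ({x₀} ×ℂ uIcc h y ∪ Icc x₀ x₁ ×ℂ {y}) ∪ {x₁} ×ℂ uIcc h y

lemma cup_compact (x₀ x₁ h y : ℝ) : IsCompact (cup x₀ x₁ h y) :=
  ((isCompact_singleton.reProdIm isCompact_uIcc).union
    (isCompact_Icc.reProdIm isCompact_singleton)).union
    (isCompact_singleton.reProdIm isCompact_uIcc)

lemma cup_preconn {x₀ x₁ : ℝ} (hx : x₀ ≤ x₁) (h y : ℝ) : IsPreconnected (cup x₀ x₁ h y) := by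
  refine IsPreconnected.union (x₁ + y * I) (Or.inr ?_) ?_
    (IsPreconnected.union (x₀ + y * I) ?_ ?_
      (convex_box (convex_singleton _) (convex_uIcc _ _)).isPreconnected
      (convex_box (convex_Icc _ _) (convex_singleton _)).isPreconnected)
    (convex_box (convex_singleton _) (convex_uIcc _ _)).isPreconnected <;>
  simp [mem_reProdIm, hx]

lemma left_mem_cup (x₀ x₁ h y : ℝ) : (x₀ + h * I : ℂ) ∈ cup x₀ x₁ h y :=
  Or.inl (Or.inl (by simp [mem_reProdIm]))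

lemma right_mem_cup (x₀ x₁ h y : ℝ) : (x₁ + h * I : ℂ) ∈ cup x₀ x₁ h y :=
  Or.inr (by simp [mem_reProdIm])

lemma mem_cup {x₀ x₁ h y : ℝ} (hx : x₀ ≤ x₁) {z : ℂ} : z ∈ cup x₀ x₁ h y ↔
    x₀ ≤ z.re ∧ z.re ≤ x₁ ∧ z.im ∈ uIcc h y ∧ (z.re = x₀ ∨ z.re = x₁ ∨ z.im = y) := by
  simp only [cup, mem_union, mem_reProdIm, mem_singleton_iff, mem_Icc]
  constructor
  · rintro ((⟨a, b⟩ | ⟨⟨a, a'⟩, b⟩) | ⟨a, b⟩)
    · exact ⟨a.ge, a.le.trans hx, b, Or.inl a⟩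
    · exact ⟨a, a', b ▸ right_mem_uIcc, Or.inr (Or.inr b)⟩
    · exact ⟨hx.trans a.ge, a.le, b, Or.inr (Or.inl a)⟩
  · rintro ⟨a, b, c, d | d | d⟩
    · exact Or.inl (Or.inl ⟨d, c⟩)
    · exact Or.inr ⟨d, c⟩
    · exact Or.inl (Or.inr ⟨⟨a, b⟩, d⟩)

lemma ev_seg {K A : Set ℂ} (hK : IsCompact K) (hA : IsClosed A) (hd : ∀ z ∈ K, z ∉ A) (c : ℂ) :
    ∀ᶠ μ : ℝ in 𝓝 1, ∀ z ∈ K, seg c z μ ∉ A := by
  refine hK.eventually_forall_of_forall_eventually fun z hz => ?_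
  have hc : Continuous fun q : ℝ × ℂ => seg c q.2 q.1 := by unfold seg; fun_prop
  exact hc.continuousAt.eventually_mem (hA.isOpen_compl.mem_nhds (by
    simpa only [seg_one, mem_compl_iff] using hd z hz))

lemma seg_open {x₀ x₁ y₀ y₁ μ : ℝ} {c z : ℂ} (hc : c ∈ Ioo x₀ x₁ ×ℂ Ioo y₀ y₁)
    (hz : z ∈ Icc x₀ x₁ ×ℂ Icc y₀ y₁) (h0 : 0 ≤ μ) (h1 : μ < 1) :
    seg c z μ ∈ Ioo x₀ x₁ ×ℂ Ioo y₀ y₁ := by
  obtain ⟨⟨a1, a2⟩, a3, a4⟩ := hc
  obtain ⟨⟨b1, b2⟩, b3, b4⟩ := hz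
  have e1 : (seg c z μ).re = (1 - μ) * c.re + μ * z.re := by simp [seg]; ring
  have e2 : (seg c z μ).im = (1 - μ) * c.im + μ * z.im := by simp [seg]; ring
  have hp : 0 < 1 - μ := sub_pos.2 h1
  rw [mem_reProdIm, e1, e2]
  refine ⟨⟨?_, ?_⟩, ?_, ?_⟩
  · nlinarith [mul_pos hp (sub_pos.2 a1), mul_nonneg h0 (sub_nonneg.2 b1)]
  · nlinarith [mul_pos hp (sub_pos.2 a2), mul_nonneg h0 (sub_nonneg.2 b2)]
  · nlinarith [mul_pos hp (sub_pos.2 a3), mul_nonneg h0 (sub_nonneg.2 b3)]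
  · nlinarith [mul_pos hp (sub_pos.2 a4), mul_nonneg h0 (sub_nonneg.2 b4)]

lemma seg_seg (c p : ℂ) (l t : ℝ) : seg p (seg c p l) t = seg c p (1 - t * (1 - l)) := by
  simp only [seg]; push_cast; ring

lemma seg_rev (a b : ℂ) (t : ℝ) : seg a b t = seg b a (1 - t) := by
  simp only [seg]; push_cast; ring

end T4

theorem sBox_of (h1 : S_Jan) (h2 : S_Arc) : S_Box := by
  intro x₀ x₁ y₀ y₁ h A B hx hy0 hy1 hA hB hd hb
  set p₀ : ℂ := x₀ + h * I with hp0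
  set p₁ : ℂ := x₁ + h * I with hp1
  set c : ℂ := ((x₀ + x₁) / 2 : ℝ) + h * I with hc
  set Q := Icc x₀ x₁ ×ℂ Icc y₀ y₁ with hQ
  set Q' := Ioo x₀ x₁ ×ℂ Ioo y₀ y₁ with hQ'
  have cQ : c ∈ Q' := by
    simp only [hQ', hc, mem_reProdIm, mem_Ioo, add_re, ofReal_re, mul_re, I_re, I_im, ofReal_im,
      add_im, mul_im]
    refine ⟨⟨?_, ?_⟩, ?_, ?_⟩ <;> linarith
  have hQc : IsCompact Q := isCompact_Icc.reProdIm isCompact_Icc
  have hQo : IsOpen Q' := isOpen_Ioo.reProdIm isOpen_Ioo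
  have QQ : Q' ⊆ Q := fun z hz => ⟨Ioo_subset_Icc_self hz.1, Ioo_subset_Icc_self hz.2⟩
  set U := cup x₀ x₁ h y₁ with hU
  set L := cup x₀ x₁ h y₀ with hL
  have mU : ∀ z ∈ U, z ∈ Q ∧ z ∉ Q' ∧ z ∉ A := fun z hz => by
    obtain ⟨a, b, c, d⟩ := (mem_cup hx.le).1 hz
    rw [uIcc_of_le hy1.le] at c
    refine ⟨⟨⟨a, b⟩, hy0.le.trans c.1, c.2⟩, fun ⟨⟨e1, e2⟩, _, e4⟩ => ?_,
      (hb z a b (hy0.le.trans c.1) c.2 (by tauto)).1 c.1⟩
    rcases d with d | d | d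
    exacts [e1.ne' d, e2.ne d, e4.ne d]
  have mL : ∀ z ∈ L, z ∈ Q ∧ z ∉ Q' ∧ z ∉ B := fun z hz => by
    obtain ⟨a, b, c, d⟩ := (mem_cup hx.le).1 hz
    rw [uIcc_of_ge hy0.le] at c
    refine ⟨⟨⟨a, b⟩, c.1, c.2.trans hy1.le⟩, fun ⟨⟨e1, e2⟩, e3, _⟩ => ?_,
      (hb z a b c.1 (c.2.trans hy1.le) (by tauto)).2 c.2⟩
    rcases d with d | d | d
    exacts [e1.ne' d, e2.ne d, e3.ne' d]
  have bd : ∀ z ∈ Q, z ∉ U ∪ L → z ∈ Q' := fun z hz hn => by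
    obtain ⟨⟨a, b⟩, c, d⟩ := hz
    rw [mem_union, not_or, mem_cup hx.le, mem_cup hx.le, uIcc_of_le hy1.le, uIcc_of_ge hy0.le]
      at hn
    rcases le_total h z.im with e | e
    · have : ¬ (z.re = x₀ ∨ z.re = x₁ ∨ z.im = y₁) := fun f => hn.1 ⟨a, b, ⟨e, d⟩, f⟩
      push Not at this
      exact ⟨⟨lt_of_le_of_ne a this.1.symm, lt_of_le_of_ne b this.2.1⟩, hy0.trans_le e,
        lt_of_le_of_ne d this.2.2⟩
    · have : ¬ (z.re = x₀ ∨ z.re = x₁ ∨ z.im = y₀) := fun f => hn.2 ⟨a, b, ⟨c, e⟩, f⟩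
      push Not at this
      exact ⟨⟨lt_of_le_of_ne a this.1.symm, lt_of_le_of_ne b this.2.1⟩,
        lt_of_le_of_ne c this.2.2.symm, e.trans_lt hy1⟩
  obtain ⟨ε, hε, hev⟩ := Metric.eventually_nhds_iff.1
    ((ev_seg (cup_compact x₀ x₁ h y₁) hA (fun z hz => (mU z hz).2.2) c).and
      (ev_seg (cup_compact x₀ x₁ h y₀) hB (fun z hz => (mL z hz).2.2) c))
  obtain ⟨l, l0, l1, hl⟩ : ∃ l : ℝ, 0 < l ∧ l < 1 ∧ ∀ μ, l ≤ μ → μ ≤ 1 →
      (∀ z ∈ U, seg c z μ ∉ A) ∧ ∀ z ∈ L, seg c z μ ∉ B := by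
    refine ⟨max (1 / 2) (1 - ε / 2), lt_max_of_lt_left one_half_pos,
      max_lt one_half_lt_one (by linarith), fun μ a b => hev ?_⟩
    rw [Real.dist_eq, abs_lt]
    constructor <;> linarith [le_max_right (1 / 2) (1 - ε / 2)]
  have hs : Continuous fun z => seg c z l := by unfold seg; fun_prop
  have nb : ∀ z ∈ Q', z ∉ U ∪ L := fun z hz hn =>
    hn.elim (fun f => (mU z f).2.1 hz) fun f => (mL z f).2.1 hz
  have jo : ∀ (K X : Set ℂ), IsPreconnected K → p₀ ∈ K → p₁ ∈ K → (∀ z ∈ K, z ∈ Q) →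
      (∀ z ∈ K, seg c z l ∉ X) →
      seg c p₁ l ∈ connectedComponentIn (X ∩ Q ∪ (U ∪ L))ᶜ (seg c p₀ l) :=
    fun K X hK m0 m1 hq hX =>
      (hK.image _ hs.continuousOn).subset_connectedComponentIn ⟨_, m0, rfl⟩ (by
        rintro _ ⟨z, hz, rfl⟩ (f | f)
        · exact hX z hz f.1
        · exact nb _ (seg_open cQ (hq z hz) l0.le l1) f) ⟨_, m1, rfl⟩
  have hUL : IsCompact (U ∪ L) := (cup_compact _ _ _ _).union (cup_compact _ _ _ _)
  have cA : IsCompact (A ∩ Q ∪ (U ∪ L)) := (hQc.inter_left hA).union hUL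
  have cB : IsCompact (B ∩ Q ∪ (U ∪ L)) := (hQc.inter_left hB).union hUL
  have u0 : p₀ ∈ U := left_mem_cup _ _ _ _
  have u1 : p₁ ∈ U := right_mem_cup _ _ _ _
  have v0 : p₀ ∈ L := left_mem_cup _ _ _ _
  have v1 : p₁ ∈ L := right_mem_cup _ _ _ _
  have hj := h1 _ _ _ _ cA cB (by
      rw [← inter_union_distrib_right, show A ∩ Q ∩ (B ∩ Q) = ∅ from
        eq_empty_of_forall_notMem fun z hz => Set.disjoint_left.1 hd hz.1.1 hz.2.1, empty_union]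
      exact IsPreconnected.union p₀ u0 v0 (cup_preconn hx.le _ _) (cup_preconn hx.le _ _))
    (jo U A (cup_preconn hx.le _ _) u0 u1 (fun z hz => (mU z hz).1) (hl l le_rfl l1.le).1)
    (jo L B (cup_preconn hx.le _ _) v0 v1 (fun z hz => (mL z hz).1) (hl l le_rfl l1.le).2)
  set V := connectedComponentIn (A ∩ Q ∪ (U ∪ L) ∪ (B ∩ Q ∪ (U ∪ L)))ᶜ (seg c p₀ l) with hV
  have Vs : V ⊆ (A ∩ Q ∪ (U ∪ L) ∪ (B ∩ Q ∪ (U ∪ L)))ᶜ := connectedComponentIn_subset _ _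
  have aV : seg c p₀ l ∈ V :=
    mem_connectedComponentIn (connectedComponentIn_nonempty_iff.1 ⟨_, hj⟩)
  have VQ : V ⊆ Q' := isPreconnected_connectedComponentIn.subset_left_of_subset_union (v := Qᶜ)
    hQo hQc.isClosed.isOpen_compl (disjoint_compl_right.mono_left QQ)
    (fun z hz => by
      by_cases q : z ∈ Q
      · exact Or.inl (bd z q fun f => Vs hz (Or.inl (Or.inr f)))
      · exact Or.inr q)
    ⟨_, aV, seg_open cQ (mU _ u0).1 l0.le l1⟩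
  have p01 : p₀ ≠ p₁ := fun e => hx.ne (by simpa [hp0, hp1] using congrArg re e)
  have hab : seg c p₀ l ≠ seg c p₁ l := fun e => p01 (sub_left_inj.1
    (mul_left_cancel₀ (ofReal_ne_zero.2 l0.ne') (add_left_cancel e)))
  obtain ⟨β, hβ, b0, b1, bm⟩ := h2 V _ _ (cA.union cB).isClosed.isOpen_compl.connectedComponentIn
    isPreconnected_connectedComponentIn aV hj hab
  have n0 : ∀ z ∈ Q', p₀ ≠ z := fun z hz e => (mU _ u0).2.1 (e ▸ hz)
  have n1 : ∀ z ∈ Q', p₁ ≠ z := fun z hz e => (mU _ u1).2.1 (e ▸ hz)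
  have good : ∀ p, p ∈ U → p ∈ L → ∀ t ∈ Icc (0 : ℝ) 1, (seg p (seg c p l) t ∉ A ∧
      seg p (seg c p l) t ∉ B) ∧ (seg p (seg c p l) t = p ∨ seg p (seg c p l) t ∈ Q') :=
    fun p hu hv t ht => by
    have i1 : l ≤ 1 - t * (1 - l) := by nlinarith [ht.2]
    have i2 : 0 ≤ t * (1 - l) := mul_nonneg ht.1 (by linarith)
    rw [seg_seg]
    refine ⟨⟨(hl _ i1 (by linarith)).1 p hu, (hl _ i1 (by linarith)).2 p hv⟩, ?_⟩
    rcases i2.eq_or_lt with e | e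
    · left; rw [← e, sub_zero, seg_one]
    · exact Or.inr (seg_open cQ (mU _ hu).1 (by linarith) (by linarith))
  obtain ⟨γ, hγ, g0, g1, gm⟩ := splice (arc_seg (n0 _ (VQ aV))) hβ
    ⟨1, ⟨zero_le_one, le_rfl⟩, 0, ⟨le_rfl, zero_le_one⟩, by rw [b0, seg_one]⟩
    (by rw [seg_zero, b1]; exact n0 _ (VQ hj))
  obtain ⟨δ, hδ, d0, d1, dm⟩ := splice hγ (arc_seg (n1 _ (VQ hj)).symm)
    ⟨1, ⟨zero_le_one, le_rfl⟩, 0, ⟨le_rfl, zero_le_one⟩, by rw [g1, b1, seg_zero]⟩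
    (by rw [g0, seg_zero, seg_one]; exact p01)
  rw [g0, seg_zero] at d0
  rw [seg_one] at d1
  have all : ∀ t ∈ Icc (0 : ℝ) 1, (δ t ∉ A ∧ δ t ∉ B) ∧ (δ t = p₀ ∨ δ t = p₁ ∨ δ t ∈ Q') :=
    fun t ht => by
    rcases dm t ht with ⟨u, hu, e⟩ | ⟨u, hu, e⟩
    · rcases gm u hu with ⟨v, hv, e'⟩ | ⟨v, hv, e'⟩
      · rw [← e, ← e']
        exact ⟨(good _ u0 v0 v hv).1, (good _ u0 v0 v hv).2.imp_right Or.inr⟩
      · rw [← e, ← e']
        have m := bm v hv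
        exact ⟨⟨fun f => Vs m (Or.inl (Or.inl ⟨f, QQ (VQ m)⟩)),
          fun f => Vs m (Or.inr (Or.inl ⟨f, QQ (VQ m)⟩))⟩, Or.inr (Or.inr (VQ m))⟩
    · rw [← e, seg_rev]
      have hu' : 1 - u ∈ Icc (0 : ℝ) 1 := ⟨by linarith [hu.2], by linarith [hu.1]⟩
      exact ⟨(good _ u1 v1 _ hu').1, Or.inr (good _ u1 v1 _ hu').2⟩
  refine ⟨δ, hδ, d0, d1, fun t ht => ?_, fun t ht => (all t ht).1⟩
  have ht' := Ioo_subset_Icc_self ht
  rcases (all t ht').2 with e | e | e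
  · exact absurd (hδ.2 ht' ⟨le_rfl, zero_le_one⟩ (e.trans d0.symm)) ht.1.ne'
  · exact absurd (hδ.2 ht' ⟨zero_le_one, le_rfl⟩ (e.trans d1.symm)) ht.2.ne
  · exact ⟨e.1.1, e.1.2, e.2.1, e.2.2⟩

theorem sRL_of (h1 : S_Exh) (h2 : S_Tail) (h3 : S_Ray) (h4 : S_Box) : S_RL := by
  intro ψ x₀ b hψ hb
  set S : Set ℂ := {z | x₀ ≤ z.re ∧ 0 ≤ z.im ∧ z.im ≤ 1} with hS
  have cS : IsClosed S := (isClosed_le continuous_const continuous_re).inter
    ((isClosed_le continuous_const continuous_im).inter (isClosed_le continuous_im continuous_const))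
  have lo : ∀ z : ℂ, x₀ ≤ z.re → z.im = 0 → ψ z < b := fun z hz e => by
    have := (hb _ hz).1
    rwa [show (z.re : ℂ) = z from Complex.ext (by simp) (by simp [e])] at this
  have hi : ∀ z : ℂ, x₀ ≤ z.re → z.im = 1 → b < ψ z := fun z hz e => by
    have := (hb _ hz).2
    rwa [show (z.re : ℂ) + I = z from Complex.ext (by simp) (by simp [e])] at this
  have cF : IsClosed (S ∩ ψ ⁻¹' {b}) := hψ.preimage_isClosed_of_isClosed cS isClosed_singleton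
  obtain ⟨x, -, hx⟩ : ∃ x ∈ S ∩ ψ ⁻¹' {b},
      ¬ IsBounded (connectedComponentIn (S ∩ ψ ⁻¹' {b}) x) := by
    by_contra hn
    push Not at hn
    obtain ⟨U, hU, bU, sU, dU⟩ := h1 _ ({x₀} ×ℂ Icc 0 1) cF hn
      (isCompact_singleton.reProdIm isCompact_Icc)
    obtain ⟨M, hM⟩ := bU.closure.exists_norm_le
    have far : ∀ z : ℂ, z.re = max x₀ M + 1 → z ∉ closure U := fun z e hz => by
      linarith [hM z hz, re_le_norm z, le_max_right x₀ M]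
    obtain ⟨α, hα, a0, a1, am, an⟩ := h4 x₀ (max x₀ M + 1) 0 1 (1 / 2)
      (frontier U ∩ (S ∩ ψ ⁻¹' Iic b)) (frontier U ∩ (S ∩ ψ ⁻¹' Ici b))
      (by linarith [le_max_left x₀ M]) one_half_pos one_half_lt_one
      (isClosed_frontier.inter (hψ.preimage_isClosed_of_isClosed cS isClosed_Iic))
      (isClosed_frontier.inter (hψ.preimage_isClosed_of_isClosed cS isClosed_Ici))
      (Set.disjoint_left.2 fun z hz hz' => Set.disjoint_left.1 dU hz.1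
        ⟨hz.2.1, le_antisymm hz.2.2 hz'.2.2⟩)
      (fun z e1 _ e3 e4 e5 => by
        have nf : z.re = x₀ ∨ z.re = max x₀ M + 1 → z ∉ frontier U := fun e f =>
          e.elim (fun e => (hU.frontier_eq ▸ f).2 (sU ⟨e, e3, e4⟩))
            fun e => far z e (frontier_subset_closure f)
        rcases e5 with e | e | e | e
        · exact ⟨fun _ f => nf (Or.inl e) f.1, fun _ f => nf (Or.inl e) f.1⟩
        · exact ⟨fun _ f => nf (Or.inr e) f.1, fun _ f => nf (Or.inr e) f.1⟩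
        · exact ⟨fun g => by linarith, fun _ f => (lo z e1 e).not_ge f.2.2⟩
        · exact ⟨fun _ f => (hi z e1 e).not_ge f.2.2, fun g => by linarith⟩)
    have m0 : α 0 ∈ U := sU (by rw [a0]; simp [mem_reProdIm]; norm_num)
    have m1 : α 1 ∉ closure U := far _ (by rw [a1]; simp)
    obtain ⟨_, ⟨t, ht, rfl⟩, hz⟩ := meets_frontier (isPreconnected_Icc.image _ hα.1.continuousOn)
      hU ⟨0, ⟨le_rfl, zero_le_one⟩, rfl⟩ m0 ⟨1, ⟨zero_le_one, le_rfl⟩, rfl⟩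
      fun f => m1 (subset_closure f)
    have t0 : 0 < t := lt_of_le_of_ne ht.1 fun e => (hU.frontier_eq ▸ hz).2 (e ▸ m0)
    have t1 : t < 1 := lt_of_le_of_ne ht.2 fun e => m1 (e ▸ frontier_subset_closure hz)
    obtain ⟨q1, -, q3, q4⟩ := am t ⟨t0, t1⟩
    rcases le_total (ψ (α t)) b with e | e
    · exact (an t ht).1 ⟨hz, ⟨q1.le, q3.le, q4.le⟩, e⟩
    · exact (an t ht).2 ⟨hz, ⟨q1.le, q3.le, q4.le⟩, e⟩
  obtain ⟨T, hT, sT, fT⟩ := h2 _ (|x₀| + 2)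
    ⟨isClosed_cc cF x, isPreconnected_connectedComponentIn, hx⟩
  set S' : Set ℂ := {z | x₀ < z.re ∧ 0 < z.im ∧ z.im < 1} with hS'
  have oS : IsOpen S' := (isOpen_lt continuous_const continuous_re).inter
    ((isOpen_lt continuous_const continuous_im).inter (isOpen_lt continuous_im continuous_const))
  have cc : ContinuousOn (fun z : ℂ => |ψ z - b| * (1 + ‖z‖)) S' :=
    (((hψ.mono fun z hz => ⟨hz.1.le, hz.2.1.le, hz.2.2.le⟩).sub continuousOn_const).abs).mul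
      (by fun_prop)
  obtain ⟨γ, hγ, gm⟩ := h3 T _ hT (cc.isOpen_inter_preimage oS (isOpen_Iio (a := 1)))
    fun z hz => by
      obtain ⟨⟨a1, a2, a3⟩, a4⟩ := connectedComponentIn_subset _ _ (sT hz)
      have a5 : ψ z = b := a4
      refine ⟨⟨lt_of_le_of_ne a1 fun e => ?_, lt_of_le_of_ne a2 fun e => (lo z a1 e.symm).ne a5,
        lt_of_le_of_ne a3 fun e => (hi z a1 e).ne' a5⟩, by simp [a5]⟩
      have := norm_le_abs_re_add_abs_im z
      rw [← e, abs_of_nonneg a2] at this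
      linarith [fT z hz]
  refine ⟨γ, hγ, fun t ht => (gm t ht).1, ?_⟩
  rw [tendsto_iff_norm_sub_tendsto_zero]
  refine squeeze_zero' (Eventually.of_forall fun _ => norm_nonneg _) ?_
    (tendsto_inv_atTop_zero.comp (tendsto_atTop_add_const_left _ 1 hγ.2.2))
  filter_upwards [eventually_ge_atTop 0] with t ht
  have a1 : |ψ (γ t) - b| * (1 + ‖γ t‖) < 1 := (gm t ht).2
  rw [Function.comp_apply, Real.norm_eq_abs, ← one_div, le_div_iff₀ (by positivity)]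
  exact a1.le

end

end Pool.Agent.Lib.MP_d32f96_gt
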