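import Pool.Agent.Lib.MP_d32f96_gt.Main
import Pool.Agent.Lib.MP_d32f96_gt.T1
import Pool.Agent.Lib.MP_d32f96_gt.T2
import Pool.Agent.Lib.MP_d32f96_gt.T3
import Pool.Agent.Lib.MP_d32f96_gt.T4
import Pool.Agent.Lib.MP_d32f96_gt.C1x
import Pool.Agent.Lib.MP_d32f96_gt.C2
import Pool.Agent.Lib.MP_d32f96_gt.E
import Pool.Agent.Lib.MP_d32f96_gt.F1
import Pool.Agent.Lib.MP_d32f96_gt.F2
import Pool.Agent.Lib.MP_d32f96_gt.K01
import Pool.Agent.Lib.MP_d32f96_gt.K2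
import Pool.Agent.Lib.MP_d32f96_gt.K3
import Pool.Agent.Lib.MP_d32f96_gt.L13
import Pool.Agent.Lib.MP_d32f96_gt.L2
import Pool.Agent.Lib.MP_d32f96_gt.L4
import Pool.Agent.Lib.MP_d32f96_gt.L5
import Pool.Agent.Lib.MP_d32f96_gt.H1
import Pool.Agent.Lib.MP_d32f96_gt.H2
import Pool.Agent.Lib.MP_d32f96_gt.I
import Pool.Agent.Lib.MP_d32f96_gt.J01
import Pool.Agent.Lib.MP_d32f96_gt.J2
import Pool.Agent.Lib.MP_d32f96_gt.M1
import Pool.Agent.Lib.MP_d32f96_gt.M2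
import Pool.Agent.Lib.MP_d32f96_gt.N1
import Pool.Agent.Lib.MP_d32f96_gt.N2
import Pool.Agent.Lib.MP_d32f96_gt.N3
import Pool.Agent.Lib.MP_d32f96_gt.G

/-! All modules put together. -/

namespace Pool.Agent.Lib.MP_d32f96_gt

theorem tHD : S_HD := sHD_of sLogOut_of
theorem tLogC : S_LogC := sLogC_of tHD
theorem tJCT : S_JCT := sJCT_of sLogPair_of tHD
theorem tRay : S_Ray := sRay_of sArc_of sTail_of
theorem tBox : S_Box := sBox_of sJan_of sArc_of
theorem tRL : S_RL := sRL_of sExh_of sTail_of tRay tBox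
theorem tRMT : S_RMT := xRMT_of tLogC
theorem tJS : S_JS := xJS_of tRMT xExtC_of
theorem tUnif : S_Unif := sUnif_of xExtC_of
theorem tSP : S_SP := sSP_of tRMT tJCT sJan_of sLogOut_of
theorem tCS : S_CS := sCS_of tSP sLogOut_of
theorem tLine : S_Line := sLine_of tSP
theorem tL4 : S_L4 := sL4_of (sL1_of tRL) (sL2_of tCS sArc_of) (sL3_of tRL sArc_of tLine)
theorem tH : S_H := sH_of sCirc_of sPolar_of (sH2_of sPolar_of)
theorem tCT : S_CT := sCT_of (sK0_of sLogOut_of) (sK1_of sX_of) sK2_of sK3_of tL4 sL5_of tH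
theorem tN : S_N := sN_of (sN1_of tJS sDT_of) (sN2_of tBox tCS) sCirc_of sPolar_of

/-- every commuting pair is in the component of one of the spiral models -/
theorem conn_model (f g : H) (h : (f, g) ∈ Hom) : ∃ j : ℤ, Conn (f, g) (dbl, twist j) :=
  main_of tCT (sI_of tUnif tCT) sJ0_of (sJC_of sLim_of) (sJ1_of sLim_of)
    (sJ2_of sLim_of tRay sNA_of) (sM1_of tJS sDT_of sCirc_of sPolar_of) sM2_of sAff_of tN h

theorem froz_preconnected (k : ℤ) : IsPreconnected (Froz k) :=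
  final_of sG1_of sG2_of conn_model k

end Pool.Agent.Lib.MP_d32f96_gt
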