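import Pool.Agent.Lib.MP_d32f96_gt.Frame

/-! Riemann map for bounded domains with connected complement; discs between sets. -/

namespace Pool.Agent.Lib.MP_d32f96_gt

open Set Filter Topology Metric Complex Bornology
open Pool.Agent.Lib.MP_1e9af3_an Pool.Agent.Lib.MP_069d55_gt

noncomputable section

namespace C1

/-- nonvanishing continuous functions on `U` have square roots -/
def Sq (U : Set ℂ) : Prop := ∀ u : ℂ → ℂ, ContinuousOn u U → (∀ z ∈ U, u z ≠ 0) →
  ∃ s : ℂ → ℂ, ContinuousOn s U ∧ ∀ z, s z ^ 2 = u z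

lemma improve {U : Set ℂ} (hU : IsOpen U) (hs : Sq U) {z₀ : ℂ} (hz₀ : z₀ ∈ U)
    {g : ℂ → ℂ} (hg : MP_069d55_gt.Fam U z₀ g) {w : ℂ} (hw : ‖w‖ < 1) (hn : w ∉ g '' U) :
    ∃ G, MP_069d55_gt.Fam U z₀ G ∧ ‖deriv g z₀‖ < ‖deriv G z₀‖ := by
  have hw0 : w ≠ 0 := fun h => hn ⟨z₀, hz₀, by rw [hg.zero, h]⟩
  set u : ℂ → ℂ := fun z => mob w (g z) with hu
  have hud : ∀ z ∈ U, HasDerivAt u
      ((1 - (starRingEnd ℂ) w * w) / (1 - (starRingEnd ℂ) w * g z) ^ 2 * deriv g z) z :=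
    fun z hz => (hasDerivAt_mob hw (hg.maps z hz)).comp z
      (hg.diff.differentiableAt (hU.mem_nhds hz)).hasDerivAt
  have huc : ContinuousOn u U := fun z hz => (hud z hz).continuousAt.continuousWithinAt
  have hu0 : ∀ z ∈ U, u z ≠ 0 := fun z hz h => hn ⟨z, hz, mob_eq_zero hw (hg.maps z hz) h⟩
  obtain ⟨s, hsc, hs2⟩ := hs u huc hu0
  have hs0 : ∀ z ∈ U, s z ≠ 0 := fun z hz h => hu0 z hz (by rw [← hs2, h]; simp)
  have hs1 : ∀ z ∈ U, ‖s z‖ < 1 := fun z hz => by
    have : ‖s z‖ ^ 2 < 1 := by rw [← norm_pow, hs2]; exact norm_mob_lt hw (hg.maps z hz)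
    nlinarith [norm_nonneg (s z)]
  have hsd : ∀ z ∈ U, ∀ d, HasDerivAt u d z → HasDerivAt s (d / (2 * s z)) z := by
    intro z hz d hd
    have hc : ContinuousAt s z := hsc.continuousAt (hU.mem_nhds hz)
    rw [hasDerivAt_iff_tendsto_slope] at hd ⊢
    have h2 : Tendsto (fun y => s y + s z) (𝓝[≠] z) (𝓝 (2 * s z)) := by
      rw [two_mul]
      exact (hc.tendsto.add_const _).mono_left nhdsWithin_le_nhds
    have hne : 2 * s z ≠ 0 := mul_ne_zero two_ne_zero (hs0 z hz)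
    refine (hd.div h2 hne).congr' ?_
    filter_upwards [h2.eventually_ne hne, self_mem_nhdsWithin] with y hy hyz
    simp only [slope_def_field, Pi.div_apply]
    have hyz' : y - z ≠ 0 := sub_ne_zero.2 hyz
    rw [← hs2 y, ← hs2 z, div_div, div_eq_div_iff (mul_ne_zero hyz' hy) hyz']
    ring
  set s₀ := s z₀ with hs₀
  have hs₀1 := hs1 z₀ hz₀
  refine ⟨fun z => mob s₀ (s z), ⟨fun z hz => ?_, fun z hz y hy h => ?_, fun z hz =>
    norm_mob_lt hs₀1 (hs1 z hz), by simp [mob, hs₀]⟩, ?_⟩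
  · exact ((hasDerivAt_mob hs₀1 (hs1 z hz)).comp z
      (hsd z hz _ (hud z hz))).differentiableAt.differentiableWithinAt
  · have h1 := mob_inj hs₀1 (hs1 z hz) (hs1 y hy) h
    have h2 : u z = u y := by rw [← hs2, ← hs2, h1]
    exact hg.inj hz hy (mob_inj hw (hg.maps z hz) (hg.maps y hy) h2)
  · have hD := ((hasDerivAt_mob hs₀1 hs₀1).comp z₀ (hsd z₀ hz₀ _ (hud z₀ hz₀))).deriv
    have hD' : deriv (fun z => mob s₀ (s z)) z₀ = _ := hD
    rw [hD', hg.zero, one_sub_conj_mul, one_sub_conj_mul]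
    have hg' : 0 < ‖deriv g z₀‖ :=
      norm_pos_iff.2 (deriv_ne_zero_of_injOn hU hg.diff hg.inj hz₀)
    have hsq : ‖s₀‖ ^ 2 = ‖w‖ := by
      rw [← norm_pow, hs₀, hs2]; simp [hu, mob, hg.zero]
    have ht : 0 < ‖s₀‖ := norm_pos_iff.2 (hs0 z₀ hz₀)
    have h1 : 0 < 1 - ‖s₀‖ ^ 2 := by nlinarith
    have h2 : 0 < 1 - ‖w‖ ^ 2 := by nlinarith [norm_nonneg w]
    simp only [mul_zero, sub_zero, one_pow, div_one, norm_mul, norm_div, norm_pow,
      Complex.norm_real, Real.norm_eq_abs, abs_of_pos h2, Complex.norm_ofNat]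
    rw [← hs₀, ← hsq]
    set t := ‖s₀‖
    have : (1 - t ^ 2) / (1 - t ^ 2) ^ 2 * ((1 - (t ^ 2) ^ 2) * ‖deriv g z₀‖ / (2 * t))
        = (1 + t ^ 2) / (2 * t) * ‖deriv g z₀‖ := by
      field_simp; ring
    rw [abs_of_pos h1, this]
    have h3 : 1 < (1 + t ^ 2) / (2 * t) := by
      rw [one_lt_div (by positivity)]; nlinarith
    nlinarith

/-- Riemann mapping theorem for a bounded domain with square roots. -/
theorem riem {U : Set ℂ} (hU : IsOpen U) (hs : Sq U) (hc : IsPreconnected U)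
    (hb : Bornology.IsBounded U) {z₀ : ℂ} (hz₀ : z₀ ∈ U) :
    ∃ g : ℂ → ℂ, DifferentiableOn ℂ g U ∧ InjOn g U ∧ g '' U = ball 0 1 ∧ g z₀ = 0 := by
  obtain ⟨R, hR0, hR⟩ : ∃ R, 0 < R ∧ U ⊆ ball z₀ R := by
    obtain ⟨R, hR⟩ := hb.subset_ball z₀
    exact ⟨R, pos_of_mem_ball (hR hz₀), hR⟩
  obtain ⟨r, hr0, hr⟩ := Metric.isOpen_iff.1 hU z₀ hz₀
  have hR' : (R : ℂ) ≠ 0 := by exact_mod_cast hR0.ne'
  have f0 : MP_069d55_gt.Fam U z₀ fun z => (z - z₀) / R :=
    ⟨by fun_prop, fun z _ w _ h => by simpa [div_left_inj' hR'] using h, fun z hz => by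
      have := hR hz
      rw [mem_ball, dist_eq_norm] at this
      rw [norm_div, Complex.norm_real, Real.norm_of_nonneg hR0.le, div_lt_one hR0]; exact this,
      by simp⟩
  set D : Set ℝ := {x | ∃ g, MP_069d55_gt.Fam U z₀ g ∧ ‖deriv g z₀‖ = x} with hD
  have hne : D.Nonempty := ⟨_, _, f0, rfl⟩
  have hbd : BddAbove D := ⟨2 * 1 / r, by
    rintro _ ⟨g, hg, rfl⟩
    exact deriv_le_of_bdd hr0 (hg.diff.mono hr) fun z hz => (hg.maps z (hr hz)).le⟩
  obtain ⟨x, -, hx, hxD⟩ := exists_seq_tendsto_sSup hne hbd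
  choose F hF hFx using hxD
  obtain ⟨g, hgd, hgl, hgt⟩ := montel (hyperfilter ℕ) hU (fun i => (hF i).diff)
    (fun i z hz => ((hF i).maps z hz).le)
  have hder : ‖deriv g z₀‖ = sSup D := by
    have h1 := ((hgl.deriv (Eventually.of_forall fun i => (hF i).diff) hU).tendsto_at hz₀).norm
    have h2 : Tendsto (fun i => ‖deriv (F i) z₀‖) (hyperfilter ℕ) (𝓝 (sSup D)) := by
      simp only [hFx]
      exact hx.mono_left (hyperfilter_le_cofinite.trans Nat.cofinite_eq_atTop.le)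
    exact tendsto_nhds_unique h1 h2
  have hpos : deriv g z₀ ≠ 0 := by
    rw [← norm_pos_iff, hder]
    exact (norm_pos_iff.2 (deriv_ne_zero_of_injOn hU f0.diff f0.inj hz₀)).trans_le
      (le_csSup hbd ⟨_, f0, rfl⟩)
  have hgi : InjOn g U := hurwitz_inj hU hc (fun i => (hF i).diff) (fun i => (hF i).inj) hgl hz₀ hpos
  have hg1 : g '' U ⊆ closedBall 0 1 := by
    rintro _ ⟨z, hz, rfl⟩
    rw [mem_closedBall_zero_iff]
    exact le_of_tendsto' (hgt z hz).norm fun i => ((hF i).maps z hz).le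
  have hg2 : g '' U ⊆ ball 0 1 := by
    rw [← interior_closedBall (0:ℂ) one_ne_zero]
    exact interior_maximal hg1 (isOpen_image_of_injOn hU hgd hgi hU Subset.rfl)
  have hg0 : g z₀ = 0 := by
    have := hgt z₀ hz₀
    simp only [(hF _).zero] at this
    exact tendsto_nhds_unique this tendsto_const_nhds
  have hG : MP_069d55_gt.Fam U z₀ g := ⟨hgd, hgi, fun z hz => mem_ball_zero_iff.1 (hg2 ⟨z, hz, rfl⟩), hg0⟩
  refine ⟨g, hgd, hgi, hg2.antisymm fun w hw => ?_, hg0⟩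
  by_contra hn
  obtain ⟨G, hG1, hG2⟩ := improve hU hs hz₀ hG (mem_ball_zero_iff.1 hw) hn
  rw [hder] at hG2
  exact absurd (le_csSup hbd ⟨G, hG1, rfl⟩) (not_le.2 hG2)


lemma ext_fun {φ : ℂ → ℂ} {R : ℝ} (hd : DifferentiableOn ℂ φ (ball 0 R)) (hi : InjOn φ (ball 0 R))
    {a : H} {K : Set ℂ} (hK : IsCompact K) (hKR : K ⊆ ball 0 R) (ha : ∀ z, z ∉ K → a z = z) :
    ∃ f : ℂ → ℂ, Continuous f ∧ (∀ z ∈ ball (0 : ℂ) R, f (φ z) = φ (a z)) ∧
      ∀ w, w ∉ φ '' K → f w = w := by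
  classical
  have hs : Supp a (ball 0 R) := ⟨K, hK, hKR, ha⟩
  have hh : ∀ w ∈ ball (0 : ℂ) R, Function.invFunOn φ (ball 0 R) (φ w) = w :=
    fun w hw => hi.leftInvOn_invFunOn hw
  set f : ℂ → ℂ := fun w =>
    if w ∈ φ '' ball 0 R then φ (a (Function.invFunOn φ (ball 0 R) w)) else w with hf
  have h1 : ∀ z ∈ ball (0 : ℂ) R, f (φ z) = φ (a z) := fun z hz => by
    simp only [hf, if_pos (mem_image_of_mem φ hz), hh z hz]
  have h2 : ∀ w, w ∉ φ '' K → f w = w := fun w hw => by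
    by_cases h : w ∈ φ '' ball 0 R
    · obtain ⟨z, hz, rfl⟩ := h
      rw [h1 z hz, ha z fun h => hw (mem_image_of_mem _ h)]
    · simp only [hf, if_neg h]
  refine ⟨f, continuous_iff_continuousAt.2 fun w => ?_, h1, h2⟩
  by_cases hw : w ∈ φ '' K
  · obtain ⟨z, hz, rfl⟩ := hw
    have hz' := hKR hz
    have c1 := continuousAt_inv_of_injOn isOpen_ball hd hi hh hz'
    have c2 : ContinuousAt φ (a (Function.invFunOn φ (ball 0 R) (φ z))) := by
      rw [hh z hz']
      exact hd.continuousOn.continuousAt (isOpen_ball.mem_nhds ((hs.mem_iff z).2 hz'))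
    refine (ContinuousAt.comp (f := fun w => a (Function.invFunOn φ (ball 0 R) w)) c2
      (a.continuous.continuousAt.comp c1)).congr ?_
    filter_upwards [(isOpen_image_of_injOn isOpen_ball hd hi isOpen_ball Subset.rfl).mem_nhds
      (mem_image_of_mem φ hz')] with u hu
    simp only [hf, if_pos hu, Function.comp]
  · refine continuousAt_id.congr ?_
    filter_upwards [(hK.image_of_continuousOn
      (hd.continuousOn.mono hKR)).isClosed.isOpen_compl.mem_nhds hw] with u hu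
    exact (h2 u hu).symm

lemma closed_cc {F : Set ℂ} (hF : IsClosed F) (x : ℂ) : IsClosed (connectedComponentIn F x) := by
  by_cases hx : x ∈ F
  · exact isClosed_of_closure_subset
      (isPreconnected_connectedComponentIn.closure.subset_connectedComponentIn
        (subset_closure (mem_connectedComponentIn hx))
        (closure_minimal (connectedComponentIn_subset _ _) hF))
  · rw [connectedComponentIn_eq_empty hx]; exact isClosed_empty

end C1

theorem sRMT_of (h : S_LogC) : S_RMT := by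
  intro U a hU hb hc hc' ha
  have hY : CCU Uᶜ := ⟨hU.isClosed_compl, hc', fun h => NormedSpace.unbounded_univ ℝ ℂ
    (by simpa using hb.union h)⟩
  have hs : C1.Sq U := fun u hu h0 => by
    classical
    obtain ⟨L, hL, e⟩ := h Uᶜ u hY (by rwa [compl_compl]) (by rwa [compl_compl])
    rw [compl_compl] at hL e
    refine ⟨fun z => if z ∈ U then ee (L z / 2) else u z ^ ((2 : ℕ) : ℂ)⁻¹,
      ContinuousOn.congr (f := fun z => ee (L z / 2))
        (continuous_ee.comp_continuousOn (hL.div_const 2)) fun z hz => if_pos hz, fun z => ?_⟩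
    by_cases hz : z ∈ U
    · simp only [if_pos hz]
      rw [pow_two, ← ee_add, add_halves, e z hz]
    · simp only [if_neg hz]
      exact cpow_nat_inv_pow _ two_ne_zero
  obtain ⟨g, gd, gi, gU, g0⟩ := C1.riem hU hs hc hb ha
  have hh : ∀ w ∈ U, Function.invFunOn g U (g w) = w := fun w hw => gi.leftInvOn_invFunOn hw
  refine ⟨Function.invFunOn g U, ?_, ?_, ?_, by rw [← g0, hh a ha]⟩
  · rw [← gU]
    rintro _ ⟨z, hz, rfl⟩
    exact (inv_analyticAt hU gd gi hh hz).differentiableAt.differentiableWithinAt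
  · rw [← gU]
    rintro _ ⟨z, hz, rfl⟩ _ ⟨w, hw, rfl⟩ e
    rw [hh z hz, hh w hw] at e
    rw [e]
  · rw [← gU, image_image]
    exact (image_congr hh).trans (image_id' U)

theorem sExtC_of : S_ExtC := by
  intro φ r R hd hi hR hr
  have m0 : (0 : ℂ) ∈ ball (0 : ℂ) R := mem_ball_self hR
  obtain ⟨k, hk, he⟩ := germ_conformal (hd.analyticAt (ball_mem_nhds 0 hR))
    (deriv_ne_zero_of_injOn isOpen_ball hd hi m0)
  obtain ⟨ε, hε, hb⟩ := Metric.eventually_nhds_iff_ball.1 he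
  obtain ⟨s, hs, -, hs2⟩ := exists_squeeze (R := r) hε hr hR
  obtain ⟨K, hK, hKR, hKs⟩ := id hs
  obtain ⟨f, fc, f1, f2⟩ := C1.ext_fun hd hi (a := s⁻¹) hK hKR fun z hz => hinv_eq (hKs z hz)
  obtain ⟨g, gc, g1, g2⟩ := C1.ext_fun hd hi (a := s) hK hKR hKs
  have out : ∀ w, w ∉ φ '' ball 0 R → w ∉ φ '' K := fun w h h' => h (image_mono hKR h')
  let A : H := ⟨⟨f, g, fun w => by
    by_cases hw : w ∈ φ '' ball 0 R
    · obtain ⟨z, hz, rfl⟩ := hw
      rw [f1 z hz, g1 _ ((hs.inv.mem_iff z).2 hz), happly_inv]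
    · rw [f2 w (out w hw), g2 w (out w hw)], fun w => by
    by_cases hw : w ∈ φ '' ball 0 R
    · obtain ⟨z, hz, rfl⟩ := hw
      rw [g1 z hz, f1 _ ((hs.mem_iff z).2 hz), hinv_apply]
    · rw [g2 w (out w hw), f2 w (out w hw)]⟩, fc, gc⟩
  have hA : Supp A univ :=
    ⟨φ '' K, hK.image_of_continuousOn (hd.continuousOn.mono hKR), subset_univ _, f2⟩
  refine ⟨A * (k * s), (hA.mul (hk.mul hs.univ)).deg, fun z hz => ?_⟩
  have hz' : z ∈ ball (0 : ℂ) R := mem_ball_zero_iff.2 (hz.trans_lt hr)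
  rw [hmul, hmul, hb _ (mem_ball_zero_iff.2 (hs2 z hz))]
  exact (f1 _ ((hs.mem_iff z).2 hz')).trans (by rw [hinv_apply])

lemma mem_fill {O : Set ℂ} {x : ℂ} : x ∈ fill O ↔ IsBounded (connectedComponentIn Oᶜ x) := Iff.rfl

lemma subset_fill (O : Set ℂ) : O ⊆ fill O := fun x hx => by
  rw [mem_fill, connectedComponentIn_eq_empty (not_not.2 hx)]
  exact isBounded_empty

lemma fill_mono {O O' : Set ℂ} (h : O ⊆ O') : fill O ⊆ fill O' := fun x hx =>
  (mem_fill.1 hx).subset (connectedComponentIn_mono x (compl_subset_compl.2 h))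

lemma fill_image (h : H) (O : Set ℂ) : h '' fill O = fill (h '' O) := by
  ext y
  obtain ⟨x, rfl⟩ := h.surjective y
  rw [apply_mem_image]
  by_cases hx : x ∈ O
  · exact iff_of_true (subset_fill O hx) (subset_fill _ (mem_image_of_mem _ hx))
  · rw [mem_fill, mem_fill, ← h.image_compl, ← h.image_connectedComponentIn hx, isBounded_image_iff]

lemma fill_ball (R : ℝ) : fill (ball 0 R) = ball 0 R := by
  refine (subset_fill _).antisymm' fun x hx => ?_
  by_contra hn
  have e : (ball (0 : ℂ) R)ᶜ = {z | R ≤ ‖z‖} := by ext z; simp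
  refine not_bdd_out R ((mem_fill.1 hx).subset ?_)
  rw [IsPreconnected.connectedComponentIn (e ▸ preconn_out R) hn, e]
  exact fun z (hz : R < ‖z‖) => hz.le

lemma fill_subset {O : Set ℂ} {h : H} (hO : O ⊆ h '' ball 0 1) : fill O ⊆ h '' ball 0 1 :=
  (fill_mono hO).trans (by rw [← fill_image, fill_ball])

lemma isBounded_fill {O : Set ℂ} (hb : IsBounded O) : IsBounded (fill O) := by
  obtain ⟨R, hR⟩ := hb.subset_ball 0
  exact isBounded_ball.subset ((fill_mono hR).trans (fill_ball R).subset)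

lemma compl_fill {O : Set ℂ} (hb : IsBounded O) : ∃ p, (fill O)ᶜ = connectedComponentIn Oᶜ p := by
  obtain ⟨R, hR⟩ := hb.subset_ball 0
  obtain ⟨p, hp⟩ : {z : ℂ | R < ‖z‖}.Nonempty :=
    nonempty_iff_ne_empty.2 fun h => not_bdd_out R (h ▸ isBounded_empty)
  have h1 : {z : ℂ | R < ‖z‖} ⊆ connectedComponentIn Oᶜ p :=
    (preconn_out' R).subset_connectedComponentIn hp fun z hz h =>
      lt_asymm (mem_ball_zero_iff.1 (hR h)) hz
  refine ⟨p, Subset.antisymm (fun x hx => ?_) fun x hx hf => ?_⟩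
  · obtain ⟨y, hy, hy'⟩ : ∃ y ∈ connectedComponentIn Oᶜ x, R < ‖y‖ := by
      by_contra hn
      push Not at hn
      exact hx (isBounded_closedBall.subset fun y hy => mem_closedBall_zero_iff.2 (hn y hy))
    rw [connectedComponentIn_eq (h1 hy'), ← connectedComponentIn_eq hy]
    exact mem_connectedComponentIn (connectedComponentIn_nonempty_iff.1 ⟨y, hy⟩)
  · exact not_bdd_out R ((mem_fill.1 hf).subset (connectedComponentIn_eq hx ▸ h1))

lemma isOpen_fill {O : Set ℂ} (hO : IsOpen O) (hb : IsBounded O) : IsOpen (fill O) := by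
  obtain ⟨p, hp⟩ := compl_fill hb
  rw [← isClosed_compl_iff, hp]
  exact C1.closed_cc hO.isClosed_compl p

lemma preconn_compl_fill {O : Set ℂ} (hb : IsBounded O) : IsPreconnected (fill O)ᶜ := by
  obtain ⟨p, hp⟩ := compl_fill hb
  rw [hp]
  exact isPreconnected_connectedComponentIn

lemma preconn_fill {O : Set ℂ} (hO : IsOpen O) (hc : IsPreconnected O) (hn : O.Nonempty) :
    IsPreconnected (fill O) := by
  obtain ⟨o, ho⟩ := hn
  refine isPreconnected_of_forall o fun y hy => ?_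
  by_cases hyO : y ∈ O
  · exact ⟨O, subset_fill O, ho, hyO, hc⟩
  have hy' := mem_connectedComponentIn (F := Oᶜ) hyO
  obtain ⟨p, hp, hp'⟩ : ∃ p ∈ connectedComponentIn Oᶜ y, p ∈ closure O := by
    by_contra h
    push Not at h
    have hop : IsOpen (connectedComponentIn Oᶜ y) := isOpen_iff_mem_nhds.2 fun p hp => by
      rw [connectedComponentIn_eq hp]
      exact connectedComponentIn_mem_nhds (mem_of_superset
        (isClosed_closure.isOpen_compl.mem_nhds (h p hp)) (compl_subset_compl.2 subset_closure))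
    have := IsClopen.eq_univ ⟨C1.closed_cc hO.isClosed_compl y, hop⟩ ⟨y, hy'⟩
    exact NormedSpace.unbounded_univ ℝ ℂ (this ▸ hy)
  refine ⟨insert p O ∪ connectedComponentIn Oᶜ y, ?_, Or.inl (Or.inr ho), Or.inr hy',
    (hc.subset_closure (subset_insert _ _) (insert_subset hp' subset_closure)).union p
      (mem_insert _ _) hp isPreconnected_connectedComponentIn⟩
  have : connectedComponentIn Oᶜ y ⊆ fill O := fun z hz => by
    rw [mem_fill, ← connectedComponentIn_eq hz]; exact hy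
  exact union_subset (insert_subset (this hp) (subset_fill O)) this

theorem sJS_of (h1 : S_RMT) (h2 : S_ExtC) : S_JS := by
  intro K O hK hO hb hc hn hKO
  obtain ⟨φ, hd, hi, e, -⟩ := h1 (fill O) _ (isOpen_fill hO hb) (isBounded_fill hb)
    (preconn_fill hO hc hn) (preconn_compl_fill hb) (subset_fill O hn.some_mem)
  have hh : ∀ w ∈ ball (0 : ℂ) 1, Function.invFunOn φ (ball 0 1) (φ w) = w :=
    fun w hw => hi.leftInvOn_invFunOn hw
  have hK' : K ⊆ φ '' ball 0 1 := e ▸ hKO.trans (subset_fill O)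
  have hcK : ContinuousOn (Function.invFunOn φ (ball 0 1)) K := fun y hy => by
    obtain ⟨z, hz, rfl⟩ := hK' hy
    exact (continuousAt_inv_of_injOn isOpen_ball hd hi hh hz).continuousWithinAt
  obtain ⟨r, ⟨r0, r1⟩, hr⟩ := exists_pos_lt_subset_ball one_pos
    (hK.image_of_continuousOn hcK).isClosed (x := 0) (by
      rintro _ ⟨y, hy, rfl⟩
      obtain ⟨z, hz, rfl⟩ := hK' hy
      rwa [hh z hz])
  obtain ⟨k, dk, hk⟩ := h2 φ r 1 hd hi one_pos r1
  have r0' : (r : ℂ) ≠ 0 := ofReal_ne_zero.2 r0.ne'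
  refine ⟨k * mulH r r0', deg_mul_one dk (deg_of_mul (mulH_apply _ r0')), fun y hy => ?_, ?_⟩
  · obtain ⟨z, hz, rfl⟩ := hK' hy
    have := hr (mem_image_of_mem _ hy)
    rw [hh z hz, mem_ball_zero_iff] at this
    refine ⟨(r : ℂ)⁻¹ * z, ?_, ?_⟩
    · rwa [mem_ball_zero_iff, norm_mul, norm_inv, norm_real, Real.norm_of_nonneg r0.le,
        inv_mul_lt_one₀ r0]
    · rw [hmul, mulH_apply, mul_inv_cancel_left₀ r0', hk z this.le]
  · rintro _ ⟨z, hz, rfl⟩
    have : ‖(r : ℂ) * z‖ ≤ r := by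
      rw [norm_mul, norm_real, Real.norm_of_nonneg r0.le]
      exact mul_le_of_le_one_right r0.le (mem_closedBall_zero_iff.1 hz)
    rw [hmul, mulH_apply, hk _ this, ← e]
    exact mem_image_of_mem _ (mem_ball_zero_iff.2 (this.trans_lt r1))

end

end Pool.Agent.Lib.MP_d32f96_gt
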