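import Pool.Agent.Lib.MP_069d55_gt.Disc

/-! Commuting pairs of plane homeomorphisms: definitions and the list of module statements. -/

namespace Pool.Agent.Lib.MP_d32f96_gt

open Set Filter Topology Metric Complex Bornology
open Pool.Agent.Lib.MP_1e9af3_an Pool.Agent.Lib.MP_069d55_gt

noncomputable section

/-! ### The group and the space of pairs -/

abbrev H : Type := ℂ ≃ₜ ℂ

def toC (f : H) : C(ℂ, ℂ) := ⟨f, f.continuous⟩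

instance topH : TopologicalSpace H := TopologicalSpace.induced toC inferInstance

/-- commuting pairs of degree one homeomorphisms -/
def Hom : Set (H × H) := {p | deg p.1 = 1 ∧ deg p.2 = 1 ∧ p.1 * p.2 = p.2 * p.1}

def Conn (p q : H × H) : Prop := p ∈ Hom ∧ q ∈ connectedComponentIn Hom p

def wd (f g : H) (p : ℤ × ℤ) : H := f ^ p.1 * g ^ p.2

def IsoIn (Γ : Set H) (a : H) : Prop :=
  ∃ A : ℝ → H, Continuous A ∧ A 0 = 1 ∧ A 1 = a ∧ ∀ t, A t ∈ Γ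

def dbl : H := Homeomorph.mulLeft₀ (2 : ℂ) two_ne_zero

def tw (c : ℝ) (z : ℂ) : ℂ := z * ee ((c * Real.logb 2 ‖z‖ : ℝ) : ℂ)

lemma norm_tw (c : ℝ) (z : ℂ) : ‖tw c z‖ = ‖z‖ := by
  rw [tw, norm_mul, norm_ee_real, mul_one]

lemma tw_tw (c d : ℝ) (z : ℂ) : tw c (tw d z) = tw (c + d) z := by
  rw [tw, norm_tw, tw, tw, mul_assoc, ← ee_add]; congr 2; push_cast; ring

lemma tw_zero (z : ℂ) : tw 0 z = z := by simp [tw, ee_zero]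

lemma continuous_tw : Continuous fun q : ℝ × ℂ => tw q.1 q.2 := by
  refine continuous_iff_continuousAt.2 fun q => ?_
  by_cases h : q.2 = 0
  · rw [ContinuousAt, h, show tw q.1 0 = 0 by simp [tw], tendsto_zero_iff_norm_tendsto_zero]
    simp only [norm_tw]
    have : Tendsto (fun x : ℝ × ℂ => ‖x.2‖) (𝓝 q) (𝓝 ‖q.2‖) :=
      (continuous_snd.norm).tendsto q
    simpa [h] using this
  · unfold tw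
    refine continuousAt_snd.mul (continuous_ee.continuousAt.comp
      (continuous_ofReal.continuousAt.comp (continuousAt_fst.mul ?_)))
    exact ContinuousAt.comp (f := fun x : ℝ × ℂ => ‖x.2‖)
      (Real.continuousAt_logb (norm_ne_zero_iff.2 h)) continuous_snd.norm.continuousAt

/-- the logarithmic spiral twist -/
def twist (c : ℝ) : H where
  toFun := tw c
  invFun := tw (-c)
  left_inv z := by rw [tw_tw, neg_add_cancel, tw_zero]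
  right_inv z := by rw [tw_tw, add_neg_cancel, tw_zero]
  continuous_toFun := continuous_tw.comp (continuous_const.prodMk continuous_id)
  continuous_invFun := continuous_tw.comp (continuous_const.prodMk continuous_id)

/-- complex conjugation -/
def cnj : H := conjCLE.toHomeomorph

def Cent : Set H := {e | ∀ z, e (2 * z) = 2 * e z}

def Tor : Set H := {e | ∀ z, e (z + 1) = e z + 1 ∧ e (z + I) = e z + I}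

/-! ### Plane topology -/

def HasLog (g : ℂ → ℂ) (s : Set ℂ) : Prop :=
  ∃ L : ℂ → ℂ, ContinuousOn L s ∧ ∀ z ∈ s, ee (L z) = g z

/-- `a` lies in an unbounded component of the complement of `K` -/
def Out (K : Set ℂ) (a : ℂ) : Prop := ¬ IsBounded (connectedComponentIn Kᶜ a)

/-- no compact part of `A` separates the origin from infinity -/
def NS (A : Set ℂ) : Prop := ∀ K, IsCompact K → K ⊆ A → Out K 0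

def fill (O : Set ℂ) : Set ℂ := {x | IsBounded (connectedComponentIn Oᶜ x)}

/-- closed, connected, unbounded -/
def CCU (C : Set ℂ) : Prop := IsClosed C ∧ IsPreconnected C ∧ ¬ IsBounded C

def Arc (α : ℝ → ℂ) : Prop := Continuous α ∧ InjOn α (Icc 0 1)

def Ray (γ : ℝ → ℂ) : Prop :=
  Continuous γ ∧ InjOn γ (Ici 0) ∧ Tendsto (fun t => ‖γ t‖) atTop atTop

/-- lift of an orientation preserving homeomorphism of the circle -/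
def CL (φ : ℝ → ℝ) : Prop := Continuous φ ∧ StrictMono φ ∧ ∀ t, φ (t + 1) = φ t + 1

def Sec (α β : ℝ) : Set ℂ := {z | ∃ r : ℝ, 0 < r ∧ ∃ t : ℝ, α < t ∧ t < β ∧ z = r * ee t}

/-! ### Dynamics -/

def tl (J : ℕ → Set ℂ) (n : ℕ) : Set ℂ := ⋃ j, ⋃ _ : n ≤ j, J j

def Chn (J : ℕ → Set ℂ) : Prop :=
  (∀ n, IsCompact (J n)) ∧ (∀ n, IsPreconnected (J n)) ∧ (∀ n, (J n ∩ J (n + 1)).Nonempty) ∧
    ∀ R : ℝ, ∀ᶠ n in atTop, ∀ x ∈ J n, R ≤ ‖x‖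

def Chain (f g : H) : Prop :=
  ∃ J, Chn J ∧ ∀ p : ℤ × ℤ, ∃ n, NS (tl J n ∪ wd f g p '' tl J n)

def ang (W : ℂ → ℝ) (x : ℂ) : ℂ := x / (‖x‖ : ℂ) * ee (W x)

def Lim (W : ℂ → ℝ) (s : H) : Prop :=
  ∃ ω : ℂ, Tendsto (fun x => ang W (s x) / ang W x) (cocompact ℂ) (𝓝 ω)

def Asym (f g : H) : Prop := ∃ W : ℂ → ℝ, Continuous W ∧ Lim W f ∧ Lim W g

/-- bounded oscillation near infinity of the logarithm of `ang W (s x) / ang W x` -/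
def BO (W : ℂ → ℝ) (C : ℝ) (s : H) : Prop :=
  ∀ (R : ℝ) (D : ℂ → ℝ), ContinuousOn D {x | R ≤ ‖x‖} →
    (∀ x, R ≤ ‖x‖ → ee (D x) = ang W (s x) / ang W x) →
    ∃ R' : ℝ, ∀ x y, R' ≤ ‖x‖ → R' ≤ ‖y‖ → |D x - D y| ≤ C

def iota (z : ℂ) : ℂ := z / ((1 + ‖z‖ : ℝ) : ℂ)

def Ext (F : H) : Prop :=
  ∃ G : ℂ → ℂ, ContinuousOn G (closedBall 0 1) ∧ ∀ z, G (iota z) = iota (F z)

def Tame (f g : H) : Prop := Ext f ∧ Ext f⁻¹ ∧ Ext g ∧ Ext g⁻¹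

def Val (u : ℂ → ℂ) (θ : ℝ) (v : ℂ) : Prop :=
  Tendsto (fun t : ℝ => u (t * ee θ)) atTop (𝓝 v)

/-- two different rays of the family end inside the image of each sector -/
def Sep (G : H) (Θ : Set ℝ) : Prop :=
  ∀ α ∈ Θ, ∀ β ∈ Θ, α < β → ∃ θ₁ ∈ Θ, ∃ θ₂ ∈ Θ, θ₁ ≠ θ₂ ∧
    ∀ᶠ t : ℝ in atTop, (t : ℂ) * ee θ₁ ∈ G '' Sec α β ∧ (t : ℂ) * ee θ₂ ∈ G '' Sec α β

/-- a dense family of rays along which `u` has different nonzero limits -/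
def Fam (u : ℂ → ℂ) (Θ : Set ℝ) (v : ℝ → ℂ) : Prop :=
  Θ ⊆ Ico 0 1 ∧ (∀ a b : ℝ, 0 ≤ a → a < b → b ≤ 1 → ∃ θ ∈ Θ, a < θ ∧ θ < b) ∧ InjOn v Θ ∧
    ∀ θ ∈ Θ, v θ ≠ 0 ∧ Val u θ (v θ)

def Attr (σ : H) : Prop :=
  ∃ R : ℝ, ∀ R' : ℝ, ∀ᶠ m : ℕ in atTop, ∀ x, R ≤ ‖x‖ → R' ≤ ‖(σ ^ m) x‖

def Coc (f g : H) (R : ℝ) : Prop := ∀ x, ∃ p, ‖wd f g p x‖ < R

def ip (p : ℤ × ℤ) (ν : ℂ) : ℝ := p.1 * ν.re + p.2 * ν.im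

def II (f g : H) (R : ℝ) (ν : ℂ) : Set ℂ := {x | ∀ p, ip p ν < 0 → R ≤ ‖wd f g p x‖}

def ZZ (f g : H) (R : ℝ) (ν : ℂ) : Set ℂ :=
  {x | ¬ IsBounded (connectedComponentIn (II f g R ν) x)}

def Sig (f g : H) (R : ℝ) : Set ℂ := {ν | ‖ν‖ = 1 ∧ (ZZ f g R ν ∩ closedBall 0 R).Nonempty}

/-- the set of the frozen statement -/
def Froz (k : ℤ) : Set (C(ℂ, ℂ) × C(ℂ, ℂ)) :=
  {p : C(ℂ, ℂ) × C(ℂ, ℂ) |
    (∀ x : ℂ, p.1 (p.2 x) = p.2 (p.1 x)) ∧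
    ∃ F Fi G Gi : C(ℝ × ℂ, ℂ),
      (∀ t ∈ Set.Icc (0:ℝ) 1, ∀ x : ℂ,
        F (t, Fi (t, x)) = x ∧ Fi (t, F (t, x)) = x ∧
        G (t, Gi (t, x)) = x ∧ Gi (t, G (t, x)) = x) ∧
      (∀ x : ℂ, F (0, x) = x ∧ G (0, x) = x ∧
        F (1, x) = p.1 x ∧ G (1, x) = p.2 x) ∧
      ∃ θ : C(ℝ, ℝ), θ 1 - θ 0 = (k : ℝ) ∧
        ∀ t ∈ Set.Icc (0:ℝ) 1,
          F (t, G (t, Fi (t, Gi (t, 1)))) - F (t, G (t, Fi (t, Gi (t, 0)))) =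
            ((‖F (t, G (t, Fi (t, Gi (t, 1)))) - F (t, G (t, Fi (t, Gi (t, 0))))‖ : ℝ) : ℂ)
              * Complex.exp (2 * (Real.pi : ℂ) * Complex.I * ((θ t : ℝ) : ℂ))}

/-! ### Statements: plane topology -/

def S_logOut : Prop := ∀ (K : Set ℂ) (a : ℂ), IsCompact K →
  (HasLog (fun z => z - a) K ↔ Out K a)

def S_logPair : Prop := ∀ (K : Set ℂ) (a b : ℂ), IsCompact K → a ∉ K → b ∉ K →
  (HasLog (fun z => (z - a) / (z - b)) K ↔ b ∈ connectedComponentIn Kᶜ a)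

def S_Jan : Prop := ∀ (A B : Set ℂ) (a b : ℂ), IsCompact A → IsCompact B →
  IsPreconnected (A ∩ B) → b ∈ connectedComponentIn Aᶜ a → b ∈ connectedComponentIn Bᶜ a →
  b ∈ connectedComponentIn (A ∪ B)ᶜ a

def S_X : Prop := ∀ P Q : ℝ → ℂ, ContinuousOn P (Icc 0 1) → ContinuousOn Q (Icc 0 1) →
  (∀ t ∈ Icc (0 : ℝ) 1, (P 0).im ≤ (Q t).im ∧ (Q t).im ≤ (P 1).im) →
  (∀ s ∈ Icc (0 : ℝ) 1, (Q 0).re ≤ (P s).re ∧ (P s).re ≤ (Q 1).re) →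
  ∃ s ∈ Icc (0 : ℝ) 1, ∃ t ∈ Icc (0 : ℝ) 1, P s = Q t

def S_HD : Prop := ∀ (K : Set ℂ) (g : ℂ → ℂ), IsCompact K → IsPreconnected Kᶜ →
  ContinuousOn g K → (∀ z ∈ K, g z ≠ 0) → HasLog g K

def S_LogC : Prop := ∀ (Y : Set ℂ) (g : ℂ → ℂ), CCU Y → ContinuousOn g Yᶜ →
  (∀ z ∈ Yᶜ, g z ≠ 0) → HasLog g Yᶜ

def S_JCT : Prop := ∀ γ : ℂ → ℂ, ContinuousOn γ (sphere 0 1) → InjOn γ (sphere 0 1) →
  (∃ a, a ∉ γ '' sphere 0 1 ∧ IsBounded (connectedComponentIn (γ '' sphere 0 1)ᶜ a)) ∧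
  ∀ a, a ∉ γ '' sphere 0 1 →
    frontier (connectedComponentIn (γ '' sphere 0 1)ᶜ a) = γ '' sphere 0 1

def S_SB : Prop := ∀ (F O : Set ℂ) (x : ℂ), IsClosed F → x ∈ F →
  IsBounded (connectedComponentIn F x) → IsOpen O → connectedComponentIn F x ⊆ O →
  ∃ U, IsOpen U ∧ IsBounded U ∧ connectedComponentIn F x ⊆ U ∧ U ⊆ O ∧ Disjoint (frontier U) F

def S_Exh : Prop := ∀ F K : Set ℂ, IsClosed F → (∀ x ∈ F, IsBounded (connectedComponentIn F x)) →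
  IsCompact K → ∃ U, IsOpen U ∧ IsBounded U ∧ K ⊆ U ∧ Disjoint (frontier U) F

def S_Tail : Prop := ∀ (C : Set ℂ) (R : ℝ), CCU C → ∃ T, CCU T ∧ T ⊆ C ∧ ∀ x ∈ T, R ≤ ‖x‖

def S_Lim : Prop := ∀ (C : ℕ → Set ℂ) (x : ℕ → ℂ) (F : Set ℂ) (a : ℂ), IsClosed F →
  (∀ n, IsPreconnected (C n)) → (∀ n, x n ∈ C n) → Tendsto x atTop (𝓝 a) →
  (∀ R : ℝ, ∀ᶠ n in atTop, ∃ y ∈ C n, R ≤ ‖y‖) →
  (∀ y, (∀ ε > 0, ∃ᶠ n in atTop, (C n ∩ ball y ε).Nonempty) → y ∈ F) →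
  ¬ IsBounded (connectedComponentIn F a)

def S_NA : Prop := ∀ (Y Z : Set ℂ) (x : ℂ), IsClosed Y → IsClosed Z →
  ¬ IsBounded (connectedComponentIn Y x) →
  (∀ y ∈ Y ∩ Z, IsBounded (connectedComponentIn (Y ∩ Z) y)) →
  (∀ P, IsCompact P → IsPreconnected P → x ∈ P → P ⊆ Y → Disjoint P Z) →
  ∃ C, CCU C ∧ Disjoint C Z

def S_Arc : Prop := ∀ (O : Set ℂ) (a b : ℂ), IsOpen O → IsPreconnected O → a ∈ O → b ∈ O →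
  a ≠ b → ∃ α, Arc α ∧ α 0 = a ∧ α 1 = b ∧ ∀ t ∈ Icc (0 : ℝ) 1, α t ∈ O

def S_Ray : Prop := ∀ C O : Set ℂ, CCU C → IsOpen O → C ⊆ O →
  ∃ γ, Ray γ ∧ ∀ t, 0 ≤ t → γ t ∈ O

def S_Box : Prop := ∀ (x₀ x₁ y₀ y₁ h : ℝ) (A B : Set ℂ), x₀ < x₁ → y₀ < h → h < y₁ →
  IsClosed A → IsClosed B → Disjoint A B →
  (∀ z : ℂ, x₀ ≤ z.re → z.re ≤ x₁ → y₀ ≤ z.im → z.im ≤ y₁ →
    (z.re = x₀ ∨ z.re = x₁ ∨ z.im = y₀ ∨ z.im = y₁) → (h ≤ z.im → z ∉ A) ∧ (z.im ≤ h → z ∉ B)) →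
  ∃ α, Arc α ∧ α 0 = x₀ + h * I ∧ α 1 = x₁ + h * I ∧
    (∀ t ∈ Ioo (0 : ℝ) 1, x₀ < (α t).re ∧ (α t).re < x₁ ∧ y₀ < (α t).im ∧ (α t).im < y₁) ∧
    ∀ t ∈ Icc (0 : ℝ) 1, α t ∉ A ∧ α t ∉ B

def S_RL : Prop := ∀ (ψ : ℂ → ℝ) (x₀ b : ℝ),
  ContinuousOn ψ {z | x₀ ≤ z.re ∧ 0 ≤ z.im ∧ z.im ≤ 1} →
  (∀ x : ℝ, x₀ ≤ x → ψ x < b ∧ b < ψ (x + I)) →
  ∃ γ, Ray γ ∧ (∀ t, 0 ≤ t → x₀ < (γ t).re ∧ 0 < (γ t).im ∧ (γ t).im < 1) ∧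
    Tendsto (fun t => ψ (γ t)) atTop (𝓝 b)

/-! ### Statements: conformal maps and Schoenflies type theorems -/

def S_RMT : Prop := ∀ (U : Set ℂ) (a : ℂ), IsOpen U → IsBounded U → IsPreconnected U →
  IsPreconnected Uᶜ → a ∈ U → ∃ φ : ℂ → ℂ, DifferentiableOn ℂ φ (ball 0 1) ∧
    InjOn φ (ball 0 1) ∧ φ '' ball 0 1 = U ∧ φ 0 = a

def S_ExtC : Prop := ∀ (φ : ℂ → ℂ) (r R : ℝ), DifferentiableOn ℂ φ (ball 0 R) →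
  InjOn φ (ball 0 R) → 0 < R → r < R → ∃ k : H, deg k = 1 ∧ ∀ z, ‖z‖ ≤ r → k z = φ z

def S_JS : Prop := ∀ K O : Set ℂ, IsCompact K → IsOpen O → IsBounded O → IsPreconnected O →
  O.Nonempty → K ⊆ O →
  ∃ h : H, deg h = 1 ∧ K ⊆ h '' ball 0 1 ∧ h '' closedBall 0 1 ⊆ fill O

def S_Unif : Prop := ∀ (U : Set ℂ) (r R : ℝ), IsOpen U → IsPreconnected U → 0 < R → r < R →
  ball 0 R ⊆ U → ∃ q : ℂ → ℂ, Continuous q ∧ (∀ z, q z ∈ U) ∧ IsCoveringMapOn q U ∧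
    ∀ z, ‖z‖ ≤ r → q z = z

def S_SP : Prop := ∀ γ : ℂ → ℂ, ContinuousOn γ (sphere 0 1) → InjOn γ (sphere 0 1) →
  ∃ h : H, ∀ z, ‖z‖ = 1 → h z = γ z

def S_CS : Prop := ∀ (C : Set ℂ) (α β : ℝ → ℂ), IsCompact C → Convex ℝ C → Arc α → Arc β →
  α 0 = β 0 → α 1 = β 1 → α 0 ∈ frontier C → α 1 ∈ frontier C →
  (∀ t ∈ Ioo (0 : ℝ) 1, α t ∈ interior C ∧ β t ∈ interior C) →
  ∃ k : H, (∀ z, z ∉ interior C → k z = z) ∧ ∀ t ∈ Icc (0 : ℝ) 1, k (β t) = α t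

def S_Line : Prop := ∀ l : ℝ → ℂ, Continuous l → Function.Injective l →
  Tendsto (fun t => ‖l t‖) atTop atTop → Tendsto (fun t => ‖l t‖) atBot atTop →
  ∃ h : H, deg h = 1 ∧ ∀ t : ℝ, h t = l t

def S_DT : Prop := ∀ (h : H) (a s b : ℝ), 0 < a → a < s → s < b → (0 : ℂ) ∈ h '' ball 0 1 →
  (∀ z : ℂ, ‖z‖ = 1 → a < ‖h z‖ ∧ ‖h z‖ < b) →
  ∃ k : H, (∀ z, ‖z‖ ≤ a ∨ b ≤ ‖z‖ → k z = z) ∧ k '' closedBall 0 s = h '' closedBall 0 1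

def S_Circ : Prop := ∀ F : H, deg F = 1 → F '' closedBall 0 1 = closedBall 0 1 →
  ∃ φ, CL φ ∧ ∀ t : ℝ, F (ee t) = ee (φ t)

def S_Polar : Prop := ∀ A : ℝ → ℝ → ℝ → ℝ,
  ContinuousOn (fun q : ℝ × ℝ × ℝ => A q.1 q.2.1 q.2.2) {q | 0 < q.2.1} →
  (∀ s r, 0 < r → StrictMono (A s r) ∧ ∀ t, A s r (t + 1) = A s r t + 1) →
  ∃ F : ℝ → H, Continuous F ∧ ∀ s, deg (F s) = 1 ∧
    ∀ r t : ℝ, 0 ≤ r → F s (r * ee t) = r * ee (A s r t)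

def S_Iso : Prop := ∀ F : H, deg F = 1 → IsoIn univ F

/-! ### Statements: dynamics -/

def S_K0 : Prop := ∀ (J : ℕ → Set ℂ) (s : H) (n : ℕ), Chn J → NS (tl J n ∪ s '' tl J n) →
  HasLog id (tl J n ∪ s '' tl J n)

def S_K1 : Prop := ∀ T : Set ℂ, CCU T → HasLog id T →
  ∃ W : ℂ → ℝ, Continuous W ∧ ∃ R : ℝ, ∀ x, R ≤ ‖x‖ → (ang W x = 1 ↔ x ∈ T)

def S_K2 : Prop := ∀ (J : ℕ → Set ℂ) (s : H) (W : ℂ → ℝ) (R : ℝ) (n : ℕ), Chn J → Continuous W →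
  (∀ x, R ≤ ‖x‖ → (ang W x = 1 ↔ x ∈ tl J 0)) → HasLog id (tl J n ∪ s '' tl J n) → BO W 20 s

def S_K3 : Prop := ∀ (f g : H) (W : ℂ → ℝ) (C : ℝ), (f, g) ∈ Hom → Continuous W →
  (∀ p, BO W C (wd f g p)) → Asym f g

def S_L1 : Prop := ∀ (W : ℂ → ℝ) (Φ : H) (α β : ℝ) (v₁ v₂ : ℂ) (B : Set ℂ), Continuous W →
  α < β → β < α + 1 → Val (fun x => ang W (Φ x)) α v₁ → Val (fun x => ang W (Φ x)) β v₂ →
  v₁ ≠ v₂ → B.Finite → ∃ γ, Ray γ ∧ (∀ t, 0 ≤ t → γ t ∈ Φ '' Sec α β) ∧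
    ∃ b, b ∉ B ∧ Tendsto (fun t => ang W (γ t)) atTop (𝓝 b)

def S_L2 : Prop := ∀ (α θ β R : ℝ) (γ : ℝ → ℂ), α < θ → θ < β → β ≤ α + 1 / 2 → Ray γ →
  (∀ t, 0 ≤ t → γ t ∈ Sec α β) →
  ∃ k : H, (∀ z, z ∉ Sec α β ∨ ‖z‖ ≤ R → k z = z) ∧ ∃ u : ℝ → ℝ, Tendsto u atTop atTop ∧
    ∀ᶠ t : ℝ in atTop, k (t * ee θ) = γ (u t)

def S_L3 : Prop := ∀ W : ℂ → ℝ, Continuous W → ∃ h : H, deg h = 1 ∧
  Val (fun x => ang W (h x)) 0 1 ∧ Val (fun x => ang W (h x)) (1 / 2) (-1)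

def S_L4 : Prop := ∀ (W : ℂ → ℝ) (S : Set H), Continuous W → S.Finite → (∀ s ∈ S, Lim W s) →
  ∃ (h : H) (Θ : Set ℝ) (v : ℝ → ℂ), deg h = 1 ∧ Fam (fun x => ang W (h x)) Θ v ∧
    ∀ s ∈ S, Sep (h⁻¹ * s * h) Θ

def S_L5 : Prop := ∀ (G : H) (u : ℂ → ℂ) (Θ : Set ℝ) (v : ℝ → ℂ) (ω : ℂ), Fam u Θ v →
  Tendsto (fun x => u (G x) / u x) (cocompact ℂ) (𝓝 ω) → Sep G Θ → Ext G⁻¹

def S_H2 : Prop := ∀ (F G : H) (φ χ : ℝ → ℝ), CL φ → CL χ → F * G = G * F →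
  (∀ r t : ℝ, 0 ≤ r → F (r * ee t) = r * ee (φ t)) →
  (∀ r t : ℝ, 0 ≤ r → G (r * ee t) = r * ee (χ t)) → Conn (F, G) (1, 1)

def S_H : Prop := ∀ f g : H, (f, g) ∈ Hom → Tame f g → Conn (f, g) (1, 1)

def S_CT : Prop := ∀ f g : H, (f, g) ∈ Hom → Chain f g → Conn (f, g) (1, 1)

def S_I : Prop := ∀ f g : H, (f, g) ∈ Hom → (∀ R, ¬ Coc f g R) → Conn (f, g) (1, 1)

def S_J0 : Prop := ∀ S : Set ℂ, IsClosed S → (∀ ν ∈ S, ‖ν‖ = 1) →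
  (∃ σ : ℤ × ℤ, IsCoprime σ.1 σ.2 ∧ ∀ ν ∈ S, ip σ ν < 0) ∨
  ∃ ν₁ ∈ S, ∃ ν₂ ∈ S, ∃ ν₃ ∈ S, ∃ η : ℤ × ℤ, ip η ν₂ < 0 ∧ ip η ν₃ < 0 ∧
    ∃ a b : ℝ, 0 ≤ a ∧ 0 ≤ b ∧ ν₁ = -(a * ν₂ + b * ν₃)

def S_JC : Prop := ∀ (f g : H) (R : ℝ), IsClosed (Sig f g R)

def S_J1 : Prop := ∀ (f g : H) (R : ℝ) (σ : ℤ × ℤ), f * g = g * f → Coc f g R →
  (∀ ν ∈ Sig f g R, ip σ ν < 0) → Attr (wd f g σ)

def S_J2 : Prop := ∀ (f g : H) (R : ℝ) (ν₁ ν₂ ν₃ : ℂ) (η : ℤ × ℤ) (a b : ℝ), f * g = g * f →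
  Coc f g R → (ZZ f g R ν₁).Nonempty → (ZZ f g R ν₂).Nonempty → (ZZ f g R ν₃).Nonempty →
  ip η ν₂ < 0 → ip η ν₃ < 0 → 0 ≤ a → 0 ≤ b → ν₁ ≠ 0 → ν₁ = -(a * ν₂ + b * ν₃) → Chain f g

def S_M1 : Prop := ∀ σ : H, deg σ = 1 → Attr σ →
  ∃ h : H, deg h = 1 ∧ ∀ z, 1 ≤ ‖z‖ → (h⁻¹ * σ * h) z = 2 * z

def S_M2 : Prop := ∀ σ τ : H, (σ, τ) ∈ Hom → (∀ z, 1 ≤ ‖z‖ → σ z = 2 * z) →
  ∃ e : H, deg e = 1 ∧ e ∈ Cent ∧ Conn (σ, τ) (dbl, e)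

def S_Aff : Prop := Conn (1, 1) (dbl, twist 0) ∧ ∀ j a b c d : ℤ, a * d - b * c = 1 →
  Conn (wd dbl (twist j) (a, c), wd dbl (twist j) (b, d)) (dbl, twist j)

def S_N1 : Prop := ∀ e : H, e ∈ Cent →
  ∃ K : H, IsoIn Cent K ∧ K '' closedBall 0 1 = e '' closedBall 0 1

def S_N2 : Prop := ∀ τ : H, τ ∈ Tor → (∀ y : ℝ, τ (y * I) = y * I) → IsoIn Tor τ

def S_N : Prop := ∀ e : H, deg e = 1 → e ∈ Cent → ∃ j : ℤ, Conn (dbl, e) (dbl, twist j)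

def S_G1 : Prop := ∃ e : H × H → ℤ, (∀ p q, Conn p q → e p = e q) ∧
  (∀ j : ℤ, e (dbl, twist j) = -j) ∧
  ∀ p ∈ Hom, ∀ k : ℤ, (toC p.1, toC p.2) ∈ Froz k → e p = k

def S_G2 : Prop := (∀ (k : ℤ), ∀ P ∈ Froz k, ∃ p ∈ Hom, P = (toC p.1, toC p.2)) ∧
  ∀ p ∈ Hom, ∃ k : ℤ, (toC p.1, toC p.2) ∈ Froz k

end

end Pool.Agent.Lib.MP_d32f96_gt
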