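import Pool.Agent.Lib.MP_d32f96_gt.Frame

/-! Boundary extension of the Riemann map of a Jordan domain. -/

namespace Pool.Agent.Lib.MP_d32f96_gt

open Set Filter Topology Metric Complex Bornology ComplexConjugate
open Pool.Agent.Lib.MP_1e9af3_an Pool.Agent.Lib.MP_069d55_gt

noncomputable section

namespace E

/-- `h` maps the disc homeomorphically onto `I`, whose boundary lies in `J`. -/
structure JD (J I : Set ℂ) (h k : ℂ → ℂ) : Prop where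
  Jc : IsClosed J
  Io : IsOpen I
  Ib : IsBounded I
  dj : ∀ w ∈ I, w ∉ J
  cl : closure I ⊆ I ∪ J
  hc : ContinuousOn h (ball 0 1)
  kc : ContinuousOn k I
  hm : MapsTo h (ball 0 1) I
  km : MapsTo k I (ball 0 1)
  kh : ∀ z ∈ ball (0 : ℂ) 1, k (h z) = z
  hk : ∀ z ∈ I, h (k z) = z
  far : ∀ ε > 0, ∃ δ > 0, ∀ b ∈ J, ∀ w ∈ I, ∀ w' ∈ I, ε < ‖w - b‖ → ε < ‖w' - b‖ →
    ∃ S, IsPreconnected S ∧ S ⊆ I ∧ w ∈ S ∧ w' ∈ S ∧ ∀ z ∈ S, δ < ‖z - b‖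
  near : ∀ b ∈ J, ∀ ε > 0, ∃ δ > 0, ∀ w ∈ I, ∀ w' ∈ I, ‖w - b‖ < δ → ‖w' - b‖ < δ →
    ∃ S, IsPreconnected S ∧ S ⊆ I ∧ w ∈ S ∧ w' ∈ S ∧ ∀ z ∈ S, ‖z - b‖ < ε

variable {J I : Set ℂ} {h k : ℂ → ℂ}

lemma JD.proper (H : JD J I h k) {δ : ℝ} (hδ : 0 < δ) :
    ∃ r < 1, ∀ z ∈ ball (0 : ℂ) 1, r < ‖z‖ → ∃ b ∈ J, ‖h z - b‖ < δ := by
  have hK : IsCompact (closure I \ thickening δ J) :=
    H.Ib.isCompact_closure.diff isOpen_thickening
  have hKI : closure I \ thickening δ J ⊆ I := fun w hw =>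
    (H.cl hw.1).resolve_right fun hJ => hw.2 (self_subset_thickening hδ J hJ)
  obtain ⟨r, hr, hsub⟩ := exists_lt_subset_ball
    (hK.image_of_continuousOn (H.kc.mono hKI)).isClosed
    (show k '' (closure I \ thickening δ J) ⊆ ball 0 1 by
      rintro _ ⟨w, hw, rfl⟩; exact H.km (hKI hw))
  refine ⟨r, hr, fun z hz hrz => ?_⟩
  by_contra hle
  have := hsub ⟨h z, ⟨subset_closure (H.hm hz), fun ht => hle (by
    obtain ⟨b, hb, hd⟩ := mem_thickening_iff.1 ht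
    exact ⟨b, hb, by rwa [← dist_eq_norm]⟩)⟩, H.kh z hz⟩
  rw [mem_ball_zero_iff] at this
  linarith

lemma JD.osc (H : JD J I h k) (hx : Cross h) {ζ : ℂ} (hζ : ‖ζ‖ = 1) {η : ℝ} (hη : 0 < η) :
    ∃ ρ > 0, ∃ b : ℂ, ∀ z ∈ ball (0 : ℂ) 1, ‖z - ζ‖ < ρ → ‖h z - b‖ ≤ η := by
  have m0 : (0 : ℂ) ∈ ball (0 : ℂ) 1 := mem_ball_self one_pos
  obtain ⟨e, he, heI⟩ := Metric.isOpen_iff.1 H.Io (h 0) (H.hm m0)
  obtain ⟨δ, hδ, hfar⟩ := H.far (min η (e / 2)) (lt_min hη (half_pos he))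
  obtain ⟨r, hr, hrp⟩ := H.proper (half_pos hδ)
  obtain ⟨ρ, hρ0, hρ, hcr⟩ := hx ζ hζ (δ / 2) (half_pos hδ) (min (1 - r) 1)
    (lt_min (by linarith) one_pos)
  have hρ1 : ρ < 1 := hρ.trans_le (min_le_right _ _)
  have hρ2 : ρ < 1 - r := hρ.trans_le (min_le_left _ _)
  set z₀ : ℂ := ζ * ((1 - ρ : ℝ) : ℂ) with hz₀
  have n₀ : ‖z₀‖ = 1 - ρ := by
    rw [hz₀, norm_mul, hζ, one_mul, norm_real, Real.norm_of_nonneg (by linarith)]
  have m₀ : z₀ ∈ ball (0 : ℂ) 1 := by rw [mem_ball_zero_iff, n₀]; linarith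
  have d₀ : ‖z₀ - ζ‖ = ρ := by
    rw [show z₀ - ζ = -(ζ * ρ) by rw [hz₀]; push_cast; ring, norm_neg, norm_mul, hζ, one_mul,
      norm_real, Real.norm_of_nonneg hρ0.le]
  obtain ⟨b, hb, db⟩ := hrp z₀ m₀ (by linarith)
  refine ⟨ρ, hρ0, b, fun z hz hzρ => ?_⟩
  by_contra hlt
  have h0b : e ≤ ‖h 0 - b‖ := by
    by_contra hc
    exact H.dj b (heI (by rw [mem_ball, dist_comm, dist_eq_norm]; exact not_le.1 hc)) hb
  obtain ⟨S, hS, hSI, h1, h2, h3⟩ := hfar b hb (h z) (H.hm hz) (h 0) (H.hm m0)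
    ((min_le_left _ _).trans_lt (not_le.1 hlt)) ((min_le_right _ _).trans_lt (by linarith))
  obtain ⟨v, hv, hv'⟩ := hS.intermediate_value h1 h2
    (f := fun w => ‖k w - ζ‖) (((H.kc.mono hSI).sub continuousOn_const).norm)
    (show ρ ∈ Icc _ _ from ⟨by simpa [H.kh z hz] using hzρ.le, by simp [H.kh 0 m0, hζ, hρ1.le]⟩)
  have e1 := hcr (k v) (H.km (hSI hv)) z₀ m₀ hv' d₀
  rw [H.hk v (hSI hv)] at e1
  have := norm_sub_le_norm_sub_add_norm_sub v (h z₀) b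
  linarith [h3 v hv]

lemma JD.lim (H : JD J I h k) (hx : Cross h) {ζ : ℂ} (hζ : ζ ∈ closedBall (0 : ℂ) 1) :
    ∃ y, Tendsto h (𝓝[ball 0 1] ζ) (𝓝 y) := by
  rcases (mem_closedBall_zero_iff.1 hζ).lt_or_eq with h1 | h1
  · exact ⟨_, H.hc ζ (mem_ball_zero_iff.2 h1)⟩
  have := neBot_ball hζ
  refine cauchy_map_iff_exists_tendsto.1 (Metric.cauchy_iff.2 ⟨inferInstance, fun ε hε => ?_⟩)
  obtain ⟨ρ, hρ, b, hb⟩ := H.osc hx h1 (η := ε / 3) (by positivity)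
  refine ⟨closedBall b (ε / 3), ?_, fun x hx y hy => ?_⟩
  · rw [mem_map]
    filter_upwards [self_mem_nhdsWithin, mem_nhdsWithin_of_mem_nhds (ball_mem_nhds ζ hρ)]
      with z hz hz'
    simpa [dist_eq_norm] using hb z hz (by simpa [dist_eq_norm] using hz')
  · have := dist_triangle_right x y b
    rw [mem_closedBall] at hx hy
    linarith

lemma JD.ext_cont (H : JD J I h k) (hx : Cross h) :
    ContinuousOn (extendFrom (ball 0 1) h) (closedBall 0 1) :=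
  continuousOn_extendFrom (by rw [closure_ball 0 one_ne_zero]) fun _ hζ => H.lim hx hζ

lemma JD.ext_mem (H : JD J I h k) (hx : Cross h) {ζ : ℂ} (hζ : ‖ζ‖ = 1) :
    extendFrom (ball 0 1) h ζ ∈ J := by
  have hζ' : ζ ∈ closedBall (0 : ℂ) 1 := mem_closedBall_zero_iff.2 hζ.le
  have := neBot_ball hζ'
  have ht := tendsto_extendFrom (H.lim hx hζ')
  rw [← H.Jc.closure_eq, Metric.mem_closure_iff]
  intro ε hε
  obtain ⟨r, hr, hrp⟩ := H.proper (half_pos hε)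
  obtain ⟨z, ⟨h1, h2⟩, h3⟩ := (((ht.eventually (ball_mem_nhds _ (half_pos hε))).and
    (mem_nhdsWithin_of_mem_nhds (continuous_norm.continuousAt.eventually
      (lt_mem_nhds (hζ ▸ hr : r < ‖ζ‖))))).and self_mem_nhdsWithin).exists
  obtain ⟨b, hb, hd⟩ := hrp z h3 h2
  refine ⟨b, hb, ?_⟩
  rw [← dist_eq_norm] at hd
  have := dist_triangle_left (extendFrom (ball 0 1) h ζ) b (h z)
  linarith

lemma JD.ext_inj (H : JD J I h k) (hx : Cross h)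
    (hnc : ∀ ξ : ℂ, ‖ξ‖ = 1 → ∀ η > 0, ∀ b ∈ J,
      ∃ z : ℂ, ‖z‖ = 1 ∧ ‖z - ξ‖ < η ∧ extendFrom (ball 0 1) h z ≠ b)
    {ζ₁ ζ₂ : ℂ} (h₁ : ‖ζ₁‖ = 1) (h₂ : ‖ζ₂‖ = 1)
    (he : extendFrom (ball 0 1) h ζ₁ = extendFrom (ball 0 1) h ζ₂) : ζ₁ = ζ₂ := by
  by_contra hne
  set g := extendFrom (ball 0 1) h with hg
  have gc : ContinuousOn g (closedBall 0 1) := H.ext_cont hx
  have ge : ∀ z ∈ ball (0 : ℂ) 1, g z = h z := extendFrom_extends H.hc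
  set b := g ζ₂ with hb
  have nb : b ∈ J := H.ext_mem hx h₂
  have hd : ‖ζ₂ - ζ₁‖ ≠ 0 := norm_ne_zero_iff.2 (sub_ne_zero.2 (Ne.symm hne))
  have hd' : (‖ζ₂ - ζ₁‖ : ℂ) ≠ 0 := by exact_mod_cast hd
  set u : ℂ := (ζ₂ - ζ₁) / ‖ζ₂ - ζ₁‖ with hu
  have nu : ‖u‖ = 1 := by rw [hu, norm_div, norm_real, norm_norm, div_self hd]
  have huu : u * conj u = 1 := by rw [mul_conj, normSq_eq_norm_sq, nu]; simp
  set A : ℂ → ℝ := fun z => (z * conj u).re with hA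
  have Ac : Continuous A := by rw [hA]; fun_prop
  have hlt : A ζ₁ < A ζ₂ := by
    have e : (ζ₂ - ζ₁) * conj u = ‖ζ₂ - ζ₁‖ := by
      have : ζ₂ - ζ₁ = ‖ζ₂ - ζ₁‖ * u := by rw [hu]; field_simp
      rw [this, mul_assoc, huu, ← this, mul_one]
    have := congrArg re e
    rw [sub_mul, sub_re, ofReal_re] at this
    have := lt_of_le_of_ne (norm_nonneg _) hd.symm
    simp only [hA]; linarith
  have claim : ∀ c, A ζ₁ < c → c < A ζ₂ → ∃ z, ‖z‖ = 1 ∧ A z = c ∧ g z = b := by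
    intro c hc1 hc2
    by_contra hcon
    push Not at hcon
    have hL : IsCompact (closedBall (0 : ℂ) 1 ∩ {z | A z = c}) :=
      (isCompact_closedBall 0 1).inter_right (isClosed_eq Ac continuous_const)
    have hb' : b ∉ g '' (closedBall (0 : ℂ) 1 ∩ {z | A z = c}) := by
      rintro ⟨z, ⟨hz, hzc⟩, hzb⟩
      rcases (mem_closedBall_zero_iff.1 hz).lt_or_eq with h1 | h1
      · have := H.hm (mem_ball_zero_iff.2 h1)
        rw [← ge z (mem_ball_zero_iff.2 h1), hzb] at this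
        exact H.dj b this nb
      · exact hcon z h1 hzc hzb
    obtain ⟨s, hs, hsb⟩ := Metric.isOpen_iff.1
      (hL.image_of_continuousOn (gc.mono inter_subset_left)).isClosed.isOpen_compl b hb'
    obtain ⟨δ, hδ, hnear⟩ := H.near b nb s hs
    have near : ∀ ζ : ℂ, ‖ζ‖ = 1 → g ζ = b → ∀ P : Set ℝ, P ∈ 𝓝 (A ζ) →
        ∃ w ∈ I, ‖w - b‖ < δ ∧ A (k w) ∈ P := by
      intro ζ hζ hζb P hP
      have hζ' : ζ ∈ closedBall (0 : ℂ) 1 := mem_closedBall_zero_iff.2 hζ.le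
      have := neBot_ball hζ'
      have ht : Tendsto h (𝓝[ball 0 1] ζ) (𝓝 b) := hζb ▸ tendsto_extendFrom (H.lim hx hζ')
      obtain ⟨z, ⟨hz1, hz2⟩, hz3⟩ := (((ht.eventually (ball_mem_nhds b hδ)).and
        (mem_nhdsWithin_of_mem_nhds (Ac.continuousAt.eventually hP))).and
          self_mem_nhdsWithin).exists
      exact ⟨h z, H.hm hz3, by rwa [← dist_eq_norm], by rwa [H.kh z hz3]⟩
    obtain ⟨w₁, hw₁, d₁, hw₁'⟩ := near ζ₁ h₁ he _ (Iio_mem_nhds hc1)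
    obtain ⟨w₂, hw₂, d₂, hw₂'⟩ := near ζ₂ h₂ rfl _ (Ioi_mem_nhds hc2)
    obtain ⟨S, hS, hSI, m1, m2, hSs⟩ := hnear w₁ hw₁ w₂ hw₂ d₁ d₂
    obtain ⟨w, hw, hwc⟩ := hS.intermediate_value m1 m2 (f := fun w => A (k w))
      (Ac.comp_continuousOn (H.kc.mono hSI))
      (show c ∈ Icc _ _ from ⟨le_of_lt hw₁', le_of_lt hw₂'⟩)
    exact hsb (show w ∈ ball b s by rw [mem_ball, dist_eq_norm]; exact hSs w hw)
      ⟨k w, ⟨ball_subset_closedBall (H.km (hSI hw)), hwc⟩, by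
        rw [ge _ (H.km (hSI hw)), H.hk w (hSI hw)]⟩
  obtain ⟨ξ, hξ, hξc⟩ := (isPreconnected_sphere (E := ℂ) rank_two 0 1).intermediate_value
    (mem_sphere_zero_iff_norm.2 h₁) (mem_sphere_zero_iff_norm.2 h₂) Ac.continuousOn
    (show (A ζ₁ + A ζ₂) / 2 ∈ Icc _ _ from ⟨by linarith, by linarith⟩)
  obtain ⟨η, hη, hηb⟩ := Metric.isOpen_iff.1 ((isOpen_Ioo (a := A ζ₁) (b := A ζ₂)).preimage Ac) ξ
    (by rw [mem_preimage, hξc]; constructor <;> linarith)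
  obtain ⟨z₁, nz₁, dz₁, gz₁⟩ := hnc ξ (mem_sphere_zero_iff_norm.1 hξ) η hη b nb
  have hev : ∀ᶠ z in 𝓝[closedBall 0 1] z₁, g z ≠ b ∧ A z ∈ Ioo (A ζ₁) (A ζ₂) :=
    ((gc z₁ (mem_closedBall_zero_iff.2 nz₁.le)).eventually (isOpen_ne.mem_nhds gz₁)).and
      (mem_nhdsWithin_of_mem_nhds ((isOpen_Ioo.preimage Ac).mem_nhds
        (hηb (by simpa [dist_eq_norm] using dz₁))))
  obtain ⟨ε, hε, hεb⟩ := Metric.mem_nhdsWithin_iff.1 hev
  set σ : ℂ → ℂ := fun z => u * u * conj z with hσ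
  have nσ : ∀ z, ‖σ z‖ = ‖z‖ := fun z => by simp [hσ, nu]
  have σσ : ∀ z, σ (σ z) = z := fun z => by
    simp only [hσ, map_mul, conj_conj]; linear_combination (u * conj u + 1) * z * huu
  have σA : ∀ z, σ z * conj u = conj (z * conj u) := fun z => by
    simp only [hσ, map_mul, conj_conj]; linear_combination u * conj z * huu
  obtain ⟨z, nz, dz, gz⟩ := hnc (σ z₁) (by rw [nσ, nz₁]) ε hε b nb
  have hσz := hεb (show σ z ∈ ball z₁ ε ∩ closedBall 0 1 from ⟨by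
    rw [mem_ball, dist_eq_norm, ← σσ z₁, show σ z - σ (σ z₁) = σ (z - σ z₁) by
      simp only [hσ, map_sub]; ring, nσ]; exact dz, by rw [mem_closedBall_zero_iff, nσ, nz]⟩)
  obtain ⟨z', nz', Az', gz'⟩ := claim _ hσz.2.1 hσz.2.2
  have hu0 : conj u ≠ 0 := fun h0 => by rw [h0, mul_zero] at huu; exact zero_ne_one huu
  rcases eq_or_conj (v := z' * conj u) (w := σ z * conj u) Az'
    (by rw [norm_mul, norm_mul, nz', nσ, nz]) with h' | h'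
  · exact hσz.1 (mul_right_cancel₀ hu0 h' ▸ gz')
  · rw [← σA, σσ] at h'
    exact gz (mul_right_cancel₀ hu0 h' ▸ gz')

/-- the conformal case: the extension is an embedding of the closed disc -/
lemma JD.ext (H : JD J I h k) (hd : DifferentiableOn ℂ h (ball 0 1)) :
    ∃ g : ℂ → ℂ, ContinuousOn g (closedBall 0 1) ∧ InjOn g (closedBall 0 1) ∧
      (∀ z ∈ ball (0 : ℂ) 1, g z = h z) ∧ ∀ z, ‖z‖ = 1 → g z ∈ J := by
  have hi : InjOn h (ball 0 1) := fun z hz z' hz' e => by rw [← H.kh z hz, e, H.kh z' hz']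
  have hx : Cross h := fun ζ hζ η hη δ hδ =>
    exists_crosscut hd hi (H.Ib.subset H.hm.image_subset) hζ hη hδ
  set g := extendFrom (ball 0 1) h with hg
  have ge : ∀ z ∈ ball (0 : ℂ) 1, g z = h z := extendFrom_extends H.hc
  have gc : ContinuousOn g (closedBall 0 1) := H.ext_cont hx
  have gm : ∀ z, ‖z‖ < 1 → g z ∉ J := fun z hz => by
    rw [ge z (mem_ball_zero_iff.2 hz)]; exact H.dj _ (H.hm (mem_ball_zero_iff.2 hz))
  have hnc : ∀ ξ : ℂ, ‖ξ‖ = 1 → ∀ η > 0, ∀ b ∈ J,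
      ∃ z : ℂ, ‖z‖ = 1 ∧ ‖z - ξ‖ < η ∧ g z ≠ b := by
    intro ξ hξ η hη b hb
    by_contra hcon
    push Not at hcon
    have := no_arc (Ψ := g) (c := b) ⟨hd.congr ge, by
      rw [closure_ball 0 one_ne_zero]; exact gc⟩ hξ hη hcon
    exact gm 0 (by simp) (this ▸ hb)
  refine ⟨g, gc, fun z hz z' hz' e => ?_, ge, fun z hz => H.ext_mem hx hz⟩
  rcases (mem_closedBall_zero_iff.1 hz).lt_or_eq with h1 | h1 <;>
    rcases (mem_closedBall_zero_iff.1 hz').lt_or_eq with h2 | h2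
  · have m1 := mem_ball_zero_iff.2 h1
    have m2 := mem_ball_zero_iff.2 h2
    exact hi m1 m2 (by rw [← ge z m1, e, ge z' m2])
  · exact absurd (e ▸ H.ext_mem hx h2) (gm z h1)
  · exact absurd (e ▸ H.ext_mem hx h1) (gm z' h2)
  · exact H.ext_inj hx hnc h1 h2 e

end E

end

end Pool.Agent.Lib.MP_d32f96_gt
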