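import Pool.Agent.Lib.MP_d32f96_gt.Defs

/-! Basic toolkit: topological group, degree, paths, limits. -/

namespace Pool.Agent.Lib.MP_d32f96_gt

open Set Filter Topology Metric Complex Bornology
open Pool.Agent.Lib.MP_1e9af3_an Pool.Agent.Lib.MP_069d55_gt

noncomputable section

/-! ### topology on `H` -/

lemma inducing_toC : IsInducing toC := ⟨rfl⟩

lemma cont_iff {T : Type*} [TopologicalSpace T] {A : T → H} :
    Continuous A ↔ Continuous fun q : T × ℂ => A q.1 q.2 := by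
  rw [inducing_toC.continuous_iff]
  constructor
  · intro h
    exact ContinuousMap.continuous_uncurry_of_continuous ⟨_, h⟩
  · intro h
    exact ContinuousMap.continuous_of_continuous_uncurry _ h

lemma continuous_ev : Continuous fun q : H × ℂ => q.1 q.2 := cont_iff.1 continuous_id

@[fun_prop] lemma Continuous.hev {T : Type*} [TopologicalSpace T] {A : T → H} {x : T → ℂ}
    (hA : Continuous A) (hx : Continuous x) : Continuous fun t => A t (x t) :=
  continuous_ev.comp (hA.prodMk hx)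

/-- properness in norm form -/
lemma proper (F : H) (R : ℝ) : ∃ R', ∀ x, R' ≤ ‖x‖ → R ≤ ‖F x‖ := by
  obtain ⟨R', hR'⟩ := ((isCompact_closedBall (0 : ℂ) R).image
    (F⁻¹ : H).continuous).isBounded.subset_ball 0
  refine ⟨R', fun x hx => ?_⟩
  by_contra h
  have := hR' ⟨F x, mem_closedBall_zero_iff.2 (not_le.1 h).le, hinv_apply F x⟩
  exact (mem_ball_zero_iff.1 this).not_ge hx

lemma bdd_on (F : H) (R : ℝ) : ∃ R', ∀ x, ‖x‖ ≤ R → ‖F x‖ < R' := by
  obtain ⟨R', hR'⟩ := ((isCompact_closedBall (0 : ℂ) R).image F.continuous).isBounded.subset_ball 0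
  exact ⟨R', fun x hx => mem_ball_zero_iff.1 (hR' ⟨x, mem_closedBall_zero_iff.2 hx, rfl⟩)⟩

lemma tendsto_cocompact (F : H) : Tendsto F (cocompact ℂ) (cocompact ℂ) :=
  F.isClosedEmbedding.tendsto_cocompact

lemma isBounded_image (F : H) {A : Set ℂ} (h : IsBounded A) : IsBounded (F '' A) :=
  (h.isCompact_closure.image F.continuous).isBounded.subset (image_mono subset_closure)

lemma isBounded_image_iff (F : H) {A : Set ℂ} : IsBounded (F '' A) ↔ IsBounded A :=
  ⟨fun h => by simpa only [image_hinv rfl] using isBounded_image F⁻¹ h, isBounded_image F⟩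

lemma CCU.image {C : Set ℂ} (h : CCU C) (F : H) : CCU (F '' C) :=
  ⟨F.isClosedMap _ h.1, h.2.1.image _ F.continuous.continuousOn,
    fun hb => h.2.2 ((isBounded_image_iff F).1 hb)⟩

lemma preconn_out (R : ℝ) : IsPreconnected {z : ℂ | R ≤ ‖z‖} := by
  rcases le_total 0 R with h | h
  · simpa using preconn_ann 0 (isPreconnected_Ici (a := R)) (Ici_subset_Ici.2 h)
  · rw [show {z : ℂ | R ≤ ‖z‖} = univ from eq_univ_of_forall fun z => h.trans (norm_nonneg z)]
    exact isPreconnected_univ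

lemma preconn_out' (R : ℝ) : IsPreconnected {z : ℂ | R < ‖z‖} := by
  rcases le_or_gt 0 R with h | h
  · simpa using preconn_ann 0 (isPreconnected_Ioi (a := R)) (fun r hr => h.trans (le_of_lt hr))
  · rw [show {z : ℂ | R < ‖z‖} = univ from eq_univ_of_forall fun z => h.trans_le (norm_nonneg z)]
    exact isPreconnected_univ

lemma not_bdd_out (R : ℝ) : ¬ IsBounded {z : ℂ | R < ‖z‖} := fun h => by
  obtain ⟨M, hM⟩ := h.exists_norm_le
  have := hM ((max R M + 1 + |R| + |M| : ℝ) : ℂ) (by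
    show R < _
    rw [norm_real, Real.norm_eq_abs]
    refine lt_of_lt_of_le ?_ (le_abs_self _)
    linarith [le_max_left R M, abs_nonneg R, abs_nonneg M])
  rw [norm_real, Real.norm_eq_abs] at this
  linarith [le_max_right R M, abs_nonneg R, abs_nonneg M,
    le_abs_self (max R M + 1 + |R| + |M|)]

/-- a connected set missing the image of a sphere and meeting the image of the ball -/
lemma subset_image_ball (F : H) {c : ℂ} {r : ℝ} {A : Set ℂ} (hA : IsPreconnected A)
    (hs : ∀ z ∈ A, z ∉ F '' sphere c r) (hn : (A ∩ F '' ball c r).Nonempty) :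
    A ⊆ F '' ball c r := by
  refine hA.subset_left_of_subset_union (v := F '' (closedBall c r)ᶜ) (F.isOpenMap _ isOpen_ball)
    (F.isOpenMap _ isClosed_closedBall.isOpen_compl) ?_ (fun z hz => ?_) hn
  · rw [Set.disjoint_image_iff F.injective]
    exact disjoint_compl_right.mono_left ball_subset_closedBall
  · rcases lt_trichotomy (dist (F⁻¹ z) c) r with h | h | h
    · exact Or.inl (mem_image_h.2 h)
    · exact absurd (mem_image_h.2 h) (hs z hz)
    · exact Or.inr (mem_image_h.2 (not_le.2 h))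

lemma continuous_hinv : Continuous fun F : H => F⁻¹ := by
  refine cont_iff.2 (continuous_iff_continuousAt.2 fun q => ?_)
  obtain ⟨F, y⟩ := q
  refine Metric.tendsto_nhds.2 fun ε hε => ?_
  set x := F⁻¹ y with hx
  have hy : y ∉ F '' sphere x ε := fun h => by
    rw [mem_image_h, ← hx] at h; simp at h; exact hε.ne h
  obtain ⟨δ, hδ, hb⟩ := Metric.isOpen_iff.1
    ((isCompact_sphere x ε).image F.continuous).isClosed.isOpen_compl y hy
  have h1 : ∀ᶠ G : H in 𝓝 F, ∀ z ∈ closedBall x ε, dist (G z) (F z) < δ / 2 := by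
    refine (isCompact_closedBall x ε).eventually_forall_of_forall_eventually fun z _ => ?_
    have : Continuous fun q : H × ℂ => dist (q.1 q.2) (F q.2) :=
      continuous_ev.dist (F.continuous.comp continuous_snd)
    exact this.continuousAt.eventually_lt continuousAt_const (by simpa using hδ)
  rw [nhds_prod_eq]
  filter_upwards [h1.prod_mk (ball_mem_nhds y (half_pos hδ))] with q hq
  obtain ⟨hq1, hq2⟩ := hq
  have := subset_image_ball q.1 (c := x) (r := ε) (A := ball y (δ / 2))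
    (convex_ball y _).isPreconnected (by
      rintro _ hz ⟨z, hz', rfl⟩
      have h2 := hq1 z (sphere_subset_closedBall hz')
      refine hb (a := F z) ?_ ⟨z, hz', rfl⟩
      rw [mem_ball] at hz ⊢
      linarith [dist_triangle_left (F z) y (q.1 z)])
    ⟨q.1 x, by
      have h2 := hq1 x (mem_closedBall_self hε.le)
      rwa [hx, happly_inv] at h2, x, mem_ball_self hε, rfl⟩
  exact mem_image_h.1 (this hq2)

instance : IsTopologicalGroup H where
  continuous_mul := cont_iff.2 (continuous_ev.comp (continuous_fst.fst.prodMk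
    (continuous_ev.comp (continuous_fst.snd.prodMk continuous_snd))))
  continuous_inv := continuous_hinv

/-- convergence in `H` from uniform convergence on balls -/
lemma tendsto_H {ι : Type*} {l : Filter ι} {A : ι → H} {F : H}
    (h : ∀ R ε : ℝ, 0 < ε → ∀ᶠ i in l, ∀ z, ‖z‖ ≤ R → ‖A i z - F z‖ < ε) : Tendsto A l (𝓝 F) := by
  rw [inducing_toC.tendsto_nhds_iff, ContinuousMap.tendsto_iff_forall_isCompact_tendstoUniformlyOn]
  intro K hK
  obtain ⟨R, hR⟩ := hK.isBounded.exists_norm_le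
  refine Metric.tendstoUniformlyOn_iff.2 fun ε hε => ?_
  filter_upwards [h R ε hε] with i hi z hz
  rw [dist_comm, dist_eq_norm]
  exact hi z (hR z hz)

/-! ### degree -/

lemma deg_congr {F G : H} {p : ℂ} (h : ∀ᶠ z in 𝓝 p, F z = G z) : deg F = deg G :=
  ((hasDeg_homeo F p).congr (G := G) h).unique (hasDeg_homeo G p)

lemma isLocallyConstant_deg : IsLocallyConstant deg := by
  refine (IsLocallyConstant.iff_eventually_eq _).2 fun F => ?_
  have := wind_eventually (H := fun G : H => MP_069d55_gt.lp G 0 1) (S := univ) (t₀ := F) (mem_univ _)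
    (Continuous.continuousOn (by unfold MP_069d55_gt.lp; fun_prop))
    ((locInj_homeo F 0 one_pos).lp_ne one_pos le_rfl) (fun t _ => lp_per t 0 1)
  rwa [nhdsWithin_univ] at this

lemma deg_path {A : ℝ → H} (hA : Continuous A) (s t : ℝ) : deg (A s) = deg (A t) :=
  (isLocallyConstant_deg.comp_continuous hA).apply_eq_of_preconnectedSpace s t

lemma cnj_apply (z : ℂ) : cnj z = (starRingEnd ℂ) z := rfl

lemma conj_ee (t : ℝ) : (starRingEnd ℂ) (ee t) = (ee t)⁻¹ := by
  rw [← ee_neg, ee, ee, ← exp_conj]; congr 1; simp [tpi, map_ofNat]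

lemma deg_cnj : deg cnj = -1 := by
  have := (hasWind_circle (c := 1) one_ne_zero).inv
  refine (this.congr fun θ => ?_).wind_eq
  simp [MP_069d55_gt.lp, cnj_apply, conj_ee]

lemma deg_or (F : H) : deg F = 1 ∨ deg (F * cnj) = 1 := by
  have h := deg_mul F⁻¹ F
  rw [inv_mul_cancel, deg_one] at h
  rcases Int.eq_one_or_neg_one_of_mul_eq_one h.symm with h1 | h1
  · exact Or.inl h1
  · right; rw [deg_mul, deg_cnj, h1]; rfl

lemma deg_mul_one {F G : H} (hF : deg F = 1) (hG : deg G = 1) : deg (F * G) = 1 := by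
  rw [deg_mul, hF, hG]; rfl

lemma deg_conj (F h : H) : deg (h⁻¹ * F * h) = deg F := by
  have := deg_mul h⁻¹ h
  rw [inv_mul_cancel, deg_one] at this
  rw [deg_mul, deg_mul, mul_comm (deg F), ← mul_assoc, ← this, one_mul]

lemma deg_zpow {F : H} (hF : deg F = 1) (n : ℤ) : deg (F ^ n) = 1 := by
  induction n using Int.induction_on with
  | zero => simpa using deg_one
  | succ n ih => rw [zpow_add_one]; exact deg_mul_one ih hF
  | pred n ih => rw [zpow_sub_one]; exact deg_mul_one ih (deg_inv hF)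

/-- multiplication by a nonzero constant -/
def mulH (c : ℂ) (hc : c ≠ 0) : H := Homeomorph.mulLeft₀ c hc

lemma mulH_apply (c : ℂ) (hc : c ≠ 0) (z : ℂ) : mulH c hc z = c * z := rfl

lemma mulH_inv_apply (c : ℂ) (hc : c ≠ 0) (z : ℂ) : (mulH c hc)⁻¹ z = c⁻¹ * z :=
  hinv_eq (by rw [mulH_apply, mul_inv_cancel_left₀ hc])

lemma deg_of_mul {F : H} {c : ℂ} (h : ∀ z, F z = c * z) : deg F = 1 := by
  have hc : c ≠ 0 := fun h0 => one_ne_zero (F.injective (show F 1 = F 0 by simp [h, h0]))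
  exact ((hasWind_circle hc).congr fun θ => by simp [MP_069d55_gt.lp, h]).wind_eq

lemma dbl_apply (z : ℂ) : dbl z = 2 * z := rfl

lemma deg_dbl : deg dbl = 1 := deg_of_mul dbl_apply

lemma twist_apply (c : ℝ) (z : ℂ) : twist c z = tw c z := rfl

lemma continuous_twist : Continuous twist := cont_iff.2 continuous_tw

lemma twist_zero : twist 0 = 1 := Homeomorph.ext tw_zero

lemma deg_twist (c : ℝ) : deg (twist c) = 1 := by
  rw [deg_path continuous_twist c 0, twist_zero, deg_one]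

/-! ### paths inside a subgroup -/

lemma IsoIn.deg {Γ : Set H} {a : H} (h : IsoIn Γ a) : deg a = 1 := by
  obtain ⟨A, hA, h0, h1, -⟩ := h
  rw [← h1, deg_path hA 1 0, h0, deg_one]

lemma IsoIn.mem {Γ : Set H} {a : H} (h : IsoIn Γ a) : a ∈ Γ := by
  obtain ⟨A, -, -, h1, h2⟩ := h
  exact h1 ▸ h2 1

lemma IsoIn.mul {Γ : Set H} (hΓ : ∀ a ∈ Γ, ∀ b ∈ Γ, a * b ∈ Γ) {a b : H} (h : IsoIn Γ a)
    (h' : IsoIn Γ b) : IsoIn Γ (a * b) := by
  obtain ⟨A, hA, h0, h1, h2⟩ := h
  obtain ⟨B, hB, g0, g1, g2⟩ := h'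
  exact ⟨fun t => A t * B t, hA.mul hB, by simp [h0, g0], by simp [h1, g1],
    fun t => hΓ _ (h2 t) _ (g2 t)⟩

lemma IsoIn.inv {Γ : Set H} (hΓ : ∀ a ∈ Γ, a⁻¹ ∈ Γ) {a : H} (h : IsoIn Γ a) : IsoIn Γ a⁻¹ := by
  obtain ⟨A, hA, h0, h1, h2⟩ := h
  exact ⟨fun t => (A t)⁻¹, hA.inv, by simp [h0], by simp [h1], fun t => hΓ _ (h2 t)⟩

lemma IsoIn.conj {Γ : Set H} (hΓ : ∀ a ∈ Γ, ∀ b ∈ Γ, a * b ∈ Γ) (hΓ' : ∀ a ∈ Γ, a⁻¹ ∈ Γ) {a k : H}
    (h : IsoIn Γ a) (hk : k ∈ Γ) : IsoIn Γ (k * a * k⁻¹) := by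
  obtain ⟨A, hA, h0, h1, h2⟩ := h
  exact ⟨fun t => k * A t * k⁻¹, (continuous_const.mul hA).mul continuous_const, by simp [h0],
    by simp [h1], fun t => hΓ _ (hΓ _ hk _ (h2 t)) _ (hΓ' _ hk)⟩

lemma cent_mul : ∀ a ∈ Cent, ∀ b ∈ Cent, a * b ∈ Cent := fun a ha b hb z => by
  rw [hmul, hmul, hb, ha]

lemma cent_inv : ∀ a ∈ Cent, a⁻¹ ∈ Cent := fun a ha z => hinv_eq (by rw [ha, happly_inv])

lemma cent_zero {e : H} (h : e ∈ Cent) : e 0 = 0 := by
  have := h 0
  rw [mul_zero] at this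
  linear_combination -this

lemma cent_iff {e : H} : e ∈ Cent ↔ dbl * e = e * dbl :=
  ⟨fun h => Homeomorph.ext fun z => (h z).symm, fun h z => (congrArg (fun F : H => F z) h).symm⟩

lemma tor_mul : ∀ a ∈ Tor, ∀ b ∈ Tor, a * b ∈ Tor := fun a ha b hb z => by
  simp only [hmul, (hb z).1, (hb z).2, (ha _).1, (ha _).2, and_self]

lemma tor_inv : ∀ a ∈ Tor, a⁻¹ ∈ Tor := fun a ha z =>
  ⟨hinv_eq (by rw [(ha _).1, happly_inv]), hinv_eq (by rw [(ha _).2, happly_inv])⟩

/-! ### the relation `Conn` -/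

lemma conn_refl {p : H × H} (h : p ∈ Hom) : Conn p p := ⟨h, mem_connectedComponentIn h⟩

lemma Conn.right {p q : H × H} (h : Conn p q) : q ∈ Hom := connectedComponentIn_subset _ _ h.2

lemma Conn.symm {p q : H × H} (h : Conn p q) : Conn q p :=
  ⟨h.right, connectedComponentIn_eq h.2 ▸ mem_connectedComponentIn h.1⟩

lemma Conn.trans {p q r : H × H} (h : Conn p q) (h' : Conn q r) : Conn p r :=
  ⟨h.1, connectedComponentIn_eq h.2 ▸ h'.2⟩

lemma conn_of_preconn {S : Set (H × H)} (hS : IsPreconnected S) (h : S ⊆ Hom) {p q : H × H}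
    (hp : p ∈ S) (hq : q ∈ S) : Conn p q := ⟨h hp, hS.subset_connectedComponentIn hp h hq⟩

lemma conn_path {A B : ℝ → H} (hA : Continuous A) (hB : Continuous B)
    (h : ∀ t ∈ Icc (0 : ℝ) 1, (A t, B t) ∈ Hom) : Conn (A 0, B 0) (A 1, B 1) :=
  conn_of_preconn (isPreconnected_Icc.image (fun t => (A t, B t)) (hA.prodMk hB).continuousOn)
    (by rintro _ ⟨t, ht, rfl⟩; exact h t ht) ⟨0, by simp, rfl⟩ ⟨1, by simp, rfl⟩

lemma conn_map {φ : H × H → H × H} (hφ : Continuous φ) (hm : MapsTo φ Hom Hom) {p q : H × H}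
    (h : Conn p q) : Conn (φ p) (φ q) :=
  conn_of_preconn (isPreconnected_connectedComponentIn.image φ hφ.continuousOn)
    (by rintro _ ⟨x, hx, rfl⟩; exact hm (connectedComponentIn_subset _ _ hx))
    ⟨p, mem_connectedComponentIn h.1, rfl⟩ ⟨q, h.2, rfl⟩

lemma hom_conj {f g : H} (h : (f, g) ∈ Hom) (k : H) : (k⁻¹ * f * k, k⁻¹ * g * k) ∈ Hom := by
  refine ⟨(deg_conj f k).trans h.1, (deg_conj g k).trans h.2.1, ?_⟩
  have : f * g = g * f := h.2.2
  calc k⁻¹ * f * k * (k⁻¹ * g * k) = k⁻¹ * (f * g) * k := by group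
    _ = k⁻¹ * g * k * (k⁻¹ * f * k) := by rw [this]; group

lemma conn_closure {p q : H × H} (hp : p ∈ Hom) (h : p ∈ closure {x | Conn q x}) : Conn q p := by
  obtain ⟨x, hx⟩ := closure_nonempty_iff.1 ⟨p, h⟩
  have hq : q ∈ Hom := hx.1
  have e : {x | Conn q x} = connectedComponentIn Hom q := by ext x; simp [Conn, hq]
  rw [e] at h
  refine conn_of_preconn (S := insert p (connectedComponentIn Hom q))
    (isPreconnected_connectedComponentIn.subset_closure (subset_insert _ _)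
      (insert_subset h subset_closure))
    (insert_subset hp (connectedComponentIn_subset _ _))
    (Or.inr (mem_connectedComponentIn hq)) (Or.inl rfl)

lemma conn_tendsto {ι : Type*} {l : Filter ι} [l.NeBot] {A B : ι → H} {f g : H} {q : H × H}
    (hp : (f, g) ∈ Hom) (hA : Tendsto A l (𝓝 f)) (hB : Tendsto B l (𝓝 g))
    (h : ∀ᶠ i in l, Conn q (A i, B i)) : Conn q (f, g) :=
  conn_closure hp (mem_closure_of_tendsto (hA.prodMk_nhds hB) h)

lemma conn_lim {f g : H} {q : H × H} (hp : (f, g) ∈ Hom)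
    (h : ∀ R ε : ℝ, 0 < ε → ∃ f' g' : H, Conn q (f', g') ∧
      ∀ z, ‖z‖ ≤ R → ‖f' z - f z‖ < ε ∧ ‖g' z - g z‖ < ε) : Conn q (f, g) := by
  choose A B hC hAB using fun n : ℕ => h n (1 / (n + 1)) Nat.one_div_pos_of_nat
  have key : ∀ R ε : ℝ, 0 < ε → ∀ᶠ n : ℕ in atTop, R ≤ n ∧ 1 / ((n : ℝ) + 1) < ε := fun R ε hε =>
    (tendsto_natCast_atTop_atTop.eventually_ge_atTop R).and
      (tendsto_one_div_add_atTop_nhds_zero_nat.eventually_lt_const hε)
  refine conn_tendsto (l := atTop) hp (tendsto_H fun R ε hε => ?_) (tendsto_H fun R ε hε => ?_)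
    (Eventually.of_forall hC)
  · filter_upwards [key R ε hε] with n hn z hz using (hAB n z (hz.trans hn.1)).1.trans hn.2
  · filter_upwards [key R ε hε] with n hn z hz using (hAB n z (hz.trans hn.1)).2.trans hn.2

/-! ### words -/

lemma wd_add {f g : H} (h : f * g = g * f) (p q : ℤ × ℤ) :
    wd f g (p + q) = wd f g p * wd f g q := by
  have hc : Commute f g := h
  simp only [wd, Prod.fst_add, Prod.snd_add, zpow_add, mul_assoc]
  rw [← mul_assoc (f ^ q.1), (hc.zpow_zpow q.1 p.2).eq, mul_assoc]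

lemma wd_zero (f g : H) : wd f g 0 = 1 := by simp [wd]

lemma wd_neg {f g : H} (h : f * g = g * f) (p : ℤ × ℤ) : wd f g (-p) = (wd f g p)⁻¹ :=
  eq_inv_of_mul_eq_one_left (by rw [← wd_add h, neg_add_cancel, wd_zero])

lemma wd_nsmul {f g : H} (h : f * g = g * f) (p : ℤ × ℤ) (n : ℕ) :
    wd f g (n • p) = wd f g p ^ n := by
  induction n with
  | zero => simp [wd_zero]
  | succ n ih => rw [succ_nsmul, wd_add h, ih, pow_succ]

lemma wd_zsmul {f g : H} (h : f * g = g * f) (p : ℤ × ℤ) (n : ℤ) :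
    wd f g (n • p) = wd f g p ^ n := by
  obtain ⟨m, rfl | rfl⟩ := n.eq_nat_or_neg
  · rw [natCast_zsmul, wd_nsmul h, zpow_natCast]
  · rw [neg_smul, wd_neg h, natCast_zsmul, wd_nsmul h, zpow_neg, zpow_natCast]

lemma wd_hom {f g : H} (h : (f, g) ∈ Hom) (p q : ℤ × ℤ) : (wd f g p, wd f g q) ∈ Hom :=
  ⟨deg_mul_one (deg_zpow h.1 _) (deg_zpow h.2.1 _), deg_mul_one (deg_zpow h.1 _) (deg_zpow h.2.1 _),
    by show wd f g p * wd f g q = wd f g q * wd f g p
       rw [← wd_add h.2.2, ← wd_add h.2.2, add_comm]⟩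

lemma conn_word {f g f' g' : H} (h : Conn (f, g) (f', g')) (p q : ℤ × ℤ) :
    Conn (wd f g p, wd f g q) (wd f' g' p, wd f' g' q) :=
  conn_map (φ := fun x => (wd x.1 x.2 p, wd x.1 x.2 q)) (by unfold wd; fun_prop)
    (fun x hx => wd_hom hx p q) h

lemma ip_add (p q : ℤ × ℤ) (ν : ℂ) : ip (p + q) ν = ip p ν + ip q ν := by
  simp only [ip, Prod.fst_add, Prod.snd_add]; push_cast; ring

lemma ip_neg (p : ℤ × ℤ) (ν : ℂ) : ip (-p) ν = -ip p ν := by
  simp only [ip, Prod.fst_neg, Prod.snd_neg]; push_cast; ring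

lemma ip_nsmul (n : ℕ) (p : ℤ × ℤ) (ν : ℂ) : ip (n • p) ν = n * ip p ν := by
  simp only [ip, Prod.smul_fst, Prod.smul_snd]; simp only [nsmul_eq_mul]; push_cast; ring

/-! ### building homeomorphisms -/

lemma exists_of_proper {f : ℂ → ℂ} (hc : Continuous f) (hb : Function.Bijective f)
    (hp : ∀ R : ℝ, ∃ R' : ℝ, ∀ x, R' ≤ ‖x‖ → R ≤ ‖f x‖) : ∃ F : H, ∀ z, F z = f z := by
  have ht : Tendsto f (cocompact ℂ) (cocompact ℂ) := by
    rw [← Metric.cobounded_eq_cocompact, ← tendsto_norm_atTop_iff_cobounded]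
    refine tendsto_atTop.2 fun R => ?_
    obtain ⟨R', h⟩ := hp R
    exact ((_root_.tendsto_norm_cobounded_atTop (E := ℂ)).eventually_ge_atTop R').mono h
  have hcl : IsClosedMap f := (isProperMap_iff_tendsto_cocompact.2 ⟨hc, ht⟩).isClosedMap
  exact ⟨(Equiv.ofBijective f hb).toHomeomorphOfContinuousClosed hc hcl, fun z => rfl⟩

/-- limit of an eventually constant sequence of homeomorphisms -/
lemma exists_ec {h : ℕ → H} (hh : ∀ R : ℝ, ∀ᶠ n in atTop, ∀ z, ‖z‖ ≤ R →
      h (n + 1) z = h n z ∧ (h (n + 1))⁻¹ z = (h n)⁻¹ z) :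
    ∃ g : H, ∀ R : ℝ, ∀ᶠ n in atTop, ∀ z, ‖z‖ ≤ R → g z = h n z ∧ g⁻¹ z = (h n)⁻¹ z := by
  have key : ∀ u : ℕ → ℂ → ℂ, (∀ n, Continuous (u n)) →
      (∀ R : ℝ, ∀ᶠ n in atTop, ∀ z, ‖z‖ ≤ R → u (n + 1) z = u n z) →
      ∃ v : ℂ → ℂ, Continuous v ∧ ∀ R : ℝ, ∀ᶠ n in atTop, ∀ z, ‖z‖ ≤ R → v z = u n z := by
    intro u hc hu
    choose N hN using fun R => eventually_atTop.1 (hu R)
    have h1 : ∀ R z, ‖z‖ ≤ R → ∀ n, N R ≤ n → u n z = u (N R) z := fun R z hz n hn => by
      induction n, hn using Nat.le_induction with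
      | base => rfl
      | succ n hn ih => rw [hN R n hn z hz, ih]
    have h2 : ∀ R z, ‖z‖ ≤ R → ∀ n, N R ≤ n → u (N ‖z‖) z = u n z := fun R z hz n hn => by
      rw [← h1 _ z le_rfl _ (le_max_left _ (N R)), h1 R z hz _ (le_max_right _ _), h1 R z hz n hn]
    refine ⟨fun z => u (N ‖z‖) z, continuous_iff_continuousAt.2 fun z => ?_, fun R =>
      eventually_atTop.2 ⟨N R, fun n hn z hz => h2 R z hz n hn⟩⟩
    refine (hc (N (‖z‖ + 1))).continuousAt.congr ?_
    filter_upwards [continuous_norm.continuousAt.eventually_lt continuousAt_const (lt_add_one ‖z‖)]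
      with w hw using (h2 _ w hw.le _ le_rfl).symm
  obtain ⟨v, vc, hv⟩ := key (fun n => h n) (fun n => (h n).continuous)
    fun R => (hh R).mono fun n hn z hz => (hn z hz).1
  obtain ⟨w, wc, hw⟩ := key (fun n => ((h n)⁻¹ : H)) (fun n => ((h n)⁻¹ : H).continuous)
    fun R => (hh R).mono fun n hn z hz => (hn z hz).2
  refine ⟨⟨⟨v, w, fun z => ?_, fun z => ?_⟩, vc, wc⟩, fun R => ?_⟩
  · obtain ⟨n, h1, h2⟩ := ((hv ‖z‖).and (hw ‖v z‖)).exists
    rw [h2 _ le_rfl, h1 _ le_rfl, hinv_apply]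
  · obtain ⟨n, h1, h2⟩ := ((hw ‖z‖).and (hv ‖w z‖)).exists
    rw [h2 _ le_rfl, h1 _ le_rfl, happly_inv]
  · filter_upwards [hv R, hw R] with n h1 h2 z hz using ⟨h1 z hz, h2 z hz⟩

lemma continuous_invc {F : H} (h0 : F 0 = 0) : Continuous fun z => (F z⁻¹)⁻¹ := by
  refine continuous_iff_continuousAt.2 fun z => ?_
  by_cases hz : z = 0
  · subst hz
    rw [← continuousWithinAt_compl_self, ContinuousWithinAt, inv_zero, h0, inv_zero]
    have h1 := tendsto_cocompact F
    rw [← Metric.cobounded_eq_cocompact] at h1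
    exact tendsto_inv₀_cobounded.comp (h1.comp tendsto_inv₀_nhdsNE_zero)
  · refine (F.continuous.continuousAt.comp (continuousAt_inv₀ hz)).inv₀ fun h => ?_
    exact inv_ne_zero hz (F.injective (h.trans h0.symm))

/-- conjugation by the inversion -/
lemma exists_invc {F : H} (h0 : F 0 = 0) : ∃ G : H, ∀ z, G z = (F z⁻¹)⁻¹ :=
  ⟨⟨⟨fun z => (F z⁻¹)⁻¹, fun z => (F⁻¹ z⁻¹)⁻¹, fun z => by simp,
    fun z => by simp⟩, continuous_invc h0, continuous_invc (hinv_eq h0)⟩, fun _ => rfl⟩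

lemma image_ball_subset_of_sphere {F G : H} {r s : ℝ}
    (h : F '' sphere 0 r = G '' sphere 0 s) : F '' ball 0 r ⊆ G '' ball 0 s := by
  intro y hy
  by_contra hn
  have hd : ∀ z ∈ G '' (closedBall 0 s)ᶜ, z ∉ F '' sphere 0 r := fun z hz hz' => by
    rw [h, mem_image_h] at hz'
    exact mem_image_h.1 hz (sphere_subset_closedBall hz')
  have hy' : y ∈ G '' (closedBall 0 s)ᶜ := by
    rw [mem_image_h] at hn ⊢
    intro h1
    have h2 : y ∈ G '' sphere 0 s := mem_image_h.2 (le_antisymm h1 (not_lt.1 hn))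
    rw [← h, mem_image_h] at h2
    exact (ne_of_lt (mem_ball.1 (mem_image_h.1 hy))) h2
  have e : (closedBall (0 : ℂ) s)ᶜ = {z | s < ‖z‖} := by ext z; simp
  have := subset_image_ball F ((e ▸ preconn_out' s).image G G.continuous.continuousOn) hd
    ⟨y, hy', hy⟩
  exact not_bdd_out s (e ▸ (isBounded_image_iff G).1
    ((isBounded_image F isBounded_ball).subset this))

lemma image_closedBall_of_sphere {F G : H} {r s : ℝ}
    (h : F '' sphere 0 r = G '' sphere 0 s) : F '' closedBall 0 r = G '' closedBall 0 s := by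
  rw [← ball_union_sphere, ← ball_union_sphere, image_union, image_union, h,
    (image_ball_subset_of_sphere h).antisymm (image_ball_subset_of_sphere h.symm)]

lemma image_ball_of_closedBall {F G : H} {r s : ℝ} (hr : r ≠ 0) (hs : s ≠ 0)
    (h : F '' closedBall 0 r = G '' closedBall 0 s) : F '' ball 0 r = G '' ball 0 s := by
  rw [← interior_closedBall _ hr, ← interior_closedBall _ hs, F.image_interior, G.image_interior, h]

lemma image_sphere_of_closedBall {F G : H} {r s : ℝ} (hr : r ≠ 0) (hs : s ≠ 0)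
    (h : F '' closedBall 0 r = G '' closedBall 0 s) : F '' sphere 0 r = G '' sphere 0 s := by
  rw [← frontier_closedBall _ hr, ← frontier_closedBall _ hs, F.image_frontier, G.image_frontier, h]

open Classical in
/-- conjugation by the dilation `z ↦ t z`, the identity for `t = 0` -/
def dil (k : H) (t : ℝ) : H :=
  if h : (t : ℂ) = 0 then 1 else mulH t h * k * (mulH t h)⁻¹

lemma dil_apply (k : H) {t : ℝ} (ht : t ≠ 0) (z : ℂ) : dil k t z = t * k ((t : ℂ)⁻¹ * z) := by
  rw [dil, dif_neg (ofReal_ne_zero.2 ht), hmul, hmul, mulH_apply, mulH_inv_apply]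

lemma dil_zero (k : H) : dil k 0 = 1 := by simp [dil]

lemma dil_one (k : H) : dil k 1 = k := Homeomorph.ext fun z => by simp [dil_apply]

lemma continuousAt_dil (k : H) {q : ℝ × ℂ} (hq : q.1 ≠ 0) :
    ContinuousAt (fun q : ℝ × ℂ => dil k q.1 q.2) q := by
  have h : ContinuousAt (fun q : ℝ × ℂ => (q.1 : ℂ) * k ((q.1 : ℂ)⁻¹ * q.2)) q := by
    have : ((q.1 : ℝ) : ℂ) ≠ 0 := ofReal_ne_zero.2 hq
    fun_prop (disch := assumption)
  refine h.congr ?_
  filter_upwards [continuousAt_fst.eventually_ne hq] with x hx using (dil_apply k hx _).symm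

/-- Alexander trick for bounded displacement -/
lemma continuous_dil {k : H} {M : ℝ} (hM : ∀ z, ‖k z - z‖ ≤ M) : Continuous (dil k) := by
  refine cont_iff.2 (continuous_iff_continuousAt.2 fun q => ?_)
  by_cases hq : q.1 = 0
  · have hb : ∀ x : ℝ × ℂ, ‖dil k x.1 x.2 - x.2‖ ≤ |x.1| * M := fun x => by
      by_cases hx : x.1 = 0
      · simp [hx, dil_zero]
      · have h0 : ((x.1 : ℝ) : ℂ) ≠ 0 := ofReal_ne_zero.2 hx
        have : dil k x.1 x.2 - x.2 = x.1 * (k ((x.1 : ℂ)⁻¹ * x.2) - (x.1 : ℂ)⁻¹ * x.2) := by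
          rw [dil_apply k hx]; field_simp
        rw [this, norm_mul, norm_real, Real.norm_eq_abs]
        exact mul_le_mul_of_nonneg_left (hM _) (abs_nonneg _)
    have h1 : Tendsto (fun x : ℝ × ℂ => dil k x.1 x.2 - x.2) (𝓝 q) (𝓝 0) := by
      refine squeeze_zero_norm hb ?_
      have : Continuous fun x : ℝ × ℂ => |x.1| * M := by fun_prop
      simpa [hq] using this.tendsto q
    have h2 := h1.add (continuous_snd.tendsto q)
    simpa [ContinuousAt, hq, dil_zero] using h2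
  · exact continuousAt_dil k hq

lemma Supp.bdd {k : H} (hk : Supp k univ) : ∃ M, ∀ z, ‖k z - z‖ ≤ M := by
  obtain ⟨K, hK, -, hf⟩ := hk
  obtain ⟨M, hM⟩ := hK.exists_bound_of_continuousOn (f := fun z => k z - z) (by fun_prop)
  refine ⟨max M 0, fun z => ?_⟩
  by_cases hz : z ∈ K
  · exact (hM z hz).trans (le_max_left _ _)
  · simp [hf z hz]

theorem sIso_of : S_Iso := fun F hF => by
  obtain ⟨k, hk, hkF⟩ := disc_ball hF 1
  obtain ⟨M, hM⟩ := Supp.bdd hk
  have h1 : IsoIn univ k := ⟨dil k, continuous_dil hM, dil_zero k, dil_one k, fun _ => trivial⟩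
  have h2 : IsoIn univ (k⁻¹ * F) := by
    refine ⟨fun t => dil (k⁻¹ * F) t⁻¹, cont_iff.2 (continuous_iff_continuousAt.2 fun q => ?_),
      by simp [dil_zero], by simp [dil_one], fun _ => trivial⟩
    by_cases hq : q.1 = 0
    · refine continuousAt_snd.congr ?_
      have : Continuous fun x : ℝ × ℂ => ‖(x.1 : ℂ) * x.2‖ := by fun_prop
      filter_upwards [this.continuousAt.eventually_lt (continuousAt_const (y := (1 : ℝ)))
        (by simp [hq])] with x hx
      by_cases h0 : x.1 = 0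
      · simp [h0, dil_zero]
      · have h0' : ((x.1 : ℝ) : ℂ) ≠ 0 := ofReal_ne_zero.2 h0
        rw [dil_apply _ (inv_ne_zero h0), ofReal_inv, inv_inv, hmul, ← hkF _ hx.le, hinv_apply,
          inv_mul_cancel_left₀ h0']
    · exact (continuousAt_dil (k⁻¹ * F) (q := (q.1⁻¹, q.2)) (inv_ne_zero hq)).comp
        (f := fun x : ℝ × ℂ => (x.1⁻¹, x.2))
        ((continuousAt_fst.inv₀ hq).prodMk continuousAt_snd)
  simpa using IsoIn.mul (Γ := univ) (fun _ _ _ _ => trivial) h1 h2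

lemma conn_conj {f g k : H} (h : (f, g) ∈ Hom) (hk : deg k = 1) :
    Conn (f, g) (k⁻¹ * f * k, k⁻¹ * g * k) := by
  obtain ⟨A, hA, h0, h1, -⟩ := sIso_of k hk
  have := conn_path (A := fun t => (A t)⁻¹ * f * A t) (B := fun t => (A t)⁻¹ * g * A t)
    (by fun_prop) (by fun_prop) fun t _ => hom_conj h (A t)
  simpa [h0, h1] using this

end

end Pool.Agent.Lib.MP_d32f96_gt
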