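import Pool.Agent.Lib.MP_d32f96_gt.Frame

/-! Job K2: bounded oscillation by integer crossing. -/

namespace Pool.Agent.Lib.MP_d32f96_gt

open Set Filter Topology Metric Complex Bornology
open Pool.Agent.Lib.MP_1e9af3_an Pool.Agent.Lib.MP_069d55_gt

noncomputable section

namespace K2

lemma osc_two {X : Type*} [TopologicalSpace X] {S : Set X} (hS : IsPreconnected S) {f : X → ℝ}
    (hf : ContinuousOn f S) {c : ℝ} (hc : ∀ z ∈ S, ∀ k : ℤ, f z = k → f z = c) {x y : X}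
    (hx : x ∈ S) (hy : y ∈ S) : |f x - f y| ≤ 2 := by
  have key : ∀ x ∈ S, ∀ y ∈ S, f y - f x ≤ 2 := by
    intro x hx y hy
    by_contra h
    have h1 := Int.le_ceil (f x)
    have h2 := Int.ceil_lt_add_one (f x)
    obtain ⟨u, hu, hue⟩ := hS.intermediate_value hx hy hf
      (show ((⌈f x⌉ : ℤ) : ℝ) ∈ Icc (f x) (f y) from ⟨h1, by linarith⟩)
    obtain ⟨v, hv, hve⟩ := hS.intermediate_value hx hy hf
      (show ((⌈f x⌉ + 1 : ℤ) : ℝ) ∈ Icc (f x) (f y) from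
        ⟨by push_cast; linarith, by push_cast; linarith⟩)
    have a1 := hc u hu _ hue
    have a2 := hc v hv _ hve
    rw [hue] at a1
    rw [hve] at a2
    push_cast at a2
    linarith
  rw [abs_le]
  exact ⟨by linarith [key x hx y hy], key y hy x hx⟩

lemma osc_one {X : Type*} [TopologicalSpace X] {S : Set X} (hS : IsPreconnected S) {f : X → ℝ}
    (hf : ContinuousOn f S) {x y : X} (hx : x ∈ S) (hy : y ∈ S)
    (hc : ∀ z ∈ S, ∀ k : ℤ, f z = k → f z = f y) : |f x - f y| ≤ 1 := by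
  rw [abs_le]
  constructor
  · by_contra h
    have h1 := Int.le_ceil (f x)
    have h2 := Int.ceil_lt_add_one (f x)
    obtain ⟨u, hu, hue⟩ := hS.intermediate_value hx hy hf
      (show ((⌈f x⌉ : ℤ) : ℝ) ∈ Icc (f x) (f y) from ⟨h1, by linarith⟩)
    have a1 := hc u hu _ hue
    rw [hue] at a1
    linarith
  · by_contra h
    have h1 := Int.floor_le (f x)
    have h2 := Int.lt_floor_add_one (f x)
    obtain ⟨u, hu, hue⟩ := hS.intermediate_value hy hx hf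
      (show ((⌊f x⌋ : ℤ) : ℝ) ∈ Icc (f y) (f x) from ⟨by linarith, h1⟩)
    have a1 := hc u hu _ hue
    rw [hue] at a1
    linarith

/-- first integer crossing of one of two functions -/
lemma first_hit {f g : ℝ → ℝ} (hf : Continuous f) (hg : Continuous g) (h1 : f 1 = f 0 + 1) :
    ∃ t : ℝ, ((∃ k : ℤ, f t = k) ∨ ∃ k : ℤ, g t = k) ∧ |f 0 - f t| ≤ 1 ∧ |g 0 - g t| ≤ 1 := by
  have hZ : IsClosed (range ((↑) : ℤ → ℝ)) := Int.isClosedEmbedding_coe_real.isClosed_range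
  set S : Set ℝ := Icc 0 1 ∩ (f ⁻¹' range ((↑) : ℤ → ℝ) ∪ g ⁻¹' range ((↑) : ℤ → ℝ)) with hSd
  have hc : IsCompact S := isCompact_Icc.inter_right ((hZ.preimage hf).union (hZ.preimage hg))
  have hne : S.Nonempty := by
    have a1 := Int.le_ceil (f 0)
    have a2 := Int.ceil_lt_add_one (f 0)
    obtain ⟨u, hu, hue⟩ := intermediate_value_Icc zero_le_one hf.continuousOn
      (show ((⌈f 0⌉ : ℤ) : ℝ) ∈ Icc (f 0) (f 1) from ⟨a1, by linarith⟩)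
    exact ⟨u, hu, Or.inl ⟨_, hue.symm⟩⟩
  obtain ⟨t, ht, hl⟩ := hc.exists_isLeast hne
  have h0 : (0 : ℝ) ∈ Icc 0 t := ⟨le_rfl, ht.1.1⟩
  have h2 : t ∈ Icc 0 t := ⟨ht.1.1, le_rfl⟩
  refine ⟨t, ?_, osc_one isPreconnected_Icc hf.continuousOn h0 h2 fun z hz k hk => ?_,
    osc_one isPreconnected_Icc hg.continuousOn h0 h2 fun z hz k hk => ?_⟩
  · rcases ht.2 with ⟨k, hk⟩ | ⟨k, hk⟩
    · exact Or.inl ⟨k, hk.symm⟩
    · exact Or.inr ⟨k, hk.symm⟩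
  · have : t ≤ z := hl ⟨⟨hz.1, hz.2.trans ht.1.2⟩, Or.inl ⟨k, hk.symm⟩⟩
    rw [le_antisymm hz.2 this]
  · have : t ≤ z := hl ⟨⟨hz.1, hz.2.trans ht.1.2⟩, Or.inr ⟨k, hk.symm⟩⟩
    rw [le_antisymm hz.2 this]

lemma ee_real_eq_one {a : ℝ} : ee a = 1 ↔ ∃ k : ℤ, a = k := by
  rw [← ee_zero, ee_eq_iff]
  constructor
  · rintro ⟨k, hk⟩
    exact ⟨k, by exact_mod_cast (show (a : ℂ) = ((k : ℝ) : ℂ) by rw [hk]; simp)⟩
  · rintro ⟨k, hk⟩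
    exact ⟨k, by rw [hk]; simp⟩

lemma ee_re {w z : ℂ} (h : ee w = z) : ee (w.re : ℂ) = z / (‖z‖ : ℂ) := by
  have h1 : ee (w.im * I) = ((Real.exp (-(2 * Real.pi * w.im)) : ℝ) : ℂ) := by
    rw [ee, tpi, ofReal_exp]
    congr 1
    push_cast
    linear_combination (2 * Real.pi * w.im) * I_mul_I
  have h2 : z = ee (w.re : ℂ) * ((Real.exp (-(2 * Real.pi * w.im)) : ℝ) : ℂ) := by
    rw [← h1, ← ee_add, re_add_im, h]
  have h3 : ‖z‖ = Real.exp (-(2 * Real.pi * w.im)) := by rw [← h, norm_ee]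
  rw [h3, eq_div_iff (ofReal_ne_zero.2 (Real.exp_ne_zero _))]
  exact h2.symm

lemma ang_ne (W : ℂ → ℝ) {z : ℂ} (hz : z ≠ 0) : ang W z ≠ 0 :=
  mul_ne_zero (div_ne_zero hz (ofReal_ne_zero.2 (norm_ne_zero_iff.2 hz))) (ee_ne _)

lemma ee_ang (W : ℂ → ℝ) {z : ℂ} {θ : ℝ} (h : ee θ = z / (‖z‖ : ℂ)) :
    ee ((θ + W z : ℝ) : ℂ) = ang W z := by
  rw [ofReal_add, ee_add, h, ang]

lemma tl_preconn {J : ℕ → Set ℂ} (hJ : Chn J) (N : ℕ) : IsPreconnected (tl J N) :=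
  IsPreconnected.biUnion_of_chain (s := J) (t := Ici N) ordConnected_Ici
    (fun n _ => hJ.2.1 n) (fun n _ _ => hJ.2.2.1 n)

lemma mem_tl {J : ℕ → Set ℂ} {N : ℕ} {x : ℂ} : x ∈ tl J N ↔ ∃ j, N ≤ j ∧ x ∈ J j := by
  simp [tl]

lemma tl_anti {J : ℕ → Set ℂ} {N M : ℕ} (h : N ≤ M) : tl J M ⊆ tl J N := fun _ hx => by
  obtain ⟨j, hj, hx⟩ := mem_tl.1 hx
  exact mem_tl.2 ⟨j, h.trans hj, hx⟩

lemma tl_far {J : ℕ → Set ℂ} (hJ : Chn J) (n : ℕ) (R : ℝ) :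
    ∃ N, n ≤ N ∧ ∀ x ∈ tl J N, R ≤ ‖x‖ := by
  obtain ⟨N, hN⟩ := eventually_atTop.1 (hJ.2.2.2 R)
  refine ⟨max n N, le_max_left _ _, fun x hx => ?_⟩
  obtain ⟨j, hj, hx⟩ := mem_tl.1 hx
  exact hN j ((le_max_right _ _).trans hj) x hx

lemma tl_deep {J : ℕ → Set ℂ} (hJ : Chn J) (N : ℕ) :
    ∃ R : ℝ, ∀ x ∈ tl J 0, R ≤ ‖x‖ → x ∈ tl J N := by
  have hb : IsBounded (⋃ j ∈ Iio N, J j) :=
    (isBounded_biUnion (finite_Iio N)).2 fun j _ => (hJ.1 j).isBounded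
  obtain ⟨R, hR⟩ := hb.subset_ball 0
  refine ⟨R, fun x hx hr => ?_⟩
  obtain ⟨j, -, hx⟩ := mem_tl.1 hx
  by_cases hj : N ≤ j
  · exact mem_tl.2 ⟨j, hj, hx⟩
  · exact absurd (mem_ball_zero_iff.1 (hR (mem_biUnion (show j ∈ Iio N from not_le.1 hj) hx)))
      (not_lt.2 hr)

lemma tl_ne {J : ℕ → Set ℂ} (hJ : Chn J) (N : ℕ) : (tl J N).Nonempty := by
  obtain ⟨x, hx, -⟩ := hJ.2.2.1 N
  exact ⟨x, mem_tl.2 ⟨N, le_rfl, hx⟩⟩

lemma real_int_const {S : Set ℂ} (hS : IsPreconnected S) {f : ℂ → ℝ} (hf : ContinuousOn f S)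
    (hi : ∀ x ∈ S, ∃ k : ℤ, f x = k) {x y : ℂ} (hx : x ∈ S) (hy : y ∈ S) : f x = f y := by
  have := int_const hS (g := fun z => (f z : ℂ)) (continuous_ofReal.comp_continuousOn hf)
    (fun z hz => by obtain ⟨k, hk⟩ := hi z hz; exact ⟨k, by rw [hk]; simp⟩) hx hy
  exact_mod_cast this

end K2

open K2 in
theorem sK2_of : S_K2 := by
  intro J s W R n hJ hW hT hL R₀ D hD hDe
  obtain ⟨L, hLc, hLe⟩ := hL
  obtain ⟨R₁, hR₁⟩ := proper s⁻¹ (max (max R R₀) 1)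
  obtain ⟨R₁', hR₁'⟩ : ∃ R₁' : ℝ, R₁' = max (max R R₁) 1 := ⟨_, rfl⟩
  have f1 : ∀ y : ℂ, R₁' ≤ ‖y‖ → R ≤ ‖y‖ ∧ 1 ≤ ‖y‖ ∧ R ≤ ‖s⁻¹ y‖ ∧ R₀ ≤ ‖s⁻¹ y‖ ∧ 1 ≤ ‖s⁻¹ y‖ := by
    intro y hy
    rw [hR₁', max_le_iff, max_le_iff] at hy
    have := hR₁ y hy.1.2
    rw [max_le_iff, max_le_iff] at this
    exact ⟨hy.1.1, hy.2, this.1.1, this.1.2, this.2⟩
  have ne0 : ∀ y : ℂ, 1 ≤ ‖y‖ → y ≠ 0 := fun y hy h => by rw [h, norm_zero] at hy; linarith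
  obtain ⟨E, hE⟩ : ∃ E : ℂ → ℝ, E = fun y => D (s⁻¹ y) := ⟨_, rfl⟩
  have hEc : ContinuousOn E {y | R₁' ≤ ‖y‖} := by
    rw [hE]
    exact hD.comp (s⁻¹ : H).continuous.continuousOn fun y hy => (f1 y hy).2.2.2.1
  -- integrality criteria
  have c1 : ∀ (y : ℂ) (θ : ℝ), R₁' ≤ ‖y‖ → ee θ = y / (‖y‖ : ℂ) →
      ((∃ k : ℤ, θ + W y = k) ↔ y ∈ tl J 0) := fun y θ hy hθ => by
    rw [← ee_real_eq_one, ee_ang W hθ, hT y (f1 y hy).1]
  have c2 : ∀ (y : ℂ) (θ : ℝ), R₁' ≤ ‖y‖ → ee θ = y / (‖y‖ : ℂ) →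
      ((∃ k : ℤ, θ + W y - E y = k) ↔ s⁻¹ y ∈ tl J 0) := fun y θ hy hθ => by
    have h1 := hDe _ (f1 y hy).2.2.2.1
    rw [happly_inv] at h1
    have h2 := ang_ne W (ne0 y (f1 y hy).2.1)
    rw [← ee_real_eq_one, ofReal_sub, ee_sub, ee_ang W hθ, hE, h1, div_div_cancel₀ h2,
      hT _ (f1 y hy).2.2.1]
  -- first tails
  obtain ⟨Rs, hRs⟩ := proper s R₁'
  obtain ⟨N₀, hn₀, hN₀⟩ := tl_far hJ n (max R₁' Rs)
  have a1 : ∀ y ∈ tl J N₀, R₁' ≤ ‖y‖ := fun y hy => (le_max_left _ _).trans (hN₀ y hy)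
  have a2 : ∀ y ∈ s '' tl J N₀, R₁' ≤ ‖y‖ := by
    rintro _ ⟨x, hx, rfl⟩
    exact hRs x ((le_max_right _ _).trans (hN₀ x hx))
  have b1 : tl J N₀ ⊆ tl J n ∪ s '' tl J n := (tl_anti hn₀).trans subset_union_left
  have b2 : s '' tl J N₀ ⊆ tl J n ∪ s '' tl J n :=
    (image_mono (tl_anti hn₀)).trans subset_union_right
  have hθ : ∀ y ∈ tl J n ∪ s '' tl J n, ee ((L y).re : ℂ) = y / (‖y‖ : ℂ) :=
    fun y hy => ee_re (hLe y hy)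
  have p1c : ContinuousOn (fun y => (L y).re + W y) (tl J n ∪ s '' tl J n) :=
    (continuous_re.comp_continuousOn hLc).add hW.continuousOn
  have pre2 : ∀ N, IsPreconnected (s '' tl J N) := fun N =>
    (tl_preconn hJ N).image _ s.continuous.continuousOn
  have mem2 : ∀ N y, y ∈ s '' tl J N ↔ s⁻¹ y ∈ tl J N := fun N y =>
    ⟨by rintro ⟨x, hx, rfl⟩; rwa [hinv_apply], fun h => ⟨_, h, happly_inv _ _⟩⟩
  obtain ⟨u₀, hu₀⟩ := tl_ne hJ N₀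
  have hv₀ : s u₀ ∈ s '' tl J N₀ := ⟨u₀, hu₀, rfl⟩
  have m1 : ∀ y ∈ tl J N₀, (L y).re + W y = (L u₀).re + W u₀ := fun y hy =>
    real_int_const (tl_preconn hJ N₀) (p1c.mono b1)
      (fun x hx => (c1 x _ (a1 x hx) (hθ x (b1 hx))).2 (tl_anti (Nat.zero_le _) hx)) hy hu₀
  have m2 : ∀ y ∈ s '' tl J N₀, (L y).re + W y - E y = (L (s u₀)).re + W (s u₀) - E (s u₀) :=
    fun y hy => real_int_const (f := fun y => (L y).re + W y - E y) (pre2 N₀)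
      ((p1c.mono b2).sub (hEc.mono a2))
      (fun x hx => (c2 x _ (a2 x hx) (hθ x (b2 hx))).2
        (tl_anti (Nat.zero_le _) ((mem2 _ _).1 hx))) hy hv₀
  -- deeper tails
  have deep : ∀ N : ℕ, ∃ ρ : ℝ, ∀ y : ℂ, ρ ≤ ‖y‖ → R₁' ≤ ‖y‖ ∧ (y ∈ tl J 0 → y ∈ tl J N) ∧
      (s⁻¹ y ∈ tl J 0 → y ∈ s '' tl J N) := fun N => by
    obtain ⟨ρ, hρ⟩ := tl_deep hJ N
    obtain ⟨ρ', hρ'⟩ := proper s⁻¹ ρ
    refine ⟨max (max ρ ρ') R₁', fun y hy => ?_⟩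
    rw [max_le_iff, max_le_iff] at hy
    exact ⟨hy.2, fun h => hρ y h hy.1.1, fun h => (mem2 _ _).2 (hρ _ h (hρ' y hy.1.2))⟩
  obtain ⟨R₂, hR₂⟩ := deep N₀
  obtain ⟨Rt, hRt⟩ := proper s R₂
  obtain ⟨N₁, hn₁, hN₁⟩ := tl_far hJ N₀ (max R₂ Rt)
  have d1 : ∀ y ∈ tl J N₁, R₂ ≤ ‖y‖ := fun y hy => (le_max_left _ _).trans (hN₁ y hy)
  have d2 : ∀ y ∈ s '' tl J N₁, R₂ ≤ ‖y‖ := by
    rintro _ ⟨x, hx, rfl⟩
    exact hRt x ((le_max_right _ _).trans (hN₁ x hx))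
  have e1 : tl J N₁ ⊆ tl J N₀ := tl_anti hn₁
  have e2 : s '' tl J N₁ ⊆ s '' tl J N₀ := image_mono e1
  obtain ⟨u₁, hu₁⟩ := tl_ne hJ N₁
  have hv₁ : s u₁ ∈ s '' tl J N₁ := ⟨u₁, hu₁, rfl⟩
  have o1 : ∀ y ∈ tl J N₁, |E y - E u₁| ≤ 2 := fun y hy => by
    have := osc_two (f := fun y => (L y).re + W y - E y) (tl_preconn hJ N₁)
      ((p1c.mono (e1.trans b1)).sub (hEc.mono fun x hx => a1 x (e1 hx)))
      (c := (L (s u₀)).re + W (s u₀) - E (s u₀))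
      (fun z hz k hk => m2 z ((hR₂ z (d1 z hz)).2.2
        ((c2 z _ (a1 z (e1 hz)) (hθ z (b1 (e1 hz)))).1 ⟨k, hk⟩))) hu₁ hy
    have h1 := m1 y (e1 hy)
    have h2 := m1 u₁ (e1 hu₁)
    rw [abs_le] at this ⊢
    constructor <;> linarith [this.1, this.2]
  have o2 : ∀ y ∈ s '' tl J N₁, |E y - E (s u₁)| ≤ 2 := fun y hy => by
    have := osc_two (f := fun y => (L y).re + W y) (pre2 N₁) (p1c.mono (e2.trans b2))
      (c := (L u₀).re + W u₀)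
      (fun z hz k hk => m1 z ((hR₂ z (d2 z hz)).2.1
        ((c1 z _ (a2 z (e2 hz)) (hθ z (b2 (e2 hz)))).1 ⟨k, hk⟩))) hy hv₁
    have h1 := m2 y (e2 hy)
    have h2 := m2 _ (e2 hv₁)
    rw [abs_le] at this ⊢
    constructor <;> linarith [this.1, this.2]
  obtain ⟨R₃, hR₃⟩ := deep N₁
  -- every far value is close to one of the two centres
  have near : ∀ y : ℂ, R₃ ≤ ‖y‖ → |E y - E u₁| ≤ 4 ∨ |E y - E (s u₁)| ≤ 4 := fun y hy => by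
    have hy0 := ne0 y (f1 y (hR₃ y hy).1).2.1
    have hθ₀ := ee_re (ee_log hy0)
    generalize (log y / tpi).re = θ₀ at hθ₀
    have hn : ∀ t : ℝ, ‖y * ee t‖ = ‖y‖ := fun t => by rw [norm_mul, norm_ee_real, mul_one]
    have hcy : Continuous fun t : ℝ => y * ee t := by fun_prop
    have hcf : Continuous fun t : ℝ => θ₀ + t + W (y * ee t) := by fun_prop
    have hcE : Continuous fun t : ℝ => E (y * ee t) :=
      hEc.comp_continuous hcy fun t => by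
        show R₁' ≤ ‖y * ee t‖
        rw [hn]; exact (hR₃ y hy).1
    obtain ⟨t, ht, h1, h2⟩ := first_hit (g := fun t : ℝ => θ₀ + t + W (y * ee t) - E (y * ee t))
      hcf (hcf.sub hcE) (by simp only [ofReal_one, ofReal_zero, ee_one, ee_zero]; ring)
    simp only [ofReal_zero, ee_zero, mul_one, add_zero] at h1 h2
    have hz : R₃ ≤ ‖y * ee t‖ := by rw [hn]; exact hy
    have hθt : ee ((θ₀ + t : ℝ) : ℂ) = y * ee t / (‖y * ee t‖ : ℂ) := by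
      rw [hn, ofReal_add, ee_add, hθ₀]; ring
    rw [abs_le] at h1 h2
    rcases ht with ht | ht
    · have := o1 _ ((hR₃ _ hz).2.1 ((c1 _ _ (hR₃ _ hz).1 hθt).1 ht))
      rw [abs_le] at this
      left; rw [abs_le]
      constructor <;> linarith [this.1, this.2, h1.1, h1.2, h2.1, h2.2]
    · have := o2 _ ((hR₃ _ hz).2.2 ((c2 _ _ (hR₃ _ hz).1 hθt).1 ht))
      rw [abs_le] at this
      right; rw [abs_le]
      constructor <;> linarith [this.1, this.2, h1.1, h1.2, h2.1, h2.2]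
  have fin : ∀ x y : ℂ, R₃ ≤ ‖x‖ → R₃ ≤ ‖y‖ → E y - E x ≤ 20 := fun x y hx hy => by
    by_contra h
    obtain ⟨z, hz, hze⟩ := (preconn_out R₃).intermediate_value hx hy
      (hEc.mono fun w hw => (hR₃ w hw).1)
      (show (E x + E y) / 2 ∈ Icc (E x) (E y) from ⟨by linarith, by linarith⟩)
    have n1 := near x hx
    have n2 := near y hy
    have n3 := near z hz
    rw [hze] at n3
    simp only [abs_le] at n1 n2 n3
    rcases n1 with n1 | n1 <;> rcases n2 with n2 | n2 <;> rcases n3 with n3 | n3 <;>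
      linarith [n1.1, n1.2, n2.1, n2.2, n3.1, n3.2]
  obtain ⟨R', hR'⟩ := proper s R₃
  refine ⟨R', fun x y hx hy => ?_⟩
  have g1 := fin _ _ (hR' x hx) (hR' y hy)
  have g2 := fin _ _ (hR' y hy) (hR' x hx)
  simp only [hE, hinv_apply] at g1 g2
  rw [abs_le]
  exact ⟨by linarith, g2⟩

end

end Pool.Agent.Lib.MP_d32f96_gt
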