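import Pool.Agent.Lib.MP_d32f96_gt.Frame

/-! Gluing of approximate coboundaries near infinity. -/

namespace Pool.Agent.Lib.MP_d32f96_gt

open Set Filter Topology Metric Complex Bornology
open Pool.Agent.Lib.MP_1e9af3_an Pool.Agent.Lib.MP_069d55_gt

noncomputable section

namespace K3

lemma ev_iff {P : ℂ → Prop} : (∀ᶠ x in cocompact ℂ, P x) ↔ ∃ R : ℝ, ∀ x, R ≤ ‖x‖ → P x := by
  rw [← Metric.cobounded_eq_cocompact]
  constructor
  · intro h
    obtain ⟨R, -, hR⟩ := (Metric.hasBasis_cobounded_compl_ball (0 : ℂ)).eventually_iff.1 h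
    exact ⟨R, fun x hx => hR (by simpa using hx)⟩
  · rintro ⟨R, h⟩
    exact ((_root_.tendsto_norm_cobounded_atTop (E := ℂ)).eventually_ge_atTop R).mono h

/-- the clamp to the unit interval -/
def cl (t : ℝ) : ℝ := max 0 (min 1 t)

@[fun_prop] lemma continuous_cl : Continuous cl := by unfold cl; fun_prop

lemma cl_nonneg (t : ℝ) : 0 ≤ cl t := le_max_left _ _

lemma cl_le (t : ℝ) : cl t ≤ 1 := max_le zero_le_one (min_le_left _ _)

lemma cl_zero {t : ℝ} (h : t ≤ 0) : cl t = 0 := max_eq_left ((min_le_right _ _).trans h)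

lemma cl_one {t : ℝ} (h : 1 ≤ t) : cl t = 1 := by
  rw [cl, min_eq_left h, max_eq_right zero_le_one]

lemma cl_mono {s t : ℝ} (h : s ≤ t) : cl s ≤ cl t :=
  max_le_max le_rfl (min_le_min le_rfl h)

lemma sum_cl {t : ℝ} (ht : 0 ≤ t) (n : ℕ) : ∑ k ∈ Finset.range n, cl (t - k) = min t n := by
  induction n with
  | zero => simp [ht]
  | succ n ih =>
    rw [Finset.sum_range_succ, ih, cl]
    push_cast
    rcases le_total t n with h | h
    · rw [min_eq_left h, min_eq_right (by linarith), max_eq_left (by linarith),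
        min_eq_left (by linarith), add_zero]
    · rcases le_total t (n + 1) with h' | h'
      · rw [min_eq_right h, min_eq_right (by linarith), max_eq_right (by linarith),
          min_eq_left h']; ring
      · rw [min_eq_right h, min_eq_left (by linarith), max_eq_right zero_le_one, min_eq_right h']

lemma sum_cl_sub {s t : ℝ} (hs : 0 ≤ s) (ht : 0 ≤ t) (n : ℕ) :
    ∑ k ∈ Finset.range n, |cl (s - k) - cl (t - k)| ≤ |s - t| := by
  wlog h : t ≤ s generalizing s t
  · have := this ht hs (le_of_not_ge h)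
    simpa only [abs_sub_comm] using this
  rw [Finset.sum_congr rfl fun k _ => abs_of_nonneg (sub_nonneg.2 (cl_mono (by linarith))),
    Finset.sum_sub_distrib, sum_cl hs, sum_cl ht, abs_of_nonneg (sub_nonneg.2 h)]
  rcases le_total s n with h1 | h1
  · rw [min_eq_left h1, min_eq_left (h.trans h1)]
  · rw [min_eq_right h1]
    rcases le_total t n with h2 | h2
    · rw [min_eq_left h2]; linarith
    · rw [min_eq_right h2]; linarith

lemma stab_eq {u : ℕ → ℝ} {t : ℝ} (h0 : ∀ i : ℕ, t ≤ i → u i = 0) {n : ℕ} (hn : t ≤ n) :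
    ∑ i ∈ Finset.range ⌈t⌉₊, u i = ∑ i ∈ Finset.range n, u i :=
  Finset.sum_subset (Finset.range_mono (Nat.ceil_le.2 hn)) fun i _ hi =>
    h0 i (Nat.ceil_le.1 (by simpa using hi))

lemma stab_cont {u : ℕ → ℂ → ℝ} (hu : ∀ i, Continuous (u i)) {l : ℂ → ℝ} (hl : Continuous l)
    (h0 : ∀ (i : ℕ) x, l x ≤ i → u i x = 0) :
    Continuous fun x => ∑ i ∈ Finset.range ⌈l x⌉₊, u i x := by
  refine continuous_iff_continuousAt.2 fun x => ?_
  obtain ⟨n, hn⟩ := exists_nat_gt (l x)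
  refine (continuous_finsetSum (Finset.range n) fun i _ => hu i).continuousAt.congr ?_
  filter_upwards [hl.continuousAt.eventually_lt continuousAt_const hn] with y hy
  exact (stab_eq (fun i hi => h0 i y hi) hy.le).symm

/-- piecewise linear interpolation of a finite sequence -/
def itp (n : ℕ) (a : ℕ → ℝ) (t : ℝ) : ℝ :=
  a 0 + ∑ k ∈ Finset.range n, cl (t - k) * (a (k + 1) - a k)

lemma itp_top {n : ℕ} (a : ℕ → ℝ) {t : ℝ} (h : (n : ℝ) ≤ t) : itp n a t = a n := by
  rw [itp, Finset.sum_congr rfl (g := fun k => a (k + 1) - a k) fun k hk => by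
    have : (k : ℝ) + 1 ≤ n := by exact_mod_cast Finset.mem_range.1 hk
    rw [cl_one (by linarith), one_mul], Finset.sum_range_sub]
  ring

lemma itp_bound {m n : ℕ} {a : ℕ → ℝ} {t ε : ℝ} (ht : (m : ℝ) ≤ t) (hmn : m ≤ n)
    (ha : ∀ k, m ≤ k → k ≤ n → |a k| ≤ ε) : |itp n a t| ≤ ε := by
  induction n, hmn using Nat.le_induction with
  | base => rw [itp_top a ht]; exact ha m le_rfl le_rfl
  | succ n hn ih =>
    have e : itp (n + 1) a t = itp n a t + cl (t - n) * (a (n + 1) - a n) := by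
      rw [itp, itp, Finset.sum_range_succ, add_assoc]
    rcases le_total t n with h | h
    · rw [e, cl_zero (by linarith), zero_mul, add_zero]
      exact ih fun k h1 h2 => ha k h1 (h2.trans n.le_succ)
    · rw [e, itp_top a h]
      have h1 := abs_le.1 (ha n hn n.le_succ)
      have h2 := abs_le.1 (ha (n + 1) (hn.trans n.le_succ) le_rfl)
      have h3 := cl_nonneg (t - n)
      have h4 := cl_le (t - n)
      rw [abs_le]
      constructor <;> nlinarith [h1.1, h1.2, h2.1, h2.2]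

lemma itp_lip {n : ℕ} {a : ℕ → ℝ} {s t C : ℝ} (hs : 0 ≤ s) (ht : 0 ≤ t)
    (ha : ∀ k, k ≤ n → |a k| ≤ C) : |itp n a s - itp n a t| ≤ 2 * C * |s - t| := by
  have hC : 0 ≤ C := (abs_nonneg _).trans (ha 0 n.zero_le)
  rw [itp, itp, add_sub_add_left_eq_sub, ← Finset.sum_sub_distrib]
  refine (Finset.abs_sum_le_sum_abs _ _).trans ?_
  refine le_trans (Finset.sum_le_sum (g := fun k : ℕ => 2 * C * |cl (s - k) - cl (t - k)|)
    fun k hk => ?_) ?_
  · have hk' := Finset.mem_range.1 hk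
    rw [← sub_mul, abs_mul, mul_comm]
    refine mul_le_mul_of_nonneg_right ((abs_sub _ _).trans ?_) (abs_nonneg _)
    linarith [ha k hk'.le, ha (k + 1) hk']
  · rw [← Finset.mul_sum]
    exact mul_le_mul_of_nonneg_left (sum_cl_sub hs ht n) (by linarith)

/-- a slowly growing level function -/
lemma level (f g : H) (R : ℕ → ℝ) : ∃ l : ℂ → ℝ, Continuous l ∧ (∀ x, 0 ≤ l x) ∧
    Tendsto l (cocompact ℂ) atTop ∧ (∀ (k : ℕ) x, k < l x → R k ≤ ‖x‖) ∧
    Tendsto (fun x => l (f x) - l x) (cocompact ℂ) (𝓝 0) ∧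
    Tendsto (fun x => l (g x) - l x) (cocompact ℂ) (𝓝 0) := by
  have hb : ∀ r : ℝ, ∃ r', ∀ s ∈ ({f, f⁻¹, g, g⁻¹} : Set H), ∀ x, ‖x‖ ≤ r → ‖s x‖ ≤ r' := by
    intro r
    obtain ⟨a, ha⟩ := bdd_on f r
    obtain ⟨b, hb⟩ := bdd_on f⁻¹ r
    obtain ⟨c, hc⟩ := bdd_on g r
    obtain ⟨d, hd⟩ := bdd_on g⁻¹ r
    refine ⟨max (max a b) (max c d), ?_⟩
    rintro s (rfl | rfl | rfl | rfl) x hx
    · exact (ha x hx).le.trans (by simp)
    · exact (hb x hx).le.trans (by simp)
    · exact (hc x hx).le.trans (by simp)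
    · exact (hd x hx).le.trans (by simp)
  choose b hb using hb
  obtain ⟨r, r0, rs⟩ : ∃ r : ℕ → ℝ, r 0 = max 0 (R 0) ∧
      ∀ i, r (i + 1) = max (r i + 1) (max (b (r i)) (R (i + 1))) :=
    ⟨fun i => Nat.rec (max 0 (R 0)) (fun i s => max (s + 1) (max (b s) (R (i + 1)))) i, rfl,
      fun _ => rfl⟩
  have h1 : ∀ i, r i + 1 ≤ r (i + 1) := fun i => by rw [rs]; exact le_max_left _ _
  have hmono : Monotone r := monotone_nat_of_le_succ fun i => by linarith [h1 i]
  have h2 : ∀ i : ℕ, (i : ℝ) ≤ r i := fun i => by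
    induction i with
    | zero => rw [r0]; simp
    | succ i ih => push_cast; linarith [h1 i]
  have h3 : ∀ i, R i ≤ r i := fun i => by
    cases i with
    | zero => rw [r0]; exact le_max_right _ _
    | succ i => rw [rs]; exact (le_max_right _ _).trans (le_max_right _ _)
  set m : ℂ → ℝ := fun x => ∑ i ∈ Finset.range ⌈‖x‖⌉₊, cl (‖x‖ - r i) with hm
  have z0 : ∀ (i : ℕ) (x : ℂ), ‖x‖ ≤ i → cl (‖x‖ - r i) = 0 := fun i x hx =>
    cl_zero (by linarith [h2 i])
  have mc : Continuous m := stab_cont (u := fun i x => cl (‖x‖ - r i)) (fun i => by fun_prop)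
    continuous_norm z0
  have m0 : ∀ x, 0 ≤ m x := fun x => Finset.sum_nonneg fun i _ => cl_nonneg _
  have me : ∀ (k : ℕ) x, ∃ n, m x = ∑ i ∈ Finset.range k, cl (‖x‖ - r i) +
      ∑ i ∈ Finset.range n, cl (‖x‖ - r (k + i)) := fun k x => by
    refine ⟨⌈‖x‖⌉₊, ?_⟩
    rw [← Finset.sum_range_add (fun i => cl (‖x‖ - r i))]
    exact stab_eq (fun i hi => z0 i x hi) (by push_cast; linarith [Nat.le_ceil ‖x‖])
  have ma : ∀ (k : ℕ) x, ‖x‖ ≤ r k → m x ≤ k := fun k x hx => by
    obtain ⟨n, hn⟩ := me k x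
    rw [hn, Finset.sum_eq_zero (s := Finset.range n) fun i _ =>
      cl_zero (by linarith [hmono (Nat.le_add_right k i)]), add_zero]
    simpa using Finset.sum_le_sum (s := Finset.range k) fun i _ => cl_le (‖x‖ - r i)
  have mb : ∀ (k : ℕ) x, r k ≤ ‖x‖ → k ≤ m x := fun k x hx => by
    obtain ⟨n, hn⟩ := me k x
    rw [hn, Finset.sum_congr rfl (g := fun _ => 1) fun i hi =>
      cl_one (by linarith [h1 i, hmono (Nat.succ_le_of_lt (Finset.mem_range.1 hi))])]
    simpa using Finset.sum_nonneg (s := Finset.range n) fun i _ => cl_nonneg (‖x‖ - r (k + i))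
  have mc2 : ∀ s ∈ ({f, f⁻¹, g, g⁻¹} : Set H), ∀ x, m (s x) ≤ m x + 2 := fun s hs x => by
    have e1 : ‖x‖ ≤ r (⌊m x⌋₊ + 1) := by
      by_contra h
      have := mb _ x (not_le.1 h).le
      push_cast at this
      linarith [Nat.lt_floor_add_one (m x)]
    have e2 := ma (⌊m x⌋₊ + 1 + 1) (s x) ((hb _ s hs x e1).trans (by
      rw [rs (⌊m x⌋₊ + 1)]; exact (le_max_left _ _).trans (le_max_right _ _)))
    push_cast at e2
    linarith [Nat.floor_le (m0 x)]
  have mt : Tendsto m (cocompact ℂ) atTop := tendsto_atTop.2 fun c => by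
    obtain ⟨k, hk⟩ := exists_nat_ge c
    exact ev_iff.2 ⟨r k, fun x hx => hk.trans (mb k x hx)⟩
  have lt : Tendsto (fun x => √(m x)) (cocompact ℂ) atTop := Real.tendsto_sqrt_atTop.comp mt
  have key : ∀ s : H, s ∈ ({f, f⁻¹, g, g⁻¹} : Set H) → s⁻¹ ∈ ({f, f⁻¹, g, g⁻¹} : Set H) →
      Tendsto (fun x => √(m (s x)) - √(m x)) (cocompact ℂ) (𝓝 0) := fun s hs hs' => by
    refine squeeze_zero_norm' ?_ (lt.const_div_atTop 2)
    filter_upwards [lt.eventually_gt_atTop 0] with x hx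
    have e1 := mc2 s hs x
    have e2 := mc2 s⁻¹ hs' (s x)
    rw [hinv_apply] at e2
    rw [Real.norm_eq_abs, le_div_iff₀ hx]
    have e3 : |√(m (s x)) - √(m x)| * (√(m (s x)) + √(m x)) = |m (s x) - m x| := by
      rw [← abs_of_nonneg (a := √(m (s x)) + √(m x)) (by positivity), ← abs_mul]
      congr 1
      linear_combination Real.mul_self_sqrt (m0 (s x)) - Real.mul_self_sqrt (m0 x)
    have e4 : |m (s x) - m x| ≤ 2 := abs_le.2 ⟨by linarith, by linarith⟩
    nlinarith [abs_nonneg (√(m (s x)) - √(m x)), Real.sqrt_nonneg (m (s x))]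
  refine ⟨fun x => √(m x), mc.sqrt, fun x => Real.sqrt_nonneg _, lt, fun k x hx => ?_,
    key f (by simp) (by simp), key g (by simp) (by simp)⟩
  by_contra h
  have e1 := ma k x ((not_le.1 h).le.trans (h3 k))
  have e2 : (k : ℝ) ≤ k ^ 2 := by exact_mod_cast Nat.le_self_pow two_ne_zero k
  exact not_le.2 hx (Real.sqrt_le_iff.2 ⟨k.cast_nonneg, e1.trans e2⟩)

/-- gluing approximate solutions of two coboundary equations -/
lemma glue (f g : H) {V : ℕ → ℂ → ℝ} (hV : ∀ k, Continuous (V k)) {C : ℝ} {A B : ℂ → ℝ}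
    {ε : ℕ → ℝ} (hε : Tendsto ε atTop (𝓝 0))
    (h : ∀ k, ∀ᶠ x in cocompact ℂ, |V k x| ≤ C ∧ |A x + V k (f x) - V k x| ≤ ε k ∧
      |B x + V k (g x) - V k x| ≤ ε k) :
    ∃ U : ℂ → ℝ, Continuous U ∧
      Tendsto (fun x => A x + U (f x) - U x) (cocompact ℂ) (𝓝 0) ∧
      Tendsto (fun x => B x + U (g x) - U x) (cocompact ℂ) (𝓝 0) := by
  have hP : ∀ k : ℕ, ∃ R : ℝ, ∀ x, R ≤ ‖x‖ → ∀ j ∈ Finset.range (k + 4),
      (|V j (f x)| ≤ C ∧ |A x + V j (f x) - V j x| ≤ ε j) ∧
      (|V j (g x)| ≤ C ∧ |B x + V j (g x) - V j x| ≤ ε j) := fun k => by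
    refine ev_iff.1 ((eventually_all_finset _).2 fun j _ => ?_)
    filter_upwards [h j, (tendsto_cocompact f).eventually (h j),
      (tendsto_cocompact g).eventually (h j)] with x h1 h2 h3
    exact ⟨⟨h2.1, h1.2.1⟩, h3.1, h1.2.2⟩
  choose R hR using hP
  obtain ⟨l, lc, l0, lt, lR, lf, lg⟩ := level f g R
  set U : ℂ → ℝ := fun x => V 0 x +
    ∑ k ∈ Finset.range ⌈l x⌉₊, cl (l x - k) * (V (k + 1) x - V k x) with hU
  have z0 : ∀ (k : ℕ) x, l x ≤ k → cl (l x - k) * (V (k + 1) x - V k x) = 0 := fun k x hx => by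
    rw [cl_zero (by linarith), zero_mul]
  have Ue : ∀ (n : ℕ) x, l x ≤ n → U x = itp n (fun k => V k x) (l x) := fun n x hx => by
    rw [itp, ← stab_eq (fun k hk => z0 k x hk) hx]
  have key : ∀ (s : H) (D : ℂ → ℝ), Tendsto (fun x => l (s x) - l x) (cocompact ℂ) (𝓝 0) →
      (∀ k x, R k ≤ ‖x‖ → ∀ j ∈ Finset.range (k + 4),
        |V j (s x)| ≤ C ∧ |D x + V j (s x) - V j x| ≤ ε j) →
      Tendsto (fun x => D x + U (s x) - U x) (cocompact ℂ) (𝓝 0) := fun s D hs hD => by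
    refine Metric.tendsto_nhds.2 fun δ hδ => ?_
    obtain ⟨N, hN⟩ := eventually_atTop.1 (hε.eventually_lt_const (half_pos hδ))
    have t1 : Tendsto (fun x => 2 * C * |l (s x) - l x|) (cocompact ℂ) (𝓝 0) := by
      simpa using hs.abs.const_mul (2 * C)
    filter_upwards [lt.eventually_gt_atTop N, hs.eventually_lt_const one_pos,
      t1.eventually_lt_const (half_pos hδ)] with x h1 h2 h3
    obtain ⟨k, hk1, hk2⟩ : ∃ k : ℕ, k < l x ∧ l x ≤ k + 1 := by
      have hp : 0 < ⌈l x⌉₊ := Nat.ceil_pos.2 ((Nat.cast_nonneg N).trans_lt h1)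
      obtain ⟨k, hk⟩ := Nat.exists_eq_succ_of_ne_zero hp.ne'
      refine ⟨k, Nat.lt_ceil.1 (by omega), ?_⟩
      have := Nat.le_ceil (l x)
      rw [hk] at this
      exact_mod_cast this
    have hx := hD k x (lR k x hk1)
    rw [Ue (k + 3) x (by push_cast; linarith), Ue (k + 3) (s x) (by push_cast; linarith),
      Real.dist_eq, sub_zero]
    have e1 := itp_lip (n := k + 3) (a := fun j => V j (s x)) (l0 (s x)) (l0 x)
      fun j hj => (hx j (Finset.mem_range.2 (by omega))).1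
    have hNk : N ≤ k + 3 := by
      have : (N : ℝ) < k + 1 := h1.trans_le hk2
      have : N < k + 1 := by exact_mod_cast this
      omega
    have e2 := itp_bound (a := fun j => D x + V j (s x) - V j x) (ε := δ / 2) h1.le hNk
      fun j h1 hj => (hx j (Finset.mem_range.2 (by omega))).2.trans (hN j h1).le
    have e3 : itp (k + 3) (fun j => D x + V j (s x) - V j x) (l x) =
        D x + itp (k + 3) (fun j => V j (s x)) (l x) - itp (k + 3) (fun j => V j x) (l x) := by
      simp only [itp]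
      rw [Finset.sum_congr rfl (g := fun j : ℕ => cl (l x - j) * (V (j + 1) (s x) - V j (s x)) -
        cl (l x - j) * (V (j + 1) x - V j x)) fun j _ => by ring, Finset.sum_sub_distrib]
      ring
    rw [e3] at e2
    rw [abs_le] at e1 e2
    rw [abs_lt]
    constructor <;> linarith [e1.1, e1.2, e2.1, e2.2]
  exact ⟨U, (hV 0).add (stab_cont (u := fun k x => cl (l x - k) * (V (k + 1) x - V k x))
    (fun k => by have := hV k; have := hV (k + 1); fun_prop) lc z0),
    key f A lf fun k x hx j hj => (hR k x hx j hj).1,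
    key g B lg fun k x hx j hj => (hR k x hx j hj).2⟩

end K3

end

end Pool.Agent.Lib.MP_d32f96_gt
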