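import Pool.Agent.Lib.MP_d32f96_gt.Frame

/-! Zoom limit of a pair containing a dilation near infinity, and the affine models. -/

namespace Pool.Agent.Lib.MP_d32f96_gt

open Set Filter Topology Metric Complex Bornology
open Pool.Agent.Lib.MP_1e9af3_an Pool.Agent.Lib.MP_069d55_gt

noncomputable section

namespace M2

/-- the dilation by `2 ^ n` -/
def kk (n : ℕ) : H := mulH (2 ^ n) (pow_ne_zero n two_ne_zero)

/-- the conjugate by the dilation -/
def zm (τ : H) (n : ℕ) : H := (kk n)⁻¹ * τ * kk n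

lemma zm_apply (τ : H) (n : ℕ) (z : ℂ) : zm τ n z = (2 ^ n : ℂ)⁻¹ * τ (2 ^ n * z) := by
  rw [zm, hmul, hmul, kk, mulH_inv_apply, mulH_apply]

lemma zm_inv (τ : H) (n : ℕ) : zm τ⁻¹ n = (zm τ n)⁻¹ := by
  simp only [zm, mul_inv_rev, inv_inv, mul_assoc]

lemma zm_two (τ : H) (n : ℕ) (z : ℂ) : zm τ n (2 * z) = 2 * zm τ (n + 1) z := by
  rw [zm_apply, zm_apply, pow_succ, mul_assoc]; field_simp

lemma zm_succ {τ : H} {ρ : ℝ} (h : ∀ x, ρ ≤ ‖x‖ → τ (2 * x) = 2 * τ x) {n : ℕ} {z : ℂ}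
    (hz : ρ ≤ ‖2 ^ n * z‖) : zm τ (n + 1) z = zm τ n z := by
  rw [zm_apply, zm_apply, pow_succ', mul_assoc, h _ hz]; field_simp

lemma norm_le_two_pow (n : ℕ) (z : ℂ) : ‖z‖ ≤ ‖2 ^ n * z‖ := by
  rw [norm_mul, norm_pow, Complex.norm_ofNat]
  exact le_mul_of_one_le_left (norm_nonneg z) (one_le_pow₀ one_le_two)

lemma zm_far {τ : H} {ρ : ℝ} (h : ∀ x, ρ ≤ ‖x‖ → τ (2 * x) = 2 * τ x) (n : ℕ) {z : ℂ}
    (hz : ρ ≤ ‖z‖) : zm τ n z = τ z := by
  induction n with
  | zero => simp [zm_apply]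
  | succ n ih => rw [zm_succ h (hz.trans (norm_le_two_pow n z)), ih]

lemma zm_step {τ : H} {ρ : ℝ} (h : ∀ x, ρ ≤ ‖x‖ → τ (2 * x) = 2 * τ x) :
    ∃ C : ℝ, ∀ (n : ℕ) z, ‖zm τ (n + 1) z - zm τ n z‖ ≤ C * (1 / 2) ^ n := by
  obtain ⟨M, hM⟩ := bdd_on τ (2 * |ρ|)
  have M0 : 0 ≤ M := (norm_nonneg _).trans (hM 0 (by simp)).le
  refine ⟨2 * M, fun n z => ?_⟩
  by_cases hz : ρ ≤ ‖2 ^ n * z‖
  · rw [zm_succ h hz, sub_self, norm_zero]; positivity
  · have h1 : ‖2 ^ n * z‖ ≤ |ρ| := (not_le.1 hz).le.trans (le_abs_self ρ)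
    have h2 := hM (2 ^ n * z) (by linarith [abs_nonneg ρ])
    have h3 := hM (2 ^ (n + 1) * z) (by
      rw [pow_succ', mul_assoc, norm_mul, Complex.norm_ofNat]; linarith)
    have hp : (0 : ℝ) < (1 / 2) ^ n := by positivity
    refine (norm_sub_le _ _).trans ?_
    rw [zm_apply, zm_apply, norm_mul, norm_mul, norm_inv, norm_inv, norm_pow, norm_pow,
      Complex.norm_ofNat, ← inv_pow, ← inv_pow, pow_succ, ← one_div]
    nlinarith [mul_le_mul_of_nonneg_left h2.le hp.le, mul_le_mul_of_nonneg_left h3.le hp.le,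
      mul_nonneg hp.le M0]

lemma exists_lim {τ : H} {ρ : ℝ} (h : ∀ x, ρ ≤ ‖x‖ → τ (2 * x) = 2 * τ x) :
    ∃ u : ℂ → ℂ, Continuous u ∧ TendstoUniformly (fun n z => zm τ n z) u atTop := by
  obtain ⟨C, hC⟩ := zm_step h
  have hs : Summable fun n : ℕ => C * (1 / 2 : ℝ) ^ n := summable_geometric_two.mul_left C
  have h1 := tendstoUniformly_tsum_nat (f := fun n z => zm τ (n + 1) z - zm τ n z) hs hC
  refine ⟨fun z => ∑' n, (zm τ (n + 1) z - zm τ n z) + zm τ 0 z,
    (continuous_tsum (fun n => by fun_prop) hs hC).add (zm τ 0).continuous, ?_⟩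
  refine Metric.tendstoUniformly_iff.2 fun ε hε => ?_
  filter_upwards [Metric.tendstoUniformly_iff.1 h1 ε hε] with n hn z
  have := hn z
  rw [Finset.sum_range_sub (fun n => zm τ n z), dist_eq_norm] at this
  rw [dist_eq_norm]
  refine lt_of_eq_of_lt ?_ this
  congr 1; ring

lemma exists_zoom {τ : H} {ρ ρ' : ℝ} (h : ∀ x, ρ ≤ ‖x‖ → τ (2 * x) = 2 * τ x)
    (h' : ∀ x, ρ' ≤ ‖x‖ → τ⁻¹ (2 * x) = 2 * τ⁻¹ x) :
    ∃ e : H, e ∈ Cent ∧ (∀ z, ρ ≤ ‖z‖ → e z = τ z) ∧ Tendsto (zm τ) atTop (𝓝 e) := by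
  obtain ⟨u, uc, hu⟩ := exists_lim h
  obtain ⟨w, wc, hw⟩ := exists_lim h'
  have e1 : ∀ z, w (u z) = z := fun z => by
    have := hw.tendsto_comp wc.continuousAt (hu.tendsto_at z)
    simp only [zm_inv, hinv_apply] at this
    exact tendsto_nhds_unique this tendsto_const_nhds
  have e2 : ∀ z, u (w z) = z := fun z => by
    have := hu.tendsto_comp uc.continuousAt (hw.tendsto_at z)
    simp only [zm_inv, happly_inv] at this
    exact tendsto_nhds_unique this tendsto_const_nhds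
  refine ⟨⟨⟨u, w, e1, e2⟩, uc, wc⟩, fun z => ?_, fun z hz => ?_, tendsto_H fun R ε hε => ?_⟩
  · have h1 := hu.tendsto_at (2 * z)
    simp only [zm_two] at h1
    exact tendsto_nhds_unique h1
      (((hu.tendsto_at z).comp (tendsto_add_atTop_nat 1)).const_mul 2)
  · have h1 := hu.tendsto_at z
    simp only [zm_far h _ hz] at h1
    exact (tendsto_nhds_unique tendsto_const_nhds h1).symm
  · filter_upwards [Metric.tendstoUniformly_iff.1 hu ε hε] with n hn z _
    have := hn z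
    rwa [dist_comm, dist_eq_norm] at this

lemma far_of_comm {σ τ : H} (hc : σ * τ = τ * σ) (hσ : ∀ z, 1 ≤ ‖z‖ → σ z = 2 * z) :
    ∃ ρ : ℝ, ∀ x, ρ ≤ ‖x‖ → τ (2 * x) = 2 * τ x := by
  obtain ⟨R, hR⟩ := proper τ 1
  refine ⟨max R 1, fun x hx => ?_⟩
  rw [← hσ x ((le_max_right _ _).trans hx), ← hσ _ (hR x ((le_max_left _ _).trans hx)),
    ← hmul, ← hc, hmul]

lemma cent_pow {e : H} (h : e ∈ Cent) (n : ℕ) (z : ℂ) : e (2 ^ n * z) = 2 ^ n * e z := by
  induction n with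
  | zero => simp
  | succ n ih => rw [pow_succ', mul_assoc, h, ih, mul_assoc]

lemma cent_ext {a b : H} (ha : a ∈ Cent) (hb : b ∈ Cent) {ρ : ℝ}
    (h : ∀ z, ρ ≤ ‖z‖ → a z = b z) : a = b := by
  refine Homeomorph.ext fun z => ?_
  by_cases hz : z = 0
  · rw [hz, cent_zero ha, cent_zero hb]
  · obtain ⟨n, hn⟩ := pow_unbounded_of_one_lt (ρ / ‖z‖) (one_lt_two (α := ℝ))
    have h1 := h (2 ^ n * z) (by
      rw [norm_mul, norm_pow, Complex.norm_ofNat]
      exact ((div_lt_iff₀ (norm_pos_iff.2 hz)).1 hn).le)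
    rw [cent_pow ha, cent_pow hb] at h1
    exact mul_left_cancel₀ (pow_ne_zero n two_ne_zero) h1

lemma comm_inv {σ τ : H} (hc : σ * τ = τ * σ) : σ * τ⁻¹ = τ⁻¹ * σ :=
  (show Commute σ τ from hc).inv_right.eq

lemma zoom_of_comm {σ τ : H} (hc : σ * τ = τ * σ) (hσ : ∀ z, 1 ≤ ‖z‖ → σ z = 2 * z) :
    ∃ (e : H) (ρ : ℝ), e ∈ Cent ∧ (∀ z, ρ ≤ ‖z‖ → e z = τ z) ∧ Tendsto (zm τ) atTop (𝓝 e) := by
  obtain ⟨ρ, h⟩ := far_of_comm hc hσ
  obtain ⟨ρ', h'⟩ := far_of_comm (comm_inv hc) hσ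
  obtain ⟨e, he⟩ := exists_zoom h h'
  exact ⟨e, ρ, he⟩

/-! ### affine models -/

lemma two_rpow_ne (a : ℝ) : (((2 : ℝ) ^ a : ℝ) : ℂ) ≠ 0 :=
  ofReal_ne_zero.2 (Real.rpow_pos_of_pos two_pos a).ne'

/-- dilation by `2 ^ a` after the twist `p` -/
def mdl (a p : ℝ) : H := mulH _ (two_rpow_ne a) * twist p

lemma mdl_apply (a p : ℝ) (z : ℂ) : mdl a p z = (((2 : ℝ) ^ a : ℝ) : ℂ) * tw p z := rfl

lemma deg_mdl (a p : ℝ) : deg (mdl a p) = 1 :=
  deg_mul_one (deg_of_mul (mulH_apply _ _)) (deg_twist p)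

lemma continuous_mdl {A P : ℝ → ℝ} (hA : Continuous A) (hP : Continuous P) :
    Continuous fun t => mdl (A t) (P t) := by
  refine cont_iff.2 ?_
  simp only [mdl_apply]
  exact (continuous_ofReal.comp ((Real.continuous_const_rpow two_ne_zero).comp
    (hA.comp continuous_fst))).mul
    (continuous_tw.comp ((hP.comp continuous_fst).prodMk continuous_snd))

lemma tw_scale (p b : ℝ) (z : ℂ) :
    tw p ((((2 : ℝ) ^ b : ℝ) : ℂ) * z) = (((2 : ℝ) ^ b : ℝ) : ℂ) * ee ((p * b : ℝ) : ℂ) * tw p z := by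
  by_cases hz : z = 0
  · simp [hz, tw]
  · have h2 : (0 : ℝ) < 2 ^ b := Real.rpow_pos_of_pos two_pos b
    rw [tw, tw, norm_mul, norm_real, Real.norm_eq_abs, abs_of_pos h2,
      Real.logb_mul h2.ne' (norm_ne_zero_iff.2 hz), Real.logb_rpow two_pos (by norm_num),
      mul_add, ofReal_add, ee_add]
    ring

lemma mdl_comm {a p b q : ℝ} {j : ℤ} (h : a * q - b * p = j) :
    mdl a p * mdl b q = mdl b q * mdl a p := by
  refine Homeomorph.ext fun z => ?_
  have e : ee ((q * a : ℝ) : ℂ) = ee ((p * b : ℝ) : ℂ) := by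
    rw [show q * a = p * b + j by linarith, ofReal_add, ee_add, ofReal_intCast, ee_int, mul_one]
  rw [hmul, hmul, mdl_apply, mdl_apply, mdl_apply, mdl_apply, tw_scale, tw_scale, tw_tw, tw_tw, e,
    add_comm q p]
  ring

lemma twist_add (c d : ℝ) : twist (c + d) = twist c * twist d :=
  Homeomorph.ext fun z => (tw_tw c d z).symm

lemma twist_zpow (c : ℝ) (n : ℤ) : twist c ^ n = twist (c * n) := by
  induction n using Int.induction_on with
  | zero => simp [twist_zero]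
  | succ n ih => rw [zpow_add_one, ih, ← twist_add]; congr 1; push_cast; ring
  | pred n ih =>
    rw [zpow_sub_one, ih, mul_inv_eq_iff_eq_mul, ← twist_add]; congr 1; push_cast; ring

lemma dbl_zpow (n : ℤ) : ∀ z : ℂ, (dbl ^ n) z = 2 ^ n * z := by
  induction n using Int.induction_on with
  | zero => simp
  | succ n ih =>
    intro z
    rw [zpow_add_one, hmul, ih, dbl_apply, zpow_add_one₀ two_ne_zero, mul_assoc]
  | pred n ih =>
    intro z
    have : dbl⁻¹ z = 2⁻¹ * z := mulH_inv_apply 2 two_ne_zero z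
    rw [zpow_sub_one, hmul, ih, this, zpow_sub_one₀ two_ne_zero, mul_assoc]

lemma wd_mdl (j : ℝ) (a c : ℤ) : wd dbl (twist j) (a, c) = mdl a (j * c) := by
  refine Homeomorph.ext fun z => ?_
  rw [wd, twist_zpow, hmul, dbl_zpow, mdl_apply, Real.rpow_intCast, twist_apply]
  push_cast; rfl

lemma mdl_one : mdl 1 0 = dbl := Homeomorph.ext fun z => by
  simp [mdl_apply, tw_zero, dbl_apply]

lemma mdl_zero (p : ℝ) : mdl 0 p = twist p := Homeomorph.ext fun z => by
  simp [mdl_apply, twist_apply]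

lemma conn_mdl {a p b q : ℝ} {j : ℤ} (h : a * q - b * p = j) (h0 : (a + b * I : ℂ) ≠ 0) :
    Conn (dbl, twist j) (mdl a p, mdl b q) := by
  set w : ℂ := a + b * I with hw
  set μ : ℝ := a * p + b * q with hμ
  let W : ℝ → ℂ := fun t => exp (t * log w)
  let P : ℝ → ℂ := fun t => ((t * μ : ℝ) + j * I) / (starRingEnd ℂ) (W t)
  have hW : Continuous W := by fun_prop
  have hW0 : ∀ t, (starRingEnd ℂ) (W t) ≠ 0 := fun t => (map_ne_zero _).2 (exp_ne_zero _)
  have hP : Continuous P := Continuous.div (by fun_prop) (continuous_conj.comp hW) hW0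
  have hWP : ∀ t, (W t).re * (P t).im - (W t).im * (P t).re = j := fun t => by
    have : (starRingEnd ℂ) (W t) * P t = (t * μ : ℝ) + j * I := mul_div_cancel₀ _ (hW0 t)
    have := congrArg im this
    simp only [mul_im, conj_re, conj_im, add_im, ofReal_im, intCast_re, intCast_im, I_re,
      I_im] at this
    linarith
  have W1 : W 1 = w := by simp [W, exp_log h0]
  have P1 : P 1 = p + q * I := by
    refine (div_eq_iff (hW0 1)).2 ?_
    rw [W1]
    apply Complex.ext <;> simp [hw, hμ] <;> linarith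
  have := conn_path (continuous_mdl (continuous_re.comp hW) (continuous_re.comp hP))
    (continuous_mdl (continuous_im.comp hW) (continuous_im.comp hP))
    fun t _ => ⟨deg_mdl _ _, deg_mdl _ _, mdl_comm (hWP t)⟩
  simp only [Function.comp, W1, P1] at this
  simpa [W, P, hw, mdl_one, mdl_zero] using this

end M2

open M2

theorem sM2_of : S_M2 := fun σ τ hp hσ => by
  obtain ⟨e, ρ, hc, he, hl⟩ := zoom_of_comm hp.2.2 hσ
  obtain ⟨d, ρ', dc, hd, dl⟩ := zoom_of_comm (σ := σ) (τ := σ) rfl hσ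
  have hdbl : d = dbl := cent_ext dc (fun z => rfl) (ρ := max ρ' 1) fun z hz => by
    rw [hd z ((le_max_left _ _).trans hz), hσ z ((le_max_right _ _).trans hz), dbl_apply]
  have hdeg : deg e = 1 := by
    rw [← hp.2.1]
    refine deg_congr (p := ((|ρ| + 1 : ℝ) : ℂ)) ?_
    have : ρ < ‖((|ρ| + 1 : ℝ) : ℂ)‖ := by
      rw [norm_real, Real.norm_eq_abs]
      linarith [le_abs_self ρ, le_abs_self (|ρ| + 1)]
    filter_upwards [continuousAt_const.eventually_lt continuous_norm.continuousAt this] with z hz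
      using he z hz.le
  rw [hdbl] at dl
  exact ⟨e, hdeg, hc, conn_tendsto ⟨deg_dbl, hdeg, cent_iff.1 hc⟩ dl hl
    (Eventually.of_forall fun n => conn_conj hp (deg_of_mul (mulH_apply _ _)))⟩

theorem sAff_of : S_Aff := by
  refine ⟨?_, fun j a b c d h => ?_⟩
  · have := conn_path (continuous_mdl continuous_id (continuous_const (y := 0)))
      (continuous_const (y := (1 : H))) fun t _ => ⟨deg_mdl _ _, deg_one, by simp⟩
    simpa [mdl_one, mdl_zero, twist_zero] using this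
  · rw [wd_mdl, wd_mdl]
    have h' : (a : ℝ) * d - b * c = 1 := by exact_mod_cast h
    refine (conn_mdl (by linear_combination (j : ℝ) * h') fun h0 => ?_).symm
    have h1 := congrArg re h0
    have h2 := congrArg im h0
    simp at h1 h2
    simp [h1, h2] at h

end

end Pool.Agent.Lib.MP_d32f96_gt
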