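import Pool.Agent.Lib.MP_d32f96_gt.Frame

/-! Assembly of the modules. -/

namespace Pool.Agent.Lib.MP_d32f96_gt

open Set Filter Topology Metric Complex Bornology
open Pool.Agent.Lib.MP_1e9af3_an Pool.Agent.Lib.MP_069d55_gt

noncomputable section

namespace Main

lemma mem_tl {J : ℕ → Set ℂ} {n : ℕ} {x : ℂ} : x ∈ tl J n ↔ ∃ j, n ≤ j ∧ x ∈ J j := by
  simp [tl]

lemma ccu_tl {J : ℕ → Set ℂ} (h : Chn J) : CCU (tl J 0) := by
  obtain ⟨hc, hp, hn, hi⟩ := h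
  have e : tl J 0 = ⋃ j, J j := by ext x; simp [mem_tl]
  rw [e]
  refine ⟨LocallyFinite.isClosed_iUnion (fun x => ?_) fun j => (hc j).isClosed,
    IsPreconnected.iUnion_of_chain hp fun n => by simpa using hn n, fun hb => ?_⟩
  · obtain ⟨N, hN⟩ := eventually_atTop.1 (hi (‖x‖ + 1))
    refine ⟨{y | ‖y‖ < ‖x‖ + 1}, (isOpen_lt continuous_norm continuous_const).mem_nhds
      (lt_add_one ‖x‖), (finite_lt_nat N).subset ?_⟩
    rintro j ⟨y, hy, hy'⟩
    by_contra hj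
    exact (hN j (not_lt.1 hj) y hy).not_gt hy'
  · obtain ⟨M, hM⟩ := hb.exists_norm_le
    obtain ⟨j, hj⟩ := (hi (M + 1)).exists
    obtain ⟨y, hy, -⟩ := hn j
    linarith [hj y hy, hM y (mem_iUnion.2 ⟨j, hy⟩)]

lemma norm_ang (W : ℂ → ℝ) {x : ℂ} (hx : x ≠ 0) : ‖ang W x‖ = 1 := by
  rw [ang, norm_mul, norm_ee_real, norm_div, norm_real, norm_norm,
    div_self (norm_ne_zero_iff.2 hx), one_mul]

lemma lim_inv {W : ℂ → ℝ} {s : H} (h : Lim W s) : Lim W s⁻¹ := by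
  obtain ⟨ω, hω⟩ := h
  have hne : ∀ᶠ x in cocompact ℂ, x ≠ (0 : ℂ) :=
    (isCompact_singleton (x := (0 : ℂ))).compl_mem_cocompact
  have h1 : ‖ω‖ = 1 := by
    refine tendsto_nhds_unique hω.norm (tendsto_const_nhds.congr' ?_)
    filter_upwards [hne, (tendsto_cocompact s).eventually hne] with x h1 h2
    rw [norm_div, norm_ang W h1, norm_ang W h2, div_one]
  have h0 : ω ≠ 0 := by rintro rfl; simp at h1
  refine ⟨ω⁻¹, ((hω.comp (tendsto_cocompact s⁻¹)).inv₀ h0).congr fun x => ?_⟩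
  simp only [Function.comp, happly_inv, inv_div]

end Main

open Main

theorem sCT_of (K0 : S_K0) (K1 : S_K1) (K2 : S_K2) (K3 : S_K3) (L4 : S_L4) (L5 : S_L5)
    (HH : S_H) : S_CT := by
  rintro f g hfg ⟨J, hJ, hNS⟩
  obtain ⟨n₀, h0⟩ := hNS 0
  set J' : ℕ → Set ℂ := fun n => J (n + n₀) with hJ'
  have hC : Chn J' := ⟨fun n => hJ.1 _, fun n => hJ.2.1 _,
    fun n => by simpa [hJ', add_right_comm] using hJ.2.2.1 (n + n₀),
    fun R => (tendsto_add_atTop_nat n₀).eventually (hJ.2.2.2 R)⟩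
  have hs : ∀ n m, m ≤ n + n₀ → tl J' n ⊆ tl J m := fun n m hm x hx => by
    obtain ⟨j, hj, hx⟩ := mem_tl.1 hx
    exact mem_tl.2 ⟨j + n₀, by omega, hx⟩
  have hlog : ∀ (s : H) n m, m ≤ n + n₀ → NS (tl J m ∪ s '' tl J m) →
      HasLog id (tl J' n ∪ s '' tl J' n) := fun s n m hm h =>
    K0 J' s n hC fun K hK hK' => h K hK
      (hK'.trans (union_subset_union (hs n m hm) (image_mono (hs n m hm))))
  obtain ⟨L, hL, hLe⟩ := hlog _ 0 n₀ (by omega) h0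
  obtain ⟨W, hW, R, hR⟩ := K1 _ (ccu_tl hC)
    ⟨L, hL.mono subset_union_left, fun z hz => hLe z (Or.inl hz)⟩
  obtain ⟨W', hW', hf, hg⟩ := K3 f g W 20 hfg hW fun p => by
    obtain ⟨n, hn⟩ := hNS p
    exact K2 J' _ W R n hC hW hR (hlog _ n n (by omega) hn)
  have hS : ∀ s ∈ ({f, f⁻¹, g, g⁻¹} : Set H), Lim W' s := by
    rintro s (rfl | rfl | rfl | rfl)
    exacts [hf, lim_inv hf, hg, lim_inv hg]
  obtain ⟨h, Θ, v, hh, hF, hsep⟩ := L4 W' _ hW' (toFinite _) hS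
  have key : ∀ s ∈ ({f, f⁻¹, g, g⁻¹} : Set H), Ext (h⁻¹ * s * h)⁻¹ := fun s hs => by
    obtain ⟨ω, hω⟩ := hS s hs
    refine L5 _ _ Θ v ω hF ((hω.comp (tendsto_cocompact h)).congr fun x => ?_) (hsep s hs)
    simp only [Function.comp, hmul, happly_inv]
  have e : ∀ s : H, (h⁻¹ * s⁻¹ * h)⁻¹ = h⁻¹ * s * h := fun s => by group
  exact (conn_conj hfg hh).trans (HH _ _ (hom_conj hfg h)
    ⟨e f ▸ key f⁻¹ (by simp), key f (by simp), e g ▸ key g⁻¹ (by simp), key g (by simp)⟩)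

theorem main_of (CT : S_CT) (hI : S_I) (J0 : S_J0) (JC : S_JC) (J1 : S_J1) (J2 : S_J2)
    (M1 : S_M1) (M2 : S_M2) (Aff : S_Aff) (hN : S_N) {f g : H} (hfg : (f, g) ∈ Hom) :
    ∃ j : ℤ, Conn (f, g) (dbl, twist j) := by
  have h0 : Conn (f, g) (1, 1) → ∃ j : ℤ, Conn (f, g) (dbl, twist j) := fun h =>
    ⟨0, by simpa using h.trans Aff.1⟩
  by_cases hc : ∀ R, ¬ Coc f g R
  · exact h0 (hI f g hfg hc)
  push Not at hc
  obtain ⟨R, hR⟩ := hc
  have hcm : f * g = g * f := hfg.2.2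
  rcases J0 _ (JC f g R) (fun ν hν => hν.1) with ⟨σ, ⟨u, v, huv⟩, hσ⟩ |
    ⟨ν₁, h₁, ν₂, h₂, ν₃, h₃, η, e₂, e₃, a, b, ha, hb, hν⟩
  · have hA := J1 f g R σ hcm hR hσ
    set τ : ℤ × ℤ := (-v, u) with hτ
    have hH := wd_hom hfg σ τ
    obtain ⟨h, hh, h2⟩ := M1 _ hH.1 hA
    obtain ⟨e, he, heC, hce⟩ := M2 _ _ (hom_conj hH h) h2
    obtain ⟨j, hj⟩ := hN e he heC
    have h3 := conn_word (((conn_conj hH hh).trans hce).trans hj) (u, -σ.2) (v, σ.1)
    have e1 : wd (wd f g σ) (wd f g τ) (u, -σ.2) = f := by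
      rw [wd, ← wd_zsmul hcm, ← wd_zsmul hcm, ← wd_add hcm,
        show u • σ + (-σ.2) • τ = (1, 0) from Prod.ext (by simp [hτ]; linarith) (by simp [hτ]; ring)]
      simp [wd]
    have e2 : wd (wd f g σ) (wd f g τ) (v, σ.1) = g := by
      rw [wd, ← wd_zsmul hcm, ← wd_zsmul hcm, ← wd_add hcm,
        show v • σ + σ.1 • τ = (0, 1) from Prod.ext (by simp [hτ]; ring) (by simp [hτ]; linarith)]
      simp [wd]
    rw [e1, e2] at h3
    exact ⟨j, h3.trans (Aff.2 j u v (-σ.2) σ.1 (by linarith))⟩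
  · refine h0 (CT f g hfg (J2 f g R ν₁ ν₂ ν₃ η a b hcm hR (h₁.2.mono inter_subset_left)
      (h₂.2.mono inter_subset_left) (h₃.2.mono inter_subset_left) e₂ e₃ ha hb ?_ hν))
    rintro rfl
    simpa using h₁.1

theorem final_of (G1 : S_G1) (G2 : S_G2)
    (hm : ∀ f g : H, (f, g) ∈ Hom → ∃ j : ℤ, Conn (f, g) (dbl, twist j)) (k : ℤ) :
    IsPreconnected (Froz k) := by
  obtain ⟨e, he, hj, hk⟩ := G1
  have key : Froz k = (fun p : H × H => (toC p.1, toC p.2)) ''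
      connectedComponentIn Hom (dbl, twist ((-k : ℤ) : ℝ)) := by
    ext P
    constructor
    · intro hP
      obtain ⟨p, hp, rfl⟩ := G2.1 k P hP
      obtain ⟨j, h⟩ := hm p.1 p.2 hp
      have : j = -k := by
        have := (he _ _ h).trans (hj j)
        rw [hk p hp k hP] at this
        omega
      exact ⟨p, (this ▸ h.symm).2, rfl⟩
    · rintro ⟨p, hp, rfl⟩
      have hp' := connectedComponentIn_subset _ _ hp
      obtain ⟨k', hk'⟩ := G2.2 p hp'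
      have := he _ _ ⟨connectedComponentIn_nonempty_iff.1 ⟨p, hp⟩, hp⟩
      rw [hj, hk p hp' k' hk', neg_neg] at this
      exact this ▸ hk'
  rw [key]
  exact isPreconnected_connectedComponentIn.image _
    ((inducing_toC.continuous.comp continuous_fst).prodMk
      (inducing_toC.continuous.comp continuous_snd)).continuousOn

end

end Pool.Agent.Lib.MP_d32f96_gt
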