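import Pool.Agent.Lib.MP_d32f96_gt.Frame

/-! Doubly periodic homeomorphisms: periodic extension and the Alexander trick. -/

namespace Pool.Agent.Lib.MP_d32f96_gt

open Set Filter Topology Metric Complex Bornology
open Pool.Agent.Lib.MP_1e9af3_an Pool.Agent.Lib.MP_069d55_gt

noncomputable section

namespace N2

/-- the open unit square -/
def Sq : Set ℂ := Ioo 0 1 ×ℂ Ioo 0 1

lemma mem_Sq {z : ℂ} : z ∈ Sq ↔ (0 < z.re ∧ z.re < 1) ∧ 0 < z.im ∧ z.im < 1 := Iff.rfl

/-- the identity off the open unit square -/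
def Fx (k : H) : Prop := ∀ z, z ∉ Sq → k z = z

lemma Fx.inv {k : H} (h : Fx k) : Fx k⁻¹ := fun z hz => hinv_eq (h z hz)

/-- fractional part -/
def fr (z : ℂ) : ℂ := ⟨Int.fract z.re, Int.fract z.im⟩

lemma fr_add_int (z : ℂ) (m n : ℤ) : fr (z + (m + n * I)) = fr z := by
  simp [fr]

lemma fr_add_one (z : ℂ) : fr (z + 1) = fr z := by simp [fr]

lemma fr_add_I (z : ℂ) : fr (z + I) = fr z := by simp [fr]

lemma eq_fr_add (z : ℂ) : z = fr z + ((⌊z.re⌋ : ℤ) + (⌊z.im⌋ : ℤ) * I) := by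
  apply Complex.ext <;> simp [fr]

lemma fr_of_mem {z : ℂ} (h1 : 0 ≤ z.re) (h2 : z.re < 1) (h3 : 0 ≤ z.im) (h4 : z.im < 1) :
    fr z = z := by
  apply Complex.ext
  · exact Int.fract_eq_self.2 ⟨h1, h2⟩
  · exact Int.fract_eq_self.2 ⟨h3, h4⟩

lemma fr_fr (z : ℂ) : fr (fr z) = fr z := by simp [fr]

lemma norm_fr (z : ℂ) : ‖fr z‖ ≤ 2 := by
  refine (norm_le_abs_re_add_abs_im _).trans ?_
  have h1 : |Int.fract z.re| ≤ 1 := by
    rw [abs_of_nonneg (Int.fract_nonneg _)]; exact (Int.fract_lt_one _).le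
  have h2 : |Int.fract z.im| ≤ 1 := by
    rw [abs_of_nonneg (Int.fract_nonneg _)]; exact (Int.fract_lt_one _).le
  show |Int.fract z.re| + |Int.fract z.im| ≤ 2
  linarith

lemma tor_int {e : H} (h : e ∈ Tor) (z : ℂ) (m n : ℤ) :
    e (z + (m + n * I)) = e z + (m + n * I) := by
  have h1 : ∀ (m : ℤ) (z : ℂ), e (z + m) = e z + m := fun m => by
    induction m using Int.induction_on with
    | zero => simp
    | succ m ih =>
      intro z
      have := ih z
      push_cast at this ⊢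
      rw [← add_assoc, (h _).1, this, add_assoc]
    | pred m ih =>
      intro z
      have h2 := ih (z - 1)
      have h3 := (h (z - 1)).1
      push_cast at h2 ⊢
      rw [sub_add_cancel] at h3
      rw [show z + (-(m : ℂ) - 1) = z - 1 + -(m : ℂ) by ring, h2, h3]; ring
  have h2 : ∀ (n : ℤ) (z : ℂ), e (z + n * I) = e z + n * I := fun n => by
    induction n using Int.induction_on with
    | zero => simp
    | succ n ih =>
      intro z
      have := ih z
      push_cast at this ⊢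
      rw [add_mul, one_mul, ← add_assoc, (h _).2, this, add_assoc]
    | pred n ih =>
      intro z
      have h2 := ih (z - I)
      have h3 := (h (z - I)).2
      push_cast at h2 ⊢
      rw [sub_add_cancel] at h3
      rw [show z + (-(n : ℂ) - 1) * I = z - I + -(n : ℂ) * I by ring, h2, h3]; ring
  rw [← add_assoc, h2, h1, add_assoc]

lemma tor_disp {e : H} (h : e ∈ Tor) (z : ℂ) : e z - z = e (fr z) - fr z := by
  conv_lhs => rw [eq_fr_add z, tor_int h]
  ring

lemma tor_bdd {e : H} (h : e ∈ Tor) : ∃ D : ℝ, 0 ≤ D ∧ ∀ z, ‖e z - z‖ ≤ D := by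
  obtain ⟨M, hM⟩ := (isCompact_closedBall (0 : ℂ) 2).exists_bound_of_continuousOn
    (f := fun z => e z - z) (by fun_prop)
  refine ⟨max M 0, le_max_right _ _, fun z => ?_⟩
  rw [tor_disp h]
  exact (hM _ (mem_closedBall_zero_iff.2 (norm_fr z))).trans (le_max_left _ _)

/-- periodic extension as a function -/
def pf (k : H) (z : ℂ) : ℂ := z + (k (fr z) - fr z)

lemma fr_apply {k : H} (h : Fx k) (z : ℂ) : fr (k (fr z)) = k (fr z) := by
  by_cases hz : fr z ∈ Sq
  · obtain ⟨⟨h1, h2⟩, h3, h4⟩ := mem_Sq.1 ((mem_iff_of_fix h _).2 hz)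
    exact fr_of_mem h1.le h2 h3.le h4
  · rw [h _ hz, fr_fr]

lemma fr_pf {k : H} (h : Fx k) (z : ℂ) : fr (pf k z) = k (fr z) := by
  have : pf k z = k (fr z) + ((⌊z.re⌋ : ℤ) + (⌊z.im⌋ : ℤ) * I) := by
    rw [pf]; linear_combination eq_fr_add z
  rw [this, fr_add_int, fr_apply h]

lemma pf_pf {k : H} (h : Fx k) (z : ℂ) : pf k⁻¹ (pf k z) = z := by
  rw [pf, fr_pf h, hinv_apply, pf]; ring

lemma continuous_pf {T : Type*} [TopologicalSpace T] {A : T → H} (hA : Continuous A)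
    (h : ∀ t, Fx (A t)) : Continuous fun q : T × ℂ => pf (A q.1) q.2 := by
  have hD : Continuous fun q : (T × ℝ) × ℝ =>
      A q.1.1 (q.1.2 + q.2 * I) - (q.1.2 + q.2 * I) := by fun_prop
  have h1 := ContinuousOn.comp_fract' (f := fun (s : T × ℝ) (y : ℝ) =>
      A s.1 (s.2 + y * I) - (s.2 + y * I)) hD.continuousOn fun s => by
    rw [h _ _ (by simp [mem_Sq]), h _ _ (by simp [mem_Sq])]; simp
  have h2 := ContinuousOn.comp_fract' (f := fun (s : T × ℝ) (x : ℝ) =>
      A s.1 (x + (Int.fract s.2 : ℝ) * I) - (x + (Int.fract s.2 : ℝ) * I))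
      (h1.comp (f := fun q : (T × ℝ) × ℝ => ((q.1.1, q.2), q.1.2)) (by fun_prop)).continuousOn
      fun s => by
    rw [h _ _ (by simp [mem_Sq]), h _ _ (by simp [mem_Sq])]; simp
  have h3 := h2.comp (f := fun q : T × ℂ => ((q.1, q.2.im), q.2.re)) (by fun_prop)
  refine (continuous_snd.add h3).congr fun q => ?_
  have e : fr q.2 = ((Int.fract q.2.re : ℝ) : ℂ) + (Int.fract q.2.im : ℝ) * I := by
    apply Complex.ext <;> simp [fr]
  rw [pf, e]; rfl

lemma continuous_pf' {k : H} (h : Fx k) : Continuous (pf k) :=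
  (continuous_pf (T := Unit) (A := fun _ => k) continuous_const fun _ => h).comp
    (f := fun z : ℂ => ((), z)) (by fun_prop)

/-- periodic extension -/
def per (k : H) (h : Fx k) : H where
  toFun := pf k
  invFun := pf k⁻¹
  left_inv := pf_pf h
  right_inv z := by simpa using pf_pf h.inv z
  continuous_toFun := continuous_pf' h
  continuous_invFun := continuous_pf' h.inv

lemma per_apply {k : H} (h : Fx k) (z : ℂ) : per k h z = z + (k (fr z) - fr z) := rfl

lemma per_tor {k : H} (h : Fx k) : per k h ∈ Tor := fun z => by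
  simp only [per_apply, fr_add_one, fr_add_I]
  constructor <;> ring

lemma per_of_mem {k : H} (h : Fx k) {z : ℂ} (hz : z ∈ Sq) : per k h z = k z := by
  obtain ⟨⟨h1, h2⟩, h3, h4⟩ := mem_Sq.1 hz
  rw [per_apply, fr_of_mem h1.le h2 h3.le h4]; ring

lemma per_of_re {k : H} (h : Fx k) {z : ℂ} (hz : z.re = 0) : per k h z = z := by
  rw [per_apply, h _ (by simp [mem_Sq, fr, hz])]; ring

lemma isCompact_Cl : IsCompact (Icc (0 : ℝ) 1 ×ℂ Icc (0 : ℝ) 1) :=
  isCompact_Icc.reProdIm isCompact_Icc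

lemma fx_dil {k : H} (h : Fx k) {t : ℝ} (h0 : 0 ≤ t) (h1 : t ≤ 1) : Fx (dil k t) := fun z hz => by
  rcases h0.eq_or_lt with rfl | ht
  · rw [dil_zero]; rfl
  · have ht' : (t : ℂ) ≠ 0 := ofReal_ne_zero.2 ht.ne'
    rw [dil_apply k ht.ne', h, mul_inv_cancel_left₀ ht']
    intro hm
    apply hz
    obtain ⟨⟨a1, a2⟩, a3, a4⟩ := mem_Sq.1 hm
    rw [← ofReal_inv, re_ofReal_mul] at a1 a2
    rw [← ofReal_inv, im_ofReal_mul] at a3 a4
    rw [inv_mul_lt_iff₀ ht] at a2 a4
    exact mem_Sq.2 ⟨⟨(mul_pos_iff_of_pos_left (inv_pos.2 ht)).1 a1, by linarith⟩,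
      (mul_pos_iff_of_pos_left (inv_pos.2 ht)).1 a3, by linarith⟩

lemma iso_per {k : H} (h : Fx k) : IsoIn Tor (per k h) := by
  obtain ⟨M, hM⟩ := Supp.bdd (k := k) ⟨_, isCompact_Cl, subset_univ _, fun z hz => h z fun hm =>
    hz ⟨Ioo_subset_Icc_self hm.1, Ioo_subset_Icc_self hm.2⟩⟩
  have hc : Continuous fun t : ℝ => dil k (projIcc (0 : ℝ) 1 zero_le_one t) :=
    (continuous_dil hM).comp (continuous_subtype_val.comp continuous_projIcc)
  have hf : ∀ t : ℝ, Fx (dil k (projIcc (0 : ℝ) 1 zero_le_one t)) := fun t =>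
    fx_dil h (projIcc (0 : ℝ) 1 zero_le_one t).2.1 (projIcc (0 : ℝ) 1 zero_le_one t).2.2
  refine ⟨fun t => per _ (hf t), cont_iff.2 (continuous_pf hc hf), Homeomorph.ext fun z => ?_,
    Homeomorph.ext fun z => ?_, fun t => per_tor _⟩
  · simp [per_apply, dil_zero]
  · simp [per_apply, dil_one]

/-- a side of a fixed line is preserved -/
lemma half {K : H} {φ : ℂ → ℝ} (hφ : Continuous φ) (hc : IsPreconnected {z | 0 < φ z})
    (h0 : ∀ w, φ (K w) = 0 → φ w = 0) {p : ℂ} (hp : 0 < φ p) (hp' : 0 < φ (K p)) {z : ℂ}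
    (hz : 0 < φ z) : 0 < φ (K z) := by
  by_contra hn
  obtain ⟨w, hw, e⟩ := hc.intermediate_value (f := fun z => φ (K z)) hz hp
    (by fun_prop) ⟨not_lt.1 hn, hp'.le⟩
  exact (ne_of_gt hw) (h0 w e)

lemma strip {K : H} (hK : K ∈ Tor) {c : ℝ} (h : ∀ y : ℝ, K (y * I) = ((y + c : ℝ) : ℂ) * I) {z : ℂ}
    (h0 : 0 < z.re) (h1 : z.re < 1) : 0 < (K z).re ∧ (K z).re < 1 := by
  have a0 : ∀ w, (K w).re = 0 → w.re = 0 := fun w hw => by
    have : K w = K ((((K w).im - c : ℝ) : ℂ) * I) := by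
      rw [h]; apply Complex.ext <;> simp [hw]
    rw [K.injective this]; simp
  have k0 : K 0 = c * I := by simpa using h 0
  have k1 : K 1 = c * I + 1 := by simpa [k0] using (hK 0).1
  refine ⟨half (φ := re) continuous_re (convex_halfSpace_re_gt 0).isPreconnected a0 (p := 1)
    (by simp) (by simp [k1]) h0, ?_⟩
  have := half (K := K) (φ := fun z => 1 - z.re) (by fun_prop)
    (by simpa using (convex_halfSpace_re_lt 1).isPreconnected) (fun w hw => by
      have h2 := (hK (w - 1)).1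
      rw [sub_add_cancel] at h2
      have := a0 (w - 1) (by rw [h2] at hw; simpa using hw)
      simp at this; linarith) (p := 0) (by simp) (by simp [k0]) (z := z) (by linarith)
  linarith

/-- fixing the grid -/
def Gr (ρ : H) : Prop := ρ ∈ Tor ∧ (∀ y : ℝ, ρ (y * I) = y * I) ∧ ∀ x : ℝ, ρ x = x

lemma Gr.inv {ρ : H} (h : Gr ρ) : Gr ρ⁻¹ :=
  ⟨tor_inv _ h.1, fun y => hinv_eq (h.2.1 y), fun x => hinv_eq (h.2.2 x)⟩

lemma Gr.maps {ρ : H} (h : Gr ρ) {z : ℂ} (hz : z ∈ Sq) : ρ z ∈ Sq := by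
  obtain ⟨⟨h1, h2⟩, h3, h4⟩ := mem_Sq.1 hz
  refine mem_Sq.2 ⟨strip h.1 (c := 0) (by simpa using h.2.1) h1 h2, ?_⟩
  have a0 : ∀ w, (ρ w).im = 0 → w.im = 0 := fun w hw => by
    have : ρ w = ρ ((ρ w).re : ℝ) := by
      rw [h.2.2]; apply Complex.ext <;> simp [hw]
    rw [ρ.injective this]; simp
  have k0 : ρ 0 = 0 := by simpa using h.2.2 0
  have k1 : ρ I = I := by simpa using h.2.1 1
  refine ⟨half (φ := im) continuous_im (convex_halfSpace_im_gt 0).isPreconnected a0 (p := I)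
    (by simp) (by simp [k1]) h3, ?_⟩
  have := half (K := ρ) (φ := fun z => 1 - z.im) (by fun_prop)
    (by simpa using (convex_halfSpace_im_lt 1).isPreconnected) (fun w hw => by
      have h2 := (h.1 (w - I)).2
      rw [sub_add_cancel] at h2
      have := a0 (w - I) (by rw [h2] at hw; simpa using hw)
      simp at this; linarith) (p := 0) (by simp) (by simp [k0]) (z := z) (by linarith)
  linarith

lemma Gr.fix {ρ : H} (h : Gr ρ) {z : ℂ} (hz : z.re = 0 ∨ z.re = 1 ∨ z.im = 0 ∨ z.im = 1) :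
    ρ z = z := by
  rcases hz with hz | hz | hz | hz
  · rw [show z = (z.im : ℂ) * I by apply Complex.ext <;> simp [hz], h.2.1]
  · rw [show z = (z.im : ℂ) * I + 1 by apply Complex.ext <;> simp [hz], (h.1 _).1, h.2.1]
  · rw [show z = (z.re : ℂ) by apply Complex.ext <;> simp [hz], h.2.2]
  · rw [show z = (z.re : ℂ) + I by apply Complex.ext <;> simp [hz], (h.1 _).2, h.2.2]

/-- clamping to the closed square -/
def cl (z : ℂ) : ℂ := ((max 0 (min z.re 1) : ℝ) : ℂ) + ((max 0 (min z.im 1) : ℝ) : ℂ) * I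

lemma continuous_cl : Continuous cl := by unfold cl; fun_prop

lemma cl_of_mem {z : ℂ} (hz : z ∈ Sq) : cl z = z := by
  obtain ⟨⟨h1, h2⟩, h3, h4⟩ := mem_Sq.1 hz
  rw [cl, min_eq_left h2.le, min_eq_left h4.le, max_eq_right h1.le, max_eq_right h3.le, re_add_im]

lemma Gr.cl_fix {ρ : H} (h : Gr ρ) {z : ℂ} (hz : z ∉ Sq) : ρ (cl z) = cl z := by
  apply h.fix
  have e1 : (cl z).re = max 0 (min z.re 1) := by simp [cl]
  have e2 : (cl z).im = max 0 (min z.im 1) := by simp [cl]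
  rw [e1, e2]
  by_contra hn
  simp only [not_or] at hn
  obtain ⟨a1, a2, a3, a4⟩ := hn
  apply hz
  refine mem_Sq.2 ⟨⟨?_, ?_⟩, ?_, ?_⟩ <;> by_contra hh <;> rw [not_lt] at hh
  · exact a1 (max_eq_left ((min_le_left _ _).trans hh))
  · exact a2 (by rw [min_eq_right hh, max_eq_right zero_le_one])
  · exact a3 (max_eq_left ((min_le_left _ _).trans hh))
  · exact a4 (by rw [min_eq_right hh, max_eq_right zero_le_one])

/-- restriction to the square -/
def rf (ρ : H) (z : ℂ) : ℂ := z + (ρ (cl z) - cl z)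

lemma rf_of_mem (ρ : H) {z : ℂ} (hz : z ∈ Sq) : rf ρ z = ρ z := by
  rw [rf, cl_of_mem hz]; ring

lemma Gr.rf_of_not {ρ : H} (h : Gr ρ) {z : ℂ} (hz : z ∉ Sq) : rf ρ z = z := by
  rw [rf, h.cl_fix hz]; ring

lemma Gr.rf_rf {ρ : H} (h : Gr ρ) (z : ℂ) : rf ρ⁻¹ (rf ρ z) = z := by
  by_cases hz : z ∈ Sq
  · rw [rf_of_mem _ hz, rf_of_mem _ (h.maps hz), hinv_apply]
  · rw [h.rf_of_not hz, h.inv.rf_of_not hz]

lemma continuous_rf (ρ : H) : Continuous (rf ρ) := by
  have := continuous_cl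
  unfold rf; fun_prop

lemma Gr.iso {ρ : H} (h : Gr ρ) : IsoIn Tor ρ := by
  let k : H := ⟨⟨rf ρ, rf ρ⁻¹, h.rf_rf, fun z => by simpa using h.inv.rf_rf z⟩,
    continuous_rf _, continuous_rf _⟩
  have hk : Fx k := fun z hz => h.rf_of_not hz
  have e : per k hk = ρ := Homeomorph.ext fun z => by
    have : k (fr z) = ρ (fr z) := by
      by_cases hz : fr z ∈ Sq
      · exact rf_of_mem _ hz
      · rw [hk _ hz, h.fix]
        by_contra hn
        simp only [not_or] at hn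
        exact hz (mem_Sq.2 ⟨⟨(Int.fract_nonneg _).lt_of_ne' hn.1, Int.fract_lt_one _⟩,
          (Int.fract_nonneg _).lt_of_ne' hn.2.2.1, Int.fract_lt_one _⟩)
    rw [per_apply, this, ← tor_disp h.1]; ring
  exact e ▸ iso_per hk

/-- translation -/
def tr (w : ℂ) : H := Homeomorph.addRight w

lemma tr_apply (w z : ℂ) : tr w z = z + w := rfl

lemma iso_tr (w : ℂ) : IsoIn Tor (tr w) :=
  ⟨fun t => tr (t * w), cont_iff.2 (by simp only [tr_apply]; fun_prop),
    Homeomorph.ext fun z => by simp [tr_apply], by simp,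
    fun t z => by simp only [tr_apply]; constructor <;> ring⟩

end N2

end

end Pool.Agent.Lib.MP_d32f96_gt
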