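import Pool.Agent.Lib.MP_d32f96_gt.All

/-! The result on the identity component of the group of homeomorphisms. -/

namespace Pool.Agent.Lib.MP_d32f96_gt

open Set Filter Topology Metric Complex
open Pool.Agent.Lib.MP_1e9af3_an Pool.Agent.Lib.MP_069d55_gt

def Eul (f g : H) (k : ℤ) : Prop :=
  ∃ A B : ℝ → H, Continuous A ∧ Continuous B ∧ A 0 = 1 ∧ B 0 = 1 ∧ A 1 = f ∧ B 1 = g ∧
    ∃ θ : ℝ → ℝ, Continuous θ ∧ θ 1 - θ 0 = k ∧ ∀ t ∈ Icc (0 : ℝ) 1,
      (A t * B t * (A t)⁻¹ * (B t)⁻¹) 1 - (A t * B t * (A t)⁻¹ * (B t)⁻¹) 0 =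
        ((‖(A t * B t * (A t)⁻¹ * (B t)⁻¹) 1 - (A t * B t * (A t)⁻¹ * (B t)⁻¹) 0‖ : ℝ) : ℂ) *
          Complex.exp (2 * (Real.pi : ℂ) * Complex.I * ((θ t : ℝ) : ℂ))

lemma mem_comp_iff (f : H) : f ∈ connectedComponent (1 : H) ↔ deg f = 1 := by
  constructor
  · intro h
    rw [← deg_one]
    exact isLocallyConstant_deg.apply_eq_of_isPreconnected isPreconnected_connectedComponent h
      mem_connectedComponent
  · intro h
    obtain ⟨A, hA, h0, h1, -⟩ := sIso_of f h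
    exact (isPreconnected_range hA).subset_connectedComponent ⟨0, h0⟩ ⟨1, h1⟩

lemma Eul.froz {f g : H} {k : ℤ} (hc : f * g = g * f) (h : Eul f g k) :
    (toC f, toC g) ∈ Froz k := by
  obtain ⟨A, B, hA, hB, a0, b0, a1, b1, θ, hθ, hk, he⟩ := h
  refine ⟨fun x => congrArg (fun F : H => F x) hc, ⟨_, cont_iff.1 hA⟩, ⟨_, cont_iff.1 hA.inv⟩,
    ⟨_, cont_iff.1 hB⟩, ⟨_, cont_iff.1 hB.inv⟩, fun t _ x => ⟨happly_inv _ _, hinv_apply _ _,
      happly_inv _ _, hinv_apply _ _⟩, fun x => ?_, ⟨θ, hθ⟩, hk, he⟩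
  simp only [ContinuousMap.coe_mk, a0, a1, b0, b1]
  exact ⟨rfl, rfl, rfl, rfl⟩

lemma exists_eul {f g : H} (hp : (f, g) ∈ Hom) : ∃ k, Eul f g k := by
  obtain ⟨A, hA, a0, a1, -⟩ := sIso_of f hp.1
  obtain ⟨B, hB, b0, b1, -⟩ := sIso_of g hp.2.1
  set c : ℝ → H := fun t => A t * B t * (A t)⁻¹ * (B t)⁻¹ with hc
  have cc : Continuous c := by fun_prop
  obtain ⟨l, hl, he⟩ := G.lift_univ (g := fun t => c t 1 - c t 0)
    ((Continuous.hev cc continuous_const).sub (Continuous.hev cc continuous_const))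
    (fun t h => one_ne_zero ((c t).injective (sub_eq_zero.1 h)))
  have c0 : c 0 = 1 := by simp [hc, a0, b0]
  have c1 : c 1 = 1 := by
    have : f * g = g * f := hp.2.2
    simp only [hc, a1, b1]
    rw [this]; group
  obtain ⟨k, hk⟩ := G.int_of_ee (show ee (l 1) = ee (l 0) by rw [he, he, c0, c1])
  refine ⟨k, A, B, hA, hB, a0, b0, a1, b1, fun t => (l t).re, by fun_prop, ?_, fun t _ => ?_⟩
  · simpa using congrArg re hk
  · show c t 1 - c t 0 = (‖c t 1 - c t 0‖ : ℝ) * ee ((l t).re : ℝ)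
    rw [← he]
    exact ee_polar _

theorem own_connected (k : ℤ) : IsConnected {p : H × H | p.1 ∈ connectedComponent (1 : H) ∧
    p.2 ∈ connectedComponent (1 : H) ∧ p.1 * p.2 = p.2 * p.1 ∧ Eul p.1 p.2 k} := by
  obtain ⟨e, he, hj, hk⟩ := sG1_of
  have h0 : (dbl, twist ((-k : ℤ) : ℝ)) ∈ Hom :=
    ⟨deg_dbl, deg_twist _, cent_iff.1 (G.twist_cent _ (-k) rfl)⟩
  have key : {p : H × H | p.1 ∈ connectedComponent (1 : H) ∧
      p.2 ∈ connectedComponent (1 : H) ∧ p.1 * p.2 = p.2 * p.1 ∧ Eul p.1 p.2 k} =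
      connectedComponentIn Hom (dbl, twist ((-k : ℤ) : ℝ)) := by
    ext p
    simp only [mem_ofPred_eq, mem_comp_iff]
    constructor
    · rintro ⟨h1, h2, h3, h4⟩
      obtain ⟨j, h⟩ := conn_model p.1 p.2 ⟨h1, h2, h3⟩
      have : j = -k := by
        have := (he _ _ h).trans (hj j)
        rw [hk (p.1, p.2) ⟨h1, h2, h3⟩ k (h4.froz h3)] at this
        omega
      exact (this ▸ h.symm).2
    · intro hp
      have hp' := connectedComponentIn_subset _ _ hp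
      obtain ⟨k', hk'⟩ := exists_eul (f := p.1) (g := p.2) hp'
      have := he _ _ ⟨h0, hp⟩
      rw [hj, hk p hp' k' (hk'.froz hp'.2.2), neg_neg] at this
      exact ⟨hp'.1, hp'.2.1, hp'.2.2, this ▸ hk'⟩
  rw [key]
  exact isConnected_connectedComponentIn_iff.2 h0

end Pool.Agent.Lib.MP_d32f96_gt
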